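import Pool.Agent.Lib.MP_ccffa6_gt.T.Defs
import Pool.Agent.Lib.MP_ccffa6_gt.K.Tan

/-! Rectangles, Green's formula, Stokes' formula for pulled back forms. -/

open Set Filter Topology MeasureTheory
open scoped ContDiff ComplexConjugate Real

noncomputable section

namespace Pool.Agent.Lib.MP_ccffa6_gt

variable {V : Type} [NormedAddCommGroup V] [NormedSpace ℝ V]

/-- A closed rectangle. -/
def Rect (a b c d : ℝ) : Set ℂ := {z | z.re ∈ Icc a b ∧ z.im ∈ Icc c d}

theorem sq_eq_rect : Sq = Rect (-(π / 2)) (π / 2) (-(π / 2)) (π / 2) := by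
  ext z
  simp only [Sq, Rect, mem_ofPred_eq, mem_Icc, abs_le]

theorem Base0_rect (a b c d : ℝ) : Rect a b c d = Icc a b ×ℂ Icc c d := rfl

theorem Base0_mem {a b c d x y : ℝ} (hx : x ∈ Icc a b) (hy : y ∈ Icc c d) :
    (x + y * Complex.I : ℂ) ∈ Rect a b c d := ⟨by simpa using hx, by simpa using hy⟩

theorem Base0_int (a b c d : ℝ) : interior (Rect a b c d) = Ioo a b ×ℂ Ioo c d := by
  rw [Base0_rect, Complex.interior_reProdIm, interior_Icc, interior_Icc]

theorem isCompact_rect (a b c d : ℝ) : IsCompact (Rect a b c d) := isCompact_Icc.reProdIm isCompact_Icc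

theorem convex_rect (a b c d : ℝ) : Convex ℝ (Rect a b c d) :=
  ((convex_Icc a b).linear_preimage Complex.reLm).inter
    ((convex_Icc c d).linear_preimage Complex.imLm)

theorem measurableSet_rect (a b c d : ℝ) : MeasurableSet (Rect a b c d) :=
  (isCompact_rect a b c d).measurableSet

theorem volume_rect {a b c d : ℝ} (hab : a ≤ b) (hcd : c ≤ d) :
    (volume (Rect a b c d)).toReal = (b - a) * (d - c) := by
  have := Complex.volume_preserving_equiv_real_prod.measure_preimage_equiv (Icc a b ×ˢ Icc c d)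
  rw [Measure.volume_eq_prod, Measure.prod_prod, Real.volume_Icc, Real.volume_Icc] at this
  rw [show volume (Rect a b c d) = _ from this, ENNReal.toReal_mul,
    ENNReal.toReal_ofReal (sub_nonneg.2 hab), ENNReal.toReal_ofReal (sub_nonneg.2 hcd)]

theorem isCompact_sq : IsCompact Sq := sq_eq_rect ▸ isCompact_rect ..

theorem isCompact_sqB : IsCompact SqB :=
  isCompact_sq.inter_right ((isClosed_eq (by fun_prop) continuous_const).union
    (isClosed_eq (f := fun z : ℂ => |z.im|) (by fun_prop) continuous_const))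

theorem convex_sq : Convex ℝ Sq := sq_eq_rect ▸ convex_rect ..

theorem measurableSet_sq : MeasurableSet Sq := isCompact_sq.measurableSet

theorem interior_sq : interior Sq = Sq \ SqB := by
  ext z
  rw [sq_eq_rect, Base0_int, ← sq_eq_rect, Complex.mem_reProdIm, mem_Ioo, mem_Ioo, ← abs_lt,
    ← abs_lt]
  exact ⟨fun h => ⟨⟨h.1.le, h.2.le⟩, fun e => e.2.elim h.1.ne h.2.ne⟩, fun h =>
    ⟨h.1.1.lt_of_ne fun e => h.2 ⟨h.1, .inl e⟩, h.1.2.lt_of_ne fun e => h.2 ⟨h.1, .inr e⟩⟩⟩

theorem frontier_sq : frontier Sq = SqB := by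
  rw [isCompact_sq.isClosed.frontier_eq, interior_sq, sdiff_sdiff_cancel_left fun _ h => h.1]

theorem closure_interior_sq : closure (interior Sq) = Sq := by
  have h : -(π / 2) ≠ π / 2 := by linarith [Real.pi_pos]
  rw [sq_eq_rect, Base0_int, Complex.closure_reProdIm, closure_Ioo h, Base0_rect]

theorem z1_mem : z1 ∈ SqB := by
  have h : |π / 2| = π / 2 := abs_of_pos Real.pi_div_two_pos
  exact ⟨⟨h.le, abs_zero.trans_le Real.pi_div_two_pos.le⟩, .inl h⟩

theorem zero_mem_interior_sq : (0 : ℂ) ∈ interior Sq := by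
  have h : (0 : ℝ) ∈ Ioo (-(π / 2)) (π / 2) :=
    ⟨neg_lt_zero.2 Real.pi_div_two_pos, Real.pi_div_two_pos⟩
  rw [sq_eq_rect, Base0_int]
  exact ⟨h, h⟩

theorem tan_rect {a b c d : ℝ} (hab : a < b) (hcd : c < d) {z : ℂ} (hz : z ∈ Rect a b c d) :
    Tan (Rect a b c d) z = ⊤ :=
  (convex_rect a b c d).span_tangentConeAt (by
    rw [Base0_int, Complex.reProdIm_nonempty]
    exact ⟨nonempty_Ioo.2 hab, nonempty_Ioo.2 hcd⟩) (subset_closure hz)

theorem tan_sq {z : ℂ} (hz : z ∈ Sq) : Tan Sq z = ⊤ :=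
  convex_sq.span_tangentConeAt ⟨0, zero_mem_interior_sq⟩ (subset_closure hz)

theorem fderiv_eq_px_py (u : ℂ → V) (z v : ℂ) :
    fderiv ℝ u z v = v.re • px u z + v.im • py u z := by
  rw [px, py, ← map_smul, ← map_smul, ← map_add]
  exact congrArg _ (by simp)

theorem norm_fderiv_le_px_py (u : ℂ → V) (z : ℂ) : ‖fderiv ℝ u z‖ ≤ ‖px u z‖ + ‖py u z‖ := by
  refine ContinuousLinearMap.opNorm_le_bound _ (by positivity) fun v => ?_
  rw [fderiv_eq_px_py, add_mul, mul_comm, mul_comm ‖py u z‖]
  refine (norm_add_le _ _).trans (add_le_add ?_ ?_) <;> rw [norm_smul] <;> gcongr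
  exacts [Complex.abs_re_le_norm v, Complex.abs_im_le_norm v]

theorem norm_px_le (u : ℂ → V) (z : ℂ) : ‖px u z‖ ≤ ‖fderiv ℝ u z‖ := by
  simpa [px] using (fderiv ℝ u z).le_opNorm 1

theorem norm_py_le (u : ℂ → V) (z : ℂ) : ‖py u z‖ ≤ ‖fderiv ℝ u z‖ := by
  simpa [py] using (fderiv ℝ u z).le_opNorm Complex.I

theorem hasDerivAt_px {u : ℂ → V} {x y : ℝ} (h : DifferentiableAt ℝ u (x + y * Complex.I)) :
    HasDerivAt (fun t : ℝ => u (t + y * Complex.I)) (px u (x + y * Complex.I)) x :=
  h.hasFDerivAt.comp_hasDerivAt (f := fun t : ℝ => (t + y * Complex.I : ℂ)) x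
    (Complex.ofRealCLM.hasDerivAt.add_const _)

theorem hasDerivAt_py {u : ℂ → V} {x y : ℝ} (h : DifferentiableAt ℝ u (x + y * Complex.I)) :
    HasDerivAt (fun t : ℝ => u (x + t * Complex.I)) (py u (x + y * Complex.I)) y :=
  h.hasFDerivAt.comp_hasDerivAt (f := fun t : ℝ => (x + t * Complex.I : ℂ)) y
    (by simpa using (Complex.ofRealCLM.hasDerivAt.mul_const Complex.I).const_add (x : ℂ))

/-- Cauchy-Riemann equations give complex differentiability. -/
theorem differentiableAt_of_cr {F : Type} [NormedAddCommGroup F] [NormedSpace ℂ F] {h : ℂ → F}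
    {z : ℂ} (hd : DifferentiableAt ℝ h z) (hc : py h z = Complex.I • px h z) :
    HasDerivAt h (px h z) z :=
  (hd.hasFDerivAt.complexOfReal_hasFDerivAt hc).hasDerivAt

theorem cr_of_hasDerivAt {F : Type} [NormedAddCommGroup F] [NormedSpace ℂ F] {h : ℂ → F}
    {z : ℂ} {h' : F} (hd : HasDerivAt h h' z) : px h z = h' ∧ py h z = Complex.I • h' := by
  simp [px, py, hd.complexToReal_fderiv'.fderiv]

/-- Fubini on a rectangle. -/
theorem integral_rect [CompleteSpace V] {a b c d : ℝ} (hab : a ≤ b) (hcd : c ≤ d) {f : ℂ → V}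
    (hf : ContinuousOn f (Rect a b c d)) :
    (∫ z in Rect a b c d, f z = ∫ x in a..b, ∫ y in c..d, f (x + y * Complex.I)) ∧
    (∫ z in Rect a b c d, f z = ∫ y in c..d, ∫ x in a..b, f (x + y * Complex.I)) := by
  have h0 : ContinuousOn (fun p : ℝ × ℝ => f (p.1 + p.2 * Complex.I)) (Icc a b ×ˢ Icc c d) :=
    hf.comp (by fun_prop) fun p hp => Base0_mem hp.1 hp.2
  have h1 := h0.integrableOn_compact (μ := volume) (isCompact_Icc.prod isCompact_Icc)
  have h2 : ∫ z in Rect a b c d, f z = ∫ x in a..b, ∫ y in c..d, f (x + y * Complex.I) := by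
    have := Complex.volume_preserving_equiv_real_prod.setIntegral_preimage_emb
      Complex.measurableEquivRealProd.measurableEmbedding
      (fun p : ℝ × ℝ => f (p.1 + p.2 * Complex.I)) (Icc a b ×ˢ Icc c d)
    simp only [Complex.measurableEquivRealProd_apply, Complex.re_add_im] at this
    simp only [intervalIntegral.integral_of_le, hab, hcd, ← integral_Icc_eq_integral_Ioc]
    exact this.trans (setIntegral_prod _ h1)
  refine ⟨h2, h2.trans (intervalIntegral_intervalIntegral_swap (h1.mono_set ?_))⟩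
  rw [uIoc_of_le hab, uIoc_of_le hcd]
  exact prod_mono Ioc_subset_Icc_self Ioc_subset_Icc_self

omit [NormedSpace ℝ V] in
theorem Base0_hor {a b c d y : ℝ} (hab : a ≤ b) (hy : y ∈ Icc c d) {f : ℂ → V}
    (hf : ContinuousOn f (Rect a b c d)) :
    IntervalIntegrable (fun x : ℝ => f (x + y * Complex.I)) volume a b :=
  (hf.comp (by fun_prop) fun _ hx => Base0_mem hx hy).intervalIntegrable_of_Icc hab

omit [NormedSpace ℝ V] in
theorem Base0_ver {a b c d x : ℝ} (hcd : c ≤ d) (hx : x ∈ Icc a b) {f : ℂ → V}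
    (hf : ContinuousOn f (Rect a b c d)) :
    IntervalIntegrable (fun y : ℝ => f (x + y * Complex.I)) volume c d :=
  (hf.comp (by fun_prop) fun _ hy => Base0_mem hx hy).intervalIntegrable_of_Icc hcd

/-- Green's formula. -/
theorem green [CompleteSpace V] {a b c d : ℝ} (hab : a ≤ b) (hcd : c ≤ d) {P Q : ℂ → V}
    (hP : ∀ z ∈ Rect a b c d, ContDiffAt ℝ 1 P z) (hQ : ∀ z ∈ Rect a b c d, ContDiffAt ℝ 1 Q z) :
    ∫ z in Rect a b c d, (px Q z - py P z) =
      (∫ x in a..b, P (x + c * Complex.I)) - (∫ x in a..b, P (x + d * Complex.I)) +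
        (∫ y in c..d, Q (b + y * Complex.I)) - ∫ y in c..d, Q (a + y * Complex.I) := by
  have cP : ContinuousOn P (Rect a b c d) := fun z hz => (hP z hz).continuousAt.continuousWithinAt
  have cQ : ContinuousOn Q (Rect a b c d) := fun z hz => (hQ z hz).continuousAt.continuousWithinAt
  have dP : ContinuousOn (py P) (Rect a b c d) := fun z hz =>
    (((hP z hz).continuousAt_fderiv one_ne_zero).clm_apply continuousAt_const).continuousWithinAt
  have dQ : ContinuousOn (px Q) (Rect a b c d) := fun z hz =>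
    (((hQ z hz).continuousAt_fderiv one_ne_zero).clm_apply continuousAt_const).continuousWithinAt
  have h1 : ∫ x in a..b, ∫ y in c..d, py P (x + y * Complex.I) =
      ∫ x in a..b, (P (x + d * Complex.I) - P (x + c * Complex.I)) :=
    intervalIntegral.integral_congr fun x hx => by
      rw [uIcc_of_le hab] at hx
      exact intervalIntegral.integral_eq_sub_of_hasDerivAt (fun y hy => hasDerivAt_py
        ((hP _ (Base0_mem hx (uIcc_of_le hcd ▸ hy))).differentiableAt one_ne_zero))
        (Base0_ver hcd hx dP)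
  have h2 : ∫ y in c..d, ∫ x in a..b, px Q (x + y * Complex.I) =
      ∫ y in c..d, (Q (b + y * Complex.I) - Q (a + y * Complex.I)) :=
    intervalIntegral.integral_congr fun y hy => by
      rw [uIcc_of_le hcd] at hy
      exact intervalIntegral.integral_eq_sub_of_hasDerivAt (fun x hx => hasDerivAt_px
        ((hQ _ (Base0_mem (uIcc_of_le hab ▸ hx) hy)).differentiableAt one_ne_zero))
        (Base0_hor hab hy dQ)
  rw [integral_sub (dQ.integrableOn_compact (isCompact_rect ..))
      (dP.integrableOn_compact (isCompact_rect ..)), (integral_rect hab hcd dQ).2,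
    (integral_rect hab hcd dP).1, h1, h2,
    intervalIntegral.integral_sub (Base0_hor hab (right_mem_Icc.2 hcd) cP)
      (Base0_hor hab (left_mem_Icc.2 hcd) cP),
    intervalIntegral.integral_sub (Base0_ver hcd (right_mem_Icc.2 hab) cQ)
      (Base0_ver hcd (left_mem_Icc.2 hab) cQ)]
  abel

theorem dens_eq {lam : Form1 V} {u : ℂ → V} {z : ℂ} (hl : DifferentiableAt ℝ lam (u z))
    (hu : ContDiffAt ℝ 2 u z) :
    px (fun w => lam (u w) (py u w)) z - py (fun w => lam (u w) (px u w)) z = dens lam u z := by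
  have h1 := (hu.differentiableAt two_ne_zero).hasFDerivAt
  have h2 := ((hu.fderiv_right (m := 1) le_rfl).differentiableAt one_ne_zero).hasFDerivAt
  have key : ∀ e v, fderiv ℝ (fun w => lam (u w) (fderiv ℝ u w e)) z v =
      fderiv ℝ lam (u z) (fderiv ℝ u z v) (fderiv ℝ u z e) +
        lam (u z) (fderiv ℝ (fderiv ℝ u) z v e) := fun e v => by
    refine (congrArg (· v) ((hl.hasFDerivAt.comp z h1).clm_apply
      (h2.clm_apply (hasFDerivAt_const e z))).fderiv).trans ?_
    simp [add_comm]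
  simp only [px, py, dens, dF, key, sub_apply, ContinuousLinearMap.flip_apply]
  rw [hu.isSymmSndFDerivAt (by simp) 1 Complex.I]
  ring

theorem continuousAt_dens {lam : Form1 V} {u : ℂ → V} {z : ℂ} (hl : ContDiffAt ℝ 1 lam (u z))
    (hu : ContDiffAt ℝ 1 u z) : ContinuousAt (dens lam u) z := by
  have h1 : ContinuousAt (fun w => fderiv ℝ lam (u w)) z :=
    (hl.continuousAt_fderiv one_ne_zero).comp hu.continuousAt
  have h2 := fun e => (hu.continuousAt_fderiv one_ne_zero).clm_apply (continuousAt_const (y := e))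
  exact ((h1.clm_apply (h2 1)).clm_apply (h2 Complex.I)).sub
    ((h1.clm_apply (h2 Complex.I)).clm_apply (h2 1))

/-- Stokes' formula. -/
theorem stokes_rect {a b c d : ℝ} (hab : a ≤ b) (hcd : c ≤ d) {lam : Form1 V} {u : ℂ → V}
    (hl : ∀ z ∈ Rect a b c d, ContDiffAt ℝ 1 lam (u z))
    (hu : ∀ z ∈ Rect a b c d, ContDiffAt ℝ 2 u z) :
    ∫ z in Rect a b c d, dens lam u z =
      (∫ x in a..b, lam (u (x + c * Complex.I)) (px u (x + c * Complex.I))) -
        (∫ x in a..b, lam (u (x + d * Complex.I)) (px u (x + d * Complex.I))) +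
        (∫ y in c..d, lam (u (b + y * Complex.I)) (py u (b + y * Complex.I))) -
        ∫ y in c..d, lam (u (a + y * Complex.I)) (py u (a + y * Complex.I)) := by
  have h : ∀ e, ∀ z ∈ Rect a b c d, ContDiffAt ℝ 1 (fun w => lam (u w) (fderiv ℝ u w e)) z :=
    fun e z hz => ((hl z hz).comp z ((hu z hz).of_le one_le_two)).clm_apply
      (((hu z hz).fderiv_right (m := 1) le_rfl).clm_apply contDiffAt_const)
  refine Eq.trans (setIntegral_congr_fun (measurableSet_rect ..) fun z hz => ?_)
    (green hab hcd (h 1) (h Complex.I))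
  exact (dens_eq ((hl z hz).differentiableAt one_ne_zero) (hu z hz)).symm

end Pool.Agent.Lib.MP_ccffa6_gt
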