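import Pool.Agent.Lib.MP_ccffa6_gt.T.Defs

/-! The reflections, folding of the plane onto the square. -/

open Set Filter Topology MeasureTheory
open scoped ContDiff ComplexConjugate Real

noncomputable section

namespace Pool.Agent.Lib.MP_ccffa6_gt

variable {V : Type} [NormedAddCommGroup V] [NormedSpace ℝ V]

/-- Positive on one pair of sheets, negative on the other pair, zero on the grid. -/
def cc (z : ℂ) : ℝ := Real.cos z.re * Real.cos z.im

theorem r1_r1 (z : ℂ) : r1 (r1 z) = z := by simp [r1]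

theorem r2_r2 (z : ℂ) : r2 (r2 z) = z := by simp [r2]

theorem r1_r2 (z : ℂ) : r1 (r2 z) = r2 (r1 z) := by
  simp only [r1, r2, map_add, map_sub, map_mul, Complex.conj_conj, Complex.conj_ofReal,
    Complex.conj_I]
  ring

theorem r1_re (z : ℂ) : (r1 z).re = π - z.re := by simp [r1]

theorem r1_im (z : ℂ) : (r1 z).im = z.im := by simp [r1]

theorem r2_re (z : ℂ) : (r2 z).re = z.re := by simp [r2]

theorem r2_im (z : ℂ) : (r2 z).im = π - z.im := by
  simp [r2, sub_eq_neg_add]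

theorem contDiff_r1 : ContDiff ℝ ∞ r1 := contDiff_const.sub Complex.conjCLE.contDiff

theorem contDiff_r2 : ContDiff ℝ ∞ r2 := Complex.conjCLE.contDiff.add contDiff_const

theorem cc_r1 (z : ℂ) : cc (r1 z) = -cc z := by
  rw [cc, cc, r1_re, r1_im, Real.cos_pi_sub, neg_mul]

theorem cc_r2 (z : ℂ) : cc (r2 z) = -cc z := by
  rw [cc, cc, r2_re, r2_im, Real.cos_pi_sub, mul_neg]

theorem cc_per : Per cc := fun z => by
  constructor <;> simp [cc]

theorem contDiff_cc : ContDiff ℝ ∞ cc :=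
  (Real.contDiff_cos.comp Complex.reCLM.contDiff).mul (Real.contDiff_cos.comp Complex.imCLM.contDiff)

theorem cc_nonneg {z : ℂ} (hz : z ∈ Sq) : 0 ≤ cc z :=
  mul_nonneg (Real.cos_nonneg_of_mem_Icc (abs_le.1 hz.1))
    (Real.cos_nonneg_of_mem_Icc (abs_le.1 hz.2))

theorem Base1_cos0 {x : ℝ} (h : |x| ≤ π / 2) : Real.cos x = 0 ↔ |x| = π / 2 := by
  refine ⟨fun h0 => h.eq_or_lt.resolve_right fun h1 => ?_, fun h0 => ?_⟩
  · exact (Real.cos_pos_of_mem_Ioo (abs_lt.1 h1)).ne' h0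
  · rw [← Real.cos_abs, h0, Real.cos_pi_div_two]

theorem cc_eq_zero {z : ℂ} (hz : z ∈ Sq) : cc z = 0 ↔ z ∈ SqB := by
  rw [cc, mul_eq_zero, Base1_cos0 hz.1, Base1_cos0 hz.2]
  exact ⟨fun h => ⟨hz, h⟩, fun h => h.2⟩

theorem Base1_cos {x : ℝ} (h : |x| ≤ π / 2) : 2 / π * (π / 2 - |x|) ≤ Real.cos x := by
  have h1 := Real.one_sub_mul_le_cos (abs_nonneg x) h
  have h2 : 2 / π * (π / 2 - |x|) = 1 - 2 / π * |x| := by
    field_simp
  rwa [Real.cos_abs, ← h2] at h1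

theorem Base1_near {x : ℝ} (h : |x| ≤ π / 2) : ∃ t : ℝ, |t| = π / 2 ∧ |x - t| = π / 2 - |x| := by
  have hp : 0 ≤ π / 2 := by positivity
  rcases le_total 0 x with hx | hx
  · rw [abs_of_nonneg hx] at h ⊢
    exact ⟨π / 2, abs_of_nonneg hp, by rw [abs_of_nonpos (by linarith), neg_sub]⟩
  · rw [abs_of_nonpos hx] at h ⊢
    exact ⟨-(π / 2), by rw [abs_neg, abs_of_nonneg hp],
      by rw [abs_of_nonneg (by linarith)]; ring⟩

theorem Base1_sqrt {a b c d : ℝ} (ha : 0 ≤ a) (hab : a ≤ b) (h1 : 2 / π * a ≤ c)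
    (h2 : 2 / π * b ≤ d) : a ≤ π * √(c * d) := by
  have hp := Real.pi_pos
  have h0 : 0 ≤ 2 / π * a := by positivity
  have h3 : 2 / π * a ≤ d := (mul_le_mul_of_nonneg_left hab (by positivity)).trans h2
  have h4 : 2 / π * a ≤ √(c * d) := Real.le_sqrt_of_sq_le (by
    rw [sq]
    exact mul_le_mul h1 h3 h0 (h0.trans h1))
  have h5 := mul_le_mul_of_nonneg_left h4 hp.le
  have h6 : π * (2 / π * a) = 2 * a := by field_simp
  linarith

/-- A point of the square is within `π √(cc z)` of the boundary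
(`cos x ≥ (2 / π) (π / 2 - |x|)`). -/
theorem exists_sqB_near {z : ℂ} (hz : z ∈ Sq) : ∃ w ∈ SqB, ‖z - w‖ ≤ π * √(cc z) := by
  rcases le_total (π / 2 - |z.re|) (π / 2 - |z.im|) with h | h
  · obtain ⟨t, ht, e⟩ := Base1_near hz.1
    refine ⟨⟨t, z.im⟩, ⟨⟨ht.le, hz.2⟩, Or.inl ht⟩, ?_⟩
    have h1 : z - ⟨t, z.im⟩ = ((z.re - t : ℝ) : ℂ) := Complex.ext (by simp) (by simp)
    rw [h1, Complex.norm_real, Real.norm_eq_abs, e]
    exact Base1_sqrt (sub_nonneg.2 hz.1) h (Base1_cos hz.1) (Base1_cos hz.2)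
  · obtain ⟨t, ht, e⟩ := Base1_near hz.2
    refine ⟨⟨z.re, t⟩, ⟨⟨hz.1, ht.le⟩, Or.inr ht⟩, ?_⟩
    have h1 : z - ⟨z.re, t⟩ = ((z.im - t : ℝ) : ℂ) * Complex.I := Complex.ext (by simp) (by simp)
    rw [h1, norm_mul, Complex.norm_I, mul_one, Complex.norm_real, Real.norm_eq_abs, e, cc, mul_comm (Real.cos z.re)]
    exact Base1_sqrt (sub_nonneg.2 hz.2) h (Base1_cos hz.2) (Base1_cos hz.1)

theorem Base1_sub {X : Type} {u : ℂ → X} (h : Per u) (z : ℂ) :
    u (z - 2 * (π : ℂ)) = u z ∧ u (z - 2 * (π : ℂ) * Complex.I) = u z := by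
  have h1 := (h (z - 2 * (π : ℂ))).1
  have h2 := (h (z - 2 * (π : ℂ) * Complex.I)).2
  rw [sub_add_cancel] at h1 h2
  exact ⟨h1.symm, h2.symm⟩

theorem Per.comp_r1 {X : Type} {u : ℂ → X} (h : Per u) : Per (fun z => u (r1 z)) := fun z => by
  have h1 : r1 (z + 2 * (π : ℂ)) = r1 z - 2 * (π : ℂ) :=
    Complex.ext (by simp [r1]; ring) (by simp [r1])
  have h2 : r1 (z + 2 * (π : ℂ) * Complex.I) = r1 z + 2 * (π : ℂ) * Complex.I :=
    Complex.ext (by simp [r1]) (by simp [r1]; ring)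
  exact ⟨(congrArg u h1).trans (Base1_sub h _).1, (congrArg u h2).trans (h _).2⟩

theorem Per.comp_r2 {X : Type} {u : ℂ → X} (h : Per u) : Per (fun z => u (r2 z)) := fun z => by
  have h1 : r2 (z + 2 * (π : ℂ)) = r2 z + 2 * (π : ℂ) :=
    Complex.ext (by simp [r2]) (by simp [r2])
  have h2 : r2 (z + 2 * (π : ℂ) * Complex.I) = r2 z - 2 * (π : ℂ) * Complex.I :=
    Complex.ext (by simp [r2]) (by simp [r2]; ring)
  exact ⟨(congrArg u h1).trans (h _).1, (congrArg u h2).trans (Base1_sub h _).2⟩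

theorem Base1_fderiv {u : ℂ → V} (h : Per u) : Per (fderiv ℝ u) := fun z => by
  constructor
  · rw [← fderiv_comp_add_right, funext fun w => (h w).1]
  · rw [← fderiv_comp_add_right, funext fun w => (h w).2]

theorem Per.px {u : ℂ → V} (h : Per u) : Per (px u) := fun z =>
  ⟨congrArg (· 1) (Base1_fderiv h z).1, congrArg (· 1) (Base1_fderiv h z).2⟩

theorem Per.py {u : ℂ → V} (h : Per u) : Per (py u) := fun z =>
  ⟨congrArg (· Complex.I) (Base1_fderiv h z).1, congrArg (· Complex.I) (Base1_fderiv h z).2⟩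

theorem Per.fderiv {u : ℂ → V} (h : Per u) : Per (fderiv ℝ u) := Base1_fderiv h

theorem Per.iteratedFDeriv {u : ℂ → V} (h : Per u) (j : ℕ) : Per (iteratedFDeriv ℝ j u) := fun z => by
  constructor
  · rw [← iteratedFDeriv_comp_add_right, funext fun w => (h w).1]
  · rw [← iteratedFDeriv_comp_add_right, funext fun w => (h w).2]

theorem Base1_red {X : Type} {u : ℂ → X} (h : Per u) (a : ℝ) (z : ℂ) :
    ∃ w : ℂ, w.re ∈ Ico a (a + 2 * π) ∧ w.im ∈ Ico a (a + 2 * π) ∧ u z = u w := by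
  have hp : 0 < 2 * π := by positivity
  have h1 : Function.Periodic (fun x : ℝ => u ⟨x, z.im⟩) (2 * π) := fun x =>
    (congrArg u (Complex.ext (by simp) (by simp))).trans (h ⟨x, z.im⟩).1
  obtain ⟨x, hx, e1⟩ := h1.exists_mem_Ico hp z.re a
  have h2 : Function.Periodic (fun y : ℝ => u ⟨x, y⟩) (2 * π) := fun y =>
    (congrArg u (Complex.ext (by simp) (by simp))).trans (h ⟨x, y⟩).2
  obtain ⟨y, hy, e2⟩ := h2.exists_mem_Ico hp z.im a
  exact ⟨⟨x, y⟩, hx, hy, e1.trans e2⟩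

/-- Every point is equivalent to a point of a fixed compact square. -/
theorem Per.ind {p : ℂ → Prop} (h : Per p)
    (h0 : ∀ z : ℂ, |z.re| ≤ π → |z.im| ≤ π → p z) (z : ℂ) : p z := by
  obtain ⟨w, h1, h2, e⟩ := Base1_red h (-π) z
  rw [e]
  exact h0 w (abs_le.2 ⟨h1.1, by linarith [h1.2]⟩) (abs_le.2 ⟨h2.1, by linarith [h2.2]⟩)

/-- Folding. -/
theorem fold_ind {p : ℂ → Prop} (h : Per p) (h1 : ∀ z, p z → p (r1 z)) (h2 : ∀ z, p z → p (r2 z))
    (h0 : ∀ z ∈ Sq, p z) (z : ℂ) : p z := by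
  have A : ∀ w : ℂ, |w.re| ≤ π / 2 → w.im ∈ Ico (-(π / 2)) (-(π / 2) + 2 * π) → p w := by
    intro w ha hb
    rcases le_total w.im (π / 2) with hc | hc
    · exact h0 w ⟨ha, abs_le.2 ⟨hb.1, hc⟩⟩
    · rw [← r2_r2 w]
      refine h2 _ (h0 _ ⟨by rwa [r2_re], ?_⟩)
      rw [r2_im]
      exact abs_le.2 ⟨by linarith [hb.2], by linarith⟩
  obtain ⟨w, ha, hb, e⟩ := Base1_red h (-(π / 2)) z
  rw [e]
  rcases le_total w.re (π / 2) with hc | hc
  · exact A w (abs_le.2 ⟨ha.1, hc⟩) hb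
  · rw [← r1_r1 w]
    refine h1 _ (A _ ?_ (by rwa [r1_im]))
    rw [r1_re]
    exact abs_le.2 ⟨by linarith [ha.2], by linarith⟩

/-- A boundary point is fixed by a reflection, up to a period. -/
theorem Per.sqB_fix {X : Type} {u : ℂ → X} (h : Per u) {z : ℂ} (hz : z ∈ SqB) :
    u (r1 z) = u z ∨ u (r2 z) = u z := by
  have hp : 0 ≤ π / 2 := by positivity
  rcases hz.2 with h1 | h1
  · left
    rcases (abs_eq hp).1 h1 with h2 | h2
    · exact congrArg u (Complex.ext (by rw [r1_re]; linarith) (r1_im z))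
    · refine (congrArg u (Complex.ext ?_ ?_)).trans (h z).1
      · simp [r1_re]
        linarith
      · simp [r1_im]
  · right
    rcases (abs_eq hp).1 h1 with h2 | h2
    · exact congrArg u (Complex.ext (r2_re z) (by rw [r2_im]; linarith))
    · refine (congrArg u (Complex.ext ?_ ?_)).trans (h z).2
      · simp [r2_re]
      · simp [r2_im]
        linarith

theorem Base1_aff (L : ℂ ≃L[ℝ] ℂ) (a : ℂ) (u : ℂ → V) (z v : ℂ) :
    fderiv ℝ (fun w => u (L w + a)) z v = fderiv ℝ u (L z + a) (L v) := by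
  have h := L.comp_right_fderiv (f := fun w => u (w + a)) (x := z)
  rw [fderiv_comp_add_right] at h
  exact congrArg (· v) h

theorem Base1_d1 (u : ℂ → V) (z v : ℂ) :
    fderiv ℝ (fun w => u (r1 w)) z v = -fderiv ℝ u (r1 z) (conj v) := by
  have h := Base1_aff (Complex.conjCLE.trans (ContinuousLinearEquiv.neg ℝ)) π u z v
  have e : ∀ w, (Complex.conjCLE.trans (ContinuousLinearEquiv.neg ℝ)) w + π = r1 w := fun w =>
    neg_add_eq_sub _ _
  simp only [e] at h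
  rw [h, ← map_neg]
  rfl

theorem Base1_d2 (u : ℂ → V) (z v : ℂ) :
    fderiv ℝ (fun w => u (r2 w)) z v = fderiv ℝ u (r2 z) (conj v) :=
  Base1_aff Complex.conjCLE _ u z v

theorem px_r1 (u : ℂ → V) (z : ℂ) : px (fun w => u (r1 w)) z = -px u (r1 z) := by
  rw [px, px, Base1_d1, map_one]

theorem py_r1 (u : ℂ → V) (z : ℂ) : py (fun w => u (r1 w)) z = py u (r1 z) := by
  rw [py, py, Base1_d1, Complex.conj_I, map_neg, neg_neg]

theorem px_r2 (u : ℂ → V) (z : ℂ) : px (fun w => u (r2 w)) z = px u (r2 z) := by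
  rw [px, px, Base1_d2, map_one]

theorem py_r2 (u : ℂ → V) (z : ℂ) : py (fun w => u (r2 w)) z = -py u (r2 z) := by
  rw [py, py, Base1_d2, Complex.conj_I, map_neg]

theorem px_clm {V' : Type} [NormedAddCommGroup V'] [NormedSpace ℝ V'] (A : V →L[ℝ] V') {u : ℂ → V}
    {z : ℂ} (h : DifferentiableAt ℝ u z) : px (fun w => A (u w)) z = A (px u z) :=
  congrArg (· 1) (A.hasFDerivAt.comp z h.hasFDerivAt).fderiv

theorem py_clm {V' : Type} [NormedAddCommGroup V'] [NormedSpace ℝ V'] (A : V →L[ℝ] V') {u : ℂ → V}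
    {z : ℂ} (h : DifferentiableAt ℝ u z) : py (fun w => A (u w)) z = A (py u z) :=
  congrArg (· Complex.I) (A.hasFDerivAt.comp z h.hasFDerivAt).fderiv

/-- Derivatives of an equivariant map. -/
theorem eqv_deriv {S : V →L[ℝ] V} {u : ℂ → V} (hu : Differentiable ℝ u) (z : ℂ) :
    ((∀ z, u (r1 z) = S (u z)) → px u (r1 z) = -S (px u z) ∧ py u (r1 z) = S (py u z)) ∧
    ((∀ z, u (r2 z) = S (u z)) → px u (r2 z) = S (px u z) ∧ py u (r2 z) = -S (py u z)) := by
  refine ⟨fun h => ?_, fun h => ?_⟩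
  · rw [← px_clm S (hu z), ← py_clm S (hu z), ← funext h, px_r1, py_r1, neg_neg]
    exact ⟨rfl, rfl⟩
  · rw [← px_clm S (hu z), ← py_clm S (hu z), ← funext h, px_r2, py_r2, neg_neg]
    exact ⟨rfl, rfl⟩

end Pool.Agent.Lib.MP_ccffa6_gt
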