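import Pool.Agent.Lib.MP_ccffa6_gt.T.WH2

/-!
Superposition at function level.
Sketch: `BA.comp`: induction on `j ≤ k` for all targets `W` and all `F`. `j = 0`: `BA.of_h2`, `lap_comp`.
Step: `BA.succ`, `px (F ∘ u) = fderiv F (u) (px u)`, induction hypothesis for `fderiv ℝ F`, `BA.app`.
`memA_of_contDiff`: induction on `k` for all `f` (`memA_succ`; base: `BA.of_h2` over `Unit`, `B0.fixed`).
`BA.of_bounds`: induction on `k` for all `u`; the hypotheses pass to `px`, `py` (`norm_iteratedFDeriv_px`).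
-/

open Set Filter Topology
open scoped ContDiff Real

noncomputable section

namespace Pool.Agent.Lib.MP_ccffa6_gt.Wi

variable {ι : Type} {V : Type} [NormedAddCommGroup V] [NormedSpace ℝ V] [CompleteSpace V]
  [FiniteDimensional ℝ V] {k : ℕ}

theorem BA.comp {W : Type} [NormedAddCommGroup W] [NormedSpace ℝ W] [CompleteSpace W]
    [FiniteDimensional ℝ W] {u : ι → ℂ → V} {F : V → W} (hF : ContDiff ℝ ∞ F) (h2 : B2 u)
    (hu : BA k u) : BA k fun i z => F (u i z) := by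
  induction k generalizing W with
  | zero =>
    have hF2 : ContDiff ℝ 2 F := hF.of_le (by norm_cast)
    have h1 : ContDiff ℝ ∞ (fderiv ℝ F) := hF.fderiv_right (by simp)
    have a1 := B0.comp h1.continuous h2.b0
    have a2 := B0.comp (h1.fderiv_right (m := 0) (by simp)).continuous h2.b0
    refine BA.of_h2 (fun i => hF2.comp (h2.c2 i))
      (fun i z => ⟨congrArg F (h2.per i z).1, congrArg F (h2.per i z).2⟩)
      (B0.comp hF.continuous h2.b0).bl ?_
    rw [show (fun i => lap fun z => F (u i z)) = _ from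
      funext fun i => funext fun z => lap_comp hF2 (h2.c2 i) z]
    exact (((a2.app h2.bx).app h2.bx).bl.add (BL.app_right a1 h2.bxx)).add
      (((a2.app h2.by').app h2.by').bl.add (BL.app_right a1 h2.byy))
  | succ k ih =>
    have h1 := ih (hF.fderiv_right (m := ∞) (by simp)) (hu.mono k.le_succ)
    have hd := hF.differentiable (by simp)
    have hud := fun i => (h2.c2 i).differentiable (by simp)
    refine BA.succ (fun i => (hF.of_le (by simp)).comp ((h2.c2 i).of_le (by norm_num)))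
      (fun i z => ⟨congrArg F (h2.per i z).1, congrArg F (h2.per i z).2⟩)
      (B0.comp hF.continuous h2.b0) ?_ ?_
    · rw [show (fun i => px fun z => F (u i z)) = _ from
        funext fun i => funext fun z => px_comp (hd _) (hud i z)]
      exact h1.app hu.dx
    · rw [show (fun i => py fun z => F (u i z)) = _ from
        funext fun i => funext fun z => py_comp (hd _) (hud i z)]
      exact h1.app hu.dy

theorem MemA.comp {W : Type} [NormedAddCommGroup W] [NormedSpace ℝ W] [CompleteSpace W]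
    [FiniteDimensional ℝ W] {f : ℂ → V} {F : V → W} (hF : ContDiff ℝ ∞ F) (hk : 2 ≤ k)
    (hf : MemA k f) : MemA k fun z => F (f z) := by
  obtain ⟨C, h⟩ := BA.comp (ι := Unit) hF ((BA.fixed hf).b2 hk) (BA.fixed hf)
  exact (h ()).1

theorem memA_of_contDiff {f : ℂ → V} (hf : ContDiff ℝ (k + 2 : ℕ) f) (hp : Per f) : MemA k f := by
  induction k generalizing f with
  | zero =>
    obtain ⟨C, h⟩ := BA.of_h2 (u := fun _ : Unit => f) (fun _ => hf) (fun _ => hp)
      (B0.fixed hf.continuous hp).bl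
      (B0.fixed (contDiff_lap (m := 0) hf (by simp)).continuous (per_lap hp)).bl
    exact (h ()).1
  | succ k ih =>
    have e : ((k + 2 : ℕ) : WithTop ℕ∞) + 1 ≤ (k + 1 + 2 : ℕ) := by norm_cast
    exact (memA_succ (hf.of_le (by norm_cast; omega)) hp (ih (contDiff_px hf e) (per_px hp))
      (ih (contDiff_py hf e) (per_py hp))).1

theorem memA_of_smooth {f : ℂ → V} (hf : ContDiff ℝ ∞ f) (hp : Per f) (k : ℕ) : MemA k f := by
  exact memA_of_contDiff (contDiff_infty.1 hf _) hp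

omit [CompleteSpace V] [FiniteDimensional ℝ V] in
theorem WSup_b0 {u : ι → ℂ → V} (hs : ∀ i, ContDiff ℝ ∞ (u i))
    (hb : ∀ j : ℕ, ∃ C : ℝ, ∀ i z, ‖iteratedFDeriv ℝ j (u i) z‖ ≤ C) : B0 u :=
  ⟨fun i => (hs i).continuous, by simpa using hb 0⟩

omit [FiniteDimensional ℝ V] in
theorem WSup_step {u : ι → ℂ → V} (hs : ∀ i, ContDiff ℝ ∞ (u i)) (hp : ∀ i, Per (u i))
    (hb : ∀ j : ℕ, ∃ C : ℝ, ∀ i z, ‖iteratedFDeriv ℝ j (u i) z‖ ≤ C) :
    (∀ i, ContDiff ℝ ∞ (px (u i))) ∧ (∀ i, Per (px (u i))) ∧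
      ∀ j : ℕ, ∃ C : ℝ, ∀ i z, ‖iteratedFDeriv ℝ j (px (u i)) z‖ ≤ C :=
  ⟨fun i => contDiff_px (hs i) (by simp), fun i => per_px (hp i), fun j => (hb (j + 1)).imp
    fun _ h i z => (norm_iteratedFDeriv_px (hs i) j z).trans (h i z)⟩

omit [FiniteDimensional ℝ V] in
theorem WSup_step' {u : ι → ℂ → V} (hs : ∀ i, ContDiff ℝ ∞ (u i)) (hp : ∀ i, Per (u i))
    (hb : ∀ j : ℕ, ∃ C : ℝ, ∀ i z, ‖iteratedFDeriv ℝ j (u i) z‖ ≤ C) :
    (∀ i, ContDiff ℝ ∞ (py (u i))) ∧ (∀ i, Per (py (u i))) ∧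
      ∀ j : ℕ, ∃ C : ℝ, ∀ i z, ‖iteratedFDeriv ℝ j (py (u i)) z‖ ≤ C :=
  ⟨fun i => contDiff_py (hs i) (by simp), fun i => per_py (hp i), fun j => (hb (j + 1)).imp
    fun _ h i z => (norm_iteratedFDeriv_py (hs i) j z).trans (h i z)⟩

theorem BA.of_bounds {u : ι → ℂ → V} (hs : ∀ i, ContDiff ℝ ∞ (u i)) (hp : ∀ i, Per (u i))
    (hb : ∀ j : ℕ, ∃ C : ℝ, ∀ i z, ‖iteratedFDeriv ℝ j (u i) z‖ ≤ C) (k : ℕ) : BA k u := by
  induction k generalizing u with
  | zero =>
    obtain ⟨s1, p1, b1⟩ := WSup_step hs hp hb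
    obtain ⟨s2, p2, b2⟩ := WSup_step' hs hp hb
    obtain ⟨s3, -, b3⟩ := WSup_step s1 p1 b1
    obtain ⟨s4, -, b4⟩ := WSup_step' s2 p2 b2
    exact BA.of_h2 (fun i => (hs i).of_le (by norm_cast)) hp (WSup_b0 hs hb).bl
      ((WSup_b0 s3 b3).add (WSup_b0 s4 b4)).bl
  | succ k ih =>
    obtain ⟨s1, p1, b1⟩ := WSup_step hs hp hb
    obtain ⟨s2, p2, b2⟩ := WSup_step' hs hp hb
    exact BA.succ (fun i => (hs i).of_le (by simp)) hp (WSup_b0 hs hb) (ih s1 p1 b1) (ih s2 p2 b2)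

end Pool.Agent.Lib.MP_ccffa6_gt.Wi
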