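import Pool.Agent.Lib.MP_ccffa6_gt.T.WInv
import Pool.Agent.Lib.MP_ccffa6_gt.T.WSup

/-!
Compactness.
Sketch: `approx_incl`: `F = multL (indicator of wt i ≤ R)`; `incl - F` is the multiplier with symbol the
indicator of `R < wt i` (`ext_co'`), of norm at most `1 / R`; the range of `F` lies in the range of the linear
map `(s → V) → WA k V`, `c ↦ ∑ i, tr i • c i`, `s = (finite_wt_le R).toFinset` (`memA_atom`, `MemA.hasSum`).
`subseq_of_BA`: the coefficient sequences lie in a compact product of closed balls of `Ix → V`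
(`isCompact_univ_pi`, `IsCompact.tendsto_subseq`); along the subsequence finitely many coefficients are Cauchy
and the tails are at most `2 C / R`, so it is a Cauchy sequence in `WA k V`.
`exists_intSq`: `LinearMap.mkContinuous`, `Sq` is compact, bound by `norm_fn_le`.
-/

open Set Filter Topology MeasureTheory
open scoped ContDiff ComplexConjugate Real

noncomputable section

namespace Pool.Agent.Lib.MP_ccffa6_gt

open Wi

attribute [local instance] Wi.cpl

namespace WA

variable {k : ℕ} {V : Type} [NormedAddCommGroup V] [NormedSpace ℝ V] [FiniteDimensional ℝ V]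
  {V' : Type} [NormedAddCommGroup V'] [NormedSpace ℝ V'] [FiniteDimensional ℝ V']

theorem WCpt_fin {j : ℕ} (F : WA j V →L[ℝ] WA k V) (R : ℝ)
    (hF : ∀ u i, R < wt i → co (fn (F u)) i = 0) :
    FiniteDimensional ℝ (LinearMap.range (F : WA j V →ₗ[ℝ] WA k V)) := by
  let L : WA k V →ₗ[ℝ] ((finite_wt_le R).toFinset → V) :=
    { toFun := fun u i => co (fn u) i
      map_add' := fun u v => funext fun i => co_add u.memA.cont v.memA.cont i
      map_smul' := fun c u => funext fun i => co_smul c (fn u) i }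
  refine FiniteDimensional.of_injective (L.domRestrict _) ?_
  rintro ⟨_, u, rfl⟩ ⟨_, v, rfl⟩ h
  refine Subtype.ext (ext_co' fun i => ?_)
  rcases le_or_gt (wt i) R with hi | hi
  · exact congrFun h ⟨i, by simpa using hi⟩
  · exact (hF u i hi).trans (hF v i hi).symm

theorem approx_incl : Approx (incl : WA (k + 1) V →L[ℝ] WA k V) := by
  intro ε hε
  have hR : 0 < 2 / ε := by positivity
  have h1 : ∀ i : Ix, wt i ^ k * |if wt i ≤ 2 / ε then (1 : ℝ) else 0| ≤ 1 * wt i ^ (k + 1) := by
    intro i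
    have hw := one_le_wt i
    have hp : 0 < wt i ^ k := by positivity
    split_ifs
    · rw [abs_one, pow_succ]
      nlinarith
    · rw [abs_zero, mul_zero]
      positivity
  have h2 : ∀ i : Ix,
      wt i ^ k * |if wt i ≤ 2 / ε then (0 : ℝ) else 1| ≤ ε / 2 * wt i ^ (k + 1) := by
    intro i
    have hw := one_le_wt i
    have hp : 0 < wt i ^ k := by positivity
    split_ifs with h
    · rw [abs_zero, mul_zero]
      positivity
    · rw [not_le, div_lt_iff₀ hε] at h
      rw [abs_one, pow_succ]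
      nlinarith
  refine ⟨multL _ 1 (fun i => by simp) h1, WCpt_fin _ (2 / ε) fun u i hi => ?_, ?_⟩
  · rw [co_multL, if_neg hi.not_ge, zero_smul]
  · refine lt_of_le_of_lt (ContinuousLinearMap.opNorm_le_bound _ (by positivity) fun u => ?_)
      (half_lt_self hε)
    have e : (incl - multL _ 1 (fun i => by simp) h1 : WA (k + 1) V →L[ℝ] WA k V) u =
        multL _ (ε / 2) (fun i => by simp) h2 u := by
      refine ext_co' fun i => ?_
      rw [co_multL, sub_apply]
      refine (co_sub (memA _).cont (memA _).cont i).trans ?_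
      rw [← fn_eq, ← fn_eq, co_multL, fn_incl]
      split_ifs <;> simp
    rw [e]
    exact norm_multL ..

theorem WCpt_cpt {A B : Type} [NormedAddCommGroup A] [NormedSpace ℝ A] [NormedAddCommGroup B]
    [NormedSpace ℝ B] [CompleteSpace B] {K : A →L[ℝ] B} (h : Approx K) : IsCompactOperator K := by
  have hc := isClosed_setOfPred_isCompactOperator (σ₁₂ := RingHom.id ℝ) (M₁ := A) (M₂ := B)
  refine hc.closure_subset (Metric.mem_closure_iff.2 fun ε hε => ?_)
  obtain ⟨F, hF, hd⟩ := h ε hε
  refine ⟨F, ?_, by rwa [dist_eq_norm]⟩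
  have := FiniteDimensional.proper_real (LinearMap.range (F : A →ₗ[ℝ] B))
  exact (isCompactOperator_of_locallyCompactSpace_dom
    (F.codRestrict (LinearMap.range (F : A →ₗ[ℝ] B)) fun x => ⟨x, rfl⟩)).clm_comp
      (LinearMap.range (F : A →ₗ[ℝ] B)).subtypeL

theorem subseq_of_BA (u : ℕ → WA k V) (hb : BA (k + 1) fun i => fn (u i)) :
    ∃ (φ : ℕ → ℕ) (v : WA k V), StrictMono φ ∧ Tendsto (u ∘ φ) atTop (𝓝 v) := by
  obtain ⟨C, h⟩ := hb
  obtain ⟨K, hK, hs⟩ := IsCompactOperator.image_closedBall_subset_compact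
    (f := ((incl : WA (k + 1) V →L[ℝ] WA k V) : WA (k + 1) V →ₗ[ℝ] WA k V))
    (WCpt_cpt approx_incl) C
  obtain ⟨v, -, φ, hφ, hv⟩ := hK.tendsto_subseq (x := u) fun i =>
    hs ⟨mk (fn (u i)) (h i).1, mem_closedBall_zero_iff.2 (h i).2, val_ext rfl⟩
  exact ⟨φ, v, hφ, hv⟩

/-- Smooth maps with uniform bounds on all derivatives subconverge. -/
theorem subseq (u : ℕ → WA k V) (hs : ∀ i, ContDiff ℝ ∞ (fn (u i)))
    (hb : ∀ j : ℕ, ∃ C : ℝ, ∀ i z, ‖iteratedFDeriv ℝ j (fn (u i)) z‖ ≤ C) :
    ∃ (φ : ℕ → ℕ) (v : WA k V), StrictMono φ ∧ Tendsto (u ∘ φ) atTop (𝓝 v) :=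
  subseq_of_BA u (BA.of_bounds hs (fun i => (u i).per) hb (k + 1))

/-- Weighted integral over the square. -/
theorem exists_intSq {ρ : ℂ → ℂ} (hρ : ContinuousOn ρ Sq) :
    ∃ A : WA k ℝ →L[ℝ] ℂ, ∀ u, A u = ∫ z in Sq, ρ z * ((fn u z : ℝ) : ℂ) := by
  have hK : IsCompact Sq := by
    refine Metric.isCompact_of_isClosed_isBounded
      ((isClosed_le (f := fun z : ℂ => |z.re|) (by fun_prop) continuous_const).inter
        (isClosed_le (f := fun z : ℂ => |z.im|) (by fun_prop) continuous_const)) ?_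
    refine (Metric.isBounded_closedBall (x := (0 : ℂ)) (r := π)).subset fun z hz => ?_
    rw [mem_closedBall_zero_iff]
    linarith [Complex.norm_le_abs_re_add_abs_im z, hz.1, hz.2]
  have hI : ∀ u : WA k ℝ, IntegrableOn (fun z => ρ z * ((fn u z : ℝ) : ℂ)) Sq := fun u =>
    (hρ.mul (Complex.continuous_ofReal.comp u.memA.cont).continuousOn).integrableOn_compact hK
  refine ⟨LinearMap.mkContinuous
    { toFun := fun u => ∫ z in Sq, ρ z * ((fn u z : ℝ) : ℂ)
      map_add' := fun u v => ?_
      map_smul' := fun c u => ?_ } (∫ z in Sq, ‖ρ z‖) fun u => ?_, fun _ => rfl⟩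
  · rw [← integral_add (hI u) (hI v)]
    simp only [fn_add, Complex.ofReal_add, mul_add]
  · rw [RingHom.id_apply, ← integral_smul]
    simp only [fn_smul, smul_eq_mul, Complex.ofReal_mul, Complex.real_smul, mul_left_comm]
  · rw [← integral_mul_const]
    refine norm_integral_le_of_norm_le ((hρ.norm.integrableOn_compact hK).mul_const _)
      (Eventually.of_forall fun z => ?_)
    rw [norm_mul, Complex.norm_real]
    exact mul_le_mul_of_nonneg_left (norm_fn_le u z) (norm_nonneg _)

end WA

end Pool.Agent.Lib.MP_ccffa6_gt
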