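import Pool.Agent.Lib.MP_ccffa6_gt.T.WSm
import Pool.Agent.Lib.MP_ccffa6_gt.T.WCpt

/-!
The scale of Banach spaces `WA k V` of doubly periodic maps: see WSp, WOps, WSm, WInv, WCpt.
-/
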