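import Pool.Agent.Lib.MP_ccffa6_gt.T.CDefs

/-! Rectangles: calculus and monotonicity of integrals. -/

open Set Filter Topology MeasureTheory
open scoped ContDiff ComplexConjugate Real

noncomputable section

namespace Pool.Agent.Lib.MP_ccffa6_gt

variable {V : Type} [NormedAddCommGroup V] [NormedSpace ℝ V]

theorem t_cd_px {u : ℂ → V} (hu : ContDiff ℝ ∞ u) : ContDiff ℝ ∞ (px u) :=
  (hu.fderiv_right (m := ∞) le_rfl).clm_apply contDiff_const

theorem t_cd_py {u : ℂ → V} (hu : ContDiff ℝ ∞ u) : ContDiff ℝ ∞ (py u) :=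
  (hu.fderiv_right (m := ∞) le_rfl).clm_apply contDiff_const

theorem t_cd_lap {a : ℂ → ℝ} (ha : ContDiff ℝ ∞ a) : ContDiff ℝ ∞ (lap a) :=
  (t_cd_px (t_cd_px ha)).add (t_cd_py (t_cd_py ha))

theorem t_cd_gr2 {a : ℂ → ℝ} (ha : ContDiff ℝ ∞ a) : ContDiff ℝ ∞ (gr2 a) :=
  ((t_cd_px ha).pow 2).add ((t_cd_py ha).pow 2)

theorem t_gr2_nonneg (a : ℂ → ℝ) (z : ℂ) : 0 ≤ gr2 a z := add_nonneg (sq_nonneg _) (sq_nonneg _)

theorem t_cont_dens {lam : Form1 V} {u : ℂ → V} (hl : ContDiff ℝ ∞ lam) (hu : ContDiff ℝ ∞ u) :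
    Continuous (dens lam u) := by
  have h := (hl.continuous_fderiv (by simp)).comp hu.continuous
  have h1 := (t_cd_px hu).continuous
  have h2 := (t_cd_py hu).continuous
  exact ((h.clm_apply h1).clm_apply h2).sub ((h.clm_apply h2).clm_apply h1)

theorem t_px_congr {u v : ℂ → V} {z : ℂ} (h : u =ᶠ[𝓝 z] v) : px u =ᶠ[𝓝 z] px v :=
  (h.fderiv (𝕜 := ℝ)).mono fun _ e => congrArg (· 1) e

theorem t_py_congr {u v : ℂ → V} {z : ℂ} (h : u =ᶠ[𝓝 z] v) : py u =ᶠ[𝓝 z] py v :=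
  (h.fderiv (𝕜 := ℝ)).mono fun _ e => congrArg (· Complex.I) e

theorem t_lap_congr {a b : ℂ → ℝ} {z : ℂ} (h : a =ᶠ[𝓝 z] b) : lap a z = lap b z := by
  rw [lap, lap, (t_px_congr (t_px_congr h)).eq_of_nhds, (t_py_congr (t_py_congr h)).eq_of_nhds]

theorem t_gr2_congr {a b : ℂ → ℝ} {z : ℂ} (h : a =ᶠ[𝓝 z] b) : gr2 a z = gr2 b z := by
  rw [gr2, gr2, (t_px_congr h).eq_of_nhds, (t_py_congr h).eq_of_nhds]

theorem t_px_comp {f : ℝ → ℝ} {a : ℂ → ℝ} {z : ℂ} (hf : DifferentiableAt ℝ f (a z))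
    (ha : DifferentiableAt ℝ a z) : px (fun w => f (a w)) z = deriv f (a z) * px a z :=
  congrArg (· 1) (hf.hasDerivAt.comp_hasFDerivAt z ha.hasFDerivAt).fderiv

theorem t_py_comp {f : ℝ → ℝ} {a : ℂ → ℝ} {z : ℂ} (hf : DifferentiableAt ℝ f (a z))
    (ha : DifferentiableAt ℝ a z) : py (fun w => f (a w)) z = deriv f (a z) * py a z :=
  congrArg (· Complex.I) (hf.hasDerivAt.comp_hasFDerivAt z ha.hasFDerivAt).fderiv

theorem t_px_mul {f g : ℂ → ℝ} {z : ℂ} (hf : DifferentiableAt ℝ f z) (hg : DifferentiableAt ℝ g z) :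
    px (fun w => f w * g w) z = px f z * g z + f z * px g z := by
  rw [px, fderiv_fun_mul hf hg, add_comm, mul_comm]
  rfl

theorem t_py_mul {f g : ℂ → ℝ} {z : ℂ} (hf : DifferentiableAt ℝ f z) (hg : DifferentiableAt ℝ g z) :
    py (fun w => f w * g w) z = py f z * g z + f z * py g z := by
  rw [py, fderiv_fun_mul hf hg, add_comm, mul_comm]
  rfl

theorem t_lap_comp {f : ℝ → ℝ} {a : ℂ → ℝ} (hf : ContDiff ℝ ∞ f) (ha : ContDiff ℝ ∞ a) (z : ℂ) :
    lap (fun w => f (a w)) z = deriv f (a z) * lap a z + deriv (deriv f) (a z) * gr2 a z := by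
  have h0 := ha.differentiable (by simp)
  have h1 := hf.differentiable (by simp)
  have h2 := (contDiff_infty_iff_deriv.1 hf).2.differentiable (by simp)
  have h3 : DifferentiableAt ℝ (fun w => deriv f (a w)) z := (h2 _).comp z (h0 z)
  rw [lap, show px (fun w => f (a w)) = _ from funext fun w => t_px_comp (h1 _) (h0 w),
    show py (fun w => f (a w)) = _ from funext fun w => t_py_comp (h1 _) (h0 w), t_px_mul h3
      ((t_cd_px ha).differentiable (by simp) z),
    t_py_mul h3 ((t_cd_py ha).differentiable (by simp) z), t_px_comp (h2 _) (h0 z),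
    t_py_comp (h2 _) (h0 z), lap, gr2]
  ring

theorem t_mem_rect {a b c d x y : ℝ} :
    (x + y * Complex.I : ℂ) ∈ Rect a b c d ↔ x ∈ Icc a b ∧ y ∈ Icc c d := by
  simp [Rect]

theorem t_rect_sub {a b c d a' b' c' d' : ℝ} (h1 : a' ≤ a) (h2 : b ≤ b') (h3 : c' ≤ c)
    (h4 : d ≤ d') : Rect a b c d ⊆ Rect a' b' c' d' := fun _ h =>
  ⟨Icc_subset_Icc h1 h2 h.1, Icc_subset_Icc h3 h4 h.2⟩

theorem t_sqr_mono (z : ℂ) {r r' : ℝ} (h : r ≤ r') : sqr z r ⊆ sqr z r' :=
  t_rect_sub (by linarith) (by linarith) (by linarith) (by linarith)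

theorem t_mem_sqr {z w : ℂ} {r : ℝ} (h : ‖w - z‖ ≤ r) : w ∈ sqr z r := by
  have h1 := abs_le.1 ((Complex.abs_re_le_norm _).trans h)
  have h2 := abs_le.1 ((Complex.abs_im_le_norm _).trans h)
  rw [Complex.sub_re] at h1
  rw [Complex.sub_im] at h2
  exact ⟨⟨by linarith [h1.1], by linarith [h1.2]⟩, by linarith [h2.1], by linarith [h2.2]⟩

theorem t_norm_of_sqr {z w : ℂ} {r : ℝ} (h : w ∈ sqr z r) : ‖w - z‖ ≤ 2 * r := by
  obtain ⟨⟨h1, h2⟩, h3, h4⟩ := h
  have h5 : |(w - z).re| ≤ r := abs_le.2 (by rw [Complex.sub_re]; constructor <;> linarith)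
  have h6 : |(w - z).im| ≤ r := abs_le.2 (by rw [Complex.sub_im]; constructor <;> linarith)
  linarith [Complex.norm_le_abs_re_add_abs_im (w - z)]

theorem t_sqB_eq : SqB = Bd (-(π / 2)) (π / 2) (-(π / 2)) (π / 2) := by
  ext z
  simp only [SqB, Bd, mem_ofPred_eq, sq_eq_rect, abs_eq Real.pi_div_two_pos.le]
  tauto

theorem t_intOn {g : ℂ → ℝ} (hg : Continuous g) (a b c d : ℝ) :
    IntegrableOn g (Rect a b c d) :=
  hg.continuousOn.integrableOn_compact (isCompact_rect ..)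

theorem t_RI_nonneg {g : ℂ → ℝ} {a b c d : ℝ} (h : ∀ z ∈ Rect a b c d, 0 ≤ g z) :
    0 ≤ RI g a b c d := setIntegral_nonneg (measurableSet_rect ..) h

theorem t_RI_mono {g h : ℂ → ℝ} (hg : Continuous g) (hh : Continuous h) {a b c d : ℝ}
    (hle : ∀ z ∈ Rect a b c d, g z ≤ h z) : RI g a b c d ≤ RI h a b c d :=
  setIntegral_mono_on (t_intOn hg ..) (t_intOn hh ..) (measurableSet_rect ..) hle

theorem t_RI_sub {g : ℂ → ℝ} (hg : Continuous g) {a b c d a' b' c' d' : ℝ}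
    (hs : Rect a b c d ⊆ Rect a' b' c' d') (h0 : ∀ z ∈ Rect a' b' c' d', 0 ≤ g z) :
    RI g a b c d ≤ RI g a' b' c' d' :=
  setIntegral_mono_set (t_intOn hg ..) (ae_restrict_of_forall_mem (measurableSet_rect ..) h0)
    hs.eventuallyLE

theorem t_RI_ge {g : ℂ → ℝ} (hg : Continuous g) {a b c d m : ℝ} (hab : a ≤ b) (hcd : c ≤ d)
    (h : ∀ z ∈ Rect a b c d, m ≤ g z) : m * ((b - a) * (d - c)) ≤ RI g a b c d := by
  refine le_trans (le_of_eq ?_) (t_RI_mono continuous_const hg h)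
  rw [RI, setIntegral_const, Measure.real, volume_rect hab hcd, smul_eq_mul, mul_comm]

theorem t_RI_add {g h : ℂ → ℝ} (hg : Continuous g) (hh : Continuous h) (a b c d : ℝ) :
    RI (fun z => g z + h z) a b c d = RI g a b c d + RI h a b c d :=
  integral_add (t_intOn hg ..) (t_intOn hh ..)

theorem t_RI_add_x {g : ℂ → ℝ} (hg : Continuous g) {a m b c d : ℝ} (h1 : a ≤ m) (h2 : m ≤ b)
    (hcd : c ≤ d) : RI g a b c d = RI g a m c d + RI g m b c d := by
  have h : Continuous fun x : ℝ => ∫ y in c..d, g (x + y * Complex.I) :=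
    intervalIntegral.continuous_parametric_intervalIntegral_of_continuous' (by fun_prop) c d
  rw [RI, RI, RI, (integral_rect (h1.trans h2) hcd hg.continuousOn).1,
    (integral_rect h1 hcd hg.continuousOn).1, (integral_rect h2 hcd hg.continuousOn).1,
    intervalIntegral.integral_add_adjacent_intervals (h.intervalIntegrable ..)
      (h.intervalIntegrable ..)]

theorem t_RI_add_y {g : ℂ → ℝ} (hg : Continuous g) {a b c m d : ℝ} (hab : a ≤ b) (h1 : c ≤ m)
    (h2 : m ≤ d) : RI g a b c d = RI g a b c m + RI g a b m d := by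
  have h : Continuous fun y : ℝ => ∫ x in a..b, g (x + y * Complex.I) :=
    intervalIntegral.continuous_parametric_intervalIntegral_of_continuous' (by fun_prop) a b
  rw [RI, RI, RI, (integral_rect hab (h1.trans h2) hg.continuousOn).2,
    (integral_rect hab h1 hg.continuousOn).2, (integral_rect hab h2 hg.continuousOn).2,
    intervalIntegral.integral_add_adjacent_intervals (h.intervalIntegrable ..)
      (h.intervalIntegrable ..)]

/-- A nonnegative function which vanishes outside the square. -/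
theorem t_RI_supp {g : ℂ → ℝ} (hg : Continuous g) (h0 : ∀ z, 0 ≤ g z) (hs : ∀ z, z ∉ Sq → g z = 0)
    (a b c d : ℝ) : RI g a b c d ≤ ∫ z in Sq, g z := by
  rw [setIntegral_eq_integral_of_forall_compl_eq_zero hs]
  exact setIntegral_le_integral ((integrableOn_iff_integrable_of_support_subset
    fun z hz => by_contra fun h => hz (hs z h)).1
      (hg.continuousOn.integrableOn_compact isCompact_sq)) (.of_forall h0)

theorem t_RI_eq_zero {g : ℂ → ℝ} (hg : Continuous g) {a b c d : ℝ} (hab : a < b) (hcd : c < d)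
    (h0 : ∀ z ∈ Rect a b c d, 0 ≤ g z) (h : RI g a b c d ≤ 0) :
    ∀ z ∈ Rect a b c d, g z = 0 := by
  have h1 := (setIntegral_eq_zero_iff_of_nonneg_ae
    (ae_restrict_of_forall_mem (measurableSet_rect ..) h0) (t_intOn hg ..)).1
    (h.antisymm (t_RI_nonneg h0))
  refine Measure.eqOn_of_ae_eq h1 hg.continuousOn continuousOn_const (subset_of_eq ?_)
  rw [Base0_int, Complex.closure_reProdIm, closure_Ioo hab.ne, closure_Ioo hcd.ne, Base0_rect]

omit [NormedSpace ℝ V] in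
theorem t_cont_h {g : ℂ → V} (hg : Continuous g) (y : ℝ) :
    Continuous fun x : ℝ => g (x + y * Complex.I) := hg.comp (by fun_prop)

omit [NormedSpace ℝ V] in
theorem t_cont_v {g : ℂ → V} (hg : Continuous g) (x : ℝ) :
    Continuous fun y : ℝ => g (x + y * Complex.I) := hg.comp (by fun_prop)

theorem t_HI_sub {g : ℂ → ℝ} (hg : Continuous g) (h0 : ∀ z, 0 ≤ g z) {a b a' b' : ℝ} (h1 : a' ≤ a)
    (h : a ≤ b) (h2 : b ≤ b') (y : ℝ) : HI g a b y ≤ HI g a' b' y :=
  intervalIntegral.integral_mono_interval h1 h h2 (.of_forall fun _ => h0 _)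
    ((t_cont_h hg y).intervalIntegrable ..)

theorem t_VI_sub {g : ℂ → ℝ} (hg : Continuous g) (h0 : ∀ z, 0 ≤ g z) {c d c' d' : ℝ} (h1 : c' ≤ c)
    (h : c ≤ d) (h2 : d ≤ d') (x : ℝ) : VI g x c d ≤ VI g x c' d' :=
  intervalIntegral.integral_mono_interval h1 h h2 (.of_forall fun _ => h0 _)
    ((t_cont_v hg x).intervalIntegrable ..)

end Pool.Agent.Lib.MP_ccffa6_gt
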