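import Pool.Agent.Lib.MP_ccffa6_gt.T.Defs
import Pool.Agent.Lib.MP_ccffa6_gt.Iface

/-!
Block T: the statements exported by the sub-blocks, as propositions, and the assembly.
-/

open Set Filter Topology MeasureTheory
open scoped ContDiff ComplexConjugate Real

namespace Pool.Agent.Lib.MP_ccffa6_gt

/-- E: regularity. -/
def ERegStmt : Prop :=
  ∀ (V : Type) [NormedAddCommGroup V] [NormedSpace ℝ V] [FiniteDimensional ℝ V]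
    (J : V → V →L[ℝ] V) (u : ℂ → V) (U : Set ℂ), ContDiff ℝ ∞ J → IsOpen U →
    ContDiffOn ℝ 3 u U → JHol J u U → ContDiffOn ℝ ∞ u U

/-- E: interior estimates. -/
def EEstStmt : Prop :=
  ∀ (V : Type) [NormedAddCommGroup V] [NormedSpace ℝ V] [FiniteDimensional ℝ V]
    (J : V → V →L[ℝ] V) (ι : Type) (u : ι → ℂ → V) (U : Set ℂ), ContDiff ℝ ∞ J → IsOpen U →
    (∀ i, ContDiffOn ℝ ∞ (u i) U) → (∀ i, JHol J (u i) U) →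
    (∃ C : ℝ, ∀ i, ∀ z ∈ U, ‖u i z‖ ≤ C ∧ ‖fderiv ℝ (u i) z‖ ≤ C) →
    ∀ K : Set ℂ, IsCompact K → K ⊆ U → ∀ j : ℕ,
      ∃ C : ℝ, ∀ i, ∀ z ∈ K, ‖iteratedFDeriv ℝ j (u i) z‖ ≤ C

/-- E: compactness. -/
def EAAStmt : Prop :=
  ∀ (V : Type) [NormedAddCommGroup V] [NormedSpace ℝ V] [FiniteDimensional ℝ V]
    (J : V → V →L[ℝ] V) (u : ℕ → ℂ → V) (Us : ℕ → Set ℂ) (U : Set ℂ), ContDiff ℝ ∞ J → IsOpen U →
    (∀ i, IsOpen (Us i)) → (∀ i, ContDiffOn ℝ ∞ (u i) (Us i)) → (∀ i, JHol J (u i) (Us i)) →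
    (∀ K : Set ℂ, IsCompact K → K ⊆ U → ∃ C : ℝ, ∀ᶠ i in atTop,
      K ⊆ Us i ∧ ∀ z ∈ K, ‖u i z‖ ≤ C ∧ ‖fderiv ℝ (u i) z‖ ≤ C) →
    ∃ (φ : ℕ → ℕ) (v : ℂ → V), StrictMono φ ∧ ContDiffOn ℝ ∞ v U ∧ JHol J v U ∧
      TendstoLocallyUniformlyOn (fun i => u (φ i)) v atTop U ∧
      TendstoLocallyUniformlyOn (fun i => fderiv ℝ (u (φ i))) (fderiv ℝ v) atTop U

/-- A: the parity lemma. -/
def ParStmt : Prop :=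
  ∀ (B Y : Type) [NormedAddCommGroup B] [NormedSpace ℝ B] [CompleteSpace B]
    [NormedAddCommGroup Y] [NormedSpace ℝ Y] [CompleteSpace Y]
    (U : Set B) (F : B → Y) (Pe Q : B → Y →L[ℝ] Y) (τ : B →L[ℝ] ℝ) (Z : Set B) (u₀ : B),
    IsOpen U → ContDiffOn ℝ 2 F U → ContDiffOn ℝ 2 Pe U →
    Z = {u | u ∈ U ∧ F u = 0 ∧ τ u ∈ Icc (0 : ℝ) 1} → IsCompact Z →
    (∀ u ∈ Z, ∀ y, Q u (Q u y) = Q u y) →
    (∀ u ∈ Z, ∀ᶠ u' in 𝓝 u, ∀ e, Q u (F u' - Pe u' e) = 0 → F u' - Pe u' e = 0) →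
    (∀ u ∈ Z, ∃ E : Submodule ℝ B, FiniteDimensional ℝ E ∧
      ∀ h, Q u (fderiv ℝ F u h) = 0 → h ∈ E) →
    (∀ u ∈ Z, ∃ E : Submodule ℝ Y, FiniteDimensional ℝ E ∧
      ∀ y, ∃ h, ∃ e ∈ E, Q u y = Q u (fderiv ℝ F u h) + Q u (Pe u e)) →
    u₀ ∈ Z → τ u₀ = 0 → (∀ u ∈ Z, τ u = 0 → u = u₀) →
    (∀ h, Q u₀ (fderiv ℝ F u₀ h) = 0 → τ h = 0 → h = 0) →
    (∀ y (t : ℝ), ∃ h, Q u₀ (fderiv ℝ F u₀ h) = Q u₀ y ∧ τ h = t) →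
    ∃ u ∈ Z, τ u = 1

/-- A: operators `1 + K` with `K` approximable. -/
def FredStmt : Prop :=
  ∀ (A : Type) [NormedAddCommGroup A] [NormedSpace ℝ A] [CompleteSpace A] (K : A →L[ℝ] A),
    Approx K →
    (∃ E : Submodule ℝ A, FiniteDimensional ℝ E ∧ ∀ v, v + K v = 0 → v ∈ E) ∧
    (∃ E : Submodule ℝ A, FiniteDimensional ℝ E ∧ ∀ y, ∃ v, ∃ e ∈ E, y = v + K v + e)

/-- M: the three confinements. -/
def ConfStmt (k : ℕ) : Prop :=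
  ∃ l₀ : ℝ, 1 < l₀ ∧ ∀ (V : Type) [NormedAddCommGroup V] [NormedSpace ℝ V] [FiniteDimensional ℝ V]
    (T : TD k V) (κ : ℂ → ℂ), T.OK → l₀ ≤ T.l → ∀ τ ∈ Icc (0 : ℝ) 1, ∀ u, Sol T κ τ u →
    (∀ z ∈ SqB, -T.l / 2 ≤ (T.Cc (u z) 0).im ∧ (T.Cc (u z) 0).im ≤ T.D + T.l / 2) ∧
    (τ = 0 → MapsTo u Sq (T.Θ '' BoxP k T.l)) ∧
    (τ = 1 → MapsTo u Sq (T.Θ '' BoxM k T.l T.D))

/-- C: the area is a multiple of `π`. -/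
def QuantStmt (k : ℕ) : Prop :=
  ∀ (V : Type) [NormedAddCommGroup V] [NormedSpace ℝ V] [FiniteDimensional ℝ V]
    (T : TD k V) (u : ℂ → V), T.OK → ContDiff ℝ ∞ u → MapsTo u SqB T.L →
    ∃ m : ℤ, ∫ z in Sq, dens T.lam u z = m * π

/-- C: the degree on the boundary is an integer. -/
def JacStmt : Prop :=
  ∀ f : ℂ → ℂ, ContDiff ℝ ∞ f → (∀ z ∈ SqB, ‖f z‖ = 1) → ∃ m : ℤ, ∫ z in Sq, jac f z = m * π

/-- C (with H): the gradient bound. -/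
def GradStmt (k : ℕ) : Prop :=
  ∀ (V : Type) [NormedAddCommGroup V] [NormedSpace ℝ V] [FiniteDimensional ℝ V]
    (T : TD k V) (κ : ℂ → ℂ), T.OK → Kap κ →
    ∃ G : ℝ, ∀ τ u, Sol T κ τ u →
      (∀ z ∈ SqB, -T.l / 2 ≤ (T.Cc (u z) 0).im ∧ (T.Cc (u z) 0).im ≤ T.D + T.l / 2) →
      ∀ z, ‖fderiv ℝ u z‖ ≤ G

/-- S: the conformal map. -/
def KapStmt : Prop := ∃ κ, Kap κ

/-- S: no solution in the second box. -/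
def NoneStmt (k : ℕ) : Prop :=
  ∀ (V : Type) [NormedAddCommGroup V] [NormedSpace ℝ V] [FiniteDimensional ℝ V]
    (T : TD k V) (κ : ℂ → ℂ) (u : ℂ → V), T.OK → Kap κ → Sol T κ 1 u →
    ¬ MapsTo u Sq (T.Θ '' BoxM k T.l T.D)

/-- F (with S): continuation from `τ = 0` to `τ = 1`. -/
def ContStmt (k : ℕ) : Prop :=
  ∀ (V : Type) [NormedAddCommGroup V] [NormedSpace ℝ V] [FiniteDimensional ℝ V]
    (T : TD k V) (κ : ℂ → ℂ) (G : ℝ), T.OK → Kap κ → 1 < T.l →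
    (∀ τ ∈ Icc (0 : ℝ) 1, ∀ u, Sol T κ τ u →
      (∀ z ∈ SqB, -T.l / 2 ≤ (T.Cc (u z) 0).im ∧ (T.Cc (u z) 0).im ≤ T.D + T.l / 2) ∧
      ∀ z, ‖fderiv ℝ u z‖ ≤ G) →
    (∀ u, Sol T κ 0 u → MapsTo u Sq (T.Θ '' BoxP k T.l)) →
    ∃ u, Sol T κ 1 u

/-- B: the bridge. -/
def BridgeStmt (k : ℕ) : Prop :=
  ∀ (E : Type) [NormedAddCommGroup E] [NormedSpace ℝ E] [FiniteDimensional ℝ E]
    (W : Set (E × ℝ)) (lam : Form1 (E × ℝ)) (N : Set E) (α : Form1 E) (M : Set E) (β : Form1 E),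
    XCob (k + 1) W lam N α M β → Hyp N α → HasDisc (k + 1) (CMap M β) → ∀ l : ℝ, 1 < l →
    ∃ (V : Type) (_ : NormedAddCommGroup V) (_ : NormedSpace ℝ V) (_ : FiniteDimensional ℝ V)
      (T : TD k V), T.OK ∧ T.l = l

theorem t_of {k : ℕ} (hB : BridgeStmt k) (hConf : ConfStmt k) (hG : GradStmt k) (hK : KapStmt)
    (hN : NoneStmt k) (hC : ContStmt k) : TStmt (k + 1) := by
  intro E _ _ _ W lam N α M β hX hH hD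
  obtain ⟨l₀, hl, hc⟩ := hConf
  obtain ⟨V, _, _, _, T, hT, hTl⟩ := hB E W lam N α M β hX hH hD l₀ hl
  obtain ⟨κ, hκ⟩ := hK
  obtain ⟨G, hG⟩ := hG V T κ hT hκ
  have hc' := hc V T κ hT hTl.ge
  obtain ⟨u, hu⟩ := hC V T κ G hT hκ (hTl ▸ hl)
    (fun τ hτ u hu => ⟨(hc' τ hτ u hu).1, hG τ u hu (hc' τ hτ u hu).1⟩)
    (fun u hu => (hc' 0 ⟨le_rfl, zero_le_one⟩ u hu).2.1 rfl)
  exact hN V T κ u hT hκ hu ((hc' 1 ⟨zero_le_one, le_rfl⟩ u hu).2.2 rfl)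

end Pool.Agent.Lib.MP_ccffa6_gt
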