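import Pool.Agent.Lib.MP_ccffa6_gt.T.EEst
import Pool.Agent.Lib.MP_ccffa6_gt.T.Iface

/-! Sub-block E: regularity, estimates, compactness. -/

open Set Filter Topology Metric
open scoped ContDiff

noncomputable section

namespace Pool.Agent.Lib.MP_ccffa6_gt

/-- Regularity from `C^2`. -/
theorem t_ereg2 {V : Type} [NormedAddCommGroup V] [NormedSpace ℝ V] [FiniteDimensional ℝ V]
    {J : V → V →L[ℝ] V} {u : ℂ → V} {U : Set ℂ} (hJ : ContDiff ℝ ∞ J) (hU : IsOpen U)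
    (hu : ∀ z ∈ U, ContDiffAt ℝ 2 u z) (h : JHol J u U) : ContDiffOn ℝ ∞ u U :=
  t_e_reg (t_e_GJ hJ) hU hu (t_e_jhol hJ hU hu h)

theorem t_ereg : ERegStmt := fun _ _ _ _ _ _ _ hJ hU hu h =>
  t_ereg2 hJ hU (fun _ hz => (hu.contDiffAt (hU.mem_nhds hz)).of_le (by norm_num)) h

theorem t_eest : EEstStmt := fun V _ _ _ J ι u U hJ hU hu h ⟨C, hC⟩ K hK s j =>
  t_e_estn j V (GJ J) ι u U C (t_e_GJ hJ) hU (fun i _ hz => (hu i).contDiffAt (hU.mem_nhds hz))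
    (fun i => t_e_jhol hJ hU (fun _ hz => ((hu i).contDiffAt (hU.mem_nhds hz)).of_le
      (by norm_cast)) (h i)) (fun i z hz => norm_prod_le_iff.2 (hC i z hz)) K hK s

theorem t_e_loc {V : Type} [NormedAddCommGroup V] [NormedSpace ℝ V] [FiniteDimensional ℝ V]
    {J : V → V →L[ℝ] V} {u : ℕ → ℂ → V} {Us : ℕ → Set ℂ} {U : Set ℂ} (hJ : ContDiff ℝ ∞ J)
    (hU : IsOpen U) (ho : ∀ i, IsOpen (Us i)) (hu : ∀ i, ContDiffOn ℝ ∞ (u i) (Us i))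
    (h : ∀ i, JHol J (u i) (Us i))
    (hb : ∀ K : Set ℂ, IsCompact K → K ⊆ U → ∃ C : ℝ, ∀ᶠ i in atTop,
      K ⊆ Us i ∧ ∀ z ∈ K, ‖u i z‖ ≤ C ∧ ‖fderiv ℝ (u i) z‖ ≤ C) {z : ℂ} (hz : z ∈ U) :
    ∃ r > 0, ∃ C > 0, ∀ᶠ i in atTop, ∀ a ∈ ball z r, a ∈ Us i ∧
      ‖prj (prj (prj (u i))) a‖ ≤ C := by
  obtain ⟨r, hr, s⟩ := nhds_basis_closedBall.mem_iff.1 (hU.mem_nhds hz)
  obtain ⟨A, hA⟩ := hb _ (isCompact_closedBall z r) s
  let ι := {i // closedBall z r ⊆ Us i ∧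
    ∀ w ∈ closedBall z r, ‖u i w‖ ≤ A ∧ ‖fderiv ℝ (u i) w‖ ≤ A}
  have c : ∀ i : ι, ∀ w ∈ ball z r, ContDiffAt ℝ ∞ (u i) w := fun i w hw =>
    (hu i).contDiffAt ((ho i).mem_nhds (i.2.1 (ball_subset_closedBall hw)))
  have c3 : ∀ i : ι, ∀ w ∈ ball z r, ContDiffAt ℝ 3 (u i) w := fun i w hw =>
    (c i w hw).of_le (by norm_cast)
  have e : ∀ i : ι, Ell (GJ J) (u i) (ball z r) := fun i => t_e_jhol hJ isOpen_ball
    (fun w hw => (c i w hw).of_le (by norm_cast))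
    fun w hw => h i w (i.2.1 (ball_subset_closedBall hw))
  obtain ⟨U₁, C₁, o₁, m₁, s₁, b₁⟩ := t_e_est1 (t_e_GJ hJ) isOpen_ball c3 e
    (fun i w hw => norm_prod_le_iff.2 (i.2.2 w (ball_subset_closedBall hw))) isCompact_singleton
    (singleton_subset_iff.2 (mem_ball_self hr))
  obtain ⟨U₂, C₂, o₂, m₂, s₂, b₂⟩ := t_e_est1 (t_e_prG (t_e_GJ hJ)) o₁
    (u := fun i : ι => prj (u i)) (fun i w hw => t_e_pr (c i w (s₁ hw)) (by norm_cast))
    (fun i w hw => t_e_prol (t_e_GJ hJ) isOpen_ball (c3 i) (e i) w (s₁ hw)) b₁ isCompact_singleton m₁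
  obtain ⟨ρ, hρ, s₃⟩ := Metric.mem_nhds_iff.1 (o₂.mem_nhds (m₂ rfl))
  exact ⟨ρ, hρ, max C₂ 1, lt_max_of_lt_right one_pos, hA.mono fun i hi a ha =>
    ⟨hi.1 (ball_subset_closedBall (s₁ (s₂ (s₃ ha)))), le_max_of_le_left (b₂ ⟨i, hi⟩ a (s₃ ha))⟩⟩

theorem t_e_der {Y : Type} [NormedAddCommGroup Y] [NormedSpace ℝ Y] {f : ℕ → ℂ → Y} {U : Set ℂ}
    (hU : IsOpen U) {g : ℂ → PV Y} (h : TendstoLocallyUniformlyOn (fun i => prj (f i)) g atTop U)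
    {z : ℂ} (hz : z ∈ U) (hd : ∃ r > 0, ∀ᶠ i in atTop, ∀ a ∈ ball z r, DifferentiableAt ℝ (f i) a) :
    HasFDerivAt (fun w => (g w).1) (g z).2 z := by
  obtain ⟨r, hr, hd⟩ := hd
  have h2 := tendstoLocallyUniformlyOn_iff_filter.1
    (uniformContinuous_snd.comp_tendstoLocallyUniformlyOn h) z hz
  rw [hU.nhdsWithin_eq hz] at h2
  refine hasFDerivAt_of_tendstoUniformlyOnFilter (f := f) h2 ((hd.prod_mk (ball_mem_nhds z hr)).mono
    fun q hq => (hq.1 _ hq.2).hasFDerivAt) ?_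
  filter_upwards [hU.mem_nhds hz] with y hy using (h.tendsto_at hy).fst_nhds

theorem t_eaa : EAAStmt := by
  intro V _ _ _ J u Us U hJ hU ho hu h hb
  have := FiniteDimensional.proper_real (PV (PV V))
  have c : ∀ i, ∀ a ∈ Us i, ContDiffAt ℝ ∞ (u i) a := fun i a ha =>
    (hu i).contDiffAt ((ho i).mem_nhds ha)
  have c1 : ∀ i, ∀ a ∈ Us i, ContDiffAt ℝ ∞ (prj (u i)) a := fun i a ha => t_e_pr (c i a ha) le_rfl
  have c2 : ∀ i, ∀ a ∈ Us i, ContDiffAt ℝ ∞ (prj (prj (u i))) a := fun i a ha =>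
    t_e_pr (c1 i a ha) le_rfl
  obtain ⟨φ, g, hφ, hg, hl⟩ := t_e_aa (f := fun i => prj (prj (u i))) hU fun z hz => by
    obtain ⟨r, hr, C, hC, e⟩ := t_e_loc hJ hU ho hu h hb hz
    refine ⟨r, hr, C, hC, e.mono fun i hi a ha => ⟨(norm_prod_le_iff.1 (hi a ha).2).1,
      fun b hb => ?_⟩⟩
    rw [dist_eq_norm, dist_eq_norm]
    exact (convex_ball z r).norm_image_sub_le_of_norm_fderiv_le (𝕜 := ℝ)
      (fun w hw => (c2 i w (hi w hw).1).differentiableAt (by simp))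
      (fun w hw => (norm_prod_le_iff.1 (hi w hw).2).2) hb ha
  have m : ∀ z ∈ U, ∃ r > 0, ∀ᶠ i in atTop, ∀ a ∈ ball z r, a ∈ Us (φ i) := fun z hz => by
    obtain ⟨r, hr, C, -, e⟩ := t_e_loc hJ hU ho hu h hb hz
    exact ⟨r, hr, (hφ.tendsto_atTop.eventually e).mono fun i hi a ha => (hi a ha).1⟩
  have l1 : TendstoLocallyUniformlyOn (fun i => prj (u (φ i))) (fun w => (g w).1) atTop U :=
    uniformContinuous_fst.comp_tendstoLocallyUniformlyOn hl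
  have d1 : ∀ z ∈ U, HasFDerivAt (fun w => (g w).1) (g z).2 z := fun z hz =>
    t_e_der hU hl hz ((m z hz).imp fun r e => ⟨e.1, e.2.mono fun i hi a ha =>
      (c1 _ a (hi a ha)).differentiableAt (by simp)⟩)
  have d0 : ∀ z ∈ U, HasFDerivAt (fun w => (g w).1.1) (g z).1.2 z := fun z hz =>
    t_e_der hU l1 hz ((m z hz).imp fun r e => ⟨e.1, e.2.mono fun i hi a ha =>
      (c _ a (hi a ha)).differentiableAt (by simp)⟩)
  have s1 : ∀ z ∈ U, ContDiffAt ℝ 1 (fun w => (g w).1) z := fun z hz =>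
    contDiffAt_one_iff.2 ⟨_, U, hU.mem_nhds hz, hg.snd, d1⟩
  have s2 : ∀ z ∈ U, ContDiffAt ℝ 2 (fun w => (g w).1.1) z := fun z hz =>
    (contDiffAt_succ_iff_hasFDerivAt (n := 1)).2 ⟨_, ⟨U, hU.mem_nhds hz, d0⟩, (s1 z hz).snd⟩
  have hol : JHol J (fun w => (g w).1.1) U := fun z hz => by
    have t := l1.tendsto_at hz
    have t1 : ∀ e : ℂ, Tendsto (fun i => fderiv ℝ (u (φ i)) z e) atTop (𝓝 ((g z).1.2 e)) := fun e =>
      ((ContinuousLinearMap.apply ℝ V e).continuous.tendsto _).comp t.snd_nhds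
    have t2 : ∀ e : ℂ, Tendsto (fun i => J (u (φ i) z) (fderiv ℝ (u (φ i)) z e)) atTop
        (𝓝 (J (g z).1.1 ((g z).1.2 e))) := fun e =>
      (isBoundedBilinearMap_apply.continuous.tendsto (J (g z).1.1, (g z).1.2 e)).comp
        (((hJ.continuous.tendsto _).comp t.fst_nhds).prodMk_nhds (t1 e))
    obtain ⟨r, hr, e⟩ := m z hz
    rw [px, py, (d0 z hz).fderiv]
    exact ⟨tendsto_nhds_unique_of_eventuallyEq (t1 _) (t2 _)
      (e.mono fun i hi => (h _ z (hi z (mem_ball_self hr))).1),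
      tendsto_nhds_unique_of_eventuallyEq (t1 _) (t2 _).neg
      (e.mono fun i hi => (h _ z (hi z (mem_ball_self hr))).2)⟩
  exact ⟨φ, _, hφ, t_ereg2 hJ hU s2 hol, hol, uniformContinuous_fst.comp_tendstoLocallyUniformlyOn l1,
    (uniformContinuous_snd.comp_tendstoLocallyUniformlyOn l1).congr_right
      fun z hz => (d0 z hz).fderiv.symm⟩

end Pool.Agent.Lib.MP_ccffa6_gt
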