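import Pool.Agent.Lib.MP_ccffa6_gt.Defs

/-!
Block T: definitions shared by the sub-blocks.
-/

open Set Filter Topology MeasureTheory
open scoped ContDiff ComplexConjugate Real

noncomputable section

namespace Pool.Agent.Lib.MP_ccffa6_gt

section dom

variable {V : Type} [NormedAddCommGroup V] [NormedSpace ℝ V]

/-- `∂u/∂x`. -/
def px (u : ℂ → V) (z : ℂ) : V := fderiv ℝ u z 1

/-- `∂u/∂y`. -/
def py (u : ℂ → V) (z : ℂ) : V := fderiv ℝ u z Complex.I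

/-- `u` is `J`-holomorphic at the points of `U`. -/
def JHol (J : V → V →L[ℝ] V) (u : ℂ → V) (U : Set ℂ) : Prop :=
  ∀ z ∈ U, py u z = J (u z) (px u z) ∧ px u z = -J (u z) (py u z)

/-- The square. -/
def Sq : Set ℂ := {z | |z.re| ≤ π / 2 ∧ |z.im| ≤ π / 2}

/-- The boundary of the square. -/
def SqB : Set ℂ := {z | z ∈ Sq ∧ (|z.re| = π / 2 ∨ |z.im| = π / 2)}

/-- Reflection in the line `x = π / 2`. -/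
def r1 (z : ℂ) : ℂ := (π : ℂ) - conj z

/-- Reflection in the line `y = π / 2`. -/
def r2 (z : ℂ) : ℂ := conj z + (π : ℂ) * Complex.I

/-- The marked boundary point. -/
def z1 : ℂ := ((π / 2 : ℝ) : ℂ)

/-- Doubly periodic. -/
def Per {X : Type} (u : ℂ → X) : Prop :=
  ∀ z, u (z + 2 * (π : ℂ)) = u z ∧ u (z + 2 * (π : ℂ) * Complex.I) = u z

/-- The density `u^* dλ`. -/
def dens (lam : Form1 V) (u : ℂ → V) (z : ℂ) : ℝ := dF lam (u z) (px u z) (py u z)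

/-- The Jacobian of a plane map. -/
def jac (f : ℂ → ℂ) (z : ℂ) : ℝ := (conj (px f z) * py f z).im

/-- A norm limit of finite rank operators. -/
def Approx {A B : Type} [NormedAddCommGroup A] [NormedSpace ℝ A] [NormedAddCommGroup B]
    [NormedSpace ℝ B] (K : A →L[ℝ] B) : Prop :=
  ∀ ε > 0, ∃ F : A →L[ℝ] B, FiniteDimensional ℝ (LinearMap.range (F : A →ₗ[ℝ] B)) ∧ ‖K - F‖ < ε

end dom

/-- The model space `ℂ^(k+2)`, coordinates `ζ = h 0`, `w = h 1`, `w_j = h (j+2)`. -/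
abbrev Cm (k : ℕ) : Type := EuclideanSpace ℂ (Fin (k + 2))

/-- The antiholomorphic involution. -/
def sig {k : ℕ} (h : Cm k) : Cm k :=
  WithLp.toLp 2 fun j => if j = 0 then -conj (h 0) else (conj (h j))⁻¹

/-- `iℝ × T^(k+1)`. -/
def Lag (k : ℕ) : Set (Cm k) := {h | (h 0).re = 0 ∧ ∀ j, j ≠ 0 → ‖h j‖ = 1}

/-- The part of `Lag` with `a < Im ζ < b`. -/
def Larc (k : ℕ) (a b : ℝ) : Set (Cm k) := {h | h ∈ Lag k ∧ a < (h 0).im ∧ (h 0).im < b}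

/-- The box around `ζ = 0`, where the `w`-circle bounds a disc. -/
def BoxP (k : ℕ) (l : ℝ) : Set (Cm k) := {h | ∀ j, ‖h j‖ < l}

/-- The box around `ζ = i D`, where `w ≠ 0`. -/
def BoxM (k : ℕ) (l D : ℝ) : Set (Cm k) :=
  {h | ‖h 0 - D * Complex.I‖ < l ∧ h 1 ≠ 0 ∧ |Real.log ‖h 1‖| < l ∧
    ∀ j, j ≠ 0 → j ≠ 1 → ‖h j‖ < l}

/-- The point `(i t, 1, …, 1)`. -/
def xpt (k : ℕ) (t : ℝ) : Cm k := WithLp.toLp 2 fun j => if j = 0 then t * Complex.I else 1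

section data

variable {V : Type} [NormedAddCommGroup V] [NormedSpace ℝ V]

/-- A symplectisation `C = ℝ × N` with cylindrical `J`, all of whose closed Reeb orbits are seen
by invariant closed forms.  The Reeb field is `J y e`. -/
structure Cyl (C : Set V) (s : V →L[ℝ] ℝ) (e : V) (J : V → V →L[ℝ] V) (α : Form1 V) : Prop where
  se : s e = 1
  inv : ∀ y (t : ℝ), y + t • e ∈ C ↔ y ∈ C
  cpt : IsCompact (C ∩ {y | s y = 0})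
  smJ : ContDiff ℝ ∞ J
  smα : ContDiff ℝ ∞ α
  invJ : ∀ y (t : ℝ), J (y + t • e) = J y
  invα : ∀ y (t : ℝ), α (y + t • e) = α y
  ae : ∀ y ∈ C, α y e = 0
  mapJ : ∀ y ∈ C, ∀ v ∈ Tan C y, J y v ∈ Tan C y ∧ J y (J y v) = -v
  sJ : ∀ y ∈ C, ∀ v ∈ Tan C y, s (J y v) = -α y v
  pos : ∀ y ∈ C, ∀ v ∈ Tan C y, 0 ≤ dF α y v (J y v) ∧
    (dF α y v (J y v) = 0 → v = s v • e + α y v • J y e)
  hyp : ∀ (γ : ℝ → V) (c : ℝ), 0 < c → (∀ t, γ (t + 2 * π) = γ t) → (∀ t, γ t ∈ C) →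
    (∀ t, HasDerivAt γ (c • J (γ t) e) t) →
    ∃ θ : Form1 V, ContDiff ℝ ∞ θ ∧ (∀ y (t : ℝ), θ (y + t • e) = θ y) ∧
      (∀ y ∈ C, ∀ u ∈ Tan C y, ∀ v ∈ Tan C y, dF θ y u v = 0) ∧
      ∫ t in (0 : ℝ)..2 * π, θ (γ t) (c • J (γ t) e) ≠ 0

/-- The data of block T. -/
structure TD (k : ℕ) (V : Type) [NormedAddCommGroup V] [NormedSpace ℝ V] where
  W : Set V
  ν : V → V
  J : V → V →L[ℝ] V
  lam : Form1 V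
  S : V →L[ℝ] V
  Vs : Set V
  C : Set V
  s : V →L[ℝ] ℝ
  e : V
  J0 : V → V →L[ℝ] V
  α : Form1 V
  b : V → ℝ
  l : ℝ
  D : ℝ
  O : Set (Cm k)
  U : Set V
  Θ : Cm k → V
  Cc : V → Cm k

/-- The properties of the data. -/
structure TD.OK {k : ℕ} (T : TD k V) : Prop where
  clW : IsClosed T.W
  smν : ContDiff ℝ ∞ T.ν
  ν0 : ∀ y ∈ T.W, T.ν y = 0
  tan : ∀ y ∈ T.W, ∀ v, v ∈ Tan T.W y ↔ fderiv ℝ T.ν y v = 0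
  idem : ∀ y ∈ T.W, ∀ v, fderiv ℝ T.ν y (fderiv ℝ T.ν y v) = fderiv ℝ T.ν y v
  loc : ∀ y₀ ∈ T.W, ∀ᶠ p in 𝓝 (y₀, y₀), p.1 ∈ T.W → fderiv ℝ T.ν p.1 (T.ν p.2) = 0 → p.2 ∈ T.W
  smJ : ContDiff ℝ ∞ T.J
  mapJ : ∀ y ∈ T.W, ∀ v ∈ Tan T.W y, T.J y v ∈ Tan T.W y ∧ T.J y (T.J y v) = -v
  smlam : ContDiff ℝ ∞ T.lam
  tame : ∀ y ∈ T.W, ∀ v ∈ Tan T.W y, v ≠ 0 → 0 < dF T.lam y v (T.J y v)
  -- the involution
  SS : ∀ v, T.S (T.S v) = v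
  opVs : IsOpen T.Vs
  SVs : ∀ y ∈ T.Vs, T.S y ∈ T.Vs
  Sν : ∀ y ∈ T.Vs, T.ν (T.S y) = T.S (T.ν y)
  SJ : ∀ y ∈ T.Vs, ∀ v, T.J (T.S y) (T.S v) = -T.S (T.J y v)
  VsU : T.W ∩ T.Vs ⊆ T.U
  LVs : ∀ h ∈ Larc k (-T.l) (T.D + T.l), T.Θ h ∈ T.Vs
  SΘ : ∀ h ∈ T.O, T.Θ h ∈ T.Vs →
    (∀ j, j ≠ 0 → h j ≠ 0) ∧ sig h ∈ T.O ∧ T.Θ (sig h) = T.S (T.Θ h)
  -- the ends
  cyl : Cyl T.C T.s T.e T.J0 T.α
  bot : ∀ y, T.s y < 0 → (y ∈ T.W ↔ y ∈ T.C)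
  botJ : ∀ y ∈ T.W, T.s y < 0 → ∀ v ∈ Tan T.W y,
    T.J y v = T.J0 y v ∧ T.lam y v = Real.exp (T.s y) * T.α y v
  smb : ContDiff ℝ ∞ T.b
  top : ∀ y ∈ T.W, 0 < T.b y → ∀ v ∈ Tan T.W y, fderiv ℝ T.b y (T.J y v) = -T.lam y v
  cpt : ∀ c : ℝ, IsCompact (T.W ∩ {y | T.b y ≤ 0 ∧ -c ≤ T.s y})
  -- the chart
  D0 : 0 ≤ T.D
  l1 : 1 < T.l
  opO : IsOpen T.O
  opU : IsOpen T.U
  smΘ : ContDiff ℝ ∞ T.Θ
  smC : ContDiff ℝ ∞ T.Cc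
  boxP : BoxP k T.l ⊆ T.O
  boxM : BoxM k T.l T.D ⊆ T.O
  lagO : Lag k ∩ T.O = Larc k (-T.l) (T.D + T.l)
  CΘ : ∀ h ∈ T.O, T.Θ h ∈ T.W ∧ T.Θ h ∈ T.U ∧ T.Cc (T.Θ h) = h
  ΘC : ∀ y ∈ T.W, y ∈ T.U → T.Cc y ∈ T.O ∧ T.Θ (T.Cc y) = y
  mid : ∀ h ∈ T.O, T.b (T.Θ h) ≤ 0 ∧ 0 < T.s (T.Θ h)
  hol : ∀ h ∈ T.O, ∀ X, T.J (T.Θ h) (fderiv ℝ T.Θ h X) = fderiv ℝ T.Θ h (Complex.I • X)
  omP : ∀ h ∈ BoxP k T.l, ∀ X Y,
    dF T.lam (T.Θ h) (fderiv ℝ T.Θ h X) (fderiv ℝ T.Θ h Y) = (inner ℂ X Y : ℂ).im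
  omM : ∀ h ∈ BoxM k T.l T.D, ∀ X, (‖X‖ ^ 2 + ‖X 1‖ ^ 2 / ‖h 1‖ ^ 2) / 4 ≤
    dF T.lam (T.Θ h) (fderiv ℝ T.Θ h X) (fderiv ℝ T.Θ h (Complex.I • X))
  per : ∀ h ∈ Larc k (-T.l) (T.D + T.l), ∀ X : Cm k, (X 0).re = 0 →
    (∀ j, j ≠ 0 → (conj (h j) * X j).re = 0) →
    T.lam (T.Θ h) (fderiv ℝ T.Θ h X) = ∑ j ∈ Finset.univ.erase 0, (conj (h j) * X j).im / 2

/-- The boundary condition. -/
def TD.L {k : ℕ} (T : TD k V) : Set V := T.Θ '' Larc k (-T.l) (T.D + T.l)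

/-- The conformal map of the square onto the disc, as far as it is needed. -/
structure Kap (κ : ℂ → ℂ) : Prop where
  hol : ∃ U : Set ℂ, IsOpen U ∧ Sq ⊆ U ∧ DifferentiableOn ℂ κ U
  bd : ∀ z ∈ SqB, ‖κ z‖ = 1
  zero : ∀ z ∈ Sq, κ z = 0 ↔ z = 0
  simple : deriv κ 0 ≠ 0
  one : κ z1 = 1

/-- A doubled holomorphic disc of area `π` through `x(τ)` in the barycentric gauge. -/
structure Sol {k : ℕ} (T : TD k V) (κ : ℂ → ℂ) (τ : ℝ) (u : ℂ → V) : Prop where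
  sm : ContDiff ℝ ∞ u
  per : Per u
  eq1 : ∀ z, u (r1 z) = T.S (u z)
  eq2 : ∀ z, u (r2 z) = T.S (u z)
  mapW : MapsTo u Sq T.W
  hol : JHol T.J u Sq
  bd : MapsTo u SqB T.L
  area : ∫ z in Sq, dens T.lam u z = π
  gauge : ∫ z in Sq, κ z * (dens T.lam u z : ℂ) = 0
  pt : u z1 = T.Θ (xpt k (τ * T.D))
  cls : ∫ z in Sq, jac (fun w => T.Cc (u w) 1) z = π

end data

end Pool.Agent.Lib.MP_ccffa6_gt
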