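import Mathlib

/-!
Tubular coordinates along an embedded plane curve with two straight ends.
-/

open Set
open scoped ContDiff

noncomputable section

namespace Pool.Agent.Lib.MP_ccffa6_gt

/-- An embedded curve in the plane which comes in along the line `y = y₀` from the right and goes
out along the line `y = y₁` to the right, with unit speed. -/
structure TBCurve (γ : ℝ → ℝ × ℝ) (S x₀ y₀ y₁ : ℝ) : Prop where
  sm : ContDiff ℝ ∞ γ
  inj : Function.Injective γ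
  imm : ∀ s, deriv γ s ≠ 0
  pos : 0 < S
  left : ∀ s ≤ -S, γ s = (x₀ - (s + S), y₀)
  right : ∀ s, S ≤ s → γ s = (x₀ + (s - S), y₁)

/-- `γ s + q N s` with the normal `N = (-γ₂', γ₁')`. -/
def tbTube (γ : ℝ → ℝ × ℝ) (a : ℝ × ℝ) : ℝ × ℝ :=
  γ a.1 + a.2 • (-(deriv γ a.1).2, (deriv γ a.1).1)

/-- The Jacobian determinant of a map of the plane. -/
def tbJac (T : ℝ × ℝ → ℝ × ℝ) (a : ℝ × ℝ) : ℝ :=
  (fderiv ℝ T a (1, 0)).1 * (fderiv ℝ T a (0, 1)).2 -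
    (fderiv ℝ T a (0, 1)).1 * (fderiv ℝ T a (1, 0)).2

theorem tbtube_dsm {γ : ℝ → ℝ × ℝ} {S x₀ y₀ y₁ : ℝ} (h : TBCurve γ S x₀ y₀ y₁) :
    ContDiff ℝ ∞ (deriv γ) :=
  (contDiff_infty_iff_deriv.mp h.sm).2

theorem tbtube_dl {γ : ℝ → ℝ × ℝ} {S x₀ y₀ y₁ : ℝ} (h : TBCurve γ S x₀ y₀ y₁) {s : ℝ}
    (hs : s < -S) : deriv γ s = (-1, 0) := by
  have e : γ =ᶠ[nhds s] fun t => (x₀ - (t + S), y₀) := by
    filter_upwards [Iio_mem_nhds hs] with t ht
    exact h.left t (le_of_lt ht)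
  rw [e.deriv_eq]
  exact ((((hasDerivAt_id s).add_const S).const_sub x₀).prodMk (hasDerivAt_const s y₀)).deriv

theorem tbtube_dr {γ : ℝ → ℝ × ℝ} {S x₀ y₀ y₁ : ℝ} (h : TBCurve γ S x₀ y₀ y₁) {s : ℝ}
    (hs : S < s) : deriv γ s = (1, 0) := by
  have e : γ =ᶠ[nhds s] fun t => (x₀ + (t - S), y₁) := by
    filter_upwards [Ioi_mem_nhds hs] with t ht
    exact h.right t (le_of_lt ht)
  rw [e.deriv_eq]
  exact ((((hasDerivAt_id s).sub_const S).const_add x₀).prodMk (hasDerivAt_const s y₁)).deriv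

theorem TBCurve.tube_sm {γ : ℝ → ℝ × ℝ} {S x₀ y₀ y₁ : ℝ} (h : TBCurve γ S x₀ y₀ y₁) :
    ContDiff ℝ ∞ (tbTube γ) := by
  have hd := (tbtube_dsm h).comp (contDiff_fst (E := ℝ) (F := ℝ))
  exact (h.sm.comp contDiff_fst).add (contDiff_snd.smul (hd.snd.neg.prodMk hd.fst))

theorem TBCurve.tube_left {γ : ℝ → ℝ × ℝ} {S x₀ y₀ y₁ : ℝ} (h : TBCurve γ S x₀ y₀ y₁) {s : ℝ}
    (hs : s < -S) (q : ℝ) : tbTube γ (s, q) = (x₀ - (s + S), y₀ - q) := by
  simp [tbTube, tbtube_dl h hs, h.left s hs.le, sub_eq_add_neg]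

theorem TBCurve.tube_right {γ : ℝ → ℝ × ℝ} {S x₀ y₀ y₁ : ℝ} (h : TBCurve γ S x₀ y₀ y₁) {s : ℝ}
    (hs : S < s) (q : ℝ) : tbTube γ (s, q) = (x₀ + (s - S), y₁ + q) := by
  simp [tbTube, tbtube_dr h hs, h.right s hs.le]

theorem tbtube_d1 {T : ℝ × ℝ → ℝ × ℝ} (hT : Differentiable ℝ T) (s q : ℝ) :
    fderiv ℝ T (s, q) (1, 0) = deriv (fun t => T (t, q)) s :=
  ((hT (s, q)).hasFDerivAt.comp_hasDerivAt s
    ((hasDerivAt_id s).prodMk (hasDerivAt_const s q))).deriv.symm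

theorem tbtube_d2 {γ : ℝ → ℝ × ℝ} (hT : Differentiable ℝ (tbTube γ)) (s q : ℝ) :
    fderiv ℝ (tbTube γ) (s, q) (0, 1) = (-(deriv γ s).2, (deriv γ s).1) := by
  have h1 := (hT (s, q)).hasFDerivAt.comp_hasDerivAt q
    ((hasDerivAt_const q s).prodMk (hasDerivAt_id q))
  have h2 : HasDerivAt (fun t : ℝ => γ s + t • (-(deriv γ s).2, (deriv γ s).1))
      (-(deriv γ s).2, (deriv γ s).1) q := by
    simpa using ((hasDerivAt_id q).smul_const (-(deriv γ s).2, (deriv γ s).1)).const_add (γ s)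
  exact h1.unique h2

theorem tbtube_jac0 {γ : ℝ → ℝ × ℝ} {S x₀ y₀ y₁ : ℝ} (h : TBCurve γ S x₀ y₀ y₁) (s : ℝ) :
    0 < tbJac (tbTube γ) (s, 0) := by
  have hT := h.tube_sm.differentiable (by simp)
  have e : (fun t => tbTube γ (t, 0)) = γ := by
    funext t
    simp [tbTube]
  unfold tbJac
  rw [tbtube_d1 hT, tbtube_d2 hT, e]
  have hne := h.imm s
  generalize deriv γ s = d at hne
  obtain ⟨a, b⟩ := d
  have h2 : a ≠ 0 ∨ b ≠ 0 := by
    by_contra hc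
    push Not at hc
    exact hne (Prod.ext hc.1 hc.2)
  show 0 < a * a - -b * b
  rcases h2 with h2 | h2
  · nlinarith [mul_self_pos.mpr h2, mul_self_nonneg b]
  · nlinarith [mul_self_pos.mpr h2, mul_self_nonneg a]

theorem tbtube_jac1 {γ : ℝ → ℝ × ℝ} {S x₀ y₀ y₁ : ℝ} (h : TBCurve γ S x₀ y₀ y₁) {s : ℝ}
    (hs : s ∉ Icc (-S) S) (q : ℝ) : tbJac (tbTube γ) (s, q) = 1 := by
  have hT := h.tube_sm.differentiable (by simp)
  unfold tbJac
  rw [tbtube_d1 hT, tbtube_d2 hT]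
  rcases lt_or_ge s (-S) with h1 | h1
  · have e : (fun t => tbTube γ (t, q)) =ᶠ[nhds s] fun t => (x₀ - (t + S), y₀ - q) := by
      filter_upwards [Iio_mem_nhds h1] with t ht
      exact h.tube_left ht q
    have d : HasDerivAt (fun t => (x₀ - (t + S), y₀ - q)) ((-1 : ℝ), (0 : ℝ)) s :=
      (((hasDerivAt_id s).add_const S).const_sub x₀).prodMk (hasDerivAt_const s (y₀ - q))
    rw [e.deriv_eq, d.deriv, tbtube_dl h h1]
    norm_num
  · have h2 : S < s := lt_of_not_ge fun h2 => hs ⟨h1, h2⟩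
    have e : (fun t => tbTube γ (t, q)) =ᶠ[nhds s] fun t => (x₀ + (t - S), y₁ + q) := by
      filter_upwards [Ioi_mem_nhds h2] with t ht
      exact h.tube_right ht q
    have d : HasDerivAt (fun t => (x₀ + (t - S), y₁ + q)) ((1 : ℝ), (0 : ℝ)) s :=
      (((hasDerivAt_id s).sub_const S).const_add x₀).prodMk (hasDerivAt_const s (y₁ + q))
    rw [e.deriv_eq, d.deriv, tbtube_dr h h2]
    norm_num

/-- a neighbourhood of a compact piece of the axis contains a strip -/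
theorem tbtube_strip {K : Set ℝ} (hK : IsCompact K) {W : Set (ℝ × ℝ)}
    (hW : W ∈ nhdsSet (K ×ˢ ({0} : Set ℝ))) : ∃ r > 0, K ×ˢ Ioo (-r) r ⊆ W := by
  obtain ⟨U, hU, hKU, hUW⟩ := mem_nhdsSet_iff_exists.mp hW
  obtain ⟨A, B, -, hB, hA, h0, hAB⟩ := generalized_tube_lemma hK isCompact_singleton hU hKU
  obtain ⟨r, hr, hb⟩ := Metric.isOpen_iff.mp hB 0 (h0 rfl)
  rw [Real.ball_eq_Ioo, zero_sub, zero_add] at hb
  exact ⟨r, hr, (prod_mono hA hb).trans (hAB.trans hUW)⟩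

theorem tbtube_jac {γ : ℝ → ℝ × ℝ} {S x₀ y₀ y₁ : ℝ} (h : TBCurve γ S x₀ y₀ y₁) :
    ∃ r c : ℝ, 0 < r ∧ 0 < c ∧ c ≤ 1 ∧
      ∀ a ∈ (univ : Set ℝ) ×ˢ Ioo (-r) r, c ≤ tbJac (tbTube γ) a := by
  have hf : Continuous (fderiv ℝ (tbTube γ)) := h.tube_sm.continuous_fderiv (by simp)
  have hc : Continuous (tbJac (tbTube γ)) := by
    unfold tbJac
    fun_prop
  obtain ⟨s₀, -, hmin⟩ := isCompact_Icc.exists_isMinOn (s := Icc (-S) S)
    (nonempty_Icc.mpr (by linarith [h.pos]))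
    (hc.comp (continuous_id.prodMk (continuous_const (y := (0 : ℝ))))).continuousOn
  have h0 := tbtube_jac0 h s₀
  obtain ⟨r, hr, hs⟩ := tbtube_strip (isCompact_Icc (a := -S) (b := S))
    (W := {a | tbJac (tbTube γ) (s₀, 0) / 2 < tbJac (tbTube γ) a})
    ((isOpen_lt continuous_const hc).mem_nhdsSet.mpr (by
      rintro ⟨s, q⟩ ⟨h1, h2⟩
      have h3 : q = 0 := h2
      subst h3
      have h4 : tbJac (tbTube γ) (s₀, 0) ≤ tbJac (tbTube γ) (s, 0) := hmin h1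
      show tbJac (tbTube γ) (s₀, 0) / 2 < tbJac (tbTube γ) (s, 0)
      linarith))
  refine ⟨r, min (tbJac (tbTube γ) (s₀, 0) / 2) 1, hr, lt_min (half_pos h0) one_pos,
    min_le_right _ _, ?_⟩
  rintro ⟨s, q⟩ ⟨-, hq⟩
  by_cases hm : s ∈ Icc (-S) S
  · exact (min_le_left _ _).trans (le_of_lt (hs (mk_mem_prod hm hq)))
  · rw [tbtube_jac1 h hm]
    exact min_le_right _ _

theorem tbtube_bound {γ : ℝ → ℝ × ℝ} {S x₀ y₀ y₁ : ℝ} (h : TBCurve γ S x₀ y₀ y₁) :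
    ∃ C : ℝ, 0 < C ∧ ∀ s q, ‖tbTube γ (s, q) - γ s‖ ≤ C * |q| := by
  obtain ⟨B, hB⟩ := (isCompact_Icc (a := -S) (b := S)).exists_bound_of_continuousOn
    (tbtube_dsm h).continuous.continuousOn
  have hd : ∀ s, ‖deriv γ s‖ ≤ max B 1 := by
    intro s
    rcases lt_or_ge s (-S) with h1 | h1
    · rw [tbtube_dl h h1]
      simp [Prod.norm_def]
    · rcases lt_or_ge S s with h2 | h2
      · rw [tbtube_dr h h2]
        simp [Prod.norm_def]
      · exact (hB s ⟨h1, h2⟩).trans (le_max_left _ _)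
  refine ⟨max B 1, lt_max_of_lt_right one_pos, fun s q => ?_⟩
  have e : ‖(-(deriv γ s).2, (deriv γ s).1)‖ = ‖deriv γ s‖ := by
    rw [Prod.norm_def, Prod.norm_def, max_comm]
    simp
  unfold tbTube
  rw [add_sub_cancel_left, norm_smul, e, mul_comm]
  exact mul_le_mul_of_nonneg_right (hd s) (norm_nonneg q)

theorem tbtube_loc {T : ℝ × ℝ → ℝ × ℝ} (hT : ContDiff ℝ ∞ T) {a : ℝ × ℝ} (hj : tbJac T a ≠ 0) :
    ∃ u ∈ nhds a, InjOn T u := by
  have hi : Function.Injective (fderiv ℝ T a).toLinearMap := by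
    refine (injective_iff_map_eq_zero _).mpr fun v hv => ?_
    have e : v = v.1 • ((1 : ℝ), (0 : ℝ)) + v.2 • ((0 : ℝ), (1 : ℝ)) := by simp
    have h1 : v.1 • fderiv ℝ T a (1, 0) + v.2 • fderiv ℝ T a (0, 1) = 0 := by
      rw [← map_smul, ← map_smul, ← map_add, ← e]
      exact hv
    unfold tbJac at hj
    generalize fderiv ℝ T a (1, 0) = m at hj h1
    generalize fderiv ℝ T a (0, 1) = n at hj h1
    have e1 : v.1 * m.1 + v.2 * n.1 = 0 := congrArg Prod.fst h1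
    have e2 : v.1 * m.2 + v.2 * n.2 = 0 := congrArg Prod.snd h1
    refine Prod.ext (mul_right_cancel₀ hj ?_) (mul_right_cancel₀ hj ?_)
    · show v.1 * _ = 0 * _
      linear_combination n.2 * e1 - n.1 * e2
    · show v.2 * _ = 0 * _
      linear_combination m.1 * e2 - m.2 * e1
  have hs : HasStrictFDerivAt T
      ((LinearEquiv.ofInjectiveEndo _ hi).toContinuousLinearEquiv : ℝ × ℝ →L[ℝ] ℝ × ℝ) a :=
    hT.contDiffAt.hasStrictFDerivAt (by simp)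
  exact ⟨_, (hs.toOpenPartialHomeomorph T).open_source.mem_nhds
    hs.mem_toOpenPartialHomeomorph_source, (hs.toOpenPartialHomeomorph T).injOn⟩

theorem tbtube_inj {γ : ℝ → ℝ × ℝ} {S x₀ y₀ y₁ : ℝ} (h : TBCurve γ S x₀ y₀ y₁) :
    ∃ r : ℝ, 0 < r ∧ InjOn (tbTube γ) (univ ×ˢ Ioo (-r) r) := by
  obtain ⟨C, hC, hb⟩ := tbtube_bound h
  obtain ⟨B, hB⟩ := (isCompact_Icc (a := -S) (b := S)).exists_bound_of_continuousOn
    h.sm.continuous.continuousOn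
  have hS := h.pos
  have hy : 0 < |y₀ - y₁| := by
    refine abs_pos.mpr (sub_ne_zero.mpr fun e => ?_)
    have h1 : γ (-S) = γ S := by
      rw [h.left _ le_rfl, h.right _ le_rfl, e]
      simp
    linarith [h.inj h1]
  obtain ⟨R, hR1, hR2⟩ : ∃ R : ℝ, S ≤ R ∧ B + C ≤ x₀ + (R - S) :=
    ⟨max S (B + C - x₀ + S), le_max_left _ _, by linarith [le_max_right S (B + C - x₀ + S)]⟩
  obtain ⟨W, hW, hinj⟩ := InjOn.exists_mem_nhdsSet (f := tbTube γ)
    (s := Icc (-R) R ×ˢ ({0} : Set ℝ))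
    (by
      rintro ⟨s, q⟩ ⟨-, h1⟩ ⟨s', q'⟩ ⟨-, h2⟩ e
      have h3 : q = 0 := h1
      have h4 : q' = 0 := h2
      subst h3 h4
      have h5 : γ s = γ s' := by simpa [tbTube] using e
      rw [h.inj h5])
    (isCompact_Icc.prod isCompact_singleton) (fun _ _ => h.tube_sm.continuous.continuousAt)
    (by
      rintro ⟨s, q⟩ ⟨-, h1⟩
      have h3 : q = 0 := h1
      subst h3
      exact tbtube_loc h.tube_sm (tbtube_jac0 h s).ne')
  obtain ⟨r, hr, hsub⟩ := tbtube_strip isCompact_Icc hW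
  obtain ⟨ρ, hρ, hρr, hρ1, hρy⟩ : ∃ ρ : ℝ, 0 < ρ ∧ ρ ≤ r ∧ ρ ≤ 1 ∧ ρ ≤ |y₀ - y₁| / 2 :=
    ⟨min r (min 1 (|y₀ - y₁| / 2)), lt_min hr (lt_min one_pos (half_pos hy)), min_le_left _ _,
      (min_le_right _ _).trans (min_le_left _ _), (min_le_right _ _).trans (min_le_right _ _)⟩
  have hmid : ∀ s ∈ Icc (-S) S, ∀ q ∈ Ioo (-ρ) ρ, (tbTube γ (s, q)).1 ≤ B + C := by
    intro s hs q hq
    have h1 : |q| ≤ 1 := abs_le.mpr ⟨by linarith [hq.1], by linarith [hq.2]⟩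
    have h2 : ‖tbTube γ (s, q)‖ ≤ B + C := by
      have h3 := norm_add_le (γ s) (tbTube γ (s, q) - γ s)
      rw [add_sub_cancel] at h3
      have h4 := mul_le_mul_of_nonneg_left h1 hC.le
      linarith [hB s hs, hb s q]
    exact (le_abs_self _).trans ((norm_fst_le _).trans h2)
  have hop : ∀ q ∈ Ioo (-ρ) ρ, ∀ q' ∈ Ioo (-ρ) ρ, y₀ - q ≠ y₁ + q' := by
    intro q hq q' hq' e
    have h1 : |y₀ - y₁| < 2 * ρ :=
      abs_lt.mpr ⟨by linarith [hq.1, hq'.1], by linarith [hq.2, hq'.2]⟩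
    linarith
  have far : ∀ s s' : ℝ, ∀ q ∈ Ioo (-ρ) ρ, ∀ q' ∈ Ioo (-ρ) ρ, s ∉ Icc (-R) R →
      tbTube γ (s, q) = tbTube γ (s', q') → (s, q) = (s', q') := by
    intro s s' q hq q' hq' hs e
    rcases lt_or_ge s (-R) with h1 | h1
    · have h2 : s < -S := by linarith
      rw [h.tube_left h2] at e
      rcases lt_or_ge s' (-S) with h3 | h3
      · rw [h.tube_left h3, Prod.mk.injEq] at e
        exact Prod.ext (by linarith [e.1]) (by linarith [e.2])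
      · rcases lt_or_ge S s' with h4 | h4
        · rw [h.tube_right h4, Prod.mk.injEq] at e
          exact absurd e.2 (hop q hq q' hq')
        · have h5 := hmid s' ⟨h3, h4⟩ q' hq'
          rw [← e] at h5
          exact absurd h5 (not_le.mpr (by show B + C < x₀ - (s + S); linarith))
    · have h0 : R < s := lt_of_not_ge fun h2 => hs ⟨h1, h2⟩
      have h2 : S < s := by linarith
      rw [h.tube_right h2] at e
      rcases lt_or_ge s' (-S) with h3 | h3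
      · rw [h.tube_left h3, Prod.mk.injEq] at e
        exact absurd e.2.symm (hop q' hq' q hq)
      · rcases lt_or_ge S s' with h4 | h4
        · rw [h.tube_right h4, Prod.mk.injEq] at e
          exact Prod.ext (by linarith [e.1]) (by linarith [e.2])
        · have h5 := hmid s' ⟨h3, h4⟩ q' hq'
          rw [← e] at h5
          exact absurd h5 (not_le.mpr (by show B + C < x₀ + (s - S); linarith))
  refine ⟨ρ, hρ, ?_⟩
  rintro ⟨s, q⟩ ⟨-, hq⟩ ⟨s', q'⟩ ⟨-, hq'⟩ e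
  have hI : Ioo (-ρ) ρ ⊆ Ioo (-r) r := Ioo_subset_Ioo (by linarith) hρr
  by_cases h1 : s ∈ Icc (-R) R
  · by_cases h2 : s' ∈ Icc (-R) R
    · exact hinj (hsub (mk_mem_prod h1 (hI hq))) (hsub (mk_mem_prod h2 (hI hq'))) e
    · exact (far s' s q' hq' q hq h2 e.symm).symm
  · exact far s s' q hq q' hq' h1 e

/-- A thin tube is embedded, with Jacobian bounded below. -/
theorem TBCurve.tube {γ : ℝ → ℝ × ℝ} {S x₀ y₀ y₁ : ℝ} (h : TBCurve γ S x₀ y₀ y₁) :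
    ∃ r c C : ℝ, 0 < r ∧ 0 < c ∧ c ≤ 1 ∧ InjOn (tbTube γ) (univ ×ˢ Ioo (-r) r) ∧
      (∀ a ∈ (univ : Set ℝ) ×ˢ Ioo (-r) r, c ≤ tbJac (tbTube γ) a) ∧
      ∀ s q, ‖tbTube γ (s, q) - γ s‖ ≤ C * |q| := by
  obtain ⟨r₁, h1, hinj⟩ := tbtube_inj h
  obtain ⟨r₂, c, h2, hc, hc1, hj⟩ := tbtube_jac h
  obtain ⟨C, -, hb⟩ := tbtube_bound h
  have a1 := min_le_left r₁ r₂
  have a2 := min_le_right r₁ r₂
  exact ⟨min r₁ r₂, c, C, lt_min h1 h2, hc, hc1,
    hinj.mono (prod_mono subset_rfl (Ioo_subset_Ioo (neg_le_neg a1) a1)),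
    fun a ha => hj a (prod_mono subset_rfl (Ioo_subset_Ioo (neg_le_neg a2) a2) ha), hb⟩

end Pool.Agent.Lib.MP_ccffa6_gt
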