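import Pool.Agent.Lib.MP_ccffa6_gt.T.BSm
import Pool.Agent.Lib.MP_ccffa6_gt.T.BTube
import Pool.Agent.Lib.MP_ccffa6_gt.Disc

/-!
The arc which follows the disc on the ray `v = u / (n - 1)`.
-/

open Set
open scoped ContDiff

noncomputable section

namespace Pool.Agent.Lib.MP_ccffa6_gt

theorem tbarc_ext (g : ℝ × ℝ → ℝ) {A B : ℝ} (hA : 0 < A) (hB : 0 < B)
    (hg : ContinuousOn g (Icc 0 A ×ˢ Icc 0 B))
    (hl : ∀ y ∈ Icc 0 B, g (0, y) < 0) (hbot : ∀ x ∈ Icc 0 A, g (x, 0) < 0)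
    (htop : ∀ x ∈ Icc 0 A, g (x, B) < 0) :
    ∃ G : ℝ × ℝ → ℝ, Continuous G ∧ (∀ x ∈ Icc 0 A, ∀ y ∈ Icc 0 B, G (x, y) = g (x, y)) ∧
      (∀ x y, x ≤ 0 ∨ y ≤ 0 ∨ B ≤ y → G (x, y) < 0) ∧ ∀ x y, G (x, y) = G (min x A, y) := by
  have hm : ∀ {a : ℝ}, 0 < a → ∀ x : ℝ, max 0 (min x a) ∈ Icc 0 a := fun ha x =>
    ⟨le_max_left _ _, max_le ha.le (min_le_right _ _)⟩
  refine ⟨fun p => g (max 0 (min p.1 A), max 0 (min p.2 B)),
    hg.comp_continuous (by fun_prop) fun p => ⟨hm hA _, hm hB _⟩, fun x hx y hy => ?_,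
    fun x y h => ?_, fun x y => ?_⟩
  · simp only [min_eq_left hx.2, min_eq_left hy.2, max_eq_right hx.1, max_eq_right hy.1]
  · rcases h with h | h | h
    · simp only [max_eq_left (min_le_of_left_le h)]
      exact hl _ (hm hB _)
    · simp only [max_eq_left (min_le_of_left_le h)]
      exact hbot _ (hm hA _)
    · simp only [min_eq_right h, max_eq_right hB.le]
      exact htop _ (hm hA _)
  · simp only [min_assoc, min_self]

theorem tbarc_door {G : ℝ × ℝ → ℝ} (hG : Continuous G) {p v : ℝ × ℝ} (h0 : 0 < G p)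
    (h1 : ¬ 0 < G (p + v)) : ∃ t ∈ Icc (0 : ℝ) 1, G (p + t • v) = 0 := by
  have hc : ContinuousOn (fun t : ℝ => G (p + t • v)) (Icc 0 1) := by fun_prop
  refine intermediate_value_Icc' zero_le_one hc ⟨?_, ?_⟩
  · simpa using h1
  · simpa using h0.le

theorem tbarc_scale {γ : ℝ → ℝ × ℝ} {h m x₀ y₀ y₁ : ℝ} (hh : 0 < h) (hm : 0 < m)
    (h1 : ContDiff ℝ ∞ γ) (h2 : Function.Injective γ) (h3 : ∀ s, deriv γ s ≠ 0)
    (h4 : ∀ s ≤ -1, γ s = (x₀ - s, y₀)) (h5 : ∀ s, m + 1 ≤ s → γ s = (x₀ + (s - m), y₁)) :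
    TBCurve (fun s => h • γ (s / h + m / 2)) (h * (m / 2 + 1)) (h * (x₀ + 1)) (h * y₀)
      (h * y₁) where
  sm := (h1.comp ((contDiff_id.div_const h).add contDiff_const)).const_smul h
  inj s s' e := by
    have e1 := h2 (smul_right_injective _ hh.ne' e)
    rwa [add_left_inj, div_left_inj' hh.ne'] at e1
  imm s := by
    have d1 : HasDerivAt (fun s : ℝ => s / h + m / 2) (1 / h) s :=
      ((hasDerivAt_id s).div_const h).add_const _
    have d2 : HasDerivAt (fun s => h • γ (s / h + m / 2))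
        (h • (1 / h) • deriv γ (s / h + m / 2)) s :=
      (((h1.differentiable (by simp)) _).hasDerivAt.scomp s d1).const_smul h
    rw [d2.deriv]
    exact smul_ne_zero hh.ne' (smul_ne_zero (one_div_pos.2 hh).ne' (h3 _))
  pos := by positivity
  left s hs := by
    have e : s / h ≤ -(m / 2 + 1) := by
      rw [div_le_iff₀ hh]
      linarith
    rw [h4 _ (by linarith)]
    refine Prod.ext ?_ rfl
    change h * (x₀ - (s / h + m / 2)) = _
    field_simp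
    ring
  right s hs := by
    have e : m / 2 + 1 ≤ s / h := by
      rw [le_div_iff₀ hh]
      linarith
    rw [h5 _ (by linarith)]
    refine Prod.ext ?_ rfl
    change h * (x₀ + (s / h + m / 2 - m)) = _
    field_simp
    ring

theorem tbarc_dir {d : ℤ × ℤ} (hd : d ∈ tbDir) : ‖tbR d‖ ≤ 1 := by
  simp only [tbDir, Finset.mem_insert, Finset.mem_singleton] at hd
  rcases hd with rfl | rfl | rfl | rfl | rfl | rfl <;> simp [tbR, Prod.norm_def]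

theorem tbarc_shift {γ : ℝ → ℝ × ℝ} {S x₀ y₀ y₁ : ℝ} (h : TBCurve γ S x₀ y₀ y₁) (a b : ℝ) :
    TBCurve (fun s => γ s + (a, b)) S (x₀ + a) (y₀ + b) (y₁ + b) where
  sm := h.sm.add contDiff_const
  inj _ _ e := h.inj (add_right_cancel e)
  imm s := by
    rw [deriv_add_const]
    exact h.imm s
  pos := h.pos
  left s hs := by
    rw [h.left s hs]
    exact Prod.ext (sub_add_eq_add_sub _ _ _) rfl
  right s hs := by
    rw [h.right s hs]
    exact Prod.ext (add_right_comm _ _ _) rfl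

/-- A smooth arc along the zero set of a continuous function on a rectangle. -/
theorem tb_arc0 (g : ℝ × ℝ → ℝ) {A B b c : ℝ} (hA : 0 < A) (hb : 0 < b) (hc : 0 < c)
    (hbc : b + c < B) (hg : ContinuousOn g (Icc 0 A ×ˢ Icc 0 B))
    (hl : ∀ y ∈ Icc 0 B, g (0, y) < 0) (hbot : ∀ x ∈ Icc 0 A, g (x, 0) < 0)
    (htop : ∀ x ∈ Icc 0 A, g (x, B) < 0) (hr0 : ∀ y ∈ Icc 0 b, g (A, y) ≤ 0)
    (hr1 : ∀ y ∈ Ioc b (b + c), 0 < g (A, y)) {δ : ℝ} (hδ : 0 < δ) :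
    ∃ (γ : ℝ → ℝ × ℝ) (S x₀ y₀ y₁ : ℝ), TBCurve γ S x₀ y₀ y₁ ∧ A ≤ x₀ ∧ |y₀ - b| < δ ∧
      (∃ y ∈ Icc (b + c) B, g (A, y) = 0 ∧ |y₁ - y| < δ) ∧
      ∀ s ∈ Icc (-S) S, ∃ a ∈ Icc 0 A ×ˢ Icc 0 B, g a = 0 ∧ ‖γ s - a‖ < δ := by
  obtain ⟨G, hG, hGg, hneg, hmin⟩ := tbarc_ext g hA (by linarith) hg hl hbot htop
  obtain ⟨h, hh, hhc, hhδ⟩ : ∃ h : ℝ, 0 < h ∧ 2 * h ≤ c ∧ 10 * h ≤ δ :=
    ⟨min (c / 2) (δ / 10), by positivity, by linarith [min_le_left (c / 2) (δ / 10)],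
      by linarith [min_le_right (c / 2) (δ / 10)]⟩
  have h2 : 0 < 2 * h := by positivity
  have hA1 : A ≤ 2 * h * (⌈A / (2 * h)⌉ : ℝ) := (div_le_iff₀' h2).1 (Int.le_ceil _)
  have hA2 : 2 * h * (⌈A / (2 * h)⌉ : ℝ) < A + 2 * h := by
    have := mul_lt_mul_of_pos_left (Int.ceil_lt_add_one (A / (2 * h))) h2
    rwa [mul_add, mul_div_cancel₀ _ h2.ne', mul_one] at this
  have hB1 : B ≤ 2 * h * (⌈B / (2 * h)⌉ : ℝ) := (div_le_iff₀' h2).1 (Int.le_ceil _)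
  have hb1 : 2 * h * (⌊b / (2 * h)⌋ : ℝ) ≤ b := (le_div_iff₀' h2).1 (Int.floor_le _)
  have hb2 : b < 2 * h * ((⌊b / (2 * h)⌋ : ℝ) + 1) := (div_lt_iff₀' h2).1 (Int.lt_floor_add_one _)
  have hb3 : (0 : ℝ) ≤ (⌊b / (2 * h)⌋ : ℝ) := Int.cast_nonneg (Int.floor_nonneg.2 (by positivity))
  generalize ⌈A / (2 * h)⌉ = A' at hA1 hA2
  generalize ⌈B / (2 * h)⌉ = B' at hB1
  generalize ⌊b / (2 * h)⌋ = j₀ at hb1 hb2 hb3
  have hAA : A ∈ Icc 0 A := ⟨hA.le, le_rfl⟩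
  have hcol : ∀ x y, A ≤ x → G (x, y) = G (A, y) := fun x y hx => by
    rw [hmin, min_eq_right hx]
  have hmono : ∀ {i j : ℤ}, i ≤ j → 2 * h * (i : ℝ) ≤ 2 * h * (j : ℝ) := fun hij =>
    mul_le_mul_of_nonneg_left (Int.cast_le.2 hij) h2.le
  have hlow : ∀ y ≤ b, G (A, y) ≤ 0 := fun y hy => by
    rcases le_total y 0 with h0 | h0
    · exact (hneg _ _ (Or.inr (Or.inl h0))).le
    · rw [hGg _ hAA _ ⟨h0, by linarith⟩]
      exact hr0 y ⟨h0, hy⟩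
  obtain ⟨m, j₁, P, d, Q, hm, hP, hQ, hd, hq0, hq1, hq2, hc1, hc2⟩ := tb_hex
    (fun p => 0 < G (2 * h * p.1, 2 * h * p.2)) A' B' j₀
    (fun p hp => (hneg _ _ (Or.inl (by simpa using hmono hp))).not_gt)
    (fun p hp => (hneg _ _ (Or.inr (Or.inl (by simpa using hmono hp)))).not_gt)
    (fun p hp => (hneg _ _ (Or.inr (Or.inr (hB1.trans (hmono hp))))).not_gt)
    (fun i j hi => by simp only [hcol _ _ hA1, hcol _ _ (hA1.trans (hmono hi))])
    (by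
      simp only [hcol _ _ hA1]
      exact (hlow _ hb1).not_gt)
    (by
      simp only [hcol _ _ hA1, Int.cast_add, Int.cast_one]
      rw [hGg _ hAA _ ⟨by positivity, by linarith⟩]
      exact hr1 _ ⟨hb2, by linarith⟩)
  obtain ⟨γ, g1, g2, g3, g4, g5, g6⟩ := tb_round hQ hd hm hq0 hq1
  have hm' : (0 : ℝ) < m := Int.cast_pos.2 hm
  refine ⟨_, _, _, _, _, tbarc_scale hh hm' g1 g2 g3 g4 g5, ?_, ?_, ?_, fun s hs => ?_⟩
  · push_cast
    linarith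
  · push_cast
    exact abs_lt.2 ⟨by linarith, by linarith⟩
  · simp only [hcol _ _ hA1, Int.cast_add, Int.cast_one] at hc1 hc2
    obtain ⟨t, ht, e⟩ := tbarc_door hG (v := (0, 2 * h)) hc1 (by simpa [mul_add] using hc2)
    have e1 : G (A, 2 * h * j₁ + t * (2 * h)) = 0 := by simpa using e
    have t1 : 0 ≤ t * (2 * h) := mul_nonneg ht.1 h2.le
    have t2 : t * (2 * h) ≤ 2 * h := mul_le_of_le_one_left h2.le ht.2
    have y1 : b < 2 * h * j₁ := lt_of_not_ge fun hy => (hlow _ hy).not_gt hc1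
    have y2 : 2 * h * j₁ + t * (2 * h) ≤ B :=
      le_of_not_gt fun hy => (hneg _ _ (Or.inr (Or.inr hy.le))).ne e1
    rw [hGg _ hAA _ ⟨by linarith, y2⟩] at e1
    refine ⟨_, ⟨le_of_not_gt fun hy => (hr1 _ ⟨by linarith, hy.le⟩).ne' e1, y2⟩, e1, ?_⟩
    push_cast
    exact abs_lt.2 ⟨by linarith, by linarith⟩
  · have s1 : -(m / 2 + 1) ≤ s / h := by
      rw [le_div_iff₀ hh]
      linarith [hs.1]
    have s2 : s / h ≤ m / 2 + 1 := by
      rw [div_le_iff₀ hh]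
      linarith [hs.2]
    have k1 : -1 ≤ ⌊s / h + m / 2⌋ := Int.le_floor.2 (by push_cast; linarith)
    have k2 : ⌊s / h + m / 2⌋ ≤ m + 1 := Int.floor_le_iff.2 (by push_cast; linarith)
    have g7 := g6 (s / h + m / 2)
    generalize ⌊s / h + m / 2⌋ = k at k1 k2 g7
    have k3 : (Q k).1 ≤ 2 * A' + 3 := by
      rcases le_total k 0 with h0 | h0
      · rw [hq0 k h0]
        omega
      rcases le_total k m with h1 | h1
      · have := hq2 k h0 h1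
        omega
      · rw [hq1 k h1]
        omega
    obtain ⟨d1, d2, d3, d4⟩ := hP k
    obtain ⟨t, ht, e⟩ := tbarc_door hG (v := (2 * h) • tbR (d k)) d2 (by
      simpa [tbR, mul_add] using d3)
    generalize hz : ((2 * h * (P k).1, 2 * h * (P k).2) : ℝ × ℝ) + t • (2 * h) • tbR (d k) = z at e
    have z1 : ‖h • tbR (Q k) - z‖ ≤ h := by
      have e1 : h • tbR (Q k) - z = (h * (1 - 2 * t)) • tbR (d k) := by
        rw [← hz, d4]
        ext <;> simp [tbR] <;> ring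
      rw [e1, norm_smul, Real.norm_eq_abs, abs_mul, abs_of_pos hh, mul_assoc]
      exact mul_le_of_le_one_right hh.le (mul_le_one₀
        (abs_le.2 ⟨by linarith [ht.2], by linarith [ht.1]⟩) (norm_nonneg _) (tbarc_dir d1))
    have z2 : ‖h • γ (s / h + m / 2) - h • tbR (Q k)‖ ≤ h * 2 := by
      rw [← smul_sub, norm_smul, Real.norm_eq_abs, abs_of_pos hh]
      exact mul_le_mul_of_nonneg_left g7 hh.le
    have z3 : z.1 ≤ A + 6 * h := by
      have e1 : |h * ((Q k).1 : ℝ) - z.1| ≤ h := (norm_fst_le (h • tbR (Q k) - z)).trans z1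
      have e2 : ((Q k).1 : ℝ) ≤ 2 * A' + 3 := by exact_mod_cast k3
      have e3 := mul_le_mul_of_nonneg_left e2 hh.le
      linarith [(abs_le.1 e1).1]
    have z4 : ‖z - (min z.1 A, z.2)‖ ≤ 6 * h := by
      rw [Prod.norm_def]
      refine max_le ?_ (by simp [hh.le])
      rw [Prod.fst_sub, Real.norm_eq_abs, abs_of_nonneg (sub_nonneg.2 (min_le_left _ _)),
        sub_le_comm]
      exact le_min (by linarith) (by linarith)
    have z5 : ¬ (z.1 ≤ 0 ∨ z.2 ≤ 0 ∨ B ≤ z.2) := fun hn => (hneg _ _ hn).ne e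
    simp only [not_or, not_le] at z5
    have z6 : min z.1 A ∈ Icc 0 A := ⟨le_min z5.1.le hA.le, min_le_right _ _⟩
    have z7 : z.2 ∈ Icc 0 B := ⟨z5.2.1.le, z5.2.2.le⟩
    refine ⟨(min z.1 A, z.2), ⟨z6, z7⟩, by rw [← hGg _ z6 _ z7, ← hmin]; exact e, ?_⟩
    have z8 := norm_sub_le_norm_sub_add_norm_sub (h • γ (s / h + m / 2)) (h • tbR (Q k)) z
    have z9 := norm_sub_le_norm_sub_add_norm_sub (h • γ (s / h + m / 2)) z (min z.1 A, z.2)
    linarith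

/-- The points `m, z` whose torus `v = 1 / m`, `u = [n - 1] / m` lies in the graph `Σ₁`. -/
def tbY1 (n : ℕ) (zD : ℝ) (K : ℝ × ℝ → ℝ) : Set (ℝ × ℝ) :=
  {a | (n : ℝ) - 1 ≤ a.1 ∧ a.2 ∈ Icc (-1) zD ∧ K (((n : ℝ) - 1) / a.1, a.2) = 1 / a.1}

/-- The points `m, -1` whose torus lies in the side `Σ₂`. -/
def tbY2 (n : ℕ) (K : ℝ × ℝ → ℝ) : Set (ℝ × ℝ) :=
  {a | (n : ℝ) - 1 ≤ a.1 ∧ a.2 = -1 ∧ 1 / a.1 ≤ K (((n : ℝ) - 1) / a.1, -1)}

/-- The arc in the coordinates `m, z` with `m = 1 / v`. -/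
theorem tb_arc {n : ℕ} (hn : 2 ≤ n) {zD : ℝ} {K : ℝ × ℝ → ℝ} (hK : Small n zD K) (M₀ : ℝ)
    {δ : ℝ} (hδ : 0 < δ) :
    ∃ (γ : ℝ → ℝ × ℝ) (S x₀ y₀ y₁ M : ℝ), TBCurve γ S x₀ y₀ y₁ ∧ M₀ ≤ M ∧ M ≤ x₀ ∧
      |y₀ + 1| < δ ∧ (∃ z, (M, z) ∈ tbY1 n zD K ∧ |y₁ - z| < δ) ∧
      ∀ s ∈ Icc (-S) S, ∃ a ∈ tbY1 n zD K ∪ tbY2 n K, ‖γ s - a‖ < δ := by
  have hn' : (2 : ℝ) ≤ n := by exact_mod_cast hn
  have hz := hK.lt
  have hκ := hK.pos_bot 0 ⟨le_rfl, zero_le_one⟩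
  obtain ⟨ε, hε, hb⟩ := Metric.continuousWithinAt_iff.1
    (hK.cont (0, -1) ⟨⟨le_rfl, zero_le_one⟩, ⟨le_rfl, hz.le⟩⟩) (K (0, -1) / 2) (by positivity)
  obtain ⟨M, hM0, hM1, hM2, hM3⟩ : ∃ M : ℝ, M₀ ≤ M ∧ (n : ℝ) ≤ M ∧ n / ε ≤ M ∧
      2 / K (0, -1) ≤ M :=
    ⟨max (max M₀ n) (max (n / ε) (2 / K (0, -1))), by simp, by simp, by simp, by simp⟩
  obtain ⟨c, hc, hc1, hc2⟩ : ∃ c : ℝ, 0 < c ∧ c < ε ∧ c < zD + 1 :=
    ⟨min (ε / 2) ((zD + 1) / 2), lt_min (by linarith) (by linarith),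
      by linarith [min_le_left (ε / 2) ((zD + 1) / 2)],
      by linarith [min_le_right (ε / 2) ((zD + 1) / 2)]⟩
  have hu : ∀ x : ℝ, 0 ≤ x → ((n : ℝ) - 1) / (x + (n - 1)) ∈ Icc (0 : ℝ) 1 := fun x hx =>
    ⟨div_nonneg (by linarith) (by linarith), (div_le_one (by linarith)).2 (by linarith)⟩
  have hw : ∀ y : ℝ, y ≤ zD + 2 → max (y + -2) (-1) ∈ Icc (-1) zD := fun y hy =>
    ⟨le_max_right _ _, max_le (by linarith) hz.le⟩
  have hM : M - (n - 1) + (n - 1) = M := sub_add_cancel _ _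
  let g : ℝ × ℝ → ℝ := fun p => min (K (((n : ℝ) - 1) / (p.1 + (n - 1)), max (p.2 + -2) (-1)) -
    1 / (p.1 + (n - 1))) (p.2 - 1)
  have hY : ∀ a : ℝ × ℝ, 0 ≤ a.1 → a.2 ≤ zD + 2 → g a = 0 →
      a + ((n : ℝ) - 1, -2) ∈ tbY1 n zD K ∨ a.2 = 1 ∧ a + ((n : ℝ) - 1, -2) ∈ tbY2 n K := by
    intro a h1 h2 h3
    rcases min_eq_iff.1 h3 with ⟨h4, h5⟩ | ⟨h4, h5⟩
    · rw [h4] at h5
      rw [max_eq_left (by linarith), sub_eq_zero] at h4
      exact Or.inl ⟨le_add_of_nonneg_left h1, ⟨by change -1 ≤ a.2 + -2; linarith,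
        by change a.2 + -2 ≤ zD; linarith⟩, h4⟩
    · rw [max_eq_right (by linarith), h4, sub_nonneg] at h5
      exact Or.inr ⟨by linarith, le_add_of_nonneg_left h1, by change a.2 + -2 = -1; linarith, h5⟩
  have hg : ContinuousOn g (Icc 0 (M - (n - 1)) ×ˢ Icc 0 (zD + 2)) := by
    have h0 : ∀ p ∈ Icc 0 (M - (n - 1)) ×ˢ Icc 0 (zD + 2), p.1 + ((n : ℝ) - 1) ≠ 0 := fun p hp =>
      (by linarith [hp.1.1] : 0 < p.1 + ((n : ℝ) - 1)).ne'
    refine ContinuousOn.inf (ContinuousOn.sub (hK.cont.comp (ContinuousOn.prodMk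
      (continuousOn_const.div (by fun_prop) h0) (by fun_prop)) fun p hp =>
        ⟨hu _ hp.1.1, hw _ hp.2.2⟩) (continuousOn_const.div (by fun_prop) h0)) (by fun_prop)
  obtain ⟨γ, S, x₀, y₀, y₁, h1, h2, h3, ⟨y, h4, h5, h6⟩, h7⟩ := tb_arc0 g (b := 1) (c := c)
    (by linarith) one_pos hc (by linarith) hg
    (fun y hy => min_lt_of_left_lt (by
      have e1 := hK.le_side _ (hw y hy.2)
      have e2 : 1 / (n : ℝ) < 1 / (n - 1) := one_div_lt_one_div_of_lt (by linarith) (by linarith)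
      simp only [zero_add]
      rw [div_self (by linarith : (0 : ℝ) < n - 1).ne']
      linarith))
    (fun x _ => min_lt_of_right_lt (by norm_num))
    (fun x hx => min_lt_of_left_lt (by
      have e1 := hK.le_end _ (hu x hx.1)
      have e0 : 0 < x + ((n : ℝ) - 1) := by linarith [hx.1]
      have e2 : ((n : ℝ) - 1) / (x + (n - 1)) / n < 1 / (x + (n - 1)) := by
        rw [div_right_comm]
        exact div_lt_div_of_pos_right ((div_lt_one (by linarith)).2 (by linarith)) e0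
      have e3 : max (zD + 2 + -2) (-1) = zD := by
        rw [add_neg_cancel_right, max_eq_left hz.le]
      simp only [e3]
      linarith))
    (fun y hy => min_le_of_right_le (sub_nonpos.2 hy.2))
    (fun y hy => lt_min (by
      have e0 : 0 < M := by linarith
      have e1 := hu (M - (n - 1)) (by linarith)
      have e2 := hw y (by linarith [hy.2])
      simp only [hM] at e1 ⊢
      have e3 : ((n : ℝ) - 1) / M < ε := by
        rw [div_le_iff₀ hε] at hM2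
        rw [div_lt_iff₀ e0]
        linarith
      have e4 : 1 / M ≤ K (0, -1) / 2 := by
        rw [div_le_iff₀ hκ] at hM3
        rw [div_le_iff₀ e0]
        linarith
      have e5 := hb (x := (((n : ℝ) - 1) / M, max (y + -2) (-1))) ⟨e1, e2⟩ (by
        rw [Prod.dist_eq]
        refine max_lt ?_ ?_
        · rwa [Real.dist_eq, sub_zero, abs_of_nonneg e1.1]
        · rw [Real.dist_eq, abs_of_nonneg (sub_nonneg.2 e2.1), max_eq_left (by linarith [hy.1])]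
          linarith [hy.2])
      rw [Real.dist_eq] at e5
      linarith [(abs_lt.1 e5).1]) (sub_pos.2 hy.1)) hδ
  refine ⟨_, S, _, _, _, M, tbarc_shift h1 (n - 1) (-2), hM0, by linarith, ?_, ⟨y + -2, ?_, ?_⟩,
    fun s hs => ?_⟩
  · rwa [show y₀ + -2 + 1 = y₀ - 1 by ring]
  · rcases hY (M - (n - 1), y) (by linarith) h4.2 h5 with e | e
    · rwa [Prod.mk_add_mk, hM] at e
    · exact absurd e.1 (by linarith [h4.1] : 1 < y).ne'
  · rwa [add_sub_add_right_eq_sub]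
  · obtain ⟨a, ha, e1, e2⟩ := h7 s hs
    refine ⟨a + ((n : ℝ) - 1, -2), (hY a ha.1.1 ha.2.2 e1).imp id And.right, ?_⟩
    rwa [add_sub_add_right_eq_sub]

end Pool.Agent.Lib.MP_ccffa6_gt
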