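import Pool.Agent.Lib.MP_ccffa6_gt.T.BForm

/-!
The chart is flat in the two boxes and compatible everywhere.
-/

open Set Filter Topology
open scoped ContDiff ComplexConjugate

noncomputable section

namespace Pool.Agent.Lib.MP_ccffa6_gt

variable {V : Type} [NormedAddCommGroup V] [NormedSpace ℝ V] [FiniteDimensional ℝ V] {k : ℕ}

/-- The pulled back two-form is the derivative of the pulled back one-form. -/
theorem tb_dF_pull {Λ : Form1 V} (hΛ : ContDiff ℝ ∞ Λ) {O : Set (Cm k)} (hO : IsOpen O)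
    {Θ : Cm k → V} (hΘ : ContDiffOn ℝ ∞ Θ O) {μ : Form1 (Cm k)}
    (he : ∀ h ∈ O, ∀ X, Λ (Θ h) (fderiv ℝ Θ h X) = μ h X) {h : Cm k} (hh : h ∈ O) (X Y : Cm k) :
    dF Λ (Θ h) (fderiv ℝ Θ h X) (fderiv ℝ Θ h Y) = dF μ h X Y := by
  have h2 : ContDiffAt ℝ 2 Θ h :=
    (hΘ.contDiffAt (hO.mem_nhds hh)).of_le (WithTop.coe_le_coe.2 (le_top : (2 : ℕ∞) ≤ ⊤))
  rw [← dF_pb h2 (hΛ.differentiable (by simp) _)]
  have e : pb Θ Λ =ᶠ[𝓝 h] μ := by
    filter_upwards [hO.mem_nhds hh] with y hy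
    exact ContinuousLinearMap.ext fun Z => he y hy Z
  simp only [dF, e.fderiv_eq]

theorem tb_inner_im (X Y : Cm k) : (inner ℂ X Y : ℂ).im = (conj (X 0) * Y 0).im +
    (conj (X 1) * Y 1).im + ∑ j : Fin k, (conj (X j.succ.succ) * Y j.succ.succ).im := by
  rw [PiLp.inner_apply, Fin.sum_univ_succ, Fin.sum_univ_succ, Complex.add_im, Complex.add_im,
    Complex.im_sum]
  simp only [RCLike.inner_apply', Fin.succ_zero_eq_one]
  ring

theorem tb_norm_sq (X : Cm k) :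
    ‖X‖ ^ 2 = ‖X 0‖ ^ 2 + ‖X 1‖ ^ 2 + ∑ j : Fin k, ‖X j.succ.succ‖ ^ 2 := by
  rw [EuclideanSpace.norm_sq_eq, Fin.sum_univ_succ, Fin.sum_univ_succ]
  simp only [Fin.succ_zero_eq_one]
  ring

theorem tbbchart_I (X : Cm k) (j : Fin (k + 2)) :
    (conj (X j) * (Complex.I • X) j).im = ‖X j‖ ^ 2 := by
  rw [PiLp.smul_apply, smul_eq_mul, Complex.sq_norm, Complex.normSq_apply]
  simp

theorem tbbchart_II (X Y : Cm k) (j : Fin (k + 2)) :
    (conj ((Complex.I • X) j) * (Complex.I • Y) j).im = (conj (X j) * Y j).im := by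
  rw [PiLp.smul_apply, PiLp.smul_apply, smul_eq_mul, smul_eq_mul]
  simp

theorem tbbchart_erase (f : Fin (k + 2) → ℝ) :
    ∑ j ∈ Finset.univ.erase 0, f j = f 1 + ∑ j : Fin k, f j.succ.succ := by
  have e := Finset.add_sum_erase Finset.univ f (Finset.mem_univ 0)
  rw [Fin.sum_univ_succ, Fin.sum_univ_succ, Fin.succ_zero_eq_one] at e
  linarith

theorem tbbchart_third {r : ℝ} (hr : 0 < r) (h : -1 / 2 ≤ Real.log r) : 1 / 3 ≤ r ^ 2 := by
  have e : r ^ 2 = Real.exp (Real.log r + Real.log r) := by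
    rw [Real.exp_add, Real.exp_log hr, sq]
  have h1 : Real.exp (-1) ≤ Real.exp (Real.log r + Real.log r) := Real.exp_le_exp.2 (by linarith)
  have h2 := Real.exp_neg_one_gt_d9
  rw [e]
  linarith

/-- The chart is flat in the boxes and compatible everywhere. -/
theorem tb_chart {Y : Set V} {Λ : Form1 V} (hΛ : ContDiff ℝ ∞ Λ) {zD l D δ M : ℝ} {K : ℝ × ℝ → ℝ}
    {T : ℂ → ℝ × ℝ} {b : ℝ → ℝ} {O₁ O₂ : Set (Cm k)} {Θ : Cm k → V} (hl : 0 < l)
    (hT : TBPlane (k + 1) zD K l D δ M T) (hb : TBBeta b) (h : TBMid Y Λ l D T b O₁ O₂ Θ) :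
    TBChart k Y Λ l D (O₁ ∪ O₂) Θ := by
  have F1 : ∀ x ∈ O₁, ∀ X Z : Cm k, dF Λ (Θ x) (fderiv ℝ Θ x X) (fderiv ℝ Θ x Z) =
      tbJ T (x 0) / 2 * (conj (X 0) * Z 0).im +
        (2 + deriv b (Real.log ‖x 1‖) / ‖x 1‖ ^ 2) / 2 * (conj (X 1) * Z 1).im +
        ∑ j : Fin k, (conj (X j.succ.succ) * Z j.succ.succ).im := fun x hx X Z => by
    have hr := tb_phi_rad hb.sm (h.ne x hx)
    rw [tb_dF_pull hΛ h.op₁ (h.sm.mono subset_union_left) h.pull₁ hx,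
      tb_dF_form hT.sm (hr.1.differentiableAt (by simp)), hr.2]
  have F2 : ∀ x ∈ O₂, ∀ X Z : Cm k, dF Λ (Θ x) (fderiv ℝ Θ x X) (fderiv ℝ Θ x Z) =
      tbJ T (x 0) / 2 * (conj (X 0) * Z 0).im + 1 * (conj (X 1) * Z 1).im +
        ∑ j : Fin k, (conj (X j.succ.succ) * Z j.succ.succ).im := fun x hx X Z => by
    rw [tb_dF_pull hΛ h.op₂ (h.sm.mono subset_union_right) h.pull₂ hx,
      tb_dF_form hT.sm (differentiableAt_const _)]
    simp
  have F : ∀ x ∈ O₁ ∪ O₂, ∃ A B : ℝ, 0 < A ∧ 0 < B ∧ ∀ X Z : Cm k,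
      dF Λ (Θ x) (fderiv ℝ Θ x X) (fderiv ℝ Θ x Z) =
        A * (conj (X 0) * Z 0).im + B * (conj (X 1) * Z 1).im +
          ∑ j : Fin k, (conj (X j.succ.succ) * Z j.succ.succ).im := fun x hx => by
    have hA : 0 < tbJ T (x 0) / 2 := half_pos (hT.jac _ (h.strip x hx))
    rcases hx with hx | hx
    · refine ⟨_, _, hA, ?_, F1 x hx⟩
      have := div_nonneg (hb.der (Real.log ‖x 1‖)).1 (sq_nonneg ‖x 1‖)
      linarith
    · exact ⟨_, _, hA, one_pos, F2 x hx⟩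
  refine ⟨by linarith [hT.D2], h.op₁.union h.op₂, h.sm, h.inj, h.map,
    h.boxP.trans subset_union_right, h.boxM.trans subset_union_left, h.lag, fun x hx X hX => ?_,
    fun x hx X Z => ?_, fun x hx X Z => ?_, fun x hx X => ?_, ?_⟩
  · obtain ⟨A, B, hA, hB, e⟩ := F x hx
    rw [e]
    simp only [tbbchart_I]
    have p : 0 < ‖X‖ ^ 2 := pow_pos (norm_pos_iff.2 hX) 2
    rw [tb_norm_sq] at p
    have p0 := sq_nonneg ‖X 0‖
    have p1 := sq_nonneg ‖X 1‖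
    have p2 : 0 ≤ ∑ j : Fin k, ‖X j.succ.succ‖ ^ 2 := Finset.sum_nonneg fun j _ => sq_nonneg _
    have q0 := mul_nonneg hA.le p0
    have q1 := mul_nonneg hB.le p1
    rcases p0.eq_or_lt with r0 | r0
    · rcases p1.eq_or_lt with r1 | r1
      · linarith
      · linarith [mul_pos hB r1]
    · linarith [mul_pos hA r0]
  · obtain ⟨A, B, -, -, e⟩ := F x hx
    rw [e, e]
    simp only [tbbchart_II]
  · rw [F2 x (h.boxP hx), hT.jacP _ (hx 0), tb_inner_im]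
    ring
  · rw [F1 x (h.boxM hx), hT.jacM _ hx.1, tb_norm_sq]
    simp only [tbbchart_I]
    have hw : 0 < ‖x 1‖ := norm_pos_iff.2 hx.2.1
    have hn : 0 < ‖x 1‖ ^ 2 := pow_pos hw 2
    have p0 := sq_nonneg ‖X 0‖
    have p1 := sq_nonneg ‖X 1‖
    have p2 : 0 ≤ ∑ j : Fin k, ‖X j.succ.succ‖ ^ 2 := Finset.sum_nonneg fun j _ => sq_nonneg _
    have p3 : 0 ≤ ‖X 1‖ ^ 2 / ‖x 1‖ ^ 2 := div_nonneg p1 hn.le
    have e : (2 + deriv b (Real.log ‖x 1‖) / ‖x 1‖ ^ 2) / 2 * ‖X 1‖ ^ 2 =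
        ‖X 1‖ ^ 2 + deriv b (Real.log ‖x 1‖) * (‖X 1‖ ^ 2 / ‖x 1‖ ^ 2) / 2 := by ring
    rw [e]
    rcases lt_or_ge (Real.log ‖x 1‖) (-1 / 2) with hc | hc
    · rw [hb.one _ hc]
      linarith
    · have p4 := mul_nonneg (hb.der (Real.log ‖x 1‖)).1 p3
      have p5 : ‖X 1‖ ^ 2 / ‖x 1‖ ^ 2 ≤ 3 * ‖X 1‖ ^ 2 := by
        rw [div_le_iff₀ hn]
        nlinarith [mul_nonneg p1 (sub_nonneg.2 (tbbchart_third hw hc))]
      linarith
  · have hI : ContDiff ℝ ∞ fun y : ℝ => (y : ℂ) * Complex.I :=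
      Complex.ofRealCLM.contDiff.mul contDiff_const
    have hD : ContDiff ℝ ∞ (fderiv ℝ T) := hT.sm.fderiv_right (by simp)
    refine ⟨fun y => (T (y * Complex.I)).1 * (fderiv ℝ T (y * Complex.I) Complex.I).2 / 2,
      ((hT.sm.comp hI).fst.mul ((hD.comp hI).clm_apply contDiff_const).snd).div_const 2,
      fun x hx X hX _ => ?_⟩
    have e0 : ((x 0).im : ℂ) * Complex.I = x 0 := by
      apply Complex.ext <;> simp [hx.1.1]
    have e1 : X 0 = (X 0).im • Complex.I := by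
      apply Complex.ext <;> simp [hX]
    have e2 : (fderiv ℝ T (x 0) (X 0)).2 = (X 0).im * (fderiv ℝ T (x 0) Complex.I).2 := by
      conv_lhs => rw [e1, map_smul]
      rfl
    have e3 : tbPhi b (x 1) = 1 := by
      have h1 : ‖x 1‖ = 1 := hx.1.2 1 (by simp)
      rw [tbPhi, tbMu, h1, Real.log_one, hb.zero 0 (by norm_num)]
      norm_num
    dsimp only
    rw [e0, tbbchart_erase fun j => (conj (x j) * X j).im / 2, ← Finset.sum_div]
    rcases h.lag hx with hx' | hx'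
    · rw [h.pull₁ x hx', tb_form_apply, e2, e3]
      ring
    · rw [h.pull₂ x hx', tb_form_apply, e2]
      ring

end Pool.Agent.Lib.MP_ccffa6_gt
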