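import Pool.Agent.Lib.MP_ccffa6_gt.T.BDef
import Pool.Agent.Lib.MP_ccffa6_gt.K.Level

/-!
A global defining map of a closed submanifold.
-/

open Set Filter Topology
open scoped ContDiff

noncomputable section

namespace Pool.Agent.Lib.MP_ccffa6_gt

variable {V : Type} [NormedAddCommGroup V] [NormedSpace ℝ V] [FiniteDimensional ℝ V]

/-- The local maps `id - φ ∘ ψ` are glued by a partition of unity. -/
theorem tb_nu {d : ℕ} {W : Set V} (h : IsSub d W) (hc : IsClosed W) : ∃ ν, TBNu W ν := by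
  choose φ ψ hch using fun x : W => h x x.2
  choose U hU hUo hUx using fun x : W =>
    eventually_nhds_iff.1 (eventually_nhdsWithin_iff.1 (hch x).eventually)
  obtain ⟨ρ, hρ⟩ := SmoothPartitionOfUnity.exists_isSubordinate (modelWithCornersSelf ℝ V) hc U hUo
    fun x hx => mem_iUnion.2 ⟨⟨x, hx⟩, hUx _⟩
  have hg : ∀ i, ContDiff ℝ ∞ fun y => y - φ i (ψ i y) := fun i =>
    contDiff_id.sub ((hch i).smφ.comp (hch i).smψ)
  refine ⟨fun y => ∑ᶠ i, ρ i y • (y - φ i (ψ i y)), (ρ.contMDiff_finsum_smul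
    (g := fun i y => y - φ i (ψ i y)) fun i x _ => (hg i).contMDiff x).contDiff,
    fun y hy => finsum_eq_zero_of_forall_eq_zero fun i => ?_, fun y hy v => ?_⟩
  · by_cases h0 : ρ i y = 0
    · rw [h0, zero_smul]
    · rw [(hU i y (hρ i (subset_tsupport _ h0)) hy).self hy, sub_self, smul_zero]
  have hd : ∀ i, HasFDerivAt (fun y => y - φ i (ψ i y)) (ContinuousLinearMap.id ℝ V -
      (fderiv ℝ (φ i) (ψ i y)).comp (fderiv ℝ (ψ i) y)) y := fun i =>
    (hasFDerivAt_id y).sub (((hch i).smφ.differentiable (by simp) _).hasFDerivAt.comp y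
      ((hch i).smψ.differentiable (by simp) _).hasFDerivAt)
  have hs := HasFDerivAt.fun_sum fun i (_ : i ∈ ρ.fintsupport y) =>
    ((ρ i).contMDiff.contDiff.differentiable (by simp) y).hasFDerivAt.fun_smul (hd i)
  rw [(hs.congr_of_eventuallyEq ((ρ.eventually_finsupport_subset y).mono fun x hx =>
    finsum_eq_sum_of_support_subset _ fun i hi => hx ((ρ.mem_finsupport x).2
      (left_ne_zero_of_smul hi)))).fderiv, _root_.sum_apply]
  nth_rw 2 [← one_smul ℝ v]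
  rw [← ρ.sum_finsupport' y hy (ρ.finsupport_subset_fintsupport y), Finset.sum_smul,
    ← Finset.sum_sub_distrib]
  refine Submodule.sum_mem _ fun i hi => ?_
  have hi' := hU i y (hρ i ((ρ.mem_fintsupport_iff y i).1 hi)) hy
  simpa [hi'.self hy, smul_sub] using Submodule.smul_mem _ _ ((hi'.mem_tan hy _).2 ⟨_, rfl⟩)

theorem TBNu.tan {W : Set V} {ν : V → V} (h : TBNu W ν) {y : V} (hy : y ∈ W) (v : V) :
    v ∈ Tan W y ↔ fderiv ℝ ν y v = 0 := by
  refine ⟨fun hv => ?_, fun h0 => by simpa [h0] using h.der y hy v⟩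
  simpa using Tan.fderiv_congr hy (h.sm.differentiable (by simp) y) (differentiableAt_const 0)
    (eventually_nhdsWithin_of_forall h.zero) hv

theorem TBNu.idem {W : Set V} {ν : V → V} (h : TBNu W ν) {y : V} (hy : y ∈ W) (v : V) :
    fderiv ℝ ν y (fderiv ℝ ν y v) = fderiv ℝ ν y v := by
  simpa [sub_eq_zero] using (h.tan hy _).1 (h.der y hy v)

theorem tb_proj {d : ℕ} {W : Set V} (h : IsSub d W) (hc : IsClosed W) :
    ∃ P : V → V →L[ℝ] V, ContDiff ℝ ∞ P ∧ ∀ y ∈ W, ProjOn (Tan W y) (P y) := by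
  obtain ⟨ν, hν⟩ := tb_nu h hc
  exact ⟨fun y => ContinuousLinearMap.id ℝ V - fderiv ℝ ν y,
    contDiff_const.sub (hν.sm.fderiv_right (m := ∞) (by simp)), fun y hy =>
      ⟨fun v => by simpa using neg_mem (hν.der y hy v), fun v hv => by simp [(hν.tan hy v).1 hv]⟩⟩

/-- Write `p₂ = x + n` with `x = φ (ψ p₂)`; both `Dψ n` and `Dν n` are small against `n`. -/
theorem TBNu.loc {d : ℕ} {W : Set V} (hW : IsSub d W) {ν : V → V} (h : TBNu W ν) {y₀ : V}
    (hy : y₀ ∈ W) :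
    ∀ᶠ p in 𝓝 (y₀, y₀), p.1 ∈ W → fderiv ℝ ν p.1 (ν p.2) = 0 → p.2 ∈ W := by
  obtain ⟨φ, ψ, hc⟩ := hW y₀ hy
  have hA := h.idem hy
  have hT : ∀ n, fderiv ℝ φ (ψ y₀) (fderiv ℝ ψ y₀ (fderiv ℝ ν y₀ n - n)) = fderiv ℝ ν y₀ n - n :=
    fun n => hc.right_inv_fderiv hy (h.der y₀ hy n)
  have t2 : Tendsto (fun p : V × V => ψ p.2) (𝓝 (y₀, y₀)) (𝓝 (ψ y₀)) :=
    (hc.smψ.continuous.comp continuous_snd).tendsto _
  have t3 : Tendsto (fun p : V × V => (p.2, φ (ψ p.2))) (𝓝 (y₀, y₀)) (𝓝 (y₀, y₀)) :=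
    (continuous_snd.tendsto _).prodMk_nhds (by
      simpa [hc.self hy, Function.comp_def] using (hc.smφ.continuous.tendsto _).comp t2)
  have t4 : Tendsto (fun p : V × V => fderiv ℝ ν p.1) (𝓝 (y₀, y₀)) (𝓝 (fderiv ℝ ν y₀)) :=
    ((h.sm.continuous_fderiv (by simp)).comp continuous_fst).tendsto _
  have h1 := (hc.smψ.hasStrictFDerivAt (x := y₀) (by simp)).isLittleO
  have h2 := (h.sm.hasStrictFDerivAt (x := y₀) (by simp)).isLittleO
  generalize fderiv ℝ ν y₀ = A at *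
  generalize fderiv ℝ ψ y₀ = B at *
  generalize fderiv ℝ φ (ψ y₀) = C at *
  obtain ⟨M, hM⟩ : ∃ M, M = (2 * ‖A‖ + 1) * (1 + ‖C‖ * ‖B‖) + ‖C‖ := ⟨_, rfl⟩
  obtain ⟨ε, h0, h3, h4⟩ : ∃ ε : ℝ, 0 < ε ∧ ε ≤ 1 ∧ ε * M < 1 := by
    have : 0 < M + 1 := by rw [hM]; positivity
    exact ⟨1 / (M + 1), by positivity,
      (div_le_one this).2 (by rw [hM, le_add_iff_nonneg_left]; positivity), by
      rw [div_mul_eq_mul_div, div_lt_one this]; linarith⟩
  filter_upwards [t2 hc.right, t3 (h1.def h0), t3 (h2.def h0),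
    t4 (Metric.closedBall_mem_nhds _ h0)] with p h5 h6 h7 h8 _ h9
  simp only [mem_preimage, mem_ofPred_eq, mem_closedBall_iff_norm'] at h5 h6 h7 h8
  rw [h5.2, sub_self, zero_sub, norm_neg] at h6
  rw [h.zero _ h5.1, sub_zero] at h7
  suffices p.2 - φ (ψ p.2) = 0 from sub_eq_zero.1 this ▸ h5.1
  generalize p.2 - φ (ψ p.2) = n at h6 h7
  generalize ν p.2 = u at h7 h9
  have h10 : ‖u‖ ≤ (‖A‖ + 1) * ‖n‖ := by
    nlinarith [norm_le_insert' u (A n), A.le_opNorm n, norm_nonneg n]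
  have h11 : ‖A n‖ ≤ ε * (2 * ‖A‖ + 1) * ‖n‖ := by
    have e : A n = (A - fderiv ℝ ν p.1) u - A (u - A n) := by simp [h9, hA]
    have := norm_sub_le ((A - fderiv ℝ ν p.1) u) (A (u - A n))
    rw [← e] at this
    nlinarith [(A - fderiv ℝ ν p.1).le_of_opNorm_le_of_le h8 h10, A.le_opNorm_of_le h7]
  have h12 : ‖n‖ ≤ ‖A n‖ + ‖C‖ * (‖B‖ * ‖A n‖ + ε * ‖n‖) := by
    have := norm_sub_le (A n) (A n - n)
    rw [sub_sub_cancel, ← hT n, map_sub] at this
    exact this.trans (add_le_add le_rfl (C.le_opNorm_of_le ((norm_sub_le _ _).trans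
      (add_le_add (B.le_opNorm _) h6))))
  refine norm_eq_zero.1 (le_antisymm (not_lt.1 fun h13 => ?_) (norm_nonneg _))
  have h14 := mul_le_mul_of_nonneg_left h11 (show 0 ≤ 1 + ‖C‖ * ‖B‖ by positivity)
  have h15 := mul_lt_mul_of_pos_right h4 h13
  rw [hM] at h15
  nlinarith

end Pool.Agent.Lib.MP_ccffa6_gt
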