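import Pool.Agent.Lib.MP_ccffa6_gt.T.BGlueJ
import Pool.Agent.Lib.MP_ccffa6_gt.T.BNu
import Pool.Agent.Lib.MP_ccffa6_gt.K.Cyl

/-!
Cylindrical complex structures on the ends.
-/

open Set Filter Topology
open scoped ContDiff Real

noncomputable section

namespace Pool.Agent.Lib.MP_ccffa6_gt

variable {E : Type} [NormedAddCommGroup E] [NormedSpace ℝ E] [FiniteDimensional ℝ E]

/-- Pull-back by the first projection. -/
def tbLift (F : Type) [NormedAddCommGroup F] [NormedSpace ℝ F] (α : Form1 E) : Form1 (E × F) :=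
  fun p => (α p.1).comp (ContinuousLinearMap.fst ℝ E F)

section

variable {F : Type} [NormedAddCommGroup F] [NormedSpace ℝ F] [FiniteDimensional ℝ F]

@[simp] theorem tbLift_apply (α : Form1 E) (p v : E × F) : tbLift F α p v = α p.1 v.1 := rfl

theorem tb_lift_sm {α : Form1 E} (h : ContDiff ℝ ∞ α) : ContDiff ℝ ∞ (tbLift F α) := by
  exact (h.comp contDiff_fst).clm_comp contDiff_const

theorem tb_dF_lift {α : Form1 E} (h : ContDiff ℝ ∞ α) (p u v : E × F) :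
    dF (tbLift F α) p u v = dF α p.1 u.1 v.1 := by
  rw [show tbLift F α = pb Prod.fst α from funext fun q => by rw [pb, fderiv_fst]; rfl,
    dF_pb contDiffAt_fst (h.differentiable (by simp) _), fderiv_fst]
  rfl

end

theorem tbcyl_reeb {N : Set E} {α : Form1 E} {x R a b : E} (h : IsReeb N α x R)
    (ha : a ∈ Tan N x) (hb : b ∈ Tan N x) (s t : ℝ) :
    dF α x (a + s • R) (b + t • R) = dF α x a b := by
  have h1 : dF α x a R = 0 := by
    have := h.2.2 a ha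
    rw [dF_apply] at *
    linarith
  simp [h1, h.2.2 b hb, h.2.2 R h.1]

theorem tbcyl_tan {d : ℕ} {N : Set E} (h : IsSub d N) {I : Set ℝ} (hI : IsOpen I) {p : E × ℝ}
    (hp : p.1 ∈ N) (hs : p.2 ∈ I) : Tan (N ×ˢ I) p = T1 N p.1 := by
  rw [h.tan_prod (isSub_of_isOpen hI) hp hs, Tan.of_mem_nhds (hI.mem_nhds hs)]
  rfl

/-- Existence of a cylindrical compatible complex structure. -/
theorem tb_cylJ {n : ℕ} {N : Set E} {α : Form1 E} (h : CMan n N α) : ∃ J, TBCylJ N α J := by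
  obtain ⟨R, hR, hr⟩ := h.exists_reeb
  obtain ⟨P, hP, hp⟩ := tb_proj h.cl.sub h.cl.cpt.isClosed
  obtain ⟨ξ, hξ⟩ : ∃ ξ : E → Submodule ℝ E, ∀ x v, v ∈ ξ x ↔ v ∈ Tan N x ∧ α x v = 0 :=
    ⟨fun x => Tan N x ⊓ LinearMap.ker (α x : E →ₗ[ℝ] ℝ), fun _ _ => Iff.rfl⟩
  have hq : ∀ x ∈ N, ∀ v ∈ Tan N x, v - α x v • R x ∈ ξ x := fun x hx v hv =>
    (hξ _ _).2 ⟨sub_mem hv (Submodule.smul_mem _ _ (hr x hx).1), by simp [(hr x hx).2.1]⟩
  obtain ⟨j, hj, hc, -⟩ := tb_glueJ h.cl.cpt.isClosed isClosed_empty (empty_subset _) (T := ξ)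
    (hP.sub ((h.sm.clm_comp hP).smulRight hR))
    (fun x hx => ⟨fun v => hq x hx _ ((hp x hx).1 v), fun v hv => by
      simp [(hp x hx).2 v ((hξ _ _).1 hv).1, ((hξ _ _).1 hv).2]⟩)
    (contDiff_dF h.sm) (fun x hx => ⟨fun u _ => by simp [dF_apply], fun u hu h1 =>
      (nd_symz_iff.1 (h.nd x hx)).2 u ((hξ _ _).1 hu).1 ((hξ _ _).1 hu).2
        fun v a b => h1 v ((hξ _ _).2 ⟨a, b⟩)⟩) (JB := fun _ => 0) (by simp) (by simp)
  have hl := tb_lift_sm (F := ℝ) h.sm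
  have hR' : ContDiff ℝ ∞ fun p : E × ℝ => R p.1 := hR.comp contDiff_fst
  obtain ⟨J, hJ, eJ⟩ : ∃ J : E × ℝ → (E × ℝ) →L[ℝ] (E × ℝ), ContDiff ℝ ∞ J ∧
      ∀ p v, J p v = (j p.1 (v.1 - α p.1 v.1 • R p.1) + v.2 • R p.1, -α p.1 v.1) :=
    ⟨_, ((contDiff_const (c := ContinuousLinearMap.inl ℝ E ℝ)).clm_comp
      (((hj.comp contDiff_fst).clm_comp
        ((contDiff_const (c := ContinuousLinearMap.fst ℝ E ℝ)).sub (hl.smulRight hR'))).add
        ((contDiff_const (c := ContinuousLinearMap.snd ℝ E ℝ)).smulRight hR'))).sub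
      ((contDiff_const (c := ContinuousLinearMap.inr ℝ E ℝ)).clm_comp hl), fun p v => by simp⟩
  refine ⟨J, hJ, fun x s t => ContinuousLinearMap.ext fun v => by rw [eJ, eJ], fun p hx => ?_,
    fun p _ v _ => by rw [eJ], fun p hx => by simpa [eJ] using hr _ hx⟩
  have h1 := fun u (hu : u ∈ T1 N p.1) => hq _ hx _ (mem_T1.1 hu)
  have h2 := fun u hu => (hξ _ _).1 ((hc _ hx).map _ (h1 u hu))
  have h3 : ∀ u ∈ T1 N p.1, α p.1 (J p u).1 = u.2 := fun u hu => by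
    simp only [eJ, map_add, (h2 u hu).2, map_smul, (hr _ hx).2.1, smul_eq_mul, zero_add, mul_one]
  refine ⟨fun u hu => ?_, fun u hu => ?_, fun u hu v hv => ?_, fun u hu h0 => ?_⟩
  · rw [mem_T1, eJ]
    exact add_mem (h2 u hu).1 (Submodule.smul_mem _ _ (hr _ hx).1)
  · rw [eJ, h3 u hu, eJ, add_sub_cancel_right, (hc _ hx).sq _ (h1 u hu)]
    exact Prod.ext (by simp only [Prod.fst_neg]; module) rfl
  · rw [symz_apply, symz_apply, h3 u hu, h3 v hv, eJ, eJ,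
      tbcyl_reeb (hr _ hx) (h2 u hu).1 (h2 v hv).1, (hc _ hx).inv _ (h1 u hu) _ (h1 v hv),
      sub_eq_add_neg u.1, sub_eq_add_neg v.1, ← neg_smul, ← neg_smul,
      tbcyl_reeb (hr _ hx) (mem_T1.1 hu) (mem_T1.1 hv)]
    ring
  · have h4 := tbcyl_reeb (hr _ hx) ((hξ _ _).1 (h1 u hu)).1 (h2 u hu).1 (α p.1 u.1) u.2
    rw [sub_add_cancel] at h4
    rw [symz_apply, h3 u hu, eJ, h4]
    dsimp only
    by_cases h5 : u.1 - α p.1 u.1 • R p.1 = 0
    · rw [h5]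
      by_contra h6
      simp only [map_zero, zero_add, not_lt] at h6
      have h7 : α p.1 u.1 = 0 := by nlinarith
      exact h0 (Prod.ext (by simpa [h7] using h5) (show u.2 = 0 by nlinarith))
    · linarith [(hc _ hx).pos _ (h1 u hu) h5, mul_self_nonneg u.2, mul_self_nonneg (α p.1 u.1)]

theorem tb_tan_cyl {d : ℕ} {N : Set E} (h : IsSub d N) {p : E × ℝ} (hp : p.1 ∈ N) :
    Tan (N ×ˢ (univ : Set ℝ)) p = T1 N p.1 := by
  exact tbcyl_tan h isOpen_univ hp trivial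

/-- The cylinder over a hypertight contact manifold. -/
theorem tb_cyl {n : ℕ} {N : Set E} {α : Form1 E} (h : CMan n N α) (hy : Hyp N α)
    {J : E × ℝ → (E × ℝ) →L[ℝ] (E × ℝ)} (hJ : TBCylJ N α J) :
    Cyl (N ×ˢ (univ : Set ℝ)) (ContinuousLinearMap.snd ℝ E ℝ) (0, 1) J (tbLift ℝ α) := by
  have ht := fun (y : E × ℝ) (hy : y ∈ N ×ˢ (univ : Set ℝ)) => tb_tan_cyl h.cl.sub hy.1
  have hl : ∀ (θ : Form1 E) (y : E × ℝ) (t : ℝ), tbLift ℝ θ (y + t • (0, 1)) = tbLift ℝ θ y :=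
    fun θ y t => by simp [tbLift]
  refine ⟨rfl, fun y t => by simp, ?_, hJ.sm, tb_lift_sm h.sm, fun y t => ?_, hl α,
    fun y _ => by simp, fun y hy v hv => ?_, fun y hy v hv => hJ.sJ y hy.1 v (ht y hy ▸ hv),
    fun y hy v hv => ?_, fun γ c hc h1 h2 h3 => ?_⟩
  · have e : N ×ˢ (univ : Set ℝ) ∩ {y | ContinuousLinearMap.snd ℝ E ℝ y = 0} = N ×ˢ {0} :=
      Set.ext fun y => by simp
    exact e ▸ h.cl.cpt.prod isCompact_singleton
  · simpa [Prod.add_def] using hJ.inv y.1 (y.2 + t) y.2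
  · rw [ht y hy] at hv ⊢
    exact ⟨(hJ.comp y hy.1).map v hv, (hJ.comp y hy.1).sq v hv⟩
  · rw [ht y hy] at hv
    have c := hJ.comp y hy.1
    have r := hJ.reeb y hy.1
    have he : ((0, 1) : E × ℝ) ∈ T1 N y.1 := mem_T1.2 (zero_mem _)
    have e1 : (J y (0, 1)).2 = 0 := by simpa using hJ.sJ y hy.1 _ he
    have hw : v - v.2 • (0, 1) - α y.1 v.1 • J y (0, 1) ∈ T1 N y.1 :=
      sub_mem (sub_mem hv (Submodule.smul_mem _ _ he)) (Submodule.smul_mem _ _ (c.map _ he))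
    have e2 := tbcyl_reeb r (mem_T1.1 hv) (mem_T1.1 (c.map v hv)) (-α y.1 v.1) (-v.2)
    have e3 : symz α y.1 (v - v.2 • (0, 1) - α y.1 v.1 • J y (0, 1))
        (J y (v - v.2 • (0, 1) - α y.1 v.1 • J y (0, 1))) = dF α y.1 v.1 (J y v).1 := by
      rw [symz_apply, ← e2, map_sub (J y), map_sub (J y), map_smul (J y), map_smul (J y),
        c.sq _ he]
      simp [e1, r.2.1, sub_eq_add_neg]
    rw [tb_dF_lift h.sm, ← e3]
    by_cases h0 : v - v.2 • (0, 1) - α y.1 v.1 • J y (0, 1) = 0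
    · refine ⟨by rw [h0]; simp, fun _ => ?_⟩
      rwa [sub_sub, sub_eq_zero] at h0
    · exact ⟨(c.pos _ hw h0).le, fun e => absurd e (c.pos _ hw h0).ne'⟩
  · obtain ⟨θ, a1, a2, a3⟩ := hy (fun t => (γ (t / c)).1) (fun t => (J (γ (t / c)) (0, 1)).1)
      (2 * π * c) (by positivity)
      (fun t => by rw [add_div, mul_div_cancel_right₀ _ hc.ne', h1]) (fun t => (h2 _).1)
      (fun t => by
        have h4 := (h3 (t / c)).scomp t ((hasDerivAt_id t).div_const c)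
        rw [smul_smul, one_div_mul_cancel hc.ne', one_smul] at h4
        exact (ContinuousLinearMap.fst ℝ E ℝ).hasFDerivAt.comp_hasDerivAt t h4)
      fun t => hJ.reeb _ (h2 _).1
    refine ⟨tbLift ℝ θ, tb_lift_sm a1, hl θ, fun y hy u hu v hv => ?_, ?_⟩
    · rw [ht y hy] at hu hv
      rw [tb_dF_lift a1, a2 _ hy.1 _ (mem_T1.1 hu) _ (mem_T1.1 hv)]
    · rw [intervalIntegral.integral_comp_div
        (fun t => θ (γ t).1 (J (γ t) (0, 1)).1) hc.ne', mul_div_cancel_right₀ _ hc.ne'] at a3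
      simpa using a3

/-- The derivative of a form which is cylindrical on an open set of levels. -/
theorem tb_dF_cyl {d : ℕ} {N : Set E} (hN : IsSub d N) {α : Form1 E} (hα : ContDiff ℝ ∞ α)
    {lam : Form1 (E × ℝ)} (hl : ContDiff ℝ ∞ lam) {I : Set ℝ} (hI : IsOpen I) {c : ℝ}
    (he : ∀ p : E × ℝ, p.1 ∈ N → p.2 ∈ I → ∀ v ∈ T1 N p.1,
      lam p v = Real.exp (p.2 + c) * α p.1 v.1) {p : E × ℝ} (h1 : p.1 ∈ N) (h2 : p.2 ∈ closure I) :
    ∀ u ∈ T1 N p.1, ∀ v ∈ T1 N p.1, dF lam p u v = Real.exp (p.2 + c) * symz α p.1 u v := by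
  intro u hu v hv
  have hg : ContDiff ℝ ∞ fun q : E × ℝ => Real.exp (q.2 + c) := by fun_prop
  have dg : ∀ q w : E × ℝ, fderiv ℝ (fun q : E × ℝ => Real.exp (q.2 + c)) q w =
      Real.exp (q.2 + c) * w.2 := fun q w => by
    rw [((hasFDerivAt_snd (p := q)).add_const c).exp.fderiv]
    rfl
  refine closure_minimal (s := I) (t := {s | dF lam (p.1, s) u v =
    Real.exp (s + c) * symz α p.1 u v}) (fun s hs => ?_) (isClosed_eq ?_ (by fun_prop)) h2
  · have e := tbcyl_tan (p := (p.1, s)) hN hI h1 hs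
    rw [mem_ofPred_eq, EqT.dF_eq (β := fun q => Real.exp (q.2 + c) • tbLift ℝ α q)
      (hN.prod (isSub_of_isOpen hI)) hl (hg.smul (tb_lift_sm hα))
      (fun q hq w hw => he q hq.1 hq.2 w (tbcyl_tan hN hI hq.1 hq.2 ▸ hw)) (x := (p.1, s))
      ⟨h1, hs⟩ (e ▸ hu) (e ▸ hv), dF_smul (hg.differentiable (by simp) _)
      ((tb_lift_sm hα).differentiable (by simp) _), tb_dF_lift hα, dg, dg, symz_apply]
    simp only [tbLift_apply]
    ring
  · have := (contDiff_dF hl).continuous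
    fun_prop

end Pool.Agent.Lib.MP_ccffa6_gt
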