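import Pool.Agent.Lib.MP_ccffa6_gt.T.Defs
import Pool.Agent.Lib.MP_ccffa6_gt.Disc

/-!
The bridge: intermediate structures.
-/

open Set Filter Topology
open scoped ContDiff ComplexConjugate Real

noncomputable section

namespace Pool.Agent.Lib.MP_ccffa6_gt

section

variable {V : Type} [NormedAddCommGroup V] [NormedSpace ℝ V]

/-- `J` is a complex structure on `T` which is compatible with `w`. -/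
structure Compat (T : Submodule ℝ V) (w : Bil V) (J : V →L[ℝ] V) : Prop where
  map : ∀ u ∈ T, J u ∈ T
  sq : ∀ u ∈ T, J (J u) = -u
  inv : ∀ u ∈ T, ∀ v ∈ T, w (J u) (J v) = w u v
  pos : ∀ u ∈ T, u ≠ 0 → 0 < w u (J u)

/-- `g` is symmetric and positive definite on `T`. -/
structure PosOn (T : Submodule ℝ V) (g : Bil V) : Prop where
  symm : ∀ u ∈ T, ∀ v ∈ T, g u v = g v u
  pos : ∀ u ∈ T, u ≠ 0 → 0 < g u u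

/-- `P` is a projector onto `T`. -/
def ProjOn (T : Submodule ℝ V) (P : V →L[ℝ] V) : Prop := (∀ v, P v ∈ T) ∧ ∀ v ∈ T, P v = v

/-- `ν` vanishes on `W` and its derivative is the identity modulo the tangent space. -/
structure TBNu (W : Set V) (ν : V → V) : Prop where
  sm : ContDiff ℝ ∞ ν
  zero : ∀ y ∈ W, ν y = 0
  der : ∀ y ∈ W, ∀ v, fderiv ℝ ν y v - v ∈ Tan W y

/-- A cylindrical compatible complex structure on `N × ℝ`. -/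
structure TBCylJ (N : Set V) (α : Form1 V) (J : V × ℝ → (V × ℝ) →L[ℝ] (V × ℝ)) : Prop where
  sm : ContDiff ℝ ∞ J
  inv : ∀ x (s t : ℝ), J (x, s) = J (x, t)
  comp : ∀ p : V × ℝ, p.1 ∈ N → Compat (T1 N p.1) (symz α p.1) (J p)
  sJ : ∀ p : V × ℝ, p.1 ∈ N → ∀ v ∈ T1 N p.1, (J p v).2 = -α p.1 v.1
  reeb : ∀ p : V × ℝ, p.1 ∈ N → IsReeb N α p.1 (J p (0, 1)).1

/-- The bottom part `z = -1` of the side. -/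
def Sig2b (n : ℕ) (zD : ℝ) (K : ℝ × ℝ → ℝ) : Set (Mod n) := {p | p ∈ Sig2 n zD K ∧ p.1 = -1}

/-- The two contact charts on uniform neighbourhoods `V₁`, `V₂` of the two pieces. -/
structure TBGerm (n : ℕ) {X : Type} (V₁ V₂ : Set (Mod n)) (f₁ f₂ : Mod n → X) : Prop where
  ne : ∀ q ∈ V₁, q.2.1 ≠ 0
  inj₁ : InjOn f₁ V₁
  inj₂ : InjOn f₂ V₂
  cross : ∀ p ∈ V₂, ∀ q ∈ V₁, f₂ p = f₁ q → p.2.1 ≠ 0 ∧ q = polar p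
  agree : ∀ p ∈ V₂, p.2.1 ≠ 0 → polar p ∈ V₁ → f₂ p = f₁ (polar p)

/-- The two charts of the symplectisation; the form `Λ` pulls back to `m / 2 · lam_i`. -/
structure TBSym (n : ℕ) (Y : Set V) (Λ : Form1 V) (V₁ V₂ : Set (Mod n))
    (F₁ F₂ : ℝ × Mod n → V) : Prop where
  op₁ : IsOpen V₁
  op₂ : IsOpen V₂
  sm₁ : ContDiffOn ℝ ∞ F₁ (Ioi (1 / 2) ×ˢ V₁)
  sm₂ : ContDiffOn ℝ ∞ F₂ (Ioi (1 / 2) ×ˢ V₂)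
  map₁ : MapsTo F₁ (Ioi (1 / 2) ×ˢ V₁) Y
  map₂ : MapsTo F₂ (Ioi (1 / 2) ×ˢ V₂) Y
  inj₁ : InjOn F₁ (Ioi (1 / 2) ×ˢ V₁)
  inj₂ : InjOn F₂ (Ioi (1 / 2) ×ˢ V₂)
  cross : ∀ a ∈ Ioi (1 / 2 : ℝ) ×ˢ V₂, ∀ b ∈ Ioi (1 / 2 : ℝ) ×ˢ V₁, F₂ a = F₁ b →
    a.2.2.1 ≠ 0 ∧ b = (a.1, polar a.2)
  agree : ∀ a ∈ Ioi (1 / 2 : ℝ) ×ˢ V₂, a.2.2.1 ≠ 0 → polar a.2 ∈ V₁ → F₂ a = F₁ (a.1, polar a.2)
  pull₁ : ∀ a ∈ Ioi (1 / 2 : ℝ) ×ˢ V₁, ∀ v, Λ (F₁ a) (fderiv ℝ F₁ a v) = a.1 / 2 * lam1 a.2 v.2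
  pull₂ : ∀ a ∈ Ioi (1 / 2 : ℝ) ×ˢ V₂, ∀ v, Λ (F₂ a) (fderiv ℝ F₂ a v) = a.1 / 2 * lam2 a.2 v.2

/-- The chart, defined on an open set only. -/
structure TBChart (k : ℕ) (Y : Set V) (lam : Form1 V) (l D : ℝ) (O : Set (Cm k)) (Θ : Cm k → V) :
    Prop where
  D0 : 0 ≤ D
  opO : IsOpen O
  sm : ContDiffOn ℝ ∞ Θ O
  inj : InjOn Θ O
  map : MapsTo Θ O Y
  boxP : BoxP k l ⊆ O
  boxM : BoxM k l D ⊆ O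
  lag : Larc k (-l) (D + l) ⊆ O
  tame : ∀ h ∈ O, ∀ X, X ≠ 0 →
    0 < dF lam (Θ h) (fderiv ℝ Θ h X) (fderiv ℝ Θ h (Complex.I • X))
  comp : ∀ h ∈ O, ∀ X Y, dF lam (Θ h) (fderiv ℝ Θ h (Complex.I • X)) (fderiv ℝ Θ h (Complex.I • Y)) =
    dF lam (Θ h) (fderiv ℝ Θ h X) (fderiv ℝ Θ h Y)
  omP : ∀ h ∈ BoxP k l, ∀ X Y,
    dF lam (Θ h) (fderiv ℝ Θ h X) (fderiv ℝ Θ h Y) = (inner ℂ X Y : ℂ).im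
  omM : ∀ h ∈ BoxM k l D, ∀ X, (‖X‖ ^ 2 + ‖X 1‖ ^ 2 / ‖h 1‖ ^ 2) / 4 ≤
    dF lam (Θ h) (fderiv ℝ Θ h X) (fderiv ℝ Θ h (Complex.I • X))
  per : ∃ g : ℝ → ℝ, ContDiff ℝ ∞ g ∧ ∀ h ∈ Larc k (-l) (D + l), ∀ X : Cm k, (X 0).re = 0 →
    (∀ j, j ≠ 0 → (conj (h j) * X j).re = 0) →
    lam (Θ h) (fderiv ℝ Θ h X) =
      ∑ j ∈ Finset.univ.erase 0, (conj (h j) * X j).im / 2 + g (h 0).im * (X 0).im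

/-- The properties of `TD.OK` which do not involve `ν`, `S`, `Vs`. -/
structure TD.OK0 {k : ℕ} (T : TD k V) : Prop where
  sub : IsSub (2 * k + 4) T.W
  clW : IsClosed T.W
  smJ : ContDiff ℝ ∞ T.J
  mapJ : ∀ y ∈ T.W, ∀ v ∈ Tan T.W y, T.J y v ∈ Tan T.W y ∧ T.J y (T.J y v) = -v
  smlam : ContDiff ℝ ∞ T.lam
  tame : ∀ y ∈ T.W, ∀ v ∈ Tan T.W y, v ≠ 0 → 0 < dF T.lam y v (T.J y v)
  cyl : Cyl T.C T.s T.e T.J0 T.α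
  bot : ∀ y, T.s y < 0 → (y ∈ T.W ↔ y ∈ T.C)
  botJ : ∀ y ∈ T.W, T.s y < 0 → ∀ v ∈ Tan T.W y,
    T.J y v = T.J0 y v ∧ T.lam y v = Real.exp (T.s y) * T.α y v
  smb : ContDiff ℝ ∞ T.b
  top : ∀ y ∈ T.W, 0 < T.b y → ∀ v ∈ Tan T.W y, fderiv ℝ T.b y (T.J y v) = -T.lam y v
  cpt : ∀ c : ℝ, IsCompact (T.W ∩ {y | T.b y ≤ 0 ∧ -c ≤ T.s y})
  D0 : 0 ≤ T.D
  opO : IsOpen T.O
  opU : IsOpen T.U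
  smΘ : ContDiff ℝ ∞ T.Θ
  smC : ContDiff ℝ ∞ T.Cc
  boxP : BoxP k T.l ⊆ T.O
  boxM : BoxM k T.l T.D ⊆ T.O
  lag : Larc k (-T.l) (T.D + T.l) ⊆ T.O
  CΘ : ∀ h ∈ T.O, T.Θ h ∈ T.W ∧ T.Θ h ∈ T.U ∧ T.Cc (T.Θ h) = h
  ΘC : ∀ y ∈ T.W, y ∈ T.U → T.Cc y ∈ T.O ∧ T.Θ (T.Cc y) = y
  mid : ∀ h ∈ T.O, T.b (T.Θ h) ≤ 0 ∧ 0 < T.s (T.Θ h)
  hol : ∀ h ∈ T.O, ∀ X, T.J (T.Θ h) (fderiv ℝ T.Θ h X) = fderiv ℝ T.Θ h (Complex.I • X)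
  omP : ∀ h ∈ BoxP k T.l, ∀ X Y,
    dF T.lam (T.Θ h) (fderiv ℝ T.Θ h X) (fderiv ℝ T.Θ h Y) = (inner ℂ X Y : ℂ).im
  omM : ∀ h ∈ BoxM k T.l T.D, ∀ X, (‖X‖ ^ 2 + ‖X 1‖ ^ 2 / ‖h 1‖ ^ 2) / 4 ≤
    dF T.lam (T.Θ h) (fderiv ℝ T.Θ h X) (fderiv ℝ T.Θ h (Complex.I • X))
  per : ∀ h ∈ Larc k (-T.l) (T.D + T.l), ∀ X : Cm k, (X 0).re = 0 →
    (∀ j, j ≠ 0 → (conj (h j) * X j).re = 0) →
    T.lam (T.Θ h) (fderiv ℝ T.Θ h X) = ∑ j ∈ Finset.univ.erase 0, (conj (h j) * X j).im / 2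

/-- The closed arc. -/
def LarcC (k : ℕ) (a b : ℝ) : Set (Cm k) := {h | h ∈ Lag k ∧ a ≤ (h 0).im ∧ (h 0).im ≤ b}

/-- The linear involution, on a neighbourhood of the closed arc of size `l`. -/
structure TD.OKS {k : ℕ} (T : TD k V) (l : ℝ) : Prop where
  SS : ∀ v, T.S (T.S v) = v
  opVs : IsOpen T.Vs
  SVs : ∀ y ∈ T.Vs, T.S y ∈ T.Vs
  VsU : T.W ∩ T.Vs ⊆ T.U
  LVs : ∀ h ∈ LarcC k (-l) (T.D + l), T.Θ h ∈ T.Vs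
  SΘ : ∀ h ∈ T.O, T.Θ h ∈ T.Vs →
    (∀ j, j ≠ 0 → h j ≠ 0) ∧ sig h ∈ T.O ∧ T.Θ (sig h) = T.S (T.Θ h)

end

end Pool.Agent.Lib.MP_ccffa6_gt
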