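import Pool.Agent.Lib.MP_ccffa6_gt.T.BMod
import Pool.Agent.Lib.MP_ccffa6_gt.K.Forms

/-!
The exterior derivative of the model form.
-/

open Set
open scoped ContDiff ComplexConjugate

noncomputable section

namespace Pool.Agent.Lib.MP_ccffa6_gt

variable {k : ℕ} {T : ℂ → ℝ × ℝ} {b : ℝ → ℝ}

theorem tb_ang_apply (c X : ℂ) : ang c X = (conj c * X).im := by
  simp [ang, sub_eq_add_neg]

theorem tbform_dF {E : Type} [NormedAddCommGroup E] [NormedSpace ℝ E] (a : Form1 E) (x u v : E) :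
    dF a x u v = fderiv ℝ a x u v - fderiv ℝ a x v u := rfl

theorem tbform_lin {F : Type} [NormedAddCommGroup F] [NormedSpace ℝ F] (L : ℂ →L[ℝ] F) (X : ℂ) :
    L X = X.re • L 1 + X.im • L Complex.I := by
  rw [← map_smul, ← map_smul, ← map_add]
  exact congrArg _ (by simp)

/-- A two-form on `ℂ` is a multiple of the area form. -/
theorem tb_dF_plane (a : Form1 ℂ) (ζ X Y : ℂ) :
    dF a ζ X Y = dF a ζ 1 Complex.I * (conj X * Y).im := by
  rw [tbform_dF, tbform_dF, tbform_lin (fderiv ℝ a ζ) X, tbform_lin (fderiv ℝ a ζ) Y]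
  simp only [add_apply, smul_apply, smul_eq_mul]
  rw [tbform_lin (fderiv ℝ a ζ 1) X, tbform_lin (fderiv ℝ a ζ 1) Y,
    tbform_lin (fderiv ℝ a ζ Complex.I) X, tbform_lin (fderiv ℝ a ζ Complex.I) Y]
  simp only [smul_eq_mul, Complex.mul_im, Complex.conj_re, Complex.conj_im]
  ring

theorem tbform_a0 (hT : ContDiff ℝ ∞ T) :
    tbA0 T = fun ζ => (T ζ).1 • fderiv ℝ (fun ζ => (T ζ).2) ζ := by
  funext ζ
  rw [tbA0, (hT.differentiable (by simp) ζ).hasFDerivAt.snd.fderiv]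

theorem tbform_da0 (hT : ContDiff ℝ ∞ T) : Differentiable ℝ (tbA0 T) := by
  rw [tbform_a0 hT]
  exact (hT.fst.smul (hT.snd.fderiv_right (m := ∞) le_rfl)).differentiable (by simp)

theorem tb_dF_a0 (hT : ContDiff ℝ ∞ T) (ζ : ℂ) : dF (tbA0 T) ζ 1 Complex.I = tbJ T ζ := by
  have hd := (hT.differentiable (by simp) ζ).hasFDerivAt
  rw [tbform_a0 hT, dF_smul (hT.fst.differentiable (by simp) ζ)
    ((hT.snd.fderiv_right (m := ∞) le_rfl).differentiable (by simp) ζ),
    dF_fderiv (hT.snd.contDiffAt.of_le (by norm_cast)), hd.fst.fderiv, hd.snd.fderiv]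
  simp [tbJ]

theorem tbform_ang (w : ℂ) : HasFDerivAt ang
    (Complex.reCLM.smulRight Complex.imCLM - Complex.imCLM.smulRight Complex.reCLM) w :=
  (Complex.reCLM.smulRight Complex.imCLM - Complex.imCLM.smulRight Complex.reCLM).hasFDerivAt

theorem tbform_dang (w : ℂ) : dF ang w 1 Complex.I = 2 := by
  rw [tbform_dF, (tbform_ang w).fderiv]
  simp
  norm_num

theorem tb_dF_ang {φ : ℂ → ℝ} {w : ℂ} (hφ : DifferentiableAt ℝ φ w) :
    dF (fun w => φ w • ang w) w 1 Complex.I = 2 * φ w + fderiv ℝ φ w w := by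
  rw [dF_smul hφ (tbform_ang w).differentiableAt, tbform_dang, tbform_lin (fderiv ℝ φ w) w,
    tb_ang_apply, tb_ang_apply]
  simp
  ring

/-- The radial derivative of the coefficient. -/
theorem tb_phi_rad (hb : ContDiff ℝ ∞ b) {w : ℂ} (hw : w ≠ 0) :
    ContDiffAt ℝ ∞ (tbPhi b) w ∧ 2 * tbPhi b w + fderiv ℝ (tbPhi b) w w =
      2 + deriv b (Real.log ‖w‖) / ‖w‖ ^ 2 := by
  have hn : ‖w‖ ≠ 0 := norm_ne_zero_iff.2 hw
  have h1 : ContDiffAt ℝ ∞ (fun v : ℂ => ‖v‖) w := contDiffAt_id.norm ℝ hw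
  have h2 : ContDiffAt ℝ ∞ (tbPhi b) w :=
    ((h1.pow 2).add (hb.contDiffAt.comp w (h1.log hn))).div (h1.pow 2) (pow_ne_zero 2 hn)
  refine ⟨h2, ?_⟩
  have h3 : HasDerivAt (fun t : ℝ => tbPhi b (t • w)) (fderiv ℝ (tbPhi b) w w) 1 := by
    have h := (hasDerivAt_id (1 : ℝ)).smul_const w
    rw [one_smul] at h
    exact (h2.differentiableAt (by simp)).hasFDerivAt.comp_hasDerivAt_of_eq 1 h (one_smul ℝ w).symm
  have h4 : HasDerivAt (fun t : ℝ => b (Real.log t + Real.log ‖w‖)) (deriv b (Real.log ‖w‖)) 1 := by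
    have h := (hb.differentiable (by simp) (Real.log ‖w‖)).hasDerivAt.comp_of_eq 1
      ((Real.hasDerivAt_log one_ne_zero).add_const (Real.log ‖w‖)) (by simp)
    rw [inv_one, mul_one] at h
    exact h
  have h5 := ((h4.div ((hasDerivAt_pow 2 (1 : ℝ)).mul_const (‖w‖ ^ 2))
    (by simpa using hw)).const_add 1).congr_of_eventuallyEq (f₁ := fun t : ℝ => tbPhi b (t • w)) (by
      filter_upwards [lt_mem_nhds one_pos] with t ht
      simp only [tbPhi, tbMu, norm_smul, Real.norm_of_nonneg ht.le, Real.log_mul ht.ne' hn,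
        Pi.div_apply]
      field_simp)
  rw [h3.unique h5, tbPhi, tbMu]
  simp only [Real.log_one, zero_add, one_pow, one_mul]
  field_simp
  ring

theorem tb_form_apply (φ : ℂ → ℝ) (h X : Cm k) : tbForm T φ h X =
    ((T (h 0)).1 * (fderiv ℝ T (h 0) (X 0)).2 + φ (h 1) * (conj (h 1) * X 1).im +
      ∑ j : Fin k, (conj (h j.succ.succ) * X j.succ.succ).im) / 2 := by
  simp only [tbForm, tbA0, smul_apply, add_apply, ContinuousLinearMap.comp_apply,
    sum_apply, tbPr_apply, tb_ang_apply, smul_eq_mul,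
    ContinuousLinearMap.coe_snd']
  ring

theorem tbform_pr (j : Fin (k + 2)) {a : Form1 ℂ} {h : Cm k} (ha : DifferentiableAt ℝ a (h j)) :
    DifferentiableAt ℝ (fun h : Cm k => (a (h j)).comp (tbPr j)) h ∧ ∀ X Y,
      fderiv ℝ (fun h : Cm k => (a (h j)).comp (tbPr j)) h X Y = fderiv ℝ a (h j) (X j) (Y j) := by
  have h1 := (ha.hasFDerivAt.comp h (tbPr j).hasFDerivAt).clm_comp (hasFDerivAt_const (tbPr j) h)
  refine ⟨h1.differentiableAt, fun X Y => (congrArg (· X Y) h1.fderiv).trans ?_⟩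
  simp

/-- The exterior derivative of the model form. -/
theorem tb_dF_form (hT : ContDiff ℝ ∞ T) {φ : ℂ → ℝ} {h : Cm k} (hφ : DifferentiableAt ℝ φ (h 1))
    (X Y : Cm k) : dF (tbForm T φ) h X Y =
      tbJ T (h 0) / 2 * (conj (X 0) * Y 0).im +
        (2 * φ (h 1) + fderiv ℝ φ (h 1) (h 1)) / 2 * (conj (X 1) * Y 1).im +
        ∑ j : Fin k, (conj (X j.succ.succ) * Y j.succ.succ).im := by
  have h0 := tbform_pr 0 (tbform_da0 hT (h 0))
  have h1 := tbform_pr 1 (a := fun w => φ w • ang w) (hφ.smul (tbform_ang (h 1)).differentiableAt)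
  have h2 := fun j : Fin k => tbform_pr j.succ.succ (tbform_ang (h j.succ.succ)).differentiableAt
  have h3 : HasFDerivAt (tbForm T φ) _ h := ((h0.1.hasFDerivAt.add h1.1.hasFDerivAt).add
    (HasFDerivAt.fun_sum (u := Finset.univ) fun j _ => (h2 j).1.hasFDerivAt)).const_smul (1 / 2 : ℝ)
  have h4 : ∀ j : Fin k, fderiv ℝ ang (h j.succ.succ) (X j.succ.succ) (Y j.succ.succ) =
      fderiv ℝ ang (h j.succ.succ) (Y j.succ.succ) (X j.succ.succ) +
        2 * (conj (X j.succ.succ) * Y j.succ.succ).im := fun j => by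
    rw [← tbform_dang (h j.succ.succ), ← tb_dF_plane, tbform_dF]
    ring
  rw [← tb_dF_ang hφ, ← tb_dF_a0 hT, div_mul_eq_mul_div, div_mul_eq_mul_div, ← tb_dF_plane,
    ← tb_dF_plane, tbform_dF, tbform_dF, tbform_dF, h3.fderiv]
  simp only [smul_apply, add_apply, sum_apply, h0.2, h1.2, (h2 _).2,
    smul_eq_mul]
  rw [Finset.sum_congr rfl fun j _ => h4 j, Finset.sum_add_distrib, ← Finset.mul_sum]
  ring

end Pool.Agent.Lib.MP_ccffa6_gt
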