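import Pool.Agent.Lib.MP_ccffa6_gt.T.BPolar

/-!
Extension of compatible complex structures from a closed subset.
-/

open Set Filter Topology
open scoped ContDiff

noncomputable section

namespace Pool.Agent.Lib.MP_ccffa6_gt

variable {V : Type} [NormedAddCommGroup V] [NormedSpace ℝ V] [FiniteDimensional ℝ V]
  {X : Type} [NormedAddCommGroup X] [NormedSpace ℝ X] [FiniteDimensional ℝ X]

theorem tb_exists_pos (V : Type) [NormedAddCommGroup V] [NormedSpace ℝ V] [FiniteDimensional ℝ V] :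
    ∃ g : Bil V, PosOn ⊤ g := by
  let e : V →L[ℝ] EuclideanSpace ℝ (Fin (Module.finrank ℝ V)) :=
    (toEuclidean : V ≃L[ℝ] EuclideanSpace ℝ (Fin (Module.finrank ℝ V)))
  let b : Bil (EuclideanSpace ℝ (Fin (Module.finrank ℝ V))) := innerSL ℝ
  refine ⟨b.bilinearComp e e, fun u _ v _ => ?_, fun u _ hu => ?_⟩
  · exact real_inner_comm (e v) (e u)
  · refine (real_inner_self_pos (x := e u)).2 fun h0 => hu ?_
    exact (toEuclidean : V ≃L[ℝ] EuclideanSpace ℝ (Fin (Module.finrank ℝ V))).map_eq_zero_iff.1 h0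

theorem Compat.smul {T : Submodule ℝ V} {w : Bil V} {J : V →L[ℝ] V} (h : Compat T w J) {c : ℝ}
    (hc : 0 < c) : Compat T (c • w) J := by
  refine ⟨h.map, h.sq, fun u hu v hv => ?_, fun u hu h0 => mul_pos hc (h.pos u hu h0)⟩
  show c * w (J u) (J v) = c * w u v
  rw [h.inv u hu v hv]

theorem Compat.congr {T : Submodule ℝ V} {w w' : Bil V} {J J' : V →L[ℝ] V} (h : Compat T w J)
    (hw : ∀ u ∈ T, ∀ v ∈ T, w' u v = w u v) (hJ : ∀ u ∈ T, J' u = J u) : Compat T w' J' := by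
  refine ⟨fun u hu => ?_, fun u hu => ?_, fun u hu v hv => ?_, fun u hu h0 => ?_⟩
  · rw [hJ u hu]
    exact h.map u hu
  · rw [hJ u hu, hJ _ (h.map u hu), h.sq u hu]
  · rw [hJ u hu, hJ v hv, hw _ (h.map u hu) _ (h.map v hv), hw u hu v hv, h.inv u hu v hv]
  · rw [hJ u hu, hw u hu _ (h.map u hu)]
    exact h.pos u hu h0

/-- A compatible `J` which is orthogonal for the metric of another compatible `J₀` is `J₀`. -/
theorem tb_polar_unique {T : Submodule ℝ V} {w : Bil V} (hn : ND T w) {J J₀ : V →L[ℝ] V}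
    (h : Compat T w J) (h₀ : Compat T w J₀)
    (ho : ∀ u ∈ T, ∀ v ∈ T, w (J u) (J₀ (J v)) = w u (J₀ v)) : ∀ u ∈ T, J u = J₀ u := by
  intro u hu
  obtain ⟨d, hd⟩ : ∃ d, d = J u - J₀ u := ⟨_, rfl⟩
  have hdT : d ∈ T := by
    rw [hd]
    exact T.sub_mem (h.map u hu) (h₀.map u hu)
  have haT : -J d ∈ T := T.neg_mem (h.map d hdT)
  have ha : J (-J d) = d := by rw [map_neg, h.sq d hdT, neg_neg]
  have e1 : w d (J₀ (J u)) = w d (J (J₀ u)) := by
    have a1 := ho _ haT u hu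
    have a2 := h.inv _ haT _ (h₀.map u hu)
    rw [ha] at a1 a2
    rw [a1, a2]
  have e2 : J d = -u - J (J₀ u) := by rw [hd, map_sub, h.sq u hu]
  have e3 : J₀ d = J₀ (J u) + u := by rw [hd, map_sub, h₀.sq u hu, sub_neg_eq_add]
  by_contra hne
  have hd0 : d ≠ 0 := by
    rw [hd]
    exact sub_ne_zero.2 hne
  have p1 := h.pos d hdT hd0
  have p2 := h₀.pos d hdT hd0
  rw [e2, map_sub, map_neg] at p1
  rw [e3, map_add] at p2
  linarith

/-- Positivity on the fibres is an open condition. -/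
theorem tb_pos_eventually {A : Set X} {T : X → Submodule ℝ V} {P : X → V →L[ℝ] V}
    (hP : Continuous P) (hT : ∀ x ∈ A, ProjOn (T x) (P x)) {g : X → Bil V} (hg : Continuous g)
    {x : X} (hx : x ∈ A) (hp : ∀ u ∈ T x, u ≠ 0 → 0 < g x u u) :
    ∀ᶠ y in 𝓝[A] x, ∀ u ∈ T y, u ≠ 0 → 0 < g y u u := by
  obtain ⟨g₀, hg₀⟩ := tb_exists_pos V
  have n₀ : ∀ u, 0 ≤ g₀ u u := fun u => by
    by_cases hu : u = 0
    · simp [hu]
    · exact (hg₀.pos u trivial hu).le
  have cP : Continuous fun z : X × V => P z.1 z.2 := (hP.comp continuous_fst).clm_apply continuous_snd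
  have cG : Continuous fun z : X × V =>
      g z.1 (P z.1 z.2) (P z.1 z.2) + g₀ (z.2 - P z.1 z.2) (z.2 - P z.1 z.2) :=
    (((hg.comp continuous_fst).clm_apply cP).clm_apply cP).add
      ((g₀.continuous.comp (continuous_snd.sub cP)).clm_apply (continuous_snd.sub cP))
  have h1 : ∀ᶠ y in 𝓝 x, ∀ u ∈ Metric.sphere (0 : V) 1,
      0 < g y (P y u) (P y u) + g₀ (u - P y u) (u - P y u) := by
    refine (isCompact_sphere (0 : V) 1).eventually_forall_of_forall_eventually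
      (P := fun y u => 0 < g y (P y u) (P y u) + g₀ (u - P y u) (u - P y u)) fun u hu => ?_
    refine cG.continuousAt.eventually (lt_mem_nhds ?_)
    have hu0 : u ≠ 0 := by
      rintro rfl
      simp at hu
    show 0 < g x (P x u) (P x u) + g₀ (u - P x u) (u - P x u)
    by_cases h0 : P x u = 0
    · rw [h0, map_zero, zero_add, sub_zero]
      exact hg₀.pos u trivial hu0
    · exact add_pos_of_pos_of_nonneg (hp _ ((hT x hx).1 u) h0) (n₀ _)
  filter_upwards [self_mem_nhdsWithin, h1.filter_mono nhdsWithin_le_nhds] with y hy h2 u hu hu0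
  have hn : 0 < ‖u‖ := norm_pos_iff.2 hu0
  have h3 := h2 (‖u‖⁻¹ • u) (by simp [norm_smul, hn.ne'])
  rw [(hT y hy).2 _ ((T y).smul_mem _ hu), sub_self, map_zero, add_zero, map_smul, map_smul,
    smul_apply, smul_eq_mul, smul_eq_mul] at h3
  have hi : 0 < ‖u‖⁻¹ := inv_pos.2 hn
  exact (mul_pos_iff_of_pos_left hi).1 ((mul_pos_iff_of_pos_left hi).1 h3)

theorem tbgluej_symm {T : Submodule ℝ V} {w : Bil V} (hn : ND T w) {J : V →L[ℝ] V}
    (h : Compat T w J) {u v : V} (hu : u ∈ T) (hv : v ∈ T) : w v (J u) = w u (J v) := by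
  rw [← h.inv u hu _ (h.map v hv), h.sq v hv, map_neg, hn.skew hv (h.map u hu)]

theorem tbgluej_flip {w : X → Bil V} (hw : ContDiff ℝ ∞ w) :
    ContDiff ℝ ∞ fun y => (w y).flip :=
  contDiff_clm_apply_iff.2 fun u => contDiff_clm_apply_iff.2 fun v =>
    (hw.clm_apply (contDiff_const (c := v))).clm_apply (contDiff_const (c := u))

theorem tbgluej_sym {w : X → Bil V} (hw : ContDiff ℝ ∞ w) {J : X → V →L[ℝ] V}
    (hJ : ContDiff ℝ ∞ J) : ∃ g : X → Bil V, ContDiff ℝ ∞ g ∧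
      ∀ y u v, g y u v = 1 / 2 * (w y v (J y u) + w y u (J y v)) := by
  have h1 : ContDiff ℝ ∞ fun y => ((w y).flip.comp (J y) : Bil V) := (tbgluej_flip hw).clm_comp hJ
  exact ⟨fun y => (1 / 2 : ℝ) • ((w y).flip.comp (J y) + ((w y).flip.comp (J y)).flip),
    (h1.add (tbgluej_flip h1)).const_smul (1 / 2 : ℝ), fun _ _ _ => rfl⟩

/-- Extension of a compatible complex structure from a closed subset. -/
theorem tb_glueJ {A B : Set X} (hA : IsClosed A) (hB : IsClosed B) (hBA : B ⊆ A)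
    {T : X → Submodule ℝ V} {P : X → V →L[ℝ] V}
    (hP : ContDiff ℝ ∞ P) (hT : ∀ x ∈ A, ProjOn (T x) (P x))
    {w : X → Bil V} (hw : ContDiff ℝ ∞ w) (hn : ∀ x ∈ A, ND (T x) (w x)) {JB : X → V →L[ℝ] V}
    (hc : ∀ x ∈ B, Compat (T x) (w x) (JB x))
    (hl : ∀ x ∈ B, ∃ J' : X → V →L[ℝ] V, ContDiff ℝ ∞ J' ∧ ∀ᶠ y in 𝓝[B] x, J' y = JB y) :
    ∃ J : X → V →L[ℝ] V, ContDiff ℝ ∞ J ∧ (∀ x ∈ A, Compat (T x) (w x) (J x)) ∧
      ∀ x ∈ B, ∀ u ∈ T x, J x u = JB x u := by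
  obtain ⟨g₀, hg₀⟩ := tb_exists_pos V
  obtain ⟨C, hCd⟩ : ∃ C : X → Set (Bil V), C = fun y => {g : Bil V | PosOn (T y) g ∧
      (y ∈ B → ∀ u ∈ T y, ∀ v ∈ T y, g u v = w y u (JB y v))} := ⟨_, rfl⟩
  have hconv : ∀ y, Convex ℝ (C y) := by
    rw [hCd]
    rintro y g₁ ⟨p₁, q₁⟩ g₂ ⟨p₂, q₂⟩ a b ha hb hab
    refine ⟨⟨fun u hu v hv => ?_, fun u hu h0 => ?_⟩, fun hy u hu v hv => ?_⟩
    · show a * g₁ u v + b * g₂ u v = a * g₁ v u + b * g₂ v u
      rw [p₁.symm u hu v hv, p₂.symm u hu v hv]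
    · show 0 < a * g₁ u u + b * g₂ u u
      have r₁ := p₁.pos u hu h0
      have r₂ := p₂.pos u hu h0
      rcases ha.eq_or_lt with h | h
      · rw [← h, zero_add] at hab
        rw [← h, hab]
        linarith
      · exact add_pos_of_pos_of_nonneg (mul_pos h r₁) (mul_nonneg hb r₂.le)
    · show a * g₁ u v + b * g₂ u v = w y u (JB y v)
      rw [q₁ hy u hu v hv, q₂ hy u hu v hv, ← add_mul, hab, one_mul]
  have hloc : ∀ x ∈ A, ∃ g : X → Bil V, ContDiff ℝ ∞ g ∧ ∀ᶠ y in 𝓝[A] x, g y ∈ C y := by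
    rw [hCd]
    intro x hx
    by_cases hxB : x ∈ B
    · obtain ⟨J', hJ', he⟩ := hl x hxB
      obtain ⟨g, hg, hge⟩ := tbgluej_sym hw hJ'
      have h1 := tb_pos_eventually hP.continuous hT hg.continuous hx fun u hu h0 => by
        have := (hc x hxB).pos u hu h0
        rw [hge, he.self_of_nhdsWithin hxB]
        linarith
      refine ⟨g, hg, ?_⟩
      filter_upwards [h1, (eventually_nhdsWithin_iff.1 he).filter_mono nhdsWithin_le_nhds]
        with y h2 h3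
      refine ⟨⟨fun u _ v _ => by rw [hge, hge, add_comm], h2⟩, fun hy u hu v hv => ?_⟩
      rw [hge, h3 hy, tbgluej_symm (hn y (hBA hy)) (hc y hy) hu hv]
      ring
    · refine ⟨fun _ => g₀, contDiff_const, ?_⟩
      filter_upwards [mem_nhdsWithin_of_mem_nhds (hB.isOpen_compl.mem_nhds hxB)] with y hy
      exact ⟨⟨fun u _ v _ => hg₀.symm u trivial v trivial, fun u _ h0 => hg₀.pos u trivial h0⟩,
        fun h => absurd h hy⟩
  obtain ⟨g, U, hg, -, hAU, hC, -⟩ := exists_smooth_convex hA hconv hloc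
  rw [hCd] at hC
  obtain ⟨J, hJ, hJc⟩ := tb_polar hA hP hT hw hn hg fun x hx => (hC x ⟨hx, hAU hx⟩).1
  refine ⟨J, hJ, fun x hx => (hJc x hx).1, fun x hx => ?_⟩
  have hx' := hBA hx
  refine tb_polar_unique (hn x hx') (hJc x hx').1 (hc x hx) fun u hu v hv => ?_
  have e := (hC x ⟨hx', hAU hx'⟩).2 hx
  rw [← e _ ((hJc x hx').1.map u hu) _ ((hJc x hx').1.map v hv), ← e u hu v hv]
  exact (hJc x hx').2 u hu v hv

end Pool.Agent.Lib.MP_ccffa6_gt
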