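import Pool.Agent.Lib.MP_ccffa6_gt.T.BCyl

/-!
Transport of the data to the graph of a smooth map.
-/

open Set Filter Topology
open scoped ContDiff

noncomputable section

namespace Pool.Agent.Lib.MP_ccffa6_gt

variable {V : Type} [NormedAddCommGroup V] [NormedSpace ℝ V] [FiniteDimensional ℝ V] {k : ℕ}

/-- The graph embedding. -/
def tbGr (σ : V → V) (y : V) : V × V := (y, σ y)

/-- Transport of an endomorphism field to the graph. -/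
def tbGrJ (σ : V → V) (J : V → V →L[ℝ] V) (p : V × V) : (V × V) →L[ℝ] (V × V) :=
  ((ContinuousLinearMap.id ℝ V).prod (fderiv ℝ σ p.1)).comp
    ((J p.1).comp (ContinuousLinearMap.fst ℝ V V))

/-- The data on the graph, with the swap as involution. -/
def TD.graph (T : TD k V) (σ : V → V) (Vs : Set (V × V)) : TD k (V × V) where
  W := tbGr σ '' T.W
  ν := 0
  J := tbGrJ σ T.J
  lam := tbLift V T.lam
  S := (ContinuousLinearMap.snd ℝ V V).prod (ContinuousLinearMap.fst ℝ V V)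
  Vs := Vs
  C := tbGr 0 '' T.C
  s := T.s.comp (ContinuousLinearMap.fst ℝ V V)
  e := (T.e, 0)
  J0 := tbGrJ 0 T.J0
  α := tbLift V T.α
  b := T.b ∘ Prod.fst
  l := T.l
  D := T.D
  O := T.O
  U := Prod.fst ⁻¹' T.U
  Θ := tbGr σ ∘ T.Θ
  Cc := T.Cc ∘ Prod.fst

theorem tb_gr_diff {σ : V → V} (hσ : ContDiff ℝ ∞ σ) (W : Set V) :
    Diff W (tbGr σ '' W) (tbGr σ) Prod.fst :=
  Diff.image (contDiff_id.prodMk hσ) contDiff_fst fun _ _ => rfl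

theorem tb_gr_mem {σ : V → V} {W : Set V} {p : V × V} :
    p ∈ tbGr σ '' W ↔ p.1 ∈ W ∧ p.2 = σ p.1 :=
  ⟨fun ⟨_, hy, e⟩ => e ▸ ⟨hy, rfl⟩, fun h => ⟨p.1, h.1, Prod.ext rfl h.2.symm⟩⟩

omit [FiniteDimensional ℝ V] in
theorem tbgraph_fderiv {σ : V → V} (hσ : ContDiff ℝ ∞ σ) (y v : V) :
    fderiv ℝ (tbGr σ) y v = (v, fderiv ℝ σ y v) :=
  DFunLike.congr_fun
    ((hasFDerivAt_id y).prodMk (hσ.differentiable (by simp) y).hasFDerivAt).fderiv v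

theorem tb_gr_tan {σ : V → V} (hσ : ContDiff ℝ ∞ σ) {W : Set V} {p : V × V}
    (hp : p ∈ tbGr σ '' W) (v : V × V) :
    v ∈ Tan (tbGr σ '' W) p ↔ v.1 ∈ Tan W p.1 ∧ v.2 = fderiv ℝ σ p.1 v.1 := by
  obtain ⟨y, hy, rfl⟩ := hp
  have B := (tb_gr_diff hσ W).tan_bijOn hy
  refine ⟨fun hv => ?_, fun hv => ?_⟩
  · obtain ⟨u, hu, rfl⟩ := B.surjOn hv
    rw [tbgraph_fderiv hσ]
    exact ⟨hu, rfl⟩
  · have h1 := B.mapsTo hv.1
    rwa [tbgraph_fderiv hσ, ← show v.2 = fderiv ℝ σ y v.1 from hv.2] at h1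

theorem tb_grJ_apply (σ : V → V) (J : V → V →L[ℝ] V) (p v : V × V) :
    tbGrJ σ J p v = (J p.1 v.1, fderiv ℝ σ p.1 (J p.1 v.1)) := rfl

theorem tb_grJ_sm {σ : V → V} (hσ : ContDiff ℝ ∞ σ) {J : V → V →L[ℝ] V} (hJ : ContDiff ℝ ∞ J) :
    ContDiff ℝ ∞ (tbGrJ σ J) := by
  refine contDiff_clm_apply_iff.2 fun v => ?_
  have A := (hJ.comp (contDiff_fst (F := V))).clm_apply (contDiff_const (c := v.1))
  exact A.prodMk (((hσ.fderiv_right (m := ∞) (by simp)).comp contDiff_fst).clm_apply A)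

theorem tbgraph_mapJ {σ : V → V} (hσ : ContDiff ℝ ∞ σ) {W : Set V} {J : V → V →L[ℝ] V}
    (h : ∀ y ∈ W, ∀ v ∈ Tan W y, J y v ∈ Tan W y ∧ J y (J y v) = -v) :
    ∀ y ∈ tbGr σ '' W, ∀ v ∈ Tan (tbGr σ '' W) y,
      tbGrJ σ J y v ∈ Tan (tbGr σ '' W) y ∧ tbGrJ σ J y (tbGrJ σ J y v) = -v := by
  intro y hy v hv
  obtain ⟨h1, h2⟩ := (tb_gr_tan hσ hy v).1 hv
  obtain ⟨h3, h4⟩ := h _ (tb_gr_mem.1 hy).1 _ h1
  refine ⟨(tb_gr_tan hσ hy _).2 ⟨h3, rfl⟩, Prod.ext h4 ?_⟩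
  simp only [tb_grJ_apply, h4, map_neg, Prod.snd_neg, h2]

theorem Cyl.graph {C : Set V} {s : V →L[ℝ] ℝ} {e : V} {J : V → V →L[ℝ] V} {α : Form1 V}
    (h : Cyl C s e J α) : Cyl (tbGr 0 '' C) (s.comp (ContinuousLinearMap.fst ℝ V V)) (e, 0)
      (tbGrJ 0 J) (tbLift V α) := by
  have z : ContDiff ℝ ∞ (0 : V → V) := contDiff_const
  refine ⟨h.se, fun y t => ?_, ?_, tb_grJ_sm z h.smJ, tb_lift_sm h.smα, fun y t => ?_,
    fun y t => ?_, fun y hy => h.ae _ (tb_gr_mem.1 hy).1, tbgraph_mapJ z h.mapJ,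
    fun y hy v hv => h.sJ _ (tb_gr_mem.1 hy).1 _ ((tb_gr_tan z hy v).1 hv).1,
    fun y hy v hv => ?_, fun γ c hc h1 h2 h3 => ?_⟩
  · rw [tb_gr_mem, tb_gr_mem]
    simp [h.inv]
  · rw [← image_inter_preimage]
    exact h.cpt.image (tb_gr_diff z C).smφ.continuous
  · refine ContinuousLinearMap.ext fun v => ?_
    simp [tb_grJ_apply, h.invJ]
  · exact congrArg (ContinuousLinearMap.comp · _) (h.invα y.1 t)
  · obtain ⟨h1, h2⟩ := (tb_gr_tan z hy v).1 hv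
    have h3 := h.pos _ (tb_gr_mem.1 hy).1 _ h1
    rw [tb_dF_lift h.smα]
    exact ⟨h3.1, fun h4 => Prod.ext (h3.2 h4) (by simp [h2, tb_grJ_apply])⟩
  · obtain ⟨θ, s1, s2, s3, s4⟩ := h.hyp (fun t => (γ t).1) c hc
      (fun t => congrArg Prod.fst (h1 t)) (fun t => (tb_gr_mem.1 (h2 t)).1) fun t => (h3 t).fst
    refine ⟨tbLift V θ, tb_lift_sm s1, fun y t => ?_, fun y hy u hu v hv => ?_, s4⟩
    · exact congrArg (ContinuousLinearMap.comp · _) (s2 y.1 t)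
    · rw [tb_dF_lift s1]
      exact s3 _ (tb_gr_mem.1 hy).1 _ ((tb_gr_tan z hy u).1 hu).1 _ ((tb_gr_tan z hy v).1 hv).1

/-- Transport of the data, field by field. -/
theorem TD.OK0.graph {T : TD k V} (h : T.OK0) {σ : V → V} (hσ : ContDiff ℝ ∞ σ)
    (h0 : ∀ y, T.s y < 0 → σ y = 0) (Vs : Set (V × V)) : (T.graph σ Vs).OK0 := by
  have sg := (tb_gr_diff hσ T.W).smφ
  have e : ∀ x X, fderiv ℝ (T.graph σ Vs).Θ x X =
      (fderiv ℝ T.Θ x X, fderiv ℝ σ (T.Θ x) (fderiv ℝ T.Θ x X)) := fun x X =>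
    (level_comp sg h.smΘ rfl X).trans (tbgraph_fderiv hσ _ _)
  have d : ∀ p u v, dF (T.graph σ Vs).lam p u v = dF T.lam p.1 u.1 v.1 := tb_dF_lift h.smlam
  refine ⟨(tb_gr_diff hσ _).isSub h.sub, ?_, tb_grJ_sm hσ h.smJ, tbgraph_mapJ hσ h.mapJ,
    tb_lift_sm h.smlam, fun y hy v hv h1 => ?_, h.cyl.graph, fun y hy => ?_,
    fun y hy h1 v hv => ?_, h.smb.comp contDiff_fst, fun y hy h1 v hv => ?_, fun c => ?_, h.D0,
    h.opO, h.opU.preimage continuous_fst, sg.comp h.smΘ, h.smC.comp contDiff_fst, h.boxP, h.boxM,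
    h.lag, fun x hx => ⟨⟨_, (h.CΘ x hx).1, rfl⟩, (h.CΘ x hx).2⟩, ?_, h.mid, fun x hx X => ?_,
    fun x hx X Y => ?_, fun x hx X => ?_, fun x hx X h1 h2 => ?_⟩
  · have e1 : (T.graph σ Vs).W = Prod.fst ⁻¹' T.W ∩ {p | p.2 = σ p.1} := Set.ext fun _ => tb_gr_mem
    exact e1 ▸ (h.clW.preimage continuous_fst).inter
      (isClosed_eq continuous_snd (hσ.continuous.comp continuous_fst))
  · obtain ⟨h2, h3⟩ := (tb_gr_tan hσ hy v).1 hv
    rw [d]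
    exact h.tame _ (tb_gr_mem.1 hy).1 _ h2 fun h4 => h1 (Prod.ext h4 (by rw [h3, h4, map_zero]; rfl))
  · refine tb_gr_mem.trans (Iff.trans ?_ tb_gr_mem.symm)
    rw [h.bot y.1 hy, h0 y.1 hy]
    rfl
  · obtain ⟨h2, h3⟩ := h.botJ _ (tb_gr_mem.1 hy).1 h1 _ ((tb_gr_tan hσ hy v).1 hv).1
    have h4 : σ =ᶠ[𝓝 y.1] 0 :=
      ((isOpen_lt T.s.continuous continuous_const).eventually_mem h1).mono h0
    refine ⟨(tb_grJ_apply _ _ _ _).trans (Eq.trans ?_ (tb_grJ_apply _ _ _ _).symm), h3⟩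
    rw [h2, h4.fderiv_eq]
  · refine (level_comp h.smb contDiff_fst rfl _).trans ?_
    rw [fderiv_fst]
    exact h.top _ (tb_gr_mem.1 hy).1 h1 _ ((tb_gr_tan hσ hy v).1 hv).1
  · exact image_inter_preimage (tbGr σ) T.W _ ▸ (h.cpt c).image sg.continuous
  · rintro _ ⟨y, hy, rfl⟩ h1
    exact ⟨(h.ΘC y hy h1).1, congrArg (tbGr σ) (h.ΘC y hy h1).2⟩
  · rw [e, e, ← h.hol x hx]
    rfl
  · rw [d, e, e]
    exact h.omP x hx X Y
  · rw [d, e, e]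
    exact h.omM x hx X
  · rw [e]
    exact h.per x hx X h1 h2

end Pool.Agent.Lib.MP_ccffa6_gt
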