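import Mathlib

/-!
Following the interface of a two-colouring of the triangular lattice.
-/

open Set

namespace Pool.Agent.Lib.MP_ccffa6_gt

/-- The six unit directions of the triangular lattice on `ℤ × ℤ`. -/
def tbDir : Finset (ℤ × ℤ) := {(1, 0), (1, 1), (0, 1), (-1, 0), (-1, -1), (0, -1)}

theorem tbhex_mem {d : ℤ × ℤ} : d ∈ tbDir ↔ -1 ≤ d.1 ∧ d.1 ≤ 1 ∧ -1 ≤ d.2 ∧ d.2 ≤ 1 ∧
    -1 ≤ d.1 - d.2 ∧ d.1 - d.2 ≤ 1 ∧ ¬(d.1 = 0 ∧ d.2 = 0) := by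
  simp only [tbDir, Finset.mem_insert, Finset.mem_singleton, Prod.ext_iff]
  omega

/-- rotation to the left -/
def tbhexR (d : ℤ × ℤ) : ℤ × ℤ := (d.1 - d.2, d.1)

/-- rotation to the right -/
def tbhexL (d : ℤ × ℤ) : ℤ × ℤ := (d.2, d.2 - d.1)

/-- doors -/
def tbhexV (c : ℤ × ℤ → Prop) (s : (ℤ × ℤ) × ℤ × ℤ) : Prop :=
  s.2 ∈ tbDir ∧ c s.1 ∧ ¬c (s.1 + s.2)

open Classical in
/-- the next door -/
noncomputable def tbhexF (c : ℤ × ℤ → Prop) (L R : ℤ × ℤ → ℤ × ℤ) (s : (ℤ × ℤ) × ℤ × ℤ) :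
    (ℤ × ℤ) × ℤ × ℤ := if c (s.1 + L s.2) then (s.1 + L s.2, R s.2) else (s.1, L s.2)

section

variable {c : ℤ × ℤ → Prop} {L R : ℤ × ℤ → ℤ × ℤ} {s s' : (ℤ × ℤ) × ℤ × ℤ}

theorem tbhex_V (hL : ∀ d ∈ tbDir, L d ∈ tbDir) (hR : ∀ d ∈ tbDir, R d ∈ tbDir)
    (h : ∀ d, L d + R d = d) (hs : tbhexV c s) : tbhexV c (tbhexF c L R s) := by
  unfold tbhexF
  split_ifs with h1
  · exact ⟨hR _ hs.1, h1, by simpa only [add_assoc, h] using hs.2.2⟩
  · exact ⟨hL _ hs.1, hs.2.1, h1⟩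

theorem tbhex_inv (h1 : ∀ d, R (L d) = d) (h2 : ∀ d, L (R d) = d) (h3 : ∀ d, L d + R (R d) = 0)
    (hs : tbhexV c s) : tbhexF c R L (tbhexF c L R s) = s := by
  by_cases h : c (s.1 + L s.2) <;> simp [tbhexF, h, h1, h2, h3, add_assoc, hs.2.1, hs.2.2]

theorem tbhex_inj (hs : tbhexV c s) (hs' : tbhexV c s') (h : 2 • s.1 + s.2 = 2 • s'.1 + s'.2) :
    s = s' := by
  by_contra h0
  have h1 := tbhex_mem.1 hs.1
  have h2 := tbhex_mem.1 hs'.1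
  refine hs.2.2 ((show s'.1 = s.1 + s.2 from ?_) ▸ hs'.2.1)
  simp only [Prod.ext_iff, two_nsmul, Prod.fst_add, Prod.snd_add] at h h0 ⊢
  omega

end

theorem tbhex_R (d : ℤ × ℤ) (h : d ∈ tbDir) : tbhexR d ∈ tbDir := by
  simp only [tbhex_mem, tbhexR] at h ⊢; omega

theorem tbhex_L (d : ℤ × ℤ) (h : d ∈ tbDir) : tbhexL d ∈ tbDir := by
  simp only [tbhex_mem, tbhexL] at h ⊢; omega

/-- the step as a permutation of the doors -/
noncomputable def tbhexP (c : ℤ × ℤ → Prop) : Equiv.Perm {s // tbhexV c s} where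
  toFun s := ⟨_, tbhex_V tbhex_L tbhex_R (fun d => by simp [tbhexL, tbhexR]) s.2⟩
  invFun s := ⟨_, tbhex_V tbhex_R tbhex_L (fun d => by simp [tbhexL, tbhexR]) s.2⟩
  left_inv s := Subtype.ext (tbhex_inv (fun d => by simp [tbhexL, tbhexR])
    (fun d => by simp [tbhexL, tbhexR]) (fun d => by simp [tbhexL, tbhexR]) s.2)
  right_inv s := Subtype.ext (tbhex_inv (fun d => by simp [tbhexL, tbhexR])
    (fun d => by simp [tbhexL, tbhexR]) (fun d => by simp [tbhexL, tbhexR]) s.2)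

/-- twice the midpoint -/
def tbhexQ (s : (ℤ × ℤ) × ℤ × ℤ) : ℤ × ℤ := 2 • s.1 + s.2

section

variable {c : ℤ × ℤ → Prop} {s : (ℤ × ℤ) × ℤ × ℤ} {A j t : ℤ}

theorem tbhex_step (s : (ℤ × ℤ) × ℤ × ℤ) :
    tbhexQ (tbhexF c tbhexL tbhexR s) - tbhexQ s = tbhexL s.2 ∨
      tbhexQ (tbhexF c tbhexL tbhexR s) - tbhexQ s = -tbhexR s.2 := by
  unfold tbhexF
  split_ifs <;> simp only [tbhexQ, tbhexL, tbhexR, Prod.ext_iff, two_nsmul, Prod.fst_add,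
    Prod.snd_add, Prod.fst_sub, Prod.snd_sub, Prod.fst_neg, Prod.snd_neg] <;> omega

theorem tbhex_right (hr : ∀ i j : ℤ, A ≤ i → (c (i, j) ↔ c (A, j))) (h0 : c (A, j))
    (h1 : ¬c (A, j + 1)) (hs : tbhexV c s) (ht : 2 * A + 2 ≤ t) (h : tbhexQ s = (t, 2 * j + 1)) :
    tbhexQ (tbhexF c tbhexL tbhexR s) = (t + 1, 2 * j + 1) := by
  obtain ⟨⟨x, y⟩, u, v⟩ := s
  obtain ⟨h2, h3, -⟩ := hs
  simp only [tbhex_mem, tbhexQ, Prod.ext_iff, two_nsmul, Prod.fst_add, Prod.snd_add] at h h2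
  obtain rfl : y = j := by
    by_contra h4
    exact h1 ((show y = j + 1 by omega) ▸ (hr x y (by omega)).1 h3)
  obtain rfl : v = 1 := by omega
  have h4 := hr (x + 1) (y + (1 - u)) (by omega)
  obtain rfl | rfl : u = 0 ∨ u = 1 := by omega
  all_goals
    simp_all [tbhexF, tbhexL, tbhexR, tbhexQ]
    omega

theorem tbhex_left (hr : ∀ i j : ℤ, A ≤ i → (c (i, j) ↔ c (A, j))) (h0 : ¬c (A, j))
    (h1 : c (A, j + 1)) (hs : tbhexV c s) (ht : 2 * A + 2 ≤ t) (h : tbhexQ s = (t, 2 * j + 1)) :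
    tbhexQ (tbhexF c tbhexR tbhexL s) = (t + 1, 2 * j + 1) := by
  obtain ⟨⟨x, y⟩, u, v⟩ := s
  obtain ⟨h2, h3, -⟩ := hs
  simp only [tbhex_mem, tbhexQ, Prod.ext_iff, two_nsmul, Prod.fst_add, Prod.snd_add] at h h2
  obtain rfl : y = j + 1 := by
    by_contra h4
    exact h0 ((show y = j by omega) ▸ (hr x y (by omega)).1 h3)
  obtain rfl : v = -1 := by omega
  have h4 := hr (x + (u + 1)) (j + 1 + u) (by omega)
  obtain rfl | rfl : u = 0 ∨ u = -1 := by omega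
  all_goals
    simp_all [tbhexF, tbhexL, tbhexR, tbhexQ]
    omega

end

/-- The interface path: the orbit of the door `j₀` under the permutation `tbhexP`. -/
theorem tb_hex (c : ℤ × ℤ → Prop) (A B j₀ : ℤ)
    (hl : ∀ p : ℤ × ℤ, p.1 ≤ 0 → ¬ c p) (hb : ∀ p : ℤ × ℤ, p.2 ≤ 0 → ¬ c p)
    (ht : ∀ p : ℤ × ℤ, B ≤ p.2 → ¬ c p) (hr : ∀ i j : ℤ, A ≤ i → (c (i, j) ↔ c (A, j)))
    (h0 : ¬ c (A, j₀)) (h1 : c (A, j₀ + 1)) :
    ∃ (m j₁ : ℤ) (P d : ℤ → ℤ × ℤ) (Q : ℤ → ℤ × ℤ), 0 < m ∧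
      (∀ k, d k ∈ tbDir ∧ c (P k) ∧ ¬ c (P k + d k) ∧ Q k = 2 • P k + d k) ∧
      Function.Injective Q ∧ (∀ k, Q (k + 1) - Q k ∈ tbDir) ∧
      (∀ k ≤ 0, Q k = (2 * A + 2 - k, 2 * j₀ + 1)) ∧
      (∀ k, m ≤ k → Q k = (2 * A + 2 + (k - m), 2 * j₁ + 1)) ∧
      (∀ k, 0 ≤ k → k ≤ m → (Q k).1 ≤ 2 * A + 2) ∧
      c (A, j₁) ∧ ¬ c (A, j₁ + 1) := by
  let s₀ : {s // tbhexV c s} := ⟨((A + 1, j₀ + 1), (0, -1)), by simp [tbDir],
    (hr _ _ (by omega)).2 h1, by simpa using (hr (A + 1) j₀ (by omega)).not.2 h0⟩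
  let s : ℤ → {s // tbhexV c s} := fun k => (tbhexP c ^ k) s₀
  have e0 : ∀ k l, s (k + l) = (tbhexP c ^ k) (s l) := fun k l => by simp [s, zpow_add]
  have e1 : ∀ k, (s (k + 1)).1 = tbhexF c tbhexL tbhexR (s k).1 := fun k => by
    rw [add_comm, e0, zpow_one]; rfl
  have e2 : ∀ k, (s (k - 1)).1 = tbhexF c tbhexR tbhexL (s k).1 := fun k => by
    rw [sub_eq_neg_add, e0, zpow_neg_one]; rfl
  have hn : ∀ k ≤ 0, tbhexQ (s k).1 = (2 * A + 2 - k, 2 * j₀ + 1) := fun k hk => by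
    induction k, hk using Int.leInductionDown with
    | base => simp [s, s₀, tbhexQ]; omega
    | pred k hk ih =>
      rw [e2, tbhex_left hr h0 h1 (s k).2 (by omega) ih]
      congr 1
      ring
  have hi : Function.Injective fun k => tbhexQ (s k).1 := fun k l h => by
    have h2 : s k = s l := Subtype.ext (tbhex_inj (s k).2 (s l).2 h)
    have h3 : ∀ a, s (a + k) = s (a + l) := fun a => by rw [e0, e0, h2]
    have h4 := hn (-max k l + k) (by omega)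
    rw [h3, hn _ (by omega), Prod.ext_iff] at h4
    omega
  have hex : ∃ n : ℕ, 2 * A + 2 < (tbhexQ (s (n + 1)).1).1 := by
    by_contra h
    refine (finite_Icc ((0 : ℤ), (0 : ℤ)) (2 * A + 2, 2 * B)).not_infinite
      (infinite_of_injective_forall_mem (f := fun n : ℕ => tbhexQ (s (n + 1)).1)
        (fun a b e => by simpa using hi e) fun n => ?_)
    obtain ⟨h2, h3, -⟩ := (s (n + 1)).2
    have h4 := not_le.1 fun e => hl _ e h3
    have h5 := not_le.1 fun e => hb _ e h3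
    have h6 := not_le.1 fun e => ht _ e h3
    have h7 := not_lt.1 fun e => h ⟨n, e⟩
    simp only [tbhex_mem, tbhexQ, two_nsmul, Prod.fst_add, Prod.snd_add, mem_Icc,
      Prod.le_def] at h2 h7 ⊢
    omega
  classical
  have h2 := Nat.find_spec hex
  set m := Nat.find hex
  have h3 : ∀ k : ℤ, 0 ≤ k → k ≤ m → (tbhexQ (s k).1).1 ≤ 2 * A + 2 := fun k hk hk' => by
    rcases hk.eq_or_lt with rfl | hk
    · simp [hn 0 le_rfl]
    · have h4 := Nat.find_min hex (m := (k - 1).toNat) (by omega)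
      rwa [show (((k - 1).toNat : ℤ) + 1) = k by omega, not_lt] at h4
  have h4 := h3 m (by omega) le_rfl
  have h5 := tbhex_step (c := c) (s m).1
  obtain ⟨h6, h7, h8⟩ := (s m).2
  have h9 : (s m).1.1.1 = A + 1 ∧ (s m).1.2.1 = 0 ∧ (s m).1.2.2 = 1 := by
    rw [← e1] at h5
    simp only [tbhex_mem, tbhexL, tbhexR, Prod.ext_iff, Prod.fst_sub, Prod.fst_neg] at h5 h6
    simp only [tbhexQ, two_nsmul, Prod.fst_add] at h2 h4 h5
    omega
  have h10 : c (A, (s m).1.1.2) := (hr (s m).1.1.1 (s m).1.1.2 (by rw [h9.1]; omega)).1 h7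
  have h11 : ¬c (A, (s m).1.1.2 + 1) := fun h => h8 ((hr _ _ (by simp [h9])).2 (by simpa [h9]))
  refine ⟨m, (s m).1.1.2, fun k => (s k).1.1, fun k => (s k).1.2, fun k => tbhexQ (s k).1,
    lt_of_le_of_ne (by omega) fun h => ?_, fun k => ⟨(s k).2.1, (s k).2.2.1, (s k).2.2.2, rfl⟩, hi,
    fun k => ?_, hn, fun k hk => ?_, h3, h10, h11⟩
  · simp [← h, s, s₀] at h9
  · have h12 := tbhex_mem.1 (s k).2.1
    rcases tbhex_step (c := c) (s k).1 with h | h <;>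
      simp only [e1, h, tbhex_mem, tbhexL, tbhexR, Prod.fst_neg, Prod.snd_neg] <;> omega
  · induction k, hk using Int.leInduction with
    | base => simp [tbhexQ, Prod.ext_iff, h9]; omega
    | succ k hk ih =>
      simp only at ih ⊢
      rw [e1, tbhex_right hr h10 h11 (s k).2 (by omega) ih]
      congr 1
      ring

end Pool.Agent.Lib.MP_ccffa6_gt
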