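import Pool.Agent.Lib.MP_ccffa6_gt.T.BDef
import Pool.Agent.Lib.MP_ccffa6_gt.K.Level

/-!
The inverse of the chart, the complex structure of the chart, the involution `sig`.
-/

open Set Filter Topology
open scoped ContDiff

noncomputable section

namespace Pool.Agent.Lib.MP_ccffa6_gt

variable {V : Type} [NormedAddCommGroup V] [NormedSpace ℝ V] [FiniteDimensional ℝ V]
  {F : Type} [NormedAddCommGroup F] [NormedSpace ℝ F] [FiniteDimensional ℝ F] {k : ℕ}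

/-- `Θ` is a diffeomorphism of `O` onto `W ∩ U` with inverse `C`. -/
structure TBInv (W : Set V) (O : Set F) (U : Set V) (Θ : F → V) (C : V → F) : Prop where
  opO : IsOpen O
  opU : IsOpen U
  smΘ : ContDiff ℝ ∞ Θ
  smC : ContDiff ℝ ∞ C
  CΘ : ∀ h ∈ O, Θ h ∈ W ∧ Θ h ∈ U ∧ C (Θ h) = h
  ΘC : ∀ y ∈ W, y ∈ U → C y ∈ O ∧ Θ (C y) = y

/-- The inverse of an injective immersion of full dimension near a compact set. -/
theorem tb_inv {d : ℕ} {W : Set V} (hW : IsSub d W) (hd : Module.finrank ℝ F = d) {O : Set F}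
    (hO : IsOpen O) {Θ : F → V} (sm : ContDiffOn ℝ ∞ Θ O) (inj : InjOn Θ O)
    (imm : ∀ h ∈ O, Function.Injective (fderiv ℝ Θ h)) (map : MapsTo Θ O W) {A : Set F}
    (hA : IsCompact A) (hAO : A ⊆ O) :
    ∃ (Θ' : F → V) (C : V → F) (O' : Set F) (U : Set V),
      TBInv W O' U Θ' C ∧ A ⊆ O' ∧ O' ⊆ O ∧ EqOn Θ' Θ O' := by
  obtain ⟨g, hg, he, -⟩ := exists_smooth_nhdsSet hA.isClosed hO hAO sm
  obtain ⟨O₁, hO₁, hA₁, he⟩ := eventually_nhdsSet_iff_exists.1 he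
  have hd' : ∀ h ∈ O₁, fderiv ℝ g h = fderiv ℝ Θ h := fun h hh =>
    Filter.EventuallyEq.fderiv_eq (Filter.eventually_of_mem (hO₁.mem_nhds hh) he)
  have hi : ∀ h ∈ O, h ∈ O₁ → ∀ v, fderiv ℝ g h v = 0 → v = 0 := fun h hh hh₁ v hv =>
    (injective_iff_map_eq_zero _).1 (imm h hh) v (by rwa [← hd' h hh₁])
  obtain ⟨C, U₁, hC, hU₁, hAU, hl⟩ := (isSub_of_isOpen (E := F) isOpen_univ).left_inverse hA
    (subset_univ A) hg (fun x hx v _ => hi x (hAO hx) (hA₁ hx) v) fun x hx y hy hxy =>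
      inj (hAO hx) (hAO hy) (by rwa [← he x (hA₁ hx), ← he y (hA₁ hy)])
  have hO' : IsOpen (O ∩ O₁ ∩ U₁) := (hO.inter hO₁).inter hU₁
  have hm : ∀ h ∈ O ∩ O₁ ∩ U₁, g h ∈ W := fun h hh => he h hh.1.2 ▸ map hh.1.1
  refine ⟨g, C, O ∩ O₁ ∩ U₁, interior (g '' (O ∩ O₁ ∩ U₁) ∪ Wᶜ),
    ⟨hO', isOpen_interior, hg, hC, fun h hh => ⟨hm h hh, ?_, hl h ⟨trivial, hh.2⟩⟩,
      fun y hy hu => ?_⟩,
    fun x hx => ⟨⟨hAO hx, hA₁ hx⟩, hAU hx⟩, fun x hx => hx.1.1, fun x hx => he x hx.1.2⟩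
  · obtain ⟨g', -, -, h1⟩ := (hd ▸ isSub_of_isOpen hO').local_inverse hW hg hh
      (Filter.eventually_of_mem self_mem_nhdsWithin hm) fun v _ => hi h hh.1.1 hh.1.2 v
    refine mem_interior_iff_mem_nhds.2 ?_
    filter_upwards [eventually_nhdsWithin_iff.1 h1] with z hz
    by_cases hzW : z ∈ W
    · exact Or.inl ⟨_, hz hzW⟩
    · exact Or.inr hzW
  · obtain ⟨h, hh, rfl⟩ := (interior_subset hu).resolve_right (not_not.2 hy)
    rw [hl h ⟨trivial, hh.2⟩]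
    exact ⟨hh, rfl⟩

theorem TBInv.shrink {W : Set V} {O O' : Set F} {U : Set V} {Θ : F → V} {C : V → F}
    (h : TBInv W O U Θ C) (ho : IsOpen O') (hs : O' ⊆ O) : TBInv W O' (U ∩ C ⁻¹' O') Θ C := by
  refine ⟨ho, h.opU.inter (ho.preimage h.smC.continuous), h.smΘ, h.smC, fun a ha => ?_,
    fun y hy hu => ⟨hu.2, (h.ΘC y hy hu.1).2⟩⟩
  obtain ⟨h1, h2, h3⟩ := h.CΘ a (hs ha)
  exact ⟨h1, ⟨h2, by rwa [mem_preimage, h3]⟩, h3⟩

theorem TBInv.chart {W : Set V} {O : Set F} {U : Set V} {Θ : F → V} {C : V → F}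
    (h : TBInv W O U Θ C) {a : F} (ha : a ∈ O) : Chart W (Θ a) Θ C := by
  obtain ⟨-, h2, h3⟩ := h.CΘ a ha
  refine ⟨h.smΘ, h.smC, ?_, ?_⟩
  · filter_upwards [self_mem_nhdsWithin, mem_nhdsWithin_of_mem_nhds (h.opU.mem_nhds h2)]
      with y hy hu using (h.ΘC y hy hu).2
  · rw [h3]
    filter_upwards [h.opO.mem_nhds ha] with z hz using ⟨(h.CΘ z hz).1, (h.CΘ z hz).2.2⟩

theorem TBInv.mem_tan {W : Set V} {O : Set F} {U : Set V} {Θ : F → V} {C : V → F}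
    (h : TBInv W O U Θ C) {a : F} (ha : a ∈ O) (v : V) :
    v ∈ Tan W (Θ a) ↔ ∃ X, fderiv ℝ Θ a X = v := by
  rw [(h.chart ha).mem_tan (h.CΘ a ha).1, (h.CΘ a ha).2.2]

theorem TBInv.left_fderiv {W : Set V} {O : Set F} {U : Set V} {Θ : F → V} {C : V → F}
    (h : TBInv W O U Θ C) {a : F} (ha : a ∈ O) (X : F) :
    fderiv ℝ C (Θ a) (fderiv ℝ Θ a X) = X := by
  have h1 := (h.chart ha).left_inv_fderiv (h.CΘ a ha).1 X
  rwa [(h.CΘ a ha).2.2] at h1

theorem tb_finrank_cm (k : ℕ) : Module.finrank ℝ (Cm k) = 2 * k + 4 := by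
  rw [finrank_real_of_complex, finrank_euclideanSpace_fin]
  ring

/-- The complex structure of the chart. -/
def tbJC (Θ : Cm k → V) (C : V → Cm k) (y : V) : V →L[ℝ] V :=
  (fderiv ℝ Θ (C y)).comp
    (((Complex.I • ContinuousLinearMap.id ℂ (Cm k)).restrictScalars ℝ).comp (fderiv ℝ C y))

theorem tb_jc_sm {Θ : Cm k → V} {C : V → Cm k} (hΘ : ContDiff ℝ ∞ Θ) (hC : ContDiff ℝ ∞ C) :
    ContDiff ℝ ∞ (tbJC Θ C) := by
  exact ((hΘ.fderiv_right (m := ∞) le_rfl).comp hC).clm_comp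
    (contDiff_const.clm_comp (hC.fderiv_right (m := ∞) le_rfl))

theorem TBInv.jc {W : Set V} {O : Set (Cm k)} {U : Set V} {Θ : Cm k → V} {C : V → Cm k}
    (h : TBInv W O U Θ C) {a : Cm k} (ha : a ∈ O) (X : Cm k) :
    tbJC Θ C (Θ a) (fderiv ℝ Θ a X) = fderiv ℝ Θ a (Complex.I • X) := by
  show fderiv ℝ Θ (C (Θ a)) (Complex.I • fderiv ℝ C (Θ a) (fderiv ℝ Θ a X)) = _
  rw [h.left_fderiv ha, (h.CΘ a ha).2.2]

theorem TBInv.compat {W : Set V} {O : Set (Cm k)} {U : Set V} {Θ : Cm k → V} {C : V → Cm k}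
    (h : TBInv W O U Θ C) {a : Cm k} (ha : a ∈ O) {w : Bil V}
    (ht : ∀ X, X ≠ 0 → 0 < w (fderiv ℝ Θ a X) (fderiv ℝ Θ a (Complex.I • X)))
    (hc : ∀ X Y, w (fderiv ℝ Θ a (Complex.I • X)) (fderiv ℝ Θ a (Complex.I • Y)) =
      w (fderiv ℝ Θ a X) (fderiv ℝ Θ a Y)) : Compat (Tan W (Θ a)) w (tbJC Θ C (Θ a)) := by
  refine ⟨fun u hu => ?_, fun u hu => ?_, fun u hu v hv => ?_, fun u hu h0 => ?_⟩ <;>
    obtain ⟨X, rfl⟩ := (h.mem_tan ha u).1 hu
  · rw [h.jc ha]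
    exact (h.mem_tan ha _).2 ⟨_, rfl⟩
  · rw [h.jc ha, h.jc ha, smul_smul, Complex.I_mul_I, neg_smul, one_smul, map_neg]
  · obtain ⟨Y, rfl⟩ := (h.mem_tan ha v).1 hv
    rw [h.jc ha, h.jc ha, hc]
  · rw [h.jc ha]
    exact ht X fun hX => h0 (by rw [hX, map_zero])

theorem tbinv_sig (h : Cm k) (j : Fin (k + 2)) :
    sig h j = Complex.conjCLE (if j = 0 then -h 0 else (h j)⁻¹) := by
  by_cases hj : j = 0 <;> simp [sig, hj]

theorem tbinv_hol {h : Cm k} (hh : ∀ j, j ≠ 0 → h j ≠ 0) (j : Fin (k + 2)) :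
    ContDiffAt ℂ ∞ (fun h : Cm k => if j = 0 then -h 0 else (h j)⁻¹) h := by
  have h1 : ∀ i, ContDiffAt ℂ ∞ (fun h : Cm k => h i) h := fun i =>
    (EuclideanSpace.proj i : Cm k →L[ℂ] ℂ).contDiff.contDiffAt
  by_cases hj : j = 0
  · simpa only [hj, if_true] using (h1 0).neg
  · simp only [hj, if_false]
    exact (h1 j).inv (hh j hj)

theorem tbinv_box (k : ℕ) (R : ℝ) : IsCompact {h : Cm k | ∀ j, ‖h j‖ ≤ R} := by
  convert (PiLp.homeomorph 2 fun _ : Fin (k + 2) => ℂ).isCompact_preimage.2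
    (isCompact_univ_pi fun _ => isCompact_closedBall (0 : ℂ) R) using 1
  ext h
  simp only [mem_preimage, mem_univ_pi, mem_closedBall_zero_iff]
  rfl

theorem tb_sig_sm {h : Cm k} (hh : ∀ j, j ≠ 0 → h j ≠ 0) : ContDiffAt ℝ ∞ (sig (k := k)) h := by
  refine (contDiffAt_piLp 2).2 fun j => ?_
  simp only [tbinv_sig]
  exact Complex.conjCLE.contDiff.contDiffAt.comp h ((tbinv_hol hh j).restrict_scalars ℝ)

theorem tb_sig_sig (h : Cm k) : sig (sig h) = h := by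
  ext j
  by_cases hj : j = 0 <;> simp [sig, hj]

theorem tb_sig_ne {h : Cm k} (hh : ∀ j, j ≠ 0 → h j ≠ 0) : ∀ j, j ≠ 0 → sig h j ≠ 0 := by
  intro j hj
  simpa [sig, hj] using hh j hj

theorem tb_sig_lag {h : Cm k} (hh : h ∈ Lag k) : sig h = h ∧ ∀ j, j ≠ 0 → h j ≠ 0 := by
  have h1 : ∀ j, j ≠ 0 → h j ≠ 0 := fun j hj h0 => by simpa [h0] using hh.2 j hj
  refine ⟨?_, h1⟩
  ext j
  by_cases hj : j = 0
  · subst hj
    apply Complex.ext <;> simp [sig, hh.1]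
  · simp only [sig, hj, if_false]
    rw [← map_inv₀, Complex.inv_eq_conj (hh.2 j hj), Complex.conj_conj]

/-- `sig` is antiholomorphic. -/
theorem tb_sig_anti {h : Cm k} (hh : ∀ j, j ≠ 0 → h j ≠ 0) (X : Cm k) :
    fderiv ℝ sig h (Complex.I • X) = -(Complex.I • fderiv ℝ sig h X) := by
  have hd := ((tb_sig_sm hh).differentiableAt (by simp)).hasFDerivAt
  have key : ∀ (j : Fin (k + 2)) (Y : Cm k), fderiv ℝ sig h Y j = starRingEnd ℂ
      (fderiv ℂ (fun h : Cm k => if j = 0 then -h 0 else (h j)⁻¹) h Y) := fun j Y => by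
    have h1 := ((EuclideanSpace.proj j : Cm k →L[ℂ] ℂ).restrictScalars ℝ).hasFDerivAt.comp h hd
    have h2 := Complex.conjCLE.hasFDerivAt.comp h
      (((tbinv_hol hh j).differentiableAt (by simp)).hasFDerivAt.restrictScalars ℝ)
    have h3 := h1.unique (h2.congr_of_eventuallyEq (Eventually.of_forall fun x => tbinv_sig x j))
    exact congrArg (fun L : Cm k →L[ℝ] ℂ => L Y) h3
  ext j
  simp [key]

theorem tb_larc_compact (k : ℕ) (a b : ℝ) : IsCompact (LarcC k a b) := by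
  refine (tbinv_box k (|a| + |b| + 1)).of_isClosed_subset ?_ fun h hh j => ?_
  · have h1 : LarcC k a b = ({h : Cm k | (h 0).re = 0} ∩ ⋂ j, ⋂ _ : j ≠ 0, {h | ‖h j‖ = 1}) ∩
        ({h | a ≤ (h 0).im} ∩ {h | (h 0).im ≤ b}) := by
      ext h
      simp [LarcC, Lag]
    rw [h1]
    exact ((isClosed_eq (by fun_prop) continuous_const).inter (isClosed_iInter fun j =>
      isClosed_iInter fun _ => isClosed_eq (by fun_prop) continuous_const)).inter
      ((isClosed_le continuous_const (by fun_prop)).inter (isClosed_le (by fun_prop) continuous_const))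
  · have ha := abs_nonneg a
    have hb := abs_nonneg b
    by_cases hj : j = 0
    · subst hj
      have h1 := Complex.norm_le_abs_re_add_abs_im (h 0)
      have h2 : |(h 0).im| ≤ |a| + |b| := abs_le.2
        ⟨by linarith [neg_abs_le a, hh.2.1], by linarith [le_abs_self b, hh.2.2]⟩
      rw [hh.1.1, abs_zero] at h1
      linarith
    · rw [hh.1.2 j hj]
      linarith

/-- Closed versions of the three sets. -/
theorem tb_core (k : ℕ) {l l' : ℝ} (h : l < l') (D : ℝ) : ∃ A : Set (Cm k), IsCompact A ∧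
    BoxP k l ⊆ A ∧ BoxM k l D ⊆ A ∧ Larc k (-l) (D + l) ⊆ A ∧
    A ⊆ BoxP k l' ∪ BoxM k l' D ∪ Larc k (-l') (D + l') := by
  let B : Set (Cm k) := {h | ‖h 0 - D * Complex.I‖ ≤ l} ∩ ({h | Real.exp (-l) ≤ ‖h 1‖} ∩
    ({h | ‖h 1‖ ≤ Real.exp l} ∩ ⋂ j, ⋂ _ : j ≠ 0, ⋂ _ : j ≠ 1, {h | ‖h j‖ ≤ l}))
  have hB : IsCompact B := by
    refine (tbinv_box k (|D| + |l| + Real.exp l)).of_isClosed_subset ?_ fun x hx j => ?_
    · exact (isClosed_le (by fun_prop) continuous_const).inter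
        ((isClosed_le continuous_const (by fun_prop)).inter
        ((isClosed_le (by fun_prop) continuous_const).inter (isClosed_iInter fun j =>
          isClosed_iInter fun _ => isClosed_iInter fun _ =>
            isClosed_le (by fun_prop) continuous_const)))
    · have h1 := abs_nonneg D
      have h2 := abs_nonneg l
      have h3 := Real.exp_pos l
      have h4 := le_abs_self l
      by_cases hj : j = 0
      · subst hj
        have h5 := norm_le_norm_add_norm_sub' (x 0) (D * Complex.I)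
        have h6 : ‖x 0 - D * Complex.I‖ ≤ l := hx.1
        rw [norm_mul, Complex.norm_I, mul_one, Complex.norm_real, Real.norm_eq_abs] at h5
        linarith
      · by_cases hj' : j = 1
        · subst hj'
          have h5 : ‖x 1‖ ≤ Real.exp l := hx.2.2.1
          linarith
        · have h5 : ‖x j‖ ≤ l := mem_iInter.1 (mem_iInter.1 (mem_iInter.1 hx.2.2.2 j) hj) hj'
          linarith
  refine ⟨{h | ∀ j, ‖h j‖ ≤ l} ∪ B ∪ LarcC k (-l) (D + l),
    ((tbinv_box k l).union hB).union (tb_larc_compact _ _ _),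
    fun x hx => Or.inl (Or.inl fun j => (hx j).le), fun x hx => Or.inl (Or.inr ?_),
    fun x hx => Or.inr ⟨hx.1, hx.2.1.le, hx.2.2.le⟩, ?_⟩
  · have h0 : 0 < ‖x 1‖ := norm_pos_iff.2 hx.2.1
    obtain ⟨h1, h2⟩ := abs_lt.1 hx.2.2.1
    refine ⟨hx.1.le, ((Real.lt_log_iff_exp_lt h0).1 h1).le, ((Real.log_lt_iff_lt_exp h0).1 h2).le,
      mem_iInter.2 fun j => mem_iInter.2 fun hj => mem_iInter.2 fun hj' => (hx.2.2.2 j hj hj').le⟩
  · rintro x ((hx | hx) | hx)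
    · exact Or.inl (Or.inl fun j => (hx j).trans_lt h)
    · have h0 : 0 < ‖x 1‖ := (Real.exp_pos _).trans_le hx.2.1
      have h1 := (Real.le_log_iff_exp_le h0).2 hx.2.1
      have h2 := (Real.log_le_iff_le_exp h0).2 hx.2.2.1
      refine Or.inl (Or.inr ⟨lt_of_le_of_lt hx.1 h, norm_pos_iff.1 h0,
        abs_lt.2 ⟨by linarith, by linarith⟩, fun j hj hj' => lt_of_le_of_lt ?_ h⟩)
      exact mem_iInter.1 (mem_iInter.1 (mem_iInter.1 hx.2.2.2 j) hj) hj'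
    · exact Or.inr ⟨hx.1, by linarith [hx.2.1], by linarith [hx.2.2]⟩

end Pool.Agent.Lib.MP_ccffa6_gt
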