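import Pool.Agent.Lib.MP_ccffa6_gt.T.BMod

/-!
The model points are close to the two pieces of the disc.
-/

open Set
open scoped ContDiff

noncomputable section

namespace Pool.Agent.Lib.MP_ccffa6_gt

variable {k : ℕ} {zD : ℝ} {K : ℝ × ℝ → ℝ}

theorem tb_uu (p : Mod (k + 1)) : uu p = ∑ j : Fin k, ‖p.2.2 j‖ ^ 2 := rfl

theorem tbpos_near {S : Set (Mod (k + 1))} {p q : Mod (k + 1)} {δ : ℝ} (hq : q ∈ S)
    (h1 : |p.1 - q.1| < δ) (h2 : ‖p.2.1 - q.2.1‖ < δ) (h3 : ∀ j : Fin k, ‖p.2.2 j - q.2.2 j‖ < δ) :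
    p ∈ Metric.thickening δ S :=
  Metric.mem_thickening_iff.2 ⟨q, hq, max_lt h1 (max_lt (by rwa [dist_eq_norm])
    ((dist_pi_lt_iff ((abs_nonneg _).trans_lt h1)).2 fun j => by rw [dist_eq_norm]; exact h3 j))⟩

theorem tbpos_norm (x : ℂ) (m : ℝ) : ‖x / (√m : ℝ)‖ = ‖x‖ / √m := by
  rw [norm_div, Complex.norm_real, Real.norm_of_nonneg (Real.sqrt_nonneg m)]

theorem tbpos_sq (x : ℂ) {m : ℝ} (hm : 0 < m) : ‖x / (√m : ℝ)‖ ^ 2 = ‖x‖ ^ 2 / m := by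
  rw [tbpos_norm, div_pow, Real.sq_sqrt hm.le]

theorem tbpos_w {w : ℂ} (hw : w ≠ 0) (s t : ℝ) :
    ‖((s / ‖w‖ : ℝ) : ℂ) * w - ((t / ‖w‖ : ℝ) : ℂ) * w‖ = |s - t| := by
  rw [← sub_mul, ← Complex.ofReal_sub, ← sub_div, norm_mul, Complex.norm_real, norm_div, norm_norm,
    div_mul_cancel₀ _ (norm_ne_zero_iff.2 hw), Real.norm_eq_abs]

theorem tbpos_sum {x : Fin k → ℂ} (hx : ∀ j, ‖x j‖ = 1) {m : ℝ} (hm : 0 < m) :
    ∑ j, ‖x j / (√m : ℝ)‖ ^ 2 = (((k + 1 : ℕ) : ℝ) - 1) / m := by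
  simp only [tbpos_sq _ hm, hx]
  simp [div_eq_mul_inv]

theorem tbpos_sig1 {a : ℝ × ℝ} (ha : a ∈ tbY1 (k + 1) zD K) (h0 : 0 < a.1) {w : ℂ} (hw : w ≠ 0)
    {x : Fin k → ℂ} (hx : ∀ j, ‖x j‖ = 1) : tbQ1 a 1 w x ∈ Sig1 (k + 1) zD K := by
  have e : uu (tbQ1 a 1 w x) = _ := tbpos_sum hx h0
  refine ⟨ha.2.1, e.trans_le ((div_le_one h0).2 ha.1), ?_⟩
  rw [e]
  simpa [tbQ1, ha.2.2, -Nat.cast_add] using tbpos_w hw (Real.exp (1 / a.1)) 0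

/-- The first box. -/
theorem tb_posP (hK : Small (k + 1) zD K) {δ : ℝ} (hδ : 0 < δ) (l : ℝ) :
    ∃ M₀ : ℝ, 1 ≤ M₀ ∧ ∀ (a : ℝ × ℝ) (w : ℂ) (x : Fin k → ℂ), M₀ ≤ a.1 → |a.2 + 1| < δ → ‖w‖ < l →
      (∀ j, ‖x j‖ < l) → tbQ2 a w x ∈ Metric.thickening δ (Sig2b (k + 1) zD K) := by
  obtain ⟨c, h0, hc⟩ := isCompact_Icc.exists_forall_le' (f := fun u => K (u, -1))
    (hK.cont.comp (by fun_prop) fun u hu => ⟨hu, le_rfl, hK.lt.le⟩) hK.pos_bot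
  refine ⟨max 1 (max (k * l ^ 2) (l ^ 2 / c)), le_max_left _ _, fun a w x ha h1 hw hx => ?_⟩
  simp only [max_le_iff] at ha
  have hm : 0 < a.1 := by linarith [ha.1]
  have h2 : uu (tbQ2 (a.1, -1) w x) ≤ 1 := by
    refine (Finset.sum_le_card_nsmul _ _ (l ^ 2 / a.1) fun j _ => (tbpos_sq _ hm).trans_le
      (div_le_div_of_nonneg_right (pow_le_pow_left₀ (norm_nonneg _) (hx j).le 2) hm.le)).trans ?_
    rw [Finset.card_univ, Fintype.card_fin, nsmul_eq_mul, ← mul_div_assoc, div_le_one hm]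
    exact ha.2.1
  refine tbpos_near (q := tbQ2 (a.1, -1) w x) ⟨⟨⟨le_rfl, hK.lt.le⟩, h2, Or.inl rfl,
    ((tbpos_sq _ hm).trans_le ?_).trans (hc _ ⟨Finset.sum_nonneg fun _ _ => sq_nonneg _, h2⟩)⟩, rfl⟩
    (by simpa [tbQ2] using h1) (by simpa [tbQ2] using hδ) fun j => by simpa [tbQ2] using hδ
  rw [div_le_iff₀ hm, ← div_le_iff₀' h0]
  exact (div_le_div_of_nonneg_right (pow_le_pow_left₀ (norm_nonneg _) hw.le 2) h0.le).trans ha.2.2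

/-- The second box. -/
theorem tb_posM {δ : ℝ} (hδ : 0 < δ) (l C : ℝ) :
    ∃ M₀ : ℝ, 1 ≤ M₀ ∧ ∀ (M z₁ : ℝ) (a : ℝ × ℝ) (μ : ℝ) (w : ℂ) (x : Fin k → ℂ), M₀ ≤ M →
      (M, z₁) ∈ tbY1 (k + 1) zD K → M ≤ a.1 → |a.2 - z₁| < δ → |μ| ≤ C → w ≠ 0 →
      (∀ j, ‖x j‖ < l) → tbQ1 a μ w x ∈ Metric.thickening δ (Sig1 (k + 1) zD K) := by
  have p1 : 0 ≤ 2 * (|C| + 1) / δ := by positivity
  have p2 := sq_nonneg ((l + 1) / δ)
  have p3 := abs_nonneg C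
  refine ⟨1 + |C| + 2 * (|C| + 1) / δ + ((l + 1) / δ) ^ 2, by linarith,
    fun M z₁ a μ w x hM hY ha h1 hμ hw hx => ?_⟩
  have h0 : 0 < M := by linarith
  refine tbpos_near (tbpos_sig1 hY h0 hw (x := fun _ => 1) fun _ => norm_one) h1
    ((tbpos_w hw _ _).trans_lt ?_) fun j => (norm_sub_le _ _).trans_lt ?_
  · have h2 : |μ / a.1| ≤ |C| / M := by
      rw [abs_div, abs_of_pos (h0.trans_le ha)]
      exact div_le_div₀ p3 (hμ.trans (le_abs_self C)) h0 ha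
    have h3 := Real.abs_exp_sub_one_le (h2.trans ((div_le_one h0).2 (by linarith)))
    have h4 : |1 / M| = 1 / M := abs_of_pos (by positivity)
    have h5 := Real.abs_exp_sub_one_le (h4.trans_le ((div_le_one h0).2 (by linarith)))
    have h6 : 2 * (|C| / M) + 2 * (1 / M) < δ := by
      rw [← mul_add, ← add_div, ← mul_div_assoc, div_lt_comm₀ h0 hδ]
      linarith
    linarith [abs_sub_le (Real.exp (μ / a.1)) 1 (Real.exp (1 / M)),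
      abs_sub_comm 1 (Real.exp (1 / M))]
  · have h2 := Real.sqrt_pos.2 h0
    have h3 : ‖x j‖ / √a.1 ≤ l / √M :=
      div_le_div₀ ((norm_nonneg _).trans (hx j).le) (hx j).le h2 (Real.sqrt_le_sqrt ha)
    have h4 : l / √M + 1 / √M < δ := by
      rw [← add_div, div_lt_comm₀ h2 hδ]
      exact Real.lt_sqrt_of_sq_lt (by linarith)
    simp only [tbQ1, tbpos_norm, norm_one]
    linarith

/-- The tori along the arc. -/
theorem tb_posA (hk : 1 ≤ k) (hK : Small (k + 1) zD K) {δ : ℝ} (hδ : 0 < δ) :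
    ∃ δ' : ℝ, 0 < δ' ∧ δ' ≤ δ ∧ ∀ (a a₀ : ℝ × ℝ) (w : ℂ) (x : Fin k → ℂ), ‖a - a₀‖ < δ' → ‖w‖ = 1 →
      (∀ j, ‖x j‖ = 1) →
      (a₀ ∈ tbY1 (k + 1) zD K →
        1 / 2 < a.1 ∧ tbQ1 a 1 w x ∈ Metric.thickening δ (Sig1 (k + 1) zD K)) ∧
      (a₀ ∈ tbY2 (k + 1) K →
        1 / 2 < a.1 ∧ tbQ2 a w x ∈ Metric.thickening δ (Sig2b (k + 1) zD K)) := by
  refine ⟨min (δ / 12) (1 / 2), by positivity, (min_le_left _ _).trans (by linarith),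
    fun a a₀ w x ha hw hx => ?_⟩
  have h1 : |a.1 - a₀.1| < _ := (norm_fst_le (a - a₀)).trans_lt ha
  have h2 : |a.2 - a₀.2| < _ := (norm_snd_le (a - a₀)).trans_lt ha
  rw [lt_min_iff] at h1 h2
  have h3 : |a.2 - a₀.2| < δ := by linarith [h2.1]
  have key : ((k + 1 : ℕ) : ℝ) - 1 ≤ a₀.1 → 1 ≤ a₀.1 ∧ 1 / 2 < a.1 ∧
      ∀ y : ℂ, ‖y‖ = 1 → ‖y / (√a.1 : ℝ) - y / (√a₀.1 : ℝ)‖ < δ := fun h => by
    have h4 : 1 ≤ a₀.1 := le_trans (by simpa using hk) h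
    have h5 : 1 / 2 < a.1 := by linarith [(abs_lt.1 h1.2).1]
    refine ⟨h4, h5, fun y hy => ?_⟩
    have h6 : 1 ≤ √a₀.1 := Real.one_le_sqrt.2 h4
    have h7 : 1 / 2 < √a.1 := Real.lt_sqrt_of_sq_lt (by linarith)
    have h8 : |√a.1 - √a₀.1| * (√a.1 + √a₀.1) = |a.1 - a₀.1| := by
      rw [← abs_of_pos (show 0 < √a.1 + √a₀.1 by linarith), ← abs_mul, mul_comm, ← sq_sub_sq,
        Real.sq_sqrt (by linarith), Real.sq_sqrt (by linarith)]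
    generalize √a.1 = s at *
    generalize √a₀.1 = t at *
    have h9 : 0 < s := by linarith
    have h10 : 0 < t := by linarith
    rw [div_eq_mul_inv, div_eq_mul_inv, ← mul_sub, norm_mul, hy, one_mul, ← Complex.ofReal_inv,
      ← Complex.ofReal_inv, ← Complex.ofReal_sub, Complex.norm_real, Real.norm_eq_abs,
      inv_sub_inv h9.ne' h10.ne', abs_div, abs_of_pos (mul_pos h9 h10), abs_sub_comm,
      div_lt_iff₀ (mul_pos h9 h10)]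
    nlinarith [abs_nonneg (s - t), h1.1, mul_le_mul h7.le h6 zero_le_one h9.le]
  have hw0 : w ≠ 0 := norm_ne_zero_iff.1 (by simp [hw])
  refine ⟨fun h => ?_, fun h => ?_⟩
  · obtain ⟨h4, h5, h6⟩ := key h.1
    refine ⟨h5, tbpos_near (tbpos_sig1 h (by linarith) hw0 hx) h3 ((tbpos_w hw0 _ _).trans_lt ?_)
      fun j => h6 _ (hx j)⟩
    have h7 : |1 / a.1 - 1 / a₀.1| ≤ 2 * |a.1 - a₀.1| := by
      have : 0 < a.1 * a₀.1 := by positivity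
      rw [div_sub_div _ _ (by linarith) (by linarith), one_mul, mul_one, abs_div, abs_of_pos this,
        abs_sub_comm, div_le_iff₀ this]
      nlinarith [abs_nonneg (a.1 - a₀.1), mul_le_mul h5.le h4 zero_le_one (by linarith)]
    have h8 := Real.abs_exp_sub_one_le (h7.trans (by linarith [h1.2]))
    have h9 : Real.exp (1 / a₀.1) ≤ 3 := (Real.exp_le_exp.2 ((div_le_one (by linarith)).2 h4)).trans
      (Real.exp_one_lt_d9.le.trans (by norm_num))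
    rw [← sub_add_cancel (1 / a.1) (1 / a₀.1), Real.exp_add, ← sub_one_mul, abs_mul, Real.abs_exp]
    nlinarith [abs_nonneg (Real.exp (1 / a.1 - 1 / a₀.1) - 1), h1.1]
  · obtain ⟨h4, h5, h6⟩ := key h.1
    have h0 : 0 < a₀.1 := by linarith
    have e : uu (tbQ2 a₀ w x) = _ := tbpos_sum hx h0
    refine ⟨h5, tbpos_near (q := tbQ2 a₀ w x) ⟨⟨⟨h.2.1.ge, h.2.1.le.trans hK.lt.le⟩,
      e.trans_le ((div_le_one h0).2 h.1), Or.inl h.2.1, (tbpos_sq _ h0).trans_le ?_⟩, h.2.1⟩ h3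
      (h6 _ hw) fun j => h6 _ (hx j)⟩
    rw [e, hw, one_pow, show (tbQ2 a₀ w x).1 = -1 from h.2.1]
    exact h.2.2

end Pool.Agent.Lib.MP_ccffa6_gt
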