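import Pool.Agent.Lib.MP_ccffa6_gt.T.BPull
import Pool.Agent.Lib.MP_ccffa6_gt.T.BPos

/-!
Gluing the two model charts.
-/

open Set Filter Topology
open scoped ContDiff

noncomputable section

namespace Pool.Agent.Lib.MP_ccffa6_gt

variable {V : Type} [NormedAddCommGroup V] [NormedSpace ℝ V] [FiniteDimensional ℝ V] {k : ℕ}

/-- The region where the two descriptions agree. -/
def tbTb (k : ℕ) (l : ℝ) : Set (Cm k) :=
  {h | |(h 0).re| < l ∧ h 1 ≠ 0 ∧ -1 / 4 < Real.log ‖h 1‖}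

/-- The domain of the first chart. -/
def tbO1 (l D : ℝ) (T : ℂ → ℝ × ℝ) (b : ℝ → ℝ) (V₁ : Set (Mod (k + 1))) : Set (Cm k) :=
  {h | h ∈ BoxM k l D ∪ tbTb k l ∧ tbP1 T b h ∈ Ioi (1 / 2 : ℝ) ×ˢ V₁}

/-- The domain of the second chart. -/
def tbO2 (l : ℝ) (T : ℂ → ℝ × ℝ) (V₂ : Set (Mod (k + 1))) : Set (Cm k) :=
  {h | h ∈ BoxP k l ∪ tbTb k l ∧ tbP2 T h ∈ Ioi (1 / 2 : ℝ) ×ˢ V₂}

theorem tbmid_log {h : Cm k} (hw : h 1 ≠ 0) : ContinuousAt (fun h : Cm k => Real.log ‖h 1‖) h :=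
  (tbPr 1).continuous.norm.continuousAt.log (norm_ne_zero_iff.2 hw)

theorem tbmid_tb (l : ℝ) : IsOpen (tbTb k l) := isOpen_iff_mem_nhds.2 fun _ hh =>
  ((isOpen_lt (Complex.continuous_re.comp (tbPr 0).continuous).abs continuous_const).eventually_mem
    hh.1).and (((tbPr 1).continuous.continuousAt.eventually_ne hh.2.1).and
      ((tbmid_log hh.2.1).eventually_const_lt hh.2.2))

theorem tbmid_bm (l D : ℝ) : IsOpen (BoxM k l D) := isOpen_iff_mem_nhds.2 fun _ hh =>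
  ((isOpen_lt ((tbPr 0).continuous.sub continuous_const).norm continuous_const).eventually_mem
    hh.1).and (((tbPr 1).continuous.continuousAt.eventually_ne hh.2.1).and
      (((tbmid_log hh.2.1).abs.eventually_lt_const hh.2.2.1).and (eventually_all.2 fun j =>
        eventually_imp_distrib_left.2 fun h0 => eventually_imp_distrib_left.2 fun h1 =>
          (tbPr j).continuous.norm.continuousAt.eventually_lt_const (hh.2.2.2 j h0 h1))))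

theorem tbmid_bp (l : ℝ) : IsOpen (BoxP k l) := isOpen_iff_mem_nhds.2 fun _ hh =>
  eventually_all.2 fun j => (tbPr j).continuous.norm.continuousAt.eventually_lt_const (hh j)

theorem tbmid_ne {l D : ℝ} {h : Cm k} (hh : h ∈ BoxM k l D ∪ tbTb k l) : h 1 ≠ 0 :=
  hh.elim (·.2.1) (·.2.1)

theorem tbmid_pos {m : ℝ} (h : m ∈ Ioi (1 / 2 : ℝ)) : 0 < m := one_half_pos.trans h

theorem tb_o1_open {l D : ℝ} {T : ℂ → ℝ × ℝ} {b : ℝ → ℝ} (hT : ContDiff ℝ ∞ T)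
    (hb : ContDiff ℝ ∞ b) {V₁ : Set (Mod (k + 1))} (h : IsOpen V₁) : IsOpen (tbO1 l D T b V₁) := by
  exact isOpen_iff_mem_nhds.2 fun x hx =>
    (((tbmid_bm l D).union (tbmid_tb l)).eventually_mem hx.1).and
      ((tb_p1_sm hT hb (tbmid_pos hx.2.1) (tbmid_ne hx.1)).continuousAt.eventually_mem
        ((isOpen_Ioi.prod h).mem_nhds hx.2))

theorem tb_o2_open {l : ℝ} {T : ℂ → ℝ × ℝ} (hT : ContDiff ℝ ∞ T) {V₂ : Set (Mod (k + 1))}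
    (h : IsOpen V₂) : IsOpen (tbO2 l T V₂) := by
  exact isOpen_iff_mem_nhds.2 fun x hx =>
    (((tbmid_bp l).union (tbmid_tb l)).eventually_mem hx.1).and
      ((tb_p2_sm hT (tbmid_pos hx.2.1)).continuousAt.eventually_mem
        ((isOpen_Ioi.prod h).mem_nhds hx.2))

theorem tbmid_disj {l D : ℝ} (hD : 2 * l ≤ D) {ζ : ℂ} (h1 : ‖ζ‖ < l) (h2 : ‖ζ - D * Complex.I‖ < l) :
    False := by
  have h3 := (abs_le.1 (Complex.abs_im_le_norm ζ)).2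
  have h4 := (abs_le.1 (Complex.abs_im_le_norm (ζ - D * Complex.I))).1
  simp only [Complex.sub_im, Complex.mul_I_im, Complex.ofReal_re] at h4
  linarith

theorem tbmid_mu {b : ℝ → ℝ} (hb : TBBeta b) {l : ℝ} {h : Cm k} (hh : h ∈ tbTb k l) :
    tbMu b (h 1) = ‖h 1‖ ^ 2 := by
  rw [tbMu, hb.zero _ hh.2.2.le, add_zero]

omit [FiniteDimensional ℝ V] in
theorem tbmid_loc {O : Set (Cm k)} (hO : IsOpen O) {U : Set (Mod (k + 1))} (hU : IsOpen U)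
    {F : ℝ × Mod (k + 1) → V} (hF : ContDiffOn ℝ ∞ F (Ioi (1 / 2) ×ˢ U)) {Θ : Cm k → V}
    {P : Cm k → ℝ × Mod (k + 1)} (he : ∀ h ∈ O, Θ h = F (P h)) {h : Cm k} (hh : h ∈ O)
    (hm : P h ∈ Ioi (1 / 2 : ℝ) ×ˢ U) (hP : ContDiffAt ℝ ∞ P h) :
    ContDiffAt ℝ ∞ Θ h ∧ ∀ X, fderiv ℝ Θ h X = fderiv ℝ F (P h) (fderiv ℝ P h X) := by
  have h1 := hF.contDiffAt ((isOpen_Ioi.prod hU).mem_nhds hm)
  have h2 : Θ =ᶠ[𝓝 h] F ∘ P := (hO.eventually_mem hh).mono he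
  refine ⟨(h1.comp h hP).congr_of_eventuallyEq h2, fun X => ?_⟩
  rw [h2.fderiv_eq, fderiv_comp h (h1.differentiableAt (by simp)) (hP.differentiableAt (by simp))]
  rfl

/-- The two charts glue. -/
theorem tb_mid0 {Y : Set V} {Λ : Form1 V} {V₁ V₂ : Set (Mod (k + 1))} {F₁ F₂ : ℝ × Mod (k + 1) → V}
    (hS : TBSym (k + 1) Y Λ V₁ V₂ F₁ F₂) {l D : ℝ} {T : ℂ → ℝ × ℝ} {b : ℝ → ℝ}
    (hT : ContDiff ℝ ∞ T) (hi : InjOn T {ζ | |ζ.re| < l}) (hD : 2 * l ≤ D) (hb : TBBeta b)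
    (hP : BoxP k l ⊆ tbO2 l T V₂) (hM : BoxM k l D ⊆ tbO1 l D T b V₁)
    (hL : Larc k (-l) (D + l) ⊆ tbO1 l D T b V₁ ∪ tbO2 l T V₂) :
    ∃ Θ : Cm k → V, TBMid Y Λ l D T b (tbO1 l D T b V₁) (tbO2 l T V₂) Θ := by
  classical
  have o1 := tb_o1_open (l := l) (D := D) hT hb.sm hS.op₁
  have o2 := tb_o2_open (l := l) hT hS.op₂
  obtain ⟨Θ, e1, e2⟩ : ∃ Θ : Cm k → V, (∀ h ∈ tbO1 l D T b V₁, Θ h = F₁ (tbP1 T b h)) ∧
      ∀ h ∈ tbO2 l T V₂, Θ h = F₂ (tbP2 T h) := by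
    refine ⟨fun h => if h ∈ tbO2 l T V₂ then F₂ (tbP2 T h) else F₁ (tbP1 T b h), fun h h1 => ?_,
      fun h h2 => if_pos h2⟩
    refine ite_eq_right_iff.2 fun h2 => ?_
    have ht : h ∈ tbTb k l := h1.1.elim
      (fun a => h2.1.resolve_left fun c => tbmid_disj hD (c 0) a.1) id
    have hm : 0 < (T (h 0)).1 := tbmid_pos h2.2.1
    have e : tbP1 T b h = ((tbP2 T h).1, polar (tbP2 T h).2) := by
      rw [tbP1, tbP2, tb_polar_q2 hm ht.2.1, tbmid_mu hb ht]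
    rw [e]
    refine hS.agree _ h2.2 (div_ne_zero ht.2.1 ?_) (e ▸ h1.2).2
    exact Complex.ofReal_ne_zero.2 (Real.sqrt_pos.2 hm).ne'
  have l1 := fun h (hh : h ∈ tbO1 l D T b V₁) => tbmid_loc o1 hS.op₁ hS.sm₁ e1 hh hh.2
    (tb_p1_sm hT hb.sm (tbmid_pos hh.2.1) (tbmid_ne hh.1))
  have l2 := fun h (hh : h ∈ tbO2 l T V₂) => tbmid_loc o2 hS.op₂ hS.sm₂ e2 hh hh.2
    (tb_p2_sm hT (tbmid_pos hh.2.1))
  have s1 : ∀ h ∈ tbO1 l D T b V₁, |(h 0).re| < l := fun h hh => hh.1.elim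
    (fun a => by simpa using (Complex.abs_re_le_norm _).trans_lt a.1) (·.1)
  have s2 : ∀ h ∈ tbO2 l T V₂, |(h 0).re| < l := fun h hh => hh.1.elim
    (fun a => (Complex.abs_re_le_norm _).trans_lt (a 0)) (·.1)
  have mix : ∀ h ∈ tbO2 l T V₂, ∀ h' ∈ tbO1 l D T b V₁, Θ h = Θ h' → h' = h := by
    intro h h2 h' h1 e
    rw [e2 h h2, e1 h' h1] at e
    obtain ⟨c1, c2⟩ := hS.cross _ h2.2 _ h1.2 e
    have hw : h 1 ≠ 0 := fun z => c1 (by simp [tbP2, tbQ2, z])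
    have hm : 0 < (T (h 0)).1 := tbmid_pos h2.2.1
    rw [tbP1, tbP2, tb_polar_q2 hm hw] at c2
    have h0 : h' 0 = h 0 := hi (s1 h' h1) (s2 h h2)
      (Prod.ext (congrArg Prod.fst c2 :) (congrArg (fun a => a.2.1) c2))
    rw [h0] at c2
    obtain ⟨a1, a2, a3⟩ := tb_q1_inj hm (tbmid_ne h1.1) hw (congrArg Prod.snd c2)
    refine tb_cm_ext h0 (a3 ?_) a2
    rcases h1.1 with a | a
    · have ht : h ∈ tbTb k l := h2.1.resolve_left fun c => tbmid_disj hD (c 0) (h0 ▸ a.1)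
      exact hb.mu_inj a.2.1 hw (a1.trans (tbmid_mu hb ht).symm)
    · rw [tbmid_mu hb a] at a1
      exact (pow_left_inj₀ (norm_nonneg _) (norm_nonneg _) two_ne_zero).1 a1
  refine ⟨Θ, o1, o2, fun h hh => (hh.elim (fun a => (l1 h a).1) fun a => (l2 h a).1).contDiffWithinAt,
    ?_, fun h hh => hh.elim (fun a => e1 h a ▸ hS.map₁ a.2) fun a => e2 h a ▸ hS.map₂ a.2,
    fun h hh => hh.elim (s1 h) (s2 h), fun h hh => tbmid_ne hh.1, hP, hM, hL, fun h hh X => ?_,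
    fun h hh X => ?_⟩
  · rintro h (h1 | h1) h' (h2 | h2) e
    · rw [e1 h h1, e1 h' h2] at e
      have c := hS.inj₁ h1.2 h2.2 e
      have h0 : h 0 = h' 0 := hi (s1 h h1) (s1 h' h2)
        (Prod.ext (congrArg Prod.fst c :) (congrArg (fun a => a.2.1) c))
      rw [tbP1, tbP1, h0] at c
      obtain ⟨a1, a2, a3⟩ := tb_q1_inj (tbmid_pos h2.2.1) (tbmid_ne h1.1) (tbmid_ne h2.1)
        (congrArg Prod.snd c)
      exact tb_cm_ext h0 (a3 (hb.mu_inj (tbmid_ne h1.1) (tbmid_ne h2.1) a1)) a2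
    · exact mix h' h2 h h1 e.symm
    · exact (mix h h1 h' h2 e).symm
    · rw [e2 h h1, e2 h' h2] at e
      have c := hS.inj₂ h1.2 h2.2 e
      have h0 : h 0 = h' 0 := hi (s2 h h1) (s2 h' h2)
        (Prod.ext (congrArg Prod.fst c :) (congrArg (fun a => a.2.1) c))
      rw [tbP2, tbP2, h0] at c
      obtain ⟨a1, a2⟩ := tb_q2_inj (tbmid_pos h2.2.1) (congrArg Prod.snd c)
      exact tb_cm_ext h0 a1 a2
  · rw [(l1 h hh).2, e1 h hh, hS.pull₁ _ hh.2,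
      tb_pull1 hT hb.sm (tbmid_pos hh.2.1) (tbmid_ne hh.1)]
  · rw [(l2 h hh).2, e2 h hh, hS.pull₂ _ hh.2, tb_pull2 hT (tbmid_pos hh.2.1)]

/-- Choice of the constants. -/
theorem tb_mid (hk : 1 ≤ k) {zD : ℝ} {K : ℝ × ℝ → ℝ} (hK : Small (k + 1) zD K) {δ : ℝ}
    (hδ : 0 < δ) {Y : Set V} {Λ : Form1 V} {F₁ F₂ : ℝ × Mod (k + 1) → V}
    (hS : TBSym (k + 1) Y Λ (Metric.thickening δ (Sig1 (k + 1) zD K))
      (Metric.thickening δ (Sig2b (k + 1) zD K)) F₁ F₂) {l : ℝ} (hl : 1 < l) :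
    ∃ (D δ' M : ℝ) (T : ℂ → ℝ × ℝ) (b : ℝ → ℝ) (O₁ O₂ : Set (Cm k)) (Θ : Cm k → V),
      TBPlane (k + 1) zD K l D δ' M T ∧ TBBeta b ∧ TBMid Y Λ l D T b O₁ O₂ Θ := by
  have l0 : 0 < l := one_pos.trans hl
  obtain ⟨δ', d0, d1, hA⟩ := tb_posA hk hK hδ
  obtain ⟨M₁, m1, h1⟩ := tb_posP hK hδ l
  obtain ⟨M₂, m2, h2⟩ := tb_posM (k := k) (zD := zD) (K := K) hδ l (Real.exp l ^ 2 + l)
  obtain ⟨b, hb⟩ := tb_beta
  obtain ⟨D, M, T, hM, hT⟩ := tb_plane (by omega) hK l0 d0 (max M₁ M₂)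
  rw [max_le_iff] at hM
  have hP : BoxP k l ⊆ tbO2 l T (Metric.thickening δ (Sig2b (k + 1) zD K)) := fun h hh => by
    obtain ⟨a1, a2⟩ := hT.posP _ (hh 0)
    exact ⟨.inl hh, show 1 / 2 < (T (h 0)).1 by linarith [hM.1],
      h1 _ _ _ (hM.1.trans a1) (a2.trans_le d1) (hh 1) fun j => hh _⟩
  have hQ : BoxM k l D ⊆ tbO1 l D T b (Metric.thickening δ (Sig1 (k + 1) zD K)) := fun h hh => by
    obtain ⟨z₁, z1, z2⟩ := hT.posM
    obtain ⟨a1, a2⟩ := z2 _ hh.1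
    refine ⟨.inl hh, show 1 / 2 < (T (h 0)).1 by linarith [hM.2],
      h2 M z₁ _ _ _ _ hM.2 z1 a1 (a2.trans_le d1) ((abs_add_le _ _).trans (add_le_add ?_
        ((hb.abs_le _).trans hh.2.2.1.le))) hh.2.1
        fun j => hh.2.2.2 _ (Fin.succ_ne_zero _) (Fin.succ_succ_ne_one _)⟩
    rw [abs_of_nonneg (sq_nonneg _)]
    exact pow_le_pow_left₀ (norm_nonneg _) ((Real.log_le_iff_le_exp (norm_pos_iff.2 hh.2.1)).1
      (abs_lt.1 hh.2.2.1).2.le) 2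
  refine ⟨D, δ', M, T, b, _, _, _, hT, hb,
    (tb_mid0 hS hT.sm hT.inj hT.D2 hb hP hQ fun h ⟨⟨r0, r1⟩, i1, i2⟩ => ?_).choose_spec⟩
  have n1 : ‖h 1‖ = 1 := r1 1 one_ne_zero
  have w1 : h 1 ≠ 0 := norm_pos_iff.1 (n1 ▸ one_pos)
  have e0 : h 0 = (h 0).im * Complex.I := Complex.ext (by simp [r0]) (by simp)
  rcases lt_or_ge (h 0).im l with c | c
  · refine .inr (hP fun j => ?_)
    rcases eq_or_ne j 0 with rfl | hj
    · rw [← Complex.abs_im_eq_norm.2 r0]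
      exact abs_lt.2 ⟨i1, c⟩
    · rwa [r1 j hj]
  rcases lt_or_ge (D - l) (h 0).im with c' | c'
  · refine .inl (hQ ⟨?_, w1, by simpa [n1] using l0, fun j hj _ => by rwa [r1 j hj]⟩)
    rw [← Complex.abs_im_eq_norm.2 (by simp [r0]), abs_lt]
    simp only [Complex.sub_im, Complex.mul_I_im, Complex.ofReal_re]
    constructor <;> linarith
  obtain ⟨a, ha, hd⟩ := hT.arc _ ⟨c, c'⟩
  rw [← e0] at hd
  have ht : h ∈ tbTb k l := ⟨by simpa [r0] using l0, w1, by rw [n1, Real.log_one]; norm_num⟩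
  obtain ⟨p1, p2⟩ := hA _ a (h 1) (tbX h) hd n1 fun j => r1 _ (Fin.succ_ne_zero _)
  refine ha.imp (fun a => ⟨.inr ht, ?_⟩) fun a => ⟨.inr ht, p2 a⟩
  rw [tbP1, tbmid_mu hb ht, n1, one_pow]
  exact p1 a

end Pool.Agent.Lib.MP_ccffa6_gt
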