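import Pool.Agent.Lib.MP_ccffa6_gt.T.BCyl
import Pool.Agent.Lib.MP_ccffa6_gt.T.BInv

/-!
The complex structure on the cobordism and the data without the involution.
-/

open Set Filter Topology
open scoped ContDiff ComplexConjugate

noncomputable section

namespace Pool.Agent.Lib.MP_ccffa6_gt

variable {E : Type} [NormedAddCommGroup E] [NormedSpace ℝ E] [FiniteDimensional ℝ E]

/-- The compatible complex structure on the cobordism. -/
theorem tb_preJ {n : ℕ} {W : Set (E × ℝ)} {lam : Form1 (E × ℝ)} {N M : Set E} {α β : Form1 E}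
    (hX : XCob n W lam N α M β) {J₀ J₁ JB : E × ℝ → (E × ℝ) →L[ℝ] (E × ℝ)} (h₀ : TBCylJ N α J₀)
    (h₁ : TBCylJ M β J₁) {B : Set (E × ℝ)} (hB : IsClosed B) {R : ℝ} (hR : 1 < R)
    (hBW : ∀ p ∈ B, p ∈ W ∧ 1 < p.2 ∧ p.2 < R) (hJB : ContDiff ℝ ∞ JB)
    (hc : ∀ p ∈ B, Compat (Tan W p) (dF lam p) (JB p)) :
    ∃ J : E × ℝ → (E × ℝ) →L[ℝ] (E × ℝ), ContDiff ℝ ∞ J ∧
      (∀ p ∈ W, Compat (Tan W p) (dF lam p) (J p)) ∧
      (∀ p ∈ W, p.2 ≤ 0 → ∀ v ∈ Tan W p, J p v = J₀ p v) ∧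
      (∀ p ∈ W, R ≤ p.2 → ∀ v ∈ Tan W p, J p v = J₁ p v) ∧
      ∀ p ∈ B, ∀ v ∈ Tan W p, J p v = JB p v := by
  classical
  have hW := hX.cob.isClosed
  obtain ⟨P, hP, hT⟩ := tb_proj hX.cob.sub hW
  obtain ⟨c, hc'⟩ := hX.top
  have c0 : ∀ p ∈ W, p.2 ≤ 0 → Compat (Tan W p) (dF lam p) (J₀ p) := fun p hp h0 => by
    have hN := (hX.cob.bot p h0).1 hp
    rw [hX.cob.tan_bot hp h0]
    refine ((h₀.comp p hN).smul (Real.exp_pos (p.2 + 0))).congr (fun u hu v hv => ?_) fun _ _ => rfl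
    refine tb_dF_cyl hX.cob.clN.sub hX.cN.sm hX.sm isOpen_Iio (I := Iio 0) (c := 0)
      (fun q h1 h2 v hv => ?_) hN (by simpa using h0) u hu v hv
    have hq := (hX.cob.bot q (le_of_lt h2)).2 h1
    rw [add_zero]
    exact hX.bot q hq (le_of_lt h2) v (hX.cob.tan_bot hq (le_of_lt h2) ▸ hv)
  have c1 : ∀ p ∈ W, R ≤ p.2 → Compat (Tan W p) (dF lam p) (J₁ p) := fun p hp h0 => by
    have h1 : 1 ≤ p.2 := hR.le.trans h0
    have hM := (hX.cob.top p h1).1 hp
    rw [hX.cob.tan_top hp h1]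
    refine ((h₁.comp p hM).smul (Real.exp_pos (p.2 + c))).congr (fun u hu v hv => ?_) fun _ _ => rfl
    refine tb_dF_cyl hX.cob.clM.sub hX.cM.sm hX.sm isOpen_Ioi (I := Ioi 1) (c := c)
      (fun q h1 h2 v hv => ?_) hM (by simpa using h1) u hu v hv
    have hq := (hX.cob.top q (le_of_lt h2)).2 h1
    exact hc' q hq (le_of_lt h2) v (hX.cob.tan_top hq (le_of_lt h2) ▸ hv)
  set J : E × ℝ → (E × ℝ) →L[ℝ] (E × ℝ) := fun p =>
    if p.2 ≤ 0 then J₀ p else if R ≤ p.2 then J₁ p else JB p with hJ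
  have e0 : ∀ p : E × ℝ, p.2 ≤ 0 → J p = J₀ p := fun p h => if_pos h
  have e1 : ∀ p : E × ℝ, R ≤ p.2 → J p = J₁ p := fun p h =>
    (if_neg (by linarith)).trans (if_pos h)
  have e2 : ∀ p : E × ℝ, 1 < p.2 → p.2 < R → J p = JB p := fun p h h' =>
    (if_neg (by linarith)).trans (if_neg (by linarith))
  obtain ⟨J', s, hc1, hc2⟩ := tb_glueJ (A := W)
    (B := W ∩ {p | p.2 ≤ 0} ∪ W ∩ {p | R ≤ p.2} ∪ B) hW
    (((hW.inter (isClosed_le continuous_snd continuous_const)).union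
      (hW.inter (isClosed_le continuous_const continuous_snd))).union hB)
    (union_subset (union_subset inter_subset_left inter_subset_left) fun p hp => (hBW p hp).1)
    hP hT (contDiff_dF hX.sm) hX.nd (JB := J)
    (by
      rintro p ((⟨h1, h2⟩ | ⟨h1, h2⟩) | h)
      · rw [e0 p h2]; exact c0 p h1 h2
      · rw [e1 p h2]; exact c1 p h1 h2
      · rw [e2 p (hBW p h).2.1 (hBW p h).2.2]; exact hc p h)
    (by
      rintro p ((⟨-, h2⟩ | ⟨-, h2⟩) | h)
      · refine ⟨J₀, h₀.sm, ?_⟩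
        have h2' : p.2 < 1 := lt_of_le_of_lt h2 one_pos
        filter_upwards [self_mem_nhdsWithin, mem_nhdsWithin_of_mem_nhds
          ((isOpen_lt continuous_snd continuous_const).mem_nhds h2')]
        rintro q ((⟨-, q2⟩ | ⟨-, q2⟩) | q2) q3
        · exact (e0 q q2).symm
        · exact absurd (hR.trans_le q2) (not_lt.2 (le_of_lt q3))
        · exact absurd (hBW q q2).2.1 (not_lt.2 (le_of_lt q3))
      · refine ⟨J₁, h₁.sm, ?_⟩
        have h2' : p ∈ Bᶜ ∩ {q : E × ℝ | 0 < q.2} :=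
          ⟨fun h => absurd (hBW p h).2.2 (not_lt.2 h2), by
            have : R ≤ p.2 := h2
            change 0 < p.2
            linarith⟩
        filter_upwards [self_mem_nhdsWithin, mem_nhdsWithin_of_mem_nhds
          ((hB.isOpen_compl.inter (isOpen_lt continuous_const continuous_snd)).mem_nhds h2')]
        rintro q ((⟨-, q2⟩ | ⟨-, q2⟩) | q2) q3
        · exact absurd (lt_of_lt_of_le q3.2 q2) (lt_irrefl (0 : ℝ))
        · exact (e1 q q2).symm
        · exact absurd q2 q3.1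
      · refine ⟨JB, hJB, ?_⟩
        filter_upwards [mem_nhdsWithin_of_mem_nhds
          (((isOpen_lt continuous_const continuous_snd).inter
            (isOpen_lt continuous_snd continuous_const)).mem_nhds (hBW p h).2)] with q hq
        exact (e2 q hq.1 hq.2).symm)
  exact ⟨J', s, hc1, fun p hp h v hv => e0 p h ▸ hc2 p (.inl (.inl ⟨hp, h⟩)) v hv,
    fun p hp h v hv => e1 p h ▸ hc2 p (.inl (.inr ⟨hp, h⟩)) v hv,
    fun p h v hv => e2 p (hBW p h).2.1 (hBW p h).2.2 ▸ hc2 p (.inr h) v hv⟩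

theorem tb_prim {g : ℝ → ℝ} (hg : ContDiff ℝ ∞ g) :
    ∃ G : ℝ → ℝ, ContDiff ℝ ∞ G ∧ ∀ t, HasDerivAt G (g t) t := by
  have h : ∀ t, HasDerivAt (fun t => ∫ x in (0 : ℝ)..t, g x) (g t) t := fun t =>
    (hg.continuous.integral_hasStrictDerivAt 0 t).hasDerivAt
  refine ⟨_, contDiff_infty_iff_deriv.2 ⟨fun t => (h t).differentiableAt, ?_⟩, h⟩
  rwa [show deriv (fun t => ∫ x in (0 : ℝ)..t, g x) = g from funext fun t => (h t).deriv]

/-- The exact correction. -/
theorem tb_corr {V : Type} [NormedAddCommGroup V] [NormedSpace ℝ V] [FiniteDimensional ℝ V] {k : ℕ}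
    {W U Z : Set V} {O K : Set (Cm k)} {Θ : Cm k → V} {C : V → Cm k} (h : TBInv W O U Θ C)
    (hK : IsCompact K) (hKO : K ⊆ O) (hZ : IsOpen Z) (hm : MapsTo Θ K Z) {g : ℝ → ℝ}
    (hg : ContDiff ℝ ∞ g) : ∃ f : V → ℝ, ContDiff ℝ ∞ f ∧ (∀ y, y ∉ Z → fderiv ℝ f y = 0) ∧
      ∀ a ∈ K, ∀ X, fderiv ℝ f (Θ a) (fderiv ℝ Θ a X) = g (a 0).im * (X 0).im := by
  obtain ⟨G, hG, hG'⟩ := tb_prim hg
  obtain ⟨χ, hχ, -, h1, hs, -⟩ :=
    exists_cutoff (hK.image h.smΘ.continuous).isClosed hZ hm.image_subset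
  let L : Cm k →L[ℝ] ℝ := Complex.imCLM.comp
    ((EuclideanSpace.proj 0 : Cm k →L[ℂ] ℂ).restrictScalars ℝ)
  have sf : ContDiff ℝ ∞ fun y => χ y * G (L (C y)) :=
    hχ.mul (hG.comp (L.contDiff.comp h.smC))
  refine ⟨_, sf, fun y hy => ?_, fun a ha X => ?_⟩
  · have : (fun y => χ y * G (L (C y))) =ᶠ[𝓝 y] fun _ => 0 := by
      filter_upwards [notMem_tsupport_iff_eventuallyEq.1 fun hh => hy (hs hh)] with z hz
      simp [hz]
    rw [this.fderiv_eq, fderiv_fun_const]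
    rfl
  · have e : (fun y => χ y * G (L (C y))) ∘ Θ =ᶠ[𝓝 a] G ∘ L := by
      filter_upwards [h.smΘ.continuous.continuousAt.eventually
        (h1.filter_mono (nhds_le_nhdsSet (mem_image_of_mem Θ ha))),
        h.opO.mem_nhds (hKO ha)] with z z1 z2
      simp [z1, (h.CΘ z z2).2.2]
    have d1 := ((sf.differentiable (by simp) (Θ a)).hasFDerivAt.comp a
      (h.smΘ.differentiable (by simp) a).hasFDerivAt).congr_of_eventuallyEq e.symm
    have d2 := (hG' (L a)).hasFDerivAt.comp a L.hasFDerivAt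
    have := congrArg (fun A => A X) (d1.unique d2)
    simpa [L, mul_comm] using this

omit [NormedSpace ℝ E] [FiniteDimensional ℝ E] in
theorem tbpre_closed (a b : ℝ) : IsClosed {p : E × ℝ | a ≤ p.2 ∧ p.2 ≤ b} :=
  (isClosed_le continuous_const continuous_snd).inter (isClosed_le continuous_snd continuous_const)

theorem tb_cob_cpt {d : ℕ} {W : Set (E × ℝ)} {N M : Set E} (h : Cob d W N M) (a b : ℝ) :
    IsCompact (W ∩ {p | a ≤ p.2 ∧ p.2 ≤ b}) := by
  refine ((h.cpt.union (h.clN.cpt.prod (isCompact_Icc (a := a) (b := b)))).union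
    (h.clM.cpt.prod (isCompact_Icc (a := a) (b := b)))).of_isClosed_subset
    (h.isClosed.inter (tbpre_closed a b)) fun p hp => ?_
  rcases le_total p.2 0 with h0 | h0
  · exact .inl (.inr ⟨(h.bot p h0).1 hp.1, hp.2⟩)
  rcases le_total p.2 1 with h1 | h1
  · exact .inl (.inl ⟨hp.1, trivial, h0, h1⟩)
  · exact .inr ⟨(h.top p h1).1 hp.1, hp.2⟩

/-- The data without the involution. -/
theorem tb_pre {k : ℕ} {W : Set (E × ℝ)} {lam : Form1 (E × ℝ)} {N M : Set E} {α β : Form1 E}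
    (hX : XCob (k + 1) W lam N α M β) (hy : Hyp N α) {l l' D : ℝ} (hl : l < l')
    {O : Set (Cm k)} {Θ : Cm k → E × ℝ} (h : TBChart k (W ∩ {p | 1 < p.2}) lam l' D O Θ) :
    ∃ T : TD k (E × ℝ), T.OK0 ∧ T.l = l := by
  obtain ⟨A, hA, a1, a2, a3, a4⟩ := tb_core k hl D
  have hAO : A ⊆ O := a4.trans (union_subset (union_subset h.boxP h.boxM) h.lag)
  have hsub : IsSub (2 * k + 4) W := hX.cob.sub
  obtain ⟨Θ', C, O', U, hI, hAO', hO'O, he⟩ := tb_inv hsub (tb_finrank_cm k) h.opO h.sm h.inj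
    (fun a ha => (injective_iff_map_eq_zero _).2 fun X hX0 => by
      by_contra hne
      have := h.tame a ha X hne
      simp [hX0] at this)
    (fun a ha => (h.map ha).1) hA hAO
  have hd : ∀ a ∈ O', fderiv ℝ Θ' a = fderiv ℝ Θ a := fun a ha =>
    (he.eventuallyEq_of_mem (hI.opO.mem_nhds ha)).fderiv_eq
  obtain ⟨K, hK, hAK, hKO⟩ := exists_compact_between hA hI.opO hAO'
  have hB := hK.image hI.smΘ.continuous
  obtain ⟨R₀, hR₀⟩ := (hB.image continuous_snd).bddAbove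
  set R := max R₀ 1 + 1 with hRd
  have hR : 1 < R := by linarith [le_max_right R₀ 1]
  have hBW : ∀ p ∈ Θ' '' K, p ∈ W ∧ 1 < p.2 ∧ p.2 < R := by
    rintro _ ⟨a, ha, rfl⟩
    have h1 := h.map (hO'O (hKO ha))
    rw [← he (hKO ha)] at h1
    exact ⟨h1.1, h1.2, by
      linarith [le_max_left R₀ 1, hR₀ (mem_image_of_mem _ (mem_image_of_mem Θ' ha))]⟩
  obtain ⟨J₀, h₀⟩ := tb_cylJ hX.cN
  obtain ⟨J₁, h₁⟩ := tb_cylJ hX.cM
  obtain ⟨J, sJ, cJ, j0, j1, jB⟩ := tb_preJ hX h₀ h₁ hB.isClosed hR hBW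
    (tb_jc_sm hI.smΘ hI.smC) (by
      rintro _ ⟨a, ha, rfl⟩
      refine hI.compat (hKO ha) ?_ ?_ <;> rw [hd a (hKO ha), he (hKO ha)]
      exacts [h.tame a (hO'O (hKO ha)), h.comp a (hO'O (hKO ha))])
  obtain ⟨g, hg, hper⟩ := h.per
  obtain ⟨f, sf, f0, f1⟩ := tb_corr hI hK hKO (Z := {p : E × ℝ | 1 < p.2 ∧ p.2 < R})
    ((isOpen_lt continuous_const continuous_snd).inter (isOpen_lt continuous_snd continuous_const))
    (fun a ha => (hBW _ (mem_image_of_mem _ ha)).2) hg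
  obtain ⟨c, hc⟩ := hX.top
  have sf' : ContDiff ℝ ∞ (fderiv ℝ (-f)) := sf.neg.fderiv_right (by simp)
  have hdF : ∀ p, dF (fun y => lam y + fderiv ℝ (-f) y) p = dF lam p := fun p => by
    rw [dF_add (hX.sm.differentiable (by simp) p) (sf'.differentiable (by simp) p),
      dF_fderiv (g := -f) (sf.neg.contDiffAt.of_le (by norm_cast))]
    ext u v <;> simp
  have hI' := hI.shrink isOpen_interior (interior_subset.trans hKO)
  have hAO2 : A ⊆ O' := hAO'
  have hb : ∀ p : E × ℝ, HasFDerivAt (fun p : E × ℝ => Real.exp (p.2 + c) - Real.exp (R + c))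
      (Real.exp (p.2 + c) • ContinuousLinearMap.snd ℝ E ℝ) p := fun p =>
    ((hasFDerivAt_snd.add_const c).exp).sub_const _
  have mP : BoxP k l ⊆ BoxP k l' := fun a ha j => (ha j).trans hl
  have mM : BoxM k l D ⊆ BoxM k l' D := fun a ha =>
    ⟨ha.1.trans hl, ha.2.1, ha.2.2.1.trans hl, fun j h0 h1 => (ha.2.2.2 j h0 h1).trans hl⟩
  have mL : Larc k (-l) (D + l) ⊆ Larc k (-l') (D + l') := fun a ha =>
    ⟨ha.1, by linarith [ha.2.1], by linarith [ha.2.2]⟩
  refine ⟨{ W := W, ν := 0, J := J, lam := fun y => lam y + fderiv ℝ (-f) y, S := 0, Vs := ∅,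
            C := N ×ˢ univ, s := ContinuousLinearMap.snd ℝ E ℝ, e := (0, 1), J0 := J₀,
            α := tbLift ℝ α, b := fun p => Real.exp (p.2 + c) - Real.exp (R + c), l := l, D := D,
            O := interior K, U := U ∩ C ⁻¹' interior K, Θ := Θ', Cc := C }, ?_, rfl⟩
  exact
    { sub := hsub
      clW := hX.cob.isClosed
      smJ := sJ
      mapJ := fun y hy v hv => ⟨(cJ y hy).map v hv, (cJ y hy).sq v hv⟩
      smlam := hX.sm.add sf'
      tame := fun y hy v hv h0 => by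
        simp only [hdF]
        exact (cJ y hy).pos v hv h0
      cyl := tb_cyl hX.cN hy h₀
      bot := fun y h0 => (hX.cob.bot y (le_of_lt h0)).trans (by simp)
      botJ := fun y hy h0 v hv => by
        have h0' : y.2 < 0 := h0
        refine ⟨j0 y hy h0'.le v hv, ?_⟩
        have := f0 y fun hh => by linarith [hh.1]
        simp [fderiv_neg, this, hX.bot y hy h0'.le v hv]
      smb := by fun_prop
      top := fun y hy h0 v hv => by
        have h1 : R < y.2 := by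
          have : Real.exp (R + c) < Real.exp (y.2 + c) := sub_pos.1 h0
          linarith [Real.exp_lt_exp.1 this]
        have h2 : 1 ≤ y.2 := by linarith
        have := f0 y fun hh => by linarith [hh.2]
        have h3 := h₁.sJ y ((hX.cob.top y h2).1 hy) v (hX.cob.tan_top hy h2 ▸ hv)
        simp [(hb y).fderiv, fderiv_neg, this, hc y hy h2 v hv, j1 y hy h1.le v hv, h3]
      cpt := fun a => by
        have e : {p : E × ℝ | Real.exp (p.2 + c) - Real.exp (R + c) ≤ 0 ∧ -a ≤ p.2} =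
            {p | -a ≤ p.2 ∧ p.2 ≤ R} := by
          ext p
          simp [and_comm]
        exact e ▸ tb_cob_cpt hX.cob (-a) R
      D0 := h.D0
      opO := hI'.opO
      opU := hI'.opU
      smΘ := hI.smΘ
      smC := hI.smC
      boxP := a1.trans hAK
      boxM := a2.trans hAK
      lag := a3.trans hAK
      CΘ := hI'.CΘ
      ΘC := hI'.ΘC
      mid := fun a ha => by
        have := (hBW _ (mem_image_of_mem Θ' (interior_subset ha))).2
        exact ⟨sub_nonpos.2 (Real.exp_le_exp.2 (by linarith [this.2])), one_pos.trans this.1⟩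
      hol := fun a ha X => by
        rw [jB _ (mem_image_of_mem Θ' (interior_subset ha)) _ ((hI'.mem_tan ha _).2 ⟨X, rfl⟩)]
        exact hI'.jc ha X
      omP := fun a ha X Y => by
        simp only [hdF]
        rw [hd a (hAO2 (a1 ha)), he (hAO2 (a1 ha))]
        exact h.omP a (mP ha) X Y
      omM := fun a ha X => by
        simp only [hdF]
        rw [hd a (hAO2 (a2 ha)), he (hAO2 (a2 ha))]
        exact h.omM a (mM ha) X
      per := fun a ha X x0 x1 => by
        have e1 := f1 a (interior_subset (hAK (a3 ha))) X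
        have e2 := hper a (mL ha) X x0 x1
        rw [← hd a (hAO2 (a3 ha)), ← he (hAO2 (a3 ha))] at e2
        simp only [add_apply, fderiv_neg, neg_apply, e1, e2]
        ring }

end Pool.Agent.Lib.MP_ccffa6_gt
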