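import Pool.Agent.Lib.MP_ccffa6_gt.T.BThick
import Pool.Agent.Lib.MP_ccffa6_gt.K.Cyl

/-!
The conformal factors and the two charts of the symplectisation.
-/

open Set Filter Topology
open scoped ContDiff

noncomputable section

namespace Pool.Agent.Lib.MP_ccffa6_gt

variable {E : Type} [NormedAddCommGroup E] [NormedSpace ℝ E] [FiniteDimensional ℝ E] {n : ℕ}

/-- The conformal factor. -/
def tbG (β : Form1 E) (f : Mod n → E) (y : Mod n) : ℝ := β (f y) (fderiv ℝ f y (1, 0, 0))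

/-- The pull-back of `β` is a multiple of `lam`. -/
theorem tb_factor {M : Set E} {β : Form1 E} {U : Set (Mod n)} {lam : Form1 (Mod n)}
    {f : Mod n → E} (h : CMap M β U lam f) (h1 : ∀ y, lam y (1, 0, 0) = 1) {y : Mod n}
    (hy : y ∈ U) : tbG β f y ≠ 0 ∧ ∀ v, β (f y) (fderiv ℝ f y v) = tbG β f y * lam y v := by
  refine ⟨fun e => one_ne_zero ((h1 y).symm.trans ((h.ker y hy _).1 e)), fun v => ?_⟩
  have h2 := (h.ker y hy (v - lam y v • (1, 0, 0))).2 (by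
    rw [map_sub, map_smul, h1, smul_eq_mul, mul_one, sub_self])
  rw [map_sub, map_smul, map_sub, map_smul, smul_eq_mul, sub_eq_zero] at h2
  rw [h2, tbG, mul_comm]

theorem tb_factor_sm {M : Set E} {β : Form1 E} (hβ : ContDiff ℝ ∞ β) {U : Set (Mod n)}
    {lam : Form1 (Mod n)} {f : Mod n → E} (h : CMap M β U lam f) :
    ContDiffOn ℝ ∞ (tbG β f) U := by
  exact (hβ.comp_contDiffOn h.sm).clm_apply
    ((h.sm.fderiv_of_isOpen h.op (by simp)).clm_apply contDiffOn_const)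

/-- The derivative of `polar` fixes the first basis vector. -/
theorem tb_factor_polar {β : Form1 E} {f₁ f₂ : Mod n → E} {p : Mod n} (hp : p.2.1 ≠ 0)
    (h₁ : DifferentiableAt ℝ f₁ (polar p)) (h : ∀ᶠ q in 𝓝 p, f₂ q = f₁ (polar q)) :
    tbG β f₂ p = tbG β f₁ (polar p) := by
  have hd := (tb_polar_sm hp).differentiableAt (by simp)
  have hl : ∀ q : Mod n, HasDerivAt (fun t : ℝ => q + t • ((1, 0, 0) : Mod n)) (1, 0, 0) 0 :=
    fun q => by simpa using ((hasDerivAt_id (0 : ℝ)).smul_const ((1, 0, 0) : Mod n)).const_add q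
  have h2 := hd.hasFDerivAt.comp_hasDerivAt_of_eq 0 (hl p) (by simp)
  have h3 : fderiv ℝ (polar (n := n)) p (1, 0, 0) = (1, 0, 0) :=
    h2.unique ((hl (polar p)).congr_of_eventuallyEq (Eventually.of_forall fun t => by simp [polar]))
  have h4 : f₂ =ᶠ[𝓝 p] f₁ ∘ polar := h
  rw [tbG, tbG, h4.fderiv_eq, fderiv_comp p h₁ hd, ContinuousLinearMap.comp_apply, h3,
    h.self_of_nhds]

theorem tbsym_lam1 (y : Mod n) : lam1 y (1, 0, 0) = 1 := by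
  simp [lam1, lamSt, Mod.z, Mod.w, Mod.x]

theorem tbsym_lam2 (y : Mod n) : lam2 y (1, 0, 0) = 1 := by
  simp [lam2, lamSt, Mod.z, Mod.w, Mod.x]

theorem tbsym_sign {X : Type} [TopologicalSpace X] {S : Set X} (hS : IsPreconnected S) {g : X → ℝ}
    (hg : ContinuousOn g S) (h0 : ∀ x ∈ S, g x ≠ 0) {a : X} (ha : a ∈ S) (h : 0 < g a) :
    ∀ x ∈ S, 0 < g x := fun x hx => by
  by_contra h1
  obtain ⟨y, hy, e⟩ := hS.intermediate_value hx ha hg ⟨not_lt.1 h1, h.le⟩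
  exact h0 y hy e

omit [FiniteDimensional ℝ E] in
theorem tbsym_mono {M : Set E} {β : Form1 E} {U U' : Set (Mod n)} {lam : Form1 (Mod n)}
    {f : Mod n → E} (h : CMap M β U lam f) (hU : IsOpen U') (s : U' ⊆ U) : CMap M β U' lam f :=
  ⟨hU, h.sm.mono s, h.map.mono_left s, fun y hy => h.inj y (s hy), fun y hy => h.ker y (s hy)⟩

/-- The contact charts with a common sign and a bound of the conformal factors. -/
theorem tb_germ {M : Set E} {β : Form1 E} (hβ : ContDiff ℝ ∞ β) (h : HasDisc n (CMap M β)) :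
    ∃ (zD : ℝ) (K : ℝ × ℝ → ℝ) (δ ε C : ℝ) (f₁ f₂ : Mod n → E), Small n zD K ∧ 0 < δ ∧
      CMap M β (Metric.thickening δ (Sig1 n zD K)) lam1 f₁ ∧
      CMap M β (Metric.thickening δ (Sig2b n zD K)) lam2 f₂ ∧
      TBGerm n (Metric.thickening δ (Sig1 n zD K)) (Metric.thickening δ (Sig2b n zD K)) f₁ f₂ ∧
      (∀ y ∈ Metric.thickening δ (Sig1 n zD K), 0 < ε * tbG β f₁ y ∧ ε * tbG β f₁ y < C) ∧
      ∀ y ∈ Metric.thickening δ (Sig2b n zD K), 0 < ε * tbG β f₂ y ∧ ε * tbG β f₂ y < C := by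
  obtain ⟨zD, K, U₁, U₂, f₁, f₂, hK, s₁, s₂, m₁, m₂, hc, j₁, j₂, hx⟩ := h
  obtain ⟨p, p1, p2, p3, p4⟩ := tb_corner_ne hK
  have s₂' : Sig2b n zD K ⊆ U₂ := fun y hy => s₂ hy.1
  have e := tb_factor_polar (β := β) p3
    ((m₁.sm.contDiffAt (m₁.op.mem_nhds (s₁ p4))).differentiableAt (by simp))
    (hc.filter_mono (nhds_le_nhdsSet p2))
  have n₁ : ∀ y ∈ U₁, tbG β f₁ y ≠ 0 := fun y hy => (tb_factor m₁ tbsym_lam1 hy).1
  have n₂ : ∀ y ∈ U₂, tbG β f₂ y ≠ 0 := fun y hy => (tb_factor m₂ tbsym_lam2 hy).1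
  have hε := n₂ p (s₂' p1)
  generalize hg : tbG β f₂ p = ε at e hε
  have c₁ : ContinuousOn (fun y => ε * tbG β f₁ y) U₁ :=
    continuousOn_const.mul (tb_factor_sm hβ m₁).continuousOn
  have c₂ : ContinuousOn (fun y => ε * tbG β f₂ y) U₂ :=
    continuousOn_const.mul (tb_factor_sm hβ m₂).continuousOn
  have g₁ := tbsym_sign (tb_sig1_conn hK) (c₁.mono s₁) (fun y hy => mul_ne_zero hε (n₁ y (s₁ hy)))
    p4 (by rw [← e]; exact mul_self_pos.2 hε)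
  have g₂ := tbsym_sign (tb_sig2b_conn hK) (c₂.mono s₂')
    (fun y hy => mul_ne_zero hε (n₂ y (s₂' hy))) p1 (by rw [hg]; exact mul_self_pos.2 hε)
  obtain ⟨δ, hδ, t₁, t₂, hG⟩ := tb_thick hK (c₁.isOpen_inter_preimage m₁.op isOpen_Ioi)
    (c₂.isOpen_inter_preimage m₂.op isOpen_Ioi) (fun y hy => ⟨s₁ hy, g₁ y hy⟩)
    (fun y hy => ⟨s₂' hy, g₂ y hy⟩) (m₁.sm.mono inter_subset_left) (m₂.sm.mono inter_subset_left)
    (fun y hy => m₁.inj y hy.1) (fun y hy => m₂.inj y hy.1) hc j₁ j₂ hx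
  obtain ⟨C₁, b₁⟩ := ((tb_sig1_compact hK).cthickening (r := δ)).bddAbove_image
    (c₁.mono fun y hy => (t₁ hy).1)
  obtain ⟨C₂, b₂⟩ := ((tb_sig2b_compact hK).cthickening (r := δ)).bddAbove_image
    (c₂.mono fun y hy => (t₂ hy).1)
  have u₁ := Metric.thickening_subset_cthickening δ (Sig1 n zD K)
  have u₂ := Metric.thickening_subset_cthickening δ (Sig2b n zD K)
  refine ⟨zD, K, δ, ε, max C₁ C₂ + 1, f₁, f₂, hK, hδ,
    tbsym_mono m₁ Metric.isOpen_thickening fun y hy => (t₁ (u₁ hy)).1,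
    tbsym_mono m₂ Metric.isOpen_thickening fun y hy => (t₂ (u₂ hy)).1, hG,
    fun y hy => ⟨(t₁ (u₁ hy)).2, ?_⟩, fun y hy => ⟨(t₂ (u₂ hy)).2, ?_⟩⟩
  · exact ((b₁ ⟨y, u₁ hy, rfl⟩).trans (le_max_left _ _)).trans_lt (lt_add_one _)
  · exact ((b₂ ⟨y, u₂ hy, rfl⟩).trans (le_max_right _ _)).trans_lt (lt_add_one _)

/-- The chart of the symplectisation. -/
def tbsymF (β : Form1 E) (κ c : ℝ) (f : Mod n → E) (a : ℝ × Mod n) : E × ℝ :=
  (f a.2, Real.log (a.1 / (2 * (κ * tbG β f a.2))) - c)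

omit [FiniteDimensional ℝ E] in
theorem tbsym_log {β : Form1 E} {κ c : ℝ} {f f' : Mod n → E} {a b : ℝ × Mod n}
    (ha : a.1 ∈ Ioi (1 / 2 : ℝ)) (hb : b.1 ∈ Ioi (1 / 2 : ℝ)) (h : 0 < κ * tbG β f' b.2)
    (e : tbG β f a.2 = tbG β f' b.2) (e' : tbsymF β κ c f a = tbsymF β κ c f' b) : a.1 = b.1 := by
  have h1 := congrArg Prod.snd e'
  have h2 : 0 < 2 * (κ * tbG β f' b.2) := by positivity
  simp only [tbsymF, e, sub_left_inj] at h1
  exact (div_left_inj' h2.ne').1 (Real.log_injOn_pos (div_pos (one_half_pos.trans ha) h2)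
    (div_pos (one_half_pos.trans hb) h2) h1)

theorem tbsym_chart {d : ℕ} {W : Set (E × ℝ)} {lam : Form1 (E × ℝ)} {N M : Set E} {β : Form1 E}
    (hW : Cob d W N M) (hβ : ContDiff ℝ ∞ β) {κ c : ℝ}
    (hc : ∀ p ∈ W, 1 ≤ p.2 → ∀ v ∈ Tan W p, lam p v = Real.exp (p.2 + c) * β p.1 v.1)
    {U : Set (Mod n)} {μ : Form1 (Mod n)} {f : Mod n → E} (h : CMap M β U μ f)
    (h1 : ∀ y, μ y (1, 0, 0) = 1)
    (hb : ∀ y ∈ U, 0 < κ * tbG β f y ∧ 4 * Real.exp (1 + c) * (κ * tbG β f y) < 1) :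
    ContDiffOn ℝ ∞ (tbsymF β κ c f) (Ioi (1 / 2) ×ˢ U) ∧
      MapsTo (tbsymF β κ c f) (Ioi (1 / 2) ×ˢ U) (W ∩ {p | 1 < p.2}) ∧
      ∀ a ∈ Ioi (1 / 2 : ℝ) ×ˢ U, ∀ v, (κ • lam (tbsymF β κ c f a))
        (fderiv ℝ (tbsymF β κ c f) a v) = a.1 / 2 * μ a.2 v.2 := by
  have hp : ∀ a ∈ Ioi (1 / 2 : ℝ) ×ˢ U, 0 < a.1 / (2 * (κ * tbG β f a.2)) := fun a ha =>
    div_pos (one_half_pos.trans ha.1) (mul_pos two_pos (hb _ ha.2).1)
  have hs : ContDiffOn ℝ ∞ (tbsymF β κ c f) (Ioi (1 / 2) ×ˢ U) := by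
    have g : ContDiffOn ℝ ∞ (fun a : ℝ × Mod n => tbG β f a.2) (Ioi (1 / 2) ×ˢ U) :=
      (tb_factor_sm hβ h).comp contDiffOn_snd fun a ha => ha.2
    exact (h.sm.comp contDiffOn_snd fun a ha => ha.2).prodMk
      (((contDiffOn_fst.div (contDiffOn_const.mul (contDiffOn_const.mul g))
        fun a ha => (mul_pos two_pos (hb _ ha.2).1).ne').log
        fun a ha => (hp a ha).ne').sub contDiffOn_const)
  have hm : MapsTo (tbsymF β κ c f) (Ioi (1 / 2) ×ˢ U) (W ∩ {p | 1 < p.2}) := fun a ha => by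
    have h2 : 1 < (tbsymF β κ c f a).2 := by
      change 1 < Real.log _ - c
      have h3 : 1 / 2 < a.1 := ha.1
      rw [lt_sub_iff_add_lt, Real.lt_log_iff_exp_lt (hp a ha),
        lt_div_iff₀ (mul_pos two_pos (hb _ ha.2).1)]
      linarith [(hb _ ha.2).2]
    exact ⟨(hW.top _ h2.le).2 (h.map ha.2), h2⟩
  refine ⟨hs, hm, fun a ha v => ?_⟩
  have ho := (isOpen_Ioi.prod h.op).mem_nhds ha
  have hd := (hs.contDiffAt ho).differentiableAt (by simp)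
  have hf := (h.sm.contDiffAt (h.op.mem_nhds ha.2)).differentiableAt (by simp)
  have h2 : (fderiv ℝ (tbsymF β κ c f) a v).1 = fderiv ℝ f a.2 v.2 :=
    congrArg (fun L : ℝ × Mod n →L[ℝ] E => L v)
      (hd.hasFDerivAt.fst.unique (hf.hasFDerivAt.comp a hasFDerivAt_snd))
  have h3 : fderiv ℝ (tbsymF β κ c f) a v ∈ Tan W (tbsymF β κ c f a) :=
    Tan.map hd (eventually_mem_nhdsWithin.mono fun y hy => (hm hy).1)
      (by rw [Tan.of_mem_nhds ho]; trivial)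
  have h4 := (hb _ ha.2).1.ne'
  rw [smul_apply, hc _ (hm ha).1 (hm ha).2.le _ h3, h2]
  simp only [tbsymF, sub_add_cancel, Real.exp_log (hp a ha), (tb_factor h h1 ha.2).2, smul_eq_mul]
  have h5 := left_ne_zero_of_mul h4
  have h6 := right_ne_zero_of_mul h4
  field_simp

/-- The two charts of the symplectisation. -/
theorem tb_sym {W : Set (E × ℝ)} {lam : Form1 (E × ℝ)} {N M : Set E} {α β : Form1 E}
    (hX : XCob n W lam N α M β) (h : HasDisc n (CMap M β)) :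
    ∃ (zD : ℝ) (K : ℝ × ℝ → ℝ) (δ κ : ℝ) (F₁ F₂ : ℝ × Mod n → E × ℝ), Small n zD K ∧ 0 < δ ∧
      κ ≠ 0 ∧ TBSym n (W ∩ {p | 1 < p.2}) (fun p => κ • lam p) (Metric.thickening δ (Sig1 n zD K))
        (Metric.thickening δ (Sig2b n zD K)) F₁ F₂ := by
  obtain ⟨zD, K, δ, ε, C, f₁, f₂, hK, hδ, m₁, m₂, hG, b₁, b₂⟩ := tb_germ hX.cM.sm h
  obtain ⟨c, hc⟩ := hX.top
  obtain ⟨p, -, -, -, p4⟩ := tb_corner_ne hK
  obtain ⟨q1, q2⟩ := b₁ _ (Metric.self_subset_thickening hδ _ p4)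
  have hC : 0 < C := q1.trans q2
  have hε : ε ≠ 0 := left_ne_zero_of_mul q1.ne'
  have hA : 0 < 4 * C * Real.exp (1 + c) := by positivity
  have hb : ∀ g : ℝ, 0 < ε * g ∧ ε * g < C → 0 < ε / (4 * C * Real.exp (1 + c)) * g ∧
      4 * Real.exp (1 + c) * (ε / (4 * C * Real.exp (1 + c)) * g) < 1 := fun g hg => by
    have e : 4 * Real.exp (1 + c) * (ε / (4 * C * Real.exp (1 + c)) * g) = ε * g / C := by
      field_simp
    rw [e, div_mul_eq_mul_div]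
    exact ⟨div_pos hg.1 hA, (div_lt_one hC).2 hg.2⟩
  have hκ : ε / (4 * C * Real.exp (1 + c)) ≠ 0 := div_ne_zero hε hA.ne'
  generalize ε / (4 * C * Real.exp (1 + c)) = κ at hb hκ
  obtain ⟨r1, r2, r3⟩ := tbsym_chart hX.cob hX.cM.sm hc m₁ tbsym_lam1 fun y hy => hb _ (b₁ y hy)
  obtain ⟨s1, s2, s3⟩ := tbsym_chart hX.cob hX.cM.sm hc m₂ tbsym_lam2 fun y hy => hb _ (b₂ y hy)
  have hg : ∀ y ∈ Metric.thickening δ (Sig2b n zD K), y.2.1 ≠ 0 →
      polar y ∈ Metric.thickening δ (Sig1 n zD K) → tbG β f₂ y = tbG β f₁ (polar y) :=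
    fun y h1 h2 h3 => by
      refine tb_factor_polar h2
        ((m₁.sm.contDiffAt (m₁.op.mem_nhds h3)).differentiableAt (by simp)) ?_
      filter_upwards [m₂.op.mem_nhds h1,
        (continuous_snd.fst.continuousAt (x := y)).eventually_ne h2,
        (tb_polar_sm h2).continuousAt.eventually (m₁.op.mem_nhds h3)] with z z1 z2 z3
      exact hG.agree z z1 z2 z3
  refine ⟨zD, K, δ, κ, tbsymF β κ c f₁, tbsymF β κ c f₂, hK, hδ, hκ, m₁.op, m₂.op, r1, s1, r2, s2,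
    fun a ha b hb' e => ?_, fun a ha b hb' e => ?_, fun a ha b hb' e => ?_, fun a ha h2 h3 => ?_,
    r3, s3⟩
  · have e1 := hG.inj₁ ha.2 hb'.2 (congrArg Prod.fst e)
    exact Prod.ext (tbsym_log ha.1 hb'.1 (hb _ (b₁ _ hb'.2)).1 (by rw [e1]) e) e1
  · have e1 := hG.inj₂ ha.2 hb'.2 (congrArg Prod.fst e)
    exact Prod.ext (tbsym_log ha.1 hb'.1 (hb _ (b₂ _ hb'.2)).1 (by rw [e1]) e) e1
  · obtain ⟨e1, e2⟩ := hG.cross _ ha.2 _ hb'.2 (congrArg Prod.fst e)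
    exact ⟨e1, Prod.ext (tbsym_log ha.1 hb'.1 (hb _ (b₁ _ hb'.2)).1
      (by rw [hg _ ha.2 e1 (e2 ▸ hb'.2), e2]) e).symm e2⟩
  · rw [tbsymF, tbsymF, hG.agree _ ha.2 h2 h3, hg _ ha.2 h2 h3]

end Pool.Agent.Lib.MP_ccffa6_gt
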