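import Pool.Agent.Lib.MP_ccffa6_gt.T.BGraph
import Pool.Agent.Lib.MP_ccffa6_gt.T.BInv

/-!
The linear involution, and the symmetrisation of `ν` and `J`.
-/

open Set Filter Topology
open scoped ContDiff

noncomputable section

namespace Pool.Agent.Lib.MP_ccffa6_gt

variable {V : Type} [NormedAddCommGroup V] [NormedSpace ℝ V] [FiniteDimensional ℝ V] {k : ℕ}

omit [FiniteDimensional ℝ V] in
theorem TD.OK0.inv {T : TD k V} (h : T.OK0) : TBInv T.W T.O T.U T.Θ T.Cc :=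
  ⟨h.opO, h.opU, h.smΘ, h.smC, h.CΘ, h.ΘC⟩

theorem tbsymm_open (k : ℕ) : IsOpen {h : Cm k | ∀ j, j ≠ 0 → h j ≠ 0} := by
  rw [ofPred_forall]
  refine isOpen_iInter_of_finite fun j => ?_
  by_cases hj : j = 0
  · simp [hj]
  · simpa [hj] using isOpen_ne_fun (f := fun h : Cm k => h j) (by fun_prop) continuous_const

omit [FiniteDimensional ℝ V] in
theorem tbsymm_larc {T : TD k V} (h : T.OK0) {l : ℝ} (hl : l < T.l) :
    LarcC k (-l) (T.D + l) ⊆ T.O := fun a ha =>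
  h.lag ⟨ha.1, by linarith [ha.2.1], by linarith [ha.2.2]⟩

/-- The graph of an extension of `Θ ∘ sig ∘ Cc`. -/
theorem tb_invol {T : TD k V} (h : T.OK0) {l : ℝ} (hl : l < T.l) :
    ∃ (σ : V → V) (Vs : Set (V × V)), ContDiff ℝ ∞ σ ∧ (∀ y, T.s y < 0 → σ y = 0) ∧
      (T.graph σ Vs).OKS l := by
  have hL := tbsymm_larc h hl
  obtain ⟨σ, sσ, e, hs, -⟩ := exists_smooth_nhdsSet
    ((tb_larc_compact k (-l) (T.D + l)).image h.smΘ.continuous).isClosed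
    (U := {y | 0 < T.s y} ∩ T.Cc ⁻¹' {h | ∀ j, j ≠ 0 → h j ≠ 0})
    ((isOpen_lt continuous_const T.s.continuous).inter ((tbsymm_open k).preimage h.smC.continuous))
    (by
      rintro _ ⟨a, ha, rfl⟩
      refine ⟨(h.mid a (hL ha)).2, ?_⟩
      rw [mem_preimage, (h.CΘ a (hL ha)).2.2]
      exact (tb_sig_lag ha.1).2)
    (f := fun y => T.Θ (sig (T.Cc y)))
    (fun y hy => (h.smΘ.contDiffAt.comp y
      ((tb_sig_sm hy.2).comp y h.smC.contDiffAt)).contDiffWithinAt)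
  obtain ⟨G, hG, hAG, hGe⟩ := eventually_nhdsSet_iff_exists.1 e
  set O₁ : Set (Cm k) := T.O ∩ T.Θ ⁻¹' G ∩ {h | ∀ j, j ≠ 0 → h j ≠ 0} with hO₁
  have o₁ : IsOpen O₁ := (h.opO.inter (hG.preimage h.smΘ.continuous)).inter (tbsymm_open k)
  have o₂ : IsOpen (O₁ ∩ sig ⁻¹' O₁) := ContinuousOn.isOpen_inter_preimage
    (fun a ha => (tb_sig_sm ha.2).continuousAt.continuousWithinAt) o₁ o₁
  have o₃ : IsOpen (T.U ∩ T.Cc ⁻¹' (O₁ ∩ sig ⁻¹' O₁)) := h.opU.inter (o₂.preimage h.smC.continuous)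
  have hσ : ∀ a ∈ O₁, σ (T.Θ a) = T.Θ (sig a) := fun a ha => by
    rw [hGe _ ha.1.2, (h.CΘ a ha.1.1).2.2]
  refine ⟨σ, _ ×ˢ _, sσ, fun y hy => ?_, fun _ => rfl, o₃.prod o₃, fun y hy => ⟨hy.2, hy.1⟩,
    fun y hy => hy.2.1.1, fun a ha => ?_, fun a ha hv => ?_⟩
  · exact image_eq_zero_of_notMem_tsupport fun hh => absurd (hs hh).1 (not_lt.2 hy.le)
  · have h1 : a ∈ O₁ := ⟨⟨hL ha, hAG (mem_image_of_mem _ ha)⟩, (tb_sig_lag ha.1).2⟩
    have h2 : T.Θ a ∈ T.U ∩ T.Cc ⁻¹' (O₁ ∩ sig ⁻¹' O₁) := ⟨(h.CΘ a (hL ha)).2.1, by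
      rw [mem_preimage, (h.CΘ a (hL ha)).2.2]
      exact ⟨h1, by rwa [mem_preimage, (tb_sig_lag ha.1).1]⟩⟩
    refine ⟨h2, ?_⟩
    change σ (T.Θ a) ∈ _
    rwa [hσ a h1, (tb_sig_lag ha.1).1]
  · have h2 : T.Cc (T.Θ a) ∈ O₁ ∩ sig ⁻¹' O₁ := hv.1.2
    rw [(h.CΘ a ha).2.2] at h2
    refine ⟨h2.1.2, h2.2.1.1, ?_⟩
    change (T.Θ (sig a), σ (T.Θ (sig a))) = (σ (T.Θ a), T.Θ a)
    rw [hσ a h2.1, hσ _ h2.2, tb_sig_sig]

/-- The involution preserves `W` and anticommutes with `J` on it. -/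
theorem tb_anti {T : TD k V} (h : T.OK0) {l : ℝ} (hS : T.OKS l) {y : V} (hy : y ∈ T.W)
    (hV : y ∈ T.Vs) : T.S y ∈ T.W ∧ ∀ v ∈ Tan T.W y, T.S v ∈ Tan T.W (T.S y) ∧
      T.J (T.S y) (T.S v) = -T.S (T.J y v) := by
  obtain ⟨ha, ey⟩ := h.ΘC y hy (hS.VsU ⟨hy, hV⟩)
  generalize T.Cc y = a at ha ey
  subst ey
  obtain ⟨s1, s2, s3⟩ := hS.SΘ a ha hV
  have e : T.Θ ∘ sig =ᶠ[𝓝 a] T.S ∘ T.Θ := by
    filter_upwards [h.opO.mem_nhds ha,
      h.smΘ.continuous.continuousAt.preimage_mem_nhds (hS.opVs.mem_nhds hV)] with z z1 z2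
    exact (hS.SΘ z z1 z2).2.2
  have dΘ := h.smΘ.differentiable (by simp)
  have hd : ∀ X, fderiv ℝ T.Θ (sig a) (fderiv ℝ sig a X) = T.S (fderiv ℝ T.Θ a X) := fun X =>
    congrArg (fun A => A X)
      ((((dΘ _).hasFDerivAt.comp a
        ((tb_sig_sm s1).differentiableAt (by simp)).hasFDerivAt).congr_of_eventuallyEq
          e.symm).unique (T.S.hasFDerivAt.comp a (dΘ a).hasFDerivAt))
  rw [← s3]
  refine ⟨(h.CΘ _ s2).1, fun v hv => ?_⟩
  obtain ⟨X, rfl⟩ := (h.inv.mem_tan ha v).1 hv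
  refine ⟨(h.inv.mem_tan s2 _).2 ⟨_, hd X⟩, ?_⟩
  rw [h.hol a ha, ← hd, ← hd, h.hol _ s2, tb_sig_anti s1, map_neg, neg_neg]

/-- An invariant cut-off region. -/
theorem tb_cut {S : V →L[ℝ] V} (hS : ∀ v, S (S v) = v) {Vs A : Set V} (ho : IsOpen Vs)
    (hA : IsCompact A) (hAV : A ⊆ Vs) (hfix : ∀ y ∈ A, S y = y) :
    ∃ (χ : V → ℝ) (V₀ : Set V), ContDiff ℝ ∞ χ ∧ tsupport χ ⊆ Vs ∧ IsOpen V₀ ∧ A ⊆ V₀ ∧ V₀ ⊆ Vs ∧
      (∀ y ∈ V₀, S y ∈ V₀) ∧ ∀ y ∈ V₀, χ y = 1 := by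
  obtain ⟨χ, s, -, h1, hs, -⟩ := exists_cutoff hA.isClosed ho hAV
  obtain ⟨G, hG, hAG, hGe⟩ := eventually_nhdsSet_iff_exists.1 h1
  refine ⟨χ, G ∩ S ⁻¹' G, s, hs, hG.inter (hG.preimage S.continuous), fun y hy =>
    ⟨hAG hy, by rw [mem_preimage, hfix y hy]; exact hAG hy⟩, fun y hy => hs (subset_tsupport _ ?_),
    fun y hy => ⟨hy.2, by rw [mem_preimage, hS]; exact hy.1⟩, fun y hy => hGe y hy.1⟩
  simp [hGe y hy.1]

omit [FiniteDimensional ℝ V] in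
theorem tb_symm_nu {W Vs : Set V} {S : V →L[ℝ] V} (hS : ∀ v, S (S v) = v) {ν : V → V}
    (hν : TBNu W ν) (hV : ∀ y ∈ Vs, S y ∈ Vs)
    (hW : ∀ y ∈ W, y ∈ Vs → S y ∈ W ∧ ∀ v ∈ Tan W y, S v ∈ Tan W (S y)) {χ : V → ℝ}
    (hχ : ContDiff ℝ ∞ χ) (hs : tsupport χ ⊆ Vs) :
    ∃ ν', TBNu W ν' ∧ ∀ y, χ y = 1 → χ (S y) = 1 → ν' (S y) = S (ν' y) := by
  have s1 : ContDiff ℝ ∞ fun y => S (ν (S y)) - ν y :=
    (S.contDiff.comp (hν.sm.comp S.contDiff)).sub hν.sm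
  have dν := hν.sm.differentiable (by simp)
  refine ⟨fun y => ν y + (χ y / 2) • (S (ν (S y)) - ν y),
    ⟨hν.sm.add ((hχ.div_const 2).smul s1), fun y hy => ?_, fun y hy v => ?_⟩, fun y h1 h2 => ?_⟩
  · by_cases h : y ∈ tsupport χ
    · simp [hν.zero y hy, hν.zero _ (hW y hy (hs h)).1]
    · simp [hν.zero y hy, image_eq_zero_of_notMem_tsupport h]
  · by_cases h : y ∈ tsupport χ
    · have hy' := (hW y hy (hs h)).1
      have d := (dν y).hasFDerivAt.add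
        ((((hχ.div_const 2).differentiable (by simp)) y).hasFDerivAt.smul
          ((S.hasFDerivAt.comp y ((dν (S y)).hasFDerivAt.comp y S.hasFDerivAt)).sub
            (dν y).hasFDerivAt))
      have t := (hW _ hy' (hV y (hs h))).2 _ (hν.der _ hy' (S v))
      rw [hS, map_sub, hS] at t
      have e : fderiv ℝ (fun y => ν y + (χ y / 2) • (S (ν (S y)) - ν y)) y v - v =
          (1 - χ y / 2) • (fderiv ℝ ν y v - v) + (χ y / 2) • (S (fderiv ℝ ν (S y) (S v)) - v) := by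
        rw [show fderiv ℝ (fun y => ν y + (χ y / 2) • (S (ν (S y)) - ν y)) y = _ from d.fderiv]
        simp [hν.zero y hy, hν.zero _ hy']
        module
      rw [e]
      exact Submodule.add_mem _ (Submodule.smul_mem _ _ (hν.der y hy v)) (Submodule.smul_mem _ _ t)
    · have e : (fun y => ν y + (χ y / 2) • (S (ν (S y)) - ν y)) =ᶠ[𝓝 y] ν := by
        filter_upwards [notMem_tsupport_iff_eventuallyEq.1 h] with z hz
        simp [hz]
      rw [e.fderiv_eq]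
      exact hν.der y hy v
  · simp only [h1, h2, hS, map_add, map_smul, map_sub]
    module

omit [FiniteDimensional ℝ V] in
theorem tb_symm_J {W Vs : Set V} {S : V →L[ℝ] V} (hS : ∀ v, S (S v) = v) {J : V → V →L[ℝ] V}
    (hJ : ContDiff ℝ ∞ J)
    (hW : ∀ y ∈ W, y ∈ Vs → ∀ v ∈ Tan W y, J (S y) (S v) = -S (J y v)) {χ : V → ℝ}
    (hχ : ContDiff ℝ ∞ χ) (hs : tsupport χ ⊆ Vs) :
    ∃ J' : V → V →L[ℝ] V, ContDiff ℝ ∞ J' ∧ (∀ y ∈ W, ∀ v ∈ Tan W y, J' y v = J y v) ∧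
      ∀ y, χ y = 1 → χ (S y) = 1 → ∀ v, J' (S y) (S v) = -S (J' y v) := by
  refine ⟨fun y => J y + (χ y / 2) • (-(S.comp ((J (S y)).comp S)) - J y),
    hJ.add ((hχ.div_const 2).smul ((contDiff_const.clm_comp
      ((hJ.comp S.contDiff).clm_comp contDiff_const)).neg.sub hJ)), fun y hy v hv => ?_,
    fun y h1 h2 v => ?_⟩
  · by_cases h : y ∈ tsupport χ
    · simp [hW y hy (hs h) v hv, hS]
    · simp [image_eq_zero_of_notMem_tsupport h]
  · simp only [h1, h2, hS, add_apply, smul_apply, sub_apply, neg_apply,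
      ContinuousLinearMap.comp_apply, map_add, map_smul, map_sub, map_neg]
    module

/-- The final data. -/
theorem tb_final {T : TD k V} (h : T.OK0) {l : ℝ} (hS : T.OKS l) (h1 : 1 < l) (hl : l < T.l) :
    ∃ T' : TD k V, T'.OK ∧ T'.l = l := by
  have hL := tbsymm_larc h hl
  have hfix : ∀ a ∈ LarcC k (-l) (T.D + l), T.S (T.Θ a) = T.Θ a := fun a ha => by
    rw [← (hS.SΘ a (hL ha) (hS.LVs a ha)).2.2, (tb_sig_lag ha.1).1]
  obtain ⟨χ, V₀, sχ, hs, o₀, hA, hV, hSV, hχ⟩ := tb_cut hS.SS hS.opVs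
    ((tb_larc_compact k (-l) (T.D + l)).image h.smΘ.continuous)
    (by rintro _ ⟨a, ha, rfl⟩; exact hS.LVs a ha) (by rintro _ ⟨a, ha, rfl⟩; exact hfix a ha)
  obtain ⟨ν₀, hν₀⟩ := tb_nu h.sub h.clW
  obtain ⟨ν, hν, eν⟩ := tb_symm_nu hS.SS hν₀ hS.SVs (fun y hy hv =>
    ⟨(tb_anti h hS hy hv).1, fun v t => ((tb_anti h hS hy hv).2 v t).1⟩) sχ hs
  obtain ⟨J, sJ, j1, j2⟩ := tb_symm_J hS.SS h.smJ
    (fun y hy hv v t => ((tb_anti h hS hy hv).2 v t).2) sχ hs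
  set O : Set (Cm k) := T.O ∩ {a | -l < (a 0).im ∧ (a 0).im < T.D + l} with hO
  have cI : Continuous fun a : Cm k => (a 0).im := by fun_prop
  have oO : IsOpen O :=
    h.opO.inter ((isOpen_lt continuous_const cI).inter (isOpen_lt cI continuous_const))
  have hI := h.inv.shrink oO inter_subset_left
  have mP : BoxP k l ⊆ BoxP k T.l := fun a ha j => (ha j).trans hl
  have mM : BoxM k l T.D ⊆ BoxM k T.l T.D := fun a ha =>
    ⟨ha.1.trans hl, ha.2.1, ha.2.2.1.trans hl, fun j h0 h1 => (ha.2.2.2 j h0 h1).trans hl⟩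
  have mL : Larc k (-l) (T.D + l) ⊆ Larc k (-T.l) (T.D + T.l) := fun a ha =>
    ⟨ha.1, by linarith [ha.2.1], by linarith [ha.2.2]⟩
  have mC : Larc k (-l) (T.D + l) ⊆ LarcC k (-l) (T.D + l) := fun a ha =>
    ⟨ha.1, ha.2.1.le, ha.2.2.le⟩
  have hD := h.D0
  refine ⟨{ T with
    ν := ν
    J := J
    Vs := V₀ ∩ (T.U ∩ T.Cc ⁻¹' O) ∩ T.S ⁻¹' (T.U ∩ T.Cc ⁻¹' O)
    l := l
    O := O
    U := T.U ∩ T.Cc ⁻¹' O }, ?_, rfl⟩
  exact
    { clW := h.clW
      smν := hν.sm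
      ν0 := hν.zero
      tan := fun y hy v => hν.tan hy v
      idem := fun y hy v => hν.idem hy v
      loc := fun y hy => hν.loc h.sub hy
      smJ := sJ
      mapJ := fun y hy v hv => by
        have := h.mapJ y hy v hv
        simp only [j1 y hy v hv, j1 y hy _ this.1]
        exact this
      smlam := h.smlam
      tame := fun y hy v hv h0 => by
        simp only [j1 y hy v hv]
        exact h.tame y hy v hv h0
      SS := hS.SS
      opVs := (o₀.inter hI.opU).inter (hI.opU.preimage T.S.continuous)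
      SVs := fun y hy => ⟨⟨hSV y hy.1.1, hy.2⟩, by
        rw [mem_preimage]
        simp only [hS.SS]
        exact hy.1.2⟩
      Sν := fun y hy => eν y (hχ y hy.1.1) (hχ _ (hSV y hy.1.1))
      SJ := fun y hy => j2 y (hχ y hy.1.1) (hχ _ (hSV y hy.1.1))
      VsU := fun y hy => hy.2.1.2
      LVs := fun a ha => by
        have := (hI.CΘ a ⟨hL (mC ha), ha.2⟩).2.1
        refine ⟨⟨hA (mem_image_of_mem _ (mC ha)), this⟩, ?_⟩
        rw [mem_preimage]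
        simp only [hfix a (mC ha)]
        exact this
      SΘ := fun a ha hv => by
        obtain ⟨s1, s2, s3⟩ := hS.SΘ a ha.1 (hV hv.1.1)
        exact ⟨s1, ⟨s2, by simpa [sig] using ha.2⟩, s3⟩
      cyl := h.cyl
      bot := h.bot
      botJ := fun y hy h0 v hv => by
        simp only [j1 y hy v hv]
        exact h.botJ y hy h0 v hv
      smb := h.smb
      top := fun y hy h0 v hv => by
        simp only [j1 y hy v hv]
        exact h.top y hy h0 v hv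
      cpt := h.cpt
      l1 := h1
      D0 := hD
      opO := oO
      opU := hI.opU
      smΘ := h.smΘ
      smC := h.smC
      boxP := fun a ha => by
        have := abs_lt.1 ((Complex.abs_im_le_norm (a 0)).trans_lt (ha 0))
        exact ⟨h.boxP (mP ha), this.1, by linarith [this.2]⟩
      boxM := fun a ha => by
        have := abs_lt.1 ((Complex.abs_im_le_norm _).trans_lt ha.1)
        simp only [Complex.sub_im, Complex.mul_im, Complex.ofReal_re, Complex.I_im, mul_one,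
          Complex.ofReal_im, Complex.I_re, mul_zero, add_zero] at this
        exact ⟨h.boxM (mM ha), by linarith [this.1], by linarith [this.2]⟩
      lagO := Subset.antisymm (fun a ha => ⟨ha.1, ha.2.2⟩) fun a ha => ⟨ha.1, hL (mC ha), ha.2⟩
      CΘ := hI.CΘ
      ΘC := hI.ΘC
      mid := fun a ha => h.mid a ha.1
      hol := fun a ha X => by
        simp only [j1 _ (h.CΘ a ha.1).1 _ ((h.inv.mem_tan ha.1 _).2 ⟨X, rfl⟩)]
        exact h.hol a ha.1 X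
      omP := fun a ha => h.omP a (mP ha)
      omM := fun a ha => h.omM a (mM ha)
      per := fun a ha => h.per a (mL ha) }

end Pool.Agent.Lib.MP_ccffa6_gt
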