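import Pool.Agent.Lib.MP_ccffa6_gt.T.Iface
import Pool.Agent.Lib.MP_ccffa6_gt.T.BSym
import Pool.Agent.Lib.MP_ccffa6_gt.T.BMid
import Pool.Agent.Lib.MP_ccffa6_gt.T.BChart
import Pool.Agent.Lib.MP_ccffa6_gt.T.BPre
import Pool.Agent.Lib.MP_ccffa6_gt.T.BSymm

/-!
The bridge from an exact cobordism with an overtwisted disc to the data of block T.
-/

open Set Filter Topology
open scoped ContDiff

noncomputable section

namespace Pool.Agent.Lib.MP_ccffa6_gt

variable {E : Type} [NormedAddCommGroup E] [NormedSpace ℝ E] [FiniteDimensional ℝ E]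

omit [FiniteDimensional ℝ E] in
theorem tb_dF_const {α : Form1 E} (hα : ContDiff ℝ ∞ α) (κ : ℝ) (x : E) :
    dF (fun x => κ • α x) x = κ • dF α x := by
  have : fderiv ℝ (fun x => κ • α x) x = κ • fderiv ℝ α x :=
    fderiv_const_smul (hα.differentiable (by simp) x) κ
  ext u v
  simp [dF, this, mul_sub]

theorem tb_xcob_smul {n : ℕ} {W : Set (E × ℝ)} {lam : Form1 (E × ℝ)} {N M : Set E}
    {α β : Form1 E} (h : XCob n W lam N α M β) {κ : ℝ} (hκ : κ ≠ 0) :
    XCob n W (fun p => κ • lam p) N (fun x => κ • α x) M (fun x => κ • β x) where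
  cob := h.cob
  cN := h.cN.smul contDiff_const fun _ _ => hκ
  cM := h.cM.smul contDiff_const fun _ _ => hκ
  sm := h.sm.const_smul κ
  nd p hp := by
    rw [tb_dF_const h.sm]
    exact (h.nd p hp).smul hκ
  bot p hp h0 v hv := by
    simp only [smul_apply, smul_eq_mul, h.bot p hp h0 v hv]
    ring
  top := by
    obtain ⟨c, hc⟩ := h.top
    refine ⟨c, fun p hp h1 v hv => ?_⟩
    simp only [smul_apply, smul_eq_mul, hc p hp h1 v hv]
    ring

omit [FiniteDimensional ℝ E] in
theorem tb_hyp_smul {N : Set E} {α : Form1 E} (hα : ContDiff ℝ ∞ α) (h : Hyp N α) {κ : ℝ}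
    (hκ : κ ≠ 0) : Hyp N (fun x => κ • α x) := by
  intro γ γ' T hT hp hm hd hr
  have hk : 0 < |κ| := abs_pos.2 hκ
  have hper : Function.Periodic γ T := hp
  have hper' : Function.Periodic γ' T := fun t => by
    have h1 : HasDerivAt (fun s => γ (s + T)) (γ' (t + T)) t := (hd (t + T)).comp_add_const t T
    rw [show (fun s => γ (s + T)) = γ from funext hp] at h1
    exact h1.unique (hd t)
  have hκT : κ * (T / |κ|) = T ∨ κ * (T / |κ|) = -T := by
    rcases hκ.lt_or_gt with h0 | h0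
    · right
      rw [abs_of_neg h0]
      field_simp
    · left
      rw [abs_of_pos h0]
      field_simp
  obtain ⟨θ, h1, h2, h3⟩ := h (fun t => γ (κ * t)) (fun t => κ • γ' (κ * t)) (T / |κ|)
    (div_pos hT hk)
    (fun t => by
      rw [mul_add]
      rcases hκT with e | e <;> rw [e]
      exacts [hper _, hper.neg _])
    (fun t => hm _)
    (fun t => by
      have := (hd (κ * t)).scomp t ((hasDerivAt_id t).const_mul κ)
      rwa [mul_one] at this)
    (fun t => by
      obtain ⟨r1, r2, r3⟩ := hr (κ * t)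
      refine ⟨Submodule.smul_mem _ _ r1, by simpa using r2, fun w hw => ?_⟩
      have := r3 w hw
      rw [tb_dF_const hα] at this
      simpa using this)
  refine ⟨θ, h1, h2, fun h0 => h3 ?_⟩
  have hf : Function.Periodic (fun t => θ (γ t) (γ' t)) T := fun t => by
    simp only [hper t, hper' t]
  simp only [map_smul, smul_eq_mul]
  rw [intervalIntegral.integral_const_mul,
    ← smul_eq_mul, intervalIntegral.smul_integral_comp_mul_left (fun t => θ (γ t) (γ' t)), mul_zero]
  rcases hκT with e | e <;> rw [e]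
  · exact h0
  · have := hf.intervalIntegral_add_eq (-T) 0
    rw [neg_add_cancel, zero_add, h0] at this
    rw [intervalIntegral.integral_symm, this, neg_zero]

theorem t_bridge {k : ℕ} (hk : 1 ≤ k) : BridgeStmt k := by
  intro E _ _ _ W lam N α M β hX hH hD l hl
  obtain ⟨zD, K, δ, κ, F₁, F₂, hK, hδ, hκ, hS⟩ := tb_sym hX hD
  have hX' := tb_xcob_smul hX hκ
  obtain ⟨D, δ', M', T, b, O₁, O₂, Θ, hT, hb, hM⟩ :=
    tb_mid hk hK hδ hS (l := l + 2) (by linarith)
  obtain ⟨T₀, h₀, e₀⟩ := tb_pre hX' (tb_hyp_smul hX.cN.sm hH hκ) (l := l + 1) (by linarith)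
    (tb_chart hX'.sm (by linarith) hT hb hM)
  have hl₀ : l < T₀.l := by linarith
  obtain ⟨σ, Vs, hσ, h0, hs⟩ := tb_invol h₀ hl₀
  obtain ⟨T', h', e'⟩ := tb_final (h₀.graph hσ h0 Vs) hs hl hl₀
  exact ⟨_, _, _, inferInstance, T', h', e'⟩

end Pool.Agent.Lib.MP_ccffa6_gt
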