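import Pool.Agent.Lib.MP_ccffa6_gt.T.BDef
import Pool.Agent.Lib.MP_ccffa6_gt.T.BArc

/-!
The model: coordinates on `ℂ^(k+2)` for the symplectisation near the arc.
-/

open Set Filter Topology
open scoped ContDiff ComplexConjugate Real

noncomputable section

namespace Pool.Agent.Lib.MP_ccffa6_gt

/-- The Jacobian of `ζ ↦ (m, z)`. -/
def tbJ (T : ℂ → ℝ × ℝ) (ζ : ℂ) : ℝ :=
  (fderiv ℝ T ζ 1).1 * (fderiv ℝ T ζ Complex.I).2 - (fderiv ℝ T ζ Complex.I).1 * (fderiv ℝ T ζ 1).2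

/-- The map `ζ ↦ (m, z)`. -/
structure TBPlane (n : ℕ) (zD : ℝ) (K : ℝ × ℝ → ℝ) (l D δ M : ℝ) (T : ℂ → ℝ × ℝ) : Prop where
  sm : ContDiff ℝ ∞ T
  inj : InjOn T {ζ | |ζ.re| < l}
  jac : ∀ ζ : ℂ, |ζ.re| < l → 0 < tbJ T ζ
  jacP : ∀ ζ : ℂ, ‖ζ‖ < l → tbJ T ζ = 2
  jacM : ∀ ζ : ℂ, ‖ζ - D * Complex.I‖ < l → tbJ T ζ = 2
  D2 : 2 * l ≤ D
  posP : ∀ ζ : ℂ, ‖ζ‖ < l → M ≤ (T ζ).1 ∧ |(T ζ).2 + 1| < δ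
  posM : ∃ z₁, (M, z₁) ∈ tbY1 n zD K ∧
    ∀ ζ : ℂ, ‖ζ - D * Complex.I‖ < l → M ≤ (T ζ).1 ∧ |(T ζ).2 - z₁| < δ
  arc : ∀ y ∈ Icc l (D - l), ∃ a ∈ tbY1 n zD K ∪ tbY2 n K, ‖T (y * Complex.I) - a‖ < δ

/-- The correction of `|w|²` for small `|w|`, as a function of `log |w|`. -/
structure TBBeta (b : ℝ → ℝ) : Prop where
  sm : ContDiff ℝ ∞ b
  zero : ∀ ρ, -1 / 4 ≤ ρ → b ρ = 0
  der : ∀ ρ, deriv b ρ ∈ Icc (0 : ℝ) 1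
  one : ∀ ρ, ρ < -1 / 2 → deriv b ρ = 1

/-- `μ = |w|² + b (log |w|)`. -/
def tbMu (b : ℝ → ℝ) (w : ℂ) : ℝ := ‖w‖ ^ 2 + b (Real.log ‖w‖)

variable {k : ℕ}

/-- The point with coordinates `z`, `e^(μ / m) w / |w|`, `x / √m`. -/
def tbQ1 (a : ℝ × ℝ) (μ : ℝ) (w : ℂ) (x : Fin k → ℂ) : Mod (k + 1) :=
  (a.2, ((Real.exp (μ / a.1) / ‖w‖ : ℝ) : ℂ) * w, fun j : Fin k => x j / (√a.1 : ℝ))

/-- The point with coordinates `z`, `w / √m`, `x / √m`. -/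
def tbQ2 (a : ℝ × ℝ) (w : ℂ) (x : Fin k → ℂ) : Mod (k + 1) :=
  (a.2, w / (√a.1 : ℝ), fun j : Fin k => x j / (√a.1 : ℝ))

/-- The coordinates `x`. -/
def tbX (h : Cm k) : Fin k → ℂ := fun j => h j.succ.succ

/-- The first chart: `h ↦ (m, point)`. -/
def tbP1 (T : ℂ → ℝ × ℝ) (b : ℝ → ℝ) (h : Cm k) : ℝ × Mod (k + 1) :=
  ((T (h 0)).1, tbQ1 (T (h 0)) (tbMu b (h 1)) (h 1) (tbX h))

/-- The second chart. -/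
def tbP2 (T : ℂ → ℝ × ℝ) (h : Cm k) : ℝ × Mod (k + 1) :=
  ((T (h 0)).1, tbQ2 (T (h 0)) (h 1) (tbX h))

/-- The `j`-th coordinate as a real linear map. -/
def tbPr (j : Fin (k + 2)) : Cm k →L[ℝ] ℂ :=
  (EuclideanSpace.proj j : Cm k →L[ℂ] ℂ).restrictScalars ℝ

@[simp] theorem tbPr_apply (j : Fin (k + 2)) (h : Cm k) : tbPr j h = h j := rfl

/-- `m dz` on the `ζ` plane. -/
def tbA0 (T : ℂ → ℝ × ℝ) : Form1 ℂ := fun ζ =>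
  (T ζ).1 • (ContinuousLinearMap.snd ℝ ℝ ℝ).comp (fderiv ℝ T ζ)

/-- `1/2 (m dz + φ(w) |w|² dθ + ∑ |x_j|² dθ_j)`. -/
def tbForm (T : ℂ → ℝ × ℝ) (φ : ℂ → ℝ) : Form1 (Cm k) := fun h =>
  (1 / 2 : ℝ) • ((tbA0 T (h 0)).comp (tbPr 0) + φ (h 1) • (ang (h 1)).comp (tbPr 1) +
    ∑ j : Fin k, (ang (h j.succ.succ)).comp (tbPr j.succ.succ))

/-- The coefficient in the first chart. -/
def tbPhi (b : ℝ → ℝ) (w : ℂ) : ℝ := tbMu b w / ‖w‖ ^ 2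

/-- The chart with the explicit pulled back forms. -/
structure TBMid {V : Type} [NormedAddCommGroup V] [NormedSpace ℝ V] (Y : Set V) (Λ : Form1 V)
    (l D : ℝ) (T : ℂ → ℝ × ℝ) (b : ℝ → ℝ) (O₁ O₂ : Set (Cm k)) (Θ : Cm k → V) : Prop where
  op₁ : IsOpen O₁
  op₂ : IsOpen O₂
  sm : ContDiffOn ℝ ∞ Θ (O₁ ∪ O₂)
  inj : InjOn Θ (O₁ ∪ O₂)
  map : MapsTo Θ (O₁ ∪ O₂) Y
  strip : ∀ h ∈ O₁ ∪ O₂, |(h 0).re| < l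
  ne : ∀ h ∈ O₁, h 1 ≠ 0
  boxP : BoxP k l ⊆ O₂
  boxM : BoxM k l D ⊆ O₁
  lag : Larc k (-l) (D + l) ⊆ O₁ ∪ O₂
  pull₁ : ∀ h ∈ O₁, ∀ X, Λ (Θ h) (fderiv ℝ Θ h X) = tbForm T (tbPhi b) h X
  pull₂ : ∀ h ∈ O₂, ∀ X, Λ (Θ h) (fderiv ℝ Θ h X) = tbForm T (fun _ => 1) h X

end Pool.Agent.Lib.MP_ccffa6_gt
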