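import Pool.Agent.Lib.MP_ccffa6_gt.T.BMod

/-!
The map `ζ ↦ (m, z)` and the function `b`.
-/

open Set
open scoped ContDiff

noncomputable section

namespace Pool.Agent.Lib.MP_ccffa6_gt

/-- The correction function exists. -/
theorem tb_beta : ∃ b, TBBeta b := by
  obtain ⟨Λ, h1, h2, h3, h4, -⟩ := tb_ramp (ε := 1 / 8) (by norm_num)
  have hd : ∀ ρ : ℝ, HasDerivAt (fun ρ : ℝ => -Λ (-ρ - 3 / 8)) (deriv Λ (-ρ - 3 / 8)) ρ := by
    intro ρ
    have e1 : HasDerivAt (fun ρ : ℝ => -ρ - 3 / 8) (-1) ρ := (hasDerivAt_neg ρ).sub_const _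
    have e2 := ((h1.differentiable (by simp) (-ρ - 3 / 8)).hasDerivAt.comp ρ e1).neg
    rw [mul_neg, mul_one, neg_neg] at e2
    exact e2
  refine ⟨fun ρ => -Λ (-ρ - 3 / 8), (h1.comp (contDiff_neg.sub contDiff_const)).neg,
    fun ρ hρ => ?_, fun ρ => ?_, fun ρ hρ => ?_⟩
  · rw [h2 _ (by linarith), neg_zero]
  · rw [(hd ρ).deriv]
    exact h4 _
  · rw [(hd ρ).deriv]
    have e : Λ =ᶠ[nhds (-ρ - 3 / 8)] id := by
      filter_upwards [Ioi_mem_nhds (show (1 / 8 : ℝ) < -ρ - 3 / 8 by linarith)] with s hs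
      exact h3 s (le_of_lt hs)
    rw [e.deriv_eq, deriv_id]

theorem TBBeta.abs_le {b : ℝ → ℝ} (h : TBBeta b) (ρ : ℝ) : |b ρ| ≤ |ρ| := by
  have h1 := Convex.norm_image_sub_le_of_norm_deriv_le (s := univ) (C := 1) (x := 0) (y := ρ)
    (fun x _ => h.sm.differentiable (by simp) x)
    (fun x _ => by
      rw [Real.norm_eq_abs, abs_of_nonneg (h.der x).1]
      exact (h.der x).2) convex_univ (mem_univ _) (mem_univ _)
  rw [h.zero 0 (by norm_num), sub_zero, sub_zero, one_mul] at h1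
  exact h1

/-- `r ↦ r² + b (log r)` is strictly increasing. -/
theorem TBBeta.mu_inj {b : ℝ → ℝ} (h : TBBeta b) {w w' : ℂ} (hw : w ≠ 0) (hw' : w' ≠ 0)
    (he : tbMu b w = tbMu b w') : ‖w‖ = ‖w'‖ := by
  have hm : Monotone b :=
    monotone_of_deriv_nonneg (h.sm.differentiable (by simp)) fun x => (h.der x).1
  have key : ∀ u v : ℂ, u ≠ 0 → ‖u‖ < ‖v‖ → tbMu b u < tbMu b v := by
    intro u v hu huv
    have h0 : 0 < ‖u‖ := norm_pos_iff.2 hu
    exact add_lt_add_of_lt_of_le (pow_lt_pow_left₀ huv h0.le two_ne_zero)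
      (hm (Real.log_le_log h0 huv.le))
  rcases lt_trichotomy ‖w‖ ‖w'‖ with h1 | h1 | h1
  · exact absurd he (key _ _ hw h1).ne
  · exact h1
  · exact absurd he (key _ _ hw' h1).ne'

/-- The Jacobian of `ζ ↦ G (ζ.im / η - s₀, -2 η ζ.re)`. -/
theorem tb_jac_comp {G : ℝ × ℝ → ℝ × ℝ} (hG : ContDiff ℝ ∞ G) {η : ℝ} (hη : η ≠ 0) (s₀ : ℝ)
    (ζ : ℂ) : tbJ (fun ζ : ℂ => G (ζ.im / η - s₀, -2 * η * ζ.re)) ζ =
      2 * tbJac G (ζ.im / η - s₀, -2 * η * ζ.re) := by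
  have h1 : HasFDerivAt (fun ζ : ℂ => (ζ.im / η - s₀, -2 * η * ζ.re))
      ((η⁻¹ • Complex.imCLM).prod ((-2 * η) • Complex.reCLM)) ζ := by
    refine HasFDerivAt.prodMk ?_ (Complex.reCLM.hasFDerivAt.const_mul _)
    have := (Complex.imCLM.hasFDerivAt (x := ζ)).const_mul η⁻¹
    simpa only [div_eq_inv_mul, Complex.imCLM_apply] using this.sub_const s₀
  have h2 := ((hG.differentiable (by simp) _).hasFDerivAt.comp ζ h1).fderiv
  have e1 : ((η⁻¹ • Complex.imCLM).prod ((-2 * η) • Complex.reCLM)) (1 : ℂ) =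
      (-2 * η) • ((0 : ℝ), (1 : ℝ)) := by simp
  have e2 : ((η⁻¹ • Complex.imCLM).prod ((-2 * η) • Complex.reCLM)) Complex.I =
      η⁻¹ • ((1 : ℝ), (0 : ℝ)) := by simp
  unfold tbJ tbJac
  rw [show (fun ζ : ℂ => G (ζ.im / η - s₀, -2 * η * ζ.re)) =
    G ∘ fun ζ : ℂ => (ζ.im / η - s₀, -2 * η * ζ.re) from rfl, h2,
    ContinuousLinearMap.comp_apply, ContinuousLinearMap.comp_apply, e1, e2, map_smul, map_smul]
  simp only [Prod.smul_fst, Prod.smul_snd, smul_eq_mul]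
  field_simp
  ring

theorem tbbplane_left {γ : ℝ → ℝ × ℝ} {S x₀ y₀ y₁ : ℝ} (h : TBCurve γ S x₀ y₀ y₁) {s : ℝ}
    (hs : s < -S) (q : ℝ) : tbJac (tbTube γ) (s, q) = 1 := by
  have e : tbTube γ =ᶠ[nhds (s, q)] fun a : ℝ × ℝ => (x₀ - S, y₀) - a := by
    filter_upwards [(isOpen_lt continuous_fst continuous_const).mem_nhds
      (show (s, q) ∈ {a : ℝ × ℝ | a.1 < -S} from hs)] with a ha
    rw [show a = (a.1, a.2) from rfl, h.tube_left ha]
    exact Prod.ext (by simp only [Prod.fst_sub]; ring) rfl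
  unfold tbJac
  rw [(((hasFDerivAt_id (s, q)).const_sub (x₀ - S, y₀)).congr_of_eventuallyEq e).fderiv]
  simp

theorem tbbplane_right {γ : ℝ → ℝ × ℝ} {S x₀ y₀ y₁ : ℝ} (h : TBCurve γ S x₀ y₀ y₁) {s : ℝ}
    (hs : S < s) (q : ℝ) : tbJac (tbTube γ) (s, q) = 1 := by
  have e : tbTube γ =ᶠ[nhds (s, q)] fun a : ℝ × ℝ => (x₀ - S, y₁) + a := by
    filter_upwards [(isOpen_lt continuous_const continuous_fst).mem_nhds
      (show (s, q) ∈ {a : ℝ × ℝ | S < a.1} from hs)] with a ha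
    rw [show a = (a.1, a.2) from rfl, h.tube_right ha]
    exact Prod.ext (by simp only [Prod.fst_add]; ring) rfl
  unfold tbJac
  rw [(((hasFDerivAt_id (s, q)).const_add (x₀ - S, y₁)).congr_of_eventuallyEq e).fderiv]
  simp

/-- Tubular coordinates along the arc, rescaled. -/
theorem tb_plane {n : ℕ} (hn : 2 ≤ n) {zD : ℝ} {K : ℝ × ℝ → ℝ} (hK : Small n zD K) {l δ : ℝ}
    (hl : 0 < l) (hδ : 0 < δ) (M₀ : ℝ) :
    ∃ (D M : ℝ) (T : ℂ → ℝ × ℝ), M₀ ≤ M ∧ TBPlane n zD K l D δ M T := by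
  obtain ⟨γ, S, x₀, y₀, y₁, M, hγ, hM, hx, hy, ⟨z, hz, hz'⟩, harc⟩ :=
    tb_arc hn hK M₀ (half_pos hδ)
  obtain ⟨r, c, C, hr, hc, -, hinj, hjac, -⟩ := hγ.tube
  obtain ⟨η, hη, hηr, hηδ⟩ : ∃ η : ℝ, 0 < η ∧ 2 * η * l ≤ r ∧ 2 * η * l ≤ δ / 2 := by
    have hm : 0 < min r (δ / 2) := lt_min hr (half_pos hδ)
    have e : 2 * (min r (δ / 2) / (2 * l)) * l = min r (δ / 2) := by field_simp
    exact ⟨min r (δ / 2) / (2 * l), by positivity, e.trans_le (min_le_left _ _),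
      e.trans_le (min_le_right _ _)⟩
  have hq : ∀ ζ : ℂ, |ζ.re| < l → |(-2 * η * ζ.re)| < 2 * η * l := by
    intro ζ h
    rw [show -2 * η * ζ.re = -(2 * η * ζ.re) by ring, abs_neg, abs_mul,
      abs_of_pos (by positivity : 0 < 2 * η)]
    exact mul_lt_mul_of_pos_left h (by positivity)
  have hmem : ∀ ζ : ℂ, |ζ.re| < l →
      (ζ.im / η - (S + l / η), -2 * η * ζ.re) ∈ (univ : Set ℝ) ×ˢ Ioo (-r) r :=
    fun ζ h => ⟨mem_univ _, abs_lt.1 ((hq ζ h).trans_le hηr)⟩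
  have hP : ∀ ζ : ℂ, ‖ζ‖ < l → |ζ.re| < l ∧ ζ.im / η - (S + l / η) < -S := by
    intro ζ h
    have h1 := div_lt_div_of_pos_right
      ((le_abs_self _).trans_lt ((Complex.abs_im_le_norm ζ).trans_lt h)) hη
    exact ⟨(Complex.abs_re_le_norm ζ).trans_lt h, by linarith⟩
  have hMM : ∀ ζ : ℂ, ‖ζ - (2 * l + 2 * η * S : ℝ) * Complex.I‖ < l →
      |ζ.re| < l ∧ S < ζ.im / η - (S + l / η) := by
    intro ζ h
    have h1 := (Complex.abs_re_le_norm _).trans_lt h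
    have h2 := (abs_lt.1 ((Complex.abs_im_le_norm _).trans_lt h)).1
    simp only [Complex.sub_re, Complex.sub_im, Complex.mul_re, Complex.mul_im, Complex.ofReal_re,
      Complex.ofReal_im, Complex.I_re, Complex.I_im, mul_zero, mul_one, sub_zero, add_zero,
      sub_self] at h1 h2
    have h3 := div_lt_div_of_pos_right (show l + 2 * η * S < ζ.im by linarith) hη
    rw [show (l + 2 * η * S) / η = l / η + 2 * S by field_simp] at h3
    exact ⟨h1, by linarith⟩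
  refine ⟨2 * l + 2 * η * S, M,
    fun ζ : ℂ => tbTube γ (ζ.im / η - (S + l / η), -2 * η * ζ.re), hM, ?_, ?_, ?_, ?_, ?_, ?_, ?_,
    ⟨z, hz, ?_⟩, ?_⟩
  · exact hγ.tube_sm.comp (((Complex.imCLM.contDiff.div_const η).sub contDiff_const).prodMk
      (contDiff_const.mul Complex.reCLM.contDiff))
  · intro ζ h ζ' h' e
    have h1 := hinj (hmem ζ h) (hmem ζ' h') e
    rw [Prod.mk.injEq] at h1
    refine Complex.ext (mul_left_cancel₀ ?_ h1.2) ((div_left_inj' hη.ne').1 (sub_left_inj.1 h1.1))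
    linarith
  · intro ζ h
    rw [tb_jac_comp hγ.tube_sm hη.ne']
    have := hjac _ (hmem ζ h)
    linarith
  · intro ζ h
    rw [tb_jac_comp hγ.tube_sm hη.ne', tbbplane_left hγ (hP ζ h).2, mul_one]
  · intro ζ h
    rw [tb_jac_comp hγ.tube_sm hη.ne', tbbplane_right hγ (hMM ζ h).2, mul_one]
  · have := mul_pos hη hγ.pos
    linarith
  · intro ζ h
    have h1 := abs_lt.1 ((hq ζ (hP ζ h).1).trans_le hηδ)
    have h2 := abs_lt.1 hy
    have h3 := (hP ζ h).2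
    rw [hγ.tube_left h3]
    exact ⟨by linarith, abs_lt.2 ⟨by linarith, by linarith⟩⟩
  · intro ζ h
    have h1 := abs_lt.1 ((hq ζ (hMM ζ h).1).trans_le hηδ)
    have h2 := abs_lt.1 hz'
    have h3 := (hMM ζ h).2
    rw [hγ.tube_right h3]
    exact ⟨by linarith, abs_lt.2 ⟨by linarith, by linarith⟩⟩
  · intro y hy
    have h1 := div_le_div_of_nonneg_right hy.1 hη.le
    have h2 := div_le_div_of_nonneg_right (show y ≤ l + 2 * η * S by linarith [hy.2]) hη.le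
    rw [show (l + 2 * η * S) / η = l / η + 2 * S by field_simp] at h2
    obtain ⟨a, ha, ha'⟩ := harc (y / η - (S + l / η)) ⟨by linarith, by linarith⟩
    refine ⟨a, ha, ?_⟩
    have e : tbTube γ (((y : ℂ) * Complex.I).im / η - (S + l / η),
        -2 * η * ((y : ℂ) * Complex.I).re) = γ (y / η - (S + l / η)) := by
      simp [tbTube]
    rw [e]
    linarith

end Pool.Agent.Lib.MP_ccffa6_gt
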