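import Mathlib

/-!
The square root of a positive operator depends smoothly on the operator.
-/

open Set Filter Topology
open scoped ContDiff

noncomputable section

namespace Pool.Agent.Lib.MP_ccffa6_gt

variable {H : Type} [NormedAddCommGroup H] [InnerProductSpace ℝ H] [FiniteDimensional ℝ H]

/-- Operators with positive definite quadratic form. -/
def tbPos (H : Type) [NormedAddCommGroup H] [InnerProductSpace ℝ H] : Set (H →L[ℝ] H) :=
  {Q | ∀ v, v ≠ 0 → 0 < inner ℝ (Q v) v}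

/-- Symmetric operators. -/
def tbSymm (Q : H →L[ℝ] H) : Prop := ∀ u v, inner ℝ (Q u) v = inner ℝ u (Q v)

theorem tb_pos_open : IsOpen (tbPos H) := by
  refine isOpen_iff_mem_nhds.2 fun Q hQ => ?_
  have h1 := (isCompact_sphere (0 : H) 1).eventually_forall_of_forall_eventually (x₀ := Q)
    (P := fun (A : H →L[ℝ] H) v => 0 < inner ℝ (A v) v) fun v hv => by
      have h2 : Continuous fun z : (H →L[ℝ] H) × H => inner ℝ (z.1 z.2) z.2 := by fun_prop
      refine h2.continuousAt.eventually (lt_mem_nhds (hQ v ?_))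
      rintro rfl
      simp at hv
  filter_upwards [h1] with A hA v hv
  have h2 : 0 < ‖v‖⁻¹ := inv_pos.2 (norm_pos_iff.2 hv)
  have h3 := hA (‖v‖⁻¹ • v) (by simp [norm_smul, hv])
  rw [map_smul, real_inner_smul_left, real_inner_smul_right] at h3
  exact (mul_pos_iff_of_pos_left h2).1 ((mul_pos_iff_of_pos_left h2).1 h3)

theorem tb_pos_unit {Q : H →L[ℝ] H} (h : Q ∈ tbPos H) : IsUnit Q := by
  have : CompleteSpace H := FiniteDimensional.complete ℝ H
  have h1 : Function.Injective Q := (injective_iff_map_eq_zero Q).2 fun v hv => by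
    by_contra h2
    simpa [hv] using h v h2
  exact ContinuousLinearMap.isUnit_iff_bijective.2
    ⟨h1, LinearMap.injective_iff_surjective (f := (Q : H →ₗ[ℝ] H)).1 h1⟩

theorem tbsqrt_eig {C : H →L[ℝ] H} (hC : C ∈ tbPos H) (sC : tbSymm C) :
    ∃ (b : OrthonormalBasis (Fin (Module.finrank ℝ H)) ℝ H) (μ : Fin (Module.finrank ℝ H) → ℝ),
      ∀ i, 0 < μ i ∧ C (b i) = μ i • b i := by
  have hs : (C : H →ₗ[ℝ] H).IsSymmetric := sC
  refine ⟨hs.eigenvectorBasis rfl, hs.eigenvalues rfl, fun i => ?_⟩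
  have h1 : C (hs.eigenvectorBasis rfl i) = hs.eigenvalues rfl i • hs.eigenvectorBasis rfl i :=
    hs.apply_eigenvectorBasis rfl i
  have h2 := hC _ ((hs.eigenvectorBasis rfl).toBasis.ne_zero i)
  rw [OrthonormalBasis.coe_toBasis, h1, real_inner_smul_left, real_inner_self_eq_norm_sq,
    (hs.eigenvectorBasis rfl).orthonormal.1 i] at h2
  exact ⟨by simpa using h2, h1⟩

/-- The Sylvester map `X ↦ B X + X C` is injective for positive `B`, symmetric positive `C`. -/
theorem tb_sylv {B C X : H →L[ℝ] H} (hB : B ∈ tbPos H) (hC : C ∈ tbPos H) (sC : tbSymm C)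
    (h : B * X + X * C = 0) : X = 0 := by
  obtain ⟨b, μ, hb⟩ := tbsqrt_eig hC sC
  refine ContinuousLinearMap.coe_injective (b.toBasis.ext fun i => ?_)
  show X (b i) = 0
  by_contra h1
  have h2 : B (X (b i)) + μ i • X (b i) = 0 := by
    simpa [(hb i).2] using congrArg (fun A : H →L[ℝ] H => A (b i)) h
  have h3 := congrArg (fun v => inner ℝ v (X (b i))) h2
  simp only [inner_add_left, real_inner_smul_left, inner_zero_left] at h3
  have h4 := mul_nonneg (hb i).1.le (real_inner_self_nonneg (x := X (b i)))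
  linarith [hB _ h1]

/-- Existence, from the eigenvector basis. -/
theorem tb_sqrt_exists {Q : H →L[ℝ] H} (h : Q ∈ tbPos H) (s : tbSymm Q) :
    ∃ B, B ∈ tbPos H ∧ tbSymm B ∧ B * B = Q := by
  obtain ⟨b, μ, hb⟩ := tbsqrt_eig h s
  let B : H →L[ℝ] H := ∑ i, √(μ i) • (innerSL ℝ (b i)).smulRight (b i)
  have h1 : ∀ v, B v = ∑ i, (√(μ i) * inner ℝ (b i) v) • b i := fun v => by
    simp [B, smul_smul]
  have h2 : ∀ v w, inner ℝ (B v) w = ∑ i, √(μ i) * (inner ℝ (b i) v * inner ℝ (b i) w) :=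
    fun v w => by simp [h1, sum_inner, real_inner_smul_left, mul_assoc]
  have h3 : ∀ j, B (b j) = √(μ j) • b j := fun j => by
    rw [h1, Finset.sum_eq_single j]
    · simp
    · intro i _ hij
      simp [b.orthonormal.2 hij]
    · simp
  refine ⟨B, fun v hv => ?_, fun u v => ?_, ?_⟩
  · rw [h2]
    obtain ⟨i, hi⟩ : ∃ i, inner ℝ (b i) v ≠ 0 := by
      by_contra h4
      refine hv ?_
      rw [← b.sum_repr' v]
      exact Finset.sum_eq_zero fun i _ => by
        rw [not_not.1 (not_exists.1 h4 i), zero_smul]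
    exact Finset.sum_pos' (fun i _ => mul_nonneg (Real.sqrt_nonneg _) (mul_self_nonneg _))
      ⟨i, Finset.mem_univ i, mul_pos (Real.sqrt_pos.2 (hb i).1) (mul_self_pos.2 hi)⟩
  · rw [real_inner_comm (B v) u, h2, h2]
    exact Finset.sum_congr rfl fun i _ => by ring
  · refine ContinuousLinearMap.coe_injective (b.toBasis.ext fun i => ?_)
    show B (B (b i)) = Q (b i)
    rw [h3, map_smul, h3, smul_smul, Real.mul_self_sqrt (hb i).1.le, (hb i).2]

theorem tbsqrt_uniq {B C : H →L[ℝ] H} (hB : B ∈ tbPos H) (hC : C ∈ tbPos H) (sC : tbSymm C)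
    (h : B * B = C * C) : B = C :=
  sub_eq_zero.1 (tb_sylv hB hC sC (by rw [mul_sub, sub_mul, h]; abel))

theorem tbsqrt_sym (H : Type) [NormedAddCommGroup H] [InnerProductSpace ℝ H]
    [FiniteDimensional ℝ H] : ∃ S : (H →L[ℝ] H) →L[ℝ] (H →L[ℝ] H),
      (∀ Q, tbSymm (S Q)) ∧ (∀ Q ∈ tbPos H, S Q ∈ tbPos H) ∧ ∀ Q, tbSymm Q → S Q = Q := by
  have : CompleteSpace H := FiniteDimensional.complete ℝ H
  let A : (H →L[ℝ] H) →ₗ[ℝ] (H →L[ℝ] H) :=
    { toFun := fun Q => (1 / 2 : ℝ) • (Q + ContinuousLinearMap.adjoint Q)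
      map_add' := fun P Q => by simp only [map_add, smul_add]; abel
      map_smul' := fun c Q => by
        simp only [map_smulₛₗ, smul_add, conj_trivial, RingHom.id_apply, smul_comm c] }
  have h1 : ∀ Q u v, inner ℝ (A Q u) v = (inner ℝ (Q u) v + inner ℝ (Q v) u) / 2 := fun Q u v => by
    simp only [A, LinearMap.coe_mk, AddHom.coe_mk, smul_apply,
      add_apply, real_inner_smul_left, inner_add_left,
      ContinuousLinearMap.adjoint_inner_left, real_inner_comm (Q v) u]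
    ring
  refine ⟨LinearMap.toContinuousLinearMap A, fun Q u v => ?_, fun Q hQ v hv => ?_, fun Q hQ => ?_⟩
  · show inner ℝ (A Q u) v = inner ℝ u (A Q v)
    rw [real_inner_comm (A Q v) u, h1, h1, add_comm]
  · show 0 < inner ℝ (A Q v) v
    rw [h1]
    linarith [hQ v hv]
  · ext u
    refine ext_inner_right ℝ fun v => ?_
    show inner ℝ (A Q u) v = _
    rw [h1, hQ v u, real_inner_comm (Q u) v]
    ring

/-- The positive square root is smooth. -/
theorem tb_sqrt (H : Type) [NormedAddCommGroup H] [InnerProductSpace ℝ H] [FiniteDimensional ℝ H] :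
    ∃ r : (H →L[ℝ] H) → (H →L[ℝ] H), ContDiffOn ℝ ∞ r (tbPos H) ∧ (∀ Q ∈ tbPos H, r Q ∈ tbPos H) ∧
      ∀ Q ∈ tbPos H, tbSymm Q →
        tbSymm (r Q) ∧ r Q * r Q = Q ∧ ∀ A : H →L[ℝ] H, A * Q = Q * A → A * r Q = r Q * A := by
  have : CompleteSpace H := FiniteDimensional.complete ℝ H
  obtain ⟨S, s1, s2, s3⟩ := tbsqrt_sym H
  choose! r h1 h2 h3 using fun Q (hQ : Q ∈ tbPos H) => tb_sqrt_exists (s2 Q hQ) (s1 Q)
  refine ⟨r, fun Q hQ => ContDiffAt.contDiffWithinAt ?_, h1, fun Q hQ sQ => ?_⟩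
  · let D : (H →L[ℝ] H) →L[ℝ] (H →L[ℝ] H) :=
      ContinuousLinearMap.mul ℝ _ (r Q) + (ContinuousLinearMap.mul ℝ _).flip (r Q)
    have hi : Function.Injective (D : (H →L[ℝ] H) →ₗ[ℝ] (H →L[ℝ] H)) :=
      (injective_iff_map_eq_zero _).2 fun X hX => tb_sylv (h1 Q hQ) (h1 Q hQ) (h2 Q hQ) hX
    let e := (LinearMap.linearEquivOfInjective _ hi rfl).toContinuousLinearEquiv
    have hf : ContDiffAt ℝ ∞ (fun B : H →L[ℝ] H => B * B) (r Q) := contDiffAt_id.mul contDiffAt_id
    have hd : HasFDerivAt (fun B : H →L[ℝ] H => B * B)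
        (e : (H →L[ℝ] H) →L[ℝ] (H →L[ℝ] H)) (r Q) :=
      ((hasFDerivAt_id (r Q)).mul' (hasFDerivAt_id (r Q))).congr_fderiv (by
        ext1 X
        rfl)
    have hn : (∞ : WithTop ℕ∞) ≠ 0 := by simp
    have h4 := hf.to_localInverse hd hn
    have h5 := hf.localInverse_apply_image hd hn
    have h6 := (hf.hasStrictFDerivAt' hd hn).eventually_right_inverse
    rw [h3 Q hQ] at h4 h5 h6
    have h7 : Tendsto S (𝓝 Q) (𝓝 (S Q)) := S.continuous.tendsto Q
    refine (h4.comp Q S.contDiff.contDiffAt).congr_of_eventuallyEq ?_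
    filter_upwards [h7.eventually h6, tb_pos_open.mem_nhds hQ, h7.eventually
      (h4.continuousAt.eventually (tb_pos_open.mem_nhds (h5.symm ▸ h1 Q hQ)))] with P p1 p2 p3
    exact (tbsqrt_uniq p3 (h1 P p2) (h2 P p2) (p1.trans (h3 P p2).symm)).symm
  · have h4 : r Q * r Q = Q := (h3 Q hQ).trans (s3 Q sQ)
    refine ⟨h2 Q hQ, h4, fun A hA => sub_eq_zero.1 (tb_sylv (h1 Q hQ) (h1 Q hQ) (h2 Q hQ) ?_)⟩
    rw [mul_sub, sub_mul, mul_assoc A, ← mul_assoc (r Q) (r Q), h4, hA, mul_assoc]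
    abel

end Pool.Agent.Lib.MP_ccffa6_gt
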