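import Pool.Agent.Lib.MP_ccffa6_gt.T.BDef
import Pool.Agent.Lib.MP_ccffa6_gt.T.BSqrt
import Pool.Agent.Lib.MP_ccffa6_gt.K.Ext
import Pool.Agent.Lib.MP_ccffa6_gt.K.Lin

/-!
Compatible complex structures by polar decomposition, in smooth families.
-/

open Set Filter Topology
open scoped ContDiff

noncomputable section

namespace Pool.Agent.Lib.MP_ccffa6_gt

variable {V : Type} [NormedAddCommGroup V] [NormedSpace ℝ V] [FiniteDimensional ℝ V]
  {X : Type} [NormedAddCommGroup X] [NormedSpace ℝ X] [FiniteDimensional ℝ X]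

section aux

variable {H : Type} [NormedAddCommGroup H] [InnerProductSpace ℝ H] [FiniteDimensional ℝ H]

omit [FiniteDimensional ℝ X] in
/-- The operator of a smooth family of bilinear forms. -/
theorem tbpolar_op {b : X → Bil H} (hb : ∀ u v, ContDiff ℝ ∞ fun x => b x u v) :
    ∃ Ω : X → H →L[ℝ] H, ContDiff ℝ ∞ Ω ∧ ∀ x u v, inner ℝ (Ω x u) v = b x u v := by
  have := FiniteDimensional.complete ℝ H
  let D : (H →L[ℝ] ℝ) →ₗ[ℝ] H :=
    { toFun := fun f => (InnerProductSpace.toDual ℝ H).symm f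
      map_add' := fun f g => map_add _ f g
      map_smul' := fun c f => ext_inner_right ℝ fun v => by
        simp [InnerProductSpace.toDual_symm_apply, inner_smul_left] }
  refine ⟨fun x => (LinearMap.toContinuousLinearMap D).comp (b x), ?_, fun x u v =>
    InnerProductSpace.toDual_symm_apply⟩
  exact contDiff_const.clm_comp (contDiff_clm_apply_iff.2 fun u =>
    contDiff_clm_apply_iff.2 fun v => hb u v)

/-- The root and its inverse in a smooth family. -/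
theorem tbpolar_root {A : Set X} (hA : IsClosed A) {G : X → H →L[ℝ] H} (hG : ContDiff ℝ ∞ G)
    (hp : ∀ x ∈ A, G x ∈ tbPos H ∧ tbSymm (G x)) :
    ∃ S R : X → H →L[ℝ] H, ContDiff ℝ ∞ S ∧ ContDiff ℝ ∞ R ∧ ∀ x ∈ A, S x ∈ tbPos H ∧
      tbSymm (S x) ∧ (∀ v, S x (S x v) = G x v) ∧
      (∀ B : H →L[ℝ] H, (∀ v, B (G x v) = G x (B v)) → ∀ v, B (S x v) = S x (B v)) ∧
      (∀ v, S x (R x v) = v) ∧ ∀ v, R x (S x v) = v := by
  have := FiniteDimensional.complete ℝ H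
  obtain ⟨r, r1, r2, r3⟩ := tb_sqrt H
  have hU : IsOpen (G ⁻¹' tbPos H) := tb_pos_open.preimage hG.continuous
  have hAU : A ⊆ G ⁻¹' tbPos H := fun x hx => (hp x hx).1
  have h1 : ContDiffOn ℝ ∞ (fun x => r (G x)) (G ⁻¹' tbPos H) :=
    r1.comp hG.contDiffOn fun _ hx => hx
  have h2 : ContDiffOn ℝ ∞ (fun x => Ring.inverse (r (G x))) (G ⁻¹' tbPos H) := fun x hx => by
    obtain ⟨u, hu⟩ := tb_pos_unit (r2 _ hx)
    exact ContDiffAt.comp_contDiffWithinAt (f := fun x => r (G x)) x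
      (hu ▸ contDiffAt_ringInverse ℝ u) (h1 x hx)
  obtain ⟨S, s1, s2, -⟩ := exists_smooth_nhdsSet hA hU hAU h1
  obtain ⟨R, t1, t2, -⟩ := exists_smooth_nhdsSet hA hU hAU h2
  refine ⟨S, R, s1, t1, fun x hx => ?_⟩
  rw [s2.self_of_nhdsSet x hx, t2.self_of_nhdsSet x hx]
  obtain ⟨a1, a2, a3⟩ := r3 _ (hp x hx).1 (hp x hx).2
  have hu := tb_pos_unit (r2 _ (hp x hx).1)
  exact ⟨r2 _ (hp x hx).1, a1, fun v => congrArg (fun T : H →L[ℝ] H => T v) a2,
    fun B hB v => congrArg (fun T : H →L[ℝ] H => T v) (a3 B (ContinuousLinearMap.ext hB)),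
    fun v => congrArg (fun T : H →L[ℝ] H => T v) (Ring.mul_inverse_cancel _ hu),
    fun v => congrArg (fun T : H →L[ℝ] H => T v) (Ring.inverse_mul_cancel _ hu)⟩

omit [FiniteDimensional ℝ V] in
theorem tbpolar_alt {T : Submodule ℝ V} {w : Bil V} (hn : ND T w) {u v : V} (hu : u ∈ T)
    (hv : v ∈ T) : w u v = -w v u := by
  have := hn.1 _ (T.add_mem hu hv)
  simp only [map_add, add_apply, hn.1 _ hu, hn.1 _ hv] at this
  linarith

omit [FiniteDimensional ℝ H] in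
/-- The pointwise facts on the skew operator. -/
theorem tbpolar_pt {T : Submodule ℝ H} {P Ω : H →L[ℝ] H} {w : Bil H} (hT : ProjOn T P)
    (hs : tbSymm P) (hn : ND T w) (hΩ : ∀ u v, inner ℝ (Ω u) v = w (P u) (P v)) :
    (∀ u, Ω (P u) = Ω u) ∧ (∀ u, P (Ω u) = Ω u) ∧
      (∀ u v, inner ℝ (Ω u) v = -inner ℝ u (Ω v)) ∧
      (1 - P - Ω * Ω) ∈ tbPos H ∧ tbSymm (1 - P - Ω * Ω) := by
  have pp : ∀ u, P (P u) = P u := fun u => hT.2 _ (hT.1 u)
  have a3 : ∀ u v, inner ℝ (Ω u) v = -inner ℝ u (Ω v) := fun u v => by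
    rw [hΩ, real_inner_comm, hΩ, tbpolar_alt hn (hT.1 u) (hT.1 v)]
  have e : ∀ u v, inner ℝ ((1 - P - Ω * Ω) u) v =
      inner ℝ (u - P u) (v - P v) + inner ℝ (Ω u) (Ω v) := fun u v => by
    simp only [sub_apply, one_apply_eq_self, mul_apply_eq_comp, inner_sub_left, inner_sub_right,
      a3 (Ω u) v, hs u, pp]
    ring
  refine ⟨fun u => ext_inner_right ℝ fun v => by rw [hΩ, hΩ, pp],
    fun u => ext_inner_right ℝ fun v => by rw [hs, hΩ, hΩ, pp], a3, fun v hv => ?_,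
    fun u v => ?_⟩
  · rw [e]
    refine (add_nonneg real_inner_self_nonneg real_inner_self_nonneg).lt_of_ne fun h0 => hv ?_
    have b1 := real_inner_self_nonneg (x := v - P v)
    have b2 := real_inner_self_nonneg (x := Ω v)
    have c1 : v = P v := sub_eq_zero.1 (inner_self_eq_zero.1 (by linarith : inner ℝ _ _ = (0 : ℝ)))
    have c2 : Ω v = 0 := inner_self_eq_zero.1 (by linarith : inner ℝ _ _ = (0 : ℝ))
    refine hn.2 v (c1 ▸ hT.1 v) fun y hy => ?_
    rw [c1, ← hT.2 y hy, ← hΩ, c2, inner_zero_left]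
  · rw [e, real_inner_comm _ u, e, real_inner_comm (v - P v), real_inner_comm (Ω v)]

end aux

/-- The case of a fixed inner product and an orthogonal projector. -/
theorem tb_polar0 {H : Type} [NormedAddCommGroup H] [InnerProductSpace ℝ H] [FiniteDimensional ℝ H]
    {A : Set X} (hA : IsClosed A) {T : X → Submodule ℝ H} {P : X → H →L[ℝ] H}
    (hP : ContDiff ℝ ∞ P) (hT : ∀ x ∈ A, ProjOn (T x) (P x)) (hs : ∀ x ∈ A, tbSymm (P x))
    {w : X → Bil H} (hw : ContDiff ℝ ∞ w) (hn : ∀ x ∈ A, ND (T x) (w x)) :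
    ∃ J : X → H →L[ℝ] H, ContDiff ℝ ∞ J ∧ ∀ x ∈ A, Compat (T x) (w x) (J x) ∧
      ∀ u ∈ T x, ∀ v ∈ T x, inner ℝ (J x u) (J x v) = inner ℝ u v := by
  obtain ⟨Ω, o1, o2⟩ := tbpolar_op (b := fun x => (w x).bilinearComp (P x) (P x)) fun u v =>
    (hw.clm_apply (hP.clm_apply contDiff_const)).clm_apply (hP.clm_apply contDiff_const)
  have key := fun x hx => tbpolar_pt (hT x hx) (hs x hx) (hn x hx) (o2 x)
  obtain ⟨S, R, -, r1, r2⟩ := tbpolar_root hA (G := fun x => 1 - P x - Ω x * Ω x)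
    ((contDiff_const.sub hP).sub (o1.mul o1)) fun x hx => (key x hx).2.2.2
  refine ⟨fun x => (R x).comp (Ω x), r1.clm_comp o1, fun x hx => ?_⟩
  obtain ⟨k1, k2, k3, -⟩ := key x hx
  obtain ⟨s1, s2, s3, s4, s5, s6⟩ := r2 x hx
  obtain ⟨p1, p2⟩ := hT x hx
  have o3 : ∀ u v, inner ℝ (Ω x u) v = w x (P x u) (P x v) := o2 x
  simp only [sub_apply, one_apply_eq_self, mul_apply_eq_comp] at s3 s4
  have cΩ := s4 (Ω x) fun v => by simp only [map_sub, k1, k2]
  have cP := s4 (P x) fun v => by simp only [map_sub, k1, k2]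
  have dΩ : ∀ v, Ω x (R x v) = R x (Ω x v) := fun v => by
    rw [← s6 (Ω x (R x v)), ← cΩ, s5]
  have dP : ∀ v, P x (R x v) = R x (P x v) := fun v => by
    rw [← s6 (P x (R x v)), ← cP, s5]
  have sR : ∀ u v, inner ℝ (R x u) v = inner ℝ u (R x v) := fun u v => by
    conv_lhs => rw [← s5 v, ← s2, s5]
  have j0 : ∀ u, P x (R x (Ω x u)) = R x (Ω x u) := fun u => by rw [dP, k2]
  have j1 : ∀ u ∈ T x, R x (Ω x (R x (Ω x u))) = -u := fun u hu => by
    have := s3 u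
    rw [p2 u hu, sub_self, zero_sub] at this
    rw [dΩ, ← neg_neg (Ω x (Ω x u)), ← this, map_neg, map_neg, s6, s6]
  have j2 : ∀ u, ∀ v ∈ T x, inner ℝ (R x (Ω x u)) (R x (Ω x v)) = inner ℝ u v := fun u v hv => by
    rw [sR, k3, dΩ, j1 v hv, inner_neg_right, neg_neg]
  refine ⟨⟨fun u _ => ?_, j1, fun u hu v hv => ?_, fun u hu h0 => ?_⟩, fun u _ v hv => j2 u v hv⟩
  · exact j0 u ▸ p1 _
  · show w x (R x (Ω x u)) (R x (Ω x v)) = _
    rw [← j0 u, ← j0 v, ← o3, dΩ, j2 _ v hv, o3, p2 u hu, p2 v hv]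
  · show 0 < w x u (R x (Ω x u))
    have := s1 (R x (Ω x u)) fun e => h0 (by
      have := j1 u hu
      rw [e, map_zero, map_zero] at this
      exact neg_eq_zero.1 this.symm)
    rwa [s5, o3, j0, p2 u hu] at this

/-- The general case, by conjugation with the root of the metric. -/
theorem tb_polar {A : Set X} (hA : IsClosed A) {T : X → Submodule ℝ V} {P : X → V →L[ℝ] V}
    (hP : ContDiff ℝ ∞ P) (hT : ∀ x ∈ A, ProjOn (T x) (P x))
    {w g : X → Bil V} (hw : ContDiff ℝ ∞ w) (hn : ∀ x ∈ A, ND (T x) (w x))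
    (hg : ContDiff ℝ ∞ g) (hp : ∀ x ∈ A, PosOn (T x) (g x)) :
    ∃ J : X → V →L[ℝ] V, ContDiff ℝ ∞ J ∧ ∀ x ∈ A, Compat (T x) (w x) (J x) ∧
      ∀ u ∈ T x, ∀ v ∈ T x, g x (J x u) (J x v) = g x u v := by
  let H := EuclideanSpace ℝ (Fin (Module.finrank ℝ V))
  let e : V ≃L[ℝ] H := toEuclidean
  let e1 : V →L[ℝ] H := e
  let e2 : H →L[ℝ] V := e.symm
  have e12 : ∀ a, e1 (e2 a) = a := e.apply_symm_apply
  have e21 : ∀ a, e2 (e1 a) = a := e.symm_apply_apply
  let N : X → H →L[ℝ] H := fun x => e1.comp ((1 - P x).comp e2)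
  have hN : ContDiff ℝ ∞ N :=
    contDiff_const.clm_comp ((contDiff_const.sub hP).clm_comp contDiff_const)
  let ip : Bil H := innerSL ℝ (E := H)
  obtain ⟨G, g1, g2⟩ := tbpolar_op (b := fun x => (g x).bilinearComp ((P x).comp e2)
    ((P x).comp e2) + ip.bilinearComp (N x) (N x)) fun u v =>
    ((hg.clm_apply (hP.clm_apply contDiff_const)).clm_apply (hP.clm_apply contDiff_const)).add
      ((hN.clm_apply contDiff_const).inner ℝ (hN.clm_apply contDiff_const))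
  have g3 : ∀ x u v, inner ℝ (G x (e1 u)) (e1 v) =
      g x (P x u) (P x v) + inner ℝ (e1 (u - P x u)) (e1 (v - P x v)) := fun x u v => by
    rw [g2]
    show g x (P x (e2 (e1 u))) (P x (e2 (e1 v))) + inner ℝ (e1 (e2 (e1 u) - P x (e2 (e1 u))))
      (e1 (e2 (e1 v) - P x (e2 (e1 v)))) = _
    rw [e21, e21]
  obtain ⟨S, R, s1, r1, r2⟩ := tbpolar_root hA g1 fun x hx => by
    refine ⟨fun a ha => ?_, fun a b => ?_⟩
    · rw [← e12 a, g3]
      by_cases h0 : P x (e2 a) = 0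
      · rw [h0, sub_zero, e12, map_zero, zero_add]
        exact real_inner_self_pos.2 ha
      · exact add_pos_of_pos_of_nonneg ((hp x hx).pos _ ((hT x hx).1 _) h0) real_inner_self_nonneg
    · rw [real_inner_comm _ a, ← e12 a, ← e12 b, g3, g3, real_inner_comm,
        (hp x hx).symm _ ((hT x hx).1 _) _ ((hT x hx).1 _)]
  let F : X → V →L[ℝ] H := fun x => (S x).comp e1
  let F' : X → H →L[ℝ] V := fun x => e2.comp (R x)
  have hF : ContDiff ℝ ∞ F := s1.clm_comp contDiff_const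
  have hF' : ContDiff ℝ ∞ F' := contDiff_const.clm_comp r1
  have f1 : ∀ x ∈ A, ∀ a, F x (F' x a) = a := fun x hx a => by
    show S x (e1 (e2 (R x a))) = a
    rw [e12, (r2 x hx).2.2.2.2.1]
  have f2 : ∀ x ∈ A, ∀ a, F' x (F x a) = a := fun x hx a => by
    show e2 (R x (S x (e1 a))) = a
    rw [(r2 x hx).2.2.2.2.2, e21]
  have f3 : ∀ x ∈ A, ∀ u ∈ T x, ∀ v, inner ℝ (F x u) (F x v) = g x u (P x v) :=
    fun x hx u hu v => by
    show inner ℝ (S x (e1 u)) (S x (e1 v)) = _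
    rw [← (r2 x hx).2.1, (r2 x hx).2.2.1, g3, (hT x hx).2 u hu, sub_self, map_zero,
      inner_zero_left, add_zero]
  have f4 : ∀ x ∈ A, ∀ u ∈ T x, F x u ∈ (T x).comap (F' x : H →ₗ[ℝ] V) := fun x hx u hu => by
    show F' x (F x u) ∈ T x
    rwa [f2 x hx]
  obtain ⟨J, j1, j2⟩ := tb_polar0 hA (T := fun x => (T x).comap (F' x : H →ₗ[ℝ] V))
    (P := fun x => (F x).comp ((P x).comp (F' x))) (hF.clm_comp (hP.clm_comp hF'))
    (fun x hx => ⟨fun a => f4 x hx _ ((hT x hx).1 _), fun a ha => by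
      show F x (P x (F' x a)) = a
      rw [(hT x hx).2 (F' x a) ha, f1 x hx]⟩)
    (fun x hx a b => by
      show inner ℝ (F x (P x (F' x a))) b = inner ℝ a (F x (P x (F' x b)))
      have a1 := f3 x hx _ ((hT x hx).1 (F' x a)) (F' x b)
      have a2 := f3 x hx _ ((hT x hx).1 (F' x b)) (F' x a)
      rw [f1 x hx] at a1 a2
      rw [real_inner_comm _ a, a1, a2, (hp x hx).symm _ ((hT x hx).1 _) _ ((hT x hx).1 _)])
    (w := fun x => (w x).bilinearComp (F' x) (F' x))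
    (contDiff_clm_apply_iff.2 fun u => contDiff_clm_apply_iff.2 fun v =>
      (hw.clm_apply (hF'.clm_apply contDiff_const)).clm_apply (hF'.clm_apply contDiff_const))
    fun x hx => ⟨fun a ha => (hn x hx).1 _ ha, fun a ha h => by
      rw [← f1 x hx a, (hn x hx).2 (F' x a) ha fun v hv => ?_, map_zero]
      have : w x (F' x a) (F' x (F x v)) = 0 := h _ (f4 x hx v hv)
      rwa [f2 x hx] at this⟩
  refine ⟨fun x => (F' x).comp ((J x).comp (F x)), hF'.clm_comp (j1.clm_comp hF), fun x hx => ?_⟩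
  obtain ⟨c, d⟩ := j2 x hx
  have m : ∀ u ∈ T x, F' x (J x (F x u)) ∈ T x := fun u hu => c.map _ (f4 x hx u hu)
  refine ⟨⟨m, fun u hu => ?_, fun u hu v hv => ?_, fun u hu h0 => ?_⟩, fun u hu v hv => ?_⟩
  · show F' x (J x (F x (F' x (J x (F x u))))) = -u
    rw [f1 x hx, c.sq _ (f4 x hx u hu), map_neg, f2 x hx]
  · have : w x (F' x (J x (F x u))) (F' x (J x (F x v))) = w x (F' x (F x u)) (F' x (F x v)) :=
      c.inv _ (f4 x hx u hu) _ (f4 x hx v hv)
    rwa [f2 x hx, f2 x hx] at this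
  · have : 0 < w x (F' x (F x u)) (F' x (J x (F x u))) := c.pos _ (f4 x hx u hu) fun a => h0 (by
      rw [← f2 x hx u, a, map_zero])
    rwa [f2 x hx] at this
  · show g x (F' x (J x (F x u))) (F' x (J x (F x v))) = _
    rw [← (hT x hx).2 _ (m v hv), ← f3 x hx _ (m u hu), f1 x hx, f1 x hx,
      d _ (f4 x hx u hu) _ (f4 x hx v hv), f3 x hx u hu, (hT x hx).2 v hv]

end Pool.Agent.Lib.MP_ccffa6_gt
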