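import Pool.Agent.Lib.MP_ccffa6_gt.T.BHex

/-!
A lattice path with distinct vertices is a simple polygon.
-/

open Set

noncomputable section

namespace Pool.Agent.Lib.MP_ccffa6_gt

/-- The real point of a lattice point. -/
def tbR (q : ℤ × ℤ) : ℝ × ℝ := ((q.1 : ℝ), (q.2 : ℝ))

/-- The polygon through the points `Q k` at the times `k`. -/
def tbPoly (Q : ℤ → ℤ × ℤ) (s : ℝ) : ℝ × ℝ :=
  tbR (Q ⌊s⌋) + Int.fract s • tbR (Q (⌊s⌋ + 1) - Q ⌊s⌋)

theorem tbpoly_dir {e : ℤ × ℤ} (he : e ∈ tbDir) : |(e.1 : ℝ)| ≤ 1 ∧ |(e.2 : ℝ)| ≤ 1 := by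
  simp only [tbDir, Finset.mem_insert, Finset.mem_singleton] at he
  rcases he with rfl | rfl | rfl | rfl | rfl | rfl <;> simp

theorem tbpoly_int {a : ℤ} {t t' x x' : ℝ} (ht : t ∈ Ico (0 : ℝ) 1) (ht' : t' ∈ Ico (0 : ℝ) 1)
    (hx : |x| ≤ 1) (hx' : |x'| ≤ 1) (h : t * x = a + t' * x') : a = -1 ∨ a = 0 ∨ a = 1 := by
  obtain ⟨h1, h2⟩ := abs_le.1 hx
  obtain ⟨h3, h4⟩ := abs_le.1 hx'
  have h5 : (a : ℝ) < (2 : ℤ) := by push_cast; nlinarith [ht.1, ht.2, ht'.1, ht'.2]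
  have h6 : ((-2 : ℤ) : ℝ) < a := by push_cast; nlinarith [ht.1, ht.2, ht'.1, ht'.2]
  have h7 := Int.cast_lt.1 h5
  have h8 := Int.cast_lt.1 h6
  omega

theorem tbpoly_aux {a b : ℤ} {e e' : ℤ × ℤ} (he : e ∈ tbDir) (he' : e' ∈ tbDir) {t t' : ℝ}
    (ht : t ∈ Ico (0 : ℝ) 1) (ht' : t' ∈ Ico (0 : ℝ) 1)
    (h1 : t * e.1 = a + t' * e'.1) (h2 : t * e.2 = b + t' * e'.2) :
    (a = 0 ∧ b = 0 ∧ t = t') ∨ ((a, b) = e ∧ e' = -e) := by
  have ha := tbpoly_int ht ht' (tbpoly_dir he).1 (tbpoly_dir he').1 h1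
  have hb := tbpoly_int ht ht' (tbpoly_dir he).2 (tbpoly_dir he').2 h2
  obtain ⟨p1, p2⟩ := ht
  obtain ⟨p3, p4⟩ := ht'
  simp only [tbDir, Finset.mem_insert, Finset.mem_singleton] at he he'
  rcases he with rfl | rfl | rfl | rfl | rfl | rfl <;>
    rcases he' with rfl | rfl | rfl | rfl | rfl | rfl <;>
    rcases ha with rfl | rfl | rfl <;> rcases hb with rfl | rfl | rfl <;>
    push_cast at h1 h2 <;>
    first
      | exact Or.inr ⟨rfl, rfl⟩
      | exact Or.inl ⟨rfl, rfl, by linarith⟩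
      | (exfalso; linarith)

/-- Two half open edges of the triangular lattice meet only in the obvious ways. -/
theorem tb_edges {q q' e e' : ℤ × ℤ} (he : e ∈ tbDir) (he' : e' ∈ tbDir) {t t' : ℝ}
    (ht : t ∈ Ico (0 : ℝ) 1) (ht' : t' ∈ Ico (0 : ℝ) 1)
    (h : tbR q + t • tbR e = tbR q' + t' • tbR e') :
    (q = q' ∧ t = t') ∨ (q' = q + e ∧ e' = -e) := by
  have h1 := congrArg Prod.fst h
  have h2 := congrArg Prod.snd h
  simp only [tbR, Prod.fst_add, Prod.snd_add, Prod.smul_fst, Prod.smul_snd, smul_eq_mul] at h1 h2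
  rcases tbpoly_aux (a := q'.1 - q.1) (b := q'.2 - q.2) he he' ht ht' (by push_cast; linarith)
    (by push_cast; linarith) with ⟨a, b, c⟩ | ⟨a, b⟩
  · exact Or.inl ⟨Prod.ext (by omega) (by omega), c⟩
  · refine Or.inr ⟨?_, b⟩
    rw [← a]
    exact Prod.ext (by simp) (by simp)

/-- The polygon is injective. -/
theorem tb_poly_inj {Q : ℤ → ℤ × ℤ} (hQ : Function.Injective Q)
    (hd : ∀ k, Q (k + 1) - Q k ∈ tbDir) : Function.Injective (tbPoly Q) := by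
  intro s s' h
  rcases tb_edges (hd _) (hd _) ⟨Int.fract_nonneg s, Int.fract_lt_one s⟩
    ⟨Int.fract_nonneg s', Int.fract_lt_one s'⟩ h with ⟨a, b⟩ | ⟨a, b⟩
  · rw [← Int.floor_add_fract s, ← Int.floor_add_fract s', hQ a, b]
  · have h1 : ⌊s'⌋ = ⌊s⌋ + 1 := hQ (by rw [a]; abel)
    rw [h1] at b
    have h2 : Q (⌊s⌋ + 1 + 1) = Q ⌊s⌋ := by
      rw [sub_eq_iff_eq_add] at b
      rw [b]
      abel
    have := hQ h2
    omega

theorem tbpoly_piece (Q : ℤ → ℤ × ℤ) (k : ℤ) {s : ℝ} (h0 : (k : ℝ) ≤ s) (h1 : s ≤ k + 1) :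
    tbPoly Q s = tbR (Q k) + (s - k) • tbR (Q (k + 1) - Q k) := by
  rcases h1.lt_or_eq with h | h
  · have hk : ⌊s⌋ = k := Int.floor_eq_iff.2 ⟨h0, h⟩
    rw [tbPoly, Int.fract, hk]
  · have hs : s = ((k + 1 : ℤ) : ℝ) := by push_cast; exact h
    rw [hs, tbPoly, Int.floor_intCast, Int.fract_intCast]
    refine Prod.ext ?_ ?_ <;> simp [tbR]

theorem tbpoly_same {Q : ℤ → ℤ × ℤ} (hd : ∀ k, Q (k + 1) - Q k ∈ tbDir) (k : ℤ) {s s' : ℝ}
    (h0 : (k : ℝ) ≤ s) (h : s ≤ s') (h1 : s' ≤ k + 1) :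
    dist (tbPoly Q s) (tbPoly Q s') ≤ s' - s := by
  rw [tbpoly_piece Q k h0 (h.trans h1), tbpoly_piece Q k (h0.trans h) h1, dist_add_left,
    dist_eq_norm, ← sub_smul, norm_smul, Real.norm_eq_abs, abs_of_nonpos (by linarith)]
  have h2 : ‖tbR (Q (k + 1) - Q k)‖ ≤ 1 := by
    rw [tbR, Prod.norm_mk]
    exact max_le (tbpoly_dir (hd k)).1 (tbpoly_dir (hd k)).2
  nlinarith

theorem tbpoly_step {Q : ℤ → ℤ × ℤ} (hd : ∀ k, Q (k + 1) - Q k ∈ tbDir) (k : ℤ) (n : ℕ) :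
    ∀ s s' : ℝ, (k : ℝ) ≤ s → s ≤ s' → s' ≤ k + n + 1 →
      dist (tbPoly Q s) (tbPoly Q s') ≤ s' - s := by
  induction n with
  | zero => exact fun s s' h0 h h1 => tbpoly_same hd k h0 h (by simpa using h1)
  | succ n ih =>
    intro s s' h0 h h1
    push_cast at h1
    rcases le_total s' (k + n + 1) with h2 | h2
    · exact ih s s' h0 h h2
    rcases le_total s (k + n + 1) with h3 | h3
    · have a := ih s _ h0 h3 le_rfl
      have b := tbpoly_same hd (k + n + 1) (s := k + n + 1) (s' := s') (by push_cast; rfl) h2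
        (by push_cast; linarith)
      linarith [dist_triangle (tbPoly Q s) (tbPoly Q (k + n + 1)) (tbPoly Q s')]
    · exact tbpoly_same hd (k + n + 1) (by push_cast; exact h3) h (by push_cast; linarith)

/-- The polygon is `1`-Lipschitz for the sup norm, in particular continuous. -/
theorem tb_poly_lip {Q : ℤ → ℤ × ℤ} (hd : ∀ k, Q (k + 1) - Q k ∈ tbDir) :
    LipschitzWith 1 (tbPoly Q) := by
  have key : ∀ s s' : ℝ, s ≤ s' → dist (tbPoly Q s) (tbPoly Q s') ≤ s' - s := fun s s' h =>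
    tbpoly_step hd ⌊s⌋ ⌈s' - ⌊s⌋⌉₊ s s' (Int.floor_le s) h (by linarith [Nat.le_ceil (s' - ⌊s⌋)])
  refine LipschitzWith.of_dist_le_mul fun s s' => ?_
  rw [NNReal.coe_one, one_mul, Real.dist_eq]
  rcases le_total s s' with h | h
  · exact (key s s' h).trans (by rw [abs_sub_comm]; exact le_abs_self _)
  · rw [dist_comm]
    exact (key s' s h).trans (le_abs_self _)

theorem tbpoly_form : ∀ e ∈ tbDir, ∀ e' ∈ tbDir, e' ≠ -e →
    0 < (2 * (e.1 + e'.1) - (e.2 + e'.2)) * e.1 + (2 * (e.2 + e'.2) - (e.1 + e'.1)) * e.2 ∧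
    0 < (2 * (e.1 + e'.1) - (e.2 + e'.2)) * e'.1 + (2 * (e.2 + e'.2) - (e.1 + e'.1)) * e'.2 := by
  decide

/-- Two consecutive directions of a path with distinct vertices lie in an open half plane. -/
theorem tb_half {e e' : ℤ × ℤ} (he : e ∈ tbDir) (he' : e' ∈ tbDir) (h : e' ≠ -e) :
    ∃ l : (ℝ × ℝ) →L[ℝ] ℝ, 0 < l (tbR e) ∧ 0 < l (tbR e') := by
  obtain ⟨a, b⟩ := tbpoly_form e he e' he' h
  refine ⟨((2 * (e.1 + e'.1) - (e.2 + e'.2) : ℤ) : ℝ) • ContinuousLinearMap.fst ℝ ℝ ℝ +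
    ((2 * (e.2 + e'.2) - (e.1 + e'.1) : ℤ) : ℝ) • ContinuousLinearMap.snd ℝ ℝ ℝ, ?_, ?_⟩
  · change (0 : ℝ) < _ * (e.1 : ℝ) + _ * (e.2 : ℝ)
    exact_mod_cast a
  · change (0 : ℝ) < _ * (e'.1 : ℝ) + _ * (e'.2 : ℝ)
    exact_mod_cast b

/-- Uniform separation of far apart parameters, for a path with two straight ends. -/
theorem tb_poly_sep {Q : ℤ → ℤ × ℤ} (hQ : Function.Injective Q)
    (hd : ∀ k, Q (k + 1) - Q k ∈ tbDir) {m x₀ y₀ y₁ : ℤ}
    (h0 : ∀ k ≤ 0, Q k = (x₀ - k, y₀)) (h1 : ∀ k, m ≤ k → Q k = (x₀ + (k - m), y₁)) :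
    ∃ ε : ℝ, 0 < ε ∧ ∀ s s' : ℝ, 1 / 2 ≤ |s - s'| → ε ≤ ‖tbPoly Q s - tbPoly Q s'‖ := by
  have hy : y₀ ≠ y₁ := by
    rintro rfl
    have a : (0 : ℤ) = m := hQ (by rw [h0 0 le_rfl, h1 m le_rfl]; simp)
    have b : (-1 : ℤ) = m + 1 := hQ (by rw [h0 (-1) (by omega), h1 (m + 1) (by omega)]; simp)
    omega
  have hy' : (1 : ℝ) ≤ |(y₀ : ℝ) - y₁| := by exact_mod_cast Int.one_le_abs (sub_ne_zero.2 hy)
  have r0 : ∀ s : ℝ, s ≤ 0 → tbPoly Q s = (x₀ - s, (y₀ : ℝ)) := fun s hs => by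
    have hc : ⌈s⌉ ≤ 0 := Int.ceil_le.2 (by simpa using hs)
    rw [tbpoly_piece Q (⌈s⌉ - 1) (by push_cast; linarith [Int.ceil_lt_add_one s])
      (by push_cast; linarith [Int.le_ceil s]), h0 _ (by omega), h0 _ (by omega)]
    refine Prod.ext ?_ ?_ <;> simp [tbR]
  have r1 : ∀ s : ℝ, (m : ℝ) ≤ s → tbPoly Q s = (x₀ + (s - m), (y₁ : ℝ)) := fun s hs => by
    have hc : m ≤ ⌊s⌋ := Int.le_floor.2 hs
    rw [tbpoly_piece Q ⌊s⌋ (Int.floor_le s) (Int.lt_floor_add_one s).le, h1 _ hc, h1 _ (by omega)]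
    generalize ⌊s⌋ = k
    refine Prod.ext ?_ ?_ <;> simp [tbR]
    ring
  have hL := tb_poly_lip hd
  have f1 : ∀ p q : ℝ × ℝ, |p.1 - q.1| ≤ ‖p - q‖ := fun p q => norm_fst_le (p - q)
  have f2 : ∀ p q : ℝ × ℝ, |p.2 - q.2| ≤ ‖p - q‖ := fun p q => norm_snd_le (p - q)
  set N : ℝ := 2 * |(m : ℝ)| + 1 with hN
  have hK : IsCompact ((Icc (-N) N ×ˢ Icc (-N) N) ∩ {p : ℝ × ℝ | 1 / 2 ≤ |p.1 - p.2|}) :=
    (isCompact_Icc.prod isCompact_Icc).inter_right (isClosed_le continuous_const (by fun_prop))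
  have hc : Continuous fun p : ℝ × ℝ => ‖tbPoly Q p.1 - tbPoly Q p.2‖ :=
    ((hL.continuous.comp continuous_fst).sub (hL.continuous.comp continuous_snd)).norm
  obtain ⟨δ, hδ, hδ'⟩ := hK.exists_forall_le' (a := 0) hc.continuousOn fun p hp => by
    refine norm_pos_iff.2 (sub_ne_zero.2 fun h => ?_)
    have h2 : (1 : ℝ) / 2 ≤ |p.1 - p.2| := hp.2
    rw [tb_poly_inj hQ hd h, sub_self, abs_zero] at h2
    norm_num at h2
  have hm := le_abs_self (m : ℝ)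
  have hm0 := abs_nonneg (m : ℝ)
  have far : ∀ s s' : ℝ, 1 / 2 ≤ |s - s'| → N < |s| → 1 / 2 ≤ ‖tbPoly Q s - tbPoly Q s'‖ := by
    intro s s' h hs
    have a1 := f1 (tbPoly Q s) (tbPoly Q s')
    have a2 := f2 (tbPoly Q s) (tbPoly Q s')
    have mid : 0 ≤ s' → s' ≤ m → (tbPoly Q s').1 ≤ x₀ + m := fun b1 b2 => by
      have c1 := hL.dist_le_mul s' 0
      have c2 := f1 (tbPoly Q s') (tbPoly Q 0)
      rw [NNReal.coe_one, one_mul, Real.dist_eq, sub_zero, abs_of_nonneg b1, dist_eq_norm] at c1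
      rw [r0 0 le_rfl] at c1 c2
      have c3 := (abs_le.1 (c2.trans c1)).2
      simp only at c3
      linarith
    rcases lt_abs.1 hs with b | b
    · rw [r1 s (by linarith)] at a1 a2 ⊢
      rcases le_total s' 0 with c | c
      · rw [r0 s' c] at a2 ⊢
        rw [abs_sub_comm] at a2
        linarith
      rcases le_total s' m with d | d
      · have := mid c d
        have := (le_abs_self _).trans a1
        simp only at this
        linarith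
      · rw [r1 s' d] at a1 ⊢
        refine h.trans (le_trans (le_of_eq ?_) a1)
        congr 1
        ring
    · rw [r0 s (by linarith)] at a1 a2 ⊢
      rcases le_total s' 0 with c | c
      · rw [r0 s' c] at a1 ⊢
        refine h.trans (le_trans (le_of_eq ?_) a1)
        rw [abs_sub_comm]
        congr 1
        ring
      rcases le_total s' m with d | d
      · have := mid c d
        have := (le_abs_self _).trans a1
        simp only at this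
        linarith
      · rw [r1 s' d] at a2 ⊢
        linarith
  refine ⟨min δ (1 / 2), lt_min hδ one_half_pos, fun s s' h => ?_⟩
  by_cases a : N < |s|
  · exact (min_le_right _ _).trans (far s s' h a)
  by_cases b : N < |s'|
  · rw [norm_sub_rev]
    exact (min_le_right _ _).trans (far s' s (by rwa [abs_sub_comm]) b)
  · exact (min_le_left _ _).trans
      (hδ' (s, s') ⟨⟨abs_le.1 (not_lt.1 a), abs_le.1 (not_lt.1 b)⟩, h⟩)

end Pool.Agent.Lib.MP_ccffa6_gt
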