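import Pool.Agent.Lib.MP_ccffa6_gt.T.BPlane

/-!
The two model charts: smoothness, injectivity, pulled back forms.
-/

open Set
open scoped ContDiff

noncomputable section

namespace Pool.Agent.Lib.MP_ccffa6_gt

variable {k : ℕ} {T : ℂ → ℝ × ℝ} {b : ℝ → ℝ}

theorem tbpull_pr (j : Fin (k + 2)) : ContDiff ℝ ∞ fun h : Cm k => h j := (tbPr j).contDiff

theorem tbpull_ofReal {F : Type} [NormedAddCommGroup F] [NormedSpace ℝ F] {ρ : F → ℝ} {y : F}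
    (h : ContDiffAt ℝ ∞ ρ y) : ContDiffAt ℝ ∞ (fun y => (ρ y : ℂ)) y :=
  Complex.ofRealCLM.contDiff.contDiffAt.comp y h

theorem tbpull_m (hT : ContDiff ℝ ∞ T) : ContDiff ℝ ∞ fun h : Cm k => (T (h 0)).1 :=
  (hT.comp (tbpull_pr 0)).fst

theorem tbpull_dv (hT : ContDiff ℝ ∞ T) {h : Cm k} (hm : 0 < (T (h 0)).1) (j : Fin (k + 2)) :
    ContDiffAt ℝ ∞ (fun h : Cm k => h j / (√(T (h 0)).1 : ℝ)) h := by
  have h1 : ContDiffAt ℝ ∞ (fun h : Cm k => (√(T (h 0)).1)⁻¹) h :=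
    ((tbpull_m hT).contDiffAt.sqrt hm.ne').inv (Real.sqrt_pos.2 hm).ne'
  have h2 := (tbpull_pr j).contDiffAt.mul (tbpull_ofReal h1)
  simpa only [div_eq_mul_inv, Complex.ofReal_inv] using h2

theorem tbpull_rho (hT : ContDiff ℝ ∞ T) (hb : ContDiff ℝ ∞ b) {h : Cm k} (hm : 0 < (T (h 0)).1)
    (hw : h 1 ≠ 0) :
    ContDiffAt ℝ ∞ (fun h : Cm k => Real.exp (tbMu b (h 1) / (T (h 0)).1) / ‖h 1‖) h := by
  have h1 : ContDiffAt ℝ ∞ (fun h : Cm k => ‖h 1‖) h := (tbpull_pr 1).contDiffAt.norm ℝ hw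
  have h2 : ‖h 1‖ ≠ 0 := norm_ne_zero_iff.2 hw
  have h3 : ContDiffAt ℝ ∞ (fun h : Cm k => tbMu b (h 1)) h :=
    (h1.pow 2).add (hb.contDiffAt.comp h (h1.log h2))
  exact ((h3.div (tbpull_m hT).contDiffAt hm.ne').exp).div h1 h2

theorem tbpull_nrm {r : ℝ} {w : ℂ} (hw : w ≠ 0) :
    ‖((Real.exp r / ‖w‖ : ℝ) : ℂ) * w‖ = Real.exp r := by
  rw [norm_mul, Complex.norm_real, Real.norm_of_nonneg (by positivity)]
  exact div_mul_cancel₀ _ (norm_ne_zero_iff.2 hw)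

theorem tbpull_sq {a : ℝ} (hm : 0 < a) : ((√a : ℝ) : ℂ) ≠ 0 :=
  Complex.ofReal_ne_zero.2 (Real.sqrt_pos.2 hm).ne'

theorem tb_p1_sm (hT : ContDiff ℝ ∞ T) (hb : ContDiff ℝ ∞ b) {h : Cm k} (hm : 0 < (T (h 0)).1)
    (hw : h 1 ≠ 0) : ContDiffAt ℝ ∞ (tbP1 T b) h := by
  refine (tbpull_m hT).contDiffAt.prodMk ((hT.comp (tbpull_pr 0)).snd.contDiffAt.prodMk
    (ContDiffAt.prodMk ?_ (contDiffAt_pi.2 fun j => tbpull_dv hT hm _)))
  exact (tbpull_ofReal (tbpull_rho hT hb hm hw)).mul (tbpull_pr 1).contDiffAt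

theorem tb_p2_sm (hT : ContDiff ℝ ∞ T) {h : Cm k} (hm : 0 < (T (h 0)).1) :
    ContDiffAt ℝ ∞ (tbP2 T) h := by
  exact (tbpull_m hT).contDiffAt.prodMk ((hT.comp (tbpull_pr 0)).snd.contDiffAt.prodMk
    ((tbpull_dv hT hm 1).prodMk (contDiffAt_pi.2 fun j => tbpull_dv hT hm _)))

theorem tb_polar_q2 {a : ℝ × ℝ} (hm : 0 < a.1) {w : ℂ} (hw : w ≠ 0) (x : Fin k → ℂ) :
    polar (tbQ2 a w x) = tbQ1 a (‖w‖ ^ 2) w x := by
  have h1 : ‖w / (√a.1 : ℝ)‖ = ‖w‖ / √a.1 := by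
    rw [norm_div, Complex.norm_real, Real.norm_of_nonneg (Real.sqrt_nonneg _)]
  have h2 := tbpull_sq hm
  have h3 : ((‖w‖ : ℝ) : ℂ) ≠ 0 := Complex.ofReal_ne_zero.2 (norm_ne_zero_iff.2 hw)
  refine Prod.ext rfl (Prod.ext ?_ rfl)
  show ((Real.exp (‖w / (√a.1 : ℝ)‖ ^ 2) / ‖w / (√a.1 : ℝ)‖ : ℝ) : ℂ) * (w / (√a.1 : ℝ)) =
    ((Real.exp (‖w‖ ^ 2 / a.1) / ‖w‖ : ℝ) : ℂ) * w
  rw [h1, div_pow, Real.sq_sqrt hm.le]
  simp only [Complex.ofReal_div]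
  field_simp

theorem tb_q1_inj {a : ℝ × ℝ} (hm : 0 < a.1) {μ μ' : ℝ} {w w' : ℂ} (hw : w ≠ 0) (hw' : w' ≠ 0)
    {x x' : Fin k → ℂ} (h : tbQ1 a μ w x = tbQ1 a μ' w' x') :
    μ = μ' ∧ x = x' ∧ (‖w‖ = ‖w'‖ → w = w') := by
  have h1 : ((Real.exp (μ / a.1) / ‖w‖ : ℝ) : ℂ) * w = ((Real.exp (μ' / a.1) / ‖w'‖ : ℝ) : ℂ) * w' :=
    congrArg (fun p => p.2.1) h
  have h2 := congrArg norm h1
  rw [tbpull_nrm hw, tbpull_nrm hw', Real.exp_eq_exp, div_left_inj' hm.ne'] at h2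
  refine ⟨h2, funext fun j => ?_, fun e => ?_⟩
  · have h3 : x j / (√a.1 : ℝ) = x' j / (√a.1 : ℝ) := congrArg (fun p => p.2.2 j) h
    exact (div_left_inj' (tbpull_sq hm)).1 h3
  · rw [h2, e] at h1
    refine mul_left_cancel₀ (Complex.ofReal_ne_zero.2 ?_) h1
    have := norm_pos_iff.2 hw'
    positivity

theorem tb_q2_inj {a : ℝ × ℝ} (hm : 0 < a.1) {w w' : ℂ} {x x' : Fin k → ℂ}
    (h : tbQ2 a w x = tbQ2 a w' x') : w = w' ∧ x = x' := by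
  refine ⟨?_, funext fun j => ?_⟩
  · have h3 : w / (√a.1 : ℝ) = w' / (√a.1 : ℝ) := congrArg (fun p => p.2.1) h
    exact (div_left_inj' (tbpull_sq hm)).1 h3
  · have h3 : x j / (√a.1 : ℝ) = x' j / (√a.1 : ℝ) := congrArg (fun p => p.2.2 j) h
    exact (div_left_inj' (tbpull_sq hm)).1 h3

theorem tb_cm_ext {h h' : Cm k} (h0 : h 0 = h' 0) (h1 : h 1 = h' 1) (hx : tbX h = tbX h') :
    h = h' := by
  ext j
  refine Fin.cases h0 (fun i => Fin.cases h1 (fun l => congrFun hx l) i) j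

/-- Rescaling by a real function: `ang (ρ c) (d (ρ c)) = ρ² ang c dc`. -/
theorem tb_ang_scale {F : Type} [NormedAddCommGroup F] [NormedSpace ℝ F] {ρ : F → ℝ} {c : F → ℂ}
    {y : F} (hρ : DifferentiableAt ℝ ρ y) (hc : DifferentiableAt ℝ c y) (X : F) :
    ang ((ρ y : ℂ) * c y) (fderiv ℝ (fun y => (ρ y : ℂ) * c y) y X) =
      ρ y ^ 2 * ang (c y) (fderiv ℝ c y X) := by
  have h1 := (Complex.ofRealCLM.hasFDerivAt.comp y hρ.hasFDerivAt).mul hc.hasFDerivAt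
  have h2 : fderiv ℝ (fun y => (ρ y : ℂ) * c y) y = _ := h1.fderiv
  rw [h2]
  simp [ang]
  ring

theorem tbpull_lin {F A B : Type} [NormedAddCommGroup F] [NormedSpace ℝ F] [NormedAddCommGroup A]
    [NormedSpace ℝ A] [NormedAddCommGroup B] [NormedSpace ℝ B] (L : A →L[ℝ] B) {P : F → A} {y : F}
    (hP : DifferentiableAt ℝ P y) (X : F) :
    L (fderiv ℝ P y X) = fderiv ℝ (fun y => L (P y)) y X := by
  have h : fderiv ℝ (fun y => L (P y)) y = _ := (L.hasFDerivAt.comp y hP.hasFDerivAt).fderiv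
  rw [h]
  rfl

theorem tbpull_div (hT : ContDiff ℝ ∞ T) {h : Cm k} (hm : 0 < (T (h 0)).1) (j : Fin (k + 2))
    (X : Cm k) : (T (h 0)).1 * ang (h j / (√(T (h 0)).1 : ℝ))
      (fderiv ℝ (fun h : Cm k => h j / (√(T (h 0)).1 : ℝ)) h X) = ang (h j) (X j) := by
  have h1 : ContDiffAt ℝ ∞ (fun h : Cm k => (√(T (h 0)).1)⁻¹) h :=
    ((tbpull_m hT).contDiffAt.sqrt hm.ne').inv (Real.sqrt_pos.2 hm).ne'
  have h2 := tb_ang_scale (h1.differentiableAt (by simp)) (tbPr j).differentiableAt X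
  rw [(tbPr j).fderiv] at h2
  simp only [tbPr_apply, Complex.ofReal_inv, ← div_eq_inv_mul] at h2
  rw [h2, inv_pow, Real.sq_sqrt hm.le, ← mul_assoc, mul_inv_cancel₀ hm.ne', one_mul]

theorem tbpull_st (hT : ContDiff ℝ ∞ T) {h : Cm k} (hm : 0 < (T (h 0)).1) {w : Cm k → ℂ}
    {P : Cm k → ℝ × Mod (k + 1)} (hP : DifferentiableAt ℝ P h)
    (e : ∀ h, (P h).2 = ((T (h 0)).2, w h, fun j : Fin k => tbX h j / (√(T (h 0)).1 : ℝ)))
    (X : Cm k) : (T (h 0)).1 * lamSt (P h).2 (fderiv ℝ P h X).2 =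
      tbA0 T (h 0) (X 0) + ∑ j : Fin k, ang (h j.succ.succ) (X j.succ.succ) ∧
      Mod.w (k + 1) (fderiv ℝ P h X).2 = fderiv ℝ w h X := by
  have a1 := tbpull_lin ((Mod.z (k + 1)).comp (ContinuousLinearMap.snd ℝ ℝ _)) hP X
  have a2 := tbpull_lin ((Mod.w (k + 1)).comp (ContinuousLinearMap.snd ℝ ℝ _)) hP X
  have a3 := fun i => tbpull_lin ((Mod.x (k + 1) i).comp (ContinuousLinearMap.snd ℝ ℝ _)) hP X
  simp only [ContinuousLinearMap.comp_apply, ContinuousLinearMap.coe_snd', e] at a1 a2 a3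
  refine ⟨?_, a2⟩
  have b1 : Mod.z (k + 1) (fderiv ℝ P h X).2 = (fderiv ℝ T (h 0) (X 0)).2 := by
    rw [a1]
    have := ((hT.differentiable (by simp) (h 0)).hasFDerivAt.comp h (tbPr 0).hasFDerivAt).snd
    exact congrArg (fun L : Cm k →L[ℝ] ℝ => L X) this.fderiv
  have b3 : ∀ i : Fin k, (T (h 0)).1 * ang ((P h).2.2.2 i) (Mod.x (k + 1) i (fderiv ℝ P h X).2) =
      ang (h i.succ.succ) (X i.succ.succ) := fun i => by
    rw [a3 i, e]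
    exact tbpull_div hT hm i.succ.succ X
  simp only [lamSt, add_apply, sum_apply, ContinuousLinearMap.comp_apply, mul_add,
    Finset.mul_sum, b1]
  congr 1
  exact Finset.sum_congr rfl fun i _ => b3 i

/-- Sketch: components of `fderiv` by `fderiv_prodMk`-type lemmas or by composing with the linear
maps `Mod.z`, `Mod.w`, `Mod.x`; `tb_ang_scale` with `ρ = 1 / √m`; the `w` component `w₁ = ρ w` has
`log ‖w₁‖ = μ / m` and `ρ² / ‖w₁‖² = 1 / ‖w‖²`. -/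
theorem tb_pull1 (hT : ContDiff ℝ ∞ T) (hb : ContDiff ℝ ∞ b) {h : Cm k} (hm : 0 < (T (h 0)).1)
    (hw : h 1 ≠ 0) (X : Cm k) :
    (tbP1 T b h).1 / 2 * lam1 (tbP1 T b h).2 (fderiv ℝ (tbP1 T b) h X).2 =
      tbForm T (tbPhi b) h X := by
  have hP := (tb_p1_sm hT hb hm hw).differentiableAt (by simp)
  obtain ⟨h1, h2⟩ := tbpull_st hT hm hP (fun _ => rfl) X
  have h3 := tb_ang_scale ((tbpull_rho hT hb hm hw).differentiableAt (by simp))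
    (tbPr 1).differentiableAt X
  rw [(tbPr 1).fderiv] at h3
  simp only [tbPr_apply] at h3
  have h4 : (tbP1 T b h).2.2.1 =
      ((Real.exp (tbMu b (h 1) / (T (h 0)).1) / ‖h 1‖ : ℝ) : ℂ) * h 1 := rfl
  have h5 : (tbP1 T b h).1 = (T (h 0)).1 := rfl
  have h6 : ‖h 1‖ ≠ 0 := norm_ne_zero_iff.2 hw
  have h7 := Real.exp_pos (tbMu b (h 1) / (T (h 0)).1)
  simp only [lam1, tbForm, add_apply, smul_apply, sum_apply,
    ContinuousLinearMap.comp_apply, tbPr_apply, smul_eq_mul, h2, h4, h5, h3, tbpull_nrm hw,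
    Real.log_exp, tbPhi]
  field_simp
  linear_combination ‖h 1‖ ^ 2 * h1

theorem tb_pull2 (hT : ContDiff ℝ ∞ T) {h : Cm k} (hm : 0 < (T (h 0)).1) (X : Cm k) :
    (tbP2 T h).1 / 2 * lam2 (tbP2 T h).2 (fderiv ℝ (tbP2 T) h X).2 =
      tbForm T (fun _ => 1) h X := by
  have hP := (tb_p2_sm hT hm).differentiableAt (by simp)
  obtain ⟨h1, h2⟩ := tbpull_st hT hm hP (fun _ => rfl) X
  have h3 := tbpull_div hT hm 1 X
  have h4 : (tbP2 T h).2.2.1 = h 1 / (√(T (h 0)).1 : ℝ) := rfl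
  have h5 : (tbP2 T h).1 = (T (h 0)).1 := rfl
  simp only [lam2, tbForm, add_apply, smul_apply, sum_apply,
    ContinuousLinearMap.comp_apply, tbPr_apply, smul_eq_mul, h2, h4, h5]
  linear_combination (1 / 2) * h1 + (1 / 2) * h3

end Pool.Agent.Lib.MP_ccffa6_gt
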