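import Pool.Agent.Lib.MP_ccffa6_gt.T.BPoly

/-!
Rounding the corners of a simple lattice polygon with two straight ends.
-/

open Set
open scoped ContDiff

noncomputable section

namespace Pool.Agent.Lib.MP_ccffa6_gt

theorem tbsm_symm (x : ℝ) : Real.smoothTransition x + Real.smoothTransition (1 - x) = 1 := by
  have h := (Real.smoothTransition.pos_denom x).ne'
  unfold Real.smoothTransition
  rw [sub_sub_cancel, add_comm (expNegInvGlue (1 - x)), ← add_div, div_self h]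

/-- A smooth version of `max s 0`. -/
theorem tb_ramp {ε : ℝ} (hε : 0 < ε) :
    ∃ Λ : ℝ → ℝ, ContDiff ℝ ∞ Λ ∧ (∀ s ≤ -ε, Λ s = 0) ∧ (∀ s, ε ≤ s → Λ s = s) ∧
      (∀ s, deriv Λ s ∈ Icc (0 : ℝ) 1) ∧ ∀ s, |Λ s - max s 0| ≤ ε := by
  obtain ⟨g, hg⟩ : ∃ g : ℝ → ℝ, g = fun t => Real.smoothTransition ((t + ε) / (2 * ε)) := ⟨_, rfl⟩
  have gs : ContDiff ℝ ∞ g := by
    rw [hg]
    exact Real.smoothTransition.contDiff.comp ((contDiff_id.add contDiff_const).div_const _)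
  have g01 : ∀ t, g t ∈ Icc (0 : ℝ) 1 := fun t => by
    rw [hg]
    exact ⟨Real.smoothTransition.nonneg _, Real.smoothTransition.le_one _⟩
  have g0 : ∀ t ≤ -ε, g t = 0 := fun t ht => by
    rw [hg]
    exact Real.smoothTransition.zero_of_nonpos
      (div_nonpos_of_nonpos_of_nonneg (by linarith) (by positivity))
  have gsy : ∀ t, g t + g (-t) = 1 := fun t => by
    have := tbsm_symm ((t + ε) / (2 * ε))
    rw [show 1 - (t + ε) / (2 * ε) = (-t + ε) / (2 * ε) by field_simp; ring] at this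
    rw [hg]
    exact this
  obtain ⟨Λ, hΛ⟩ : ∃ Λ : ℝ → ℝ, Λ = fun s => ∫ t in (-ε)..s, g t := ⟨_, rfl⟩
  have hd : ∀ s, HasDerivAt Λ (g s) s := fun s => by
    rw [hΛ]
    exact (gs.continuous.integral_hasStrictDerivAt _ _).hasDerivAt
  have hd' : deriv Λ = g := funext fun s => (hd s).deriv
  have z : ∀ s ≤ -ε, Λ s = 0 := fun s hs => by
    rw [hΛ]
    refine (intervalIntegral.integral_congr (g := fun _ => 0) fun t ht => g0 t ?_).trans (by simp)
    rw [uIcc_of_ge hs] at ht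
    exact ht.2
  have sy : ∀ s, Λ s - Λ (-s) - s = 0 := fun s => by
    have h : ∀ t, HasDerivAt (fun t => Λ t - Λ (-t) - t) 0 t := fun t => by
      have := ((hd t).sub ((hd (-t)).comp t (hasDerivAt_neg t))).sub (hasDerivAt_id t)
      rw [show g t - g (-t) * -1 - 1 = 0 by linarith [gsy t]] at this
      exact this
    have := is_const_of_deriv_eq_zero (fun t => (h t).differentiableAt) (fun t => (h t).deriv) s 0
    simpa using this
  have b : ∀ s ≤ 0, |Λ s| ≤ ε := fun s hs => by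
    rcases le_total s (-ε) with h | h
    · rw [z s h, abs_zero]
      exact hε.le
    · have := intervalIntegral.norm_integral_le_of_norm_le_const (a := -ε) (b := s) (C := 1)
        (f := g) fun t _ => by rw [Real.norm_eq_abs, abs_of_nonneg (g01 t).1]; exact (g01 t).2
      rw [one_mul, Real.norm_eq_abs, abs_of_nonneg (by linarith : 0 ≤ s - -ε)] at this
      rw [hΛ]
      exact this.trans (by linarith)
  refine ⟨Λ, contDiff_infty_iff_deriv.2 ⟨fun s => (hd s).differentiableAt, hd' ▸ gs⟩, z,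
    fun s hs => ?_, fun s => hd' ▸ g01 s, fun s => ?_⟩
  · linarith [sy s, z (-s) (by linarith)]
  · rcases le_total s 0 with h | h
    · rw [max_eq_right h, sub_zero]
      exact b s h
    · rw [max_eq_left h, show Λ s - s = Λ (-s) by linarith [sy s]]
      exact b _ (by linarith)

theorem tbsm_norm {e : ℤ × ℤ} (he : e ∈ tbDir) : ‖tbR e‖ ≤ 1 := by
  simp only [tbDir, Finset.mem_insert, Finset.mem_singleton] at he
  rcases he with rfl | rfl | rfl | rfl | rfl | rfl <;> simp [tbR]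

theorem tbsm_sub (a b : ℤ × ℤ) : tbR (a - b) = tbR a - tbR b := by simp [tbR]

/-- The local model near the vertex `k`. -/
def tbsmF (Q : ℤ → ℤ × ℤ) (Λ : ℝ → ℝ) (k : ℤ) (s : ℝ) : ℝ × ℝ :=
  tbR (Q k) + (s - k) • tbR (Q k - Q (k - 1)) +
    Λ (s - k) • (tbR (Q (k + 1) - Q k) - tbR (Q k - Q (k - 1)))

theorem tbsm_poly (Q : ℤ → ℤ × ℤ) {k : ℤ} {s : ℝ} (h : |s - k| < 1) :
    tbPoly Q s = tbsmF Q (fun t => max t 0) k s := by
  obtain ⟨h1, h2⟩ := abs_lt.1 h
  unfold tbPoly tbsmF Int.fract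
  beta_reduce
  rcases le_or_gt (k : ℝ) s with hs | hs
  · have : ⌊s⌋ = k := Int.floor_eq_iff.2 ⟨hs, by linarith⟩
    rw [this, max_eq_left (by linarith)]
    module
  · have : ⌊s⌋ = k - 1 := Int.floor_eq_iff.2 ⟨by push_cast; linarith, by push_cast; linarith⟩
    rw [this, max_eq_right (by linarith), sub_add_cancel, tbsm_sub]
    push_cast
    module

/-- A smooth embedded curve close to the polygon, with the same ends. -/
theorem tb_round {Q : ℤ → ℤ × ℤ} (hQ : Function.Injective Q)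
    (hd : ∀ k, Q (k + 1) - Q k ∈ tbDir) {m x₀ y₀ y₁ : ℤ} (hm : 0 < m)
    (h0 : ∀ k ≤ 0, Q k = (x₀ - k, y₀)) (h1 : ∀ k, m ≤ k → Q k = (x₀ + (k - m), y₁)) :
    ∃ γ : ℝ → ℝ × ℝ, ContDiff ℝ ∞ γ ∧ Function.Injective γ ∧ (∀ s, deriv γ s ≠ 0) ∧
      (∀ s ≤ -1, γ s = ((x₀ : ℝ) - s, (y₀ : ℝ))) ∧
      (∀ s, (m : ℝ) + 1 ≤ s → γ s = ((x₀ : ℝ) + (s - m), (y₁ : ℝ))) ∧
      ∀ s, ‖γ s - tbR (Q ⌊s⌋)‖ ≤ 2 := by
  obtain ⟨ε₀, hε₀, hsep⟩ := tb_poly_sep hQ hd h0 h1
  obtain ⟨ε, hε, e1, e2⟩ : ∃ ε : ℝ, 0 < ε ∧ ε ≤ 1 / 4 ∧ ε ≤ ε₀ / 8 :=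
    ⟨min (1 / 4) (ε₀ / 8), by positivity, min_le_left _ _, min_le_right _ _⟩
  obtain ⟨Λ, sΛ, z, o, dΛ, aΛ⟩ := tb_ramp hε
  have hd' : ∀ k, Q k - Q (k - 1) ∈ tbDir := fun k => by simpa using hd (k - 1)
  have rd : ∀ s : ℝ, |s - ⌊s + 1 / 2⌋| ≤ 1 / 2 := fun s =>
    abs_le.2 ⟨by linarith [Int.floor_le (s + 1 / 2)], by linarith [Int.lt_floor_add_one (s + 1 / 2)]⟩
  have cons : ∀ (k : ℤ) (s : ℝ), 1 / 4 ≤ s - k → s - k ≤ 3 / 4 →
      tbsmF Q Λ k s = tbsmF Q Λ (k + 1) s := fun k s a b => by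
    unfold tbsmF
    rw [o _ (by linarith), z _ (by push_cast; linarith), add_sub_cancel_right,
      tbsm_sub (Q (k + 1)) (Q k)]
    push_cast
    module
  obtain ⟨γ, hγ⟩ : ∃ γ : ℝ → ℝ × ℝ, γ = fun s => tbsmF Q Λ ⌊s + 1 / 2⌋ s := ⟨_, rfl⟩
  have loc : ∀ (k : ℤ) (s : ℝ), |s - k| ≤ 3 / 4 → γ s = tbsmF Q Λ k s := fun k s h => by
    obtain ⟨a, b⟩ := abs_le.1 h
    have c := Int.floor_le (s + 1 / 2)
    have d := Int.lt_floor_add_one (s + 1 / 2)
    rw [hγ]
    beta_reduce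
    generalize ⌊s + 1 / 2⌋ = j at c d ⊢
    have i1 : j < k + 2 := by exact_mod_cast (by linarith : (j : ℝ) < k + 2)
    have i2 : k < j + 2 := by exact_mod_cast (by linarith : (k : ℝ) < j + 2)
    obtain rfl | rfl | rfl : j = k + 1 ∨ j = k ∨ k = j + 1 := by omega
    · push_cast at c d
      exact (cons k s (by linarith) b).symm
    · rfl
    · push_cast at a b
      exact cons j s (by linarith) (by linarith)
  have ev : ∀ s : ℝ, γ =ᶠ[nhds s] tbsmF Q Λ ⌊s + 1 / 2⌋ := fun s => by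
    filter_upwards [Metric.closedBall_mem_nhds s (by norm_num : (0 : ℝ) < 1 / 4)] with t ht
    refine loc _ t ?_
    rw [Metric.mem_closedBall, Real.dist_eq] at ht
    have := abs_sub_le t s ⌊s + 1 / 2⌋
    linarith [rd s]
  have sF : ∀ k, ContDiff ℝ ∞ (tbsmF Q Λ k) := fun k =>
    (contDiff_const.add ((contDiff_id.sub contDiff_const).smul contDiff_const)).add
      ((sΛ.comp (contDiff_id.sub contDiff_const)).smul contDiff_const)
  have dF : ∀ (k : ℤ) s, HasDerivAt (tbsmF Q Λ k) (tbR (Q k - Q (k - 1)) + deriv Λ (s - k) •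
      (tbR (Q (k + 1) - Q k) - tbR (Q k - Q (k - 1)))) s := fun k s => by
    have a := (((hasDerivAt_id s).sub_const (k : ℝ)).smul_const (tbR (Q k - Q (k - 1)))).const_add
      (tbR (Q k))
    have b := ((sΛ.differentiable (by simp) (s - k)).hasDerivAt.comp s
      ((hasDerivAt_id s).sub_const (k : ℝ))).smul_const
      (tbR (Q (k + 1) - Q k) - tbR (Q k - Q (k - 1)))
    rw [one_smul] at a
    rw [mul_one] at b
    exact a.add b
  have pos : ∀ k : ℤ, ∃ l : (ℝ × ℝ) →L[ℝ] ℝ, ∀ t ∈ Icc (0 : ℝ) 1, 0 < l (tbR (Q k - Q (k - 1)) +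
      t • (tbR (Q (k + 1) - Q k) - tbR (Q k - Q (k - 1)))) := fun k => by
    obtain ⟨l, a, b⟩ := tb_half (hd' k) (hd k) fun h => by
      have : Q (k + 1) = Q (k - 1) := by
        rw [neg_sub, sub_left_inj] at h
        exact h
      have := hQ this
      omega
    refine ⟨l, fun t ht => ?_⟩
    rw [map_add, map_smul, map_sub, smul_eq_mul]
    rcases le_total (l (tbR (Q k - Q (k - 1)))) (l (tbR (Q (k + 1) - Q k))) with h | h
    · nlinarith [ht.1]
    · nlinarith [ht.2]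
  have close : ∀ s, ‖γ s - tbPoly Q s‖ ≤ 2 * ε := fun s => by
    rw [loc _ s ((rd s).trans (by norm_num)), tbsm_poly Q ((rd s).trans_lt (by norm_num))]
    unfold tbsmF
    rw [add_sub_add_left_eq_sub, ← sub_smul, norm_smul, mul_comm 2]
    refine mul_le_mul (aΛ _) ((norm_sub_le _ _).trans ?_) (norm_nonneg _) hε.le
    linarith [tbsm_norm (hd ⌊s + 1 / 2⌋), tbsm_norm (hd' ⌊s + 1 / 2⌋)]
  refine ⟨γ, contDiff_iff_contDiffAt.2 fun s => (sF _).contDiffAt.congr_of_eventuallyEq (ev s),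
    fun s s' h => ?_, fun s => ?_, fun s hs => ?_, fun s hs => ?_, fun s => ?_⟩
  · rcases le_or_gt (1 / 2) |s - s'| with c | c
    · have a := hsep s s' c
      have b : tbPoly Q s - tbPoly Q s' = (γ s' - tbPoly Q s') - (γ s - tbPoly Q s) := by
        rw [h]
        abel
      have := norm_sub_le (γ s' - tbPoly Q s') (γ s - tbPoly Q s)
      rw [b] at a
      linarith [close s, close s']
    · obtain ⟨c1, c2⟩ := abs_lt.1 c
      obtain ⟨r1, r2⟩ := abs_le.1 (rd ((s + s') / 2))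
      generalize ⌊(s + s') / 2 + 1 / 2⌋ = k at r1 r2
      rw [loc k s (abs_le.2 ⟨by linarith, by linarith⟩),
        loc k s' (abs_le.2 ⟨by linarith, by linarith⟩)] at h
      obtain ⟨l, hl⟩ := pos k
      have mono : StrictMono fun t => l (tbsmF Q Λ k t) :=
        strictMono_of_hasDerivAt_pos (fun t => l.hasFDerivAt.comp_hasDerivAt t (dF k t))
          fun t => hl _ (dΛ _)
      exact mono.injective (congrArg l h)
  · rw [(ev s).deriv_eq, (dF _ s).deriv]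
    obtain ⟨l, hl⟩ := pos ⌊s + 1 / 2⌋
    intro h
    have := hl _ (dΛ (s - ⌊s + 1 / 2⌋))
    rw [h, map_zero] at this
    exact lt_irrefl _ this
  · have c := Int.floor_le (s + 1 / 2)
    rw [hγ]
    beta_reduce
    generalize ⌊s + 1 / 2⌋ = j at c ⊢
    have i1 : j < 0 := by exact_mod_cast (by linarith : (j : ℝ) < 0)
    unfold tbsmF
    rw [h0 j (by omega), h0 (j + 1) (by omega), h0 (j - 1) (by omega)]
    ext <;> simp [tbR]
  · have d := Int.lt_floor_add_one (s + 1 / 2)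
    rw [hγ]
    beta_reduce
    generalize ⌊s + 1 / 2⌋ = j at d ⊢
    have i1 : m < j := by exact_mod_cast (by linarith : (m : ℝ) < j)
    unfold tbsmF
    rw [h1 j (by omega), h1 (j + 1) (by omega), h1 (j - 1) (by omega)]
    ext <;> simp [tbR]
    ring
  · have a : γ s - tbR (Q ⌊s⌋) =
        (γ s - tbPoly Q s) + Int.fract s • tbR (Q (⌊s⌋ + 1) - Q ⌊s⌋) := by
      unfold tbPoly
      abel
    have b : ‖Int.fract s • tbR (Q (⌊s⌋ + 1) - Q ⌊s⌋)‖ ≤ 1 * 1 := by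
      rw [norm_smul, Real.norm_eq_abs, abs_of_nonneg (Int.fract_nonneg s)]
      exact mul_le_mul (Int.fract_lt_one s).le (tbsm_norm (hd _)) (norm_nonneg _) zero_le_one
    rw [a]
    linarith [norm_add_le (γ s - tbPoly Q s) (Int.fract s • tbR (Q (⌊s⌋ + 1) - Q ⌊s⌋)), close s]

end Pool.Agent.Lib.MP_ccffa6_gt
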