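import Pool.Agent.Lib.MP_ccffa6_gt.T.BDef
import Pool.Agent.Lib.MP_ccffa6_gt.K.Level

/-!
From the two pieces of the disc to uniform neighbourhoods.
-/

open Set Filter Topology
open scoped ContDiff

noncomputable section

namespace Pool.Agent.Lib.MP_ccffa6_gt

variable {n : ℕ} {zD : ℝ} {K : ℝ × ℝ → ℝ}

/-- The unit ball of the last factor. -/
def tbthick_B (n : ℕ) : Set (Fin (n - 1) → ℂ) := {x | ∑ i, ‖x i‖ ^ 2 ≤ 1}

theorem tbthick_nonneg (x : Fin (n - 1) → ℂ) : 0 ≤ ∑ i, ‖x i‖ ^ 2 :=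
  Finset.sum_nonneg fun _ _ => sq_nonneg _

theorem tbthick_cpt : IsCompact (tbthick_B n) := by
  refine Metric.isCompact_of_isClosed_isBounded
    (isClosed_le (by fun_prop) continuous_const) (isBounded_iff_forall_norm_le.2 ⟨1, fun x hx => ?_⟩)
  refine (pi_norm_le_iff_of_nonneg zero_le_one).2 fun i => ?_
  have h1 : ‖x i‖ ^ 2 ≤ 1 :=
    (Finset.single_le_sum (f := fun i => ‖x i‖ ^ 2) (fun _ _ => sq_nonneg _)
      (Finset.mem_univ i)).trans hx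
  exact (sq_le_one_iff₀ (norm_nonneg _)).1 h1

theorem tbthick_conn : IsPreconnected (tbthick_B n) := by
  have h0 : (0 : Fin (n - 1) → ℂ) ∈ tbthick_B n := by simp [tbthick_B]
  have hs : StarConvex ℝ 0 (tbthick_B n) := by
    refine starConvex_zero_iff.2 fun x hx a ha ha1 => ?_
    show ∑ i, ‖(a • x) i‖ ^ 2 ≤ 1
    refine le_trans (Finset.sum_le_sum fun i _ => ?_) hx
    refine pow_le_pow_left₀ (norm_nonneg _) ?_ 2
    rw [Pi.smul_apply, norm_smul, Real.norm_of_nonneg ha]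
    exact mul_le_of_le_one_left (norm_nonneg _) ha1
  exact (hs.isPathConnected h0).isConnected.isPreconnected

theorem tbthick_sig1 (hK : Small n zD K) : ∃ Φ : Mod n → Mod n,
    ContinuousOn Φ (Icc (-1) zD ×ˢ Metric.sphere (0 : ℂ) 1 ×ˢ tbthick_B n) ∧
      Φ '' (Icc (-1) zD ×ˢ Metric.sphere (0 : ℂ) 1 ×ˢ tbthick_B n) = Sig1 n zD K := by
  refine ⟨fun p => (p.1, Real.exp (K (uu p, p.1)) • p.2.1, p.2.2), ?_, ?_⟩
  · have h1 : ContinuousOn (fun p : Mod n => K (uu p, p.1))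
        (Icc (-1) zD ×ˢ Metric.sphere (0 : ℂ) 1 ×ˢ tbthick_B n) :=
      hK.cont.comp (by unfold uu; fun_prop) fun p hp => ⟨⟨tbthick_nonneg _, hp.2.2⟩, hp.1⟩
    exact continuousOn_fst.prodMk ((h1.rexp.smul (by fun_prop)).prodMk (by fun_prop))
  · ext q
    constructor
    · rintro ⟨p, ⟨h1, h2, h3⟩, rfl⟩
      refine ⟨h1, h3, ?_⟩
      show ‖Real.exp (K (uu p, p.1)) • p.2.1‖ = Real.exp (K (uu p, p.1))
      rw [norm_smul, mem_sphere_zero_iff_norm.1 h2, mul_one, Real.norm_of_nonneg (Real.exp_pos _).le]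
    · rintro ⟨h1, h2, h3⟩
      refine ⟨(q.1, (Real.exp (K (uu q, q.1)))⁻¹ • q.2.1, q.2.2), ⟨h1, ?_, h2⟩, ?_⟩
      · refine mem_sphere_zero_iff_norm.2 ?_
        rw [norm_smul, h3, norm_inv, Real.norm_of_nonneg (Real.exp_pos _).le]
        exact inv_mul_cancel₀ (Real.exp_pos _).ne'
      · exact Prod.ext rfl (Prod.ext (smul_inv_smul₀ (Real.exp_pos _).ne' _) rfl)

theorem tbthick_sig2 (hK : Small n zD K) : ∃ Φ : ℂ × (Fin (n - 1) → ℂ) → Mod n,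
    ContinuousOn Φ (Metric.closedBall (0 : ℂ) 1 ×ˢ tbthick_B n) ∧
      Φ '' (Metric.closedBall (0 : ℂ) 1 ×ˢ tbthick_B n) = Sig2b n zD K := by
  have hz : (-1 : ℝ) ∈ Icc (-1) zD := ⟨le_rfl, hK.lt.le⟩
  refine ⟨fun p => (-1, √(K (∑ i, ‖p.2 i‖ ^ 2, -1)) • p.1, p.2), ?_, ?_⟩
  · have h1 : ContinuousOn (fun p : ℂ × (Fin (n - 1) → ℂ) => K (∑ i, ‖p.2 i‖ ^ 2, -1))
        (Metric.closedBall (0 : ℂ) 1 ×ˢ tbthick_B n) :=
      hK.cont.comp (by fun_prop) fun p hp => ⟨⟨tbthick_nonneg _, hp.2⟩, hz⟩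
    exact continuousOn_const.prodMk ((h1.sqrt.smul continuousOn_fst).prodMk continuousOn_snd)
  · ext q
    constructor
    · rintro ⟨p, ⟨h1, h2⟩, rfl⟩
      refine ⟨⟨hz, h2, Or.inl rfl, ?_⟩, rfl⟩
      have h3 := hK.pos_bot _ ⟨tbthick_nonneg p.2, h2⟩
      show ‖√(K (∑ i, ‖p.2 i‖ ^ 2, -1)) • p.1‖ ^ 2 ≤ K (∑ i, ‖p.2 i‖ ^ 2, -1)
      rw [norm_smul, mul_pow, Real.norm_of_nonneg (Real.sqrt_nonneg _), Real.sq_sqrt h3.le]
      exact mul_le_of_le_one_right h3.le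
        (pow_le_one₀ (norm_nonneg _) (mem_closedBall_zero_iff.1 h1))
    · rintro ⟨⟨-, h2, -, h3⟩, h4⟩
      rw [h4] at h3
      have h5 : 0 < √(K (uu q, -1)) := Real.sqrt_pos.2 (hK.pos_bot _ ⟨tbthick_nonneg _, h2⟩)
      refine ⟨((√(K (uu q, -1)))⁻¹ • q.2.1, q.2.2), ⟨?_, h2⟩, ?_⟩
      · refine mem_closedBall_zero_iff.2 ?_
        rw [norm_smul, norm_inv, Real.norm_of_nonneg h5.le, inv_mul_le_iff₀ h5, mul_one]
        exact Real.le_sqrt_of_sq_le h3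
      · exact Prod.ext h4.symm (Prod.ext (smul_inv_smul₀ h5.ne' _) rfl)

theorem tb_sig1_compact (hK : Small n zD K) : IsCompact (Sig1 n zD K) := by
  obtain ⟨Φ, h1, h2⟩ := tbthick_sig1 hK
  exact h2 ▸ (isCompact_Icc.prod
    ((isCompact_sphere _ _).prod tbthick_cpt)).image_of_continuousOn h1

theorem tb_sig2b_compact (hK : Small n zD K) : IsCompact (Sig2b n zD K) := by
  obtain ⟨Φ, h1, h2⟩ := tbthick_sig2 hK
  exact h2 ▸ ((isCompact_closedBall _ _).prod tbthick_cpt).image_of_continuousOn h1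

/-- The graph is connected. -/
theorem tb_sig1_conn (hK : Small n zD K) : IsPreconnected (Sig1 n zD K) := by
  obtain ⟨Φ, h1, h2⟩ := tbthick_sig1 hK
  exact h2 ▸ (isPreconnected_Icc.prod ((isPreconnected_sphere
    (by rw [Complex.rank_real_complex]; norm_num) _ _).prod tbthick_conn)).image Φ h1

/-- The bottom is connected. -/
theorem tb_sig2b_conn (hK : Small n zD K) : IsPreconnected (Sig2b n zD K) := by
  obtain ⟨Φ, h1, h2⟩ := tbthick_sig2 hK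
  exact h2 ▸ ((convex_closedBall _ _).isPreconnected.prod tbthick_conn).image Φ h1

theorem tbthick_norm {p : Mod n} (h : p.2.1 ≠ 0) :
    ‖(polar p).2.1‖ = Real.exp (‖p.2.1‖ ^ 2) := by
  show ‖((Real.exp (‖p.2.1‖ ^ 2) / ‖p.2.1‖ : ℝ) : ℂ) * p.2.1‖ = _
  rw [norm_mul, Complex.norm_real, Real.norm_of_nonneg (by positivity)]
  exact div_mul_cancel₀ _ (norm_ne_zero_iff.2 h)

theorem tbthick_ne (hK : Small n zD K) {p : Mod n} (h : p ∈ Sig2b n zD K)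
    (h' : p ∈ Corner n zD K) : p.2.1 ≠ 0 := by
  intro e
  have h1 := hK.pos_bot _ ⟨tbthick_nonneg p.2.2, h.1.2.1⟩
  have h2 := h'.2
  rw [e, h.2, norm_zero, zero_pow two_ne_zero] at h2
  exact h1.ne h2

/-- A point of the corner. -/
theorem tb_corner_ne (hK : Small n zD K) :
    ∃ p, p ∈ Sig2b n zD K ∧ p ∈ Corner n zD K ∧ p.2.1 ≠ 0 ∧ polar p ∈ Sig1 n zD K := by
  have h0 := hK.pos_bot 0 ⟨le_rfl, zero_le_one⟩
  obtain ⟨p, h1, h2, h3⟩ : ∃ p : Mod n, p.1 = -1 ∧ uu p = 0 ∧ ‖p.2.1‖ ^ 2 = K (0, -1) :=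
    ⟨(-1, (√(K (0, -1)) : ℝ), 0), rfl, by simp [uu], by simp [Real.sq_sqrt h0.le]⟩
  have hz : p.1 ∈ Icc (-1) zD := ⟨h1.ge, h1.le.trans hK.lt.le⟩
  have hu : uu p ≤ 1 := h2 ▸ zero_le_one
  have he : ‖p.2.1‖ ^ 2 = K (uu p, p.1) := by rw [h1, h2, h3]
  have hs : p ∈ Sig2 n zD K := ⟨hz, hu, Or.inl h1, he.le⟩
  have hn := tbthick_ne hK ⟨hs, h1⟩ ⟨hs, he⟩
  exact ⟨p, ⟨hs, h1⟩, ⟨hs, he⟩, hn, hz, hu, (tbthick_norm hn).trans (congrArg Real.exp he)⟩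

theorem tb_polar_sm {p : Mod n} (h : p.2.1 ≠ 0) : ContDiffAt ℝ ∞ (polar (n := n)) p := by
  have h1 : ContDiffAt ℝ ∞ (fun q : Mod n => q.2.1) p := by fun_prop
  have h2 : ContDiffAt ℝ ∞ (fun q : Mod n => ‖q.2.1‖) p := h1.norm ℝ h
  have h3 : ContDiffAt ℝ ∞ (fun q : Mod n => Real.exp (‖q.2.1‖ ^ 2) / ‖q.2.1‖) p :=
    (h2.pow 2).exp.div h2 (norm_ne_zero_iff.2 h)
  exact contDiffAt_fst.prodMk (((Complex.ofRealCLM.contDiff.contDiffAt.comp p h3).mul h1).prodMk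
    (by fun_prop))

/-- An immersion is locally injective. -/
theorem tb_loc_inj {E F : Type} [NormedAddCommGroup E] [NormedSpace ℝ E] [FiniteDimensional ℝ E]
    [NormedAddCommGroup F] [NormedSpace ℝ F] [FiniteDimensional ℝ F] {f : F → E} {x : F}
    (hf : ContDiffAt ℝ ∞ f x) (hi : Function.Injective (fderiv ℝ f x)) :
    ∃ U ∈ 𝓝 x, InjOn f U := by
  have := FiniteDimensional.complete ℝ F
  obtain ⟨C, hC⟩ := (fderiv ℝ f x : F →ₗ[ℝ] E).exists_leftInverse_of_injective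
    (LinearMap.ker_eq_bot.2 hi)
  have h1 := C.toContinuousLinearMap.hasStrictFDerivAt.comp x (hf.hasStrictFDerivAt (by simp))
  have e : C.toContinuousLinearMap.comp (fderiv ℝ f x) =
      (ContinuousLinearEquiv.refl ℝ F : F →L[ℝ] F) :=
    ContinuousLinearMap.ext fun v => LinearMap.congr_fun hC v
  rw [e] at h1
  exact ⟨_, (h1.toOpenPartialHomeomorph _).open_source.mem_nhds
    h1.mem_toOpenPartialHomeomorph_source, fun a ha b hb hab =>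
      (h1.toOpenPartialHomeomorph _).injOn ha hb (congrArg C hab)⟩

theorem tbthick_ev {X : Type} [PseudoMetricSpace X] {A U : Set X} (hA : IsCompact A)
    (hU : U ∈ 𝓝ˢ A) : ∀ᶠ δ in 𝓝[>] (0 : ℝ), Metric.cthickening δ A ⊆ U := by
  obtain ⟨W, hW, hAW, hWU⟩ := mem_nhdsSet_iff_exists.1 hU
  obtain ⟨δ, hδ, h⟩ := hA.exists_cthickening_subset_open hW hAW
  filter_upwards [Ioo_mem_nhdsGT hδ] with ε hε
  exact (Metric.cthickening_mono hε.2.le A).trans (h.trans hWU)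

theorem tbthick_ev2 {X : Type} [PseudoMetricSpace X] {A B : Set X} (hA : IsCompact A)
    (hB : IsCompact B) {P : X × X → Prop} (h : ∀ a ∈ A, ∀ b ∈ B, ∀ᶠ z in 𝓝 (a, b), P z) :
    ∀ᶠ δ in 𝓝[>] (0 : ℝ), ∀ p ∈ Metric.thickening δ A, ∀ q ∈ Metric.thickening δ B, P (p, q) := by
  have h1 : {z | P z} ∈ 𝓝ˢ (A ×ˢ B) := mem_nhdsSet_iff_forall.2 fun z hz => h z.1 hz.1 z.2 hz.2
  rw [hA.nhdsSet_prod_eq hB] at h1
  obtain ⟨U, hU, V, hV, hUV⟩ := mem_prod_iff.1 h1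
  filter_upwards [tbthick_ev hA hU, tbthick_ev hB hV] with δ h2 h3 p hp q hq
  exact hUV (mk_mem_prod (h2 (Metric.thickening_subset_cthickening δ A hp))
    (h3 (Metric.thickening_subset_cthickening δ B hq)))

/-- Away from the corner no point near the bottom has its polar image near the graph. -/
theorem tbthick_off {p₀ q₀ : Mod n} (hp : p₀ ∈ Sig2 n zD K) (hq : q₀ ∈ Sig1 n zD K)
    (h : p₀ ∉ Corner n zD K) :
    ∀ᶠ z : Mod n × Mod n in 𝓝 (p₀, q₀), z.1.2.1 ≠ 0 → z.2 ≠ polar z.1 := by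
  have c1 : Continuous fun z : Mod n × Mod n => (z.2.1, ‖z.2.2.1‖, z.2.2.2) := by fun_prop
  have c2 : Continuous fun z : Mod n × Mod n => (z.1.1, Real.exp (‖z.1.2.1‖ ^ 2), z.1.2.2) := by
    fun_prop
  have h0 : (q₀.1, ‖q₀.2.1‖, q₀.2.2) ≠ (p₀.1, Real.exp (‖p₀.2.1‖ ^ 2), p₀.2.2) := by
    intro e
    simp only [Prod.mk.injEq] at e
    have e1 : uu q₀ = uu p₀ := by
      unfold uu
      rw [e.2.2]
    have e2 := hq.2.2
    rw [e.2.1, e1, e.1] at e2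
    exact h ⟨hp, Real.exp_injective e2⟩
  filter_upwards [(isOpen_ne_fun c1 c2).mem_nhds (x := (p₀, q₀)) h0] with z hz hn e
  refine hz ?_
  rw [e, tbthick_norm hn]
  rfl

/-- Every field holds for all small `δ`. -/
theorem tb_thick {E : Type} [NormedAddCommGroup E] [NormedSpace ℝ E] [FiniteDimensional ℝ E]
    (hK : Small n zD K) {U₁ U₂ : Set (Mod n)} {f₁ f₂ : Mod n → E} (o₁ : IsOpen U₁)
    (o₂ : IsOpen U₂) (s₁ : Sig1 n zD K ⊆ U₁) (s₂ : Sig2b n zD K ⊆ U₂)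
    (sm₁ : ContDiffOn ℝ ∞ f₁ U₁) (sm₂ : ContDiffOn ℝ ∞ f₂ U₂)
    (i₁ : ∀ y ∈ U₁, Function.Injective (fderiv ℝ f₁ y))
    (i₂ : ∀ y ∈ U₂, Function.Injective (fderiv ℝ f₂ y))
    (hc : ∀ᶠ p in 𝓝ˢ (Corner n zD K), f₂ p = f₁ (polar p))
    (j₁ : InjOn f₁ (Sig1 n zD K)) (j₂ : InjOn f₂ (Sig2 n zD K))
    (hx : ∀ p ∈ Sig2 n zD K, ∀ q ∈ Sig1 n zD K, f₂ p = f₁ q → p ∈ Corner n zD K ∧ q = polar p) :
    ∃ δ : ℝ, 0 < δ ∧ Metric.cthickening δ (Sig1 n zD K) ⊆ U₁ ∧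
      Metric.cthickening δ (Sig2b n zD K) ⊆ U₂ ∧
      TBGerm n (Metric.thickening δ (Sig1 n zD K)) (Metric.thickening δ (Sig2b n zD K)) f₁ f₂ := by
  have c₁ := tb_sig1_compact hK
  have c₂ := tb_sig2b_compact hK
  have d₁ : ∀ y ∈ Sig1 n zD K, ContDiffAt ℝ ∞ f₁ y := fun y hy =>
    sm₁.contDiffAt (o₁.mem_nhds (s₁ hy))
  have d₂ : ∀ y ∈ Sig2b n zD K, ContDiffAt ℝ ∞ f₂ y := fun y hy =>
    sm₂.contDiffAt (o₂.mem_nhds (s₂ hy))
  obtain ⟨W₁, hW₁, k₁⟩ := j₁.exists_mem_nhdsSet c₁ (fun y hy => (d₁ y hy).continuousAt)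
    fun y hy => tb_loc_inj (d₁ y hy) (i₁ y (s₁ hy))
  obtain ⟨W₂, hW₂, k₂⟩ := (j₂.mono fun y hy => hy.1).exists_mem_nhdsSet c₂
    (fun y hy => (d₂ y hy).continuousAt) fun y hy => tb_loc_inj (d₂ y hy) (i₂ y (s₂ hy))
  have hne : {q : Mod n | q.2.1 ≠ 0} ∈ 𝓝ˢ (Sig1 n zD K) :=
    (isOpen_ne_fun (by fun_prop) continuous_const).mem_nhdsSet.2 fun q hq =>
      norm_pos_iff.1 (hq.2.2 ▸ Real.exp_pos _)
  have hag : ∀ p₀ ∈ Corner n zD K, ∀ q₀ : Mod n,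
      ∀ᶠ z : Mod n × Mod n in 𝓝 (p₀, q₀), f₂ z.1 = f₁ (polar z.1) := fun p₀ hp q₀ =>
    (continuousAt_fst (p := (p₀, q₀))).tendsto.eventually (p := fun p => f₂ p = f₁ (polar p))
      (hc.filter_mono (nhds_le_nhdsSet hp))
  have e1 := tbthick_ev2 c₂ c₁
    (P := fun z => f₂ z.1 = f₁ z.2 → z.1.2.1 ≠ 0 ∧ z.2 = polar z.1) fun p₀ hp q₀ hq => by
      by_cases e : f₂ p₀ = f₁ q₀
      · obtain ⟨h1, h2⟩ := hx p₀ hp.1 q₀ hq e
        have hn := tbthick_ne hK hp h1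
        have hW : W₁ ∈ 𝓝 q₀ := nhds_le_nhdsSet hq hW₁
        have t1 : ContinuousAt (fun z : Mod n × Mod n => z.1.2.1) (p₀, q₀) := by fun_prop
        have t2 : ContinuousAt (fun z : Mod n × Mod n => polar z.1) (p₀, q₀) :=
          ContinuousAt.comp (f := Prod.fst) (x := (p₀, q₀)) (tb_polar_sm hn).continuousAt
            continuousAt_fst
        filter_upwards [hag p₀ h1 q₀, t1.eventually_ne hn, t2.eventually_mem (h2 ▸ hW),
          (continuousAt_snd (p := (p₀, q₀))).eventually_mem hW] with z a1 a2 a3 a4 a5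
        exact ⟨a2, k₁ a4 a3 (a5.symm.trans a1)⟩
      · have t1 : ContinuousAt (fun z : Mod n × Mod n => f₂ z.1 - f₁ z.2) (p₀, q₀) :=
          (ContinuousAt.comp (f := Prod.fst) (x := (p₀, q₀)) (d₂ p₀ hp).continuousAt
            continuousAt_fst).sub (ContinuousAt.comp (f := Prod.snd) (x := (p₀, q₀))
              (d₁ q₀ hq).continuousAt continuousAt_snd)
        filter_upwards [t1.eventually_ne (sub_ne_zero.2 e)] with z a1 a2
        exact absurd (sub_eq_zero.2 a2) a1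
  have e2 := tbthick_ev2 c₂ c₁
    (P := fun z => z.1.2.1 ≠ 0 → z.2 = polar z.1 → f₂ z.1 = f₁ (polar z.1)) fun p₀ hp q₀ hq => by
      by_cases e : p₀ ∈ Corner n zD K
      · exact (hag p₀ e q₀).mono fun z a1 _ _ => a1
      · exact (tbthick_off hp.1 hq e).mono fun z a1 a2 a3 => absurd a3 (a1 a2)
  obtain ⟨δ, ⟨⟨⟨⟨⟨⟨a1, a2⟩, a3⟩, a4⟩, a5⟩, a6⟩, a7⟩, hδ⟩ :=
    ((((((((tbthick_ev c₁ (o₁.mem_nhdsSet.2 s₁)).and (tbthick_ev c₂ (o₂.mem_nhdsSet.2 s₂))).and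
      (tbthick_ev c₁ hne)).and (tbthick_ev c₁ hW₁)).and (tbthick_ev c₂ hW₂)).and e1).and e2).and
      self_mem_nhdsWithin).exists
  exact ⟨δ, hδ, a1, a2, fun q hq => a3 (Metric.thickening_subset_cthickening _ _ hq),
    k₁.mono ((Metric.thickening_subset_cthickening _ _).trans a4),
    k₂.mono ((Metric.thickening_subset_cthickening _ _).trans a5), a6,
    fun p hp hn hq => a7 p hp _ hq hn rfl⟩

end Pool.Agent.Lib.MP_ccffa6_gt
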