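import Pool.Agent.Lib.MP_ccffa6_gt.T.Base0
import Pool.Agent.Lib.MP_ccffa6_gt.T.Base1

/-! First consequences of `TD.OK` and `Sol`. -/

open Set Filter Topology MeasureTheory
open scoped ContDiff ComplexConjugate Real

noncomputable section

namespace Pool.Agent.Lib.MP_ccffa6_gt

variable {V : Type} [NormedAddCommGroup V] [NormedSpace ℝ V] [FiniteDimensional ℝ V] {k : ℕ}
  {T : TD k V}

/-- The compact part of the boundary condition. -/
def TD.L0 (T : TD k V) : Set V :=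
  T.Θ '' {h | h ∈ Lag k ∧ -T.l / 2 ≤ (h 0).im ∧ (h 0).im ≤ T.D + T.l / 2}

/-- The almost complex structure of the reflected sheets. -/
def TD.J' (T : TD k V) (y : V) : V →L[ℝ] V := -(T.S.comp ((T.J (T.S y)).comp T.S))

theorem sig_eq_self {h : Cm k} : (sig h = h ∧ ∀ j, j ≠ 0 → h j ≠ 0) ↔ h ∈ Lag k := by
  have h1 : ∀ z : ℂ, (z ≠ 0 ∧ (conj z)⁻¹ = z) ↔ ‖z‖ = 1 := fun z => by
    rw [← sq_eq_sq₀ (norm_nonneg z) zero_le_one, one_pow, ← Complex.ofReal_inj, Complex.ofReal_pow,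
      ← Complex.conj_mul', Complex.ofReal_one]
    refine ⟨fun h => (inv_eq_iff_eq_inv.1 h.2).symm ▸ inv_mul_cancel₀ h.1, fun h =>
      ⟨right_ne_zero_of_mul_eq_one h, inv_eq_of_mul_eq_one_right h⟩⟩
  constructor
  · rintro ⟨e, h2⟩
    refine ⟨?_, fun j hj => (h1 _).1 ⟨h2 j hj, ?_⟩⟩
    · have := congrArg (fun x : Cm k => (x 0).re) e
      simp only [sig, if_true, Complex.neg_re, Complex.conj_re] at this
      linarith
    · simpa only [sig, if_neg hj] using congrArg (fun x : Cm k => x j) e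
  · refine fun hh => ⟨?_, fun j hj => ((h1 _).2 (hh.2 j hj)).1⟩
    ext j
    by_cases hj : j = 0
    · subst hj
      exact Complex.ext (by simp [sig, hh.1]) (by simp [sig])
    · simpa only [sig, if_neg hj] using ((h1 _).2 (hh.2 j hj)).2

theorem xpt_mem_lag (t : ℝ) : xpt k t ∈ Lag k :=
  ⟨by simp [xpt], fun j hj => by simp [xpt, hj]⟩

theorem isCompact_lag (a b : ℝ) :
    IsCompact {h : Cm k | h ∈ Lag k ∧ a ≤ (h 0).im ∧ (h 0).im ≤ b} := by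
  refine Metric.isCompact_of_isClosed_isBounded ?_ (isBounded_iff_forall_norm_le.2
    ⟨√(∑ _j : Fin (k + 2), (|a| + |b| + 1) ^ 2), fun h hh => ?_⟩)
  · have c1 : Continuous fun h : Cm k => (h 0).re := by fun_prop
    have c2 : Continuous fun h : Cm k => (h 0).im := by fun_prop
    refine IsClosed.inter (IsClosed.inter (isClosed_eq c1 continuous_const) ?_)
      (IsClosed.inter (isClosed_le continuous_const c2) (isClosed_le c2 continuous_const))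
    show IsClosed {h : Cm k | ∀ j, j ≠ 0 → ‖h j‖ = 1}
    simp only [ofPred_forall]
    exact isClosed_iInter fun j => isClosed_iInter fun _ =>
      isClosed_eq (by fun_prop) continuous_const
  · rw [EuclideanSpace.norm_eq]
    refine Real.sqrt_le_sqrt (Finset.sum_le_sum fun j _ => pow_le_pow_left₀ (norm_nonneg _) ?_ 2)
    by_cases hj : j = 0
    · subst hj
      have h1 := Complex.norm_le_abs_re_add_abs_im (h 0)
      rw [hh.1.1, abs_zero] at h1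
      have h2 : |(h 0).im| ≤ |a| + |b| := abs_le.2
        ⟨by linarith [hh.2.1, neg_abs_le a, abs_nonneg b], by
          linarith [hh.2.2, le_abs_self b, abs_nonneg a]⟩
      linarith
    · rw [hh.1.2 j hj]
      linarith [abs_nonneg a, abs_nonneg b]

theorem TD.OK.larc_sub (hT : T.OK) : Larc k (-T.l) (T.D + T.l) ⊆ T.O :=
  hT.lagO ▸ inter_subset_right

theorem TD.OK.xpt_mem (hT : T.OK) {τ : ℝ} (h0 : 0 ≤ τ) (h1 : τ ≤ 1) :
    xpt k (τ * T.D) ∈ Larc k (-T.l) (T.D + T.l) := by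
  have h : (xpt k (τ * T.D) 0).im = τ * T.D := by simp [xpt]
  refine ⟨xpt_mem_lag _, ?_, ?_⟩ <;> rw [h] <;> nlinarith [hT.D0, hT.l1]

theorem TD.OK.tanΘ (hT : T.OK) {h : Cm k} (hh : h ∈ T.O) (X : Cm k) :
    fderiv ℝ T.Θ h X ∈ Tan T.W (T.Θ h) :=
  Tan.map (S := T.O) (hT.smΘ.differentiable (by simp) h)
    (eventually_nhdsWithin_of_forall fun y hy => (hT.CΘ y hy).1)
    (by rw [Tan.of_mem_nhds (hT.opO.mem_nhds hh)]; trivial)

theorem TD.OK.dCΘ (hT : T.OK) {h : Cm k} (hh : h ∈ T.O) (X : Cm k) :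
    fderiv ℝ T.Cc (T.Θ h) (fderiv ℝ T.Θ h X) = X := by
  have h1 : T.Cc ∘ T.Θ =ᶠ[𝓝 h] id :=
    mem_of_superset (hT.opO.mem_nhds hh) fun y hy => (hT.CΘ y hy).2.2
  have h2 := h1.fderiv_eq (𝕜 := ℝ)
  rw [fderiv_comp h (hT.smC.differentiable (by simp) _) (hT.smΘ.differentiable (by simp) h),
    fderiv_id] at h2
  exact DFunLike.congr_fun h2 X

theorem TD.OK.dΘC (hT : T.OK) {y v : V} (hy : y ∈ T.W) (hU : y ∈ T.U) (hv : v ∈ Tan T.W y) :
    fderiv ℝ T.Θ (T.Cc y) (fderiv ℝ T.Cc y v) = v := by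
  have h1 := hT.smC.differentiable (by simp) y
  have h2 := hT.smΘ.differentiable (by simp) (T.Cc y)
  have h3 := Tan.fderiv_congr hy (h2.comp y h1) differentiableAt_id (by
    filter_upwards [self_mem_nhdsWithin, mem_nhdsWithin_of_mem_nhds (hT.opU.mem_nhds hU)]
      with w h4 h5 using (hT.ΘC w h4 h5).2) hv
  rwa [fderiv_comp y h2 h1, fderiv_id] at h3

theorem TD.OK.dCJ (hT : T.OK) {y v : V} (hy : y ∈ T.W) (hU : y ∈ T.U) (hv : v ∈ Tan T.W y) :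
    fderiv ℝ T.Cc y (T.J y v) = Complex.I • fderiv ℝ T.Cc y v := by
  obtain ⟨h1, h2⟩ := hT.ΘC y hy hU
  have h3 := hT.hol _ h1 (fderiv ℝ T.Cc y v)
  have h4 := hT.dCΘ h1 (Complex.I • fderiv ℝ T.Cc y v)
  rwa [← h3, hT.dΘC hy hU hv, h2] at h4

theorem TD.OK.SW (hT : T.OK) {y : V} (hy : y ∈ T.W) (hs : y ∈ T.Vs) : T.S y ∈ T.W := by
  obtain ⟨h1, h2⟩ := hT.ΘC y hy (hT.VsU ⟨hy, hs⟩)
  obtain ⟨-, h3, h4⟩ := hT.SΘ _ h1 (h2.symm ▸ hs)
  rw [← h2, ← h4]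
  exact (hT.CΘ _ h3).1

theorem TD.OK.CS (hT : T.OK) {y : V} (hy : y ∈ T.W) (hs : y ∈ T.Vs) :
    T.Cc (T.S y) = sig (T.Cc y) ∧ ∀ j, j ≠ 0 → T.Cc y j ≠ 0 := by
  obtain ⟨h1, h2⟩ := hT.ΘC y hy (hT.VsU ⟨hy, hs⟩)
  obtain ⟨h5, h3, h4⟩ := hT.SΘ _ h1 (h2.symm ▸ hs)
  rw [h2] at h4
  exact ⟨h4 ▸ (hT.CΘ _ h3).2.2, h5⟩

theorem TD.OK.fixL (hT : T.OK) {y : V} (hy : y ∈ T.W) (hs : y ∈ T.Vs) (h : T.S y = y) :
    y ∈ T.L := by
  obtain ⟨h1, h2⟩ := hT.ΘC y hy (hT.VsU ⟨hy, hs⟩)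
  obtain ⟨h3, h4⟩ := hT.CS hy hs
  rw [h] at h3
  exact ⟨_, hT.lagO ▸ ⟨sig_eq_self.1 ⟨h3.symm, h4⟩, h1⟩, h2⟩

theorem TD.OK.memL (hT : T.OK) {y : V} (hy : y ∈ T.L) :
    y ∈ T.W ∧ y ∈ T.U ∧ y ∈ T.Vs ∧ T.S y = y ∧ T.Cc y ∈ Larc k (-T.l) (T.D + T.l) := by
  obtain ⟨h, hh, rfl⟩ := hy
  obtain ⟨h1, h2, h3⟩ := hT.CΘ h (hT.larc_sub hh)
  refine ⟨h1, h2, hT.LVs h hh, ?_, h3.symm ▸ hh⟩
  rw [← (hT.SΘ h (hT.larc_sub hh) (hT.LVs h hh)).2.2, (sig_eq_self.2 hh.1).1]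

theorem TD.OK.isCompact_L0 (hT : T.OK) : IsCompact T.L0 :=
  (isCompact_lag _ _).image hT.smΘ.continuous

theorem TD.OK.L0_sub (hT : T.OK) : T.L0 ⊆ T.L :=
  image_mono fun _ hh => ⟨hh.1, by linarith [hh.2.1, hT.l1], by linarith [hh.2.2, hT.l1]⟩

theorem TD.OK.mem_L0 (hT : T.OK) {y : V} (hy : y ∈ T.L) (h1 : -T.l / 2 ≤ (T.Cc y 0).im)
    (h2 : (T.Cc y 0).im ≤ T.D + T.l / 2) : y ∈ T.L0 :=
  have h := hT.memL hy
  ⟨_, ⟨h.2.2.2.2.1, h1, h2⟩, (hT.ΘC y h.1 h.2.1).2⟩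

theorem TD.OK.smJ' (hT : T.OK) : ContDiff ℝ ∞ T.J' :=
  (contDiff_const.clm_comp ((hT.smJ.comp T.S.contDiff).clm_comp contDiff_const)).neg

theorem TD.OK.J'_eq (hT : T.OK) {y : V} (hs : y ∈ T.Vs) : T.J' y = T.J y := by
  ext v
  simp [TD.J', hT.SJ y hs, hT.SS]

/-- The derivative of a map of the square into `W` is tangent. -/
theorem tan_of_mapsTo {W : Set V} {u : ℂ → V} {z : ℂ} (hz : z ∈ Sq) (hu : DifferentiableAt ℝ u z)
    (hW : MapsTo u Sq W) (v : ℂ) : fderiv ℝ u z v ∈ Tan W (u z) :=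
  Tan.map (S := Sq) hu (eventually_nhdsWithin_of_forall hW) (by rw [tan_sq hz]; trivial)

/-- The model map `Cc ∘ u` is holomorphic where `u` lies in the chart. -/
theorem TD.OK.model (hT : T.OK) {u : ℂ → V} {z : ℂ} (hu : DifferentiableAt ℝ u z)
    (hW : u z ∈ T.W) (hU : u z ∈ T.U) (ht : ∀ v, fderiv ℝ u z v ∈ Tan T.W (u z))
    (hh : JHol T.J u {z}) :
    HasDerivAt (fun w => T.Cc (u w)) (px (fun w => T.Cc (u w)) z) z ∧
    px u z = fderiv ℝ T.Θ (T.Cc (u z)) (px (fun w => T.Cc (u w)) z) ∧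
    py u z = fderiv ℝ T.Θ (T.Cc (u z)) (Complex.I • px (fun w => T.Cc (u w)) z) := by
  have h1 := hT.smC.differentiable (by simp) (u z)
  have h2 : ∀ v, fderiv ℝ (fun w => T.Cc (u w)) z v = fderiv ℝ T.Cc (u z) (fderiv ℝ u z v) :=
    fun v => DFunLike.congr_fun (fderiv_comp z h1 hu) v
  have h3 : py (fun w => T.Cc (u w)) z = Complex.I • px (fun w => T.Cc (u w)) z := by
    refine (h2 _).trans ((congrArg _ (hh z rfl).1).trans ((hT.dCJ hW hU (ht 1)).trans ?_))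
    rw [px, h2]
  refine ⟨differentiableAt_of_cr (h1.comp z hu) h3, ?_, ?_⟩
  · rw [px, px, h2, hT.dΘC hW hU (ht 1)]
  · rw [← h3, py, py, h2, hT.dΘC hW hU (ht _)]

variable {κ : ℂ → ℂ} {τ : ℝ} {u : ℂ → V}

theorem Sol.dens_nonneg (hT : T.OK) (hu : Sol T κ τ u) {z : ℂ} (hz : z ∈ Sq) :
    0 ≤ dens T.lam u z ∧ (dens T.lam u z = 0 → fderiv ℝ u z = 0) := by
  have h1 := (hu.hol z hz).1
  rw [dens, h1]
  by_cases h : px u z = 0
  · refine ⟨by simp [h], fun _ => ?_⟩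
    ext1 v
    simp [fderiv_eq_px_py, h1, h]
  · have h2 := hT.tame _ (hu.mapW hz) _
      (tan_of_mapsTo hz (hu.sm.differentiable (by simp) z) hu.mapW 1) h
    exact ⟨h2.le, fun e => absurd e h2.ne'⟩

omit [FiniteDimensional ℝ V] in
theorem Base2_jhol {J : V → V →L[ℝ] V} {z : ℂ} :
    JHol J u {z} ↔ py u z = J (u z) (px u z) ∧ px u z = -J (u z) (py u z) := by
  simp only [JHol, mem_singleton_iff, forall_eq]

/-- The two kinds of sheets. -/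
theorem Sol.sheet (hT : T.OK) (hu : Sol T κ τ u) (z : ℂ) :
    (0 ≤ cc z → u z ∈ T.W ∧ JHol T.J u {z}) ∧
    (cc z ≤ 0 → T.S (u z) ∈ T.W ∧ JHol T.J' u {z}) := by
  have hd := hu.sm.differentiable (by simp)
  simp only [Base2_jhol]
  refine fold_ind (p := fun z => (0 ≤ cc z → u z ∈ T.W ∧
    (py u z = T.J (u z) (px u z) ∧ px u z = -T.J (u z) (py u z))) ∧ (cc z ≤ 0 → T.S (u z) ∈ T.W ∧
    (py u z = T.J' (u z) (px u z) ∧ px u z = -T.J' (u z) (py u z))))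
    (fun z => ?_) (fun z h => ?_) (fun z h => ?_) (fun z hz => ?_) z
  · simp only [cc_per z, hu.per z, hu.per.px z, hu.per.py z, and_self]
  · obtain ⟨e1, e2⟩ := (eqv_deriv hd z).1 hu.eq1
    simp only [cc_r1, hu.eq1, e1, e2, neg_nonneg, neg_nonpos, hT.SS]
    refine ⟨fun c => ⟨(h.2 c).1, ?_, ?_⟩, fun c => ⟨(h.1 c).1, ?_, ?_⟩⟩
    · simp [(h.2 c).2.1, TD.J', hT.SS]
    · simpa [TD.J', hT.SS] using congrArg T.S (h.2 c).2.2
    · simp [(h.1 c).2.1, TD.J', hT.SS]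
    · simpa [TD.J', hT.SS, neg_eq_iff_eq_neg] using congrArg T.S (h.1 c).2.2
  · obtain ⟨e1, e2⟩ := (eqv_deriv hd z).2 hu.eq2
    simp only [cc_r2, hu.eq2, e1, e2, neg_nonneg, neg_nonpos, hT.SS]
    refine ⟨fun c => ⟨(h.2 c).1, ?_, ?_⟩, fun c => ⟨(h.1 c).1, ?_, ?_⟩⟩
    · simp [(h.2 c).2.1, TD.J', hT.SS]
    · simpa [TD.J', hT.SS] using congrArg T.S (h.2 c).2.2
    · simp [(h.1 c).2.1, TD.J', hT.SS]
    · simpa [TD.J', hT.SS] using congrArg T.S (h.1 c).2.2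
  · refine ⟨fun _ => ⟨hu.mapW hz, hu.hol z hz⟩, fun c => ?_⟩
    obtain ⟨h1, -, h2, h3, -⟩ := hT.memL (hu.bd ((cc_eq_zero hz).1 (c.antisymm (cc_nonneg hz))))
    rw [h3, hT.J'_eq h2]
    exact ⟨h1, hu.hol z hz⟩

/-- In the symmetric region the doubled map lies in `W` and is `J`-holomorphic. -/
theorem Sol.of_mem_Vs (hT : T.OK) (hu : Sol T κ τ u) {z : ℂ} (hz : u z ∈ T.Vs) :
    u z ∈ T.W ∧ JHol T.J u {z} := by
  rcases le_total 0 (cc z) with c | c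
  · exact (hu.sheet hT z).1 c
  · obtain ⟨h1, h2⟩ := (hu.sheet hT z).2 c
    rw [Base2_jhol, hT.J'_eq hz] at h2
    exact ⟨hT.SS (u z) ▸ hT.SW h1 (hT.SVs _ hz), Base2_jhol.2 h2⟩

/-- A solution extends across the boundary of the square. -/
theorem Sol.nbhd (hT : T.OK) (hu : Sol T κ τ u) :
    ∃ N : Set ℂ, IsOpen N ∧ Sq ⊆ N ∧ MapsTo u N T.W ∧ JHol T.J u N := by
  refine ⟨interior Sq ∪ u ⁻¹' T.Vs, isOpen_interior.union (hT.opVs.preimage hu.sm.continuous),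
    fun z hz => ?_, fun z hz => hz.elim (fun h => hu.mapW (interior_subset h))
      fun h => (hu.of_mem_Vs hT h).1, fun z hz => hz.elim (fun h => hu.hol z (interior_subset h))
      fun h => (hu.of_mem_Vs hT h).2 z rfl⟩
  by_cases h : z ∈ SqB
  · exact Or.inr (hT.memL (hu.bd h)).2.2.1
  · exact Or.inl (interior_sq ▸ ⟨hz, h⟩)

/-- A gradient bound on the square gives one on the plane. -/
theorem Sol.grad (hT : T.OK) (hu : Sol T κ τ u) {G : ℝ} (h : ∀ z ∈ Sq, ‖fderiv ℝ u z‖ ≤ G) (z : ℂ) :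
    ‖fderiv ℝ u z‖ ≤ (1 + ‖T.S‖) ^ 2 * G := by
  have hd := hu.sm.differentiable (by simp)
  have hG : 0 ≤ G := (norm_nonneg _).trans (h _ z1_mem.1)
  have hS := norm_nonneg T.S
  have key := fold_ind (p := fun z => ∀ v, ‖fderiv ℝ u z v‖ ≤ (1 + ‖T.S‖) * G * ‖v‖ ∧
    ‖T.S (fderiv ℝ u z v)‖ ≤ (1 + ‖T.S‖) * G * ‖v‖)
    (fun z => by simp only [hu.per.fderiv z, and_self]) (fun z h v => ?_) (fun z h v => ?_)
    (fun z hz v => ?_) z
  · refine (ContinuousLinearMap.opNorm_le_bound _ (by positivity) fun v => (key v).1).trans ?_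
    nlinarith [mul_nonneg (mul_nonneg hS hG) (by positivity : 0 ≤ 1 + ‖T.S‖)]
  · obtain ⟨e1, e2⟩ := (eqv_deriv hd z).1 hu.eq1
    have e : fderiv ℝ u (r1 z) v = T.S (fderiv ℝ u z (-conj v)) := by
      rw [fderiv_eq_px_py, fderiv_eq_px_py, e1, e2]
      simp
    simpa only [e, hT.SS, norm_neg, Complex.norm_conj] using (h (-conj v)).symm
  · obtain ⟨e1, e2⟩ := (eqv_deriv hd z).2 hu.eq2
    have e : fderiv ℝ u (r2 z) v = T.S (fderiv ℝ u z (conj v)) := by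
      rw [fderiv_eq_px_py, fderiv_eq_px_py, e1, e2]
      simp
    simpa only [e, hT.SS, Complex.norm_conj] using (h (conj v)).symm
  · have h1 := ((fderiv ℝ u z).le_opNorm v).trans
      (mul_le_mul_of_nonneg_right (h z hz) (norm_nonneg v))
    have h2 := (T.S.le_opNorm _).trans (mul_le_mul_of_nonneg_left h1 hS)
    have h3 := mul_nonneg hG (norm_nonneg v)
    constructor <;> nlinarith [mul_nonneg hS h3]

end Pool.Agent.Lib.MP_ccffa6_gt
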