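import Pool.Agent.Lib.MP_ccffa6_gt.T.Base0

/-! Sub-blocks C and H: definitions. -/

open Set Filter Topology MeasureTheory
open scoped ContDiff ComplexConjugate Real

noncomputable section

namespace Pool.Agent.Lib.MP_ccffa6_gt

section defs

variable {V : Type} [NormedAddCommGroup V] [NormedSpace ℝ V]

/-- Integral over a rectangle. -/
abbrev RI (g : ℂ → ℝ) (a b c d : ℝ) : ℝ := ∫ z in Rect a b c d, g z

/-- Integral over a horizontal segment. -/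
abbrev HI (g : ℂ → ℝ) (a b y : ℝ) : ℝ := ∫ x in a..b, g (x + y * Complex.I)

/-- Integral over a vertical segment. -/
abbrev VI (g : ℂ → ℝ) (x c d : ℝ) : ℝ := ∫ y in c..d, g (x + y * Complex.I)

/-- The boundary of a rectangle. -/
def Bd (a b c d : ℝ) : Set ℂ :=
  {z | z ∈ Rect a b c d ∧ (z.re = a ∨ z.re = b ∨ z.im = c ∨ z.im = d)}

/-- The square with centre `z` and half side `r`. -/
abbrev sqr (z : ℂ) (r : ℝ) : Set ℂ := Rect (z.re - r) (z.re + r) (z.im - r) (z.im + r)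

/-- Integral over such a square. -/
abbrev SI (g : ℂ → ℝ) (z : ℂ) (r : ℝ) : ℝ := ∫ w in sqr z r, g w

/-- The Laplacian. -/
def lap (a : ℂ → ℝ) (z : ℂ) : ℝ := px (px a) z + py (py a) z

/-- The square of the gradient. -/
def gr2 (a : ℂ → ℝ) (z : ℂ) : ℝ := px a z ^ 2 + py a z ^ 2

/-- On each side of the rectangle, length times integral of `g` is at most `A`. -/
structure Sides (g : ℂ → ℝ) (a b c d A : ℝ) : Prop where
  hx : a ≤ b
  hy : c ≤ d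
  bo : (b - a) * HI g a b c ≤ A
  tp : (b - a) * HI g a b d ≤ A
  le : (d - c) * VI g a c d ≤ A
  ri : (d - c) * VI g b c d ≤ A

/-- Each side of the rectangle lies in `Z` or has a short image. -/
structure Alt (u : ℂ → V) (Z : Set ℂ) (a b c d ε : ℝ) : Prop where
  hx : a ≤ b
  hy : c ≤ d
  bo : (∀ x ∈ Icc a b, (x + c * Complex.I : ℂ) ∈ Z) ∨ HI (fun z => ‖px u z‖) a b c ≤ ε
  tp : (∀ x ∈ Icc a b, (x + d * Complex.I : ℂ) ∈ Z) ∨ HI (fun z => ‖px u z‖) a b d ≤ ε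
  le : (∀ y ∈ Icc c d, (a + y * Complex.I : ℂ) ∈ Z) ∨ VI (fun z => ‖py u z‖) a c d ≤ ε
  ri : (∀ y ∈ Icc c d, (b + y * Complex.I : ℂ) ∈ Z) ∨ VI (fun z => ‖py u z‖) b c d ≤ ε

/-- Clamping to `[t₁, t₂]`. -/
def clamp (t₁ t₂ s : ℝ) : ℝ := max t₁ (min s t₂)

/-- A smooth truncation with slope one on `[t₁, t₂]`. -/
structure Trunc (T : ℝ → ℝ) (t₁ t₂ δ : ℝ) : Prop where
  sm : ContDiff ℝ ∞ T
  d0 : ∀ s, 0 ≤ deriv T s
  d1 : ∀ s, deriv T s ≤ 1
  one : ∀ s ∈ Icc t₁ t₂, deriv T s = 1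
  bd : ∀ s, |T s| ≤ t₂ - t₁ + 2 * δ
  zero : ∀ s, t₂ + δ ≤ s → T s = 0
  cl : ∀ s s', |clamp t₁ t₂ s - clamp t₁ t₂ s'| ≤ |T s - T s'|

/-- Invariant under the reflections and the periods. -/
def Inv {X : Type} (φ : ℂ → X) : Prop :=
  (∀ z, φ (r1 z) = φ z) ∧ (∀ z, φ (r2 z) = φ z) ∧ Per φ

/-- An invariant size of the derivative of a doubled map. -/
def siz (S : V →L[ℝ] V) (u : ℂ → V) (z : ℂ) : ℝ :=
  ‖px u z‖ + ‖py u z‖ + ‖S (px u z)‖ + ‖S (py u z)‖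

/-- On `L` the form `lam` is one half of the angle form of the circle valued function `P`. -/
structure Wind (L : Set V) (lam : Form1 V) (P : V → ℂ) : Prop where
  smP : ContDiff ℝ ∞ P
  sml : ContDiff ℝ ∞ lam
  one : ∀ y ∈ L, ‖P y‖ = 1
  der : ∀ (γ : ℝ → V) (v : V) (t : ℝ), HasDerivAt γ v t → (∀ᶠ s in 𝓝 t, γ s ∈ L) →
    fderiv ℝ P (γ t) v = 2 * Complex.I * (lam (γ t) v : ℝ) * P (γ t)

/-- The product of the circle coordinates. -/
def TD.Pr {k : ℕ} (T : TD k V) (y : V) : ℂ := ∏ j ∈ Finset.univ.erase 0, T.Cc y j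

/-- The scalar data of the negative end. -/
structure HS (a : ℂ → ℝ) (E h Cr : ℝ) : Prop where
  sm : ContDiff ℝ ∞ a
  supp : ∀ z, z ∉ Sq → a z = 0
  mass : ∀ x₁ x₂ y₁ y₂, RI (fun z => |lap a z|) x₁ x₂ y₁ y₂ ≤ E
  sub : ∀ z, a z < -1 → 0 ≤ lap a z
  mp : ∀ t < -1, ∀ x₁ x₂ y₁ y₂, (∀ z ∈ Bd x₁ x₂ y₁ y₂, a z ≤ t) → ∀ z ∈ Rect x₁ x₂ y₁ y₂, a z ≤ t
  reg : ∀ z r, 0 < r → (∀ w ∈ sqr z r, a w < -1) → SI (fun w => gr2 a w + lap a w) z r ≤ h →
    r * ‖fderiv ℝ a z‖ ≤ Cr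

/-- The step of the growth lemma. -/
def hw (E : ℝ) : ℝ := 1152 * E + 1

/-- The cut-off of the height. -/
def hchi (s : ℝ) : ℝ := s * (1 - Real.smoothTransition (2 * s + 2))

/-- The height of a solution, cut off and extended by zero. -/
def hfun {k : ℕ} (T : TD k V) (u : ℂ → V) : ℂ → ℝ := Sq.indicator fun z => hchi (T.s (u z))

/-- A path in `N` which nearly follows the field `Y` with speed `b`. -/
structure Seg (Y : V → V) (N : Set V) (C ε : ℝ) (γ γ' : ℝ → V) (b : ℝ → ℝ) (t₀ t₁ : ℝ) : Prop where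
  le : t₀ ≤ t₁
  der : ∀ t, HasDerivAt γ (γ' t) t
  c' : Continuous γ'
  cb : Continuous b
  mem : ∀ t ∈ Icc t₀ t₁, γ t ∈ N
  spd : ∫ t in t₀..t₁, |b t| ≤ C
  err : ∫ t in t₀..t₁, ‖γ' t - b t • Y (γ t)‖ ≤ ε

/-- A rectangle whose boundary nearly follows `Y`, with action at least `ε₀` and no periods. -/
structure Lp (Y : V → V) (N : Set V) (P : Form1 V → Prop) (C ε ε₀ : ℝ) (v : ℂ → V) (p q : ℂ → ℝ)
    (a b c d : ℝ) : Prop where
  bo : Seg Y N C ε (fun x => v (x + c * Complex.I)) (fun x => px v (x + c * Complex.I))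
    (fun x => p (x + c * Complex.I)) a b
  tp : Seg Y N C ε (fun x => v (x + d * Complex.I)) (fun x => px v (x + d * Complex.I))
    (fun x => p (x + d * Complex.I)) a b
  le : Seg Y N C ε (fun y => v (a + y * Complex.I)) (fun y => py v (a + y * Complex.I))
    (fun y => q (a + y * Complex.I)) c d
  ri : Seg Y N C ε (fun y => v (b + y * Complex.I)) (fun y => py v (b + y * Complex.I))
    (fun y => q (b + y * Complex.I)) c d
  act : ε₀ ≤ HI p a b c - HI p a b d + VI q b c d - VI q a c d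
  cl : ∀ θ : Form1 V, ContDiff ℝ ∞ θ → P θ →
    HI (fun z => θ (v z) (px v z)) a b c - HI (fun z => θ (v z) (px v z)) a b d +
      VI (fun z => θ (v z) (py v z)) b c d - VI (fun z => θ (v z) (py v z)) a c d = 0

/-- The forms which are closed on `C`. -/
def ClosedOn (C : Set V) (θ : Form1 V) : Prop :=
  ∀ y ∈ C, ∀ u ∈ Tan C y, ∀ v ∈ Tan C y, dF θ y u v = 0

/-- What remains of `EEstStmt` after rescaling. -/
def EpsStmt : Prop :=
  ∀ (V : Type) [NormedAddCommGroup V] [NormedSpace ℝ V] [FiniteDimensional ℝ V]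
    (J : V → V →L[ℝ] V), ContDiff ℝ ∞ J → ∀ C η μ : ℝ, 0 < η → 0 < μ →
    ∃ δ : ℝ, 0 < δ ∧ δ ≤ η ∧ ∀ (u : ℂ → V) (x : ℂ) (R : ℝ), ContDiff ℝ ∞ u → 0 < R →
      JHol J u (Metric.ball x (η / R)) →
      (∀ y ∈ Metric.ball x (η / R), ‖u y‖ ≤ C ∧ ‖fderiv ℝ u y‖ ≤ C * R) →
      ∀ y, ‖y - x‖ ≤ δ / R → ‖fderiv ℝ u y - fderiv ℝ u x‖ ≤ μ * R

end defs

end Pool.Agent.Lib.MP_ccffa6_gt
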