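import Pool.Agent.Lib.MP_ccffa6_gt.T.CRect
import Pool.Agent.Lib.MP_ccffa6_gt.T.Iface

/-! Rescaling the interior estimate. -/

open Set Filter Topology MeasureTheory
open scoped ContDiff ComplexConjugate Real

noncomputable section

namespace Pool.Agent.Lib.MP_ccffa6_gt

theorem t_ceps_der {V : Type} [NormedAddCommGroup V] [NormedSpace ℝ V] {u : ℂ → V}
    (hu : ContDiff ℝ ∞ u) (x : ℂ) (r : ℝ) (ζ : ℂ) :
    fderiv ℝ (fun ζ => u (x + r • ζ)) ζ = r • fderiv ℝ u (x + r • ζ) := by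
  have := (hu.differentiable (by simp) (x + r • ζ)).hasFDerivAt.comp ζ
    (((hasFDerivAt_id ζ).const_smul r).const_add x)
  exact this.fderiv.trans (ContinuousLinearMap.ext fun v => by simp)

theorem t_ceps_mem {η R : ℝ} (hR : 0 < R) (x : ℂ) {ζ : ℂ} (h : ζ ∈ Metric.ball (0 : ℂ) η) :
    x + R⁻¹ • ζ ∈ Metric.ball x (η / R) := by
  rw [mem_ball_iff_norm, add_sub_cancel_left, norm_smul, Real.norm_of_nonneg (inv_pos.2 hR).le,
    div_eq_inv_mul]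
  exact mul_lt_mul_of_pos_left (mem_ball_zero_iff.1 h) (inv_pos.2 hR)

/-- Rescaling. -/
theorem t_eps (hE : EEstStmt) : EpsStmt := by
  intro V _ _ _ J hJ C η μ hη hμ
  have sm : ∀ {u : ℂ → V}, ContDiff ℝ ∞ u → ∀ (x : ℂ) (r : ℝ), ContDiff ℝ ∞ fun ζ => u (x + r • ζ) :=
    fun hu x r => hu.comp (contDiff_const.add (contDiff_id.const_smul r))
  obtain ⟨B, hB⟩ := hE V J {p : (ℂ → V) × ℂ × ℝ // ContDiff ℝ ∞ p.1 ∧ 0 < p.2.2 ∧
      JHol J p.1 (Metric.ball p.2.1 (η / p.2.2)) ∧ ∀ y ∈ Metric.ball p.2.1 (η / p.2.2),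
        ‖p.1 y‖ ≤ C ∧ ‖fderiv ℝ p.1 y‖ ≤ C * p.2.2}
    (fun p ζ => p.1.1 (p.1.2.1 + p.1.2.2⁻¹ • ζ)) (Metric.ball 0 η) hJ Metric.isOpen_ball
    (fun p => (sm p.2.1 _ _).contDiffOn)
    (fun ⟨⟨u, x, R⟩, hu, hR, h1, _⟩ ζ hζ => by
      obtain ⟨a, b⟩ := h1 _ (t_ceps_mem hR x hζ)
      simp only [px, py, t_ceps_der hu, smul_apply, map_smul] at a b ⊢
      exact ⟨congrArg _ a, (congrArg _ b).trans (smul_neg _ _)⟩)
    ⟨C, fun ⟨⟨u, x, R⟩, hu, hR, _, h2⟩ ζ hζ => ⟨(h2 _ (t_ceps_mem hR x hζ)).1, by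
      rw [t_ceps_der hu, norm_smul, Real.norm_of_nonneg (inv_pos.2 hR).le, inv_mul_le_iff₀' hR]
      exact (h2 _ (t_ceps_mem hR x hζ)).2⟩⟩
    (Metric.closedBall 0 (η / 2)) (isCompact_closedBall _ _)
    (Metric.closedBall_subset_ball (half_lt_self hη)) 2
  have hp : 0 < |B| + 1 := by positivity
  refine ⟨min (η / 2) (μ / (|B| + 1)), by positivity, (min_le_left _ _).trans (half_le_self hη.le),
    fun u x R hu hR h1 h2 y hy => ?_⟩
  have hζ : ‖R • (y - x)‖ ≤ min (η / 2) (μ / (|B| + 1)) := by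
    rwa [norm_smul, Real.norm_of_nonneg hR.le, ← le_div_iff₀' hR]
  have h3 := (convex_closedBall (0 : ℂ) (η / 2)).norm_image_sub_le_of_norm_fderiv_le (𝕜 := ℝ)
    (f := fderiv ℝ fun ζ => u (x + R⁻¹ • ζ)) (C := |B| + 1)
    (fun z _ => ((sm hu x R⁻¹).fderiv_right (m := ∞) (by simp)).differentiable (by simp) z)
    (fun z hz => by
      rw [← norm_iteratedFDeriv_one, norm_iteratedFDeriv_fderiv]
      exact (hB ⟨⟨u, x, R⟩, hu, hR, h1, h2⟩ z hz).trans ((le_abs_self B).trans (lt_add_one _).le))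
    (Metric.mem_closedBall_self (half_pos hη).le)
    (mem_closedBall_zero_iff.2 (hζ.trans (min_le_left _ _)))
  rw [t_ceps_der hu, t_ceps_der hu, inv_smul_smul₀ hR.ne', smul_zero, add_zero, add_sub_cancel,
    ← smul_sub, norm_smul, Real.norm_of_nonneg (inv_pos.2 hR).le, inv_mul_le_iff₀' hR,
    sub_zero] at h3
  exact h3.trans (mul_le_mul_of_nonneg_right
    ((le_div_iff₀' hp).1 (hζ.trans (min_le_right _ _))) hR.le)

end Pool.Agent.Lib.MP_ccffa6_gt
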