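import Pool.Agent.Lib.MP_ccffa6_gt.T.CRect
import Pool.Agent.Lib.MP_ccffa6_gt.T.Base1

/-! Folding the plane onto the square. -/

open Set Filter Topology MeasureTheory
open scoped ContDiff ComplexConjugate Real

noncomputable section

namespace Pool.Agent.Lib.MP_ccffa6_gt

variable {V : Type} [NormedAddCommGroup V] [NormedSpace ℝ V]

theorem t_cfold_neg {X : Type} {f : ℝ → X} (h1 : ∀ x, f (π - x) = f x)
    (h2 : Function.Periodic f (2 * π)) (x : ℝ) : f (-π - x) = f x := by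
  rw [← h2 (-π - x), ← h1 x]
  exact congrArg f (by ring)

theorem t_cfold_one {X : Type} {f : ℝ → X} (h1 : ∀ x, f (π - x) = f x)
    (h2 : Function.Periodic f (2 * π)) {x₀ : ℝ} (h0 : |x₀| ≤ π / 2) (x : ℝ) :
    ∃ x', |x'| ≤ π / 2 ∧ |x' - x₀| ≤ |x - x₀| ∧ f x' = f x := by
  have hp := Real.pi_pos
  obtain ⟨ha, hb⟩ := abs_le.1 h0
  rcases le_total π |x - x₀| with hc | hc
  · have key : ∀ t, |t| ≤ π / 2 → |t - x₀| ≤ |x - x₀| := fun t ht => by
      obtain ⟨h3, h4⟩ := abs_le.1 ht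
      exact (abs_le.2 ⟨by linarith, by linarith⟩).trans hc
    obtain ⟨y, hy, e⟩ := h2.exists_mem_Ico (by positivity) x (-(π / 2))
    rcases le_total y (π / 2) with hd | hd
    · have h5 : |y| ≤ π / 2 := abs_le.2 ⟨hy.1, hd⟩
      exact ⟨y, h5, key y h5, e.symm⟩
    · have h5 : |π - y| ≤ π / 2 := abs_le.2 ⟨by linarith [hy.2], by linarith⟩
      exact ⟨π - y, h5, key _ h5, (h1 y).trans e.symm⟩
  · obtain ⟨h3, h4⟩ := abs_le.1 hc
    rcases le_total (π / 2) x with hd | hd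
    · refine ⟨π - x, abs_le.2 ⟨by linarith, by linarith⟩, ?_, h1 x⟩
      exact (abs_le.2 ⟨by linarith, by linarith⟩).trans (le_abs_self _)
    rcases le_total x (-(π / 2)) with he | he
    · refine ⟨-π - x, abs_le.2 ⟨by linarith, by linarith⟩, ?_, t_cfold_neg h1 h2 x⟩
      exact (abs_le.2 ⟨by linarith, by linarith⟩).trans (neg_le_abs _)
    · exact ⟨x, abs_le.2 ⟨he, hd⟩, le_rfl, rfl⟩

theorem t_cfold_hor {X : Type} {φ : ℂ → X} (h : Inv φ) (y : ℝ) :
    (∀ x : ℝ, φ ((π - x : ℝ) + y * Complex.I) = φ (x + y * Complex.I)) ∧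
      Function.Periodic (fun x : ℝ => φ (x + y * Complex.I)) (2 * π) :=
  ⟨fun x => (congrArg φ (Complex.ext (by simp [r1_re]) (by simp [r1_im]))).trans
      (h.1 (x + y * Complex.I)),
    fun x => (congrArg φ (by push_cast; ring)).trans (h.2.2 (x + y * Complex.I)).1⟩

theorem t_cfold_ver {X : Type} {φ : ℂ → X} (h : Inv φ) (x : ℝ) :
    (∀ y : ℝ, φ (x + (π - y : ℝ) * Complex.I) = φ (x + y * Complex.I)) ∧
      Function.Periodic (fun y : ℝ => φ (x + y * Complex.I)) (2 * π) :=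
  ⟨fun y => (congrArg φ (Complex.ext (by simp [r2_re]) (by simp [r2_im]))).trans
      (h.2.1 (x + y * Complex.I)),
    fun y => (congrArg φ (by push_cast; ring)).trans (h.2.2 (x + y * Complex.I)).2⟩

theorem t_cfold_int {f : ℝ → ℝ} (hf : Continuous f) (h1 : ∀ x, f (π - x) = f x)
    (h2 : Function.Periodic f (2 * π)) :
    ∫ x in (-(3 * π / 2))..(3 * π / 2), f x = 3 * ∫ x in (-(π / 2))..(π / 2), f x := by
  have a1 := intervalIntegral.integral_comp_sub_left (a := -(π / 2)) (b := π / 2) f π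
  have a2 := intervalIntegral.integral_comp_sub_left (a := -(π / 2)) (b := π / 2) f (-π)
  simp only [h1] at a1
  simp only [t_cfold_neg h1 h2] at a2
  rw [show π - π / 2 = π / 2 by ring, show π - -(π / 2) = 3 * π / 2 by ring] at a1
  rw [show -π - π / 2 = -(3 * π / 2) by ring, show -π - -(π / 2) = -(π / 2) by ring] at a2
  rw [← intervalIntegral.integral_add_adjacent_intervals (b := -(π / 2))
      (hf.intervalIntegrable _ _) (hf.intervalIntegrable _ _),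
    ← intervalIntegral.integral_add_adjacent_intervals (a := -(π / 2)) (b := π / 2)
      (c := 3 * π / 2) (hf.intervalIntegrable _ _) (hf.intervalIntegrable _ _), ← a1, ← a2]
  ring

/-- If `|x - x₀| ≥ π` any representative works; otherwise `x`, `π - x` or `-π - x`. -/
theorem t_fold {X : Type} {φ : ℂ → X} (h : Inv φ) {z₀ : ℂ} (h0 : z₀ ∈ Sq) (z : ℂ) :
    ∃ z' ∈ Sq, ‖z' - z₀‖ ≤ ‖z - z₀‖ ∧ φ z' = φ z := by
  obtain ⟨x, hx, dx, ex⟩ := t_cfold_one (f := fun x : ℝ => φ (x + z.im * Complex.I))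
    (t_cfold_hor h z.im).1 (t_cfold_hor h z.im).2 h0.1 z.re
  obtain ⟨y, hy, dy, ey⟩ := t_cfold_one (f := fun y : ℝ => φ (x + y * Complex.I))
    (t_cfold_ver h x).1 (t_cfold_ver h x).2 h0.2 z.im
  refine ⟨x + y * Complex.I, ⟨by simpa using hx, by simpa using hy⟩, ?_, ?_⟩
  · have h1 := sq_le_sq.2 dx
    have h2 := sq_le_sq.2 dy
    rw [Complex.norm_def, Complex.norm_def]
    refine Real.sqrt_le_sqrt ?_
    simp only [Complex.normSq_apply, Complex.sub_re, Complex.sub_im, Complex.add_re,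
      Complex.add_im, Complex.mul_re, Complex.mul_im, Complex.ofReal_re, Complex.ofReal_im,
      Complex.I_re, Complex.I_im]
    nlinarith
  · exact ey.trans (ex.trans (congrArg φ (Complex.re_add_im z)))

/-- `integral_rect`, `intervalIntegral.integral_comp_sub_left`, in each variable. -/
theorem t_fold_RI {g : ℂ → ℝ} (hg : Continuous g) (h : Inv g) :
    RI g (-(3 * π / 2)) (3 * π / 2) (-(3 * π / 2)) (3 * π / 2) = 9 * ∫ z in Sq, g z := by
  have hp := Real.pi_pos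
  have hA : -(3 * π / 2) ≤ 3 * π / 2 := by linarith
  have ha : -(π / 2) ≤ π / 2 := by linarith
  have e1 : RI g (-(3 * π / 2)) (3 * π / 2) (-(3 * π / 2)) (3 * π / 2) =
      3 * RI g (-(3 * π / 2)) (3 * π / 2) (-(π / 2)) (π / 2) := by
    rw [RI, RI, (integral_rect hA hA hg.continuousOn).1, (integral_rect hA ha hg.continuousOn).1,
      ← intervalIntegral.integral_const_mul]
    exact intervalIntegral.integral_congr fun x _ =>
      t_cfold_int (f := fun y : ℝ => g (x + y * Complex.I)) (by fun_prop)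
        (t_cfold_ver h x).1 (t_cfold_ver h x).2
  have e2 : RI g (-(3 * π / 2)) (3 * π / 2) (-(π / 2)) (π / 2) =
      3 * RI g (-(π / 2)) (π / 2) (-(π / 2)) (π / 2) := by
    rw [RI, RI, (integral_rect hA ha hg.continuousOn).2, (integral_rect ha ha hg.continuousOn).2,
      ← intervalIntegral.integral_const_mul]
    exact intervalIntegral.integral_congr fun y _ =>
      t_cfold_int (f := fun x : ℝ => g (x + y * Complex.I)) (by fun_prop)
        (t_cfold_hor h y).1 (t_cfold_hor h y).2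
  rw [e1, e2, sq_eq_rect, RI]
  ring

theorem t_siz_inv {S : V →L[ℝ] V} {u : ℂ → V} (hS : ∀ v, S (S v) = v) (hu : ContDiff ℝ ∞ u)
    (hp : Per u) (h1 : ∀ z, u (r1 z) = S (u z)) (h2 : ∀ z, u (r2 z) = S (u z)) :
    Inv (siz S u) := by
  have hd : Differentiable ℝ u := hu.differentiable (by simp)
  refine ⟨fun z => ?_, fun z => ?_, fun z => ⟨?_, ?_⟩⟩
  · obtain ⟨e1, e2⟩ := (eqv_deriv (S := S) hd z).1 h1
    rw [siz, siz, e1, e2, map_neg, hS, hS, norm_neg, norm_neg]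
    ring
  · obtain ⟨e1, e2⟩ := (eqv_deriv (S := S) hd z).2 h2
    rw [siz, siz, e1, e2, map_neg, hS, hS, norm_neg, norm_neg]
    ring
  · rw [siz, siz, (hp.px z).1, (hp.py z).1]
  · rw [siz, siz, (hp.px z).2, (hp.py z).2]

theorem t_siz_cont (S : V →L[ℝ] V) {u : ℂ → V} (hu : ContDiff ℝ ∞ u) :
    Continuous (siz S u) := by
  have h1 := (t_cd_px hu).continuous
  have h2 := (t_cd_py hu).continuous
  exact ((h1.norm.add h2.norm).add (S.continuous.comp h1).norm).add (S.continuous.comp h2).norm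

theorem t_siz_ge (S : V →L[ℝ] V) (u : ℂ → V) (z : ℂ) :
    ‖px u z‖ ≤ siz S u z ∧ ‖py u z‖ ≤ siz S u z ∧ ‖fderiv ℝ u z‖ ≤ siz S u z := by
  have h1 := norm_nonneg (px u z)
  have h2 := norm_nonneg (py u z)
  have h3 := norm_nonneg (S (px u z))
  have h4 := norm_nonneg (S (py u z))
  have h5 := norm_fderiv_le_px_py u z
  rw [siz]
  exact ⟨by linarith, by linarith, by linarith⟩

theorem t_siz_le (S : V →L[ℝ] V) (u : ℂ → V) (z : ℂ) :
    siz S u z ≤ (1 + ‖S‖) * (‖px u z‖ + ‖py u z‖) ∧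
      siz S u z ≤ 2 * (1 + ‖S‖) * ‖fderiv ℝ u z‖ := by
  have h1 := S.le_opNorm (px u z)
  have h2 := S.le_opNorm (py u z)
  have h3 : siz S u z ≤ (1 + ‖S‖) * (‖px u z‖ + ‖py u z‖) := by
    rw [siz]
    linarith
  have h4 := mul_le_mul_of_nonneg_left (add_le_add (norm_px_le u z) (norm_py_le u z))
    (show 0 ≤ 1 + ‖S‖ by positivity)
  exact ⟨h3, by linarith⟩

/-- The lemma `hofer` in the complete space `Sq`, extended to the plane by `t_fold`. -/
theorem t_hofer_sq {φ : ℂ → ℝ} (hφ : Continuous φ) (h0 : ∀ z, 0 ≤ φ z) (h : Inv φ) {z₀ : ℂ}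
    (hz : z₀ ∈ Sq) {ε : ℝ} (hε : 0 < ε) : ∃ ε' > 0, ∃ x ∈ Sq, ε' ≤ ε ∧ ‖x - z₀‖ ≤ 2 * ε ∧
      ε * φ z₀ ≤ ε' * φ x ∧ ∀ y, ‖y - x‖ ≤ ε' → φ y ≤ 2 * φ x := by
  have : CompleteSpace Sq := isCompact_sq.isClosed.completeSpace_coe
  obtain ⟨ε', h1, x, h2, h3, h4, h5⟩ := hofer (X := Sq) ⟨z₀, hz⟩ ε hε
    (hφ.comp continuous_subtype_val) fun y => h0 y
  refine ⟨ε', h1, x, x.2, h2, ?_, h4, fun y hy => ?_⟩
  · rwa [Subtype.dist_eq, dist_eq_norm] at h3
  · obtain ⟨y', hy', d, e⟩ := t_fold h x.2 y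
    rw [← e]
    refine h5 ⟨y', hy'⟩ ?_
    rw [Subtype.dist_eq, dist_comm, dist_eq_norm]
    exact d.trans hy

theorem t_cfold_seg {x ρ : ℝ} (hx : |x| ≤ π / 2) (h0 : 0 ≤ ρ) (h1 : ρ ≤ π / 2) :
    ∃ a, ∀ t ∈ Icc a (a + ρ), |t| ≤ π / 2 ∧ t ∈ Icc (x - ρ) (x + ρ) := by
  obtain ⟨ha, hb⟩ := abs_le.1 hx
  rcases le_total x 0 with h | h
  · exact ⟨x, fun t ht => ⟨abs_le.2 ⟨by linarith [ht.1], by linarith [ht.2]⟩,
      by linarith [ht.1], ht.2⟩⟩
  · exact ⟨x - ρ, fun t ht => ⟨abs_le.2 ⟨by linarith [ht.1], by linarith [ht.2]⟩,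
      ht.1, by linarith [ht.2]⟩⟩

/-- A quarter square at a point of `Sq`. -/
theorem t_quarter {x : ℂ} (hx : x ∈ Sq) {ρ : ℝ} (h0 : 0 ≤ ρ) (h1 : ρ ≤ π / 2) :
    ∃ a c, Rect a (a + ρ) c (c + ρ) ⊆ Sq ∩ sqr x ρ := by
  obtain ⟨a, ha⟩ := t_cfold_seg hx.1 h0 h1
  obtain ⟨c, hc⟩ := t_cfold_seg hx.2 h0 h1
  exact ⟨a, c, fun z hz => ⟨⟨(ha _ hz.1).1, (hc _ hz.2).1⟩, (ha _ hz.1).2, (hc _ hz.2).2⟩⟩

/-- A ball around a point of the square lies in the square or meets its boundary. -/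
theorem t_ball_sq {x : ℂ} (hx : x ∈ Sq) (ρ : ℝ) :
    Metric.ball x ρ ⊆ Sq ∨ ∃ y ∈ Metric.ball x ρ, y ∈ SqB := by
  refine or_iff_not_imp_right.2 fun hn => ?_
  have h1 : Sq ∩ Metric.ball x ρ ⊆ interior Sq := fun y hy => by
    rw [interior_sq]
    exact ⟨hy.1, fun hb => hn ⟨y, hy.2, hb⟩⟩
  rcases le_or_gt ρ 0 with hρ | hρ
  · rw [Metric.ball_eq_empty.2 hρ]
    exact empty_subset _
  · refine ((convex_ball x ρ).isPreconnected.subset_of_closure_inter_subset isOpen_interior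
      ⟨x, Metric.mem_ball_self hρ, h1 ⟨hx, Metric.mem_ball_self hρ⟩⟩ ?_).trans interior_subset
    rwa [closure_interior_sq]

/-- All the area cannot sit where `κ` is close to a number of modulus one: split the gauge
integral into `R` and `Sq \ R`. -/
theorem t_gauge {κ : ℂ → ℂ} {ρ : ℂ → ℝ} (hκ : ContinuousOn κ Sq) (hρ : Continuous ρ) {Ck : ℝ}
    (hb : ∀ z ∈ Sq, ‖κ z‖ ≤ Ck) (h0 : ∀ z ∈ Sq, 0 ≤ ρ z) {R : Set ℂ} (hR : MeasurableSet R)
    (hs : R ⊆ Sq) {w : ℂ} (hw : ‖w‖ = 1) (hn : ∀ z ∈ R, ‖κ z - w‖ ≤ 1 / 2)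
    (hg : ∫ z in Sq, κ z * (ρ z : ℂ) = 0) :
    ∫ z in R, ρ z ≤ 2 * Ck * ((∫ z in Sq, ρ z) - ∫ z in R, ρ z) := by
  have cρ : Continuous fun z => (ρ z : ℂ) := Complex.continuous_ofReal.comp hρ
  have i1 : IntegrableOn ρ Sq := hρ.continuousOn.integrableOn_compact isCompact_sq
  have i2 : IntegrableOn (fun z => κ z * (ρ z : ℂ)) Sq :=
    (hκ.mul cρ.continuousOn).integrableOn_compact isCompact_sq
  have i3 : IntegrableOn (fun z => w * (ρ z : ℂ)) Sq :=
    (continuous_const.mul cρ).continuousOn.integrableOn_compact isCompact_sq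
  have e1 := setIntegral_sdiff hR i2 hs
  have e2 := setIntegral_sdiff hR i1 hs
  have b1 : ‖∫ z in Sq \ R, κ z * (ρ z : ℂ)‖ ≤ Ck * ∫ z in Sq \ R, ρ z := by
    rw [← integral_const_mul]
    refine norm_integral_le_of_norm_le ((i1.mono_set sdiff_subset).const_mul Ck)
      (ae_restrict_of_forall_mem (measurableSet_sq.diff hR) fun z hz => ?_)
    rw [norm_mul, Complex.norm_real, Real.norm_of_nonneg (h0 z hz.1)]
    exact mul_le_mul_of_nonneg_right (hb z hz.1) (h0 z hz.1)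
  have b2 : ‖∫ z in R, (κ z * (ρ z : ℂ) - w * (ρ z : ℂ))‖ ≤ 1 / 2 * ∫ z in R, ρ z := by
    rw [← integral_const_mul]
    refine norm_integral_le_of_norm_le ((i1.mono_set hs).const_mul _)
      (ae_restrict_of_forall_mem hR fun z hz => ?_)
    rw [← sub_mul, norm_mul, Complex.norm_real, Real.norm_of_nonneg (h0 z (hs hz))]
    exact mul_le_mul_of_nonneg_right (hn z hz) (h0 z (hs hz))
  have b3 : ‖∫ z in R, w * (ρ z : ℂ)‖ = ∫ z in R, ρ z := by
    rw [integral_const_mul, integral_complex_ofReal, norm_mul, hw, one_mul, Complex.norm_real,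
      Real.norm_of_nonneg (setIntegral_nonneg hR fun z hz => h0 z (hs hz))]
  rw [integral_sub (i2.mono_set hs) (i3.mono_set hs), norm_sub_rev] at b2
  rw [e1, hg, zero_sub, norm_neg, e2] at b1
  have b4 := norm_sub_norm_le (∫ z in R, w * (ρ z : ℂ)) (∫ z in R, κ z * (ρ z : ℂ))
  linarith

end Pool.Agent.Lib.MP_ccffa6_gt
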