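import Pool.Agent.Lib.MP_ccffa6_gt.T.CNoc

/-! The gradient bound for solutions in a compact set. -/

open Set Filter Topology MeasureTheory
open scoped ContDiff ComplexConjugate Real

noncomputable section

namespace Pool.Agent.Lib.MP_ccffa6_gt

variable {V : Type} [NormedAddCommGroup V] [NormedSpace ℝ V] [FiniteDimensional ℝ V] {k : ℕ}
  {T : TD k V} {κ : ℂ → ℂ} {τ : ℝ} {u : ℂ → V}

/-- Near a point of the square where the derivative is controlled, the doubled map is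
`J`-holomorphic. -/
theorem TD.OK.hol_ball (hT : T.OK) : ∃ η : ℝ, 0 < η ∧ ∀ κ τ u, Sol T κ τ u → MapsTo u SqB T.L0 →
    ∀ x ∈ Sq, ∀ R : ℝ, 0 < R → (∀ y ∈ Metric.ball x (η / R), ‖fderiv ℝ u y‖ ≤ 2 * R) →
      JHol T.J u (Metric.ball x (η / R)) := by
  obtain ⟨e, he, h1⟩ := hT.isCompact_L0.exists_cthickening_subset_open hT.opVs
    fun y hy => (hT.memL (hT.L0_sub hy)).2.2.1
  refine ⟨e / 4, by positivity, fun κ τ u hu hb x hx R hR hd z hz => ?_⟩
  rcases t_ball_sq hx (e / 4 / R) with h | ⟨y, hy, hy'⟩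
  · exact hu.hol z (h hz)
  · refine (hu.of_mem_Vs hT (h1 (Metric.mem_cthickening_of_dist_le _ (u y) _ _ (hb hy') ?_))).2 z rfl
    have h2 := (convex_ball x (e / 4 / R)).norm_image_sub_le_of_norm_fderiv_le
      (fun w _ => hu.sm.differentiable (by simp) w) hd hy hz
    have h3 : ‖z - y‖ ≤ 2 * (e / 4 / R) := by
      have := dist_triangle_right z y x
      rw [← dist_eq_norm]
      linarith [Metric.mem_ball.1 hz, Metric.mem_ball.1 hy]
    rw [dist_eq_norm]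
    refine h2.trans ((mul_le_mul_of_nonneg_left h3 (by positivity)).trans_eq ?_)
    field_simp
    norm_num

/-- A quantum of area. -/
theorem TD.OK.quantum (hE : EpsStmt) (hT : T.OK) {K : Set V} (hK : IsCompact K) (hW : K ⊆ T.W) :
    ∃ η h : ℝ, 0 < η ∧ 0 < h ∧ ∀ κ τ u, Sol T κ τ u → MapsTo u SqB T.L0 → MapsTo u Sq K →
      ∀ x ∈ Sq, ∀ ε' : ℝ, 0 < ε' → ε' ≤ 1 → η ≤ ε' * siz T.S u x →
        (∀ y, ‖y - x‖ ≤ ε' → siz T.S u y ≤ 2 * siz T.S u x) →
        ∃ a b c d, Rect a b c d ⊆ Sq ∩ sqr x ε' ∧ h ≤ RI (dens T.lam u) a b c d := by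
  obtain ⟨η, hη, hb⟩ := hT.hol_ball
  obtain ⟨M, hM⟩ := hK.isBounded.exists_norm_le
  obtain ⟨Ct, hC, hd⟩ := hT.dens_bound hK hW
  have hS : 0 < 1 + ‖T.S‖ := by positivity
  obtain ⟨δ, hδ, hδη, hE'⟩ := hE V T.J hT.smJ (max 2 (M + 2 * η)) η (4 * (1 + ‖T.S‖))⁻¹ hη
    (by positivity)
  refine ⟨η, (4 * (1 + ‖T.S‖))⁻¹ ^ 2 * δ ^ 2 / (16 * Ct), hη, by positivity,
    fun κ τ u hu hL hmap x hx ε' h0 h1 h2 h3 => ?_⟩
  have h4 := (t_siz_le T.S u x).2
  generalize siz T.S u x = R at h2 h3 h4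
  have hR : 0 < R := (mul_pos_iff_of_pos_left h0).1 (hη.trans_le h2)
  have h5 : η / R ≤ ε' := (div_le_iff₀ hR).2 h2
  have h6 : ∀ y ∈ Metric.ball x (η / R), ‖fderiv ℝ u y‖ ≤ 2 * R := fun y hy =>
    (t_siz_ge T.S u y).2.2.trans (h3 y ((mem_ball_iff_norm.1 hy).le.trans h5))
  have h7 := hE' u x R hu.sm hR (hb κ τ u hu hL x hx R hR h6) fun y hy => by
    refine ⟨le_max_of_le_right ?_,
      (h6 y hy).trans (mul_le_mul_of_nonneg_right (le_max_left _ _) hR.le)⟩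
    have a1 := (convex_ball x (η / R)).norm_image_sub_le_of_norm_fderiv_le
      (fun w _ => hu.sm.differentiable (by simp) w) h6 (Metric.mem_ball_self (by positivity)) hy
    have a2 := mul_le_mul_of_nonneg_left (mem_ball_iff_norm.1 hy).le (by positivity : 0 ≤ 2 * R)
    have a3 : 2 * R * (η / R) = 2 * η := by field_simp
    linarith [norm_le_norm_add_norm_sub' (u y) (u x), hM _ (hmap hx)]
  have h8 : δ / (2 * R) ≤ ε' / 2 := by
    rw [mul_comm, ← div_div]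
    gcongr
    exact (div_le_div_of_nonneg_right hδη hR.le).trans h5
  obtain ⟨a, c, h9⟩ := t_quarter hx (ρ := δ / (2 * R)) (by positivity)
    (by linarith [Real.pi_gt_three])
  refine ⟨_, _, _, _, h9.trans (inter_subset_inter_right _ (t_sqr_mono x (by linarith))), ?_⟩
  have hρ : 0 < δ / (2 * R) := by positivity
  refine le_trans (le_of_eq ?_) (t_RI_ge (m := ((4 * (1 + ‖T.S‖))⁻¹ * R) ^ 2 / (4 * Ct))
    (t_cont_dens hT.smlam hu.sm) (by linarith) (by linarith) fun z hz => ?_)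
  · rw [add_sub_cancel_left, add_sub_cancel_left]
    field_simp
    norm_num
  · have a1 := h7 z ((t_norm_of_sqr (h9 hz).2).trans_eq (by field_simp))
    obtain ⟨a2, a3⟩ := hd κ τ u hu z (h9 hz).1 (hmap (h9 hz).1)
    have a4 : 2 * ((4 * (1 + ‖T.S‖))⁻¹ * R) ≤ ‖fderiv ℝ u x‖ := by
      rw [← mul_le_mul_iff_right₀ (by positivity : 0 < 2 * (1 + ‖T.S‖))]
      refine le_trans (le_of_eq ?_) h4
      field_simp
      norm_num
    have a5 := norm_le_norm_add_norm_sub (fderiv ℝ u z) (fderiv ℝ u x)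
    have a6 := norm_fderiv_le_px_py u z
    have a7 : ((4 * (1 + ‖T.S‖))⁻¹ * R) ^ 2 ≤ (‖px u z‖ + ‖py u z‖) ^ 2 :=
      pow_le_pow_left₀ (by positivity) (by linarith) 2
    rw [div_le_iff₀ (by positivity)]
    nlinarith [sq_nonneg (‖px u z‖ - ‖py u z‖)]

/-- The gradient bound: no concentration, the lemma of Hofer and the quantum of area. -/
theorem TD.OK.gradK (hE : EpsStmt) (hT : T.OK) (hκ : Kap κ) {K : Set V} (hK : IsCompact K)
    (hW : K ⊆ T.W) : ∃ G : ℝ, ∀ τ u, Sol T κ τ u → MapsTo u SqB T.L0 → MapsTo u Sq K →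
      ∀ z, ‖fderiv ℝ u z‖ ≤ G := by
  obtain ⟨η, h, hη, hh, hq⟩ := hT.quantum hE hK hW
  obtain ⟨r, hr, hn⟩ := hT.noc hκ hK hW (half_pos hh)
  have he : 0 < min r 1 := lt_min hr one_pos
  refine ⟨(1 + ‖T.S‖) ^ 2 * (η / min r 1), fun τ u hu hL hmap =>
    hu.grad hT fun z hz => (t_siz_ge T.S u z).2.2.trans ?_⟩
  obtain ⟨ε', h0, x, hx, h1, -, h2, h3⟩ := t_hofer_sq (t_siz_cont T.S hu.sm)
    (fun w => (norm_nonneg _).trans (t_siz_ge T.S u w).1)
    (t_siz_inv hT.SS hu.sm hu.per hu.eq1 hu.eq2) hz he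
  rw [le_div_iff₀ he, mul_comm]
  refine h2.trans (le_of_not_ge fun h4 => ?_)
  obtain ⟨a, b, c, d, h5, h6⟩ := hq κ τ u hu hL hmap x hx ε' h0 (h1.trans (min_le_right _ _)) h4 h3
  have h7 := hn τ u hu hmap x hx a b c d
    (h5.trans (inter_subset_inter_right _ (t_sqr_mono x (h1.trans (min_le_left _ _)))))
  linarith

end Pool.Agent.Lib.MP_ccffa6_gt
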