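import Pool.Agent.Lib.MP_ccffa6_gt.T.CWind

/-! The area of a rectangle with short or Lagrangian sides. -/

open Set Filter Topology MeasureTheory
open scoped ContDiff ComplexConjugate Real

noncomputable section

namespace Pool.Agent.Lib.MP_ccffa6_gt

variable {V : Type} [NormedAddCommGroup V] [NormedSpace ℝ V]

theorem t_cloop_two (x : ℝ) : 2 * Complex.I * (x : ℂ) = Complex.I * ((2 * x : ℝ) : ℂ) := by
  push_cast
  ring

theorem t_cloop_norm (x : ℝ) : ‖Complex.exp (2 * Complex.I * (x : ℂ))‖ = 1 := by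
  rw [t_cloop_two, Complex.norm_exp_I_mul_ofReal]

omit [NormedSpace ℝ V] in
theorem t_cloop_int {F : Type} [NormedAddCommGroup F] [NormedSpace ℝ F] {f : ℝ → F} {γ' : ℝ → V}
    (hc : Continuous γ') {t₀ t₁ C ε : ℝ} (ht : t₀ ≤ t₁) (hC : 0 ≤ C)
    (hf : ∀ t ∈ Icc t₀ t₁, ‖f t‖ ≤ C * ‖γ' t‖) (hs : ∫ t in t₀..t₁, ‖γ' t‖ ≤ ε) :
    ‖∫ t in t₀..t₁, f t‖ ≤ C * ε := by
  refine (intervalIntegral.norm_integral_le_of_norm_le (g := fun t => C * ‖γ' t‖) ht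
    (Eventually.of_forall fun t h => hf t (Ioc_subset_Icc_self h))
    ((continuous_const.mul hc.norm).intervalIntegrable _ _)).trans ?_
  rw [intervalIntegral.integral_const_mul]
  exact mul_le_mul_of_nonneg_left hs hC

/-- `|∫ lam (γ')| ≤ C ε`, `‖P (γ t₁) - P (γ t₀)‖ ≤ C ε`, `‖exp (i s) - 1‖ ≤ |s|`. -/
theorem Wind.short {L : Set V} {lam : Form1 V} {P : V → ℂ} (h : Wind L lam P) {K : Set V} {C : ℝ}
    (hK : ∀ y ∈ K, ‖lam y‖ ≤ C ∧ ‖P y‖ ≤ C ∧ ‖fderiv ℝ P y‖ ≤ C) {γ γ' : ℝ → V}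
    (hγ : ∀ t, HasDerivAt γ (γ' t) t) (hc : Continuous γ') {t₀ t₁ ε : ℝ} (ht : t₀ ≤ t₁)
    (hm : ∀ t ∈ Icc t₀ t₁, γ t ∈ K) (hs : ∫ t in t₀..t₁, ‖γ' t‖ ≤ ε) :
    |∫ t in t₀..t₁, lam (γ t) (γ' t)| ≤ C * ε ∧ ‖P (γ t₁) - P (γ t₀)‖ ≤ C * ε ∧
    ‖P (γ t₁) - Complex.exp (2 * Complex.I * (∫ t in t₀..t₁, lam (γ t) (γ' t) : ℝ)) * P (γ t₀)‖ ≤
      (2 * C ^ 2 + C) * ε := by
  have h0 := hK _ (hm t₀ (left_mem_Icc.2 ht))
  have hC : 0 ≤ C := (norm_nonneg _).trans h0.1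
  have cγ : Continuous γ := continuous_iff_continuousAt.2 fun t => (hγ t).continuousAt
  have h1 : |∫ t in t₀..t₁, lam (γ t) (γ' t)| ≤ C * ε :=
    t_cloop_int hc ht hC (fun t h => (lam (γ t)).le_of_opNorm_le (hK _ (hm t h)).1 _) hs
  have h2 : ‖P (γ t₁) - P (γ t₀)‖ ≤ C * ε := by
    rw [← intervalIntegral.integral_eq_sub_of_hasDerivAt (f := fun t => P (γ t))
      (f' := fun t => fderiv ℝ P (γ t) (γ' t))
      (fun t _ => (h.smP.differentiable (by simp) (γ t)).hasFDerivAt.comp_hasDerivAt t (hγ t))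
      ((((h.smP.continuous_fderiv (by simp)).comp cγ).clm_apply hc).intervalIntegrable _ _)]
    exact t_cloop_int hc ht hC
      (fun t h => (fderiv ℝ P (γ t)).le_of_opNorm_le (hK _ (hm t h)).2.2 _) hs
  refine ⟨h1, h2, ?_⟩
  generalize ∫ t in t₀..t₁, lam (γ t) (γ' t) = x at h1 ⊢
  have h3 : ‖Complex.exp (2 * Complex.I * (x : ℂ)) - 1‖ ≤ 2 * (C * ε) := by
    rw [t_cloop_two]
    refine Real.norm_exp_I_mul_ofReal_sub_one_le.trans ?_
    rw [Real.norm_eq_abs, abs_mul, abs_two]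
    linarith
  have h4 : P (γ t₁) - Complex.exp (2 * Complex.I * (x : ℂ)) * P (γ t₀) =
      P (γ t₁) - P (γ t₀) - (Complex.exp (2 * Complex.I * (x : ℂ)) - 1) * P (γ t₀) := by ring
  have h5 := mul_le_mul h3 h0.2.1 (norm_nonneg _) ((norm_nonneg _).trans h3)
  rw [h4]
  refine (norm_sub_le _ _).trans ?_
  rw [norm_mul]
  linarith

/-- `‖exp (2 i A) - 1‖ = 2 sin A` and `Real.mul_le_sin`. -/
theorem t_exp_near {A η : ℝ} (h0 : 0 ≤ A) (h1 : A ≤ π)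
    (h : ‖Complex.exp (2 * Complex.I * (A : ℂ)) - 1‖ ≤ 8 * η) : A ≤ 7 * η ∨ π - A ≤ 7 * η := by
  have h2 : 0 ≤ η := by linarith [norm_nonneg (Complex.exp (2 * Complex.I * (A : ℂ)) - 1)]
  rw [t_cloop_two, Complex.norm_exp_I_mul_ofReal_sub_one, mul_div_cancel_left₀ _ two_ne_zero,
    Real.norm_eq_abs] at h
  have h3 : Real.sin A ≤ 4 * η := by linarith [le_abs_self (2 * Real.sin A)]
  have key : ∀ B : ℝ, 0 ≤ B → B ≤ π / 2 → Real.sin B ≤ 4 * η → B ≤ 7 * η := by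
    intro B b0 b1 b2
    have h4 := (Real.mul_le_sin b0 b1).trans b2
    rw [div_mul_eq_mul_div, div_le_iff₀ Real.pi_pos] at h4
    nlinarith [Real.pi_lt_d2]
  rcases le_total A (π / 2) with h4 | h4
  · exact Or.inl (key A h0 h4 h3)
  · exact Or.inr (key _ (by linarith) (by linarith) (by rwa [Real.sin_pi_sub]))

theorem t_cloop_side {L : Set V} {lam : Form1 V} {P : V → ℂ} (h : Wind L lam P) {K : Set V} {C : ℝ}
    (hK : ∀ y ∈ K, ‖lam y‖ ≤ C ∧ ‖P y‖ ≤ C ∧ ‖fderiv ℝ P y‖ ≤ C) {γ γ' : ℝ → V}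
    (hγ : ∀ t, HasDerivAt γ (γ' t) t) (hc : Continuous γ') {t₀ t₁ ε : ℝ} (ht : t₀ ≤ t₁)
    (hm : ∀ t ∈ Icc t₀ t₁, γ t ∈ K) (hη : 0 ≤ (2 * C ^ 2 + C) * ε)
    (hs : (∀ t ∈ Icc t₀ t₁, γ t ∈ L) ∨ ∫ t in t₀..t₁, ‖γ' t‖ ≤ ε) :
    ‖P (γ t₁) - Complex.exp (2 * Complex.I * (∫ t in t₀..t₁, lam (γ t) (γ' t) : ℝ)) * P (γ t₀)‖ ≤
      (2 * C ^ 2 + C) * ε := by
  rcases hs with hs | hs
  · rw [← h.side hγ hc ht hs, sub_self, norm_zero]
    exact hη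
  · exact (h.short hK hγ hc ht hm hs).2.2

theorem t_cloop_low {p q : ℂ} {x η : ℝ} (h : ‖q - Complex.exp (2 * Complex.I * (x : ℂ)) * p‖ ≤ η) :
    ‖q‖ ≤ ‖p‖ + η := by
  have h1 := norm_sub_norm_le q (Complex.exp (2 * Complex.I * (x : ℂ)) * p)
  rw [norm_mul, t_cloop_norm, one_mul] at h1
  linarith

theorem t_cloop_alg {p q r s : ℂ} {x y z w η : ℝ}
    (h1 : ‖q - Complex.exp (2 * Complex.I * (x : ℂ)) * p‖ ≤ η)
    (h2 : ‖s - Complex.exp (2 * Complex.I * (y : ℂ)) * r‖ ≤ η)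
    (h3 : ‖s - Complex.exp (2 * Complex.I * (z : ℂ)) * q‖ ≤ η)
    (h4 : ‖r - Complex.exp (2 * Complex.I * (w : ℂ)) * p‖ ≤ η) (hp : 1 / 2 ≤ ‖p‖) :
    ‖Complex.exp (2 * Complex.I * ((x - y + z - w : ℝ) : ℂ)) - 1‖ ≤ 8 * η := by
  have e : Complex.exp (2 * Complex.I * ((x - y + z - w : ℝ) : ℂ)) *
      (Complex.exp (2 * Complex.I * (y : ℂ)) * Complex.exp (2 * Complex.I * (w : ℂ))) =
      Complex.exp (2 * Complex.I * (z : ℂ)) * Complex.exp (2 * Complex.I * (x : ℂ)) := by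
    rw [← Complex.exp_add, ← Complex.exp_add, ← Complex.exp_add]
    congr 1
    push_cast
    ring
  have n1 := t_cloop_norm y
  have n2 := t_cloop_norm z
  have n3 := t_cloop_norm w
  generalize Complex.exp (2 * Complex.I * ((x - y + z - w : ℝ) : ℂ)) = A at e ⊢
  generalize Complex.exp (2 * Complex.I * (x : ℂ)) = X at h1 e
  generalize Complex.exp (2 * Complex.I * (y : ℂ)) = Y at h2 e n1
  generalize Complex.exp (2 * Complex.I * (z : ℂ)) = Z at h3 e n2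
  generalize Complex.exp (2 * Complex.I * (w : ℂ)) = W at h4 e n3
  have h5 : (A - 1) * (Y * W * p) =
      (s - Y * r + Y * (r - W * p)) - (s - Z * q + Z * (q - X * p)) := by
    linear_combination p * e
  have h6 := norm_sub_le (s - Y * r + Y * (r - W * p)) (s - Z * q + Z * (q - X * p))
  have h7 := norm_add_le (s - Y * r) (Y * (r - W * p))
  have h8 := norm_add_le (s - Z * q) (Z * (q - X * p))
  rw [← h5, norm_mul, norm_mul, norm_mul, n1, n3, one_mul, one_mul] at h6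
  rw [norm_mul, n1, one_mul] at h7
  rw [norm_mul, n2, one_mul] at h8
  nlinarith [norm_nonneg (A - 1)]

/-- Go from the corner `(a, c)` to `(b, d)` in two ways. -/
theorem Wind.loop {L : Set V} {lam : Form1 V} {P : V → ℂ} (h : Wind L lam P) {K : Set V} {C : ℝ}
    (hK : ∀ y ∈ K, ‖lam y‖ ≤ C ∧ ‖P y‖ ≤ C ∧ ‖fderiv ℝ P y‖ ≤ C) {u : ℂ → V} (hu : ContDiff ℝ ∞ u)
    {Z : Set ℂ} (hZ : MapsTo u Z L) {a b c d ε : ℝ} (hε : 0 ≤ ε) (hA : Alt u Z a b c d ε)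
    (hm : MapsTo u (Rect a b c d) K) (hη : (2 * C ^ 2 + C) * ε ≤ 1 / 4)
    (h0 : 0 ≤ RI (dens lam u) a b c d) (h1 : RI (dens lam u) a b c d ≤ π) :
    RI (dens lam u) a b c d ≤ 7 * ((2 * C ^ 2 + C) * ε) ∨
      (π - RI (dens lam u) a b c d ≤ 7 * ((2 * C ^ 2 + C) * ε) ∧ (Rect a b c d ∩ Z).Nonempty) := by
  have hx := hA.hx
  have hy := hA.hy
  have ma := left_mem_Icc.2 hx
  have mb := right_mem_Icc.2 hx
  have mc := left_mem_Icc.2 hy
  have md := right_mem_Icc.2 hy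
  have hC : 0 ≤ C := (norm_nonneg _).trans (hK _ (hm (Base0_mem ma mc))).1
  have h2 : C * ε ≤ (2 * C ^ 2 + C) * ε := mul_le_mul_of_nonneg_right (by nlinarith) hε
  have h3 : 0 ≤ C * ε := mul_nonneg hC hε
  have hd : Differentiable ℝ u := hu.differentiable (by simp)
  have dh : ∀ y t : ℝ, HasDerivAt (fun x : ℝ => u (x + y * Complex.I))
      (px u (t + y * Complex.I)) t := fun y t => hasDerivAt_px (hd _)
  have dv : ∀ x t : ℝ, HasDerivAt (fun y : ℝ => u (x + y * Complex.I))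
      (py u (x + t * Complex.I)) t := fun x t => hasDerivAt_py (hd _)
  have ch := t_cont_h (t_cd_px hu).continuous
  have cv := t_cont_v (t_cd_py hu).continuous
  have mh : ∀ y ∈ Icc c d, ∀ x ∈ Icc a b, u (x + y * Complex.I) ∈ K := fun y hy x hx =>
    hm (Base0_mem hx hy)
  have mv : ∀ x ∈ Icc a b, ∀ y ∈ Icc c d, u (x + y * Complex.I) ∈ K := fun x hx y hy =>
    hm (Base0_mem hx hy)
  have st := stokes_rect hx hy (lam := lam) (u := u)
    (fun z _ => h.sml.contDiffAt.of_le (by simp))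
    fun z _ => hu.contDiffAt.of_le (WithTop.coe_le_coe.2 (le_top : (2 : ℕ∞) ≤ ⊤))
  have sb := t_cloop_side h hK (dh c) (ch c) hx (mh c mc) (h3.trans h2)
    (hA.bo.imp_left fun h4 x hx => hZ (h4 x hx))
  have st' := t_cloop_side h hK (dh d) (ch d) hx (mh d md) (h3.trans h2)
    (hA.tp.imp_left fun h4 x hx => hZ (h4 x hx))
  have sl := t_cloop_side h hK (dv a) (cv a) hy (mv a ma) (h3.trans h2)
    (hA.le.imp_left fun h4 x hx => hZ (h4 x hx))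
  have sr := t_cloop_side h hK (dv b) (cv b) hy (mv b mb) (h3.trans h2)
    (hA.ri.imp_left fun h4 x hx => hZ (h4 x hx))
  have fin : 1 / 2 ≤ ‖P (u (a + c * Complex.I))‖ → (Rect a b c d ∩ Z).Nonempty →
      RI (dens lam u) a b c d ≤ 7 * ((2 * C ^ 2 + C) * ε) ∨
      (π - RI (dens lam u) a b c d ≤ 7 * ((2 * C ^ 2 + C) * ε) ∧ (Rect a b c d ∩ Z).Nonempty) := by
    intro h4 h5
    have h6 := t_cloop_alg sb st' sr sl h4
    rw [← st] at h6
    exact (t_exp_near h0 h1 h6).imp_right fun h7 => ⟨h7, h5⟩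
  rcases hA.bo with h4 | h4
  · exact fin (by rw [h.one _ (hZ (h4 a ma))]; norm_num) ⟨_, Base0_mem ma mc, h4 a ma⟩
  rcases hA.le with h5 | h5
  · exact fin (by rw [h.one _ (hZ (h5 c mc))]; norm_num) ⟨_, Base0_mem ma mc, h5 c mc⟩
  rcases hA.tp with h6 | h6
  · exact fin (by linarith [h.one _ (hZ (h6 a ma)), t_cloop_low sl]) ⟨_, Base0_mem ma md, h6 a ma⟩
  rcases hA.ri with h7 | h7
  · exact fin (by linarith [h.one _ (hZ (h7 c mc)), t_cloop_low sb]) ⟨_, Base0_mem mb mc, h7 c mc⟩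
  have a4 := abs_le.1 (h.short hK (dh c) (ch c) hx (mh c mc) h4).1
  have a5 := abs_le.1 (h.short hK (dv a) (cv a) hy (mv a ma) h5).1
  have a6 := abs_le.1 (h.short hK (dh d) (ch d) hx (mh d md) h6).1
  have a7 := abs_le.1 (h.short hK (dv b) (cv b) hy (mv b mb) h7).1
  left
  rw [RI, st]
  linarith [a4.2, a5.1, a6.1, a7.2]

end Pool.Agent.Lib.MP_ccffa6_gt
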