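import Pool.Agent.Lib.MP_ccffa6_gt.T.CRect

/-! The maximum principle in the ends, the slab identity. -/

open Set Filter Topology MeasureTheory
open scoped ContDiff ComplexConjugate Real

noncomputable section

namespace Pool.Agent.Lib.MP_ccffa6_gt

theorem t_cmp_green {P Q : ℂ → ℝ} (hP : ContDiff ℝ ∞ P) (hQ : ContDiff ℝ ∞ Q) {a b c d : ℝ}
    (hab : a ≤ b) (hcd : c ≤ d) (h0 : ∀ z ∈ Bd a b c d, P z = 0 ∧ Q z = 0) :
    RI (fun z => px Q z - py P z) a b c d = 0 := by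
  have h1 : ∀ y, y = c ∨ y = d → ∫ x in a..b, P (x + y * Complex.I) = 0 := fun y hy => by
    rw [intervalIntegral.integral_congr (g := fun _ => 0), intervalIntegral.integral_zero]
    intro x hx
    rw [uIcc_of_le hab] at hx
    refine (h0 _ ⟨Base0_mem hx ?_, Or.inr (Or.inr (by simpa using hy))⟩).1
    rcases hy with rfl | rfl
    exacts [⟨le_rfl, hcd⟩, ⟨hcd, le_rfl⟩]
  have h2 : ∀ x, x = a ∨ x = b → ∫ y in c..d, Q (x + y * Complex.I) = 0 := fun x hx => by
    rw [intervalIntegral.integral_congr (g := fun _ => 0), intervalIntegral.integral_zero]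
    intro y hy
    rw [uIcc_of_le hcd] at hy
    refine (h0 _ ⟨Base0_mem ?_ hy, or_assoc.1 (Or.inl (by simpa using hx))⟩).2
    rcases hx with rfl | rfl
    exacts [⟨le_rfl, hab⟩, ⟨hab, le_rfl⟩]
  rw [RI, green hab hcd (fun z _ => hP.contDiffAt.of_le (by simp))
    (fun z _ => hQ.contDiffAt.of_le (by simp)), h1 c (Or.inl rfl), h1 d (Or.inr rfl),
    h2 a (Or.inl rfl), h2 b (Or.inr rfl)]
  ring

/-- A smooth `χ ≥ 0` which vanishes on `(-∞, t]`, increases strictly on `(t, t')` and is constant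
on `[t', ∞)`, for example `χ s = ∫ r in t..s, expNegInvGlue (r - t) * expNegInvGlue (t' - r)`. -/
theorem t_band {t t' : ℝ} (h : t < t') : ∃ χ : ℝ → ℝ, ContDiff ℝ ∞ χ ∧ (∀ s ≤ t, χ s = 0) ∧
    (∀ s, t < s → 0 < χ s) ∧ (∀ s ∈ Ioo t t', 0 < deriv χ s) ∧
    ∀ s, s ∉ Ioo t t' → deriv χ s = 0 := by
  let g : ℝ → ℝ := fun r => expNegInvGlue (r - t) * expNegInvGlue (t' - r)
  have sg : ContDiff ℝ ∞ g := (expNegInvGlue.contDiff.comp (contDiff_id.sub contDiff_const)).mul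
    (expNegInvGlue.contDiff.comp (contDiff_const.sub contDiff_id))
  have g0 : ∀ r, 0 ≤ g r := fun r => mul_nonneg (expNegInvGlue.nonneg _) (expNegInvGlue.nonneg _)
  have g1 : ∀ r ∈ Ioo t t', 0 < g r := fun r hr => mul_pos
    (expNegInvGlue.pos_of_pos (sub_pos.2 hr.1)) (expNegInvGlue.pos_of_pos (sub_pos.2 hr.2))
  have g2 : ∀ r, r ∉ Ioo t t' → g r = 0 := fun r hr => by
    rcases le_or_gt r t with h1 | h1
    · exact mul_eq_zero_of_left (expNegInvGlue.zero_of_nonpos (sub_nonpos.2 h1)) _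
    · exact mul_eq_zero_of_right _
        (expNegInvGlue.zero_of_nonpos (sub_nonpos.2 (not_lt.1 fun h2 => hr ⟨h1, h2⟩)))
  have hd : ∀ s, HasDerivAt (fun s => ∫ r in t..s, g r) (g s) s := fun s =>
    (sg.continuous.integral_hasStrictDerivAt t s).hasDerivAt
  have he : deriv (fun s => ∫ r in t..s, g r) = g := funext fun s => (hd s).deriv
  refine ⟨fun s => ∫ r in t..s, g r, contDiff_infty_iff_deriv.2
    ⟨fun s => (hd s).differentiableAt, by rwa [he]⟩, fun s hs => ?_, fun s hs => ?_,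
    by rwa [he], by rwa [he]⟩
  · show ∫ r in t..s, g r = 0
    rw [intervalIntegral.integral_congr (g := fun _ => 0), intervalIntegral.integral_zero]
    intro r hr
    rw [uIcc_of_ge hs] at hr
    exact g2 r fun h1 => not_lt.2 hr.2 h1.1
  · have h1 : t < min s t' := lt_min hs h
    refine intervalIntegral.integral_pos hs sg.continuous.continuousOn (fun r _ => g0 r)
      ⟨(t + min s t') / 2, ⟨by linarith, by linarith [min_le_left s t']⟩, g1 _
        ⟨by linarith, by linarith [min_le_right s t']⟩⟩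

/-- `green` for `(χ(f) p, χ(f) q)`: the boundary terms vanish, the curl is
`χ'(f) (f_x q - f_y p) + χ(f) (q_x - p_y) ≥ 0`, so it vanishes (`t_RI_eq_zero`); hence
`χ'(f) f_x = 0` on the rectangle and `χ ∘ f` is constant on horizontal segments.
Degenerate rectangles are equal to their boundary. -/
theorem t_mp {f p q : ℂ → ℝ} (hf : ContDiff ℝ ∞ f) (hp : ContDiff ℝ ∞ p) (hq : ContDiff ℝ ∞ q)
    {a b c d t t' : ℝ} (ht : t < t') (hc : ∀ z ∈ Rect a b c d, 0 ≤ px q z - py p z)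
    (hb : ∀ z ∈ Rect a b c d, t < f z → f z < t' → 0 ≤ px f z * q z - py f z * p z ∧
      (px f z * q z - py f z * p z = 0 → px f z = 0))
    (h0 : ∀ z ∈ Bd a b c d, f z ≤ t) : ∀ z ∈ Rect a b c d, f z ≤ t := by
  intro z hz
  by_cases hab : a < b
  swap
  · exact h0 z ⟨hz, Or.inl (le_antisymm (hz.1.2.trans (not_lt.1 hab)) hz.1.1)⟩
  by_cases hcd : c < d
  swap
  · exact h0 z ⟨hz, Or.inr (Or.inr (Or.inl (le_antisymm (hz.2.2.trans (not_lt.1 hcd)) hz.2.1)))⟩
  obtain ⟨χ, sχ, χ0, χ1, χ2, χ3⟩ := t_band ht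
  have χ4 : ∀ s, 0 ≤ χ s := fun s => (le_or_gt s t).elim (fun h => (χ0 s h).ge) fun h => (χ1 s h).le
  have sF : ContDiff ℝ ∞ fun w => χ (f w) := sχ.comp hf
  have dF := sF.differentiable (by simp)
  have dχ := sχ.differentiable (by simp)
  have df := hf.differentiable (by simp)
  have hG : ∀ w, px (fun w => χ (f w) * q w) w - py (fun w => χ (f w) * p w) w =
      deriv χ (f w) * (px f w * q w - py f w * p w) + χ (f w) * (px q w - py p w) := fun w => by
    rw [t_px_mul (dF w) (hq.differentiable (by simp) w), t_py_mul (dF w)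
      (hp.differentiable (by simp) w), t_px_comp (dχ _) (df w), t_py_comp (dχ _) (df w)]
    ring
  have hA : ∀ w ∈ Rect a b c d, 0 ≤ deriv χ (f w) * (px f w * q w - py f w * p w) := fun w hw => by
    by_cases h1 : f w ∈ Ioo t t'
    · exact mul_nonneg (χ2 _ h1).le (hb w hw h1.1 h1.2).1
    · rw [χ3 _ h1, zero_mul]
  have hB : ∀ w ∈ Rect a b c d, 0 ≤ χ (f w) * (px q w - py p w) := fun w hw =>
    mul_nonneg (χ4 _) (hc w hw)
  have h1 := t_cmp_green (sF.mul hp) (sF.mul hq) hab.le hcd.le fun w hw => by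
    simp [χ0 _ (h0 w hw)]
  have h2 := t_RI_eq_zero ((t_cd_px (sF.mul hq)).continuous.sub (t_cd_py (sF.mul hp)).continuous)
    hab hcd (fun w hw => by
      rw [Pi.sub_apply, hG]; exact add_nonneg (hA w hw) (hB w hw)) h1.le
  have h3 : ∀ w ∈ Rect a b c d, px (fun w => χ (f w)) w = 0 := fun w hw => by
    rw [t_px_comp (dχ _) (df w)]
    by_cases h4 : f w ∈ Ioo t t'
    · have h5 := h2 w hw
      rw [Pi.sub_apply, hG] at h5
      have h6 : deriv χ (f w) * (px f w * q w - py f w * p w) = 0 := by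
        linarith [hA w hw, hB w hw]
      rw [(hb w hw h4.1 h4.2).2 ((mul_eq_zero.1 h6).resolve_left (χ2 _ h4).ne'), mul_zero]
    · rw [χ3 _ h4, zero_mul]
  have h4 := constant_of_has_deriv_right_zero (t_cont_h sF.continuous z.im).continuousOn
    (fun x hx => by
      have := hasDerivAt_px (dF (x + z.im * Complex.I))
      rw [h3 _ (Base0_mem (Ico_subset_Icc_self hx) hz.2)] at this
      exact this.hasDerivWithinAt) z.re hz.1
  rw [Complex.re_add_im, χ0 _ (h0 _ ⟨Base0_mem ⟨le_rfl, hab.le⟩ hz.2, Or.inl (by simp)⟩)] at h4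
  exact not_lt.1 fun h5 => (χ1 _ h5).ne' h4

/-- `green` for `(-T(a) a_y, T(a) a_x)`. -/
theorem t_slab_eq {a : ℂ → ℝ} (ha : ContDiff ℝ ∞ a) {T : ℝ → ℝ} (hT : ContDiff ℝ ∞ T)
    {x₁ x₂ y₁ y₂ : ℝ} (hx : x₁ ≤ x₂) (hy : y₁ ≤ y₂)
    (h0 : ∀ z ∈ Bd x₁ x₂ y₁ y₂, T (a z) * px a z = 0 ∧ T (a z) * py a z = 0) :
    RI (fun z => deriv T (a z) * gr2 a z) x₁ x₂ y₁ y₂ =
      -RI (fun z => T (a z) * lap a z) x₁ x₂ y₁ y₂ := by
  have sF : ContDiff ℝ ∞ fun w => T (a w) := hT.comp ha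
  have dF := sF.differentiable (by simp)
  have dT := hT.differentiable (by simp)
  have da := ha.differentiable (by simp)
  have h1 := t_cmp_green (sF.mul (t_cd_py ha)).neg (sF.mul (t_cd_px ha)) hx hy fun w hw =>
    ⟨neg_eq_zero.2 (h0 w hw).2, (h0 w hw).1⟩
  have h2 : ∀ w, px (fun w => T (a w) * px a w) w - py (fun w => -(T (a w) * py a w)) w =
      deriv T (a w) * gr2 a w + T (a w) * lap a w := fun w => by
    have h3 : py (fun w => -(T (a w) * py a w)) w = -py (fun w => T (a w) * py a w) w := by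
      rw [py, fderiv_fun_neg]; rfl
    rw [h3, t_px_mul (dF w) ((t_cd_px ha).differentiable (by simp) w), t_py_mul (dF w)
      ((t_cd_py ha).differentiable (by simp) w), t_px_comp (dT _) (da w), t_py_comp (dT _) (da w),
      gr2, lap]
    ring
  simp only [h2] at h1
  exact eq_neg_of_add_eq_zero_left ((t_RI_add (((hT.continuous_deriv (by simp)).comp
    ha.continuous).mul (t_cd_gr2 ha).continuous) (sF.continuous.mul (t_cd_lap ha).continuous)
    x₁ x₂ y₁ y₂).symm.trans h1)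

theorem HS.nonneg {a : ℂ → ℝ} {E h Cr : ℝ} (ha : HS a E h Cr) : 0 ≤ E :=
  (t_RI_nonneg fun _ _ => abs_nonneg _).trans (ha.mass 0 0 0 0)

/-- `t_slab_eq` on a large square which contains the rectangle and `Sq` in its interior. -/
theorem HS.slab {a : ℂ → ℝ} {E h Cr : ℝ} (ha : HS a E h Cr) {T : ℝ → ℝ} {t₁ t₂ δ : ℝ}
    (hT : Trunc T t₁ t₂ δ) (x₁ x₂ y₁ y₂ : ℝ) :
    RI (fun z => deriv T (a z) * gr2 a z) x₁ x₂ y₁ y₂ ≤ (t₂ - t₁ + 2 * δ) * E := by
  obtain ⟨R, h0, h1, h2, h3, h4⟩ : ∃ R : ℝ, π / 2 < R ∧ -R ≤ x₁ ∧ x₂ ≤ R ∧ -R ≤ y₁ ∧ y₂ ≤ R := by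
    have := Real.pi_pos
    refine ⟨π + |x₁| + |x₂| + |y₁| + |y₂|, ?_, ?_, ?_, ?_, ?_⟩ <;>
      linarith [abs_nonneg x₁, abs_nonneg x₂, abs_nonneg y₁, abs_nonneg y₂, neg_abs_le x₁,
        le_abs_self x₂, neg_abs_le y₁, le_abs_self y₂]
  have hR : 0 < R := Real.pi_div_two_pos.trans h0
  have hc : 0 ≤ t₂ - t₁ + 2 * δ := (abs_nonneg _).trans (hT.bd 0)
  have c1 : Continuous fun z => deriv T (a z) * gr2 a z :=
    ((hT.sm.continuous_deriv (by simp)).comp ha.sm.continuous).mul (t_cd_gr2 ha.sm).continuous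
  have c2 := (t_cd_lap ha.sm).continuous
  refine (t_RI_sub c1 (t_rect_sub h1 h2 h3 h4) fun z _ =>
    mul_nonneg (hT.d0 _) (t_gr2_nonneg _ _)).trans ?_
  rw [t_slab_eq ha.sm hT.sm (by linarith) (by linarith) fun z hz => ?_]
  · refine le_trans ?_ (mul_le_mul_of_nonneg_left (ha.mass (-R) R (-R) R) hc)
    rw [RI, RI, ← integral_neg, ← integral_const_mul]
    refine t_RI_mono ((hT.sm.continuous.comp ha.sm.continuous).mul c2).neg
      (continuous_const.mul c2.abs) fun z _ => (neg_le_abs _).trans ?_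
    exact (abs_mul _ _).le.trans (mul_le_mul_of_nonneg_right (hT.bd _) (abs_nonneg _))
  · have h5 : z ∉ Sq := fun h => by
      have h6 := abs_le.1 h.1
      have h7 := abs_le.1 h.2
      rcases hz.2 with e | e | e | e <;> linarith [h6.1, h6.2, h7.1, h7.2]
    have h6 : a =ᶠ[𝓝 z] fun _ => 0 :=
      Filter.eventually_of_mem (isCompact_sq.isClosed.isOpen_compl.mem_nhds h5) ha.supp
    simp [px, py, h6.fderiv_eq]

/-- The maximum principle, contrapositive. -/
theorem HS.bd_gt {a : ℂ → ℝ} {E h Cr : ℝ} (ha : HS a E h Cr) {x₁ x₂ y₁ y₂ t : ℝ} (ht : t < -1)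
    {z : ℂ} (hz : z ∈ Rect x₁ x₂ y₁ y₂) (h1 : t < a z) : ∃ w ∈ Bd x₁ x₂ y₁ y₂, t < a w := by
  by_contra h
  exact not_le.2 h1 (ha.mp t ht x₁ x₂ y₁ y₂ (fun w hw => not_lt.1 fun h2 => h ⟨w, hw, h2⟩) z hz)

end Pool.Agent.Lib.MP_ccffa6_gt
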