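import Pool.Agent.Lib.MP_ccffa6_gt.T.COsc
import Pool.Agent.Lib.MP_ccffa6_gt.T.CMp

/-! A quantum of the Laplacian near the minimum. -/

open Set Filter Topology MeasureTheory
open scoped ContDiff ComplexConjugate Real

noncomputable section

namespace Pool.Agent.Lib.MP_ccffa6_gt

/-- Step 1. -/
theorem HS.q1 {a : ℂ → ℝ} {E h Cr : ℝ} (ha : HS a E h Cr) (hC : 0 < Cr) {z₀ : ℂ} {r₀ η θ : ℝ}
    (hr : 0 < r₀) (hη : 0 < η) (hE : 6 * η * E ≤ h) (hθ : θ ≤ 1 / 2) (hθ' : 16 * Cr * θ ≤ η)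
    (hm : ∀ z, a z₀ ≤ a z) (h1 : ∀ w ∈ sqr z₀ r₀, a w ≤ a z₀ + η) (h2 : ∀ w ∈ sqr z₀ r₀, a w < -1)
    (h3 : SI (lap a) z₀ r₀ ≤ h / 2) :
    ∀ x ∈ Icc (z₀.re - θ * r₀) (z₀.re + θ * r₀), a (x + z₀.im * Complex.I) ≤ a z₀ + η / 8 := by
  obtain ⟨T, hT⟩ := t_trunc (t₁ := a z₀) (t₂ := a z₀ + η) (by linarith) hη
  have cg := (t_cd_gr2 ha.sm).continuous
  have cl := (t_cd_lap ha.sm).continuous
  have h4 : SI (gr2 a) z₀ r₀ ≤ h / 2 := by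
    refine (t_RI_mono cg (hT.cont ha.sm) fun z hz => ?_).trans ((ha.slab hT _ _ _ _).trans ?_)
    · rw [hT.one _ ⟨hm z, h1 z hz⟩, one_mul]
    · linarith
  have h5 : ∀ z ∈ sqr z₀ (r₀ / 2), ‖fderiv ℝ a z‖ ≤ 2 * Cr / r₀ := by
    intro z hz
    have hs : sqr z (r₀ / 2) ⊆ sqr z₀ r₀ := t_rect_sub (by linarith [hz.1.1])
      (by linarith [hz.1.2]) (by linarith [hz.2.1]) (by linarith [hz.2.2])
    have h5 := ha.reg z (r₀ / 2) (half_pos hr) (fun w hw => h2 w (hs hw))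
      ((t_RI_sub (cg.add cl) hs fun w hw =>
        add_nonneg (t_gr2_nonneg a w) (ha.sub w (h2 w hw))).trans
        ((t_RI_add cg cl _ _ _ _).trans_le (by linarith)))
    rw [le_div_iff₀ hr]
    linarith
  intro x hx
  have h6 : ‖(x + z₀.im * Complex.I : ℂ) - z₀‖ ≤ θ * r₀ := by
    have e : (x + z₀.im * Complex.I : ℂ) - z₀ = ((x - z₀.re : ℝ) : ℂ) := by
      apply Complex.ext <;> simp
    rw [e, Complex.norm_real, Real.norm_eq_abs, abs_le]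
    exact ⟨by linarith [hx.1], by linarith [hx.2]⟩
  have h7 := (convex_rect _ _ _ _).norm_image_sub_le_of_norm_fderiv_le (𝕜 := ℝ)
    (fun z _ => ha.sm.differentiable (by simp) z) h5
    (t_mem_sqr (z := z₀) (w := z₀) (by simpa using (half_pos hr).le))
    (t_mem_sqr (h6.trans (by nlinarith)))
  have h8 : 2 * Cr / r₀ * (θ * r₀) = 2 * Cr * θ := by field_simp
  have h9 := mul_le_mul_of_nonneg_left h6 (show 0 ≤ 2 * Cr / r₀ by positivity)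
  have h10 := le_abs_self (a (x + z₀.im * Complex.I) - a z₀)
  rw [Real.norm_eq_abs] at h7
  linarith

/-- Step 2. -/
theorem HS.q2 {a : ℂ → ℝ} {E h Cr : ℝ} (ha : HS a E h Cr) {z₀ : ℂ} {r₀ η : ℝ} {J : ℕ}
    (hr : 0 < r₀) (hη : 0 < η) (hJ : 0 < J) (hJ' : 1728 * E ≤ J * η)
    (h1 : ∃ w ∈ sqr z₀ r₀, a z₀ + η ≤ a w) (h2 : ∀ w ∈ sqr z₀ r₀, a w < -1) :
    ∃ x₁ x₂ y₁ y₂, x₁ ≤ z₀.re - r₀ ∧ z₀.re + r₀ ≤ x₂ ∧ y₁ ≤ z₀.im - r₀ ∧ z₀.im + r₀ ≤ y₂ ∧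
      y₂ ≤ z₀.im + 2 ^ J * r₀ ∧ Rect x₁ x₂ y₁ y₂ ⊆ sqr z₀ (2 ^ J * r₀) ∧
      ∀ w ∈ Bd x₁ x₂ y₁ y₂, a z₀ + 5 * η / 8 ≤ a w := by
  obtain ⟨T, hT⟩ := t_trunc (t₁ := a z₀) (t₂ := a z₀ + η) (by linarith) hη
  obtain ⟨j, hj, h3⟩ := t_pigeon (SI (fun z => deriv T (a z) * gr2 a z) z₀) r₀ (3 * η * E) hJ (by
    have h3 := ha.slab hT (z₀.re - 2 ^ J * r₀) (z₀.re + 2 ^ J * r₀) (z₀.im - 2 ^ J * r₀)
      (z₀.im + 2 ^ J * r₀)
    have h4 : 0 ≤ SI (fun z => deriv T (a z) * gr2 a z) z₀ r₀ :=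
      t_RI_nonneg fun z _ => hT.nonneg a z
    linarith)
  obtain ⟨x₁, x₂, y₁, y₂, s1, s2, e1, e2, e3, e4, -, e5, hs⟩ :=
    t_annulus (hT.cont ha.sm) (hT.nonneg a) z₀ (by positivity) h3
  have h4 : r₀ ≤ 2 ^ j * r₀ := le_mul_of_one_le_left hr.le (one_le_pow₀ one_le_two)
  have h5 : 2 * (2 ^ j * r₀) ≤ 2 ^ J * r₀ := by
    rw [← mul_assoc, ← pow_succ']
    exact mul_le_mul_of_nonneg_right (pow_le_pow_right₀ one_le_two hj) hr.le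
  refine ⟨x₁, x₂, y₁, y₂, by linarith, by linarith, by linarith, by linarith, by linarith,
    s2.trans (t_sqr_mono z₀ h5), fun w hw => ?_⟩
  obtain ⟨z, hz, h6⟩ := h1
  obtain ⟨w', hw', h7⟩ := ha.bd_gt (t := a z₀ + 7 * η / 8) (by linarith [h2 z hz])
    (s1 (t_sqr_mono z₀ h4 hz)) (by linarith)
  have h8 : 4 * (3 * η * E / J) ≤ (η / 12) ^ 2 := by
    rw [← mul_div_assoc, div_le_iff₀ (Nat.cast_pos.2 hJ)]
    nlinarith
  have h9 := (abs_le.1 (hT.osc_bd ha.sm (by positivity)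
    (hs.mono (hT.cont ha.sm) (hT.cont ha.sm) (fun _ _ => le_rfl) h8) hw hw')).1
  have h10 : a z₀ + 7 * η / 8 ≤ clamp (a z₀) (a z₀ + η) (a w') :=
    le_max_of_le_right (le_min h7.le (by linarith))
  by_contra h11
  have h12 : clamp (a z₀) (a z₀ + η) (a w) < a z₀ + 5 * η / 8 :=
    max_lt (by linarith) (min_lt_of_left_lt (not_le.1 h11))
  linarith

/-- Step 3. -/
theorem HS.q3 {a : ℂ → ℝ} {E h Cr : ℝ} (ha : HS a E h Cr) {z₀ : ℂ} {r₀ η θ K x₁ x₂ y₁ y₂ : ℝ}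
    (hr : 0 < r₀) (hη : 0 < η) (hθ : 0 < θ) (hθ' : θ ≤ 1) (hK : 0 < K)
    (e1 : x₁ ≤ z₀.re - r₀) (e2 : z₀.re + r₀ ≤ x₂) (e3 : y₁ ≤ z₀.im - r₀) (e4 : z₀.im + r₀ ≤ y₂)
    (e5 : y₂ ≤ z₀.im + K * r₀) (h1 : ∀ w ∈ Rect x₁ x₂ y₁ y₂, a w < -1)
    (h2 : ∀ w ∈ Bd x₁ x₂ y₁ y₂, a z₀ + 5 * η / 8 ≤ a w)
    (h3 : ∀ x ∈ Icc (z₀.re - θ * r₀) (z₀.re + θ * r₀), a (x + z₀.im * Complex.I) ≤ a z₀ + η / 8) :
    θ * η / (4 * K) ≤ RI (lap a) x₁ x₂ y₁ y₂ := by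
  obtain ⟨T, hT⟩ := t_trunc (t₁ := a z₀) (t₂ := a z₀ + η / 2) (δ := η / 8) (by linarith)
    (by positivity)
  have cl := (t_cd_lap ha.sm).continuous
  have cT : Continuous fun z => T (a z) := hT.sm.continuous.comp ha.sm.continuous
  have h4 : RI (fun z => deriv T (a z) * gr2 a z) x₁ x₂ y₁ y₂ ≤ η * RI (lap a) x₁ x₂ y₁ y₂ := by
    rw [t_slab_eq ha.sm hT.sm (by linarith) (by linarith) fun z hz => by
      rw [hT.zero _ (by linarith [h2 z hz])]; simp, ← integral_neg, ← integral_const_mul]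
    refine t_RI_mono (cT.mul cl).neg (continuous_const.mul cl) fun z hz => ?_
    have h4 := (abs_le.1 (hT.bd (a z))).1
    have h5 := ha.sub z (h1 z hz)
    show -(T (a z) * lap a z) ≤ η * lap a z
    nlinarith
  have h5 : θ * r₀ ≤ r₀ := mul_le_of_le_one_left hr.le hθ'
  have h6 : 0 < θ * r₀ := mul_pos hθ hr
  obtain ⟨x, hx, h7⟩ := t_sel_v (hT.cont ha.sm) (a := z₀.re - θ * r₀) (b := z₀.re + θ * r₀)
    (c := z₀.im) (d := y₂) (by linarith) (by linarith)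
  have h8 := (h7.trans (t_RI_sub (hT.cont ha.sm) (t_rect_sub (a' := x₁) (b' := x₂) (c' := y₁)
    (by linarith) (by linarith) (by linarith) le_rfl) fun z _ => hT.nonneg a z)).trans h4
  have h9 : 0 ≤ VI (fun z => deriv T (a z) * gr2 a z) x z₀.im y₂ :=
    intervalIntegral.integral_nonneg (by linarith) fun y _ => hT.nonneg a _
  by_contra h10
  rw [not_le, lt_div_iff₀ (by positivity)] at h10
  have h11 : (y₂ - z₀.im) * VI (fun z => deriv T (a z) * gr2 a z) x z₀.im y₂ ≤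
      (9 * η / 25) ^ 2 := by
    generalize VI (fun z => deriv T (a z) * gr2 a z) x z₀.im y₂ = v at *
    generalize RI (lap a) x₁ x₂ y₁ y₂ = μ at *
    have h11 : θ * (8 * (K * r₀ * v)) ≤ θ * η ^ 2 := by
      have := mul_le_mul_of_nonneg_left h8 hK.le
      have := mul_lt_mul_of_pos_left h10 hη
      nlinarith
    have h12 := le_of_mul_le_mul_left h11 hθ
    have h13 : (y₂ - z₀.im) * v ≤ K * r₀ * v := mul_le_mul_of_nonneg_right (by linarith) h9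
    nlinarith [sq_nonneg η]
  have h12 := (abs_le.1 (hT.osc_v ha.sm (by positivity) h11 (left_mem_Icc.2 (by linarith))
    (right_mem_Icc.2 (by linarith)))).1
  have h13 : clamp (a z₀) (a z₀ + η / 2) (a (x + z₀.im * Complex.I)) ≤ a z₀ + η / 8 :=
    max_le (by linarith) (min_le_of_left_le (h3 x hx))
  have h14 : a z₀ + η / 2 ≤ clamp (a z₀) (a z₀ + η / 2) (a (x + y₂ * Complex.I)) :=
    le_max_of_le_right (le_min (le_trans (by linarith) (h2 _ ⟨t_mem_rect.2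
      ⟨⟨by linarith [hx.1], by linarith [hx.2]⟩, by linarith, le_rfl⟩, by simp⟩)) le_rfl)
  linarith

/-- The quantum. -/
theorem t_hquant {E h Cr : ℝ} (hE : 0 < E) (hh : 0 < h) (hC : 0 < Cr) :
    ∃ (η ε₀ : ℝ) (J : ℕ), 0 < η ∧ η ≤ 1 ∧ 0 < ε₀ ∧ ∀ (a : ℂ → ℝ) (z₀ : ℂ) (r₀ : ℝ), HS a E h Cr →
      0 < r₀ → (∀ z, a z₀ ≤ a z) → (∀ w ∈ sqr z₀ r₀, a w ≤ a z₀ + η) →
      (∃ w ∈ sqr z₀ r₀, a z₀ + η ≤ a w) → (∀ w ∈ sqr z₀ (2 ^ J * r₀), a w < -1) →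
      ε₀ ≤ SI (lap a) z₀ (2 ^ J * r₀) := by
  obtain ⟨η, hη, h1, h2⟩ : ∃ η : ℝ, 0 < η ∧ η ≤ 1 ∧ 6 * η * E ≤ h :=
    ⟨min 1 (h / (6 * E)), by positivity, min_le_left _ _, by
      have := (le_div_iff₀ (by positivity)).1 (min_le_right 1 (h / (6 * E)))
      linarith⟩
  obtain ⟨θ, hθ, h3, h4⟩ : ∃ θ : ℝ, 0 < θ ∧ θ ≤ 1 / 2 ∧ 16 * Cr * θ ≤ η :=
    ⟨min (1 / 2) (η / (16 * Cr)), by positivity, min_le_left _ _, by
      have := (le_div_iff₀ (by positivity)).1 (min_le_right (1 / 2) (η / (16 * Cr)))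
      linarith⟩
  obtain ⟨J, hJ⟩ := exists_nat_ge (1728 * E / η)
  have hJ0 : 0 < J := Nat.cast_pos.1 (lt_of_lt_of_le (by positivity) hJ)
  refine ⟨η, min (h / 2) (θ * η / (4 * 2 ^ J)), J, hη, h1, by positivity,
    fun a z₀ r₀ ha hr hm h5 h6 h7 => ?_⟩
  have cl := (t_cd_lap ha.sm).continuous
  have hs := t_sqr_mono z₀ (le_mul_of_one_le_left hr.le (one_le_pow₀ (n := J) one_le_two))
  rcases le_or_gt (SI (lap a) z₀ r₀) (h / 2) with h8 | h8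
  · obtain ⟨x₁, x₂, y₁, y₂, e1, e2, e3, e4, e5, e6, e7⟩ := ha.q2 hr hη hJ0
      ((div_le_iff₀ hη).1 hJ) h6 fun w hw => h7 w (hs hw)
    exact (min_le_right _ _).trans ((ha.q3 hr hη hθ (by linarith) (by positivity) e1 e2 e3 e4 e5
      (fun w hw => h7 w (e6 hw)) e7
      (ha.q1 hC hr hη h2 h3 h4 hm h5 (fun w hw => h7 w (hs hw)) h8)).trans
      (t_RI_sub cl e6 fun w hw => ha.sub w (h7 w hw)))
  · exact (min_le_left _ _).trans (h8.le.trans (t_RI_sub cl hs fun w hw => ha.sub w (h7 w hw)))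

end Pool.Agent.Lib.MP_ccffa6_gt
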