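import Pool.Agent.Lib.MP_ccffa6_gt.T.HGrow
import Pool.Agent.Lib.MP_ccffa6_gt.T.HQuant

/-! A good rectangle deep in the negative end. -/

open Set Filter Topology MeasureTheory
open scoped ContDiff ComplexConjugate Real

noncomputable section

namespace Pool.Agent.Lib.MP_ccffa6_gt

theorem t_hloop_sqrt {E : ℝ} (hE : 0 < E) : 3 * √(32 * hw E * E) ≤ hw E / 2 := by
  have h : √(32 * hw E * E) ≤ hw E / 6 := by
    unfold hw
    exact Real.sqrt_le_iff.2 ⟨by positivity, by nlinarith⟩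
  linarith

/-- A rectangle with small energy and small Laplacian on its sides. -/
theorem HS.loop {a : ℂ → ℝ} {E h Cr : ℝ} (ha : HS a E h Cr) (hE : 0 < E) {z : ℂ} {r₁ t : ℝ}
    {J : ℕ} (hr : 0 < r₁) (hJ : 0 < J) (h0 : ∀ w ∈ sqr z r₁, a w ≤ t) (ht : t + J * hw E < -1) :
    ∃ x₁ x₂ y₁ y₂, sqr z r₁ ⊆ Rect x₁ x₂ y₁ y₂ ∧ (∀ w ∈ Rect x₁ x₂ y₁ y₂, a w < -1) ∧
      Sides (gr2 a) x₁ x₂ y₁ y₂ (32 * hw E * E) ∧
      Sides (fun w => |lap a w|) x₁ x₂ y₁ y₂ (8 * E / J) := by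
  have hw0 : 0 < hw E := by unfold hw; positivity
  have cL : Continuous fun w => |lap a w| := (t_cd_lap ha.sm).continuous.abs
  obtain ⟨j, hj, h1⟩ := t_pigeon (fun ρ => SI (fun w => |lap a w|) z ρ) r₁ E hJ
    ((sub_le_self _ (t_RI_nonneg fun _ _ => abs_nonneg _)).trans (ha.mass _ _ _ _))
  have hr1 : r₁ ≤ 2 ^ j * r₁ := le_mul_of_one_le_left hr.le (one_le_pow₀ one_le_two)
  have hj' : (j + 1) * hw E ≤ J * hw E :=
    mul_le_mul_of_nonneg_right (by exact_mod_cast hj) hw0.le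
  have h2 := ha.grow_pow hr h0 j (by linarith)
  generalize 2 ^ j * r₁ = r at h1 hr1 h2
  have hr0 := hr.trans_le hr1
  obtain ⟨p, hp, h3⟩ := (isCompact_rect _ _ _ _).exists_isMaxOn
    ⟨z, t_mem_sqr (z := z) (r := r) (by simpa using hr0.le)⟩ ha.sm.continuous.continuousOn
  have h4 : a p + hw E < -1 := by linarith [h2 p hp]
  have h5 := ha.grow hr0 (fun w hw => h3 hw) h4
  obtain ⟨T, hT⟩ := t_trunc (t₁ := a p - hw E) (t₂ := a p + hw E) (by linarith) hw0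
  have cg := hT.cont ha.sm
  have hm : 0 < 4 * hw E * E := by positivity
  have hn : 0 < E / J := by positivity
  have cG : Continuous fun w => (4 * hw E * E)⁻¹ * (deriv T (a w) * gr2 a w) +
      (E / J)⁻¹ * |lap a w| := (continuous_const.mul cg).add (continuous_const.mul cL)
  have n1 := fun w => mul_nonneg (inv_nonneg.2 hm.le) (hT.nonneg a w)
  have n2 := fun w => mul_nonneg (inv_nonneg.2 hn.le) (abs_nonneg (lap a w))
  obtain ⟨x₁, x₂, y₁, y₂, s1, s2, -, -, -, -, -, -, h6⟩ := t_annulus cG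
    (fun w => add_nonneg (n1 w) (n2 w)) z hr0 (A := 2) (by
      have e := fun ρ => t_RI_add (continuous_const.mul cg) (continuous_const.mul cL)
        (g := fun w => (4 * hw E * E)⁻¹ * (deriv T (a w) * gr2 a w))
        (h := fun w => (E / J)⁻¹ * |lap a w|) (z.re - ρ) (z.re + ρ) (z.im - ρ) (z.im + ρ)
      have h7 := ha.slab hT (z.re - 2 * r) (z.re + 2 * r) (z.im - 2 * r) (z.im + 2 * r)
      have h8 := t_RI_nonneg (a := z.re - r) (b := z.re + r) (c := z.im - r) (d := z.im + r)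
        fun w _ => n1 w
      have h9 := (inv_mul_le_one₀ hm).2 (h7.trans_eq (by ring))
      have h10 := (inv_mul_le_one₀ hn).2 h1
      simp only [RI, SI, integral_const_mul] at e h8 h9 h10 ⊢
      rw [e, e]
      linarith)
  have h7 : Sides (fun w => deriv T (a w) * gr2 a w) x₁ x₂ y₁ y₂ (32 * hw E * E) :=
    (h6.smul hm.le).mono cg (continuous_const.fun_mul cG) (fun w _ => by
      rw [mul_add, mul_inv_cancel_left₀ hm.ne']
      exact le_add_of_nonneg_right (mul_nonneg hm.le (n2 w))) (by linarith)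
  refine ⟨x₁, x₂, y₁, y₂, (t_sqr_mono z hr1).trans s1, fun w hw => (h5 w (s2 hw)).trans_lt h4,
    h7.mono (t_cd_gr2 ha.sm).continuous cg (fun w hb => ?_) le_rfl,
    (h6.smul hn.le).mono cL (continuous_const.fun_mul cG) (fun w _ => ?_) (le_of_eq (by ring))⟩
  · obtain ⟨q, hq, h8⟩ := ha.bd_gt (t := a p - hw E / 4)
      (by linarith) (s1 hp) (by linarith)
    rw [← Real.sq_sqrt (by positivity : 0 ≤ 32 * hw E * E)] at h7
    have h9 := (abs_le.1 (hT.osc_bd ha.sm (Real.sqrt_nonneg _) h7 hq hb)).2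
    have h10 := t_hloop_sqrt hE
    have h11 := h5 w (s2 hb.1)
    rw [clamp, clamp, min_eq_left h11, min_eq_left (h5 q (s2 hq.1)),
      max_eq_right (b := a q) (by linarith)] at h9
    rw [hT.one _ ⟨?_, h11⟩, one_mul]
    by_contra h12
    rw [max_eq_left (not_le.1 h12).le] at h9
    linarith
  · rw [mul_add, mul_inv_cancel_left₀ hn.ne']
    exact le_add_of_nonneg_left (mul_nonneg hn.le (n1 w))

/-- The good rectangle around the minimum. -/
theorem t_hscal {E h Cr : ℝ} (hE : 0 < E) (hh : 0 < h) (hC : 0 < Cr) :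
    ∃ ε₀ C₁ : ℝ, 0 < ε₀ ∧ 0 ≤ C₁ ∧ ∀ ε : ℝ, 0 < ε → ∃ m₀ : ℝ, ∀ (a : ℂ → ℝ) (z : ℂ), HS a E h Cr →
      a z < m₀ → ∃ x₁ x₂ y₁ y₂, (∀ w ∈ Rect x₁ x₂ y₁ y₂, a w < -1) ∧
        ε₀ ≤ RI (lap a) x₁ x₂ y₁ y₂ ∧ Sides (gr2 a) x₁ x₂ y₁ y₂ (C₁ ^ 2) ∧
        Sides (fun w => |lap a w|) x₁ x₂ y₁ y₂ ε := by
  have hw0 : 0 < hw E := by unfold hw; positivity
  obtain ⟨η, ε₀, J₁, hη, -, hε₀, h1⟩ := t_hquant hE hh hC
  refine ⟨ε₀, √(32 * hw E * E), hε₀, Real.sqrt_nonneg _, fun ε hε => ?_⟩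
  obtain ⟨J₂, hJ⟩ := exists_nat_gt (8 * E / ε)
  have hJ0 : (0 : ℝ) < J₂ := lt_trans (by positivity) hJ
  refine ⟨-2 - η - (J₁ + J₂) * hw E, fun a z ha hz => ?_⟩
  obtain ⟨z₀, h2⟩ := ha.exists_min
  have h3 := h2 z
  have p1 : 0 ≤ J₁ * hw E := by positivity
  have p2 : 0 ≤ J₂ * hw E := by positivity
  obtain ⟨r₀, hr, h4, h5⟩ := ha.first (z₀ := z₀) hη (by linarith)
  have h6 := ha.grow_pow hr h4 J₁ (by linarith)
  obtain ⟨x₁, x₂, y₁, y₂, s1, s2, s3, s4⟩ := ha.loop hE (by positivity) (Nat.cast_pos.1 hJ0) h6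
    (by linarith)
  have cL := (t_cd_lap ha.sm).continuous
  refine ⟨x₁, x₂, y₁, y₂, s2, ?_, ?_, s4.mono cL.abs cL.abs (fun _ _ => le_rfl) ?_⟩
  · exact (h1 a z₀ r₀ ha hr h2 h4 h5 fun w hw => s2 w (s1 hw)).trans
      (t_RI_sub cL s1 fun w hw => ha.sub w (s2 w hw))
  · rwa [Real.sq_sqrt (by positivity)]
  · rw [div_le_iff₀ hJ0, mul_comm ε]
    exact ((div_lt_iff₀ hε).1 hJ).le

end Pool.Agent.Lib.MP_ccffa6_gt
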