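import Pool.Agent.Lib.MP_ccffa6_gt.T.CRect

/-! Selection of good lines. -/

open Set Filter Topology MeasureTheory
open scoped ContDiff ComplexConjugate Real

noncomputable section

namespace Pool.Agent.Lib.MP_ccffa6_gt

theorem t_csel_min {F : ℝ → ℝ} (hF : Continuous F) {a b : ℝ} (hab : a ≤ b) :
    ∃ x ∈ Icc a b, (b - a) * F x ≤ ∫ t in a..b, F t := by
  obtain ⟨x, hx, h⟩ := isCompact_Icc.exists_isMinOn (nonempty_Icc.2 hab) hF.continuousOn
  have := intervalIntegral.integral_mono_on hab (μ := volume) (f := fun _ => F x) (by simp)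
    (hF.intervalIntegrable a b) fun t ht => h ht
  exact ⟨x, hx, by simpa using this⟩

/-- Mean value: `integral_rect`, continuity of `x ↦ VI g x c d`, minimum on `[a, b]`. -/
theorem t_sel_v {g : ℂ → ℝ} (hg : Continuous g) {a b c d : ℝ} (hab : a ≤ b) (hcd : c ≤ d) :
    ∃ x ∈ Icc a b, (b - a) * VI g x c d ≤ RI g a b c d := by
  rw [RI, (integral_rect hab hcd hg.continuousOn).1]
  exact t_csel_min (intervalIntegral.continuous_parametric_intervalIntegral_of_continuous'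
    (f := fun x y : ℝ => g (x + y * Complex.I)) (by fun_prop) c d) hab

theorem t_sel_h {g : ℂ → ℝ} (hg : Continuous g) {a b c d : ℝ} (hab : a ≤ b) (hcd : c ≤ d) :
    ∃ y ∈ Icc c d, (d - c) * HI g a b y ≤ RI g a b c d := by
  rw [RI, (integral_rect hab hcd hg.continuousOn).2]
  exact t_csel_min (intervalIntegral.continuous_parametric_intervalIntegral_of_continuous'
    (f := fun y x : ℝ => g (x + y * Complex.I)) (by fun_prop) a b) hcd

/-- Each of the four strips of width `r` and length `4 r` has integral at most `A`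
(`t_RI_add_x`, `t_RI_add_y`, `t_RI_sub`); choose a line in each (`r` times its integral is at
most `A`), shorten it by `t_HI_sub`, `t_VI_sub`; the sides have length at most `4 r`. -/
theorem t_annulus {g : ℂ → ℝ} (hg : Continuous g) (h0 : ∀ z, 0 ≤ g z) (z : ℂ) {r A : ℝ}
    (hr : 0 < r) (hA : SI g z (2 * r) - SI g z r ≤ A) :
    ∃ a b c d, sqr z r ⊆ Rect a b c d ∧ Rect a b c d ⊆ sqr z (2 * r) ∧
      a ≤ z.re - r ∧ z.re + r ≤ b ∧ c ≤ z.im - r ∧ z.im + r ≤ d ∧ z.im - 2 * r ≤ c ∧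
      d ≤ z.im + 2 * r ∧ Sides g a b c d (4 * A) := by
  have n (a b c d) : 0 ≤ RI g a b c d := t_RI_nonneg fun z _ => h0 z
  change RI g _ _ _ _ - RI g _ _ _ _ ≤ A at hA
  set x := z.re
  set y := z.im
  have x1 := t_RI_add_x hg (a := x - 2 * r) (m := x - r) (b := x + 2 * r) (c := y - 2 * r)
    (d := y + 2 * r) (by linarith) (by linarith) (by linarith)
  have x2 := t_RI_add_x hg (a := x - r) (m := x + r) (b := x + 2 * r) (c := y - 2 * r)
    (d := y + 2 * r) (by linarith) (by linarith) (by linarith)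
  have x3 := t_RI_sub hg (t_rect_sub (le_refl (x - r)) (le_refl (x + r))
    (show y - 2 * r ≤ y - r by linarith) (show y + r ≤ y + 2 * r by linarith)) fun z _ => h0 z
  have y1 := t_RI_add_y hg (c := y - 2 * r) (m := y - r) (d := y + 2 * r) (a := x - 2 * r)
    (b := x + 2 * r) (by linarith) (by linarith) (by linarith)
  have y2 := t_RI_add_y hg (c := y - r) (m := y + r) (d := y + 2 * r) (a := x - 2 * r)
    (b := x + 2 * r) (by linarith) (by linarith) (by linarith)
  have y3 := t_RI_sub hg (t_rect_sub (show x - 2 * r ≤ x - r by linarith)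
    (show x + r ≤ x + 2 * r by linarith) (le_refl (y - r)) (le_refl (y + r))) fun z _ => h0 z
  obtain ⟨a, ⟨a1, a2⟩, a3⟩ := t_sel_v hg (a := x - 2 * r) (b := x - r) (c := y - 2 * r)
    (d := y + 2 * r) (by linarith) (by linarith)
  obtain ⟨b, ⟨b1, b2⟩, b3⟩ := t_sel_v hg (a := x + r) (b := x + 2 * r) (c := y - 2 * r)
    (d := y + 2 * r) (by linarith) (by linarith)
  obtain ⟨c, ⟨c1, c2⟩, c3⟩ := t_sel_h hg (c := y - 2 * r) (d := y - r) (a := x - 2 * r)
    (b := x + 2 * r) (by linarith) (by linarith)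
  obtain ⟨d, ⟨d1, d2⟩, d3⟩ := t_sel_h hg (c := y + r) (d := y + 2 * r) (a := x - 2 * r)
    (b := x + 2 * r) (by linarith) (by linarith)
  have ab : a ≤ b := by linarith
  have cd : c ≤ d := by linarith
  have k {l I J ρ : ℝ} (h1 : l ≤ 4 * r) (h2 : 0 ≤ I) (h3 : I ≤ J) (h4 : ρ * J ≤ A) (h5 : ρ = r) :
      l * I ≤ 4 * A := by
    subst h5
    nlinarith [mul_le_mul_of_nonneg_right h1 h2, mul_le_mul_of_nonneg_left h3 hr.le]
  have nh (t) : 0 ≤ HI g a b t := intervalIntegral.integral_nonneg ab fun _ _ => h0 _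
  have nv (t) : 0 ≤ VI g t c d := intervalIntegral.integral_nonneg cd fun _ _ => h0 _
  have n1 := n (x - 2 * r) (x + 2 * r) (y + r) (y + 2 * r)
  have n2 := n (x - 2 * r) (x + 2 * r) (y - 2 * r) (y - r)
  have n3 := n (x + r) (x + 2 * r) (y - 2 * r) (y + 2 * r)
  have n4 := n (x - 2 * r) (x - r) (y - 2 * r) (y + 2 * r)
  exact ⟨a, b, c, d, t_rect_sub a2 b1 c2 d1, t_rect_sub a1 b2 c1 d2, a2, b1, c2, d1, c1, d2, ab, cd,
    k (by linarith) (nh c) (t_HI_sub hg h0 a1 ab b2 c) (c3.trans (by linarith)) (by ring),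
    k (by linarith) (nh d) (t_HI_sub hg h0 a1 ab b2 d) (d3.trans (by linarith)) (by ring),
    k (by linarith) (nv a) (t_VI_sub hg h0 c1 cd d2 a) (a3.trans (by linarith)) (by ring),
    k (by linarith) (nv b) (t_VI_sub hg h0 c1 cd d2 b) (b3.trans (by linarith)) (by ring)⟩

/-- Telescoping. -/
theorem t_pigeon (F : ℝ → ℝ) (r E : ℝ) {J : ℕ} (hJ : 0 < J) (h : F (2 ^ J * r) - F r ≤ E) :
    ∃ j < J, F (2 * (2 ^ j * r)) - F (2 ^ j * r) ≤ E / J := by
  by_contra! hc
  have a := Finset.sum_lt_sum_of_nonempty (Finset.nonempty_range_iff.2 hJ.ne') fun j hj =>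
    hc j (Finset.mem_range.1 hj)
  simp only [← mul_assoc, ← pow_succ'] at a
  rw [Finset.sum_range_sub fun j => F (2 ^ j * r), Finset.sum_const, Finset.card_range, nsmul_eq_mul,
    mul_div_cancel₀ _ (Nat.cast_pos.2 hJ).ne', pow_zero, one_mul] at a
  exact a.not_ge h

/-- Cauchy-Schwarz: `|h| ≤ (s g + 1 / s) / 2` for every `s > 0`. -/
theorem t_cs {h g : ℝ → ℝ} (hh : Continuous h) (hg : Continuous g) {t₀ t₁ ε : ℝ} (ht : t₀ ≤ t₁)
    (hε : 0 ≤ ε) (hle : ∀ t ∈ Icc t₀ t₁, h t ^ 2 ≤ g t)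
    (hb : (t₁ - t₀) * ∫ t in t₀..t₁, g t ≤ ε ^ 2) : ∫ t in t₀..t₁, |h t| ≤ ε := by
  rcases ht.eq_or_lt with rfl | hl
  · simpa using hε
  refine le_of_forall_gt_imp_ge_of_dense fun δ hδ => ?_
  have l := sub_pos.2 hl
  have a := intervalIntegral.integral_mono_on (μ := volume) ht
    (f := fun t => 2 * (t₁ - t₀) * δ * |h t|) (g := fun t => (t₁ - t₀) ^ 2 * g t + δ ^ 2)
    (Continuous.intervalIntegrable (by fun_prop) _ _) (Continuous.intervalIntegrable (by fun_prop) _ _)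
    fun t h1 => by nlinarith [sq_nonneg ((t₁ - t₀) * |h t| - δ), sq_abs (h t),
      mul_le_mul_of_nonneg_left (hle t h1) (sq_nonneg (t₁ - t₀))]
  rw [intervalIntegral.integral_add (Continuous.intervalIntegrable (by fun_prop) _ _)
    (by simp), intervalIntegral.integral_const_mul, intervalIntegral.integral_const_mul,
    intervalIntegral.integral_const, smul_eq_mul] at a
  refine le_of_mul_le_mul_left ?_ (show 0 < 2 * (t₁ - t₀) * δ from mul_pos (by linarith)
    (hε.trans_lt hδ))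
  nlinarith [mul_le_mul_of_nonneg_left (hb.trans (pow_le_pow_left₀ hε hδ.le 2)) l.le]

theorem Sides.mono {g h : ℂ → ℝ} (hg : Continuous g) (hh : Continuous h) {a b c d A B : ℝ}
    (hs : Sides h a b c d A) (hle : ∀ z ∈ Bd a b c d, g z ≤ h z) (hAB : A ≤ B) :
    Sides g a b c d B := by
  have H (y) (hy : y = c ∨ y = d) (k : (b - a) * HI h a b y ≤ A) : (b - a) * HI g a b y ≤ B :=
    (mul_le_mul_of_nonneg_left (intervalIntegral.integral_mono_on hs.hx
      ((t_cont_h hg y).intervalIntegrable _ _) ((t_cont_h hh y).intervalIntegrable _ _) fun x hx =>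
      hle _ ⟨t_mem_rect.2 ⟨hx, by rcases hy with rfl | rfl <;> simp [hs.hy]⟩, by simp [hy]⟩)
      (sub_nonneg.2 hs.hx)).trans (k.trans hAB)
  have V (x) (hx : x = a ∨ x = b) (k : (d - c) * VI h x c d ≤ A) : (d - c) * VI g x c d ≤ B :=
    (mul_le_mul_of_nonneg_left (intervalIntegral.integral_mono_on hs.hy
      ((t_cont_v hg x).intervalIntegrable _ _) ((t_cont_v hh x).intervalIntegrable _ _) fun y hy =>
      hle _ ⟨t_mem_rect.2 ⟨by rcases hx with rfl | rfl <;> simp [hs.hx], hy⟩, by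
        rcases hx with rfl | rfl <;> simp⟩) (sub_nonneg.2 hs.hy)).trans (k.trans hAB)
  exact ⟨hs.hx, hs.hy, H c (Or.inl rfl) hs.bo, H d (Or.inr rfl) hs.tp, V a (Or.inl rfl) hs.le,
    V b (Or.inr rfl) hs.ri⟩

theorem Sides.smul {g : ℂ → ℝ} {a b c d A m : ℝ} (hs : Sides g a b c d A) (hm : 0 ≤ m) :
    Sides (fun z => m * g z) a b c d (m * A) := by
  have k {f : ℝ → ℝ} {s t : ℝ} (h : (t - s) * ∫ x in s..t, f x ≤ A) :
      (t - s) * ∫ x in s..t, m * f x ≤ m * A := by
    rw [intervalIntegral.integral_const_mul, mul_left_comm]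
    exact mul_le_mul_of_nonneg_left h hm
  exact ⟨hs.hx, hs.hy, k hs.bo, k hs.tp, k hs.le, k hs.ri⟩

/-- Clipping a rectangle with short sides to the square: `a' = max a (-(π / 2))` and so on; a side
which moved lies on `SqB`, the others are parts of the old sides (`t_cs`, `t_HI_sub`). -/
theorem t_clip {V : Type} [NormedAddCommGroup V] [NormedSpace ℝ V] {u : ℂ → V} {φ : ℂ → ℝ}
    (hu : ContDiff ℝ ∞ u) (hφ : Continuous φ) (hx : ∀ z, ‖px u z‖ ≤ φ z) (hy : ∀ z, ‖py u z‖ ≤ φ z)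
    {a b c d ε : ℝ} (hε : 0 ≤ ε) (hs : Sides (fun z => φ z ^ 2) a b c d (ε ^ 2)) {z₀ : ℂ}
    (h0 : z₀ ∈ Sq) (h1 : z₀ ∈ Rect a b c d) :
    ∃ a' b' c' d', Rect a' b' c' d' = Rect a b c d ∩ Sq ∧ Alt u SqB a' b' c' d' ε := by
  rw [sq_eq_rect] at h0
  have p := Real.pi_pos
  have hx' : max a (-(π / 2)) ≤ min b (π / 2) :=
    (max_le h1.1.1 h0.1.1).trans (le_min h1.1.2 h0.1.2)
  have hy' : max c (-(π / 2)) ≤ min d (π / 2) :=
    (max_le h1.2.1 h0.2.1).trans (le_min h1.2.2 h0.2.2)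
  have m {s t x : ℝ} (h : x ∈ Icc (max s (-(π / 2))) (min t (π / 2))) : |x| ≤ π / 2 :=
    abs_le.2 ⟨(le_max_right _ _).trans h.1, h.2.trans (min_le_right _ _)⟩
  have q : Continuous fun z => φ z ^ 2 := hφ.pow 2
  have H (y) (k : (b - a) * HI (fun z => φ z ^ 2) a b y ≤ ε ^ 2) :
      HI (fun z => ‖px u z‖) (max a (-(π / 2))) (min b (π / 2)) y ≤ ε := by
    simpa using t_cs (t_cont_h (t_cd_px hu).continuous.norm y) (t_cont_h q y) hx' hε
      (fun t _ => pow_le_pow_left₀ (norm_nonneg _) (hx _) 2) ((mul_le_mul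
        (sub_le_sub (min_le_left _ _) (le_max_left _ _)) (t_HI_sub q (fun _ => sq_nonneg _)
          (le_max_left _ _) hx' (min_le_left _ _) y) (intervalIntegral.integral_nonneg hx'
          fun _ _ => sq_nonneg _) (sub_nonneg.2 hs.hx)).trans k)
  have W (x) (k : (d - c) * VI (fun z => φ z ^ 2) x c d ≤ ε ^ 2) :
      VI (fun z => ‖py u z‖) x (max c (-(π / 2))) (min d (π / 2)) ≤ ε := by
    simpa using t_cs (t_cont_v (t_cd_py hu).continuous.norm x) (t_cont_v q x) hy' hε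
      (fun t _ => pow_le_pow_left₀ (norm_nonneg _) (hy _) 2) ((mul_le_mul
        (sub_le_sub (min_le_left _ _) (le_max_left _ _)) (t_VI_sub q (fun _ => sq_nonneg _)
          (le_max_left _ _) hy' (min_le_left _ _) x) (intervalIntegral.integral_nonneg hy'
          fun _ _ => sq_nonneg _) (sub_nonneg.2 hs.hy)).trans k)
  have e1 : |-(π / 2)| = π / 2 := by rw [abs_neg, abs_of_pos (half_pos p)]
  have e2 : |π / 2| = π / 2 := abs_of_pos (half_pos p)
  have B {x y : ℝ} (k1 : |x| ≤ π / 2) (k2 : |y| ≤ π / 2) (k : |x| = π / 2 ∨ |y| = π / 2) :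
      (x + y * Complex.I : ℂ) ∈ SqB := by simpa [SqB, Sq, k1, k2] using k
  refine ⟨max a (-(π / 2)), min b (π / 2), max c (-(π / 2)), min d (π / 2), ?_, hx', hy', ?_, ?_,
    ?_, ?_⟩
  · ext z
    simp only [sq_eq_rect, Rect, mem_ofPred_eq, mem_Icc, mem_inter_iff, max_le_iff, le_min_iff]
    tauto
  · rcases max_choice c (-(π / 2)) with e | e <;> rw [e]
    exacts [Or.inr (H c hs.bo), Or.inl fun x k => B (m k) e1.le (Or.inr e1)]
  · rcases min_choice d (π / 2) with e | e <;> rw [e]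
    exacts [Or.inr (H d hs.tp), Or.inl fun x k => B (m k) e2.le (Or.inr e2)]
  · rcases max_choice a (-(π / 2)) with e | e <;> rw [e]
    exacts [Or.inr (W a hs.le), Or.inl fun x k => B e1.le (m k) (Or.inl e1)]
  · rcases min_choice b (π / 2) with e | e <;> rw [e]
    exacts [Or.inr (W b hs.ri), Or.inl fun x k => B e2.le (m k) (Or.inl e2)]

end Pool.Agent.Lib.MP_ccffa6_gt
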