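import Pool.Agent.Lib.MP_ccffa6_gt.T.HGeo
import Pool.Agent.Lib.MP_ccffa6_gt.T.CSel

/-! From a good rectangle to a loop in the contact manifold. -/

open Set Filter Topology MeasureTheory
open scoped ContDiff ComplexConjugate Real

noncomputable section

namespace Pool.Agent.Lib.MP_ccffa6_gt

variable {V : Type} [NormedAddCommGroup V] [NormedSpace ℝ V] [FiniteDimensional ℝ V] {k : ℕ}
  {T : TD k V} {κ : ℂ → ℂ} {τ : ℝ} {u : ℂ → V}

/-- The projection of a solution to the level zero. -/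
def hprj (T : TD k V) (u : ℂ → V) (w : ℂ) : V := u w - T.s (u w) • T.e

theorem t_hlp_sm (hu : Sol T κ τ u) : ContDiff ℝ ∞ (hprj T u) :=
  hu.sm.sub ((T.s.contDiff.comp hu.sm).smul contDiff_const)

theorem t_hlp_fderiv (hu : Sol T κ τ u) (z X : ℂ) :
    fderiv ℝ (hprj T u) z X = fderiv ℝ u z X - T.s (fderiv ℝ u z X) • T.e := by
  have h1 : HasFDerivAt u (fderiv ℝ u z) z := (hu.sm.differentiable (by simp) z).hasFDerivAt
  have h2 := h1.sub ((T.s.hasFDerivAt.comp z h1).smul_const T.e)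
  have h3 : fderiv ℝ (hprj T u) z = _ := h2.fderiv
  rw [h3]
  simp

theorem t_hlp_mem (hT : T.OK) (hu : Sol T κ τ u) {z : ℂ} (h : hfun T u z < -1) :
    hprj T u z ∈ T.C ∩ {y | T.s y = 0} ∧ T.J0 (hprj T u z) = T.J0 (u z) := by
  obtain ⟨h1, h2, -⟩ := hu.hfun_lt hT h
  have h3 := (hu.bot1 hT h1 (by linarith)).1
  have e : hprj T u z = u z + (-T.s (u z)) • T.e := by
    rw [hprj, neg_smul, sub_eq_add_neg]
  refine ⟨⟨?_, ?_⟩, ?_⟩
  · rw [e]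
    exact (hT.cyl.inv _ _).2 h3
  · show T.s (hprj T u z) = 0
    rw [hprj, map_sub, map_smul, hT.cyl.se]
    simp
  · rw [e, hT.cyl.invJ]

/-- The pointwise facts at a point deep in the end. -/
theorem t_hlp_pt (hT : T.OK) (hu : Sol T κ τ u) {Y : V → V}
    (hY' : ∀ y ∈ T.C ∩ {y | T.s y = 0}, Y y = T.J0 y T.e) {C : ℝ} (hC0 : 0 < C)
    (hC : ∀ y ∈ T.C, ∀ v ∈ Tan T.C y,
      ‖v - T.s v • T.e - T.α y v • T.J0 y T.e‖ ^ 2 ≤ C * dF T.α y v (T.J0 y v))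
    {z : ℂ} (h : hfun T u z < -1) :
    T.α (u z) (px u z) ^ 2 ≤ gr2 (hfun T u) z ∧ T.α (u z) (py u z) ^ 2 ≤ gr2 (hfun T u) z ∧
    ‖px (hprj T u) z - T.α (u z) (px u z) • Y (hprj T u z)‖ ^ 2 ≤ C * |lap (hfun T u) z| ∧
    ‖py (hprj T u) z - T.α (u z) (py u z) • Y (hprj T u z)‖ ^ 2 ≤ C * |lap (hfun T u) z| ∧
    lap (hfun T u) z = dens T.α u z := by
  obtain ⟨h1, h2, h3⟩ := hu.hfun_lt hT h
  obtain ⟨a1, a2, a3, -, a5, a6, -⟩ := hu.bot1 hT h1 (by linarith)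
  obtain ⟨-, b2, b3, b4, -⟩ := hu.bot2 hT h1 (by linarith)
  obtain ⟨c1, c2⟩ := t_hlp_mem hT hu h
  have eg : gr2 (hfun T u) z = T.α (u z) (py u z) ^ 2 + T.α (u z) (px u z) ^ 2 := by
    rw [t_gr2_congr h3, gr2, a5, a6, neg_sq]
  have el : lap (hfun T u) z = dens T.α u z := by rw [t_lap_congr h3, b2]
  have hl : dens T.α u z ≤ |lap (hfun T u) z| := el ▸ le_abs_self _
  refine ⟨by rw [eg]; nlinarith [sq_nonneg (T.α (u z) (py u z))],
    by rw [eg]; nlinarith [sq_nonneg (T.α (u z) (px u z))], ?_, ?_, el⟩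
  · have e : px (hprj T u) z = px u z - T.s (px u z) • T.e := t_hlp_fderiv hu z 1
    rw [e, hY' _ c1, c2]
    exact (hC _ a1 _ a2).trans (mul_le_mul_of_nonneg_left (b3 ▸ hl) hC0.le)
  · have e : py (hprj T u) z = py u z - T.s (py u z) • T.e := t_hlp_fderiv hu z Complex.I
    rw [e, hY' _ c1, c2]
    exact (hC _ a1 _ a3).trans (mul_le_mul_of_nonneg_left (b4 ▸ hl) hC0.le)

theorem t_hlp_seg {Y : V → V} (hY : Continuous Y) {N : Set V} {C C₁ ε t₀ t₁ : ℝ} (hC0 : 0 < C)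
    (h1 : 0 ≤ C₁) (hε : 0 ≤ ε) {γ γ' : ℝ → V} {b g l : ℝ → ℝ} (ht : t₀ ≤ t₁)
    (hγ : ∀ t, HasDerivAt γ (γ' t) t) (hc : Continuous γ') (hb : Continuous b) (hg : Continuous g)
    (hl : Continuous l)
    (hp : ∀ t ∈ Icc t₀ t₁, γ t ∈ N ∧ b t ^ 2 ≤ g t ∧ ‖γ' t - b t • Y (γ t)‖ ^ 2 ≤ C * l t)
    (i1 : (t₁ - t₀) * ∫ t in t₀..t₁, g t ≤ C₁ ^ 2) (i2 : (t₁ - t₀) * ∫ t in t₀..t₁, l t ≤ ε ^ 2 / C) :
    Seg Y N C₁ ε γ γ' b t₀ t₁ := by
  have hγc : Continuous γ := continuous_iff_continuousAt.2 fun t => (hγ t).continuousAt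
  refine ⟨ht, hγ, hc, hb, fun t h => (hp t h).1, t_cs hb hg ht h1 (fun t h => (hp t h).2.1) i1, ?_⟩
  have hn : Continuous fun t => ‖γ' t - b t • Y (γ t)‖ := (hc.sub (hb.smul (hY.comp hγc))).norm
  have := t_cs (g := fun t => C * l t) hn (continuous_const.mul hl) ht hε (fun t h => (hp t h).2.2) (by
    rw [intervalIntegral.integral_const_mul, mul_left_comm]
    rwa [le_div_iff₀ hC0, mul_comm] at i2)
  simpa only [abs_norm] using this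

theorem t_hlp_closed (hT : T.OK) (hu : Sol T κ τ u) {θ : Form1 V} (hθ : ClosedOn T.C θ) {z : ℂ}
    (h : hfun T u z < -1) : dens θ (hprj T u) z = 0 := by
  have h0 : ∀ᶠ w in 𝓝 z, hfun T u w < -1 :=
    (hu.hfun_sm hT).continuous.continuousAt.eventually_lt continuousAt_const h
  have h1 : ∀ᶠ w in 𝓝[univ] z, hprj T u w ∈ T.C := by
    rw [nhdsWithin_univ]
    exact h0.mono fun w hw => (t_hlp_mem hT hu hw).1.1
  have h2 : ∀ X : ℂ, fderiv ℝ (hprj T u) z X ∈ Tan T.C (hprj T u z) := fun X =>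
    Tan.map ((t_hlp_sm hu).differentiable (by simp) z) h1
      (by rw [Tan.of_mem_nhds univ_mem]; trivial)
  exact hθ _ (t_hlp_mem hT hu h).1.1 _ (h2 1) _ (h2 Complex.I)

theorem Sol.lp (hT : T.OK) (hu : Sol T κ τ u) {Y : V → V} (hY : Continuous Y)
    (hY' : ∀ y ∈ T.C ∩ {y | T.s y = 0}, Y y = T.J0 y T.e) {C : ℝ} (hC0 : 0 < C)
    (hC : ∀ y ∈ T.C, ∀ v ∈ Tan T.C y,
      ‖v - T.s v • T.e - T.α y v • T.J0 y T.e‖ ^ 2 ≤ C * dF T.α y v (T.J0 y v))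
    {x₁ x₂ y₁ y₂ C₁ ε ε₀ : ℝ} (h1 : 0 ≤ C₁) (hε : 0 ≤ ε)
    (hR : ∀ w ∈ Rect x₁ x₂ y₁ y₂, hfun T u w < -1) (h0 : ε₀ ≤ RI (lap (hfun T u)) x₁ x₂ y₁ y₂)
    (hg : Sides (gr2 (hfun T u)) x₁ x₂ y₁ y₂ (C₁ ^ 2))
    (hl : Sides (fun w => |lap (hfun T u) w|) x₁ x₂ y₁ y₂ (ε ^ 2 / C)) :
    Lp Y (T.C ∩ {y | T.s y = 0}) (ClosedOn T.C) C₁ ε ε₀ (fun w => u w - T.s (u w) • T.e)
      (fun w => T.α (u w) (px u w)) (fun w => T.α (u w) (py u w)) x₁ x₂ y₁ y₂ := by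
  have hv := t_hlp_sm hu
  have hvd := hv.differentiable (by simp)
  have ha := hu.hfun_sm hT
  have cα : Continuous fun w => T.α (u w) := hT.cyl.smα.continuous.comp hu.sm.continuous
  have cp : Continuous fun w => T.α (u w) (px u w) := cα.clm_apply (t_cd_px hu.sm).continuous
  have cq : Continuous fun w => T.α (u w) (py u w) := cα.clm_apply (t_cd_py hu.sm).continuous
  have cg := (t_cd_gr2 ha).continuous
  have cl : Continuous fun w => |lap (hfun T u) w| := (t_cd_lap ha).continuous.abs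
  have hx := hg.hx
  have hy := hg.hy
  have H : ∀ y ∈ Icc y₁ y₂, (x₂ - x₁) * HI (gr2 (hfun T u)) x₁ x₂ y ≤ C₁ ^ 2 →
      (x₂ - x₁) * HI (fun w => |lap (hfun T u) w|) x₁ x₂ y ≤ ε ^ 2 / C →
      Seg Y (T.C ∩ {y | T.s y = 0}) C₁ ε (fun x => hprj T u (x + y * Complex.I))
        (fun x => px (hprj T u) (x + y * Complex.I))
        (fun x => T.α (u (x + y * Complex.I)) (px u (x + y * Complex.I))) x₁ x₂ := by
    intro y hy' i1 i2
    refine t_hlp_seg hY hC0 h1 hε hx (fun t => hasDerivAt_px (hvd _))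
      (t_cont_h (t_cd_px hv).continuous y) (t_cont_h cp y) (t_cont_h cg y) (t_cont_h cl y)
      (fun t ht => ?_) i1 i2
    have h := hR _ (t_mem_rect.2 ⟨ht, hy'⟩)
    have h' := t_hlp_pt hT hu hY' hC0 hC h
    exact ⟨(t_hlp_mem hT hu h).1, h'.1, h'.2.2.1⟩
  have G : ∀ x ∈ Icc x₁ x₂, (y₂ - y₁) * VI (gr2 (hfun T u)) x y₁ y₂ ≤ C₁ ^ 2 →
      (y₂ - y₁) * VI (fun w => |lap (hfun T u) w|) x y₁ y₂ ≤ ε ^ 2 / C →
      Seg Y (T.C ∩ {y | T.s y = 0}) C₁ ε (fun y => hprj T u (x + y * Complex.I))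
        (fun y => py (hprj T u) (x + y * Complex.I))
        (fun y => T.α (u (x + y * Complex.I)) (py u (x + y * Complex.I))) y₁ y₂ := by
    intro x hx' i1 i2
    refine t_hlp_seg hY hC0 h1 hε hy (fun t => hasDerivAt_py (hvd _))
      (t_cont_v (t_cd_py hv).continuous x) (t_cont_v cq x) (t_cont_v cg x) (t_cont_v cl x)
      (fun t ht => ?_) i1 i2
    have h := hR _ (t_mem_rect.2 ⟨hx', ht⟩)
    have h' := t_hlp_pt hT hu hY' hC0 hC h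
    exact ⟨(t_hlp_mem hT hu h).1, h'.2.1, h'.2.2.2.1⟩
  refine ⟨H y₁ ⟨le_rfl, hy⟩ hg.bo hl.bo, H y₂ ⟨hy, le_rfl⟩ hg.tp hl.tp,
    G x₁ ⟨le_rfl, hx⟩ hg.le hl.le, G x₂ ⟨hx, le_rfl⟩ hg.ri hl.ri, ?_, fun θ hθ hP => ?_⟩
  · have e1 := stokes_rect (lam := T.α) (u := u) hx hy
      (fun z _ => (hT.cyl.smα.of_le (by simp)).contDiffAt)
      (fun z _ => (hu.sm.of_le (by decide)).contDiffAt)
    have e2 : RI (lap (hfun T u)) x₁ x₂ y₁ y₂ = ∫ z in Rect x₁ x₂ y₁ y₂, dens T.α u z :=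
      setIntegral_congr_fun (measurableSet_rect _ _ _ _) fun z hz =>
        (t_hlp_pt hT hu hY' hC0 hC (hR z hz)).2.2.2.2
    rw [e2, e1] at h0
    exact h0
  · have e1 := stokes_rect (lam := θ) (u := hprj T u) hx hy
      (fun z _ => (hθ.of_le (by simp)).contDiffAt)
      (fun z _ => (hv.of_le (by decide)).contDiffAt)
    have e2 : ∫ z in Rect x₁ x₂ y₁ y₂, dens θ (hprj T u) z = 0 :=
      setIntegral_eq_zero_of_forall_eq_zero fun z hz => t_hlp_closed hT hu hP (hR z hz)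
    rw [e2] at e1
    exact e1.symm

end Pool.Agent.Lib.MP_ccffa6_gt
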