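import Pool.Agent.Lib.MP_ccffa6_gt.T.HGeo

/-! Mass of the Laplacian of the height. -/

open Set Filter Topology MeasureTheory
open scoped ContDiff ComplexConjugate Real

noncomputable section

namespace Pool.Agent.Lib.MP_ccffa6_gt

variable {V : Type} [NormedAddCommGroup V] [NormedSpace ℝ V] [FiniteDimensional ℝ V] {k : ℕ}
  {T : TD k V} {κ : ℂ → ℂ} {τ : ℝ} {u : ℂ → V}

theorem t_hmass_zero {a : ℂ → ℝ} {z : ℂ} (h : a =ᶠ[𝓝 z] fun _ => 0) :
    px a z = 0 ∧ py a z = 0 ∧ lap a z = 0 := by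
  have h1 : px (fun _ : ℂ => (0 : ℝ)) = fun _ => 0 := funext fun w => by simp [px]
  have h2 : py (fun _ : ℂ => (0 : ℝ)) = fun _ => 0 := funext fun w => by simp [py]
  refine ⟨(t_px_congr h).eq_of_nhds.trans (congrFun h1 z),
    (t_py_congr h).eq_of_nhds.trans (congrFun h2 z), ?_⟩
  rw [t_lap_congr h, lap, h1, h2, h1, h2, add_zero]

theorem t_hmass_bd : ∃ B : ℝ, 0 ≤ B ∧ ∀ s ∈ Icc (-1 : ℝ) 0,
    -B ≤ deriv hchi s ∧ -B ≤ deriv (deriv hchi) s := by
  have h1 := (contDiff_infty_iff_deriv.1 t_hchi.1).2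
  have h2 := (contDiff_infty_iff_deriv.1 h1).2
  obtain ⟨B, hB⟩ := (isCompact_Icc (a := (-1 : ℝ)) (b := 0)).exists_bound_of_continuousOn
    (h1.continuous.prodMk h2.continuous).continuousOn
  refine ⟨B, (norm_nonneg _).trans (hB 0 ⟨by norm_num, le_rfl⟩), fun s hs => ?_⟩
  obtain ⟨h3, h4⟩ := norm_prod_le_iff.1 (hB s hs)
  exact ⟨(abs_le.1 h3).1, (abs_le.1 h4).1⟩

/-- `t_lap_comp`; for `s < -1` the Laplacian is nonnegative, for `s > -1 / 2` it is zero, in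
between `|χ'|, |χ''| ≤ M` and `gr2 + lap ≤ e * dens` (`bot2`). -/
theorem t_hlap_ge : ∃ M : ℝ, 0 < M ∧ ∀ (V : Type) [NormedAddCommGroup V] [NormedSpace ℝ V]
    [FiniteDimensional ℝ V] (k : ℕ) (T : TD k V) (κ : ℂ → ℂ) (τ : ℝ) (u : ℂ → V), T.OK →
    Sol T κ τ u → ∀ z ∈ Sq, -(M * dens T.lam u z) ≤ lap (hfun T u) z := by
  obtain ⟨B, hB, hb⟩ := t_hmass_bd
  refine ⟨B * Real.exp 1 + 1, by positivity, fun V _ _ _ k T κ τ u hT hu z hz => ?_⟩
  have hd := (hu.dens_nonneg hT hz).1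
  have h0 : -((B * Real.exp 1 + 1) * dens T.lam u z) ≤ 0 := neg_nonpos.2 (by positivity)
  have ha : ContDiff ℝ ∞ fun w => T.s (u w) := T.s.contDiff.comp hu.sm
  by_cases hi : z ∈ interior Sq
  swap
  · rwa [(t_hmass_zero ((hu.hfun_loc hT z).2 hi)).2.2]
  have hl := (hu.hfun_loc hT z).1 hi
  rcases lt_or_ge (T.s (u z)) (-1) with h1 | h1
  · refine h0.trans (hu.hfun_sub hT z ?_)
    rwa [hl.eq_of_nhds, t_hchi.2.1 _ h1.le]
  rcases lt_or_ge (-1 / 2) (T.s (u z)) with h2 | h2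
  · rwa [(t_hmass_zero (hl.trans ((ha.continuous.continuousAt.eventually (lt_mem_nhds h2)).mono
      fun w hw => t_hchi.2.2.1 _ hw.le))).2.2]
  have h3 : T.s (u z) < 0 := by linarith
  obtain ⟨-, e1, -, -, e2, e3⟩ := hu.bot2 hT hz h3
  obtain ⟨b1, b2⟩ := hb _ ⟨h1, h3.le⟩
  rw [← e1] at e2
  have g := t_gr2_nonneg (fun w => T.s (u w)) z
  have h4 : 1 ≤ Real.exp 1 * Real.exp (T.s (u z)) := by
    rw [← Real.exp_add]
    exact Real.one_le_exp (by linarith)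
  have h5 := mul_le_mul_of_nonneg_right h4 (mul_nonneg hB (add_nonneg g e2))
  rw [t_lap_congr hl, t_lap_comp t_hchi.1 ha, add_mul, e3]
  rw [e3] at hd
  linarith [mul_le_mul_of_nonneg_right b1 e2, mul_le_mul_of_nonneg_right b2 g]

/-- `green` on `Sq`: the gradient vanishes on `SqB` (`hfun_loc`). -/
theorem Sol.hlap_int (hT : T.OK) (hu : Sol T κ τ u) : ∫ z in Sq, lap (hfun T u) z = 0 := by
  have hp : -(π / 2) ≤ π / 2 := by linarith [Real.pi_pos]
  have h := t_slab_eq (hu.hfun_sm hT) (T := fun _ => 1) contDiff_const hp hp fun z hz => by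
    have h1 := t_hmass_zero ((hu.hfun_loc hT z).2 fun h2 =>
      (interior_sq ▸ h2 : z ∈ Sq \ SqB).2 (t_sqB_eq ▸ hz))
    rw [h1.1, h1.2.1]
    exact ⟨mul_zero _, mul_zero _⟩
  simp only [deriv_const', zero_mul, one_mul, RI, integral_zero] at h
  rw [sq_eq_rect]
  exact neg_eq_zero.1 h.symm

/-- `|lap| ≤ lap + 2 M dens` on `Sq`, `t_RI_supp`, `E = 2 M π`. -/
theorem TD.OK.hmass (hT : T.OK) : ∃ E : ℝ, 0 < E ∧ ∀ κ τ u, Sol T κ τ u → ∀ x₁ x₂ y₁ y₂,
    RI (fun z => |lap (hfun T u) z|) x₁ x₂ y₁ y₂ ≤ E := by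
  obtain ⟨M, hM, h⟩ := t_hlap_ge
  refine ⟨2 * M * π, by positivity, fun κ τ u hu x₁ x₂ y₁ y₂ => ?_⟩
  have hc := (t_cd_lap (hu.hfun_sm hT)).continuous
  have hd := continuous_const (y := 2 * M).mul (t_cont_dens hT.smlam hu.sm)
  refine (t_RI_supp hc.abs (fun z => abs_nonneg _) (fun z hz => ?_) _ _ _ _).trans ?_
  · rw [(t_hmass_zero ((hu.hfun_loc hT z).2 fun h1 => hz (interior_subset h1))).2.2, abs_zero]
  have i1 := hc.continuousOn.integrableOn_compact (μ := volume) isCompact_sq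
  have i2 := hd.continuousOn.integrableOn_compact (μ := volume) isCompact_sq
  refine (setIntegral_mono_on i1.abs (i1.add i2) measurableSet_sq fun z hz => ?_).trans_eq ?_
  · have h1 := h V k T κ τ u hT hu z hz
    have h2 := mul_nonneg hM.le (hu.dens_nonneg hT hz).1
    show _ ≤ lap (hfun T u) z + 2 * M * dens T.lam u z
    exact abs_le.2 ⟨by linarith, by linarith⟩
  · refine (integral_add i1 i2).trans ?_
    rw [hu.hlap_int hT, zero_add, ← hu.area]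
    exact integral_const_mul _ _

end Pool.Agent.Lib.MP_ccffa6_gt
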