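import Pool.Agent.Lib.MP_ccffa6_gt.T.HOrb1
import Pool.Agent.Lib.MP_45f3cb_gt.FlowC

/-! The limit orbit. -/

open Set Filter Topology MeasureTheory
open scoped ContDiff ComplexConjugate Real

noncomputable section

namespace Pool.Agent.Lib.MP_ccffa6_gt

variable {V : Type} [NormedAddCommGroup V] [NormedSpace ℝ V] [FiniteDimensional ℝ V]

/-- Otherwise a subsequence converges to a closed orbit in `N` all of whose periods vanish. -/
theorem t_lim {Y : V → V} (hY : ContDiff ℝ ∞ Y) (hc : HasCompactSupport Y) {N : Set V}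
    (hN : IsCompact N) {P : Form1 V → Prop}
    (hyp : ∀ (c : ℝ → V) (T : ℝ), 0 < T → (∀ t, c (t + T) = c t) → (∀ t, c t ∈ N) →
      (∀ t, HasDerivAt c (Y (c t)) t) →
      ∃ θ : Form1 V, ContDiff ℝ ∞ θ ∧ P θ ∧ ∫ t in (0 : ℝ)..T, θ (c t) (Y (c t)) ≠ 0)
    (L C : ℝ) {ε₀ : ℝ} (h0 : 0 < ε₀) :
    ∃ ε : ℝ, 0 < ε ∧ ∀ x B₁ B₂, ¬ Trk Y N P L C ε ε₀ x B₁ B₂ := by
  by_contra! hcon
  choose x B₁ B₂ hT using fun n : ℕ => hcon _ (Nat.one_div_pos_of_nat (n := n))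
  obtain ⟨⟨x₀, β₁, β₂⟩, -, φ, hφ, hl⟩ :=
    (hN.prod ((isCompact_Icc (a := -(2 * C)) (b := 2 * C)).prod
      (isCompact_Icc (a := -(2 * C)) (b := 2 * C)))).tendsto_subseq
      (x := fun n => (x n, B₁ n, B₂ n))
      fun n => ⟨(hT n).mem, abs_le.1 (hT n).b1, abs_le.1 (hT n).b2⟩
  have l0 : Tendsto (fun n => x (φ n)) atTop (𝓝 x₀) := hl.fst_nhds
  have l1 : Tendsto (fun n => B₁ (φ n)) atTop (𝓝 β₁) := hl.snd_nhds.fst_nhds
  have l2 : Tendsto (fun n => B₂ (φ n)) atTop (𝓝 β₂) := hl.snd_nhds.snd_nhds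
  have le : Tendsto (fun n => 1 / ((φ n : ℝ) + 1)) atTop (𝓝 0) :=
    tendsto_one_div_add_atTop_nhds_zero_nat.comp hφ.tendsto_atTop
  obtain ⟨c, h1, hd⟩ : ∃ c : ℝ → V, c 0 = x₀ ∧ ∀ t, HasDerivAt c (Y (c t)) t := by
    obtain ⟨Φ, -, h1, h2⟩ := MP_45f3cb_gt.flowC_ex hY hc
    exact ⟨fun t => Φ t x₀, h1 x₀, h2 x₀⟩
  have cc : Continuous c := continuous_iff_continuousAt.2 fun t => (hd t).continuousAt
  obtain ⟨δ, lδ, hδ⟩ : ∃ δ : ℕ → ℝ, Tendsto δ atTop (𝓝 0) ∧ ∀ n, ((‖x (φ n) - c 0‖ +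
      1 / ((φ n : ℝ) + 1)) * Real.exp (L * C) + 1 / ((φ n : ℝ) + 1)) * Real.exp (L * C) ≤ δ n :=
    ⟨_, by simpa [h1] using (((((l0.sub_const (c 0)).norm.add le).mul_const
      (Real.exp (L * C))).add le).mul_const (Real.exp (L * C))), fun n => le_rfl⟩
  have hc' := fun n => (hT (φ n)).cmp c hd _ (hδ n)
  have hg : ε₀ ≤ β₁ - β₂ := ge_of_tendsto' (l1.sub l2) fun n => (hT _).gap
  have hp0 : 0 < β₁ - β₂ := h0.trans_le hg
  have e1 : c β₁ = c β₂ := sub_eq_zero.1 (norm_le_zero_iff.1 (by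
    simpa using le_of_tendsto_of_tendsto' (((cc.tendsto _).comp l1).sub
      ((cc.tendsto _).comp l2)).norm (lδ.const_mul 2) fun n => (hc' n).1))
  obtain ⟨K, hK⟩ := ContDiff.lipschitzWith_of_hasCompactSupport hc hY (by simp)
  have hper : Function.Periodic c (β₁ - β₂) := congrFun
    (ODE_solution_unique_univ (v := fun _ => Y) (s := fun _ => univ) (t₀ := β₂)
      (f := fun t => c (t + (β₁ - β₂))) (fun _ => hK.lipschitzOnWith)
      (fun t => ⟨(hd _).comp_add_const _ _, trivial⟩) (fun t => ⟨hd t, trivial⟩)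
      (by simpa using e1))
  have hin : Ioo β₂ β₁ ⊆ c ⁻¹' N := fun σ hσ => hN.isClosed.closure_subset
    (Metric.mem_closure_iff.2 fun η hη => by
      obtain ⟨n, h2, h3, h4⟩ := ((lδ.eventually_lt_const hη).and
        ((l2.eventually_lt_const hσ.1).and (l1.eventually_const_lt hσ.2))).exists
      obtain ⟨y, hy, h5⟩ := (hc' n).2.1 σ (mem_uIcc_of_le h3.le h4.le)
      exact ⟨y, hy, by rw [dist_comm, dist_eq_norm]; exact h5.trans_lt h2⟩)
  have hall : ∀ t, c t ∈ N := fun t => by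
    obtain ⟨s, hs, e⟩ := hper.exists_mem_Ico hp0 t β₂
    have h2 := (hN.isClosed.preimage cc).closure_subset_iff.2 hin
    rw [closure_Ioo (sub_pos.1 hp0).ne] at h2
    exact e ▸ h2 ⟨hs.1, by linarith [hs.2]⟩
  obtain ⟨θ, hθ, hP, hne⟩ := hyp c _ hp0 hper hall hd
  have hF : ContDiff ℝ ∞ fun y => θ y (Y y) := hθ.clm_apply hY
  obtain ⟨M₁, hM₁⟩ := ContDiff.lipschitzWith_of_hasCompactSupport
    (hc.mono fun y hy e => hy (by simp [e])) hF (by simp)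
  obtain ⟨M₂, hM₂⟩ := hN.exists_bound_of_continuousOn hθ.continuous.continuousOn
  have hi := (hF.continuous.comp cc).intervalIntegrable (μ := volume)
  have hprim := intervalIntegral.continuous_primitive hi 0
  have h2 := le_of_tendsto_of_tendsto'
    (((hprim.tendsto _).comp l1).sub ((hprim.tendsto _).comp l2)).abs
    ((((lδ.mul_const C).add le).const_mul ((max M₁ M₂.toNNReal : NNReal) : ℝ)).const_mul 4)
    fun n => (congrArg abs (intervalIntegral.integral_interval_sub_left (hi _ _) (hi _ _))).trans_le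
      ((hc' n).2.2 θ _ hθ hP (hM₁.weaken (le_max_left _ _)) fun y hy => (hM₂ y hy).trans
        ((Real.le_coe_toNNReal _).trans (NNReal.coe_le_coe.2 (le_max_right _ _))))
  rw [intervalIntegral.integral_interval_sub_left (hi _ _) (hi _ _)] at h2
  have h3 := (hper.comp fun y => θ y (Y y)).intervalIntegral_add_eq 0 β₂
  rw [zero_add, add_sub_cancel] at h3
  exact hne (h3.trans (abs_nonpos_iff.1 (by simpa using h2)))

theorem t_orbit {Y : V → V} (hY : ContDiff ℝ ∞ Y) (hc : HasCompactSupport Y) {N : Set V}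
    (hN : IsCompact N) {P : Form1 V → Prop}
    (hyp : ∀ (c : ℝ → V) (T : ℝ), 0 < T → (∀ t, c (t + T) = c t) → (∀ t, c t ∈ N) →
      (∀ t, HasDerivAt c (Y (c t)) t) →
      ∃ θ : Form1 V, ContDiff ℝ ∞ θ ∧ P θ ∧ ∫ t in (0 : ℝ)..T, θ (c t) (Y (c t)) ≠ 0)
    (C : ℝ) {ε₀ : ℝ} (h0 : 0 < ε₀) :
    ∃ ε : ℝ, 0 < ε ∧ ∀ v p q a b c d, ¬ Lp Y N P C ε ε₀ v p q a b c d := by
  obtain ⟨L, hL⟩ := ContDiff.lipschitzWith_of_hasCompactSupport hc hY (by simp)
  obtain ⟨ε, hε, h⟩ := t_lim hY hc hN hyp L C h0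
  refine ⟨ε, hε, fun v p q a b c d hl => ?_⟩
  obtain ⟨x, B₁, B₂, ht⟩ := hl.trk hL
  exact h x B₁ B₂ ht

end Pool.Agent.Lib.MP_ccffa6_gt
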