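import Pool.Agent.Lib.MP_ccffa6_gt.T.HGeo

/-! Small energy regularity in the negative end. -/

open Set Filter Topology MeasureTheory
open scoped ContDiff ComplexConjugate Real

noncomputable section

namespace Pool.Agent.Lib.MP_ccffa6_gt

variable {V : Type} [NormedAddCommGroup V] [NormedSpace ℝ V] [FiniteDimensional ℝ V] {k : ℕ}
  {T : TD k V} {κ : ℂ → ℂ} {τ : ℝ} {u : ℂ → V}

/-- `‖du‖ ^ 2 ≤ C (gr2 + lap)` (`cyl_bound`, `bot1`, `bot2`, `norm_fderiv_le_px_py`). -/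
theorem TD.OK.hen (hT : T.OK) : ∃ C : ℝ, 0 < C ∧ ∀ κ τ u, Sol T κ τ u → ∀ z, hfun T u z < -1 →
    ‖fderiv ℝ u z‖ ^ 2 ≤ C * (gr2 (hfun T u) z + lap (hfun T u) z) ∧
    ‖fderiv ℝ (hfun T u) z‖ ≤ ‖T.s‖ * ‖fderiv ℝ u z‖ := by
  obtain ⟨C, hC, hb⟩ := hT.cyl_bound
  refine ⟨4 * C, by positivity, fun κ τ u hu z hz => ?_⟩
  obtain ⟨h1, h2, h3⟩ := hu.hfun_lt hT hz
  have h4 : T.s (u z) < 0 := by linarith
  obtain ⟨a1, a2, a3, -, a4, a5, a6, a7, -⟩ := hu.bot1 hT h1 h4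
  obtain ⟨-, b1, b2, b3, -⟩ := hu.bot2 hT h1 h4
  constructor
  · rw [t_gr2_congr h3, t_lap_congr h3, gr2, a4, a5, b1]
    have c1 := (hb _ a1 _ a2).1
    have c2 := (hb _ a1 _ a3).1
    rw [← b2, a6] at c1
    rw [← b3, a7] at c2
    have c3 := pow_le_pow_left₀ (norm_nonneg _) (norm_fderiv_le_px_py u z) 2
    nlinarith [sq_nonneg (‖px u z‖ - ‖py u z‖)]
  · have c1 : HasFDerivAt (fun w => T.s (u w)) (T.s.comp (fderiv ℝ u z)) z :=
      T.s.hasFDerivAt.comp z (hu.sm.differentiable (by simp) z).hasFDerivAt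
    rw [h3.fderiv_eq, c1.fderiv]
    exact ContinuousLinearMap.opNorm_comp_le _ _

/-- The derivative stays large on a small ball around a Hofer point. -/
theorem t_HReg_big (hE : EpsStmt) (hT : T.OK) : ∃ δ : ℝ, 0 < δ ∧ δ ≤ 1 ∧ ∀ κ τ u, Sol T κ τ u →
    ∀ (x : ℂ) (R : ℝ), 0 < R → R = ‖fderiv ℝ u x‖ →
      (∀ y ∈ Metric.ball x (1 / R), hfun T u y < -1 ∧ ‖fderiv ℝ u y‖ ≤ 2 * R) →
      ∀ y, ‖y - x‖ ≤ δ / R → R / 2 ≤ ‖fderiv ℝ u y‖ := by
  obtain ⟨M, hM⟩ := hT.cyl.cpt.isBounded.exists_norm_le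
  obtain ⟨δ, h0, h1, hδ⟩ := hE V T.J0 hT.cyl.smJ (max 2 (M + 2)) 1 (1 / 2) one_pos one_half_pos
  refine ⟨δ, h0, h1, fun κ τ u hu x R hR hRx hb y hy => ?_⟩
  have hd : ∀ w, fderiv ℝ (fun w => u w + (-T.s (u x)) • T.e) w = fderiv ℝ u w :=
    fun w => fderiv_add_const _
  have hx : x ∈ Metric.ball x (1 / R) := Metric.mem_ball_self (by positivity)
  have hbot := fun w (hw : w ∈ Metric.ball x (1 / R)) =>
    hu.bot1 hT (hu.hfun_lt hT (hb w hw).1).1 ((hu.hfun_lt hT (hb w hw).1).2.1.trans (by norm_num))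
  have h2 := hδ (fun w => u w + (-T.s (u x)) • T.e) x R (hu.sm.add contDiff_const) hR
    (fun w hw => by
      have h3 := (hbot w hw).2.2.2.1 w rfl
      simp only [px, py, hd, hT.cyl.invJ] at h3 ⊢
      exact h3)
    (fun w hw => by
      rw [hd]
      refine ⟨le_trans ?_ (le_max_right _ _), (hb w hw).2.trans ?_⟩
      · have h3 : ‖u x + (-T.s (u x)) • T.e‖ ≤ M := hM _ ⟨(hT.cyl.inv _ _).2 (hbot x hx).1, by
          show T.s _ = 0
          rw [map_add, map_smul, hT.cyl.se, smul_eq_mul, mul_one, add_neg_cancel]⟩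
        have h4 : ‖u w - u x‖ ≤ 2 * R * ‖w - x‖ :=
          (convex_ball x (1 / R)).norm_image_sub_le_of_norm_fderiv_le
            (fun v _ => hu.sm.differentiable (by simp) v) (fun v hv => (hb v hv).2) hx hw
        have h5 : 2 * R * ‖w - x‖ ≤ 2 * R * (1 / R) :=
          mul_le_mul_of_nonneg_left (mem_ball_iff_norm.1 hw).le (by positivity)
        have h6 : 2 * R * (1 / R) = 2 := by field_simp
        have h7 : u w + (-T.s (u x)) • T.e = (u x + (-T.s (u x)) • T.e) + (u w - u x) := by abel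
        rw [h7]
        exact (norm_add_le _ _).trans (by linarith)
      · exact mul_le_mul_of_nonneg_right (le_max_left _ _) hR.le) y hy
  rw [hd, hd, norm_sub_rev] at h2
  have h3 := norm_sub_norm_le (fderiv ℝ u x) (fderiv ℝ u y)
  linarith

/-- `hofer` in `ℂ` for `φ = ‖du‖` with `ε = r / 4` gives `x`, `ε'`, `R = φ x`.  If `1 ≤ ε' R`,
apply `EpsStmt` (`J0`, `η = 1`, `μ = 1 / 2`, `C = max 2 (M + 2)`, `M` a bound of the level `s = 0`
of `C`) to `w ↦ u w - s (u x) • e`: `‖du‖ ≥ R / 2` on `sqr x (δ / (2 R))`, so the energy of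
`sqr z r` is at least `δ ^ 2 / (4 C)` (`t_RI_ge`, `t_RI_sub`), take `h` smaller.
Otherwise `(r / 4) φ z ≤ 1`. -/
theorem TD.OK.hreg (hE : EpsStmt) (hT : T.OK) : ∃ h Cr : ℝ, 0 < h ∧ 0 < Cr ∧ ∀ κ τ u, Sol T κ τ u →
    ∀ z r, 0 < r → (∀ w ∈ sqr z r, hfun T u w < -1) →
      SI (fun w => gr2 (hfun T u) w + lap (hfun T u) w) z r ≤ h →
      r * ‖fderiv ℝ (hfun T u) z‖ ≤ Cr := by
  obtain ⟨C, hC, hen⟩ := hT.hen
  obtain ⟨δ, h0, h1, hδ⟩ := t_HReg_big hE hT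
  refine ⟨δ ^ 2 / (8 * C), 4 * ‖T.s‖ + 1, by positivity, by positivity,
    fun κ τ u hu z r hr hlt hS => ?_⟩
  obtain ⟨ε, hε, x, a1, a2, a3, a4⟩ := hofer z (r / 4) (by positivity)
    (ϕ := fun w => ‖fderiv ℝ u w‖) (hu.sm.continuous_fderiv (by simp)).norm fun _ => norm_nonneg _
  rcases le_or_gt (ε * ‖fderiv ℝ u x‖) 1 with h2 | h2
  · have h3 := (hen κ τ u hu z (hlt z (t_mem_sqr (by rw [sub_self, norm_zero]; exact hr.le)))).2
    have h4 : r * ‖fderiv ℝ u z‖ ≤ 4 := by linarith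
    calc r * ‖fderiv ℝ (hfun T u) z‖ ≤ r * (‖T.s‖ * ‖fderiv ℝ u z‖) := by gcongr
      _ = ‖T.s‖ * (r * ‖fderiv ℝ u z‖) := by ring
      _ ≤ ‖T.s‖ * 4 := by gcongr
      _ ≤ 4 * ‖T.s‖ + 1 := by linarith
  · exfalso
    obtain ⟨R, hRx⟩ : ∃ R, R = ‖fderiv ℝ u x‖ := ⟨_, rfl⟩
    rw [← hRx] at h2
    have hR : 0 < R := (mul_pos_iff_of_pos_left hε).1 (one_pos.trans h2)
    have h3 : 1 / R ≤ ε := by
      rw [div_le_iff₀ hR]
      exact h2.le
    have h4 : ∀ y, ‖y - x‖ ≤ 1 / R → y ∈ sqr z r := fun y hy => t_mem_sqr (by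
      have b1 := norm_sub_le_norm_sub_add_norm_sub y x z
      rw [dist_eq_norm] at a2
      linarith)
    have h5 := hδ κ τ u hu x R hR hRx fun y hy => ⟨hlt y (h4 y (mem_ball_iff_norm.1 hy).le), by
      rw [hRx]
      exact a4 y ((Metric.mem_ball'.1 hy).le.trans h3)⟩
    have h6 : ∀ y ∈ sqr x (δ / (2 * R)), ‖y - x‖ ≤ δ / R := fun y hy =>
      (t_norm_of_sqr hy).trans_eq (by field_simp)
    have h7 : sqr x (δ / (2 * R)) ⊆ sqr z r := fun y hy =>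
      h4 y ((h6 y hy).trans (div_le_div_of_nonneg_right h1 hR.le))
    have hc : Continuous fun w => gr2 (hfun T u) w + lap (hfun T u) w :=
      (t_cd_gr2 (hu.hfun_sm hT)).continuous.add (t_cd_lap (hu.hfun_sm hT)).continuous
    have hp : 0 < δ / (2 * R) := by positivity
    have h8 := t_RI_sub hc h7 fun w hw =>
      nonneg_of_mul_nonneg_right ((sq_nonneg _).trans (hen κ τ u hu w (hlt w hw)).1) hC
    have h9 := t_RI_ge hc (a := x.re - δ / (2 * R)) (b := x.re + δ / (2 * R))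
      (c := x.im - δ / (2 * R)) (d := x.im + δ / (2 * R)) (m := (R / 2) ^ 2 / C)
      (by linarith) (by linarith) fun w hw => by
        rw [div_le_iff₀' hC]
        exact (pow_le_pow_left₀ (by positivity) (h5 w (h6 w hw)) 2).trans
          (hen κ τ u hu w (hlt w (h7 hw))).1
    have h10 : (R / 2) ^ 2 / C * ((x.re + δ / (2 * R) - (x.re - δ / (2 * R))) *
        (x.im + δ / (2 * R) - (x.im - δ / (2 * R)))) = 2 * (δ ^ 2 / (8 * C)) := by
      field_simp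
      ring
    have h11 : 0 < δ ^ 2 / (8 * C) := by positivity
    have h12 := (h9.trans h8).trans hS
    rw [h10] at h12
    linarith

end Pool.Agent.Lib.MP_ccffa6_gt
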