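import Pool.Agent.Lib.MP_ccffa6_gt.T.CEps
import Pool.Agent.Lib.MP_ccffa6_gt.T.CGrad
import Pool.Agent.Lib.MP_ccffa6_gt.T.HLoop
import Pool.Agent.Lib.MP_ccffa6_gt.T.HOrb2
import Pool.Agent.Lib.MP_ccffa6_gt.T.HMass
import Pool.Agent.Lib.MP_ccffa6_gt.T.HReg
import Pool.Agent.Lib.MP_ccffa6_gt.T.HLp

/-! Sub-blocks C and H: the gradient bound. -/

open Set Filter Topology MeasureTheory
open scoped ContDiff ComplexConjugate Real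

noncomputable section

namespace Pool.Agent.Lib.MP_ccffa6_gt

variable {V : Type} [NormedAddCommGroup V] [NormedSpace ℝ V] [FiniteDimensional ℝ V] {k : ℕ}
  {T : TD k V} {κ : ℂ → ℂ} {τ : ℝ} {u : ℂ → V}

theorem TD.OK.low (hE : EpsStmt) (hT : T.OK) :
    ∃ c : ℝ, ∀ κ τ u, Sol T κ τ u → ∀ z ∈ Sq, -c ≤ T.s (u z) := by
  obtain ⟨E, hE0, hm⟩ := hT.hmass
  obtain ⟨h, Cr, hh, hC, hr⟩ := hT.hreg hE
  obtain ⟨ε₀, C₁, h0, h1, hs⟩ := t_hscal hE0 hh hC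
  obtain ⟨Y, hY, hYc, hYe, hyp⟩ := hT.field
  obtain ⟨ε, hε, ho⟩ := t_orbit hY hYc hT.cyl.cpt hyp C₁ h0
  obtain ⟨C, hC0, hCb⟩ := hT.cyl_bound
  obtain ⟨m₀, hm₀⟩ := hs (ε ^ 2 / C) (by positivity)
  refine ⟨-min m₀ (-1), fun κ τ u hu z hz => ?_⟩
  rw [neg_neg]
  by_contra hlt
  rw [not_le, lt_min_iff] at hlt
  have ha : HS (hfun T u) E h Cr :=
    ⟨hu.hfun_sm hT, fun z hz => indicator_of_notMem hz _, hm κ τ u hu, hu.hfun_sub hT,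
      hu.hfun_mp hT, hr κ τ u hu⟩
  have e : hfun T u z = T.s (u z) := by
    rw [hfun, indicator_of_mem hz, t_hchi.2.1 _ hlt.2.le]
  obtain ⟨x₁, x₂, y₁, y₂, a1, a2, a3, a4⟩ := hm₀ _ z ha (e ▸ hlt.1)
  exact ho _ _ _ _ _ _ _
    (hu.lp hT hY.continuous hYe hC0 (fun y hy v hv => (hCb y hy v hv).2) h1 hε.le a1 a2 a3 a4)

theorem t_grad (hE : EEstStmt) (k : ℕ) : GradStmt k := by
  intro V _ _ _ T κ hT hκ
  obtain ⟨c, hc⟩ := hT.low (t_eps hE)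
  obtain ⟨G, hG⟩ := hT.gradK (t_eps hE) hκ (hT.cpt c) inter_subset_left
  exact ⟨G, fun τ u hu hb => hG τ u hu
    (fun z hz => hT.mem_L0 (hu.bd hz) (hb z hz).1 (hb z hz).2)
    (fun z hz => ⟨hu.mapW hz, hu.top hT z hz, hc κ τ u hu z hz⟩)⟩

end Pool.Agent.Lib.MP_ccffa6_gt
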