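import Pool.Agent.Lib.MP_ccffa6_gt.T.CRect
import Pool.Agent.Lib.MP_ccffa6_gt.T.Base2
import Pool.Agent.Lib.MP_ccffa6_gt.T.CMp

/-! Uniform constants from compactness; the positive end. -/

open Set Filter Topology MeasureTheory
open scoped ContDiff ComplexConjugate Real

noncomputable section

namespace Pool.Agent.Lib.MP_ccffa6_gt

variable {V : Type} [NormedAddCommGroup V] [NormedSpace ℝ V] [FiniteDimensional ℝ V] {k : ℕ}
  {T : TD k V} {κ : ℂ → ℂ} {τ : ℝ} {u : ℂ → V}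

/-- A continuous function, homogeneous of degree two in `v` and positive on a closed field of
subspaces over a compact set: minimum over the compact set of unit vectors. -/
theorem t_coerc {K : Set V} (hK : IsCompact K) {A : V → V →L[ℝ] V} (hA : Continuous A)
    {q : V → V → ℝ} (hq : Continuous fun p : V × V => q p.1 p.2)
    (h2 : ∀ y v (c : ℝ), q y (c • v) = c ^ 2 * q y v)
    (hp : ∀ y ∈ K, ∀ v, A y v = 0 → v ≠ 0 → 0 < q y v) :
    ∃ C : ℝ, 0 < C ∧ ∀ y ∈ K, ∀ v, A y v = 0 → ‖v‖ ^ 2 ≤ C * q y v := by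
  have hc : IsCompact ((K ×ˢ Metric.sphere (0 : V) 1) ∩ {p : V × V | A p.1 p.2 = 0}) :=
    (hK.prod (isCompact_sphere 0 1)).inter_right
      (isClosed_eq ((hA.comp continuous_fst).clm_apply continuous_snd) continuous_const)
  obtain ⟨a, ha, H⟩ := hc.exists_forall_le' hq.continuousOn (a := 0) fun p hp' =>
    hp p.1 hp'.1.1 p.2 hp'.2 (ne_zero_of_mem_unit_sphere ⟨p.2, hp'.1.2⟩)
  refine ⟨a⁻¹, inv_pos.2 ha, fun y hy v hv => ?_⟩
  rcases eq_or_ne v 0 with rfl | h0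
  · have := h2 y 0 0
    rw [smul_zero] at this
    rw [this]
    simp
  have h1 := H (y, ‖v‖⁻¹ • v) ⟨⟨hy, mem_sphere_zero_iff_norm.2 (norm_smul_inv_norm h0)⟩, by
    simp [hv]⟩
  have h3 := h2 y (‖v‖⁻¹ • v) ‖v‖
  rw [smul_smul, mul_inv_cancel₀ (norm_ne_zero_iff.2 h0), one_smul] at h3
  rw [h3, ← div_eq_inv_mul, le_div_iff₀ ha]
  exact mul_le_mul_of_nonneg_left h1 (sq_nonneg _)

theorem TD.OK.tame_bound (hT : T.OK) {K : Set V} (hK : IsCompact K) (hW : K ⊆ T.W) :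
    ∃ C : ℝ, 0 < C ∧ ∀ y ∈ K, ∀ v ∈ Tan T.W y, ‖v‖ ^ 2 ≤ C * dF T.lam y v (T.J y v) := by
  have h1 : Continuous fun p : V × V => fderiv ℝ T.lam p.1 :=
    (hT.smlam.continuous_fderiv (by simp)).comp continuous_fst
  have h2 : Continuous fun p : V × V => T.J p.1 p.2 :=
    (hT.smJ.continuous.comp continuous_fst).clm_apply continuous_snd
  obtain ⟨C, hC, H⟩ := t_coerc hK (hT.smν.continuous_fderiv (by simp))
    (q := fun y v => dF T.lam y v (T.J y v))
    (((h1.clm_apply continuous_snd).clm_apply h2).sub ((h1.clm_apply h2).clm_apply continuous_snd))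
    (fun y v c => by
      simp only [map_smul, smul_apply, smul_eq_mul]
      ring)
    fun y hy v hv h0 => hT.tame y (hW hy) v ((hT.tan y (hW hy) v).2 hv) h0
  exact ⟨C, hC, fun y hy v hv => H y hy v ((hT.tan y (hW hy) v).1 hv)⟩

/-- `J u_x = u_y`, `J u_y = - u_x`, antisymmetry of `dF`. -/
theorem TD.OK.dens_bound (hT : T.OK) {K : Set V} (hK : IsCompact K) (hW : K ⊆ T.W) :
    ∃ C : ℝ, 0 < C ∧ ∀ κ τ u, Sol T κ τ u → ∀ z ∈ Sq, u z ∈ K →
      ‖px u z‖ ^ 2 ≤ C * dens T.lam u z ∧ ‖py u z‖ ^ 2 ≤ C * dens T.lam u z := by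
  obtain ⟨C, hC, H⟩ := hT.tame_bound hK hW
  refine ⟨C, hC, fun κ τ u hu z hz hK' => ?_⟩
  have hd := hu.sm.differentiable (by simp) z
  have h1 := H _ hK' (px u z) (tan_of_mapsTo hz hd hu.mapW 1)
  have h2 := H _ hK' (py u z) (tan_of_mapsTo hz hd hu.mapW Complex.I)
  have h3 : T.J (u z) (py u z) = -px u z := by rw [(hu.hol z hz).2, neg_neg]
  have h4 : dF T.lam (u z) (py u z) (-px u z) = dens T.lam u z := by
    rw [map_neg]
    exact neg_sub _ _
  rw [← (hu.hol z hz).1] at h1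
  rw [h3, h4] at h2
  exact ⟨h1, h2⟩

/-- `t_mp` with `f = b ∘ u`, `p = lam (u) (u_x)`, `q = lam (u) (u_y)`, `t = 0`, any `t' > 0`:
where `f > 0`, `f_x = q` and `f_y = - p` (`top`); the curl is `dens` (`dens_eq`);
on `SqB` use `mid`. -/
theorem Sol.top (hT : T.OK) (hu : Sol T κ τ u) : ∀ z ∈ Sq, T.b (u z) ≤ 0 := by
  have hl : ContDiff ℝ ∞ fun z => T.lam (u z) := hT.smlam.comp hu.sm
  rw [sq_eq_rect]
  refine t_mp (f := fun z => T.b (u z)) (p := fun z => T.lam (u z) (px u z))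
    (q := fun z => T.lam (u z) (py u z)) (hT.smb.comp hu.sm) (hl.clm_apply (t_cd_px hu.sm))
    (hl.clm_apply (t_cd_py hu.sm)) one_pos (fun z hz => ?_) (fun z hz h0 _ => ?_) fun z hz => ?_
  · rw [← sq_eq_rect] at hz
    rw [dens_eq (hT.smlam.differentiable (by simp) _) (hu.sm.contDiffAt.of_le (by norm_cast))]
    exact (hu.dens_nonneg hT hz).1
  · rw [← sq_eq_rect] at hz
    have hd := hu.sm.differentiable (by simp) z
    have hb : ∀ v, fderiv ℝ (fun z => T.b (u z)) z v = fderiv ℝ T.b (u z) (fderiv ℝ u z v) :=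
      fun v => by
        rw [fderiv_fun_comp z (hT.smb.differentiable (by simp) _) hd]
        rfl
    have h1 : px (fun z => T.b (u z)) z = T.lam (u z) (py u z) := by
      refine (hb 1).trans ?_
      change fderiv ℝ T.b (u z) (px u z) = _
      rw [(hu.hol z hz).2, map_neg,
        hT.top _ (hu.mapW hz) h0 (py u z) (tan_of_mapsTo hz hd hu.mapW Complex.I), neg_neg]
    have h2 : py (fun z => T.b (u z)) z = -T.lam (u z) (px u z) := by
      refine (hb Complex.I).trans ?_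
      change fderiv ℝ T.b (u z) (py u z) = _
      rw [(hu.hol z hz).1]
      exact hT.top _ (hu.mapW hz) h0 _ (tan_of_mapsTo hz hd hu.mapW 1)
    rw [h1, h2]
    have h3 := mul_self_nonneg (T.lam (u z) (px u z))
    have h4 := mul_self_nonneg (T.lam (u z) (py u z))
    exact ⟨by linarith, fun h => mul_self_eq_zero.1 (by linarith)⟩
  · rw [← t_sqB_eq] at hz
    obtain ⟨h, hh, e⟩ := hu.bd hz
    rw [← e]
    exact (hT.mid h (hT.larc_sub hh)).1

theorem Sol.s_pos (hT : T.OK) (hu : Sol T κ τ u) : ∀ z ∈ SqB, 0 < T.s (u z) := by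
  intro z hz
  obtain ⟨h, hh, e⟩ := hu.bd hz
  rw [← e]
  exact (hT.mid h (hT.larc_sub hh)).2

end Pool.Agent.Lib.MP_ccffa6_gt
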