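import Pool.Agent.Lib.MP_ccffa6_gt.T.CSel
import Pool.Agent.Lib.MP_ccffa6_gt.T.CFold
import Pool.Agent.Lib.MP_ccffa6_gt.T.CLoop
import Pool.Agent.Lib.MP_ccffa6_gt.T.CTame

/-! No concentration of area. -/

open Set Filter Topology MeasureTheory
open scoped ContDiff ComplexConjugate Real

noncomputable section

namespace Pool.Agent.Lib.MP_ccffa6_gt

variable {V : Type} [NormedAddCommGroup V] [NormedSpace ℝ V] [FiniteDimensional ℝ V] {k : ℕ}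
  {T : TD k V} {κ : ℂ → ℂ} {τ : ℝ} {u : ℂ → V}

omit [FiniteDimensional ℝ V] in
theorem t_cnoc_C {L : Set V} {lam : Form1 V} {P : V → ℂ} (h : Wind L lam P) {K : Set V}
    (hK : IsCompact K) :
    ∃ C : ℝ, 0 ≤ C ∧ ∀ y ∈ K, ‖lam y‖ ≤ C ∧ ‖P y‖ ≤ C ∧ ‖fderiv ℝ P y‖ ≤ C := by
  obtain ⟨C₁, h₁⟩ := hK.exists_bound_of_continuousOn h.sml.continuous.continuousOn
  obtain ⟨C₂, h₂⟩ := hK.exists_bound_of_continuousOn h.smP.continuous.continuousOn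
  obtain ⟨C₃, h₃⟩ := hK.exists_bound_of_continuousOn
    (h.smP.continuous_fderiv (by simp)).continuousOn
  refine ⟨|C₁| + |C₂| + |C₃|, by positivity, fun y hy => ?_⟩
  have := h₁ y hy
  have := h₂ y hy
  have := h₃ y hy
  have := le_abs_self C₁
  have := le_abs_self C₂
  have := le_abs_self C₃
  have := abs_nonneg C₁
  have := abs_nonneg C₂
  have := abs_nonneg C₃
  exact ⟨by linarith, by linarith, by linarith⟩

theorem t_cnoc_kap (hκ : Kap κ) : ContinuousOn κ Sq ∧ (∃ Ck : ℝ, 0 ≤ Ck ∧ ∀ z ∈ Sq, ‖κ z‖ ≤ Ck) ∧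
    ∃ r₀ : ℝ, 0 < r₀ ∧ r₀ ≤ π ∧
      ∀ z ∈ Sq, ∀ w ∈ Sq, ‖z - w‖ ≤ 4 * r₀ → ‖κ z - κ w‖ ≤ 1 / 2 := by
  obtain ⟨U, -, hU, hd⟩ := hκ.hol
  have hc : ContinuousOn κ Sq := hd.continuousOn.mono hU
  obtain ⟨Ck, hCk⟩ := isCompact_sq.exists_bound_of_continuousOn hc
  obtain ⟨δ, hδ, hδ'⟩ := Metric.uniformContinuousOn_iff.1
    (isCompact_sq.uniformContinuousOn_of_continuous hc) (1 / 2) (by norm_num)
  refine ⟨hc, ⟨|Ck|, abs_nonneg _, fun z hz => (hCk z hz).trans (le_abs_self _)⟩,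
    min π (δ / 5), lt_min Real.pi_pos (by positivity), min_le_left _ _, fun z hz w hw h => ?_⟩
  have := min_le_right π (δ / 5)
  have h1 := hδ' z hz w hw (by rw [dist_eq_norm]; linarith)
  rw [dist_eq_norm] at h1
  exact h1.le

omit [FiniteDimensional ℝ V] in
theorem t_cnoc_energy (hT : T.OK) (hu : Sol T κ τ u) {Ct : ℝ}
    (hb : ∀ z ∈ Sq, ‖px u z‖ ^ 2 ≤ Ct * dens T.lam u z ∧ ‖py u z‖ ^ 2 ≤ Ct * dens T.lam u z)
    {z₀ : ℂ} (h0 : z₀ ∈ Sq) {r : ℝ} (hr : r ≤ π) :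
    SI (fun z => siz T.S u z ^ 2) z₀ r ≤ 36 * (1 + ‖T.S‖) ^ 2 * Ct * π := by
  have hc : Continuous fun z => siz T.S u z ^ 2 := (t_siz_cont T.S hu.sm).pow 2
  have hi := t_siz_inv hT.SS hu.sm hu.per hu.eq1 hu.eq2
  have hi2 : Inv fun z => siz T.S u z ^ 2 :=
    ⟨fun z => congrArg (· ^ 2) (hi.1 z), fun z => congrArg (· ^ 2) (hi.2.1 z),
      fun z => ⟨congrArg (· ^ 2) (hi.2.2 z).1, congrArg (· ^ 2) (hi.2.2 z).2⟩⟩
  have hx := abs_le.1 h0.1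
  have hy := abs_le.1 h0.2
  have h1 : SI (fun z => siz T.S u z ^ 2) z₀ r ≤ RI (fun z => siz T.S u z ^ 2)
      (-(3 * π / 2)) (3 * π / 2) (-(3 * π / 2)) (3 * π / 2) :=
    t_RI_sub hc (t_rect_sub (by linarith) (by linarith) (by linarith) (by linarith))
      fun z _ => sq_nonneg _
  have hd := t_cont_dens hT.smlam hu.sm
  have h2 : ∫ z in Sq, siz T.S u z ^ 2 ≤
      ∫ z in Sq, 4 * (1 + ‖T.S‖) ^ 2 * Ct * dens T.lam u z := by
    rw [sq_eq_rect]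
    refine t_RI_mono hc (continuous_const.mul hd) fun z hz => ?_
    rw [← sq_eq_rect] at hz
    obtain ⟨b1, b2⟩ := hb z hz
    have s0 : 0 ≤ siz T.S u z := (norm_nonneg _).trans (t_siz_ge T.S u z).1
    have s1 := pow_le_pow_left₀ s0 (t_siz_le T.S u z).1 2
    have s2 : (‖px u z‖ + ‖py u z‖) ^ 2 ≤ 4 * (Ct * dens T.lam u z) := by
      nlinarith [sq_nonneg (‖px u z‖ - ‖py u z‖)]
    have s3 := mul_le_mul_of_nonneg_left s2 (sq_nonneg (1 + ‖T.S‖))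
    rw [mul_pow] at s1
    show siz T.S u z ^ 2 ≤ 4 * (1 + ‖T.S‖) ^ 2 * Ct * dens T.lam u z
    linarith
  rw [integral_const_mul, hu.area] at h2
  rw [t_fold_RI hc hi2] at h1
  linarith

/-- No concentration: a good rectangle from the pigeonhole principle, `Wind.loop`, `t_gauge`. -/
theorem TD.OK.noc (hT : T.OK) (hκ : Kap κ) {K : Set V} (hK : IsCompact K) (hW : K ⊆ T.W) {ε : ℝ}
    (hε : 0 < ε) : ∃ r : ℝ, 0 < r ∧ ∀ τ u, Sol T κ τ u → MapsTo u Sq K → ∀ z₀ ∈ Sq, ∀ a b c d,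
      Rect a b c d ⊆ Sq ∩ sqr z₀ r → RI (dens T.lam u) a b c d ≤ ε := by
  obtain ⟨C, hC0, hC⟩ := t_cnoc_C hT.wind hK
  obtain ⟨Ct, hCt, hdb⟩ := hT.dens_bound hK hW
  obtain ⟨hκc, ⟨Ck, hCk0, hCk⟩, r₀, hr₀, hr₀π, hκu⟩ := t_cnoc_kap hκ
  obtain ⟨E, hE⟩ : ∃ E, E = 36 * (1 + ‖T.S‖) ^ 2 * Ct * π := ⟨_, rfl⟩
  have hE0 : 0 ≤ E := by rw [hE]; positivity
  obtain ⟨η₀, hη₀, hη₁, hη₂⟩ : ∃ η₀ : ℝ, 0 < η₀ ∧ 7 * η₀ ≤ ε ∧ (14 * Ck + 7) * η₀ ≤ 1 := by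
    refine ⟨min (ε / 7) (1 / (14 * Ck + 7)), lt_min (by positivity) (by positivity), ?_, ?_⟩
    · have := min_le_left (ε / 7) (1 / (14 * Ck + 7))
      linarith
    · have := min_le_right (ε / 7) (1 / (14 * Ck + 7))
      rw [le_div_iff₀ (by positivity)] at this
      linarith
  obtain ⟨ε₁, hε₁, hη⟩ : ∃ ε₁ : ℝ, 0 < ε₁ ∧ (2 * C ^ 2 + C) * ε₁ ≤ η₀ := by
    refine ⟨η₀ / (2 * C ^ 2 + C + 1), by positivity, ?_⟩
    rw [← mul_div_assoc, div_le_iff₀ (by positivity)]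
    linarith
  obtain ⟨J, hJ⟩ := exists_nat_gt (4 * E / ε₁ ^ 2)
  have hJ0 : (0 : ℝ) < J := lt_of_le_of_lt (by positivity) hJ
  have hJE : 4 * (E / J) ≤ ε₁ ^ 2 := by
    rw [div_lt_iff₀ (by positivity)] at hJ
    rw [← mul_div_assoc, div_le_iff₀ hJ0]
    linarith
  obtain ⟨r, hr, hrJ⟩ : ∃ r : ℝ, 0 < r ∧ 2 ^ J * r = r₀ :=
    ⟨r₀ / 2 ^ J, by positivity, by field_simp⟩
  refine ⟨r, hr, fun τ u hu hm z₀ h0 a₀ b₀ c₀ d₀ hs => ?_⟩
  have hb := fun z hz => hdb κ τ u hu z hz (hm hz)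
  have hd := t_cont_dens hT.smlam hu.sm
  have hd0 : ∀ z ∈ Sq, 0 ≤ dens T.lam u z := fun z hz =>
    nonneg_of_mul_nonneg_right ((sq_nonneg _).trans (hb z hz).1) hCt
  have hφ := t_siz_cont T.S hu.sm
  have hc : Continuous fun z => siz T.S u z ^ 2 := hφ.pow 2
  obtain ⟨j, hj, hp⟩ := t_pigeon (fun ρ => SI (fun z => siz T.S u z ^ 2) z₀ ρ) r E
    (Nat.cast_pos.1 hJ0) (by
      have h1 := t_cnoc_energy hT hu hb h0 hr₀π
      have h2 : 0 ≤ SI (fun z => siz T.S u z ^ 2) z₀ r := t_RI_nonneg fun z _ => sq_nonneg _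
      rw [hrJ, hE]
      linarith)
  obtain ⟨ρ, hρ⟩ : ∃ ρ : ℝ, ρ = 2 ^ j * r := ⟨_, rfl⟩
  rw [← hρ] at hp
  have hρr : r ≤ ρ := by
    rw [hρ]
    exact le_mul_of_one_le_left hr.le (one_le_pow₀ one_le_two)
  have hρ₀ : 2 * ρ ≤ r₀ := by
    rw [hρ, ← hrJ, ← mul_assoc, ← pow_succ']
    exact mul_le_mul_of_nonneg_right (pow_le_pow_right₀ one_le_two hj) hr.le
  obtain ⟨a, b, c, d, s1, s2, -, -, -, -, -, -, hS⟩ :=
    t_annulus hc (fun z => sq_nonneg _) z₀ (hr.trans_le hρr) hp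
  obtain ⟨a', b', c', d', hR, hA⟩ := t_clip hu.sm hφ (fun z => (t_siz_ge T.S u z).1)
    (fun z => (t_siz_ge T.S u z).2.1) hε₁.le (hS.mono hc hc (fun _ _ => le_rfl) hJE) h0
    (s1 (t_mem_sqr (by rw [sub_self, norm_zero]; linarith)))
  have hRS : Rect a' b' c' d' ⊆ Sq := by
    rw [hR]
    exact inter_subset_right
  have hRq : Rect a' b' c' d' ⊆ sqr z₀ (2 * ρ) := by
    rw [hR]
    exact inter_subset_left.trans s2
  have h1 : RI (dens T.lam u) a' b' c' d' ≤ π := by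
    rw [← hu.area, sq_eq_rect]
    rw [sq_eq_rect] at hRS hd0
    exact t_RI_sub hd hRS hd0
  have hk : 0 ≤ Ck * η₀ := by positivity
  rcases hT.wind.loop hC hu.sm hu.bd hε₁.le hA (hm.mono_left hRS) (by linarith)
    (t_RI_nonneg fun z hz => hd0 z (hRS hz)) h1 with h2 | ⟨h2, w, hwR, hwB⟩
  · have h3 : RI (dens T.lam u) a₀ b₀ c₀ d₀ ≤ RI (dens T.lam u) a' b' c' d' := by
      refine t_RI_sub hd ?_ fun z hz => hd0 z (hRS hz)
      rw [hR]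
      exact fun z hz => ⟨s1 (t_sqr_mono z₀ hρr (hs hz).2), (hs hz).1⟩
    linarith
  · exfalso
    have h3 := t_gauge hκc hd hCk hd0 (measurableSet_rect a' b' c' d') hRS (hκ.bd w hwB)
      (fun z hz => hκu z (hRS hz) w (hRS hwR) (by
        have n1 := t_norm_of_sqr (hRq hz)
        have n2 := t_norm_of_sqr (hRq hwR)
        have n3 := norm_sub_le (z - z₀) (w - z₀)
        rw [sub_sub_sub_cancel_right] at n3
        linarith)) hu.gauge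
    rw [hu.area] at h3
    have h4 : π - RI (dens T.lam u) a' b' c' d' ≤ 7 * η₀ := by linarith
    have h5 := mul_le_mul_of_nonneg_left h4 hCk0
    have h6 : RI (dens T.lam u) a' b' c' d' ≤ 2 * Ck * (π - RI (dens T.lam u) a' b' c' d') := h3
    nlinarith [Real.pi_gt_three]

end Pool.Agent.Lib.MP_ccffa6_gt
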