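import Pool.Agent.Lib.MP_ccffa6_gt.T.CSel

/-! Oscillation along the sides of a rectangle, truncations. -/

open Set Filter Topology MeasureTheory
open scoped ContDiff ComplexConjugate Real

noncomputable section

namespace Pool.Agent.Lib.MP_ccffa6_gt

theorem t_cosc_one {F h g : ℝ → ℝ} (hF : ∀ t, HasDerivAt F (h t) t) (hh : Continuous h)
    (hg : Continuous g) {a b ε : ℝ} (hε : 0 ≤ ε) (hle : ∀ t, h t ^ 2 ≤ g t)
    (hb : (b - a) * ∫ t in a..b, g t ≤ ε ^ 2) {x x' : ℝ} (hx : x ∈ Icc a b) (hx' : x' ∈ Icc a b) :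
    |F x - F x'| ≤ ε := by
  have h1 := t_cs hh hg (hx.1.trans hx.2) hε (fun t _ => hle t) hb
  have key : ∀ u ∈ Icc a b, ∀ v ∈ Icc a b, u ≤ v → |F v - F u| ≤ ε := by
    intro u hu v hv huv
    rw [← intervalIntegral.integral_eq_sub_of_hasDerivAt (fun t _ => hF t)
      (hh.intervalIntegrable _ _)]
    exact (intervalIntegral.abs_integral_le_integral_abs huv).trans
      ((intervalIntegral.integral_mono_interval hu.1 huv hv.2
        (.of_forall fun t => abs_nonneg _) (hh.abs.intervalIntegrable _ _)).trans h1)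
  rcases le_total x x' with h2 | h2
  · rw [abs_sub_comm]
    exact key x hx x' hx' h2
  · exact key x' hx' x hx h2

theorem t_osc_h {f g : ℂ → ℝ} (hf : ContDiff ℝ ∞ f) (hg : Continuous g) {a b y ε : ℝ} (hε : 0 ≤ ε)
    (hle : ∀ z, px f z ^ 2 ≤ g z) (hb : (b - a) * HI g a b y ≤ ε ^ 2) {x x' : ℝ}
    (hx : x ∈ Icc a b) (hx' : x' ∈ Icc a b) :
    |f (x + y * Complex.I) - f (x' + y * Complex.I)| ≤ ε :=
  t_cosc_one (F := fun t : ℝ => f (t + y * Complex.I))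
    (fun _ => hasDerivAt_px (hf.differentiable (by simp) _))
    (t_cont_h (t_cd_px hf).continuous y) (t_cont_h hg y) hε (fun _ => hle _) hb hx hx'

theorem t_osc_v {f g : ℂ → ℝ} (hf : ContDiff ℝ ∞ f) (hg : Continuous g) {x c d ε : ℝ} (hε : 0 ≤ ε)
    (hle : ∀ z, py f z ^ 2 ≤ g z) (hb : (d - c) * VI g x c d ≤ ε ^ 2) {y y' : ℝ}
    (hy : y ∈ Icc c d) (hy' : y' ∈ Icc c d) :
    |f (x + y * Complex.I) - f (x + y' * Complex.I)| ≤ ε :=
  t_cosc_one (F := fun t : ℝ => f (x + t * Complex.I))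
    (fun _ => hasDerivAt_py (hf.differentiable (by simp) _))
    (t_cont_v (t_cd_py hf).continuous x) (t_cont_v hg x) hε (fun _ => hle _) hb hy hy'

/-- Two boundary points are joined along at most three sides. -/
theorem t_osc_bd {f g : ℂ → ℝ} (hf : ContDiff ℝ ∞ f) (hg : Continuous g) {a b c d ε : ℝ}
    (hε : 0 ≤ ε) (hx : ∀ z, px f z ^ 2 ≤ g z) (hy : ∀ z, py f z ^ 2 ≤ g z)
    (hs : Sides g a b c d (ε ^ 2)) {z z' : ℂ} (hz : z ∈ Bd a b c d) (hz' : z' ∈ Bd a b c d) :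
    |f z - f z'| ≤ 3 * ε := by
  have ia := left_mem_Icc.2 hs.hx
  have ib := right_mem_Icc.2 hs.hx
  have ic := left_mem_Icc.2 hs.hy
  have id := right_mem_Icc.2 hs.hy
  have key : ∀ w ∈ Bd a b c d,
      (|f w - f (a + c * Complex.I)| ≤ ε ∧ |f w - f (a + d * Complex.I)| ≤ ε) ∨
      (|f w - f (b + c * Complex.I)| ≤ ε ∧ |f w - f (b + d * Complex.I)| ≤ ε) ∨
      (|f w - f (a + c * Complex.I)| ≤ ε ∧ |f w - f (b + c * Complex.I)| ≤ ε) ∨
      (|f w - f (a + d * Complex.I)| ≤ ε ∧ |f w - f (b + d * Complex.I)| ≤ ε) := by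
    intro w hw
    obtain ⟨x, y, rfl⟩ : ∃ x y : ℝ, w = x + y * Complex.I := ⟨_, _, (Complex.re_add_im w).symm⟩
    obtain ⟨h1, h2⟩ := t_mem_rect.1 hw.1
    have h3 : x = a ∨ x = b ∨ y = c ∨ y = d := by simpa using hw.2
    rcases h3 with rfl | rfl | rfl | rfl
    · exact .inl ⟨t_osc_v hf hg hε hy hs.le h2 ic, t_osc_v hf hg hε hy hs.le h2 id⟩
    · exact .inr (.inl ⟨t_osc_v hf hg hε hy hs.ri h2 ic, t_osc_v hf hg hε hy hs.ri h2 id⟩)
    · exact .inr (.inr (.inl ⟨t_osc_h hf hg hε hx hs.bo h1 ia, t_osc_h hf hg hε hx hs.bo h1 ib⟩))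
    · exact .inr (.inr (.inr ⟨t_osc_h hf hg hε hx hs.tp h1 ia, t_osc_h hf hg hε hx hs.tp h1 ib⟩))
  have k1 := abs_le.1 (t_osc_h hf hg hε hx hs.bo ia ib)
  have k2 := abs_le.1 (t_osc_v hf hg hε hy hs.le ic id)
  rcases key z hz with h | h | h | h <;> rcases key z' hz' with h' | h' | h' | h' <;>
    exact abs_le.2 ⟨by linarith [abs_le.1 h.1, abs_le.1 h.2, abs_le.1 h'.1, abs_le.1 h'.2],
      by linarith [abs_le.1 h.1, abs_le.1 h.2, abs_le.1 h'.1, abs_le.1 h'.2]⟩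

theorem t_cosc_bump (t₁ t₂ : ℝ) {δ : ℝ} (hδ : 0 < δ) :
    ∃ ψ : ℝ → ℝ, ContDiff ℝ ∞ ψ ∧ (∀ s, 0 ≤ ψ s) ∧ (∀ s, ψ s ≤ 1) ∧ (∀ s ∈ Icc t₁ t₂, ψ s = 1) ∧
      (∀ s, t₂ + δ ≤ s → ψ s = 0) ∧ ∀ s, s ≤ t₁ - δ → ψ s = 0 := by
  refine ⟨fun t => Real.smoothTransition ((t - t₁ + δ) / δ) *
    Real.smoothTransition ((t₂ + δ - t) / δ), ?_, fun s => ?_, fun s => ?_, fun s hs => ?_,
    fun s hs => ?_, fun s hs => ?_⟩
  · exact (Real.smoothTransition.contDiff.comp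
      (((contDiff_id.sub contDiff_const).add contDiff_const).div_const δ)).mul
      (Real.smoothTransition.contDiff.comp ((contDiff_const.sub contDiff_id).div_const δ))
  · exact mul_nonneg (Real.smoothTransition.nonneg _) (Real.smoothTransition.nonneg _)
  · exact mul_le_one₀ (Real.smoothTransition.le_one _) (Real.smoothTransition.nonneg _)
      (Real.smoothTransition.le_one _)
  · beta_reduce
    rw [Real.smoothTransition.one_of_one_le ((one_le_div hδ).2 (by linarith [hs.1])),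
      Real.smoothTransition.one_of_one_le ((one_le_div hδ).2 (by linarith [hs.2])), mul_one]
  · beta_reduce
    rw [Real.smoothTransition.zero_of_nonpos (x := (t₂ + δ - s) / δ)
      (div_nonpos_of_nonpos_of_nonneg (by linarith) hδ.le), mul_zero]
  · beta_reduce
    rw [Real.smoothTransition.zero_of_nonpos (x := (s - t₁ + δ) / δ)
      (div_nonpos_of_nonpos_of_nonneg (by linarith) hδ.le), zero_mul]

/-- A primitive of a bump function. -/
theorem t_trunc {t₁ t₂ δ : ℝ} (h : t₁ ≤ t₂) (hδ : 0 < δ) : ∃ T, Trunc T t₁ t₂ δ := by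
  obtain ⟨ψ, hψ, p0, p1, pone, pr, pl⟩ := t_cosc_bump t₁ t₂ hδ
  obtain ⟨T, hT, hT0⟩ : ∃ T : ℝ → ℝ, (∀ s, HasDerivAt T (ψ s) s) ∧ T (t₂ + δ) = 0 :=
    ⟨fun s => ∫ t in (t₂ + δ)..s, ψ t,
      fun s => (hψ.continuous.integral_hasStrictDerivAt _ s).hasDerivAt,
      intervalIntegral.integral_same⟩
  have hd : deriv T = ψ := funext fun s => (hT s).deriv
  have key : ∀ u v, u ≤ v → ∃ ξ ∈ Icc u v, T v - T u = ψ ξ * (v - u) := by
    intro u v huv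
    rcases huv.eq_or_lt with rfl | hlt
    · exact ⟨u, left_mem_Icc.2 le_rfl, by simp⟩
    · obtain ⟨ξ, h1, h2⟩ := exists_hasDerivAt_eq_slope T ψ hlt
        (fun s _ => (hT s).continuousAt.continuousWithinAt) fun s _ => hT s
      exact ⟨ξ, Ioo_subset_Icc_self h1, by rw [h2, div_mul_cancel₀ _ (sub_pos.2 hlt).ne']⟩
  have mono : ∀ u v, u ≤ v → T u ≤ T v := by
    intro u v huv
    obtain ⟨ξ, -, h2⟩ := key u v huv
    linarith [mul_nonneg (p0 ξ) (sub_nonneg.2 huv)]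
  have zero : ∀ s, t₂ + δ ≤ s → T s = 0 := by
    intro s hs
    obtain ⟨ξ, h1, h2⟩ := key _ _ hs
    rw [pr ξ h1.1, zero_mul, hT0, sub_zero] at h2
    exact h2
  have mid : ∀ s, t₁ - δ ≤ s → s ≤ t₂ + δ → |T s| ≤ t₂ - t₁ + 2 * δ := by
    intro s h1 h2
    obtain ⟨ξ, -, h3⟩ := key _ _ h2
    have h4 := mul_nonneg (p0 ξ) (sub_nonneg.2 h2)
    have h5 := mul_le_of_le_one_left (sub_nonneg.2 h2) (p1 ξ)
    exact abs_le.2 ⟨by linarith, by linarith⟩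
  have cl : ∀ s s', s ≤ s' → |clamp t₁ t₂ s - clamp t₁ t₂ s'| ≤ |T s - T s'| := by
    intro s s' hs
    have h1 : clamp t₁ t₂ s ≤ clamp t₁ t₂ s' := max_le_max le_rfl (min_le_min hs le_rfl)
    have h2 : ∀ u, t₁ ≤ clamp t₁ t₂ u := fun u => le_max_left _ _
    have h3 : ∀ u, clamp t₁ t₂ u ≤ t₂ := fun u => max_le h (min_le_right _ _)
    rcases h1.eq_or_lt with e | hlt
    · rw [e, sub_self, abs_zero]
      exact abs_nonneg _
    · have h4 : s ≤ clamp t₁ t₂ s := by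
        rcases le_total s t₂ with h5 | h5
        · exact le_max_of_le_right (le_min le_rfl h5)
        · exact absurd (hlt.trans_le (h3 s')) (not_lt.2 (le_max_of_le_right (le_min h5 le_rfl)))
      have h5 : clamp t₁ t₂ s' ≤ s' := by
        rcases le_total t₁ s' with h6 | h6
        · exact max_le h6 (min_le_left _ _)
        · exact absurd ((h2 s).trans_lt hlt) (not_lt.2 (max_le le_rfl (min_le_of_left_le h6)))
      obtain ⟨ξ, h6, h7⟩ := key _ _ h1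
      rw [pone ξ ⟨(h2 s).trans h6.1, h6.2.trans (h3 s')⟩, one_mul] at h7
      rw [abs_sub_comm, abs_of_nonneg (sub_nonneg.2 h1), abs_sub_comm,
        abs_of_nonneg (sub_nonneg.2 (mono _ _ hs))]
      linarith [mono _ _ h4, mono _ _ h5]
  refine ⟨T, contDiff_infty_iff_deriv.2 ⟨fun s => (hT s).differentiableAt, hd ▸ hψ⟩,
    hd ▸ p0, hd ▸ p1, hd ▸ pone, fun s => ?_, zero, fun s s' => ?_⟩
  · rcases le_total s (t₂ + δ) with h1 | h1
    · rcases le_total (t₁ - δ) s with h2 | h2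
      · exact mid s h2 h1
      · obtain ⟨ξ, h3, h4⟩ := key _ _ h2
        rw [pl ξ h3.2, zero_mul, sub_eq_zero] at h4
        exact h4 ▸ mid _ le_rfl (by linarith)
    · rw [zero s h1, abs_zero]
      linarith
  · rcases le_total s s' with h1 | h1
    · exact cl s s' h1
    · rw [abs_sub_comm, abs_sub_comm (T s)]
      exact cl s' s h1

theorem Trunc.cont {T : ℝ → ℝ} {t₁ t₂ δ : ℝ} (hT : Trunc T t₁ t₂ δ) {a : ℂ → ℝ}
    (ha : ContDiff ℝ ∞ a) : Continuous fun z => deriv T (a z) * gr2 a z :=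
  (((contDiff_infty_iff_deriv.1 hT.sm).2.continuous).comp ha.continuous).mul
    (t_cd_gr2 ha).continuous

theorem Trunc.nonneg {T : ℝ → ℝ} {t₁ t₂ δ : ℝ} (hT : Trunc T t₁ t₂ δ) (a : ℂ → ℝ) (z : ℂ) :
    0 ≤ deriv T (a z) * gr2 a z := mul_nonneg (hT.d0 _) (t_gr2_nonneg a z)

theorem t_cosc_sq {T : ℝ → ℝ} {t₁ t₂ δ : ℝ} (hT : Trunc T t₁ t₂ δ) {a : ℂ → ℝ}
    (ha : ContDiff ℝ ∞ a) (w : ℂ) :
    px (fun w => T (a w)) w ^ 2 ≤ deriv T (a w) * gr2 a w ∧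
      py (fun w => T (a w)) w ^ 2 ≤ deriv T (a w) * gr2 a w := by
  have h1 := hT.sm.differentiable (by simp) (a w)
  have h2 := ha.differentiable (by simp) w
  have h3 : deriv T (a w) ^ 2 ≤ deriv T (a w) := by nlinarith [hT.d0 (a w), hT.d1 (a w)]
  rw [t_px_comp h1 h2, t_py_comp h1 h2, mul_pow, mul_pow, gr2]
  exact ⟨mul_le_mul h3 (le_add_of_nonneg_right (sq_nonneg _)) (sq_nonneg _) (hT.d0 _),
    mul_le_mul h3 (le_add_of_nonneg_left (sq_nonneg _)) (sq_nonneg _) (hT.d0 _)⟩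

/-- `t_osc_bd` for `T ∘ a` (`t_px_comp`, `T' ^ 2 ≤ T'`). -/
theorem Trunc.osc_bd {T : ℝ → ℝ} {t₁ t₂ δ : ℝ} (hT : Trunc T t₁ t₂ δ) {a : ℂ → ℝ}
    (ha : ContDiff ℝ ∞ a) {x₁ x₂ y₁ y₂ ε : ℝ} (hε : 0 ≤ ε)
    (hs : Sides (fun z => deriv T (a z) * gr2 a z) x₁ x₂ y₁ y₂ (ε ^ 2)) {z z' : ℂ}
    (hz : z ∈ Bd x₁ x₂ y₁ y₂) (hz' : z' ∈ Bd x₁ x₂ y₁ y₂) :
    |clamp t₁ t₂ (a z) - clamp t₁ t₂ (a z')| ≤ 3 * ε :=
  (hT.cl _ _).trans (t_osc_bd (f := fun w => T (a w)) (hT.sm.comp ha) (hT.cont ha) hε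
    (fun w => (t_cosc_sq hT ha w).1) (fun w => (t_cosc_sq hT ha w).2) hs hz hz')

theorem Trunc.osc_v {T : ℝ → ℝ} {t₁ t₂ δ : ℝ} (hT : Trunc T t₁ t₂ δ) {a : ℂ → ℝ}
    (ha : ContDiff ℝ ∞ a) {x c d ε : ℝ} (hε : 0 ≤ ε)
    (hb : (d - c) * VI (fun z => deriv T (a z) * gr2 a z) x c d ≤ ε ^ 2) {y y' : ℝ}
    (hy : y ∈ Icc c d) (hy' : y' ∈ Icc c d) :
    |clamp t₁ t₂ (a (x + y * Complex.I)) - clamp t₁ t₂ (a (x + y' * Complex.I))| ≤ ε :=
  (hT.cl _ _).trans (t_osc_v (f := fun w => T (a w)) (hT.sm.comp ha) (hT.cont ha) hε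
    (fun w => (t_cosc_sq hT ha w).2) hb hy hy')

end Pool.Agent.Lib.MP_ccffa6_gt
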