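import Pool.Agent.Lib.MP_ccffa6_gt.T.CRect
import Pool.Agent.Lib.MP_ccffa6_gt.T.Base2
import Pool.Agent.Lib.MP_ccffa6_gt.T.Iface

/-! Winding along the boundary, quantisation of the area. -/

open Set Filter Topology MeasureTheory
open scoped ContDiff ComplexConjugate Real

noncomputable section

namespace Pool.Agent.Lib.MP_ccffa6_gt

variable {V : Type} [NormedAddCommGroup V] [NormedSpace ℝ V]

/-- The function `t ↦ P (γ t) * exp (-2 i ∫ s in t₀..t, ..)` has derivative zero on `(t₀, t₁)`. -/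
theorem Wind.side {L : Set V} {lam : Form1 V} {P : V → ℂ} (h : Wind L lam P) {γ γ' : ℝ → V}
    (hγ : ∀ t, HasDerivAt γ (γ' t) t) (hc : Continuous γ') {t₀ t₁ : ℝ} (ht : t₀ ≤ t₁)
    (hL : ∀ t ∈ Icc t₀ t₁, γ t ∈ L) :
    P (γ t₁) = Complex.exp (2 * Complex.I * (∫ t in t₀..t₁, lam (γ t) (γ' t) : ℝ)) * P (γ t₀) := by
  have c1 : Continuous γ := continuous_iff_continuousAt.2 fun t => (hγ t).continuousAt
  have c2 : Continuous fun t => lam (γ t) (γ' t) := (h.sml.continuous.comp c1).clm_apply hc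
  have d1 : ∀ t, HasDerivAt (fun t => P (γ t) *
      Complex.exp (-(2 * Complex.I * (∫ s in t₀..t, lam (γ s) (γ' s) : ℝ)))) _ t := fun t =>
    ((h.smP.differentiable (by simp) (γ t)).hasFDerivAt.comp_hasDerivAt t (hγ t)).mul
      (((c2.integral_hasStrictDerivAt t₀ t).hasDerivAt.ofReal_comp.const_mul
        (2 * Complex.I)).neg.cexp)
  have e := intervalIntegral.integral_eq_sub_of_hasDerivAt_of_le (f' := fun _ => (0 : ℂ)) ht
    (fun t _ => (d1 t).continuousAt.continuousWithinAt) (fun t h1 => (d1 t).congr_deriv (by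
      rw [h.der γ (γ' t) t (hγ t) (mem_of_superset (Icc_mem_nhds h1.1 h1.2) hL)]
      simp only [Function.comp_apply, Pi.neg_apply]
      ring)) intervalIntegrable_const
  simp only [intervalIntegral.integral_zero, intervalIntegral.integral_same, Complex.ofReal_zero,
    mul_zero, neg_zero, Complex.exp_zero, mul_one] at e
  rw [← sub_eq_zero.1 e.symm, mul_left_comm, ← Complex.exp_add, add_neg_cancel, Complex.exp_zero,
    mul_one]

/-- `stokes_rect` and `Wind.side` on the four sides give `exp (2 i A) = 1`. -/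
theorem Wind.quant {L : Set V} {lam : Form1 V} {P : V → ℂ} (h : Wind L lam P) {u : ℂ → V}
    (hu : ContDiff ℝ ∞ u) (hL : MapsTo u SqB L) :
    ∃ m : ℤ, ∫ z in Sq, dens lam u z = m * π := by
  have hp : -(π / 2) ≤ π / 2 := by linarith [Real.pi_pos]
  have hd := hu.differentiable (by simp)
  have hB : ∀ x ∈ Icc (-(π / 2)) (π / 2), ∀ y ∈ Icc (-(π / 2)) (π / 2),
      x = -(π / 2) ∨ x = π / 2 ∨ y = -(π / 2) ∨ y = π / 2 → u (x + y * Complex.I) ∈ L :=
    fun x hx y hy e => hL (t_sqB_eq ▸ ⟨t_mem_rect.2 ⟨hx, hy⟩, by simpa using e⟩)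
  have hl := left_mem_Icc.2 hp
  have hr := right_mem_Icc.2 hp
  have H := fun (y : ℝ) hy => h.side (fun x : ℝ => hasDerivAt_px (x := x) (y := y) (hd _))
    (t_cont_h (t_cd_px hu).continuous y) hp hy
  have W := fun (x : ℝ) hx => h.side (fun y : ℝ => hasDerivAt_py (x := x) (y := y) (hd _))
    (t_cont_v (t_cd_py hu).continuous x) hp hx
  have e1 := H _ fun x hx => hB x hx _ hl (by simp)
  have e2 := H _ fun x hx => hB x hx _ hr (by simp)
  have e3 := W _ fun y hy => hB _ hr y hy (by simp)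
  have e4 := W _ fun y hy => hB _ hl y hy (by simp)
  have e0 := h.one _ (hB _ hl _ hl (by simp))
  rw [sq_eq_rect, stokes_rect hp hp (fun z _ => h.sml.contDiffAt.of_le (by simp))
    fun z _ => hu.contDiffAt.of_le (by norm_cast)]
  rw [e2, e4, e1, ← mul_assoc, ← mul_assoc, ← Complex.exp_add, ← Complex.exp_add] at e3
  have e5 := mul_right_cancel₀ (norm_ne_zero_iff.1 (e0.trans_ne one_ne_zero)) e3
  obtain ⟨m, hm⟩ := Complex.exp_eq_exp_iff_exists_int.1 e5.symm
  refine ⟨m, Complex.ofReal_injective (mul_left_cancel₀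
    (mul_ne_zero two_ne_zero Complex.I_ne_zero) ?_)⟩
  simp only [Complex.ofReal_add, Complex.ofReal_sub, Complex.ofReal_mul, Complex.ofReal_intCast]
  linear_combination hm

theorem t_cwind_unit {f : ℝ → ℂ} {x : ℂ} {t : ℝ} (hf : HasDerivAt f x t)
    (h1 : ∀ᶠ s in 𝓝 t, ‖f s‖ = 1) :
    (conj (f t) * x).re = 0 ∧ x = Complex.I * ((conj (f t) * x).im : ℝ) * f t := by
  have h2 : (conj (f t) * x).re = 0 := by
    have h3 := hf.norm_sq.unique ((hasDerivAt_const t (1 : ℝ)).congr_of_eventuallyEq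
      (h1.mono fun s hs => by simp [hs]))
    rw [Complex.inner, mul_comm x] at h3
    linarith
  refine ⟨h2, ?_⟩
  have h4 : Complex.I * ((conj (f t) * x).im : ℝ) = conj (f t) * x :=
    Complex.ext (by simp only [h2]; simp) (by simp)
  rw [h4, mul_right_comm, Complex.conj_mul', h1.self_of_nhds]
  simp

/-- The product of the circle coordinates winds along `L`. -/
theorem TD.OK.wind {k : ℕ} {T : TD k V} [FiniteDimensional ℝ V] (hT : T.OK) :
    Wind T.L T.lam T.Pr := by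
  let pr : Fin (k + 2) → Cm k →L[ℝ] ℂ := fun j =>
    (EuclideanSpace.proj j : Cm k →L[ℂ] ℂ).restrictScalars ℝ
  have sP : ContDiff ℝ ∞ T.Pr := contDiff_prod fun j _ => (pr j).contDiff.comp hT.smC
  refine ⟨sP, hT.smlam, fun y hy => ?_, fun γ v t hγ hL => ?_⟩
  · rw [TD.Pr, norm_prod]
    exact Finset.prod_eq_one fun j hj =>
      (hT.memL hy).2.2.2.2.1.2 j (Finset.ne_of_mem_erase hj)
  have d1 : HasDerivAt (fun s => T.Cc (γ s)) (fderiv ℝ T.Cc (γ t) v) t :=
    (hT.smC.differentiable (by simp) _).hasFDerivAt.comp_hasDerivAt t hγ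
  generalize fderiv ℝ T.Cc (γ t) v = X at d1
  have d2 : ∀ j, HasDerivAt (fun s => T.Cc (γ s) j) (X j) t := fun j =>
    (pr j).hasFDerivAt.comp_hasDerivAt t d1
  have m0 := hT.memL hL.self_of_nhds
  have e1 : v = fderiv ℝ T.Θ (T.Cc (γ t)) X := hγ.unique
    (((hT.smΘ.differentiable (by simp) _).hasFDerivAt.comp_hasDerivAt t d1).congr_of_eventuallyEq
      (hL.mono fun s hs => (hT.ΘC _ (hT.memL hs).1 (hT.memL hs).2.1).2.symm))
  have e2 : (X 0).re = 0 := (Complex.reCLM.hasFDerivAt.comp_hasDerivAt t (d2 0)).unique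
    ((hasDerivAt_const t (0 : ℝ)).congr_of_eventuallyEq
      (hL.mono fun s hs => (hT.memL hs).2.2.2.2.1.1))
  have e3 := fun j hj => t_cwind_unit (d2 j) (hL.mono fun s hs => (hT.memL hs).2.2.2.2.1.2 j hj)
  have e4 := hT.per _ m0.2.2.2.2 X e2 fun j hj => (e3 j hj).1
  rw [← e1, (hT.ΘC _ m0.1 m0.2.1).2] at e4
  rw [((sP.differentiable (by simp) _).hasFDerivAt.comp_hasDerivAt t hγ).unique
    (HasDerivAt.fun_finsetProd (u := Finset.univ.erase 0) fun j _ => d2 j), e4,
    Complex.ofReal_sum, Finset.mul_sum, Finset.sum_mul]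
  refine Finset.sum_congr rfl fun j hj => ?_
  have e5 := (e3 j (Finset.ne_of_mem_erase hj)).2
  rw [TD.Pr, ← Finset.mul_prod_erase _ _ hj, smul_eq_mul, Complex.ofReal_div, Complex.ofReal_ofNat]
  linear_combination (∏ i ∈ (Finset.univ.erase 0).erase j, T.Cc (γ t) i) * e5

/-- The unit circle with `lam h Y = Im (conj h * Y) / 2`. -/
theorem t_wind_circle : ∃ lam : Form1 ℂ, Wind {h : ℂ | ‖h‖ = 1} lam id ∧
    ∀ h X Y : ℂ, dF lam h X Y = (conj X * Y).im := by
  let B : ℂ →L[ℝ] ℂ →L[ℝ] ℝ :=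
    (1 / 2 : ℝ) • (Complex.reCLM.smulRight Complex.imCLM - Complex.imCLM.smulRight Complex.reCLM)
  have hB : ∀ X Y, B X Y = (conj X * Y).im / 2 := fun X Y => by
    simp [B]
    ring
  refine ⟨B, ⟨contDiff_id, B.contDiff, fun _ h => h, fun γ v t hγ h => ?_⟩, fun h X Y => ?_⟩
  · rw [fderiv_id, hB, Complex.ofReal_div, Complex.ofReal_ofNat]
    have e := (t_cwind_unit hγ h).2
    simp only [id, ContinuousLinearMap.id_apply]
    linear_combination e
  · have e : dF B h X Y = fderiv ℝ B h X Y - fderiv ℝ B h Y X := rfl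
    rw [e, B.fderiv, hB, hB]
    simp
    ring

theorem t_quant (k : ℕ) : QuantStmt k := fun _ _ _ _ _ _ hT hu hL => hT.wind.quant hu hL

theorem t_jac : JacStmt := by
  intro f hf h1
  obtain ⟨lam, hw, hd⟩ := t_wind_circle
  obtain ⟨m, hm⟩ := hw.quant hf h1
  exact ⟨m, by simpa only [dens, hd, jac] using hm⟩

end Pool.Agent.Lib.MP_ccffa6_gt
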