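import Pool.Agent.Lib.MP_ccffa6_gt.T.EGe

/-! Systems `Δ u = G (u, D u)`, prolongation, differences. -/

open Set Filter Topology Metric
open scoped ContDiff

noncomputable section

namespace Pool.Agent.Lib.MP_ccffa6_gt

/-- One-jets. -/
abbrev PV (V : Type) [NormedAddCommGroup V] [NormedSpace ℝ V] : Type := V × (ℂ →L[ℝ] V)

variable {V W : Type} [NormedAddCommGroup V] [NormedSpace ℝ V] [NormedAddCommGroup W]
  [NormedSpace ℝ W]

/-- The one-jet of a map. -/
def prj (u : ℂ → V) (z : ℂ) : PV V := (u z, fderiv ℝ u z)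

/-- The system `Δ u = G (u, D u)` on `U`. -/
def Ell (G : PV V → V) (u : ℂ → V) (U : Set ℂ) : Prop := ∀ z ∈ U, lp u z = G (prj u z)

/-- The prolonged right hand side. -/
def prG (G : PV V → V) (q : PV (PV V)) : PV V := (G q.1, (fderiv ℝ G q.1).comp q.2)

/-- The right hand side for holomorphic curves. -/
def GJ (J : V → V →L[ℝ] V) (q : PV V) : V :=
  fderiv ℝ J q.1 (q.2 Complex.I) (q.2 1) - fderiv ℝ J q.1 (q.2 1) (q.2 Complex.I)

/-- First difference. -/
def dl (h : ℂ) (u : ℂ → V) (z : ℂ) : V := u (z + h) - u z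

variable {G : PV V → V} {u v : ℂ → V} {z : ℂ} {U : Set ℂ}

theorem t_e_prG (hG : ContDiff ℝ ∞ G) : ContDiff ℝ ∞ (prG G) :=
  (hG.comp contDiff_fst).prodMk
    (((hG.fderiv_right (m := ∞) le_rfl).comp contDiff_fst).clm_comp contDiff_snd)

theorem t_e_GJ {J : V → V →L[ℝ] V} (hJ : ContDiff ℝ ∞ J) : ContDiff ℝ ∞ (GJ J) := by
  have h := (hJ.fderiv_right (m := ∞) le_rfl).comp (contDiff_fst (F := ℂ →L[ℝ] V))
  have h1 : ∀ e : ℂ, ContDiff ℝ ∞ fun q : PV V => q.2 e := fun e =>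
    contDiff_snd.clm_apply contDiff_const
  exact ((h.clm_apply (h1 _)).clm_apply (h1 _)).sub ((h.clm_apply (h1 _)).clm_apply (h1 _))

theorem t_e_pr {m n : WithTop ℕ∞} (h : ContDiffAt ℝ n u z) (e : m + 1 ≤ n) :
    ContDiffAt ℝ m (prj u) z :=
  (h.of_le (le_self_add.trans e)).prodMk (h.fderiv_right e)

theorem t_e_lp_clm (A : V →L[ℝ] W) (h : ContDiffAt ℝ 2 u z) :
    lp (fun w => A (u w)) z = A (lp u z) := by
  have e1 : fderiv ℝ (fun w => A (u w)) =ᶠ[𝓝 z]
      fun w => ContinuousLinearMap.compL ℝ ℂ V W A (fderiv ℝ u w) :=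
    (t_e_ev h).mono fun w hw => (A.hasFDerivAt.comp w hw).fderiv
  have e2 := ((ContinuousLinearMap.compL ℝ ℂ V W A).hasFDerivAt.comp z (t_e_fd h)).fderiv
  rw [lp, e1.fderiv_eq, show fderiv ℝ (fun w => ContinuousLinearMap.compL ℝ ℂ V W A (fderiv ℝ u w))
    z = _ from e2, lp, map_add]
  rfl

theorem t_e_sym (h : ContDiffAt ℝ 2 u z) (a b : ℂ) :
    fderiv ℝ (fderiv ℝ u) z a b = fderiv ℝ (fderiv ℝ u) z b a :=
  h.isSymmSndFDerivAt (by simp) a b

theorem t_e_lp_fderiv (h : ContDiffAt ℝ 3 u z) : lp (fderiv ℝ u) z = fderiv ℝ (lp u) z := by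
  have h2 : ContDiffAt ℝ 2 (fderiv ℝ u) z := h.fderiv_right (by norm_num)
  have k : ∀ b c : ℂ, HasFDerivAt (fun w => fderiv ℝ (fderiv ℝ u) w b c)
      ((ContinuousLinearMap.apply ℝ V c).comp ((ContinuousLinearMap.apply ℝ (ℂ →L[ℝ] V) b).comp
        (fderiv ℝ (fderiv ℝ (fderiv ℝ u)) z))) z := fun b c => by
    have := (ContinuousLinearMap.apply ℝ V c).hasFDerivAt.comp z
      ((ContinuousLinearMap.apply ℝ (ℂ →L[ℝ] V) b).hasFDerivAt.comp z (t_e_fd h2))
    exact this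
  have s : ∀ a b c : ℂ, fderiv ℝ (fderiv ℝ (fderiv ℝ u)) z a b c =
      fderiv ℝ (fderiv ℝ (fderiv ℝ u)) z a c b := fun a b c =>
    DFunLike.congr_fun ((k b c).unique ((k c b).congr_of_eventuallyEq
      (((h.of_le (by norm_num : (2 : WithTop ℕ∞) ≤ 3)).eventually (by simp)).mono
        fun w hw => t_e_sym hw b c))) a
  have e : fderiv ℝ (lp u) z = _ := ((k 1 1).add (k Complex.I Complex.I)).fderiv
  refine ContinuousLinearMap.ext fun a => ?_
  rw [e, lp, add_apply, s 1 1 a, s Complex.I Complex.I a, t_e_sym h2 1 a, t_e_sym h2 Complex.I a]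
  rfl

theorem t_e_prol (hG : ContDiff ℝ ∞ G) (hU : IsOpen U) (hu : ∀ z ∈ U, ContDiffAt ℝ 3 u z)
    (h : Ell G u U) : Ell (prG G) (prj u) U := fun z hz => by
  have h2 : ContDiffAt ℝ 2 (prj u) z := t_e_pr (hu z hz) (by norm_num)
  refine Prod.ext (((t_e_lp_clm (ContinuousLinearMap.fst ℝ _ _) h2).symm).trans (h z hz))
    (((t_e_lp_clm (ContinuousLinearMap.snd ℝ _ _) h2).symm).trans ?_)
  have e : lp u =ᶠ[𝓝 z] G ∘ prj u := by filter_upwards [hU.mem_nhds hz] using h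
  refine (t_e_lp_fderiv (hu z hz)).trans (e.fderiv_eq.trans ?_)
  exact fderiv_comp z (hG.differentiable (by simp) _) (h2.differentiableAt two_ne_zero)

theorem t_e_jhol {J : V → V →L[ℝ] V} (hJ : ContDiff ℝ ∞ J) (hU : IsOpen U)
    (hu : ∀ z ∈ U, ContDiffAt ℝ 2 u z) (h : JHol J u U) : Ell (GJ J) u U := fun z hz => by
  have k : ∀ b : ℂ, HasFDerivAt (fun w => fderiv ℝ u w b)
      ((ContinuousLinearMap.apply ℝ V b).comp (fderiv ℝ (fderiv ℝ u) z)) z := fun b =>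
    (ContinuousLinearMap.apply ℝ V b).hasFDerivAt.comp z (t_e_fd (hu z hz))
  have j : HasFDerivAt (fun w => J (u w)) _ z :=
    (hJ.differentiable (by simp) _).hasFDerivAt.comp z (t_e_ev (hu z hz)).self_of_nhds
  have e1 := DFunLike.congr_fun ((k Complex.I).unique ((j.clm_apply (k 1)).congr_of_eventuallyEq
    (by filter_upwards [hU.mem_nhds hz] using fun w hw => (h w hw).1))) Complex.I
  have e2 := DFunLike.congr_fun ((k 1).unique ((j.clm_apply (k Complex.I)).neg.congr_of_eventuallyEq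
    (by filter_upwards [hU.mem_nhds hz] using fun w hw => (h w hw).2))) 1
  simp only [ContinuousLinearMap.comp_apply, ContinuousLinearMap.apply_apply, add_apply, neg_apply,
    ContinuousLinearMap.flip_apply] at e1 e2
  rw [lp, e1, e2, t_e_sym (hu z hz) 1 Complex.I]
  simp only [GJ, prj]
  abel

theorem t_e_tr {n : WithTop ℕ∞} {h : ℂ} (h1 : ContDiffAt ℝ n u (z + h)) :
    ContDiffAt ℝ n (fun w => u (w + h)) z :=
  ContDiffAt.comp (g := u) (f := fun w => w + h) z h1 (contDiffAt_id.add contDiffAt_const)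

theorem t_e_dl {n : WithTop ℕ∞} {h : ℂ} (h0 : ContDiffAt ℝ n u z) (h1 : ContDiffAt ℝ n u (z + h)) :
    ContDiffAt ℝ n (dl h u) z := (t_e_tr h1).sub h0

theorem t_e_fd_dl {h : ℂ} (h0 : DifferentiableAt ℝ u z) (h1 : DifferentiableAt ℝ u (z + h)) :
    fderiv ℝ (dl h u) z = dl h (fderiv ℝ u) z :=
  (fderiv_fun_sub (differentiableAt_comp_add_right h |>.2 h1) h0).trans
    (by rw [fderiv_comp_add_right]; rfl)

theorem t_e_lp_comb (a b : ℝ) (h0 : ContDiffAt ℝ 2 u z) (h1 : ContDiffAt ℝ 2 v z) :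
    lp (fun w => a • u w - b • v w) z = a • lp u z - b • lp v z := by
  have h := h0.prodMk h1
  have e1 := t_e_lp_clm (a • ContinuousLinearMap.fst ℝ V V - b • ContinuousLinearMap.snd ℝ V V) h
  rw [sub_apply, smul_apply, smul_apply, ← t_e_lp_clm _ h, ← t_e_lp_clm _ h] at e1
  exact e1

theorem t_e_lp_dl {h : ℂ} (h0 : ContDiffAt ℝ 2 u z) (h1 : ContDiffAt ℝ 2 u (z + h)) :
    lp (dl h u) z = dl h (lp u) z := by
  have e := t_e_lp_comb 1 1 (t_e_tr h1) h0
  simp only [one_smul] at e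
  refine e.trans ?_
  have e2 : fderiv ℝ (fun w => u (w + h)) = fun w => fderiv ℝ u (w + h) :=
    funext fun w => fderiv_comp_add_right h
  rw [lp, e2, fderiv_comp_add_right]
  rfl

end Pool.Agent.Lib.MP_ccffa6_gt
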