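import Pool.Agent.Lib.MP_ccffa6_gt.T.ECal

/-! Second differences of a solution. -/

open Set Filter Topology Metric
open scoped ContDiff

noncomputable section

namespace Pool.Agent.Lib.MP_ccffa6_gt

variable {V W : Type} [NormedAddCommGroup V] [NormedSpace ℝ V] [NormedAddCommGroup W]
  [NormedSpace ℝ W]

theorem t_e_sd {f : W → V} {s : Set W} {L : ℝ} (hs : Convex ℝ s)
    (hf : ∀ w ∈ s, ContDiffAt ℝ 2 f w ∧ ‖fderiv ℝ (fderiv ℝ f) w‖ ≤ L) {x a b : W} (h0 : x ∈ s)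
    (h1 : x + a ∈ s) (h2 : x + b ∈ s) (h3 : x + b + a ∈ s) :
    ‖f (x + b + a) - f (x + b) - (f (x + a) - f x)‖ ≤ L * ‖a‖ * ‖b‖ := by
  have d : ∀ w ∈ s, HasFDerivAt f (fderiv ℝ f w) w := fun w hw =>
    ((hf w hw).1.differentiableAt two_ne_zero).hasFDerivAt
  have := (hs.inter (hs.translate_preimage_left a)).norm_image_sub_le_of_norm_hasFDerivWithin_le
    (𝕜 := ℝ) (f := fun w => f (w + a) - f w) (f' := fun w => fderiv ℝ f (w + a) - fderiv ℝ f w)
    (C := L * ‖a‖) (fun w hw => (((hasFDerivAt_comp_add_right a).2 (d _ hw.2)).sub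
      (d _ hw.1)).hasFDerivWithinAt) (fun w hw => by
      have := hs.norm_image_sub_le_of_norm_fderiv_le (𝕜 := ℝ) (f := fderiv ℝ f) (fun w hw =>
        ((hf w hw).1.fderiv_right (m := 1) (by norm_num)).differentiableAt one_ne_zero)
        (fun w hw => (hf w hw).2) hw.1 hw.2
      rwa [add_sub_cancel_left] at this) ⟨h0, h1⟩ ⟨h2, h3⟩
  rwa [add_sub_cancel_left] at this

theorem t_e_four {f : W → V} {A L : ℝ} (hf : ContDiff ℝ ∞ f)
    (hL : ∀ w ∈ closedBall (0 : W) (3 * A), ‖fderiv ℝ f w‖ ≤ L ∧ ‖fderiv ℝ (fderiv ℝ f) w‖ ≤ L)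
    {p q r s : W} (hp : ‖p‖ ≤ A) (hq : ‖q‖ ≤ A) (hr : ‖r‖ ≤ A) (hs : ‖s‖ ≤ A) :
    ‖f s - f r - (f q - f p)‖ ≤ L * ‖s - r - (q - p)‖ + L * ‖q - p‖ * ‖r - p‖ := by
  have m : ∀ w : W, ‖w‖ ≤ A → w ∈ closedBall (0 : W) (3 * A) := fun w hw =>
    mem_closedBall_zero_iff.2 (by linarith [norm_nonneg w])
  have m' : r + (q - p) ∈ closedBall (0 : W) (3 * A) := mem_closedBall_zero_iff.2
    ((norm_add_le _ _).trans (by linarith [norm_sub_le q p]))
  have h1 := t_e_sd (f := f) (convex_closedBall 0 (3 * A)) (fun w hw =>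
    ⟨(hf.of_le (by norm_cast)).contDiffAt, (hL w hw).2⟩) (x := p) (a := q - p) (b := r - p) (m p hp)
    (by simpa using m q hq) (by simpa using m r hr) (by simpa using m')
  have h2 := (convex_closedBall (0 : W) (3 * A)).norm_image_sub_le_of_norm_fderiv_le (𝕜 := ℝ)
    (fun w _ => hf.differentiable (by simp) w) (fun w hw => (hL w hw).1) m' (m s hs)
  rw [add_sub_cancel, add_sub_cancel] at h1
  rw [show f s - f r - (f q - f p) = f s - f (r + (q - p)) + (f (r + (q - p)) - f r - (f q - f p))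
    by abel, sub_sub s]
  exact (norm_add_le _ _).trans (add_le_add h2 h1)

theorem t_e_mem {z w h : ℂ} {a b c : ℝ} (hw : w ∈ closedBall z a) (hh : ‖h‖ ≤ b) (e : a + b ≤ c) :
    w + h ∈ closedBall z c := by
  rw [mem_closedBall, dist_eq_norm] at hw ⊢
  rw [add_sub_right_comm]
  linarith [norm_add_le (w - z) h]

theorem t_e_sub {z w : ℂ} {a b c : ℝ} (hw : w ∈ closedBall z a) (e : a + b ≤ c) :
    closedBall w b ⊆ closedBall z c :=
  closedBall_subset_closedBall' (by linarith [mem_closedBall.1 hw])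

theorem t_e_Gb [FiniteDimensional ℝ W] {f : W → V} (hf : ContDiff ℝ ∞ f) (A : ℝ) : ∃ L : ℝ, 0 ≤ L ∧
    ∀ w ∈ closedBall (0 : W) A, ‖f w‖ ≤ L ∧ ‖fderiv ℝ f w‖ ≤ L ∧ ‖fderiv ℝ (fderiv ℝ f) w‖ ≤ L := by
  have := FiniteDimensional.proper_real W
  have h1 := hf.fderiv_right (m := ∞) le_rfl
  obtain ⟨L, hL⟩ := (isCompact_closedBall (0 : W) A).exists_bound_of_continuousOn
    (hf.continuous.prodMk (h1.continuous.prodMk
      (h1.fderiv_right (m := ∞) le_rfl).continuous)).continuousOn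
  exact ⟨max L 0, le_max_right _ _, fun w hw => by
    have := (hL w hw).trans (le_max_left L 0)
    simpa only [norm_prod_le_iff] using this⟩

variable {G : PV V → V} {u : ℂ → V} {z₀ : ℂ} {R : ℝ}

/-- The Laplacian of the second differences. -/
theorem t_e_step1 [FiniteDimensional ℝ V] (hG : ContDiff ℝ ∞ G) (hR : 0 < R)
    (hu : ∀ w ∈ closedBall z₀ (4 * R), ContDiffAt ℝ 2 u w) (h : Ell G u (closedBall z₀ (4 * R))) :
    ∃ C : ℝ, 0 ≤ C ∧ ∀ a b : ℂ, ‖a‖ ≤ R → ‖b‖ ≤ R → ∀ z ∈ closedBall z₀ R,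
      ‖lp (dl b (dl a u)) z‖ ≤ C * ‖a‖ * ‖b‖ := by
  have hp : ∀ w ∈ closedBall z₀ (4 * R), ContDiffAt ℝ 1 (prj u) w := fun w hw =>
    t_e_pr (hu w hw) (by norm_num)
  obtain ⟨A, hA⟩ := (isCompact_closedBall z₀ (4 * R)).exists_bound_of_continuousOn
    (f := fun w => (prj u w, fderiv ℝ (prj u) w, fderiv ℝ (fderiv ℝ u) w)) fun w hw =>
      ((hp w hw).continuousAt.prodMk (((hp w hw).fderiv_right (m := 0) (by norm_num)).continuousAt.prodMk
        (((hu w hw).fderiv_right (m := 1) (by norm_num)).fderiv_right (m := 0)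
          (by norm_num)).continuousAt)).continuousWithinAt
  replace hA : ∀ w ∈ closedBall z₀ (4 * R), ‖prj u w‖ ≤ A ∧ ‖fderiv ℝ (prj u) w‖ ≤ A ∧
      ‖fderiv ℝ (fderiv ℝ u) w‖ ≤ A := fun w hw =>
    ⟨(norm_prod_le_iff.1 (hA w hw)).1, norm_prod_le_iff.1 (norm_prod_le_iff.1 (hA w hw)).2⟩
  have hA0 : 0 ≤ A := (norm_nonneg _).trans (hA z₀ (mem_closedBall_self (by positivity))).1
  obtain ⟨L, hL0, hL⟩ := t_e_Gb hG (3 * A)
  obtain ⟨C, hC0, hC⟩ := t_e_ab hR hL0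
  refine ⟨L * (1 + C) * (A + A ^ 2), by positivity, fun a b ha hb z hz => ?_⟩
  have key : ∀ w ∈ closedBall z₀ (2 * R), ContDiffAt ℝ 2 (dl b (dl a u)) w ∧
      ‖dl b (dl a u) w‖ ≤ (A + A ^ 2) * ‖a‖ * ‖b‖ ∧ ‖lp (dl b (dl a u)) w‖ ≤
        L * ((A + A ^ 2) * ‖a‖ * ‖b‖ + ‖fderiv ℝ (dl b (dl a u)) w‖) := fun w hw => by
    have m0 : w ∈ closedBall z₀ (4 * R) := closedBall_subset_closedBall (by linarith) hw
    have m1 : w + a ∈ closedBall z₀ (4 * R) := t_e_mem hw ha (by linarith)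
    have m2 : w + b ∈ closedBall z₀ (4 * R) := t_e_mem hw hb (by linarith)
    have m3 : w + b + a ∈ closedBall z₀ (4 * R) :=
      t_e_mem (t_e_mem hw hb le_rfl) ha (by linarith)
    have c0 := t_e_dl (hu _ m0) (hu _ m1)
    have c1 := t_e_dl (hu _ m2) (hu _ m3)
    have n0 : ‖dl b (dl a u) w‖ ≤ A * ‖a‖ * ‖b‖ :=
      t_e_sd (convex_closedBall _ _) (fun w hw => ⟨hu w hw, (hA w hw).2.2⟩) m0 m1 m2 m3
    have n1 : 0 ≤ A ^ 2 * ‖a‖ * ‖b‖ := by positivity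
    refine ⟨t_e_dl c0 c1, by nlinarith, ?_⟩
    have d : ∀ w ∈ closedBall z₀ (4 * R), DifferentiableAt ℝ u w := fun w hw =>
      (hu w hw).differentiableAt two_ne_zero
    have e1 : lp (dl b (dl a u)) w =
        G (prj u (w + b + a)) - G (prj u (w + b)) - (G (prj u (w + a)) - G (prj u w)) := by
      rw [t_e_lp_dl c0 c1, dl, t_e_lp_dl (hu _ m0) (hu _ m1), t_e_lp_dl (hu _ m2) (hu _ m3), dl, dl,
        h _ m0, h _ m1, h _ m2, h _ m3]
    have e2 : prj u (w + b + a) - prj u (w + b) - (prj u (w + a) - prj u w) =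
        prj (dl b (dl a u)) w := Prod.ext rfl (by
      change _ = fderiv ℝ _ _
      rw [t_e_fd_dl (c0.differentiableAt two_ne_zero) (c1.differentiableAt two_ne_zero), dl,
        t_e_fd_dl (d _ m0) (d _ m1), t_e_fd_dl (d _ m2) (d _ m3)]
      rfl)
    have l : ∀ k : ℂ, w + k ∈ closedBall z₀ (4 * R) → ‖prj u (w + k) - prj u w‖ ≤ A * ‖k‖ :=
      fun k hk => by
        have := (convex_closedBall z₀ (4 * R)).norm_image_sub_le_of_norm_fderiv_le (𝕜 := ℝ)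
          (fun w hw => (hp w hw).differentiableAt one_ne_zero) (fun w hw => (hA w hw).2.1) m0 hk
        rwa [add_sub_cancel_left] at this
    have e3 := t_e_four hG (fun w hw => (hL w hw).2) (hA _ m0).1 (hA _ m1).1 (hA _ m2).1 (hA _ m3).1
    rw [← e1, e2] at e3
    have e4 : ‖prj (dl b (dl a u)) w‖ ≤ A * ‖a‖ * ‖b‖ + ‖fderiv ℝ (dl b (dl a u)) w‖ :=
      norm_prod_le_iff.2 ⟨le_add_of_le_of_nonneg n0 (norm_nonneg _),
        le_add_of_nonneg_left (by positivity)⟩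
    refine e3.trans ((add_le_add (mul_le_mul_of_nonneg_left e4 hL0) (mul_le_mul
      (mul_le_mul_of_nonneg_left (l a m1) hL0) (l b m2) (norm_nonneg _) (by positivity))).trans
      (le_of_eq (by ring)))
  have k1 := hC V _ z _ fun w hw => key w (t_e_sub hz (by linarith) hw)
  refine (key z (closedBall_subset_closedBall (by linarith) hz)).2.2.trans
    ((mul_le_mul_of_nonneg_left (add_le_add le_rfl k1) hL0).trans (le_of_eq (by ring)))

/-- Interpolation between a small gradient and a bounded Laplacian of differences. -/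
theorem t_e_small {a b : ℂ → V} {ε M d : ℝ} (hR : 0 < R) (hd : 0 < d) (hε : 0 ≤ ε) (hM : 0 ≤ M)
    (h1 : ∀ w ∈ closedBall z₀ (2 * R), ContDiffAt ℝ 2 a w ∧ ContDiffAt ℝ 2 b w ∧
      ‖fderiv ℝ a w - fderiv ℝ b w‖ ≤ ε)
    (h2 : ∀ k : ℂ, ‖k‖ ≤ R → ∀ w ∈ closedBall z₀ R,
      ‖lp (dl k a) w‖ ≤ M * ‖k‖ ∧ ‖lp (dl k b) w‖ ≤ M * ‖k‖)
    {z : ℂ} (hz : closedBall z (2 * d) ⊆ closedBall z₀ R) :
    ‖fderiv ℝ (fderiv ℝ a) z - fderiv ℝ (fderiv ℝ b) z‖ ≤ 4 * ε / d + 2 * M * d := by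
  have s : closedBall z₀ R ⊆ closedBall z₀ (2 * R) := closedBall_subset_closedBall (by linarith)
  have mz := hz (mem_closedBall_self (by positivity))
  refine ((t_e_fd (h1 z (s mz)).1).sub (t_e_fd (h1 z (s mz)).2.1)).le_of_lip' (by positivity) ?_
  filter_upwards [closedBall_mem_nhds z hR] with y hy
  obtain ⟨k, rfl⟩ : ∃ k, y = z + k := ⟨y - z, by ring⟩
  rw [mem_closedBall, dist_eq_norm, add_sub_cancel_left] at hy
  have c : ∀ w ∈ closedBall z₀ R, ContDiffAt ℝ 2 (dl k a) w ∧ ContDiffAt ℝ 2 (dl k b) w :=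
    fun w hw => by
      have m := t_e_mem hw hy (two_mul R).ge
      exact ⟨t_e_dl (h1 _ (s hw)).1 (h1 _ m).1, t_e_dl (h1 _ (s hw)).2.1 (h1 _ m).2.1⟩
  have := t_e_ge (u := fun w => dl k a w - dl k b w) (z := z) (N := ε * ‖k‖)
    (M := M * ‖k‖ + M * ‖k‖) hd fun w hw => by
      have m0 := hz hw
      refine ⟨(c w m0).1.sub (c w m0).2, ?_, ?_⟩
      · have := (convex_closedBall z₀ (2 * R)).norm_image_sub_le_of_norm_hasFDerivWithin_le (𝕜 := ℝ)
          (f := fun w => a w - b w) (fun w hw => ((t_e_ev (h1 w hw).1).self_of_nhds.sub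
            (t_e_ev (h1 w hw).2.1).self_of_nhds).hasFDerivWithinAt) (fun w hw => (h1 w hw).2.2)
          (s m0) (t_e_mem m0 hy (two_mul R).ge)
        rwa [add_sub_cancel_left, sub_sub_sub_comm] at this
      · have := t_e_lp_comb 1 1 (c w m0).1 (c w m0).2
        simp only [one_smul] at this
        exact this ▸ (norm_sub_le _ _).trans (add_le_add (h2 k hy w m0).1 (h2 k hy w m0).2)
  have m := t_e_mem mz hy (two_mul R).ge
  have d2 : ∀ {f : ℂ → V} {w}, ContDiffAt ℝ 2 f w → DifferentiableAt ℝ f w := fun h =>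
    h.differentiableAt two_ne_zero
  rw [fderiv_fun_sub (d2 (c z mz).1) (d2 (c z mz).2), t_e_fd_dl (d2 (h1 _ (s mz)).1) (d2 (h1 _ m).1),
    t_e_fd_dl (d2 (h1 _ (s mz)).2.1) (d2 (h1 _ m).2.1), dl, dl, sub_sub_sub_comm] at this
  rw [add_sub_cancel_left]
  exact this.trans (le_of_eq (by ring))

end Pool.Agent.Lib.MP_ccffa6_gt
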