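import Pool.Agent.Lib.MP_ccffa6_gt.T.EReg

/-! Interior estimates and the selection lemma. -/

open Set Filter Topology Metric
open scoped ContDiff

noncomputable section

namespace Pool.Agent.Lib.MP_ccffa6_gt

variable {V : Type} [NormedAddCommGroup V] [NormedSpace ℝ V] [FiniteDimensional ℝ V]
  {G : PV V → V} {U : Set ℂ}

theorem t_e_est1 (hG : ContDiff ℝ ∞ G) (hU : IsOpen U) {ι : Type} {u : ι → ℂ → V}
    (hu : ∀ i, ∀ w ∈ U, ContDiffAt ℝ 3 (u i) w) (h : ∀ i, Ell G (u i) U) {A : ℝ}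
    (hA : ∀ i, ∀ w ∈ U, ‖prj (u i) w‖ ≤ A) {K : Set ℂ} (hK : IsCompact K) (hKU : K ⊆ U) :
    ∃ (U' : Set ℂ) (C : ℝ), IsOpen U' ∧ K ⊆ U' ∧ U' ⊆ U ∧
      ∀ i, ∀ w ∈ U', ‖prj (prj (u i)) w‖ ≤ C := by
  obtain ⟨K', c1, c2, c3⟩ := exists_compact_between hK hU hKU
  obtain ⟨R, hR, s⟩ := c1.exists_cthickening_subset_open hU c3
  obtain ⟨L, hL0, hL⟩ := t_e_Gb hG A
  obtain ⟨C, -, hC⟩ := t_e_ab hR hL0
  refine ⟨interior K', max A (C * max A 1), isOpen_interior, c2, interior_subset.trans c3,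
    fun i z hz => norm_prod_le_iff.2 ⟨le_max_of_le_left (hA i z (c3 (interior_subset hz))),
      le_max_of_le_right (hC _ _ z _ fun w hw => ?_)⟩⟩
  have m := s (closedBall_subset_cthickening (interior_subset hz) R hw)
  have b := hL _ (mem_closedBall_zero_iff.2 (hA i w m))
  have e : 1 ≤ max A 1 := le_max_right _ _
  have n := norm_nonneg (fderiv ℝ (prj (u i)) w)
  refine ⟨t_e_pr (hu i w m) (by norm_num), le_max_of_le_left (hA i w m), ?_⟩
  rw [t_e_prol hG hU (hu i) (h i) w m]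
  refine norm_prod_le_iff.2 ⟨b.1.trans (by nlinarith),
    (ContinuousLinearMap.opNorm_comp_le _ _).trans (mul_le_mul b.2.1 ?_ n hL0)⟩
  exact le_add_of_nonneg_left (by linarith)

theorem t_e_estn (j : ℕ) : ∀ (V : Type) [NormedAddCommGroup V] [NormedSpace ℝ V]
    [FiniteDimensional ℝ V] (G : PV V → V) (ι : Type) (u : ι → ℂ → V) (U : Set ℂ) (A : ℝ),
    ContDiff ℝ ∞ G → IsOpen U → (∀ i, ∀ w ∈ U, ContDiffAt ℝ ∞ (u i) w) → (∀ i, Ell G (u i) U) →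
    (∀ i, ∀ w ∈ U, ‖prj (u i) w‖ ≤ A) → ∀ K : Set ℂ, IsCompact K → K ⊆ U →
    ∃ C : ℝ, ∀ i, ∀ z ∈ K, ‖iteratedFDeriv ℝ j (u i) z‖ ≤ C := by
  induction j with
  | zero =>
    exact fun V _ _ _ G ι u U A _ _ _ _ hA K _ s => ⟨A, fun i z hz =>
      norm_iteratedFDeriv_zero.trans_le (norm_prod_le_iff.1 (hA i z (s hz))).1⟩
  | succ j ih =>
    intro V _ _ _ G ι u U A hG hU hu h hA K hK s
    have h3 : ∀ i, ∀ w ∈ U, ContDiffAt ℝ 3 (u i) w := fun i w hw =>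
      (hu i w hw).of_le (by norm_cast)
    obtain ⟨U', A', o, s1, s2, b⟩ := t_e_est1 hG hU h3 h hA hK s
    have c : ∀ i, ∀ w ∈ U', ContDiffAt ℝ ∞ (prj (u i)) w := fun i w hw =>
      t_e_pr (hu i w (s2 hw)) le_rfl
    obtain ⟨C, hC⟩ := ih (PV V) (prG G) ι (fun i => prj (u i)) U' A' (t_e_prG hG) o c
      (fun i w hw => t_e_prol hG hU (h3 i) (h i) w (s2 hw)) b K hK s1
    refine ⟨‖ContinuousLinearMap.snd ℝ V (ℂ →L[ℝ] V)‖ * C, fun i z hz => ?_⟩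
    rw [← norm_iteratedFDeriv_fderiv]
    exact ((ContinuousLinearMap.snd ℝ V (ℂ →L[ℝ] V)).norm_iteratedFDeriv_comp_left (c i z (s1 hz))
      (by exact_mod_cast le_top)).trans (mul_le_mul_of_nonneg_left (hC i z hz) (norm_nonneg _))

theorem t_e_aa {Y : Type} [NormedAddCommGroup Y] [ProperSpace Y] {f : ℕ → ℂ → Y} (hU : IsOpen U)
    (h : ∀ z ∈ U, ∃ r > 0, ∃ C > 0, ∀ᶠ i in atTop, ∀ a ∈ ball z r, ‖f i a‖ ≤ C ∧
      ∀ b ∈ ball z r, dist (f i a) (f i b) ≤ C * dist a b) :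
    ∃ (φ : ℕ → ℕ) (g : ℂ → Y), StrictMono φ ∧ ContinuousOn g U ∧
      TendstoLocallyUniformlyOn (fun i => f (φ i)) g atTop U := by
  obtain ⟨D, hc, hD⟩ := TopologicalSpace.exists_countable_dense ℂ
  have := (hc.mono (inter_subset_left (t := U))).to_subtype
  have b : ∀ d : ↥(D ∩ U), ∃ C : ℝ, ∀ i, ‖f i d‖ ≤ C := fun d => by
    obtain ⟨r, hr, C, -, e⟩ := h d d.2.2
    obtain ⟨C', hC'⟩ := (isBoundedUnder_of_eventually_le (e.mono fun i hi =>
      (hi d (mem_ball_self hr)).1)).bddAbove_range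
    exact ⟨C', fun i => hC' ⟨i, rfl⟩⟩
  choose B hB using b
  obtain ⟨a, -, φ, hφ, ha⟩ := (isCompact_univ_pi fun d => isCompact_closedBall (0 : Y) (B d)
    ).tendsto_subseq (x := fun i (d : ↥(D ∩ U)) => f i d) fun i d _ => mem_closedBall_zero_iff.2 (hB d i)
  have k : ∀ z ∈ U, ∀ ε > 0, ∃ δ > 0, ∀ᶠ i in atTop, ∀ a ∈ ball z δ,
      dist (f (φ i) a) (f (φ i) z) ≤ ε := fun z hz ε hε => by
    obtain ⟨r, hr, C, hC, e⟩ := h z hz
    refine ⟨min r (ε / C), lt_min hr (by positivity), (hφ.tendsto_atTop.eventually e).mono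
      fun i hi a ha => ?_⟩
    have := lt_min_iff.1 (mem_ball.1 ha)
    exact ((hi a this.1).2 z (mem_ball_self hr)).trans ((le_div_iff₀' hC).1 this.2.le)
  have c : ∀ z ∈ U, Tendsto (fun i => f (φ i) z) atTop
      (𝓝 (limUnder atTop fun i => f (φ i) z)) := fun z hz => by
    refine CauchySeq.tendsto_limUnder (Metric.cauchySeq_iff.2 fun ε hε => ?_)
    obtain ⟨δ, hδ, e⟩ := k z hz (ε / 3) (by positivity)
    obtain ⟨d, ⟨d1, d2⟩, d3⟩ := hD.inter_open_nonempty _ (isOpen_ball.inter hU)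
      ⟨z, mem_ball_self hδ, hz⟩
    obtain ⟨N, hN⟩ := eventually_atTop.1 e
    obtain ⟨M, hM⟩ := Metric.cauchySeq_iff.1 ((tendsto_pi_nhds.1 ha ⟨d, d3, d2⟩).cauchySeq) (ε / 3)
      (by positivity)
    refine ⟨max N M, fun m hm n hn => ?_⟩
    have e1 := hN m (le_of_max_le_left hm) d d1
    have e2 := hN n (le_of_max_le_left hn) d d1
    have e3 : dist (f (φ m) d) (f (φ n) d) < ε / 3 :=
      hM m (le_of_max_le_right hm) n (le_of_max_le_right hn)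
    have := dist_triangle4 (f (φ m) z) (f (φ m) d) (f (φ n) d) (f (φ n) z)
    rw [dist_comm] at e1
    linarith
  have l : ∀ z ∈ U, ∀ ε > 0, ∃ δ > 0, (∀ᶠ i in atTop, ∀ a ∈ ball z δ,
      dist (f (φ i) a) (f (φ i) z) ≤ ε) ∧ ∀ a ∈ U, dist a z < δ →
        dist (limUnder atTop fun i => f (φ i) a) (limUnder atTop fun i => f (φ i) z) ≤ ε :=
    fun z hz ε hε => (k z hz ε hε).imp fun δ e => ⟨e.1, e.2, fun a ha d =>
      le_of_tendsto ((c a ha).dist (c z hz)) (e.2.mono fun i hi => hi a d)⟩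
  refine ⟨φ, fun z => limUnder atTop fun i => f (φ i) z, hφ, Metric.continuousOn_iff.2
    fun z hz ε hε => (l z hz _ (half_pos hε)).imp fun δ e => ⟨e.1, fun a ha d =>
      (e.2.2 a ha d).trans_lt (half_lt_self hε)⟩,
    Metric.tendstoLocallyUniformlyOn_iff.2 fun ε hε z hz => ?_⟩
  obtain ⟨δ, hδ, e1, e2⟩ := l z hz (ε / 3) (by positivity)
  refine ⟨U ∩ ball z δ, inter_mem_nhdsWithin _ (ball_mem_nhds z hδ), ?_⟩
  filter_upwards [e1, Metric.tendsto_nhds.1 (c z hz) (ε / 3) (by positivity)] with i h1 h2 y hy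
  have := dist_triangle4 (limUnder atTop fun i => f (φ i) y) (limUnder atTop fun i => f (φ i) z)
    (f (φ i) z) (f (φ i) y)
  have e3 := h1 y hy.2
  rw [dist_comm] at h2 e3
  linarith [e2 y hy.1 hy.2]

end Pool.Agent.Lib.MP_ccffa6_gt
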