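import Pool.Agent.Lib.MP_ccffa6_gt.T.Defs

/-! The gradient estimate for the Laplacian, by the maximum principle. -/

open Set Filter Topology Metric
open scoped ContDiff

noncomputable section

namespace Pool.Agent.Lib.MP_ccffa6_gt

variable {V : Type} [NormedAddCommGroup V] [NormedSpace ℝ V]

/-- The Laplacian. -/
def lp (u : ℂ → V) (z : ℂ) : V :=
  fderiv ℝ (fderiv ℝ u) z 1 1 + fderiv ℝ (fderiv ℝ u) z Complex.I Complex.I

theorem t_e_max {g g' : ℝ → ℝ} {a c : ℝ} (hm : IsLocalMax g a)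
    (h1 : ∀ᶠ x in 𝓝 a, HasDerivAt g (g' x) x) (h2 : HasDerivAt g' c a) : c ≤ 0 := by
  by_contra hc
  have e1 : deriv g =ᶠ[𝓝 a] g' := h1.mono fun x hx => hx.deriv
  have e2 : deriv (deriv g) a = c := e1.deriv_eq.trans h2.deriv
  have hmin := isLocalMin_of_deriv_deriv_pos (e2 ▸ not_le.1 hc) hm.deriv_eq_zero
    h1.self_of_nhds.continuousAt
  have e3 : g =ᶠ[𝓝 a] fun _ => g a := (hm.and hmin).mono fun x hx => le_antisymm hx.1 hx.2
  have e4 : deriv g =ᶠ[𝓝 a] fun _ => 0 := e3.deriv.trans (by simp)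
  rw [e4.deriv_eq, deriv_const] at e2
  exact hc e2.ge

theorem t_e_line (p e : ℂ) (x : ℝ) : HasDerivAt (fun x : ℝ => p + x • e) e x := by
  simpa using ((hasDerivAt_id x).smul_const e).const_add p

theorem t_e_fd {u : ℂ → V} {z : ℂ} (h : ContDiffAt ℝ 2 u z) :
    HasFDerivAt (fderiv ℝ u) (fderiv ℝ (fderiv ℝ u) z) z :=
  ((h.fderiv_right (m := 1) (by norm_num)).differentiableAt one_ne_zero).hasFDerivAt

theorem t_e_ev {u : ℂ → V} {z : ℂ} (h : ContDiffAt ℝ 2 u z) :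
    ∀ᶠ w in 𝓝 z, HasFDerivAt u (fderiv ℝ u w) w :=
  (h.eventually (by simp)).mono fun _ hw => (hw.differentiableAt two_ne_zero).hasFDerivAt

theorem t_e_sl {u : ℂ → V} (l : V →L[ℝ] ℝ) {p e : ℂ} {a : ℝ} (h : ContDiffAt ℝ 2 u (p + a • e)) :
    (∀ᶠ x in 𝓝 a, HasDerivAt (fun x : ℝ => l (u (p + x • e))) (l (fderiv ℝ u (p + x • e) e)) x) ∧
    HasDerivAt (fun x : ℝ => l (fderiv ℝ u (p + x • e) e))
      (l (fderiv ℝ (fderiv ℝ u) (p + a • e) e e)) a :=
  ⟨((t_e_line p e a).continuousAt.eventually (t_e_ev h)).mono fun x hx =>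
    l.hasFDerivAt.comp_hasDerivAt x (hx.comp_hasDerivAt x (t_e_line p e x)),
   l.hasFDerivAt.comp_hasDerivAt a ((ContinuousLinearMap.apply ℝ V e).hasFDerivAt.comp_hasDerivAt a
    ((t_e_fd h).comp_hasDerivAt a (t_e_line p e a)))⟩

theorem t_e_core {u : ℂ → V} {z e f : ℂ} {d N M : ℝ} (hd : 0 < d) (he : ‖e‖ = 1) (hf : ‖f‖ = 1)
    (hu : ∀ w ∈ closedBall z (2 * d), ContDiffAt ℝ 2 u w ∧ ‖u w‖ ≤ N ∧
      ‖fderiv ℝ (fderiv ℝ u) w e e + fderiv ℝ (fderiv ℝ u) w f f‖ < M)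
    {l : V →L[ℝ] ℝ} (hl : ‖l‖ ≤ 1) : l (fderiv ℝ u z e) ≤ 2 * N / d + M * d / 2 := by
  have hb : ∀ v, |l v| ≤ ‖v‖ := fun v => (l.le_of_opNorm_le hl v).trans (one_mul _).le
  have hz := hu z (mem_closedBall_self (by positivity))
  have hN : 0 ≤ N := (norm_nonneg _).trans hz.2.1
  have hM : 0 ≤ M := (norm_nonneg _).trans hz.2.2.le
  obtain ⟨n, hn⟩ : ∃ n, n * d ^ 2 = 2 * N := ⟨2 * N / d ^ 2, by field_simp⟩
  have hn0 : 0 ≤ n := nonneg_of_mul_nonneg_left (hn ▸ by positivity) (by positivity : 0 < d ^ 2)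
  let K : Set (ℝ × ℝ) := Icc (-d) d ×ˢ Icc 0 d
  have hm : ∀ q ∈ K, ∀ e' : ℂ, ‖e'‖ = 1 → z + q.1 • f + q.2 • e' ∈ closedBall z (2 * d) :=
    fun q hq e' he' => by
      rw [mem_closedBall, dist_eq_norm, add_assoc, add_sub_cancel_left]
      refine (norm_add_le _ _).trans ?_
      rw [norm_smul, norm_smul, hf, he', Real.norm_eq_abs, Real.norm_eq_abs, abs_of_nonneg hq.2.1]
      linarith [abs_le.2 hq.1, hq.2.2]
  have he' : ‖-e‖ = 1 := (norm_neg e).trans he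
  let Φ : ℝ × ℝ → ℝ := fun q => l (u (z + q.1 • f + q.2 • e)) - l (u (z + q.1 • f + q.2 • -e)) -
    (n * (q.1 ^ 2 + 2 * d * q.2 - q.2 ^ 2) + M * (q.2 * (d - q.2)))
  have hc : ∀ e' : ℂ, ‖e'‖ = 1 → ContinuousOn (fun q : ℝ × ℝ => l (u (z + q.1 • f + q.2 • e'))) K :=
    fun e' h q hq => (l.continuous.continuousAt.comp (ContinuousAt.comp
      (f := fun q : ℝ × ℝ => z + q.1 • f + q.2 • e') (hu _ (hm q hq e' h)).1.continuousAt
      (by fun_prop))).continuousWithinAt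
  have h00 : ((0 : ℝ), (0 : ℝ)) ∈ K := ⟨⟨by linarith, hd.le⟩, le_rfl, hd.le⟩
  obtain ⟨⟨s, t⟩, hq, hmax⟩ := (isCompact_Icc.prod isCompact_Icc : IsCompact K).exists_isMaxOn
    ⟨_, h00⟩ (f := Φ) (((hc e he).sub (hc _ he')).sub (by fun_prop))
  have h1 := hu _ (hm _ hq e he)
  have h2 := hu _ (hm _ hq _ he')
  have h0 : Φ (s, t) ≤ 0 := by
    have b1 := (abs_le.1 ((hb _).trans h1.2.1)).2
    have b2 := (abs_le.1 ((hb _).trans h2.2.1)).1
    obtain ⟨⟨s1, s2⟩, t1, t2⟩ := id hq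
    simp only at s1 s2 t1 t2 b1 b2 h1 h2
    have p1 : 0 ≤ M * (t * (d - t)) := mul_nonneg hM (mul_nonneg t1 (sub_nonneg.2 t2))
    have p2 : 0 ≤ n * (t * (2 * d - t)) := mul_nonneg hn0 (mul_nonneg t1 (by linarith))
    have p3 : 0 ≤ n * s ^ 2 := by positivity
    by_cases a1 : t = 0
    · subst a1
      simpa [Φ] using p3
    by_cases a2 : t = d
    · simp only [Φ]
      rw [a2] at b1 b2 ⊢
      nlinarith
    by_cases a3 : s ^ 2 = d ^ 2
    · simp only [Φ]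
      rw [a3]
      nlinarith
    exfalso
    have hK : K ∈ 𝓝 (s, t) := prod_mem_nhds
      (Icc_mem_nhds (s1.lt_of_ne fun h => a3 (by rw [← h]; ring)) (s2.lt_of_ne fun h => a3 (by rw [h])))
      (Icc_mem_nhds (t1.lt_of_ne (Ne.symm a1)) (t2.lt_of_ne a2))
    have hL := hmax.isLocalMax hK
    have q1 := t_e_sl l h1.1
    have q2 := t_e_sl l h2.1
    have r1 := t_e_max (g := fun x => Φ (s, x)) (hL.comp_continuous (g := fun x => (s, x))
      (by fun_prop)) (g' := fun x => l (fderiv ℝ u (z + s • f + x • e) e) -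
        l (fderiv ℝ u (z + s • f + x • -e) (-e)) - (n * (2 * d - 2 * x) + M * (d - 2 * x)))
      ((q1.1.and q2.1).mono fun x hx => (hx.1.sub hx.2).sub (by
        have := hasDerivAt_id' x
        refine (((((hasDerivAt_const x (s ^ 2)).add (this.const_mul (2 * d))).sub
          (this.pow 2)).const_mul n).add ((this.mul (this.const_sub d)).const_mul M)).congr_deriv ?_
        simp only [Nat.cast_ofNat, Nat.add_one_sub_one, pow_one]
        ring)) ((q1.2.sub q2.2).sub (by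
        have := hasDerivAt_id' t
        exact ((((this.const_mul 2).const_sub (2 * d)).const_mul n).add
          (((this.const_mul 2).const_sub d).const_mul M))))
    have sw : ∀ (e' : ℂ) (x : ℝ), z + x • f + t • e' = z + t • e' + x • f := fun _ _ =>
      add_right_comm _ _ _
    have q3 := t_e_sl l (sw e s ▸ h1.1)
    have q4 := t_e_sl l (sw (-e) s ▸ h2.1)
    simp only [← sw] at q3 q4
    have r2 := t_e_max (g := fun x => Φ (x, t)) (hL.comp_continuous (g := fun x => (x, t))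
      (by fun_prop)) (g' := fun x => l (fderiv ℝ u (z + x • f + t • e) f) -
        l (fderiv ℝ u (z + x • f + t • -e) f) - n * (2 * x))
      ((q3.1.and q4.1).mono fun x hx => (hx.1.sub hx.2).sub (by
        have := hasDerivAt_id' x
        refine ((((((this.pow 2).add_const (2 * d * t))).sub_const (t ^ 2)).const_mul n).add_const
          (M * (t * (d - t)))).congr_deriv ?_
        simp)) ((q3.2.sub q4.2).sub (((hasDerivAt_id' s).const_mul 2).const_mul n))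
    have c1 := (abs_lt.1 ((hb _).trans_lt h1.2.2)).1
    have c2 := (abs_lt.1 ((hb _).trans_lt h2.2.2)).2
    simp only [map_neg, map_add, neg_apply, neg_neg] at r1 c1 c2
    linarith
  have q1 := (t_e_sl l (p := z + (0 : ℝ) • f) (a := 0) (hu _ (hm _ h00 e he)).1).1.self_of_nhds
  have q2 := (t_e_sl l (p := z + (0 : ℝ) • f) (a := 0) (hu _ (hm _ h00 _ he')).1).1.self_of_nhds
  have q3 : HasDerivAt (fun x => Φ (0, x)) (2 * l (fderiv ℝ u z e) - (n * (2 * d) + M * d)) 0 := by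
    have := hasDerivAt_id' (0 : ℝ)
    refine ((q1.sub q2).sub (((((hasDerivAt_const 0 ((0 : ℝ) ^ 2)).add (this.const_mul (2 * d))).sub
      (this.pow 2)).const_mul n).add ((this.mul (this.const_sub d)).const_mul M))).congr_deriv ?_
    simp
    ring
  have q4 := le_of_tendsto q3.tendsto_slope_zero_right (b := 0) (by
    filter_upwards [Ioo_mem_nhdsGT hd] with x hx
    have : Φ (0, x) ≤ 0 := (hmax (show (0, x) ∈ K from ⟨h00.1, hx.1.le, hx.2.le⟩)).trans h0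
    have e0 : Φ (0, 0) = 0 := by simp [Φ]
    rw [zero_add, e0, sub_zero, smul_eq_mul]
    exact mul_nonpos_of_nonneg_of_nonpos (inv_nonneg.2 hx.1.le) this)
  have : 2 * N / d = n * d := by rw [← hn]; field_simp
  linarith

theorem t_e_split (A : ℂ →L[ℝ] V) : ‖A‖ ≤ ‖A 1‖ + ‖A Complex.I‖ := by
  refine A.opNorm_le_bound (by positivity) fun v => ?_
  have e : A v = v.re • A 1 + v.im • A Complex.I := by
    rw [← map_smul, ← map_smul, ← map_add]
    simp
  rw [e]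
  refine (norm_add_le _ _).trans ?_
  rw [norm_smul, norm_smul, add_mul, mul_comm, mul_comm ‖v.im‖]
  gcongr
  exacts [Complex.abs_re_le_norm v, Complex.abs_im_le_norm v]

/-- The gradient estimate. -/
theorem t_e_ge {u : ℂ → V} {z : ℂ} {d N M : ℝ} (hd : 0 < d)
    (hu : ∀ w ∈ closedBall z (2 * d), ContDiffAt ℝ 2 u w ∧ ‖u w‖ ≤ N ∧ ‖lp u w‖ ≤ M) :
    ‖fderiv ℝ u z‖ ≤ 4 * N / d + M * d := by
  refine le_of_forall_pos_le_add fun ε hε => (t_e_split _).trans ?_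
  have h' : M < M + ε / d := lt_add_of_pos_right _ (by positivity)
  obtain ⟨l, hl, e1⟩ := exists_dual_vector'' ℝ (fderiv ℝ u z 1)
  obtain ⟨l', hl', e2⟩ := exists_dual_vector'' ℝ (fderiv ℝ u z Complex.I)
  have h1 := t_e_core hd norm_one Complex.norm_I
    (fun w hw => ⟨(hu w hw).1, (hu w hw).2.1, (hu w hw).2.2.trans_lt h'⟩) hl
  have h2 := t_e_core hd Complex.norm_I norm_one
    (fun w hw => ⟨(hu w hw).1, (hu w hw).2.1, by
      rw [add_comm]
      exact (hu w hw).2.2.trans_lt h'⟩) hl'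
  have : (M + ε / d) * d = M * d + ε := by field_simp
  have : 4 * N / d = 2 * (2 * N / d) := by ring
  rw [e1] at h1
  rw [e2] at h2
  simp only [RCLike.ofReal_real_eq_id, id] at h1 h2
  linarith

/-- Absorption of the gradient term. -/
theorem t_e_ab {R L : ℝ} (hR : 0 < R) (hL : 0 ≤ L) : ∃ C : ℝ, 0 ≤ C ∧
    ∀ (V : Type) [NormedAddCommGroup V] [NormedSpace ℝ V] (u : ℂ → V) (z : ℂ) (c : ℝ),
      (∀ w ∈ closedBall z R, ContDiffAt ℝ 2 u w ∧ ‖u w‖ ≤ c ∧
        ‖lp u w‖ ≤ L * (c + ‖fderiv ℝ u w‖)) → ‖fderiv ℝ u z‖ ≤ C * c := by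
  obtain ⟨θ, h0, h1⟩ : ∃ θ : ℝ, 0 < θ ∧ θ * (4 * (1 + L * R)) = 1 :=
    ⟨(4 * (1 + L * R))⁻¹, by positivity, inv_mul_cancel₀ (by positivity)⟩
  have h2 : θ * (L * R) ≤ 1 / 4 := by nlinarith
  have h3 : θ ≤ 1 / 4 := by nlinarith [mul_nonneg h0.le (mul_nonneg hL hR.le)]
  refine ⟨(8 / θ + 2 * θ * R ^ 2 * L) / R, by positivity, fun V _ _ u z c hu => ?_⟩
  have hz := mem_closedBall_self (x := z) hR.le
  have hc : 0 ≤ c := (norm_nonneg _).trans (hu z hz).2.1
  obtain ⟨p, hp, hmax⟩ := (isCompact_closedBall z R).exists_isMaxOn ⟨z, hz⟩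
    (f := fun w => (R - dist w z) * ‖fderiv ℝ u w‖) fun w hw => ContinuousAt.continuousWithinAt
      ((by fun_prop : ContinuousAt (fun w => R - dist w z) w).mul (t_e_fd (hu w hw).1).continuousAt.norm)
  obtain ⟨ρ, hρ⟩ : ∃ ρ, ρ = R - dist p z := ⟨_, rfl⟩
  obtain ⟨g, hg⟩ : ∃ g, g = ‖fderiv ℝ u p‖ := ⟨_, rfl⟩
  have hg0 : 0 ≤ g := hg ▸ norm_nonneg _
  have hm : ∀ w ∈ closedBall z R, (R - dist w z) * ‖fderiv ℝ u w‖ ≤ ρ * g := fun w hw =>
    hρ ▸ hg ▸ hmax hw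
  have k : ρ * g ≤ (8 / θ + 2 * θ * R ^ 2 * L) * c := by
    rcases (hρ ▸ sub_nonneg.2 (mem_closedBall.1 hp) : 0 ≤ ρ).eq_or_lt with e | e
    · rw [← e, zero_mul]
      positivity
    have hρR : ρ ≤ R := hρ ▸ sub_le_self _ dist_nonneg
    have := t_e_ge (u := u) (z := p) (N := c) (M := L * (c + 2 * g)) (mul_pos h0 e) fun w hw => by
      have d1 : dist w z ≤ R - ρ / 2 := by
        have := dist_triangle w p z
        have := mem_closedBall.1 hw
        nlinarith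
      have d2 : w ∈ closedBall z R := mem_closedBall.2 (by linarith)
      refine ⟨(hu w d2).1, (hu w d2).2.1, (hu w d2).2.2.trans ?_⟩
      gcongr
      refine le_of_mul_le_mul_left ?_ (half_pos e)
      have := hm w d2
      nlinarith [norm_nonneg (fderiv ℝ u w)]
    rw [← hg] at this
    have e1 : ρ * (4 * c / (θ * ρ)) = 4 / θ * c := by field_simp
    have e2 := mul_le_mul_of_nonneg_left this e.le
    have e3 : θ * L * c * ρ ^ 2 ≤ θ * L * c * R ^ 2 := by gcongr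
    have e4 : θ * (L * ρ) * (ρ * g) ≤ 1 / 4 * (ρ * g) :=
      mul_le_mul_of_nonneg_right (le_trans (by gcongr) h2) (by positivity)
    rw [mul_add, e1] at e2
    have e5 : 8 / θ = 2 * (4 / θ) := by ring
    nlinarith
  have := (hm z hz).trans k
  rw [dist_self, sub_zero] at this
  rw [div_mul_eq_mul_div, le_div_iff₀ hR]
  linarith

end Pool.Agent.Lib.MP_ccffa6_gt
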