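import Pool.Agent.Lib.MP_ccffa6_gt.T.EDif

/-! Regularity. -/

open Set Filter Topology Metric
open scoped ContDiff

noncomputable section

namespace Pool.Agent.Lib.MP_ccffa6_gt

variable {V W : Type} [NormedAddCommGroup V] [NormedSpace ℝ V] [NormedAddCommGroup W]
  [NormedSpace ℝ W]

theorem t_e_lim [CompleteSpace W] {g : ℕ → ℂ → W} {f : ℂ → W} {B : Set ℂ} (hB : IsOpen B)
    (h1 : ∀ n, ∀ w ∈ B, ContDiffAt ℝ 1 (g n) w)
    (h2 : ∀ w ∈ B, Tendsto (fun n => g n w) atTop (𝓝 (f w)))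
    (h3 : UniformCauchySeqOn (fun n => fderiv ℝ (g n)) atTop B) {z : ℂ} (hz : z ∈ B) :
    ContDiffAt ℝ 1 f z := by
  have h4 := h3.tendstoUniformlyOn_of_tendsto
    (f := fun w => limUnder atTop fun n => fderiv ℝ (g n) w)
    fun w hw => (h3.cauchySeq hw).tendsto_limUnder
  exact contDiffAt_one_iff.2 ⟨_, B, hB.mem_nhds hz, h4.continuousOn (Frequently.of_forall
    fun n w hw => ((h1 n w hw).fderiv_right (m := 0) (by norm_num)).continuousAt.continuousWithinAt),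
    fun w hw => hasFDerivAt_of_tendstoUniformlyOn hB h4
      (fun n w hw => ((h1 n w hw).differentiableAt one_ne_zero).hasFDerivAt) h2 hw⟩

theorem t_e_succ {u : ℂ → V} {z : ℂ} {n : ℕ} (h : ContDiffAt ℝ 1 u z)
    (h' : ContDiffAt ℝ n (fderiv ℝ u) z) : ContDiffAt ℝ (n + 1 : ℕ) u z :=
  contDiffAt_succ_iff_hasFDerivAt.2 ⟨_, ⟨_, h.eventually (by simp), fun _ hw =>
    (ContDiffAt.differentiableAt (n := 1) (f := u) hw one_ne_zero).hasFDerivAt⟩, h'⟩

theorem t_e_uc {X : Type} [NormedAddCommGroup X] {f : ℂ → X} {K : Set ℂ} (hK : IsCompact K)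
    (hf : ContinuousOn f K) {ε : ℝ} (hε : 0 < ε) :
    ∃ δ > 0, ∀ x ∈ K, ∀ y ∈ K, dist x y < δ → ‖f x - f y‖ < ε := by
  simpa only [dist_eq_norm (f _)] using
    Metric.uniformContinuousOn_iff.1 (hK.uniformContinuousOn_of_continuous hf) ε hε

variable {G : PV V → V} {u : ℂ → V} {z₀ : ℂ} {R : ℝ} {U : Set ℂ}

theorem t_e_quot (hu : ∀ w ∈ closedBall z₀ (4 * R), ContDiffAt ℝ 2 u w) (e : ℂ) {ε : ℝ}
    (hε : 0 < ε) : ∃ δ > 0, ∀ t : ℝ, 0 < t → t * ‖e‖ ≤ R → t * ‖e‖ < δ →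
      ∀ w ∈ closedBall z₀ (2 * R),
        ‖fderiv ℝ (fun w => t⁻¹ • dl (t • e) u w) w - fderiv ℝ (fderiv ℝ u) w e‖ ≤ ε * ‖e‖ := by
  obtain ⟨δ, hδ, h⟩ := t_e_uc (isCompact_closedBall z₀ (4 * R))
    (f := fderiv ℝ (fderiv ℝ u)) (fun w hw => (((hu w hw).fderiv_right (m := 1)
      (by norm_num)).fderiv_right (m := 0) (by norm_num)).continuousAt.continuousWithinAt) hε
  refine ⟨δ, hδ, fun t ht h1 h2 w hw => ?_⟩
  have hR : 0 ≤ R := le_trans (by positivity) h1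
  have n : ‖t • e‖ = t * ‖e‖ := by rw [norm_smul, Real.norm_of_nonneg ht.le]
  have s : closedBall w (t * ‖e‖) ⊆ closedBall z₀ (4 * R) := t_e_sub hw (by linarith)
  have m0 : w ∈ closedBall w (t * ‖e‖) := mem_closedBall_self (by positivity)
  have m1 : w + t • e ∈ closedBall w (t * ‖e‖) := by
    rw [mem_closedBall, dist_eq_norm, add_sub_cancel_left, n]
  have := (convex_closedBall w (t * ‖e‖)).norm_image_sub_le_of_norm_fderiv_le' (𝕜 := ℝ)
    (f := fderiv ℝ u) (φ := fderiv ℝ (fderiv ℝ u) w) (C := ε)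
    (fun y hy => (t_e_fd (hu y (s hy))).differentiableAt) 
    (fun y hy => (h y (s hy) w (s m0) ((mem_closedBall.1 hy).trans_lt h2)).le) m0 m1
  have d0 := (hu _ (s m0)).differentiableAt two_ne_zero
  have d1 := (hu _ (s m1)).differentiableAt two_ne_zero
  rw [add_sub_cancel_left, n, map_smul] at this
  rw [fderiv_fun_const_smul ((t_e_dl (hu _ (s m0)) (hu _ (s m1))).differentiableAt two_ne_zero),
    t_e_fd_dl d0 d1, dl, ← inv_smul_smul₀ ht.ne' (fderiv ℝ (fderiv ℝ u) w e), ← smul_sub, norm_smul,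
    Real.norm_of_nonneg (inv_nonneg.2 ht.le), inv_mul_le_iff₀ ht]
  exact this.trans (le_of_eq (by ring))

theorem t_e_reg3' [FiniteDimensional ℝ V] (hG : ContDiff ℝ ∞ G) (hR : 0 < R)
    (hu : ∀ w ∈ closedBall z₀ (4 * R), ContDiffAt ℝ 2 u w) (h : Ell G u (closedBall z₀ (4 * R)))
    (e : ℂ) {z : ℂ} (hz : z ∈ ball z₀ (R / 2)) :
    ContDiffAt ℝ 1 (fun w => fderiv ℝ (fderiv ℝ u) w e) z := by
  have := FiniteDimensional.complete ℝ V
  obtain ⟨C, hC0, hC⟩ := t_e_step1 hG hR hu h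
  obtain ⟨r, hr0, hr⟩ : ∃ r : ℝ, 0 < r ∧ r * ‖e‖ ≤ R :=
    ⟨R / (‖e‖ + 1), by positivity, by
      rw [div_mul_eq_mul_div, div_le_iff₀ (by positivity)]
      nlinarith⟩
  let t : ℕ → ℝ := fun n => r * (1 / ((n : ℝ) + 1))
  have t0 : ∀ n, 0 < t n := fun n => by positivity
  have t1 : ∀ n, t n * ‖e‖ ≤ R := fun n => le_trans (mul_le_mul_of_nonneg_right
    (mul_le_of_le_one_right hr0.le (div_le_one_of_le₀ (by simp) (by positivity))) (norm_nonneg _)) hr
  have t2 : Tendsto (fun n => t n * ‖e‖) atTop (𝓝 0) := by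
    simpa [t] using (tendsto_one_div_add_atTop_nhds_zero_nat.const_mul r).mul_const ‖e‖
  have n : ∀ m, ‖t m • e‖ = t m * ‖e‖ := fun m => by rw [norm_smul, Real.norm_of_nonneg (t0 m).le]
  let v : ℕ → ℂ → V := fun n w => (t n)⁻¹ • dl (t n • e) u w
  have c0 : ∀ m, ∀ w ∈ closedBall z₀ (2 * R), ContDiffAt ℝ 2 (dl (t m • e) u) w := fun m w hw =>
    t_e_dl (hu _ (closedBall_subset_closedBall (by linarith) hw))
      (hu _ (t_e_mem hw ((n m).trans_le (t1 m)) (by linarith)))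
  have c : ∀ m, ∀ w ∈ closedBall z₀ (2 * R), ContDiffAt ℝ 2 (v m) w := fun m w hw =>
    (c0 m w hw).const_smul _
  have q : ∀ ε > 0, ∀ᶠ m in atTop, ∀ w ∈ closedBall z₀ (2 * R),
      ‖fderiv ℝ (v m) w - fderiv ℝ (fderiv ℝ u) w e‖ ≤ ε := fun ε hε => by
    obtain ⟨δ, hδ, h⟩ := t_e_quot hu e (ε := ε / (‖e‖ + 1)) (by positivity)
    filter_upwards [t2.eventually (gt_mem_nhds hδ)] with m hm w hw
    refine (h _ (t0 m) (t1 m) hm w hw).trans ?_
    rw [div_mul_eq_mul_div, div_le_iff₀ (by positivity)]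
    nlinarith
  have l : ∀ m, ∀ k : ℂ, ‖k‖ ≤ R → ∀ w ∈ closedBall z₀ R, ‖lp (dl k (v m)) w‖ ≤ C * ‖e‖ * ‖k‖ :=
    fun m k hk w hw => by
      have e1 : dl k (v m) = fun w => ((t m)⁻¹ • ContinuousLinearMap.id ℝ V)
          (dl k (dl (t m • e) u) w) := funext fun w => (smul_sub _ _ _).symm
      rw [e1, t_e_lp_clm _ (t_e_dl (c0 m _ (closedBall_subset_closedBall (by linarith) hw))
        (c0 m _ (t_e_mem hw hk (two_mul R).ge))), smul_apply, ContinuousLinearMap.id_apply,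
        norm_smul, Real.norm_of_nonneg (inv_nonneg.2 (t0 m).le), inv_mul_le_iff₀ (t0 m)]
      exact (hC _ k ((n m).trans_le (t1 m)) hk w hw).trans (le_of_eq (by rw [n]; ring))
  have s : ball z₀ (R / 2) ⊆ closedBall z₀ (2 * R) :=
    ball_subset_closedBall.trans (closedBall_subset_closedBall (by linarith))
  refine t_e_lim (g := fun m => fderiv ℝ (v m)) isOpen_ball
    (fun m w hw => (c m w (s hw)).fderiv_right (by norm_num)) (fun w hw => ?_)
    (Metric.uniformCauchySeqOn_iff.2 fun ε hε => ?_) hz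
  · refine Metric.tendsto_nhds.2 fun ε hε => (q _ (half_pos hε)).mono fun m hm => ?_
    rw [dist_eq_norm]
    exact (hm w (s hw)).trans_lt (half_lt_self hε)
  · obtain ⟨d, d0, d1, d2⟩ : ∃ d : ℝ, 0 < d ∧ d ≤ R / 4 ∧ d ≤ ε / (8 * (C * ‖e‖ + 1)) :=
      ⟨min _ _, lt_min (by positivity) (by positivity), min_le_left _ _, min_le_right _ _⟩
    rw [le_div_iff₀ (by positivity)] at d2
    obtain ⟨N, hN⟩ := eventually_atTop.1 (q (ε * d / 16) (by positivity))
    refine ⟨N, fun a ha b hb w hw => ?_⟩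
    have := t_e_small (a := v a) (b := v b) (ε := ε * d / 16 + ε * d / 16) (M := C * ‖e‖) hR d0
      (by positivity) (by positivity) (fun y hy => ⟨c a y hy, c b y hy,
        (norm_sub_le_norm_sub_add_norm_sub _ (fderiv ℝ (fderiv ℝ u) y e) _).trans
          (add_le_add (hN a ha y hy) ((norm_sub_rev _ _).trans_le (hN b hb y hy)))⟩)
      (fun k hk y hy => ⟨l a k hk y hy, l b k hk y hy⟩)
      (t_e_sub (ball_subset_closedBall hw) (by linarith))
    have e1 : 4 * (ε * d / 16 + ε * d / 16) / d = ε / 2 := by field_simp; ring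
    rw [dist_eq_norm]
    refine this.trans_lt ?_
    rw [e1]
    nlinarith

theorem t_e_reg3 [FiniteDimensional ℝ V] (hG : ContDiff ℝ ∞ G) (hU : IsOpen U)
    (hu : ∀ w ∈ U, ContDiffAt ℝ 2 u w) (h : Ell G u U) {z : ℂ} (hz : z ∈ U) :
    ContDiffAt ℝ 3 u z := by
  obtain ⟨r, hr, s⟩ := nhds_basis_closedBall.mem_iff.1 (hU.mem_nhds hz)
  have e : r = 4 * (r / 4) := by ring
  rw [e] at s
  have h1 : ContDiffOn ℝ 1 (fderiv ℝ (fderiv ℝ u)) (ball z (r / 4 / 2)) :=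
    contDiffOn_clm_apply.2 fun e w hw => (t_e_reg3' hG (by positivity) (fun w hw => hu w (s hw))
      (fun w hw => h w (s hw)) e hw).contDiffWithinAt
  exact t_e_succ (n := 2) ((hu z hz).of_le (by norm_num)) (t_e_succ (n := 1)
    ((hu z hz).fderiv_right (by norm_num)) (h1.contDiffAt (ball_mem_nhds z (by positivity))))

theorem t_e_regn (n : ℕ) : ∀ (V : Type) [NormedAddCommGroup V] [NormedSpace ℝ V]
    [FiniteDimensional ℝ V] (G : PV V → V) (u : ℂ → V) (U : Set ℂ), ContDiff ℝ ∞ G → IsOpen U →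
    (∀ w ∈ U, ContDiffAt ℝ 2 u w) → Ell G u U → ∀ z ∈ U, ContDiffAt ℝ n u z := by
  induction n with
  | zero => exact fun V _ _ _ G u U _ _ hu _ z hz => (hu z hz).of_le (by norm_num)
  | succ n ih =>
    intro V _ _ _ G u U hG hU hu h z hz
    have h3 : ∀ w ∈ U, ContDiffAt ℝ 3 u w := fun w hw => t_e_reg3 hG hU hu h hw
    exact t_e_succ ((hu z hz).of_le (by norm_num)) (ih (PV V) (prG G) (prj u) U (t_e_prG hG) hU
      (fun w hw => t_e_pr (h3 w hw) (by norm_num)) (t_e_prol hG hU h3 h) z hz).snd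

theorem t_e_reg [FiniteDimensional ℝ V] (hG : ContDiff ℝ ∞ G) (hU : IsOpen U)
    (hu : ∀ w ∈ U, ContDiffAt ℝ 2 u w) (h : Ell G u U) : ContDiffOn ℝ ∞ u U :=
  contDiffOn_infty.2 fun n z hz => (t_e_regn n V G u U hG hU hu h z hz).contDiffWithinAt

end Pool.Agent.Lib.MP_ccffa6_gt
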