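import Pool.Agent.Lib.MP_ccffa6_gt.T.FPt

/-! Approximable operators, and the two fields `I`, `Π` of the parametrix. -/

open Set Filter Topology MeasureTheory
open scoped ContDiff ComplexConjugate Real

noncomputable section

namespace Pool.Agent.Lib.MP_ccffa6_gt

section approx

variable {A B C : Type} [NormedAddCommGroup A] [NormedSpace ℝ A] [NormedAddCommGroup B]
  [NormedSpace ℝ B] [NormedAddCommGroup C] [NormedSpace ℝ C]

theorem FApx_fin {F : A →L[ℝ] B} (h : FiniteDimensional ℝ (LinearMap.range (F : A →ₗ[ℝ] B)))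
    (L : B →L[ℝ] C) : FiniteDimensional ℝ (LinearMap.range (L.comp F : A →ₗ[ℝ] C)) := by
  rw [show (L.comp F : A →ₗ[ℝ] C) = (L : B →ₗ[ℝ] C).comp (F : A →ₗ[ℝ] B) from rfl,
    LinearMap.range_comp]
  infer_instance

theorem Approx.of_fin {K : A →L[ℝ] B} [FiniteDimensional ℝ B] (L : B →L[ℝ] C) :
    Approx (L.comp K) := fun _ hε => ⟨L.comp K, FApx_fin inferInstance L, by simpa using hε⟩

theorem Approx.add' {K K' : A →L[ℝ] B} (h : Approx K) (h' : Approx K') : Approx (K + K') := by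
  intro ε hε
  obtain ⟨F, h1, h2⟩ := h _ (half_pos hε)
  obtain ⟨G, h3, h4⟩ := h' _ (half_pos hε)
  refine ⟨F + G, Submodule.finiteDimensional_of_le (S₂ := LinearMap.range (F : A →ₗ[ℝ] B) ⊔
    LinearMap.range (G : A →ₗ[ℝ] B)) ?_, ?_⟩
  · rintro _ ⟨x, rfl⟩
    exact Submodule.add_mem_sup ⟨x, rfl⟩ ⟨x, rfl⟩
  · rw [add_sub_add_comm]
    exact (norm_add_le _ _).trans_lt (by linarith)

theorem Approx.neg' {K : A →L[ℝ] B} (h : Approx K) : Approx (-K) := by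
  intro ε hε
  obtain ⟨F, h1, h2⟩ := h _ hε
  refine ⟨-F, Submodule.finiteDimensional_of_le (S₂ := LinearMap.range (F : A →ₗ[ℝ] B)) ?_, ?_⟩
  · rintro _ ⟨x, rfl⟩
    exact neg_mem ⟨x, rfl⟩
  · rwa [neg_sub_neg, norm_sub_rev]

theorem Approx.post {K : A →L[ℝ] B} (h : Approx K) (L : B →L[ℝ] C) : Approx (L.comp K) := by
  intro ε hε
  obtain ⟨F, h1, h2⟩ := h (ε / (‖L‖ + 1)) (by positivity)
  refine ⟨L.comp F, FApx_fin h1 L, ?_⟩
  rw [← ContinuousLinearMap.comp_sub]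
  rw [lt_div_iff₀ (by positivity)] at h2
  exact (L.opNorm_comp_le _).trans_lt (by nlinarith [norm_nonneg (K - F)])

theorem Approx.pre {K : B →L[ℝ] C} (h : Approx K) (L : A →L[ℝ] B) : Approx (K.comp L) := by
  intro ε hε
  obtain ⟨F, h1, h2⟩ := h (ε / (‖L‖ + 1)) (by positivity)
  refine ⟨F.comp L, Submodule.finiteDimensional_of_le (S₂ := LinearMap.range (F : B →ₗ[ℝ] C)) ?_, ?_⟩
  · rintro _ ⟨x, rfl⟩
    exact ⟨L x, rfl⟩
  · rw [← ContinuousLinearMap.sub_comp]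
    rw [lt_div_iff₀ (by positivity)] at h2
    exact ((K - F).opNorm_comp_le _).trans_lt (by nlinarith [norm_nonneg (K - F)])

end approx

open WA

variable {V : Type} [NormedAddCommGroup V] [NormedSpace ℝ V] [FiniteDimensional ℝ V]

/-- `(a, b) ↦ (-b, a)`. -/
def j0 (V : Type) [NormedAddCommGroup V] [NormedSpace ℝ V] : V × V →L[ℝ] V × V :=
  (-ContinuousLinearMap.snd ℝ V V).prod (ContinuousLinearMap.fst ℝ V V)

theorem exists_IPi (p j : WA 3 (V →L[ℝ] V))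
    (hp : ∀ z v, fn p z (fn p z v) = fn p z v)
    (hj : ∀ z v, fn p z v = v → fn p z (fn j z v) = fn j z v ∧ fn j z (fn j z v) = -v) :
    ∃ (I : WA 3 (V →L[ℝ] V × V)) (Q : WA 3 (V × V →L[ℝ] V)),
      (∀ z v, fn I z (fn p z v) = fn I z v) ∧ (∀ z w, fn p z (fn Q z w) = fn Q z w) ∧
      (∀ z v, fn Q z (fn I z v) = fn p z v) ∧
      (∀ z v, fn I z (fn j z (fn p z v)) = j0 V (fn I z v)) ∧
      ∀ z w, fn Q z (j0 V w) = fn j z (fn Q z w) := by
  have h1 := fun z v => (hj z _ (hp z v)).1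
  have h2 := fun z v => (hj z _ (hp z v)).2
  let q := bil (ContinuousLinearMap.compL ℝ V V V) j p
  let a := ContinuousLinearMap.compL ℝ V V (V × V)
  let b := (ContinuousLinearMap.compL ℝ (V × V) V V).flip
  obtain ⟨I, hI⟩ : ∃ I : WA 3 (V →L[ℝ] V × V), ∀ z v,
      fn I z v = (fn p z v, -fn j z (fn p z v)) :=
    ⟨lin (a (.inl ℝ V V)) p - lin (a (.inr ℝ V V)) q, fun z v => by
      simp [fn_sub, fn_lin, fn_bil, q, a]⟩
  obtain ⟨Q, hQ⟩ : ∃ Q : WA 3 (V × V →L[ℝ] V), ∀ z w,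
      fn Q z w = (2 : ℝ)⁻¹ • (fn p z w.1 + fn j z (fn p z w.2)) :=
    ⟨(2 : ℝ)⁻¹ • (lin (b (.fst ℝ V V)) p + lin (b (.snd ℝ V V)) q), fun z v => by
      simp [fn_add, fn_smul, fn_lin, fn_bil, q, b]⟩
  refine ⟨I, Q, fun z v => ?_, fun z w => ?_, fun z v => ?_, fun z v => ?_, fun z w => ?_⟩
  · rw [hI, hI, hp]
  · rw [hQ, map_smul, map_add, hp, h1]
  · simp only [hI, hQ, hp, map_neg, h1, h2]
    module
  · simp [hI, h1, h2, j0]
  · simp [hQ, h2, j0, add_comm]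

theorem FApx_der {m : ℕ} {V' : Type} [NormedAddCommGroup V'] [NormedSpace ℝ V']
    [FiniteDimensional ℝ V'] (A : WA (m + 1) (V →L[ℝ] V')) (v : WA (m + 1) V) (z w : ℂ) :
    fderiv ℝ (fn (app A v)) z w = fderiv ℝ (fn A) z w (fn v z) + fn A z (fderiv ℝ (fn v) z w) := by
  rw [funext (fn_app A v), fderiv_clm_apply (FSym_diff A z) (FSym_diff v z), add_comm]
  rfl

/-- Product rule. -/
theorem dx_app {m : ℕ} {V' : Type} [NormedAddCommGroup V'] [NormedSpace ℝ V']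
    [FiniteDimensional ℝ V'] (A : WA (m + 1) (V →L[ℝ] V')) (v : WA (m + 1) V) :
    dx (app A v) = app (dx A) (WA.incl v) + app (WA.incl A) (dx v) :=
  ext fun z => by
    rw [fn_add, fn_app, fn_app, fn_incl, fn_incl, fn_dx, fn_dx, fn_dx]
    exact FApx_der A v z 1

theorem dy_app {m : ℕ} {V' : Type} [NormedAddCommGroup V'] [NormedSpace ℝ V']
    [FiniteDimensional ℝ V'] (A : WA (m + 1) (V →L[ℝ] V')) (v : WA (m + 1) V) :
    dy (app A v) = app (dy A) (WA.incl v) + app (WA.incl A) (dy v) :=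
  ext fun z => by
    rw [fn_add, fn_app, fn_app, fn_incl, fn_incl, fn_dy, fn_dy, fn_dy]
    exact FApx_der A v z Complex.I

theorem j0_j0 (w : V × V) : j0 V (j0 V w) = -w := rfl

end Pool.Agent.Lib.MP_ccffa6_gt
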