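import Pool.Agent.Lib.MP_ccffa6_gt.T.FEq

/-! The derivative of the nonlinear map. Compose each component with the evaluation `ev z`
(a continuous linear map), differentiate the resulting finite dimensional expression in
`ev z u`, `ev z (dx u)`, `ev z (dy u)` and use `WA.ext`. -/

open Set Filter Topology MeasureTheory
open scoped ContDiff ComplexConjugate Real

noncomputable section

namespace Pool.Agent.Lib.MP_ccffa6_gt

open WA

variable {V : Type} [NormedAddCommGroup V] [NormedSpace ℝ V] [FiniteDimensional ℝ V] {k : ℕ}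
  {T : TD k V} {κ : ℂ → ℂ} {G δ r : ℝ}

theorem FDer_ev {X W : Type} [NormedAddCommGroup X] [NormedSpace ℝ X] [NormedAddCommGroup W]
    [NormedSpace ℝ W] [FiniteDimensional ℝ W] {m : ℕ} {Φ : X → WA m W} {u : X}
    (h : DifferentiableAt ℝ Φ u) {z : ℂ} {f : X → W} {L : X →L[ℝ] W} (e : ∀ y, fn (Φ y) z = f y)
    (hf : HasFDerivAt f L u) (v : X) : fn (fderiv ℝ Φ u v) z = L v := by
  have h1 : HasFDerivAt (fun y => fn (Φ y) z) ((ev z).comp (fderiv ℝ Φ u)) u :=
    (ev z).hasFDerivAt.comp u h.hasFDerivAt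
  rw [funext e] at h1
  exact DFunLike.congr_fun (h1.unique hf) v

theorem FDer_px (u : WA 3 V) (z : ℂ) : ((ev z).comp dx : WA 3 V →L[ℝ] V) u = px (fn u) z :=
  congrFun (fn_dx u) z

theorem FDer_py (u : WA 3 V) (z : ℂ) : ((ev z).comp dy : WA 3 V →L[ℝ] V) u = py (fn u) z :=
  congrFun (fn_dy u) z

theorem FDer_hx (u : WA 3 V) (z : ℂ) :
    HasFDerivAt (fun y : WA 3 V => px (fn y) z) ((ev z).comp dx) u :=
  funext (FDer_px (V := V) · z) ▸ ((ev z).comp dx : WA 3 V →L[ℝ] V).hasFDerivAt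

theorem FDer_hy (u : WA 3 V) (z : ℂ) :
    HasFDerivAt (fun y : WA 3 V => py (fn y) z) ((ev z).comp dy) u :=
  funext (FDer_py (V := V) · z) ▸ ((ev z).comp dy : WA 3 V →L[ℝ] V).hasFDerivAt

theorem FDer_lift (δ : ℝ) : ContDiff ℝ ∞ (lift δ : WA 3 V → WA 3 (ℝ × V)) :=
  contDiff_const.add (lin (ContinuousLinearMap.inr ℝ ℝ V)).contDiff

theorem FDer_eta (hT : T.OK) (δ : ℝ) : Differentiable ℝ (T.eta δ) := by
  have h1 : ContDiff ℝ ∞ (T.jW δ) := (contDiff_sup (by norm_num) hT.smJt).comp (FDer_lift δ)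
  have h2 : ContDiff ℝ ∞ fun u => app (WA.incl (T.jW δ u)) :=
    (bil (ContinuousLinearMap.id ℝ (V →L[ℝ] V))).contDiff.comp (WA.incl.contDiff.comp h1)
  have h3 : ContDiff ℝ ∞ (T.eta δ) := dx.contDiff.add (h2.clm_apply dy.contDiff)
  exact h3.differentiable (by simp)

theorem FDer_mu (hT : T.OK) (δ : ℝ) : Differentiable ℝ (T.mu δ) :=
  ((contDiff_sup (by norm_num) hT.smνt).comp (FDer_lift δ)).differentiable (by simp)

omit [FiniteDimensional ℝ V] in
theorem FDer_dF {lam : Form1 V} (h : ContDiff ℝ ∞ lam) : Differentiable ℝ (dF lam) := by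
  have h1 : Differentiable ℝ (fderiv ℝ lam) :=
    (h.fderiv_right (m := ∞) le_rfl).differentiable (by simp)
  have h2 := Differentiable.comp (𝕜 := ℝ) (E := V) (F := Bil V) (G := Bil V) (f := fderiv ℝ lam)
    (ContinuousLinearMap.flipₗᵢ ℝ V V ℝ).differentiable h1
  exact Differentiable.sub (𝕜 := ℝ) (E := V) (F := Bil V) h1 h2

theorem TD.OK.fderiv_eta (hT : T.OK) (δ : ℝ) (u v : WA 3 V) :
    fderiv ℝ (T.eta δ) u v = T.Lop δ u v := by
  refine WA.ext fun z => ?_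
  have h1 : HasFDerivAt (fun y : WA 3 V => T.Jt (chi δ z, fn y z)) _ u :=
    (hT.hasFDerivAt_Jt (chi δ z) (fn u z)).comp u (ev z).hasFDerivAt
  rw [FDer_ev (FDer_eta hT δ u) (fun y => hT.fn_eta δ y z)
    ((FDer_hx u z).add (h1.clm_apply (FDer_hy u z))), TD.Lop, fn_Lgen, hT.fn_jW, hT.fn_aW,
    ← FDer_px v z, ← FDer_py v z, add_assoc]
  rfl

theorem TD.OK.fderiv_mu (hT : T.OK) (δ : ℝ) (u v : WA 3 V) :
    fderiv ℝ (T.mu δ) u v = v - app (T.pW δ u) v := by
  refine WA.ext fun z => ?_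
  rw [FDer_ev (FDer_mu hT δ u) (fun y => hT.fn_mu δ y z)
    ((hT.hasFDerivAt_νt (chi δ z) (fn u z)).comp u (ev z).hasFDerivAt), fn_sub, fn_app, hT.fn_pW]
  rfl

theorem TD.OK.fderiv_den (hT : T.OK) (u v : WA 3 V) (z : ℂ) :
    fn (fderiv ℝ T.den u v) z = T.Dden (fn u) (fn v) z := by
  have h1 : HasFDerivAt (fun y : WA 3 V => dF T.lam (fn y z)) _ u :=
    HasFDerivAt.comp (F := V) (G := Bil V) (g := dF T.lam) (f := ev z) u
      (FDer_dF hT.smlam (fn u z)).hasFDerivAt (ev z).hasFDerivAt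
  rw [FDer_ev (hT.contDiff_den.differentiable (by simp) u) (fun y => hT.fn_den y z)
    ((h1.clm_apply (FDer_hx u z)).clm_apply (FDer_hy u z)), TD.Dden, ← FDer_px v z,
    ← FDer_py v z, add_comm (fderiv ℝ (dF T.lam) (fn u z) (fn v z) _ _), add_comm _ (dF T.lam _ _ _)]
  rfl

theorem FDer_pt {X : Type} [NormedAddCommGroup X] [NormedSpace ℝ X] {c : X → Cm k}
    {c' : X →L[ℝ] Cm k} {x : X} (hc : HasFDerivAt c c' x) (t : X →L[ℝ] ℝ) (D : ℝ) :
    ∃ L : X →L[ℝ] Fin (k + 2) → ℝ,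
      HasFDerivAt (fun y => fun j => (c y j - xpt k (t y * D) j).im) L x ∧
        ∀ h, L h = fun j => (c' h j).im - if j = 0 then t h * D else 0 := by
  have h1 : ∀ j : Fin (k + 2), ∃ L : X →L[ℝ] ℝ,
      HasFDerivAt (fun y => (c y j - xpt k (t y * D) j).im) L x ∧
        ∀ h, L h = (c' h j).im - if j = 0 then t h * D else 0 := fun j => by
    have h2 : HasFDerivAt (fun y => (c y j).im) _ x :=
      (Complex.imCLM.comp (PiLp.proj (𝕜 := ℝ) 2 (fun _ : Fin (k + 2) => ℂ) j)).hasFDerivAt.comp x hc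
    by_cases hj : j = 0
    · have e : (fun y => (c y j - xpt k (t y * D) j).im) = fun y => (c y j).im - t y * D := by
        funext y
        simp [xpt, hj]
      rw [e]
      exact ⟨_, h2.sub (t.hasFDerivAt.mul_const D), fun h => by simp [hj, mul_comm]⟩
    · have e : (fun y => (c y j - xpt k (t y * D) j).im) = fun y => (c y j).im := by
        funext y
        simp [xpt, hj]
      rw [e]
      exact ⟨_, h2, fun h => by simp [hj]⟩
  choose L hL hL' using h1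
  exact ⟨ContinuousLinearMap.pi L, hasFDerivAt_pi.2 hL, fun h => funext fun j => hL' j h⟩

theorem TD.OK.fderiv_F (hT : T.OK) (hκ : ContinuousOn κ Sq) (δ : ℝ) (x h : T.B) :
    fderiv ℝ (T.F κ δ) x h =
      (T.Lop δ x.1 h.1, h.1.1 - app (T.pW δ x.1) h.1,
        fun j => (fderiv ℝ T.Cc (fn x.1.1 z1) (fn h.1.1 z1) j).im - if j = 0 then h.2 * T.D else 0,
        ∫ z in Sq, κ z * ((T.Dden (fn x.1.1) (fn h.1.1) z : ℝ) : ℂ)) := by
  let p : T.B →L[ℝ] WA 3 V := (eqvSub 3 T.S T.S).subtypeL.comp (ContinuousLinearMap.fst ℝ _ ℝ)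
  have h1 := (FDer_eta hT δ (p x)).hasFDerivAt.comp x p.hasFDerivAt
  have h2 := (FDer_mu hT δ (p x)).hasFDerivAt.comp x p.hasFDerivAt
  obtain ⟨L, h3, hL⟩ := FDer_pt ((hT.smC.differentiable (by simp) (fn (p x) z1)).hasFDerivAt.comp x
    ((ev z1).comp p).hasFDerivAt) (ContinuousLinearMap.snd ℝ _ ℝ) T.D
  have h4 := (intSq κ).hasFDerivAt.comp x
    ((hT.contDiff_den.differentiable (by simp) (p x)).hasFDerivAt.comp x p.hasFDerivAt)
  have h5 : HasFDerivAt (T.F κ δ) _ x := h1.prodMk (h2.prodMk (h3.prodMk h4))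
  rw [h5.fderiv]
  refine Prod.ext (hT.fderiv_eta δ _ _) (Prod.ext (hT.fderiv_mu δ _ _) (Prod.ext (hL h) ?_))
  refine (intSq_apply hκ (fderiv ℝ T.den (p x) (p h))).trans ?_
  simp only [hT.fderiv_den]
  rfl

end Pool.Agent.Lib.MP_ccffa6_gt
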