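import Pool.Agent.Lib.MP_ccffa6_gt.T.FEq

/-! The projections along a map into `W`, and the local property. -/

open Set Filter Topology MeasureTheory
open scoped ContDiff ComplexConjugate Real

noncomputable section

namespace Pool.Agent.Lib.MP_ccffa6_gt

open WA

variable {V : Type} [NormedAddCommGroup V] [NormedSpace ℝ V] [FiniteDimensional ℝ V] {k : ℕ}
  {T : TD k V} {κ : ℂ → ℂ} {G δ r : ℝ}

omit [FiniteDimensional ℝ V] in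
theorem FLoc_tr {S A B A' B' : V →L[ℝ] V} (hS : ∀ v, S (S v) = v) (hA : ∀ v, A' (S v) = S (A v))
    (hB : ∀ v, B' (S v) = -S (B v))
    (h : ∀ v, A (A v) = A v ∧ (A v = v → A (B v) = B v ∧ B (B v) = -v)) (v : V) :
    A' (A' v) = A' v ∧ (A' v = v → A' (B' v) = B' v ∧ B' (B' v) = -v) := by
  obtain ⟨w, rfl⟩ : ∃ w, v = S w := ⟨S v, (hS v).symm⟩
  refine ⟨by rw [hA, hA, (h w).1], fun e => ?_⟩
  have e1 : A w = w := by rw [← hS (A w), ← hA, e, hS]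
  obtain ⟨e2, e3⟩ := (h w).2 e1
  exact ⟨by rw [hB, map_neg, hA, e2], by rw [hB, map_neg, hB, e3, map_neg, neg_neg]⟩

theorem FLoc_sq (hT : T.OK) (hδ : 0 < δ) {x : T.B} (hx : x ∈ T.Om δ) {z : ℂ} (hz : z ∈ Sq) :
    fn (T.pW δ x.1) z = T.P (fn x.1.1 z) ∧ fn (T.jW δ x.1) z = T.J (fn x.1.1 z) ∧
    fn (T.mu δ x.1) z = T.ν (fn x.1.1 z) ∧
    fn (T.eta δ x.1) z = px (fn x.1.1) z + T.J (fn x.1.1 z) (py (fn x.1.1) z) := by
  obtain ⟨h1, -, h3, h4⟩ := hT.sq_fields hδ hz (hx.1 z)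
  exact ⟨(hT.fn_pW _ _ _).trans h4, (hT.fn_jW _ _ _).trans h1, (hT.fn_mu _ _ _).trans h3,
    by rw [hT.fn_eta, h1]⟩

theorem TD.OK.pj_alg (hT : T.OK) (hδ : 0 < δ) {x : T.B} (hx : x ∈ T.Om δ)
    (hW : MapsTo (fn x.1.1) Sq T.W) (z : ℂ) (v : V) :
    fn (T.pW δ x.1) z (fn (T.pW δ x.1) z v) = fn (T.pW δ x.1) z v ∧
    (fn (T.pW δ x.1) z v = v →
      fn (T.pW δ x.1) z (fn (T.jW δ x.1) z v) = fn (T.jW δ x.1) z v ∧
      fn (T.jW δ x.1) z (fn (T.jW δ x.1) z v) = -v) := by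
  revert v
  refine fold_ind (p := fun z => ∀ v,
    fn (T.pW δ x.1) z (fn (T.pW δ x.1) z v) = fn (T.pW δ x.1) z v ∧
    (fn (T.pW δ x.1) z v = v →
      fn (T.pW δ x.1) z (fn (T.jW δ x.1) z v) = fn (T.jW δ x.1) z v ∧
      fn (T.jW δ x.1) z (fn (T.jW δ x.1) z v) = -v)) (fun z => ?_)
    (fun z h => FLoc_tr hT.SS (fun v => (hT.eqv_pW δ x.1.2 z v).1)
      (fun v => (hT.eqv_jW δ x.1.2 z v).1) h)
    (fun z h => FLoc_tr hT.SS (fun v => (hT.eqv_pW δ x.1.2 z v).2)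
      (fun v => (hT.eqv_jW δ x.1.2 z v).2) h) (fun z hz v => ?_) z
  · simp only [(WA.per _ z).1, (WA.per _ z).2, and_self]
  · rw [(FLoc_sq hT hδ hx hz).1, (FLoc_sq hT hδ hx hz).2.1]
    refine ⟨(hT.P_eq (hW hz) _).2 (hT.P_mem (hW hz) v), fun e => ?_⟩
    have := hT.mapJ _ (hW hz) v ((hT.P_eq (hW hz) v).1 e)
    exact ⟨(hT.P_eq (hW hz) _).2 this.1, this.2⟩

theorem FLoc_Q1 (δ : ℝ) (u : WA 3 V) (e : WA 2 V) (z : ℂ) :
    fn (T.Q1 δ u e) z = fn (T.pW δ u) z (fn (symm (-T.S) T.S e) z) := by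
  rw [TD.Q1, ContinuousLinearMap.comp_apply, fn_app, fn_incl]

theorem FLoc_Q2 (δ : ℝ) (u : WA 3 V) (e : WA 3 V) (z : ℂ) :
    fn (T.Q2 δ u e) z = fn (symm T.S T.S e) z - fn (T.pW δ u) z (fn (symm T.S T.S e) z) := by
  rw [TD.Q2, ContinuousLinearMap.comp_apply, sub_apply, fn_sub, fn_app,
    ContinuousLinearMap.id_apply]

theorem TD.OK.Q_idem (hT : T.OK) (hδ : 0 < δ) {x : T.B} (hx : x ∈ T.Om δ)
    (hW : MapsTo (fn x.1.1) Sq T.W) (y : TD.Y k V) : T.Q δ x (T.Q δ x y) = T.Q δ x y := by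
  refine Prod.ext (WA.ext fun z => ?_) (Prod.ext (WA.ext fun z => ?_) rfl)
  · change fn (T.Q1 δ x.1 (T.Q1 δ x.1 y.1)) z = fn (T.Q1 δ x.1 y.1) z
    rw [FLoc_Q1, symm_eq hT.inv2.2.1 (hT.eqv_Q1 δ x.1.2 _), FLoc_Q1, (hT.pj_alg hδ hx hW z _).1]
  · change fn (T.Q2 δ x.1 (T.Q2 δ x.1 y.2.1)) z = fn (T.Q2 δ x.1 y.2.1) z
    rw [FLoc_Q2, symm_eq hT.inv2.1 (hT.eqv_Q2 δ x.1.2 _), FLoc_Q2, map_sub,
      (hT.pj_alg hδ hx hW z _).1, sub_self, sub_zero]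

theorem FLoc_near {X : Type} [TopologicalSpace X] {m : ℕ} {f : X → WA m V} {x : X}
    (hf : ContinuousAt f x) {ε : ℝ} (hε : 0 < ε) :
    ∀ᶠ x' in 𝓝 x, ∀ z, ‖fn (f x') z - fn (f x) z‖ < ε := by
  obtain ⟨C, hC, h⟩ := bound (k := m) (V := V)
  filter_upwards [Metric.tendsto_nhds.1 hf (ε / C) (by positivity)] with x' hx' z
  rw [dist_eq_norm, lt_div_iff₀' hC] at hx'
  rw [← fn_sub]
  exact (h _ z).trans_lt hx'

theorem TD.OK.loc_F (hT : T.OK) (hδ : 0 < δ) (hO : IsOpen (T.Om δ)) {x : T.B} (hx : x ∈ T.Om δ)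
    (hW : MapsTo (fn x.1.1) Sq T.W) :
    ∀ᶠ x' in 𝓝 x, ∀ e, T.Q δ x (T.F κ δ x' - T.Pe δ x' e) = 0 →
      T.F κ δ x' - T.Pe δ x' e = 0 := by
  have c : Continuous fun x : T.B => (x.1.1 : WA 3 V) := continuous_subtype_val.comp continuous_fst
  have cu := (WA.contDiff x.1.1).continuous
  obtain ⟨ε, hε, s⟩ := (isCompact_sq.image (cu.prodMk cu)).exists_thickening_subset_open
    (isOpen_interior (s := {p : V × V | p.1 ∈ T.W → fderiv ℝ T.ν p.1 (T.ν p.2) = 0 → p.2 ∈ T.W}))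
    (by
      rintro _ ⟨z, hz, rfl⟩
      exact mem_interior_iff_mem_nhds.2 (hT.loc _ (hW hz)))
  filter_upwards [hO.mem_nhds hx, FLoc_near c.continuousAt hε, FLoc_near
    ((hT.contDiff_pW δ).continuous.comp c).continuousAt one_half_pos] with x' hx' n1 n2 e h
  have h1 : T.Q1 δ x.1 (T.eta δ x'.1 - T.Q1 δ x'.1 e.1) = 0 := congrArg Prod.fst h
  have h2 : T.Q2 δ x.1 (T.mu δ x'.1 - 0) = 0 := congrArg (fun y => y.2.1) h
  have hW' : MapsTo (fn x'.1.1) Sq T.W := fun z hz => by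
    have m : (fn x.1.1 z, fn x'.1.1 z) ∈ _ := interior_subset (s (Metric.mem_thickening_iff.2
      ⟨_, ⟨z, hz, rfl⟩, by simpa [Prod.dist_eq, hε, dist_eq_norm] using n1 z⟩))
    refine m (hW hz) ?_
    have e1 := congrArg (fun w => fn w z) h2
    simp only [sub_zero] at e1
    rw [FLoc_Q2, symm_eq hT.inv2.1 (hT.eqv_mu δ x'.1.2), (FLoc_sq hT hδ hx hz).1,
      (FLoc_sq hT hδ hx' hz).2.2.1, fn_zero] at e1
    simpa [TD.P] using e1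
  have q : Eqv (-T.S) T.S (fn (T.eta δ x'.1 - T.Q1 δ x'.1 e.1)) :=
    (eqvSub 2 (-T.S) T.S).sub_mem (hT.eqv_eta δ x'.1.2) (hT.eqv_Q1 δ x'.1.2 _)
  refine Prod.ext (ext_sq q (eqvSub 2 (-T.S) T.S).zero_mem fun z hz => ?_)
    (Prod.ext ((sub_zero _).trans (ext_sq (hT.eqv_mu δ x'.1.2) (eqvSub 3 T.S T.S).zero_mem
      fun z hz => ?_)) (congrArg (fun y => y.2.2) h))
  · have e1 := congrArg (fun w => fn w z) h1
    rw [FLoc_Q1, symm_eq hT.inv2.2.1 q, fn_zero] at e1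
    have t := tan_of_mapsTo hz (FSym_diff x'.1.1 z) hW'
    have e2 : fn (T.pW δ x'.1) z (fn (T.eta δ x'.1 - T.Q1 δ x'.1 e.1) z) =
        fn (T.eta δ x'.1 - T.Q1 δ x'.1 e.1) z := by
      rw [fn_sub, FLoc_Q1, (FLoc_sq hT hδ hx' hz).2.2.2, (FLoc_sq hT hδ hx' hz).1]
      exact (hT.P_eq (hW' hz) _).2 (sub_mem (add_mem (t _) (hT.mapJ _ (hW' hz) _ (t _)).1)
        (hT.P_mem (hW' hz) _))
    have e3 := ContinuousLinearMap.le_of_opNorm_le _ (n2 z).le (fn (T.eta δ x'.1 - T.Q1 δ x'.1 e.1) z)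
    rw [sub_apply, Function.comp_apply, Function.comp_apply, e1, e2, sub_zero] at e3
    have e4 : fn (T.eta δ x'.1 - T.Q1 δ x'.1 e.1) z = 0 := norm_le_zero_iff.1 (by linarith)
    exact e4.trans (fn_zero z).symm
  · exact ((FLoc_sq hT hδ hx' hz).2.2.1.trans (hT.ν0 _ (hW' hz))).trans (fn_zero z).symm

end Pool.Agent.Lib.MP_ccffa6_gt
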