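import Pool.Agent.Lib.MP_ccffa6_gt.T.SL1

/-! The kernel of the linearised operator. -/

open Set Filter Topology MeasureTheory
open scoped ContDiff ComplexConjugate Real

noncomputable section

namespace Pool.Agent.Lib.MP_ccffa6_gt

open WA

variable {V : Type} [NormedAddCommGroup V] [NormedSpace ℝ V] [FiniteDimensional ℝ V] {k : ℕ}
  {T : TD k V} {κ : ℂ → ℂ} {G δ r : ℝ}

variable {u₀ : ℂ → V}

/-- The field in the model. -/
def SL3_X (T : TD k V) (u₀ v : ℂ → V) (z : ℂ) : Cm k := fderiv ℝ T.Cc (u₀ z) (T.P (u₀ z) (v z))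

theorem SL3_per {v : ℂ → V} (h : Per u₀) (hp : Per v) : Per (SL3_X T u₀ v) := fun z => by
  simp only [SL3_X, (h z).1, (h z).2, (hp z).1, (hp z).2, and_self]

theorem SL3_sq (hT : T.OK) (hκ : Kap κ) (hs : Sol T κ 0 u₀)
    (hu : ∀ z ∈ Sq, u₀ =ᶠ[𝓝 z] fun w => T.Θ (h0 k κ w)) {v : ℂ → V} (hv : ContDiff ℝ 1 v)
    (ht : ∀ z ∈ Sq, v z ∈ Tan T.W (u₀ z))
    (hL : ∀ z ∈ Sq, T.P (u₀ z) (T.Lpt u₀ v z) = 0) (z : ℂ) (hz : z ∈ Sq) :
    v z = fderiv ℝ T.Θ (h0 k κ z) (SL3_X T u₀ v z) ∧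
      ∀ j, DifferentiableAt ℂ (fun w => SL3_X T u₀ v w j) z := by
  have hO : ∀ w ∈ Sq, h0 k κ w ∈ T.O := fun w hw => hT.boxP (hκ.h0_box hT.l1 hw)
  have h1 : ∀ w ∈ Sq, v w = fderiv ℝ T.Θ (h0 k κ w) (SL3_X T u₀ v w) := by
    intro w hw
    have e : u₀ w = T.Θ (h0 k κ w) := (hu w hw).self_of_nhds
    obtain ⟨c1, c2, c3⟩ := hT.CΘ _ (hO w hw)
    rw [← e] at c1 c2 c3
    rw [SL3_X, (hT.P_eq c1 _).2 (ht w hw), ← c3, hT.dΘC c1 c2 (ht w hw)]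
  have d0 := hs.sm.differentiable (by simp) z
  have d1 := hv.differentiable one_ne_zero z
  have hX : DifferentiableAt ℝ (SL3_X T u₀ v) z :=
    (((contDiff_infty_iff_fderiv.1 hT.smC).2.differentiable (by simp) _).comp z d0).clm_apply
      (((hT.smP.differentiable (by simp) _).comp z d0).clm_apply d1)
  have h2 := hL z hz
  rw [Lpt_model hT hκ hz (hu z hz) d1 hX (eventually_nhdsWithin_of_forall h1),
    (hu z hz).self_of_nhds, (hT.P_eq (hT.CΘ _ (hO z hz)).1 _).2 (hT.tanΘ (hO z hz) _)] at h2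
  have h3 := hT.dCΘ (hO z hz) (px (SL3_X T u₀ v) z + Complex.I • py (SL3_X T u₀ v) z)
  rw [h2, map_zero] at h3
  have h4 : py (SL3_X T u₀ v) z = Complex.I • px (SL3_X T u₀ v) z := by
    rw [eq_neg_of_add_eq_zero_left h3.symm, smul_neg, smul_smul, Complex.I_mul_I, neg_one_smul,
      neg_neg]
  exact ⟨h1 z hz, fun j => (EuclideanSpace.proj j : Cm k →L[ℂ] ℂ).differentiableAt.comp z
    (differentiableAt_of_cr hX h4).differentiableAt⟩

theorem SL3_refl (hT : T.OK) (hs : Sol T κ 0 u₀) {v : ℂ → V} {ρ : ℂ → ℂ}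
    (h1 : ∀ z, u₀ (ρ z) = T.S (u₀ z)) (h2 : ∀ z, v (ρ z) = T.S (v z)) {z : ℂ} (hz : u₀ z ∈ T.Vs) :
    SL3_X T u₀ v (ρ z) = dsig (T.Cc (u₀ z)) (SL3_X T u₀ v z) := by
  have hW := (hs.of_mem_Vs hT hz).1
  obtain ⟨c1, c2⟩ := hT.ΘC _ hW (hT.VsU ⟨hW, hz⟩)
  have c3 : T.Θ (T.Cc (u₀ z)) ∈ T.Vs := c2.symm ▸ hz
  have h3 := hT.dC_sig c1 c3 (v z)
  rw [(hT.SΘ _ c1 c3).2.2, c2] at h3
  rw [SL3_X, h1, h2]
  exact h3

theorem SL3_conj {g ρ : ℂ → ℂ} {c a z : ℂ} (hρ : ∀ w, ρ w = c * conj w + a)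
    (hg : DifferentiableAt ℂ g (ρ z)) : DifferentiableAt ℂ (fun w => conj (g (ρ w))) z := by
  have h1 : DifferentiableAt ℂ (fun w => g (c * w + a)) (conj z) :=
    DifferentiableAt.comp (f := fun w => c * w + a) (conj z) (hρ z ▸ hg) (by fun_prop)
  have h2 := h1.conj_conj
  rw [Complex.conj_conj] at h2
  simp only [hρ]
  exact h2

theorem SL3_step (hT : T.OK) (hs : Sol T κ 0 u₀) {v : ℂ → V} {ρ : ℂ → ℂ} {c a : ℂ}
    (hρ : ∀ w, ρ w = c * conj w + a) (hi : ∀ w, ρ (ρ w) = w)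
    (h1 : ∀ z, u₀ (ρ z) = T.S (u₀ z)) (h2 : ∀ z, v (ρ z) = T.S (v z)) (j : Fin (k + 2)) {z : ℂ}
    (h : u₀ z ∈ T.Vs → DifferentiableAt ℂ (fun w => SL3_X T u₀ v w j) z)
    (hz : u₀ (ρ z) ∈ T.Vs) : DifferentiableAt ℂ (fun w => SL3_X T u₀ v w j) (ρ z) := by
  have hV : ∀ w, u₀ w ∈ T.Vs → u₀ (ρ w) ∈ T.Vs := fun w hw => h1 w ▸ hT.SVs _ hw
  have hN : ∀ {w}, u₀ w ∈ T.Vs → ∀ᶠ x in 𝓝 w, u₀ x ∈ T.Vs :=
    fun hw => (hT.opVs.preimage hs.sm.continuous).mem_nhds hw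
  have hz' : u₀ z ∈ T.Vs := hi z ▸ hV _ hz
  have e : ∀ᶠ w in 𝓝 (ρ z), SL3_X T u₀ v w j =
      dsig (T.Cc (u₀ (ρ w))) (SL3_X T u₀ v (ρ w)) j :=
    (hN hz).mono fun w hw => by rw [← SL3_refl hT hs h1 h2 (hV w hw), hi]
  have hX := h hz'
  by_cases hj : j = 0
  · subst hj
    refine (SL3_conj (g := fun w => -SL3_X T u₀ v w 0) hρ ((hi z).symm ▸ hX.neg)
      ).congr_of_eventuallyEq (e.mono fun w hw => ?_)
    exact hw.trans (by simp [dsig])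
  · obtain ⟨hW, hJ⟩ := hs.of_mem_Vs hT hz'
    have d0 := hs.sm.differentiable (by simp) z
    have hH : DifferentiableAt ℂ (fun w => T.Cc (u₀ w) j) z :=
      (EuclideanSpace.proj j : Cm k →L[ℂ] ℂ).differentiableAt.comp z
        (hT.model d0 hW (hT.VsU ⟨hW, hz'⟩) (fun x => Tan.map (S := univ) d0
          (nhdsWithin_le_nhds ((hN hz').mono fun w hw => (hs.of_mem_Vs hT hw).1))
          (Tan.of_mem_nhds (S := (univ : Set ℂ)) univ_mem ▸ Submodule.mem_top)) hJ).1.differentiableAt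
    refine (SL3_conj (g := fun w => -SL3_X T u₀ v w j / T.Cc (u₀ w) j ^ 2) hρ
      ((hi z).symm ▸ hX.neg.div (hH.pow 2) (pow_ne_zero _ ((hT.CS hW hz').2 j hj)))
      ).congr_of_eventuallyEq (e.mono fun w hw => ?_)
    exact hw.trans (by simp [dsig, hj])

theorem ker_holSq (hT : T.OK) (hκ : Kap κ) (hs : Sol T κ 0 u₀)
    (hu : ∀ z ∈ Sq, u₀ =ᶠ[𝓝 z] fun w => T.Θ (h0 k κ w)) {v : ℂ → V} (hv : ContDiff ℝ 1 v)
    (hp : Per v) (he : Eqv T.S T.S v) (ht : ∀ z ∈ Sq, v z ∈ Tan T.W (u₀ z))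
    (hL : ∀ z ∈ Sq, T.P (u₀ z) (T.Lpt u₀ v z) = 0) (j : Fin (k + 2)) :
    HolSq fun z => fderiv ℝ T.Cc (u₀ z) (T.P (u₀ z) (v z)) j := by
  have hsq := SL3_sq hT hκ hs hu hv ht hL
  have key : ∀ z, u₀ z ∈ T.Vs → DifferentiableAt ℂ (fun w => SL3_X T u₀ v w j) z := by
    have hX := SL3_per (T := T) hs.per hp
    have e : ∀ (a : ℂ), (∀ w, SL3_X T u₀ v (w + a) = SL3_X T u₀ v w) → ∀ z,
        DifferentiableAt ℂ (fun w => SL3_X T u₀ v w j) (z + a) =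
          DifferentiableAt ℂ (fun w => SL3_X T u₀ v w j) z := fun a ha z => by
      rw [← differentiableAt_comp_add_right]
      simp only [ha]
    refine fold_ind (p := fun z => u₀ z ∈ T.Vs →
      DifferentiableAt ℂ (fun w => SL3_X T u₀ v w j) z) (fun z => ⟨?_, ?_⟩)
      (fun z => SL3_step hT hs (c := -1) (a := π) (fun w => by rw [r1]; ring) r1_r1 hs.eq1 he.1 j)
      (fun z => SL3_step hT hs (c := 1) (a := π * Complex.I) (fun w => by rw [r2]; ring) r2_r2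
        hs.eq2 he.2 j)
      fun z hz _ => (hsq z hz).2 j
    · beta_reduce
      rw [(hs.per z).1, e _ fun w => (hX w).1]
    · beta_reduce
      rw [(hs.per z).2, e _ fun w => (hX w).2]
  refine ⟨interior Sq ∪ u₀ ⁻¹' T.Vs, isOpen_interior.union (hT.opVs.preimage hs.sm.continuous),
    fun z hz => ?_, fun z hz => DifferentiableAt.differentiableWithinAt ?_⟩
  · by_cases hb : z ∈ SqB
    · exact .inr (hT.memL (hs.bd hb)).2.2.1
    · exact .inl (interior_sq ▸ ⟨hz, hb⟩)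
  · exact hz.elim (fun h => (hsq z (interior_subset h)).2 j) (key z)

theorem ker_eq (hT : T.OK) (hκ : Kap κ) (hs : Sol T κ 0 u₀)
    (hu : ∀ z ∈ Sq, u₀ =ᶠ[𝓝 z] fun w => T.Θ (h0 k κ w)) {v : ℂ → V} (hv : ContDiff ℝ 1 v)
    (hp : Per v) (he : Eqv T.S T.S v) (ht : ∀ z ∈ Sq, v z ∈ Tan T.W (u₀ z))
    (hL : ∀ z ∈ Sq, T.P (u₀ z) (T.Lpt u₀ v z) = 0) :
    ∃ (b : Fin (k + 2) → ℝ) (c : ℂ),
      ∀ z ∈ Sq, v z = fderiv ℝ T.Θ (h0 k κ z) (kerX κ b c z) := by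
  have hsq := SL3_sq hT hκ hs hu hv ht hL
  have hol : ∀ j, HolSq fun z => SL3_X T u₀ v z j := ker_holSq hT hκ hs hu hv hp he ht hL
  have hfix : ∀ z ∈ SqB, dsig (h0 k κ z) (SL3_X T u₀ v z) = SL3_X T u₀ v z := by
    intro z hz
    have h1 := (hT.memL (hs.bd hz)).2.2.1
    have h2 : T.Cc (u₀ z) = h0 k κ z := by
      rw [(hu z hz.1).self_of_nhds]
      exact (hT.CΘ _ (hT.boxP (hκ.h0_box hT.l1 hz.1))).2.2
    rw [← h2]
    rcases (SL3_per (T := T) hs.per hp).sqB_fix hz with e | e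
    · rw [← SL3_refl hT hs hs.eq1 he.1 h1, e]
    · rw [← SL3_refl hT hs hs.eq2 he.2 h1, e]
  have hre : ∀ j, j ≠ 1 → ∀ z ∈ SqB, (SL3_X T u₀ v z j).re = 0 := by
    intro j hj z hz
    have h1 : dsig (h0 k κ z) (SL3_X T u₀ v z) j = SL3_X T u₀ v z j := by rw [hfix z hz]
    have h2 : -conj (SL3_X T u₀ v z j) = SL3_X T u₀ v z j := by
      by_cases h0' : j = 0
      · subst h0'
        simpa [dsig] using h1
      · simpa [dsig, h0, xpt, hj, h0'] using h1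
    have h3 := congrArg Complex.re h2
    rw [Complex.neg_re, Complex.conj_re] at h3
    linarith
  obtain ⟨b, c, hbc⟩ := hκ.exists_kerF (hol 1) fun z hz => by
    have h1 : dsig (h0 k κ z) (SL3_X T u₀ v z) 1 = SL3_X T u₀ v z 1 := by rw [hfix z hz]
    have h2 : -conj (SL3_X T u₀ v z 1) / conj (κ z) ^ 2 = SL3_X T u₀ v z 1 := by
      simpa [dsig, h0] using h1
    have h3 : κ z * conj (κ z) = 1 := by
      rw [Complex.mul_conj', hκ.bd z hz]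
      simp
    have h4 : conj (κ z) ≠ 0 := right_ne_zero_of_mul_eq_one h3
    rw [div_eq_iff (pow_ne_zero _ h4)] at h2
    have h5 : -conj (conj (κ z) * SL3_X T u₀ v z 1) = conj (κ z) * SL3_X T u₀ v z 1 := by
      rw [map_mul, Complex.conj_conj]
      linear_combination κ z * h2 + conj (κ z) * SL3_X T u₀ v z 1 * h3
    have h6 := congrArg Complex.re h5
    rw [Complex.neg_re, Complex.conj_re] at h6
    linarith
  refine ⟨fun j => if j = 1 then b else (SL3_X T u₀ v z1 j).im, c, fun z hz => ?_⟩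
  rw [(hsq z hz).1]
  refine congrArg _ (PiLp.ext fun j => ?_)
  by_cases hj : j = 1
  · subst hj
    simpa [kerX] using hbc hz
  · have h1 := (hol j).const_of_deriv ((hol j).const_of_re (hre j hj)) z hz
    have h2 := hre j hj z1 z1_mem
    simp only [kerX, hj, if_false]
    exact h1.trans (Complex.ext (by simpa using h2) (by simp))

/-- The linearised operator and the constraints on the kernel. -/
theorem ker_vals (hT : T.OK) (hκ : Kap κ)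
    (hu : ∀ z ∈ Sq, u₀ =ᶠ[𝓝 z] fun w => T.Θ (h0 k κ w)) {v : ℂ → V} (hv : Differentiable ℝ v)
    {b : Fin (k + 2) → ℝ} {c : ℂ}
    (h : ∀ z ∈ Sq, v z = fderiv ℝ T.Θ (h0 k κ z) (kerX κ b c z)) :
    (∀ z ∈ Sq, v z ∈ Tan T.W (u₀ z) ∧ T.Lpt u₀ v z = 0) ∧
    (∀ j, (fderiv ℝ T.Cc (u₀ z1) (v z1) j).im = if j = 1 then b 1 + 2 * c.re else b j) ∧
    ∫ z in Sq, κ z * ((T.Dden u₀ v z : ℝ) : ℂ) =
      -2 * Complex.I * c * ((∫ z in Sq, ‖κ z‖ ^ 2 * ‖deriv κ z‖ ^ 2 : ℝ) : ℂ) := by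
  have hO : ∀ z ∈ Sq, h0 k κ z ∈ T.O := fun z hz => hT.boxP (hκ.h0_box hT.l1 hz)
  have hd : ∀ z ∈ Sq, HasDerivAt (kerX κ b c) (deriv (kerF κ (b 1) c) z • e1 k) z := by
    intro z hz
    have h1 := ((((hκ.holSq_kerF (b 1) c).analyticAt hz).differentiableAt.hasDerivAt).smul_const
      (e1 k)).const_add (WithLp.toLp 2 fun j => if j = 1 then 0 else Complex.I * b j : Cm k)
    refine h1.congr_of_eventuallyEq (.of_forall fun w => PiLp.ext fun j => ?_)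
    by_cases hj : j = 1 <;> simp [kerX, e1, hj]
  have hr : ∀ z ∈ Sq, DifferentiableAt ℝ (kerX κ b c) z :=
    fun z hz => (hd z hz).differentiableAt.restrictScalars ℝ
  have hw : ∀ z : ℂ, ∀ᶠ w in 𝓝[Sq] z, v w = fderiv ℝ T.Θ (h0 k κ w) (kerX κ b c w) :=
    fun z => eventually_nhdsWithin_of_forall h
  refine ⟨fun z hz => ⟨?_, ?_⟩, fun j => ?_, ?_⟩
  · rw [h z hz, (hu z hz).self_of_nhds]
    exact hT.tanΘ (hO z hz) _
  · obtain ⟨h1, h2⟩ := cr_of_hasDerivAt (hd z hz)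
    rw [Lpt_model hT hκ hz (hu z hz) (hv z) (hr z hz) (hw z), h1, h2, smul_smul, Complex.I_mul_I,
      neg_one_smul, add_neg_cancel, map_zero]
  · rw [h z1 z1_mem.1, (hu z1 z1_mem.1).self_of_nhds, hT.dCΘ (hO z1 z1_mem.1)]
    by_cases hj : j = 1
    · subst hj
      simpa [kerX] using hκ.kerF_z1 (b 1) c
    · simp [kerX, hj]
  · rw [← hκ.gauge_kerF (b 1) c]
    refine setIntegral_congr_fun measurableSet_sq fun z hz => ?_
    obtain ⟨h1, h2⟩ := cr_of_hasDerivAt (hd z hz)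
    have h3 : px (kerX κ b c) z 1 = deriv (kerF κ (b 1) c) z := by
      rw [h1]
      simp [e1]
    beta_reduce
    rw [Dden_model hT hκ hz (hu z hz) (hv z) (hr z hz) (hw z) (by rw [h1, h2]), h3]

end Pool.Agent.Lib.MP_ccffa6_gt
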