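import Pool.Agent.Lib.MP_ccffa6_gt.T.SL2
import Pool.Agent.Lib.MP_ccffa6_gt.T.SL3
import Pool.Agent.Lib.MP_ccffa6_gt.T.FDer
import Pool.Agent.Lib.MP_ccffa6_gt.T.FLoc

/-! Nondegeneracy of the standard solution. -/

open Set Filter Topology MeasureTheory
open scoped ContDiff ComplexConjugate Real

noncomputable section

namespace Pool.Agent.Lib.MP_ccffa6_gt

open WA

variable {V : Type} [NormedAddCommGroup V] [NormedSpace ℝ V] [FiniteDimensional ℝ V] {k : ℕ}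
  {T : TD k V} {κ : ℂ → ℂ} {G δ r : ℝ}

theorem TD.OK.fn_Lop_sq (hT : T.OK) (hδ : 0 < δ) {x : T.B} (hx : x ∈ T.Om δ) (v : WA 3 V) {z : ℂ}
    (hz : z ∈ Sq) : fn (T.Lop δ x.1 v) z = T.Lpt (fn x.1.1) (fn v) z ∧
      fn (T.pW δ x.1) z = T.P (fn x.1.1 z) := by
  obtain ⟨h1, h2, -, h4⟩ := hT.sq_fields hδ hz (hx.1 z)
  exact ⟨by rw [TD.Lop, fn_Lgen, hT.fn_jW, hT.fn_aW, h1, h2, TD.Lpt], by rw [hT.fn_pW, h4]⟩

theorem FBase_Q1 (hT : T.OK) (hδ : 0 < δ) {x : T.B} (hx : x ∈ T.Om δ) (e : WA 2 V) {z : ℂ}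
    (hz : z ∈ Sq) : fn (T.Q1 δ x.1 e) z = T.P (fn x.1.1 z) (fn (symm (-T.S) T.S e) z) := by
  rw [TD.Q1, ContinuousLinearMap.comp_apply, fn_app, fn_incl, (hT.fn_Lop_sq hδ hx 0 hz).2]

theorem FBase_Q2 (hT : T.OK) (hδ : 0 < δ) {x : T.B} (hx : x ∈ T.Om δ) (e : WA 3 V) {z : ℂ}
    (hz : z ∈ Sq) : fn (T.Q2 δ x.1 e) z =
      fn (symm T.S T.S e) z - T.P (fn x.1.1 z) (fn (symm T.S T.S e) z) := by
  rw [TD.Q2, ContinuousLinearMap.comp_apply, sub_apply, ContinuousLinearMap.id_apply, fn_sub,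
    fn_app, (hT.fn_Lop_sq hδ hx 0 hz).2]

theorem FBase_L (hT : T.OK) (hδ : 0 < δ) {x : T.B} (hx : x ∈ T.Om δ) {v : WA 3 V}
    (hv : Eqv T.S T.S (fn v)) {z : ℂ} (hz : z ∈ Sq) :
    fn (T.Q1 δ x.1 (T.Lop δ x.1 v)) z = T.P (fn x.1.1 z) (T.Lpt (fn x.1.1) (fn v) z) := by
  rw [FBase_Q1 hT hδ hx _ hz, symm_eq hT.inv2.2.1 (hT.eqv_Lop δ x.1.2 hv),
    (hT.fn_Lop_sq hδ hx v hz).1]

theorem FBase_N (hT : T.OK) (hδ : 0 < δ) {x : T.B} (hx : x ∈ T.Om δ) {v : WA 3 V}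
    (hv : Eqv T.S T.S (fn v)) {z : ℂ} (hz : z ∈ Sq) (hW : fn x.1.1 z ∈ T.W) :
    fn (T.Q2 δ x.1 (v - app (T.pW δ x.1) v)) z = fn v z - T.P (fn x.1.1 z) (fn v z) := by
  rw [FBase_Q2 hT hδ hx _ hz, map_sub, ← (hT.pW_symm δ x.1.2).1, symm_eq hT.inv2.1 hv, fn_sub,
    fn_app, (hT.fn_Lop_sq hδ hx 0 hz).2, map_sub, (hT.P_eq hW _).2 (hT.P_mem hW _), sub_self,
    sub_zero]

theorem base_inj (hT : T.OK) (hκ : Kap κ) (hδ : 0 < δ) {x : T.B} (hx : x ∈ T.Om δ)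
    (hs : Sol T κ 0 (fn x.1.1)) (hu : ∀ z ∈ Sq, fn x.1.1 =ᶠ[𝓝 z] fun w => T.Θ (h0 k κ w))
    (h : T.B) (h1 : T.Q δ x (fderiv ℝ (T.F κ δ) x h) = 0) (h2 : h.2 = 0) : h = 0 := by
  rw [hT.fderiv_F hκ.inner.1.continuousOn] at h1
  have e1 : T.Q1 δ x.1 (T.Lop δ x.1 h.1) = 0 := congrArg (·.1) h1
  have e2 : T.Q2 δ x.1 (h.1.1 - app (T.pW δ x.1) h.1) = 0 := congrArg (·.2.1) h1
  have e3 : ∀ j, (fderiv ℝ T.Cc (fn x.1.1 z1) (fn h.1.1 z1) j).im -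
      (if j = 0 then h.2 * T.D else 0) = 0 := congrFun (congrArg (·.2.2.1) h1)
  have e4 : ∫ z in Sq, κ z * ((T.Dden (fn x.1.1) (fn h.1.1) z : ℝ) : ℂ) = 0 :=
    congrArg (·.2.2.2) h1
  obtain ⟨b, c, hb⟩ := ker_eq hT hκ hs hu ((WA.contDiff h.1.1).of_le (by simp)) (per _) h.1.2
    (fun z hz => by
      have := FBase_N hT hδ hx h.1.2 hz (hs.mapW hz)
      rw [e2, fn_zero] at this
      exact (hT.P_eq (hs.mapW hz) _).1 (sub_eq_zero.1 this.symm).symm)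
    fun z hz => by rw [← FBase_L hT hδ hx h.1.2 hz, e1, fn_zero]
  obtain ⟨-, k2, k3⟩ := ker_vals hT hκ hu (FSym_diff h.1.1) hb
  have hc : c = 0 := by
    have := hκ.moment_pos.ne'
    rw [e4] at k3
    simpa [this] using k3
  have hb0 : ∀ j, b j = 0 := fun j => by
    have := e3 j
    rw [k2 j, h2, hc] at this
    by_cases h3 : j = 1 <;> simpa [h3] using this
  refine Prod.ext (Subtype.ext (ext_sq h.1.2 (eqvSub 3 T.S T.S).zero_mem fun z hz => ?_)) h2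
  have : kerX κ b c z = 0 := by
    ext j
    simp [kerX, kerF, hb0, hc]
  rw [hb z hz, this, map_zero]
  exact (fn_zero z).symm

theorem base_sur (hT : T.OK) (hκ : Kap κ) (hδ : 0 < δ) {x : T.B} (hx : x ∈ T.Om δ)
    (hs : Sol T κ 0 (fn x.1.1)) (hu : ∀ z ∈ Sq, fn x.1.1 =ᶠ[𝓝 z] fun w => T.Θ (h0 k κ w))
    (y : TD.Y k V) (t : ℝ) :
    ∃ h : T.B, T.Q δ x (fderiv ℝ (T.F κ δ) x h) = T.Q δ x y ∧ h.2 = t := by
  obtain ⟨η, μ, a, g⟩ := y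
  have hP := fun z hz => hT.P_eq (hs.mapW (x := z) hz)
  have hμ := hT.eqv_Q2 δ x.1.2 μ
  have hη : Eqv (-T.S) T.S (fn (T.Q1 δ x.1 (η - T.Lop δ x.1 (T.Q2 δ x.1 μ)))) :=
    hT.eqv_Q1 δ x.1.2 _
  have ht : ∀ e, ∀ z ∈ Sq, fn (T.Q1 δ x.1 e) z ∈ Tan T.W (fn x.1.1 z) := fun e z hz => by
    rw [FBase_Q1 hT hδ hx _ hz]
    exact hT.P_mem (hs.mapW hz) _
  obtain ⟨v₁, a1, a2, a3, a4⟩ := solve_near hT hκ hs.sm hs.per hu _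
    (ht (η - T.Lop δ x.1 (T.Q2 δ x.1 μ)))
  obtain ⟨v₂, b1, b2, b3⟩ := solve_far hT hκ hu
    (T.Q1 δ x.1 (η - T.Lop δ x.1 (T.Q2 δ x.1 μ)) - T.Lop δ x.1 v₁)
    ((eqvSub 2 _ _).sub_mem hη (hT.eqv_Lop δ x.1.2 a1))
    (fun z hz => by
      rw [fn_sub, (hT.fn_Lop_sq hδ hx v₁ hz).1]
      exact Submodule.sub_mem _ (ht _ z hz) (a3 z hz))
    fun z hz h4 => by rw [fn_sub, (hT.fn_Lop_sq hδ hx v₁ hz).1, a4 z hz h4, sub_self]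
  let w : T.B := (⟨T.Q2 δ x.1 μ, hμ⟩ + ⟨v₁, a1⟩ + ⟨v₂, b1⟩, t)
  let A := fderiv ℝ (T.F κ δ) x w
  let c : ℂ := (g - A.2.2.2) /
    (-2 * Complex.I * ((∫ z in Sq, ‖κ z‖ ^ 2 * ‖deriv κ z‖ ^ 2 : ℝ) : ℂ))
  obtain ⟨v₃, c1, c2⟩ := exists_kerV hT hκ
    (fun j => a j - A.2.2.1 j - if j = 1 then 2 * c.re else 0) c
  obtain ⟨k1, k2, k3⟩ := ker_vals hT hκ hu (FSym_diff v₃) c2
  refine ⟨w + (⟨v₃, c1⟩, 0), ?_, add_zero t⟩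
  have hv : Eqv T.S T.S (fn (T.Q2 δ x.1 μ + v₁ + v₂ + v₃)) :=
    (eqvSub 3 _ _).add_mem w.1.2 c1
  refine Prod.ext ?_ (Prod.ext ?_ ?_)
  · rw [hT.fderiv_F hκ.inner.1.continuousOn]
    change T.Q1 δ x.1 (T.Lop δ x.1 (T.Q2 δ x.1 μ + v₁ + v₂ + v₃)) = T.Q1 δ x.1 η
    refine ext_sq (hT.eqv_Q1 δ x.1.2 _) (hT.eqv_Q1 δ x.1.2 _) fun z hz => ?_
    have := b3 z hz
    rw [fn_sub, (hT.fn_Lop_sq hδ hx v₁ hz).1, map_sub, fn_sub] at this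
    rw [map_add, map_add, map_add, map_add, map_add, map_add, fn_add, fn_add, fn_add,
      FBase_L hT hδ hx a1 hz, FBase_L hT hδ hx b1 hz, FBase_L hT hδ hx c1 hz, (k1 z hz).2,
      map_zero, this, map_sub, map_sub, (hP z hz _).2 (ht _ z hz), (hP z hz _).2 (ht _ z hz)]
    abel
  · rw [hT.fderiv_F hκ.inner.1.continuousOn]
    change T.Q2 δ x.1 (T.Q2 δ x.1 μ + v₁ + v₂ + v₃ -
      app (T.pW δ x.1) (T.Q2 δ x.1 μ + v₁ + v₂ + v₃)) = T.Q2 δ x.1 μ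
    refine ext_sq (hT.eqv_Q2 δ x.1.2 _) hμ fun z hz => ?_
    have : T.P (fn x.1.1 z) (fn (T.Q2 δ x.1 μ) z) = 0 := by
      rw [FBase_Q2 hT hδ hx _ hz, map_sub, (hP z hz _).2 (hT.P_mem (hs.mapW hz) _), sub_self]
    rw [FBase_N hT hδ hx hv hz (hs.mapW hz), fn_add, fn_add, fn_add, map_add, map_add, map_add,
      this, (hP z hz _).2 (a2 z hz), (hP z hz _).2 (b2 z hz), (hP z hz _).2 (k1 z hz).1]
    abel
  · rw [map_add, hT.fderiv_F hκ.inner.1.continuousOn δ x (⟨v₃, c1⟩, 0)]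
    refine Prod.ext (funext fun j => ?_) ?_
    · change A.2.2.1 j + ((fderiv ℝ T.Cc (fn x.1.1 z1) (fn v₃ z1) j).im -
        if j = 0 then 0 * T.D else 0) = a j
      rw [k2 j]
      by_cases h3 : j = 1 <;> simp [h3]
    · change A.2.2.2 + ∫ z in Sq, κ z * ((T.Dden (fn x.1.1) (fn v₃) z : ℝ) : ℂ) = g
      have : ((∫ z in Sq, ‖κ z‖ ^ 2 * ‖deriv κ z‖ ^ 2 : ℝ) : ℂ) ≠ 0 :=
        Complex.ofReal_ne_zero.2 hκ.moment_pos.ne'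
      rw [k3]
      simp only [c]
      field_simp
      ring

end Pool.Agent.Lib.MP_ccffa6_gt
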