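import Pool.Agent.Lib.MP_ccffa6_gt.T.FOpen

/-! Compactness of the zero set.

`iter_bound`: all solutions are bounded on bounded sets (`pt` and the gradient bound) and
`J`-holomorphic on the bounded open set `U = (interior Sq ∪ {|cc| < δ}) ∩ ball 0 10 ⊇ Sq`
(`collar`, `collar_Vs`, `Sol.of_mem_Vs`); `EEstStmt` with `ι` the subtype of solutions and `K = Sq`;
then `fold_ind` (for `u` and `S ∘ u` together). `isCompact_Z`: sequential compactness by
`WA.subseq`; the limit is a zero by continuity and lies in `Om` because the area and the class are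
`π`, the value at `z1` is `Θ (xpt ..)` and the collar is mapped to the closed set
`cthickening r L0`. -/

open Set Filter Topology MeasureTheory
open scoped ContDiff ComplexConjugate Real

noncomputable section

namespace Pool.Agent.Lib.MP_ccffa6_gt

open WA

variable {V : Type} [NormedAddCommGroup V] [NormedSpace ℝ V] [FiniteDimensional ℝ V] {k : ℕ}
  {T : TD k V} {κ : ℂ → ℂ} {G δ r : ℝ}

omit [FiniteDimensional ℝ V] in
theorem FCpt_aff (L : ℂ ≃ₗᵢ[ℝ] ℂ) (a : ℂ) (f : ℂ → V) (j : ℕ) (z : ℂ) :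
    ‖iteratedFDeriv ℝ j (fun w => f (L w + a)) z‖ = ‖iteratedFDeriv ℝ j f (L z + a)‖ := by
  rw [← iteratedFDeriv_comp_add_right]
  exact L.norm_iteratedFDeriv_comp_right (fun w => f (w + a)) z j

omit [FiniteDimensional ℝ V] in
theorem FCpt_r1 (f : ℂ → V) (j : ℕ) (z : ℂ) :
    ‖iteratedFDeriv ℝ j f (r1 z)‖ = ‖iteratedFDeriv ℝ j (fun w => f (r1 w)) z‖ := by
  have h := FCpt_aff (Complex.conjLIE.trans (LinearIsometryEquiv.neg ℝ)) π f j z
  have e : ∀ w, (Complex.conjLIE.trans (LinearIsometryEquiv.neg ℝ)) w + π = r1 w := fun w =>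
    neg_add_eq_sub _ _
  simp only [e] at h
  exact h.symm

omit [FiniteDimensional ℝ V] in
theorem FCpt_r2 (f : ℂ → V) (j : ℕ) (z : ℂ) :
    ‖iteratedFDeriv ℝ j f (r2 z)‖ = ‖iteratedFDeriv ℝ j (fun w => f (r2 w)) z‖ :=
  (FCpt_aff Complex.conjLIE _ f j z).symm

omit [FiniteDimensional ℝ V] in
/-- A bound on the square gives a bound everywhere. -/
theorem FCpt_fold (hT : T.OK) {τ : ℝ} {u : ℂ → V} (hu : Sol T κ τ u) {j : ℕ} {C : ℝ}
    (h : ∀ z ∈ Sq, ‖iteratedFDeriv ℝ j u z‖ ≤ C) (z : ℂ) :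
    ‖iteratedFDeriv ℝ j u z‖ ≤ (1 + ‖T.S‖) * C := by
  have hp : Per fun w => T.S (u w) := fun w => ⟨congrArg _ (hu.per w).1, congrArg _ (hu.per w).2⟩
  refine (fold_ind (p := fun z => ‖iteratedFDeriv ℝ j u z‖ ≤ (1 + ‖T.S‖) * C ∧
    ‖iteratedFDeriv ℝ j (fun w => T.S (u w)) z‖ ≤ (1 + ‖T.S‖) * C) (fun w => ?_) (fun w hw => ?_)
    (fun w hw => ?_) (fun w hw => ?_) z).1
  · simp only [(hu.per.iteratedFDeriv j w).1, (hu.per.iteratedFDeriv j w).2,
      (hp.iteratedFDeriv j w).1, (hp.iteratedFDeriv j w).2, and_self]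
  · rw [FCpt_r1, FCpt_r1]
    simp only [hu.eq1, hT.SS]
    exact hw.symm
  · rw [FCpt_r2, FCpt_r2]
    simp only [hu.eq2, hT.SS]
    exact hw.symm
  · have h1 := h w hw
    have h0 : 0 ≤ C := (norm_nonneg _).trans h1
    have h2 := T.S.norm_iteratedFDeriv_comp_left (hu.sm.contDiffAt (x := w)) (n := j)
      (mod_cast le_top)
    have h3 := mul_le_mul_of_nonneg_left h1 (norm_nonneg T.S)
    have h4 := mul_nonneg (norm_nonneg T.S) h0
    exact ⟨by linarith, h2.trans (by linarith)⟩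

theorem FCpt_xpt : Continuous (xpt k) := by
  refine (PiLp.continuous_toLp 2 _).comp (continuous_pi fun j => ?_)
  split_ifs
  · fun_prop
  · exact continuous_const

theorem FCpt_Vs (h : Ctx T κ G δ r) {τ : ℝ} (hτ : τ ∈ Icc (0 : ℝ) 1) {u : ℂ → V}
    (hu : Sol T κ τ u) {z : ℂ} (hz : |cc z| ≤ δ) : u z ∈ T.Vs :=
  h.ok.collar_Vs hu.per ⟨hu.eq1, hu.eq2⟩ (fun _ hw hc => h.thick (h.collar hτ hu hw hc)) z hz

theorem FCpt_sq {z : ℂ} (hz : z ∈ Sq) : ‖z‖ < 10 := by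
  have := Complex.norm_le_abs_re_add_abs_im z
  linarith [hz.1, hz.2, Real.pi_lt_four]

theorem Ctx.iter_bound (hE : EEstStmt) (h : Ctx T κ G δ r) (j : ℕ) :
    ∃ C : ℝ, ∀ τ ∈ Icc (0 : ℝ) 1, ∀ u, Sol T κ τ u → ∀ z, ‖iteratedFDeriv ℝ j u z‖ ≤ C := by
  have hT := h.ok
  obtain ⟨M, hM⟩ := isCompact_Icc.exists_bound_of_continuousOn (s := Icc (0 : ℝ) 1)
    (f := fun τ => T.Θ (xpt k (τ * T.D)))
    (hT.smΘ.continuous.comp (FCpt_xpt.comp (continuous_id.mul continuous_const))).continuousOn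
  have hO : IsOpen ((interior Sq ∪ {z | |cc z| < δ}) ∩ Metric.ball (0 : ℂ) 10) :=
    (isOpen_interior.union (isOpen_lt contDiff_cc.continuous.abs continuous_const)).inter
      Metric.isOpen_ball
  obtain ⟨C, hC⟩ := hE V T.J {p : ℝ × (ℂ → V) // p.1 ∈ Icc (0 : ℝ) 1 ∧ Sol T κ p.1 p.2}
    (fun p => p.1.2) _ hT.smJ hO (fun p => p.2.2.sm.contDiffOn)
    (fun p z hz => hz.1.elim (fun h1 => p.2.2.hol z (interior_subset h1)) fun h1 =>
      (p.2.2.of_mem_Vs hT (FCpt_Vs h p.2.1 p.2.2 (le_of_lt h1))).2 z rfl)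
    ⟨max (M + G * 20) G, fun p z hz => ⟨le_max_of_le_left (by
      have h1 := convex_univ.norm_image_sub_le_of_norm_fderiv_le (𝕜 := ℝ) (f := p.1.2)
        (fun w _ => p.2.2.sm.differentiable (by simp) w)
        (fun w _ => (h.bound _ p.2.1 _ p.2.2).2 w) (mem_univ z1) (mem_univ z)
      have h2 : ‖z - z1‖ ≤ 20 := by
        have h3 := mem_ball_zero_iff.1 hz.2
        linarith [norm_sub_le z z1, FCpt_sq z1_mem.1]
      have h4 := hM _ p.2.1
      rw [← p.2.2.pt] at h4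
      linarith [norm_sub_norm_le (p.1.2 z) (p.1.2 z1), mul_le_mul_of_nonneg_left h2 h.G0]),
      le_max_of_le_right ((h.bound _ p.2.1 _ p.2.2).2 z)⟩⟩ Sq isCompact_sq (fun z hz => by
      refine ⟨or_iff_not_imp_left.2 fun hn => ?_, mem_ball_zero_iff.2 (FCpt_sq hz)⟩
      rw [interior_sq] at hn
      have h1 : cc z = 0 := (cc_eq_zero hz).2 (not_not.1 fun hb => hn ⟨hz, hb⟩)
      change |cc z| < δ
      rw [h1, abs_zero]
      exact h.δ0) j
  exact ⟨_, fun τ hτ u hu => FCpt_fold hT hu (hC ⟨(τ, u), hτ, hu⟩)⟩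

/-- A closed description of the zero set. -/
def FCpt_A (T : TD k V) (κ : ℂ → ℂ) (δ r : ℝ) : Set T.B :=
  {x | T.F κ δ x = 0} ∩ {x | x.2 ∈ Icc (0 : ℝ) 1} ∩
    (⋂ z ∈ {z | z ∈ Sq ∧ cc z ≤ δ}, {x | fn x.1.1 z ∈ Metric.cthickening r T.L0}) ∩
    {x | fn x.1.1 z1 ∈ T.W} ∩ (⋂ j ∈ {j | j ≠ 0}, {x | T.Cc (fn x.1.1 z1) j = 1}) ∩
    {x | intSq (fun _ => 1) (T.den x.1) = π} ∩ {x | intSq (fun _ => 1) (T.jacW x.1) = π}

theorem FCpt_closed (hT : T.OK) : IsClosed (FCpt_A T κ δ r) := by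
  have c1 : Continuous fun x : T.B => x.1.1 := continuous_subtype_val.comp continuous_fst
  have c2 : ∀ z, Continuous fun x : T.B => fn x.1.1 z := fun z => (ev z).continuous.comp c1
  refine ((((((isClosed_eq (hT.contDiff_F κ δ).continuous continuous_const).inter
    (isClosed_Icc.preimage continuous_snd)).inter
    (isClosed_biInter fun z _ => Metric.isClosed_cthickening.preimage (c2 z))).inter
    (hT.clW.preimage (c2 z1))).inter (isClosed_biInter fun j _ => isClosed_eq ?_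
    continuous_const)).inter (isClosed_eq ((intSq _).continuous.comp
    (hT.contDiff_den.continuous.comp c1)) continuous_const)).inter
    (isClosed_eq ((intSq _).continuous.comp (hT.contDiff_jacW.continuous.comp c1))
    continuous_const)
  exact (PiLp.continuous_apply 2 _ j).comp (hT.smC.continuous.comp (c2 z1))

theorem FCpt_int {u : WA 2 ℝ} {g : ℂ → ℝ} (h : ∀ z, fn u z = g z) (e : ∫ z in Sq, g z = π) :
    intSq (fun _ => 1) u = π := by
  rw [intSq_apply continuousOn_const]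
  simp only [one_mul, h]
  rw [integral_complex_ofReal, e]

theorem FCpt_eq (h : Ctx T κ G δ r) (hs : ∀ x ∈ T.Z κ δ, Sol T κ x.2 (fn x.1.1)) :
    T.Z κ δ = FCpt_A T κ δ r := by
  have hT := h.ok
  refine Subset.antisymm (fun x hx => ?_) ?_
  · have hu := hs x hx
    have hτ : x.2 ∈ Icc (0 : ℝ) 1 := hx.2.2
    refine ⟨⟨⟨⟨⟨⟨hx.2.1, hτ⟩, mem_iInter₂.2 fun z hz => h.collar hτ hu hz.1 hz.2⟩,
      hu.mapW z1_mem.1⟩, mem_iInter₂.2 fun j hj => ?_⟩, FCpt_int (hT.fn_den _) hu.area⟩,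
      FCpt_int (hT.fn_jacW _) hu.cls⟩
    change T.Cc (fn x.1.1 z1) j = 1
    rw [hu.pt, (hT.CΘ _ (hT.larc_sub (hT.xpt_mem hτ.1 hτ.2))).2.2]
    exact if_neg hj
  · rintro x ⟨⟨⟨⟨⟨⟨h1, h2⟩, h3⟩, h4⟩, h5⟩, h6⟩, h7⟩
    refine ⟨⟨hT.collar_Vs (per _) x.1.2 fun z hz hc => h.thick (mem_iInter₂.1 h3 z ⟨hz, hc⟩),
      hT.mem_interior h4, fun j hj => ?_, ?_, ?_⟩, h1, h2⟩
    · rw [show T.Cc (fn x.1.1 z1) j = 1 from mem_iInter₂.1 h5 j hj]
      exact one_pos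
    · rw [show intSq (fun _ => 1) (T.den x.1) = π from h6, sub_self, norm_zero]
      exact one_pos
    · rw [show intSq (fun _ => 1) (T.jacW x.1) = π from h7, sub_self, norm_zero]
      exact one_pos

theorem Ctx.isCompact_Z (hE : EEstStmt) (h : Ctx T κ G δ r)
    (hs : ∀ x ∈ T.Z κ δ, Sol T κ x.2 (fn x.1.1)) : IsCompact (T.Z κ δ) := by
  have hc : IsClosed (T.Z κ δ) := FCpt_eq h hs ▸ FCpt_closed h.ok
  refine IsSeqCompact.isCompact fun x hx => ?_
  obtain ⟨τ, -, φ, hφ, h1⟩ := isCompact_Icc.tendsto_subseq (x := fun n => (x n).2)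
    fun n => (hx n).2.2
  obtain ⟨ψ, v, hψ, h2⟩ := WA.subseq (fun n => (x (φ n)).1.1) (fun n => (hs _ (hx _)).sm) fun j =>
    (h.iter_bound hE j).imp fun C hC n => hC _ (hx _).2.2 _ (hs _ (hx _))
  have hv : v ∈ eqvSub 3 T.S T.S :=
    (isClosed_eqvSub 3 T.S T.S).mem_of_tendsto h2 (Eventually.of_forall fun n => (x _).1.2)
  have h3 : Tendsto (x ∘ φ ∘ ψ) atTop (𝓝 (⟨v, hv⟩, τ)) :=
    (tendsto_subtype_rng.2 h2).prodMk_nhds (h1.comp hψ.tendsto_atTop)
  exact ⟨_, hc.mem_of_tendsto h3 (Eventually.of_forall fun n => hx _), φ ∘ ψ, hφ.comp hψ, h3⟩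

end Pool.Agent.Lib.MP_ccffa6_gt
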