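import Pool.Agent.Lib.MP_ccffa6_gt.T.FSym
import Pool.Agent.Lib.MP_ccffa6_gt.T.Base2
import Pool.Agent.Lib.MP_ccffa6_gt.T.Iface

/-! The nonlinear map whose zeros are the doubled discs. -/

open Set Filter Topology MeasureTheory
open scoped ContDiff ComplexConjugate Real

noncomputable section

namespace Pool.Agent.Lib.MP_ccffa6_gt

open WA

/-- The cut-off which switches between the two kinds of sheets. -/
def chi (δ : ℝ) (z : ℂ) : ℝ := Real.smoothTransition ((cc z / δ + 1) / 2)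

theorem contDiff_chi (δ : ℝ) : ContDiff ℝ ∞ (chi δ) :=
  Real.smoothTransition.contDiff.comp
    (((contDiff_cc.div_const δ).add contDiff_const).div_const 2)

theorem per_chi (δ : ℝ) : Per (chi δ) := fun z => by
  simp only [chi, (cc_per z).1, (cc_per z).2, and_self]

/-- The cut-off as an element of the scale. -/
def chiW (δ : ℝ) : WA 3 ℝ := Classical.choose (of_smooth (contDiff_chi δ) (per_chi δ))

theorem fn_chiW (δ : ℝ) : fn (chiW δ) = chi δ :=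
  Classical.choose_spec (of_smooth (contDiff_chi δ) (per_chi δ))

open Classical in
/-- Weighted integral over the square. -/
def intSq (ρ : ℂ → ℂ) : WA 2 ℝ →L[ℝ] ℂ :=
  if h : ContinuousOn ρ Sq then Classical.choose (exists_intSq h) else 0

theorem intSq_apply {ρ : ℂ → ℂ} (h : ContinuousOn ρ Sq) (u : WA 2 ℝ) :
    intSq ρ u = ∫ z in Sq, ρ z * ((fn u z : ℝ) : ℂ) := by
  rw [intSq, dif_pos h]
  exact Classical.choose_spec (exists_intSq h) u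

/-- `(a, b) ↦ Im (conj a * b)`. -/
def imB : ℂ →L[ℝ] ℂ →L[ℝ] ℝ :=
  (ContinuousLinearMap.compL ℝ ℂ ℂ ℝ Complex.imCLM).comp
    ((ContinuousLinearMap.mul ℝ ℂ).comp (Complex.conjCLE : ℂ →L[ℝ] ℂ))

theorem imB_apply (a b : ℂ) : imB a b = (conj a * b).im := rfl

variable {V : Type} [NormedAddCommGroup V] [NormedSpace ℝ V] [FiniteDimensional ℝ V] {k : ℕ}

/-- `(M, w) ↦ M · w`. -/
def flipB (V : Type) [NormedAddCommGroup V] [NormedSpace ℝ V] :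
    (V →L[ℝ] V →L[ℝ] V) →L[ℝ] V →L[ℝ] V →L[ℝ] V :=
  (ContinuousLinearMap.flipₗᵢ ℝ V V V).toContinuousLinearEquiv.toContinuousLinearMap

omit [FiniteDimensional ℝ V] in
theorem flipB_apply (M : V →L[ℝ] V →L[ℝ] V) (w v : V) : flipB V M w v = M v w := rfl

/-- `v ↦ v_x + j v_y + a v`. -/
def Lgen (j : WA 3 (V →L[ℝ] V)) (a : WA 2 (V →L[ℝ] V)) : WA 3 V →L[ℝ] WA 2 V :=
  dx + (app (WA.incl j)).comp dy + (app a).comp WA.incl

/-- `z ↦ (χ z, u z)`. -/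
def lift (δ : ℝ) (u : WA 3 V) : WA 3 (ℝ × V) :=
  lin (ContinuousLinearMap.inl ℝ ℝ V) (chiW δ) + lin (ContinuousLinearMap.inr ℝ ℝ V) u

namespace TD

variable (T : TD k V)

/-- The projection onto the tangent space. -/
def P (y : V) : V →L[ℝ] V := ContinuousLinearMap.id ℝ V - fderiv ℝ T.ν y

def Jt (p : ℝ × V) : V →L[ℝ] V := p.1 • T.J p.2 + (1 - p.1) • T.J' p.2

def DJt (p : ℝ × V) : V →L[ℝ] V →L[ℝ] V :=
  p.1 • fderiv ℝ T.J p.2 + (1 - p.1) • fderiv ℝ T.J' p.2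

def νt (p : ℝ × V) : V := p.1 • T.ν p.2 + (1 - p.1) • T.S (T.ν (T.S p.2))

def Pt (p : ℝ × V) : V →L[ℝ] V :=
  p.1 • T.P p.2 + (1 - p.1) • T.S.comp ((T.P (T.S p.2)).comp T.S)

def jW (δ : ℝ) (u : WA 3 V) : WA 3 (V →L[ℝ] V) := sup T.Jt (lift δ u)

def pW (δ : ℝ) (u : WA 3 V) : WA 3 (V →L[ℝ] V) := sup T.Pt (lift δ u)

def aW (δ : ℝ) (u : WA 3 V) : WA 2 (V →L[ℝ] V) :=
  bil (flipB V) (WA.incl (sup T.DJt (lift δ u))) (dy u)

def eta (δ : ℝ) (u : WA 3 V) : WA 2 V := dx u + app (WA.incl (T.jW δ u)) (dy u)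

def mu (δ : ℝ) (u : WA 3 V) : WA 3 V := sup T.νt (lift δ u)

def den (u : WA 3 V) : WA 2 ℝ := app (app (WA.incl (sup (dF T.lam) u)) (dx u)) (dy u)

def jacW (u : WA 3 V) : WA 2 ℝ :=
  bil imB (dx (sup (fun y => T.Cc y 1) u)) (dy (sup (fun y => T.Cc y 1) u))

/-- The linearised operator. -/
def Lop (δ : ℝ) (u : WA 3 V) : WA 3 V →L[ℝ] WA 2 V := Lgen (T.jW δ u) (T.aW δ u)

/-- The linearised operator, pointwise. -/
def Lpt (u v : ℂ → V) (z : ℂ) : V :=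
  px v z + T.J (u z) (py v z) + fderiv ℝ T.J (u z) (v z) (py u z)

/-- The linearised density. -/
def Dden (u v : ℂ → V) (z : ℂ) : ℝ :=
  fderiv ℝ (dF T.lam) (u z) (v z) (px u z) (py u z) + dF T.lam (u z) (px v z) (py u z) +
    dF T.lam (u z) (px u z) (py v z)

/-- The source. -/
abbrev B : Type := eqvSub 3 T.S T.S × ℝ

/-- The target. -/
abbrev Y (k : ℕ) (V : Type) [NormedAddCommGroup V] [NormedSpace ℝ V] [FiniteDimensional ℝ V] :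
    Type := WA 2 V × WA 3 V × (Fin (k + 2) → ℝ) × ℂ

/-- The nonlinear map. -/
def F (κ : ℂ → ℂ) (δ : ℝ) (x : T.B) : Y k V :=
  (T.eta δ x.1, T.mu δ x.1, fun j => (T.Cc (fn x.1.1 z1) j - xpt k (x.2 * T.D) j).im,
    intSq κ (T.den x.1))

/-- The tangential projection on the first factor. -/
def Q1 (δ : ℝ) (u : WA 3 V) : WA 2 V →L[ℝ] WA 2 V :=
  (app (WA.incl (T.pW δ u))).comp (symm (-T.S) T.S)

/-- The normal projection on the second factor. -/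
def Q2 (δ : ℝ) (u : WA 3 V) : WA 3 V →L[ℝ] WA 3 V :=
  (ContinuousLinearMap.id ℝ _ - app (T.pW δ u)).comp (symm T.S T.S)

/-- The perturbations. -/
def Pe (δ : ℝ) (x : T.B) : Y k V →L[ℝ] Y k V :=
  (T.Q1 δ x.1).prodMap ((0 : WA 3 V →L[ℝ] WA 3 V).prodMap (ContinuousLinearMap.id ℝ _))

/-- The localising projections. -/
def Q (δ : ℝ) (x : T.B) : Y k V →L[ℝ] Y k V :=
  (T.Q1 δ x.1).prodMap ((T.Q2 δ x.1).prodMap (ContinuousLinearMap.id ℝ _))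

/-- The domain. -/
def Om (δ : ℝ) : Set T.B :=
  {x | (∀ z, |cc z| ≤ δ → fn x.1.1 z ∈ T.Vs) ∧
    fn x.1.1 z1 ∈ interior {y | T.ν y = 0 → y ∈ T.W} ∧
    (∀ j, j ≠ 0 → 0 < (T.Cc (fn x.1.1 z1) j).re) ∧
    ‖intSq (fun _ => 1) (T.den x.1) - π‖ < 1 ∧ ‖intSq (fun _ => 1) (T.jacW x.1) - π‖ < 1}

/-- The zero set. -/
def Z (κ : ℂ → ℂ) (δ : ℝ) : Set T.B :=
  {x | x ∈ T.Om δ ∧ T.F κ δ x = 0 ∧ ContinuousLinearMap.snd ℝ _ ℝ x ∈ Icc (0 : ℝ) 1}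

end TD

/-- The standing assumptions. -/
structure Ctx (T : TD k V) (κ : ℂ → ℂ) (G δ r : ℝ) : Prop where
  ok : T.OK
  kap : Kap κ
  δ0 : 0 < δ
  G0 : 0 ≤ G
  bound : ∀ τ ∈ Icc (0 : ℝ) 1, ∀ u, Sol T κ τ u →
    (∀ z ∈ SqB, -T.l / 2 ≤ (T.Cc (u z) 0).im ∧ (T.Cc (u z) 0).im ≤ T.D + T.l / 2) ∧
    ∀ z, ‖fderiv ℝ u z‖ ≤ G
  thick : Metric.cthickening r T.L0 ⊆ T.Vs
  small : G * (π * √δ) ≤ r

/-- The standard disc in the model. -/
def h0 (k : ℕ) (κ : ℂ → ℂ) (z : ℂ) : Cm k :=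
  WithLp.toLp 2 fun j => if j = 1 then κ z else xpt k 0 j

end Pool.Agent.Lib.MP_ccffa6_gt
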