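import Pool.Agent.Lib.MP_ccffa6_gt.T.FPt

/-! Symmetry classes of the operators, smoothness of the nonlinear map. -/

open Set Filter Topology MeasureTheory
open scoped ContDiff ComplexConjugate Real

noncomputable section

namespace Pool.Agent.Lib.MP_ccffa6_gt

open WA

variable {V : Type} [NormedAddCommGroup V] [NormedSpace ℝ V] [FiniteDimensional ℝ V] {k : ℕ}
  {T : TD k V} {κ : ℂ → ℂ} {G δ r : ℝ}

theorem TD.OK.eqv_jW (hT : T.OK) (δ : ℝ) {u : WA 3 V} (hu : Eqv T.S T.S (fn u)) (z : ℂ) (v : V) :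
    fn (T.jW δ u) (r1 z) (T.S v) = -T.S (fn (T.jW δ u) z v) ∧
    fn (T.jW δ u) (r2 z) (T.S v) = -T.S (fn (T.jW δ u) z v) := by
  simp only [hT.fn_jW, chi_r1, chi_r2, hu.1, hu.2, and_self]
  exact (hT.eqv_fields _ _ v v).1

theorem TD.OK.eqv_pW (hT : T.OK) (δ : ℝ) {u : WA 3 V} (hu : Eqv T.S T.S (fn u)) (z : ℂ) (v : V) :
    fn (T.pW δ u) (r1 z) (T.S v) = T.S (fn (T.pW δ u) z v) ∧
    fn (T.pW δ u) (r2 z) (T.S v) = T.S (fn (T.pW δ u) z v) := by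
  simp only [hT.fn_pW, chi_r1, chi_r2, hu.1, hu.2, and_self]
  exact (hT.eqv_fields _ _ v v).2.2.2

theorem TD.OK.eqv_aW (hT : T.OK) (δ : ℝ) {u : WA 3 V} (hu : Eqv T.S T.S (fn u)) (z : ℂ) (v : V) :
    fn (T.aW δ u) (r1 z) (T.S v) = -T.S (fn (T.aW δ u) z v) ∧
    fn (T.aW δ u) (r2 z) (T.S v) = T.S (fn (T.aW δ u) z v) := by
  have h := eqv_deriv (S := T.S) (FSym_diff u) z
  simp only [hT.fn_aW, chi_r1, chi_r2, hu.1, hu.2, (h.1 hu.1).2, (h.2 hu.2).2, map_neg,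
    (hT.eqv_fields _ _ v _).2.1, neg_neg, and_self]

theorem TD.OK.eqv_eta (hT : T.OK) (δ : ℝ) {u : WA 3 V} (hu : Eqv T.S T.S (fn u)) :
    Eqv (-T.S) T.S (fn (T.eta δ u)) := by
  have h := eqv_deriv (S := T.S) (FSym_diff u)
  refine ⟨fun z => ?_, fun z => ?_⟩
  · rw [hT.fn_eta, hT.fn_eta, chi_r1, hu.1, ((h z).1 hu.1).1, ((h z).1 hu.1).2,
      (hT.eqv_fields _ _ _ 0).1, map_add, neg_apply, neg_apply]
  · rw [hT.fn_eta, hT.fn_eta, chi_r2, hu.2, ((h z).2 hu.2).1, ((h z).2 hu.2).2, map_neg,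
      (hT.eqv_fields _ _ _ 0).1, map_add, neg_neg]

theorem TD.OK.eqv_mu (hT : T.OK) (δ : ℝ) {u : WA 3 V} (hu : Eqv T.S T.S (fn u)) :
    Eqv T.S T.S (fn (T.mu δ u)) :=
  ⟨fun z => by rw [hT.fn_mu, hT.fn_mu, chi_r1, hu.1, (hT.eqv_fields _ _ 0 0).2.2.1],
    fun z => by rw [hT.fn_mu, hT.fn_mu, chi_r2, hu.2, (hT.eqv_fields _ _ 0 0).2.2.1]⟩

theorem TD.OK.FEq_p1 (hT : T.OK) (δ : ℝ) {u : WA 3 V} (hu : Eqv T.S T.S (fn u)) (z : ℂ) (v : V) :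
    fn (WA.incl (T.pW δ u)) (r1 z) ((-T.S) v) = (-T.S) (fn (WA.incl (T.pW δ u)) z v) := by
  rw [fn_incl, neg_apply, neg_apply, map_neg, (hT.eqv_pW δ hu z v).1]

theorem TD.OK.FEq_p2 (hT : T.OK) (δ : ℝ) {u : WA 3 V} (hu : Eqv T.S T.S (fn u)) (z : ℂ) (v : V) :
    fn (WA.incl (T.pW δ u)) (r2 z) (T.S v) = T.S (fn (WA.incl (T.pW δ u)) z v) := by
  rw [fn_incl, (hT.eqv_pW δ hu z v).2]

theorem TD.OK.eqv_Q1 (hT : T.OK) (δ : ℝ) {u : WA 3 V} (hu : Eqv T.S T.S (fn u)) (e : WA 2 V) :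
    Eqv (-T.S) T.S (fn (T.Q1 δ u e)) :=
  eqv_app (hT.FEq_p1 δ hu) (hT.FEq_p2 δ hu) (eqv_symm hT.inv2.2.1 e)

theorem TD.OK.eqv_Q2 (hT : T.OK) (δ : ℝ) {u : WA 3 V} (hu : Eqv T.S T.S (fn u)) (e : WA 3 V) :
    Eqv T.S T.S (fn (T.Q2 δ u e)) :=
  (eqvSub 3 T.S T.S).sub_mem (eqv_symm hT.inv2.1 e) (eqv_app (fun z v => (hT.eqv_pW δ hu z v).1)
    (fun z v => (hT.eqv_pW δ hu z v).2) (eqv_symm hT.inv2.1 e))

theorem TD.OK.pW_symm (hT : T.OK) (δ : ℝ) {u : WA 3 V} (hu : Eqv T.S T.S (fn u)) :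
    (∀ v : WA 3 V, app (T.pW δ u) (symm T.S T.S v) = symm T.S T.S (app (T.pW δ u) v)) ∧
    ∀ e : WA 2 V, app (WA.incl (T.pW δ u)) (symm (-T.S) T.S e) =
      symm (-T.S) T.S (app (WA.incl (T.pW δ u)) e) :=
  ⟨app_symm hT.inv2.1 hT.inv2.1 (fun z v => (hT.eqv_pW δ hu z v).1)
    fun z v => (hT.eqv_pW δ hu z v).2,
    app_symm hT.inv2.2.1 hT.inv2.2.1 (hT.FEq_p1 δ hu) (hT.FEq_p2 δ hu)⟩

theorem TD.OK.Lop_symm (hT : T.OK) (δ : ℝ) {u : WA 3 V} (hu : Eqv T.S T.S (fn u)) (v : WA 3 V) :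
    T.Lop δ u (symm T.S T.S v) = symm (-T.S) T.S (T.Lop δ u v) := by
  have e : ∀ w, T.Lop δ u w =
      dx w + app (WA.incl (T.jW δ u)) (dy w) + app (T.aW δ u) (WA.incl w) := fun _ => rfl
  have h1 := app_symm (A := WA.incl (T.jW δ u)) hT.inv2.2.2 hT.inv2.2.1
    (fun z v => by rw [fn_incl, (hT.eqv_jW δ hu z v).1, neg_apply])
    (fun z v => by rw [fn_incl, neg_apply, map_neg, (hT.eqv_jW δ hu z v).2, neg_neg]) (dy v)
  have h2 := app_symm (A := T.aW δ u) hT.inv2.1 hT.inv2.2.1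
    (fun z v => (hT.eqv_aW δ hu z v).1) (fun z v => (hT.eqv_aW δ hu z v).2) (WA.incl v)
  rw [e, e, dx_symm, dy_symm, incl_symm, h1, h2, map_add, map_add]

theorem TD.OK.eqv_Lop (hT : T.OK) (δ : ℝ) {u v : WA 3 V} (hu : Eqv T.S T.S (fn u))
    (hv : Eqv T.S T.S (fn v)) : Eqv (-T.S) T.S (fn (T.Lop δ u v)) := by
  rw [← symm_eq hT.inv2.1 hv, hT.Lop_symm δ hu]
  exact eqv_symm hT.inv2.2.1 _

theorem FEq_lift (δ : ℝ) : ContDiff ℝ ∞ (lift δ : WA 3 V → WA 3 (ℝ × V)) :=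
  contDiff_const.add (lin (ContinuousLinearMap.inr ℝ ℝ V)).contDiff

theorem FEq_app {X V' : Type} [NormedAddCommGroup X] [NormedSpace ℝ X] [NormedAddCommGroup V']
    [NormedSpace ℝ V'] [FiniteDimensional ℝ V'] {m : ℕ} {f : X → WA m (V →L[ℝ] V')}
    (hf : ContDiff ℝ ∞ f) : ContDiff ℝ ∞ fun x => app (f x) :=
  (bil (ContinuousLinearMap.id ℝ (V →L[ℝ] V'))).contDiff.comp hf

theorem FEq_dF {α : Form1 V} (h : ContDiff ℝ ∞ α) : ContDiff ℝ ∞ (dF α) := by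
  have h1 : ContDiff ℝ ∞ (fderiv ℝ α) := h.fderiv_right (m := ∞) (by simp)
  refine contDiff_clm_apply_iff.2 fun u => contDiff_clm_apply_iff.2 fun v => ?_
  exact ((h1.clm_apply contDiff_const).clm_apply contDiff_const).sub
    ((h1.clm_apply contDiff_const).clm_apply contDiff_const)

theorem TD.OK.contDiff_pW (hT : T.OK) (δ : ℝ) : ContDiff ℝ ∞ (T.pW δ) :=
  (contDiff_sup (by norm_num) hT.smPt).comp (FEq_lift δ)

theorem TD.OK.contDiff_den (hT : T.OK) : ContDiff ℝ ∞ T.den :=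
  (FEq_app ((FEq_app (WA.incl.contDiff.comp (contDiff_sup (k := 3) (by norm_num)
    (FEq_dF hT.smlam)))).clm_apply dx.contDiff)).clm_apply dy.contDiff

theorem TD.OK.contDiff_jacW (hT : T.OK) : ContDiff ℝ ∞ T.jacW := by
  have h : ContDiff ℝ ∞ (sup (fun y => T.Cc y 1) : WA 3 V → WA 3 ℂ) :=
    contDiff_sup (by norm_num) ((contDiff_piLp 2).1 hT.smC 1)
  exact ((bil imB).contDiff.comp (dx.contDiff.comp h)).clm_apply (dy.contDiff.comp h)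

theorem FEq_xpt (j : Fin (k + 2)) : ContDiff ℝ ∞ fun t : ℝ => xpt k t j := by
  by_cases h : j = 0
  · simp only [xpt, if_pos h]
    exact Complex.ofRealCLM.contDiff.mul contDiff_const
  · simp only [xpt, if_neg h]
    exact contDiff_const

theorem FEq_val : ContDiff ℝ ∞ fun x : T.B => x.1.1 :=
  (eqvSub 3 T.S T.S).subtypeL.contDiff.comp contDiff_fst

theorem TD.OK.contDiff_F (hT : T.OK) (κ : ℂ → ℂ) (δ : ℝ) : ContDiff ℝ ∞ (T.F κ δ) := by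
  have h1 : ContDiff ℝ ∞ (T.eta δ) := dx.contDiff.add ((FEq_app (WA.incl.contDiff.comp
    ((contDiff_sup (by norm_num) hT.smJt).comp (FEq_lift δ)))).clm_apply dy.contDiff)
  have h2 : ContDiff ℝ ∞ (T.mu δ) := (contDiff_sup (by norm_num) hT.smνt).comp (FEq_lift δ)
  refine (h1.comp FEq_val).prodMk ((h2.comp FEq_val).prodMk (ContDiff.prodMk
    (contDiff_pi.2 fun j => ?_) ((intSq κ).contDiff.comp (hT.contDiff_den.comp FEq_val))))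
  exact Complex.imCLM.contDiff.comp ((((contDiff_piLp 2).1 hT.smC j).comp
    ((ev z1).contDiff.comp FEq_val)).sub ((FEq_xpt j).comp (contDiff_snd.mul contDiff_const)))

theorem TD.OK.contDiff_Pe (hT : T.OK) (δ : ℝ) : ContDiff ℝ ∞ (T.Pe δ) := by
  have h1 : ContDiff ℝ ∞ (T.Q1 δ) :=
    (FEq_app (WA.incl.contDiff.comp (hT.contDiff_pW δ))).clm_comp contDiff_const
  exact (ContinuousLinearMap.prodMapL ℝ (WA 2 V) (WA 2 V) (WA 3 V × (Fin (k + 2) → ℝ) × ℂ)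
    (WA 3 V × (Fin (k + 2) → ℝ) × ℂ)).contDiff.comp ((h1.comp FEq_val).prodMk contDiff_const)

end Pool.Agent.Lib.MP_ccffa6_gt
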