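import Pool.Agent.Lib.MP_ccffa6_gt.T.FApx

/-! The parametrix.

On `V × V` let `j₀ (a, b) = (-b, a)`, `I = (p, -j p) : V → V × V`, `Π (a, b) = (p a + j p b) / 2`
(elements of `WA 3` of operator spaces, built with `bil` and `lin`). Pointwise `I p = I`,
`p Π = Π`, `Π I v = p v`, `I (j p w) = j₀ (I w)`, `Π j₀ = j Π`.
Kernel: for `p v = v` we have `v_y - p v_y = p_y v`, hence
`db (I v) = I (p (L v)) + c v` with `c = I_x + j₀ I_y - I (j p_y + a)` in `WA 2`; `dbInv_db` gives
`v = Π dbInv (I p L v + c (WA.incl v)) + Π const (mean (I v))`.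
Cokernel: `R η = Π dbInv (I η)`, `p L R η = η + K η` for `p η = η`, with
`K η = - Π const (mean (I η)) + p (Π_x + j Π_y + a Π) incl (dbInv (I η))`; apply `FredStmt` to
`p K p` and project. The product rule is checked pointwise (`fn_dx`, `WA.contDiff`). -/

open Set Filter Topology MeasureTheory
open scoped ContDiff ComplexConjugate Real

noncomputable section

namespace Pool.Agent.Lib.MP_ccffa6_gt



open WA

variable {V : Type} [NormedAddCommGroup V] [NormedSpace ℝ V] [FiniteDimensional ℝ V]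

theorem par_cok (hF : FredStmt) (p j : WA 3 (V →L[ℝ] V)) (a : WA 2 (V →L[ℝ] V))
    (hp : ∀ z v, fn p z (fn p z v) = fn p z v)
    (hj : ∀ z v, fn p z v = v → fn p z (fn j z v) = fn j z v ∧ fn j z (fn j z v) = -v) :
    ∃ E : Submodule ℝ (WA 2 V), FiniteDimensional ℝ E ∧
      ∀ η, app (WA.incl p) η = η → ∃ v, ∃ e ∈ E, app p v = v ∧
        η = app (WA.incl p) (Lgen j a v) + app (WA.incl p) e := by
  obtain ⟨I, Q, -, h2, h3, -, h5⟩ := exists_IPi p j hp hj
  let D : WA 2 V →L[ℝ] WA 3 (V × V) := (dbInv (j0 V)).comp (app (WA.incl I))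
  let K₁ : WA 2 V →L[ℝ] WA 2 V :=
    ((app (WA.incl Q)).comp const).comp (mean.comp (app (WA.incl I)))
  let K₂ : WA 2 (V × V) →L[ℝ] WA 2 V :=
    app (dx Q) + (app (WA.incl j)).comp (app (dy Q)) + (app a).comp (app (WA.incl Q))
  have hK : Approx (-K₁ + K₂.comp (WA.incl.comp D)) :=
    (Approx.of_fin _).neg'.add' ((approx_incl.pre D).post K₂)
  obtain ⟨E, hE, hs⟩ := (hF _ _ hK).2
  have e1 : ∀ w : WA 3 (V × V), WA.incl (app Q w) = app (WA.incl Q) (WA.incl w) := fun w =>
    ext fun z => by rw [fn_incl, fn_app, fn_app, fn_incl, fn_incl]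
  have e2 : ∀ w : WA 2 (V × V),
      app (WA.incl j) (app (WA.incl Q) w) = app (WA.incl Q) (lin (j0 V) w) := fun w =>
    ext fun z => by rw [fn_app, fn_app, fn_app, fn_incl, fn_incl, fn_lin, h5]
  have e3 : ∀ v : WA 2 V, app (WA.incl Q) (app (WA.incl I) v) = app (WA.incl p) v := fun v =>
    ext fun z => by rw [fn_app, fn_app, fn_app, fn_incl, fn_incl, fn_incl, h3]
  have e4 : ∀ v : WA 2 V, app (WA.incl p) (app (WA.incl p) v) = app (WA.incl p) v := fun v =>
    ext fun z => by rw [fn_app, fn_app, fn_incl, hp]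
  have key : ∀ v : WA 2 V, Lgen j a (app Q (D v)) =
      app (WA.incl p) v + (-K₁ + K₂.comp (WA.incl.comp D)) v := fun v => by
    have k1 : app (WA.incl Q) (dx (D v)) + app (WA.incl Q) (lin (j0 V) (dy (D v))) =
        app (WA.incl p) v - K₁ v := by
      rw [← map_add, ← e3]
      exact (congrArg (app (WA.incl Q)) (db_dbInv j0_j0 (app (WA.incl I) v))).trans (map_sub _ _ _)
    have k2 : Lgen j a (app Q (D v)) = dx (app Q (D v)) + app (WA.incl j) (dy (app Q (D v))) +
        app a (WA.incl (app Q (D v))) := rfl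
    have k3 : (-K₁ + K₂.comp (WA.incl.comp D)) v = -K₁ v + (app (dx Q) (WA.incl (D v)) +
        app (WA.incl j) (app (dy Q) (WA.incl (D v))) +
        app a (app (WA.incl Q) (WA.incl (D v)))) := rfl
    rw [k2, k3, dx_app, dy_app, map_add, e1, e2, ← add_assoc (app (WA.incl p) v), ← sub_eq_add_neg,
      ← k1]
    abel
  refine ⟨E, hE, fun η hη => ?_⟩
  obtain ⟨v, e, he, h⟩ := hs η
  refine ⟨app Q (D v), e, he, ext fun z => by rw [fn_app, fn_app, h2], ?_⟩
  rw [key, map_add, e4, ← map_add, ← map_add, ← h, hη]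

end Pool.Agent.Lib.MP_ccffa6_gt
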