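import Pool.Agent.Lib.MP_ccffa6_gt.T.FPar
import Pool.Agent.Lib.MP_ccffa6_gt.T.FPar2
import Pool.Agent.Lib.MP_ccffa6_gt.T.FDer
import Pool.Agent.Lib.MP_ccffa6_gt.T.FLoc

/-! Finite dimensional kernel and cokernel.

Cokernel: for `y = (η, μ, c, g)` put `μ' = Q2 μ`, `η' = Q1 η - p L μ'`, solve `η' = p L w + p e` with
`par_cok`, average (`Lop_symm`, `pW_symm`), `v = μ' + symm w`, and correct the last two components
inside `E × 0 × ⊤`. -/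

open Set Filter Topology MeasureTheory
open scoped ContDiff ComplexConjugate Real

noncomputable section

namespace Pool.Agent.Lib.MP_ccffa6_gt

open WA

variable {V : Type} [NormedAddCommGroup V] [NormedSpace ℝ V] [FiniteDimensional ℝ V] {k : ℕ}
  {T : TD k V} {κ : ℂ → ℂ} {G δ r : ℝ}

theorem FFred_prod {A B : Type} [AddCommGroup A] [Module ℝ A] [AddCommGroup B] [Module ℝ B]
    (E : Submodule ℝ A) (E' : Submodule ℝ B) [h : FiniteDimensional ℝ E]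
    [h' : FiniteDimensional ℝ E'] : FiniteDimensional ℝ (E.prod E') :=
  Module.Finite.iff_fg.2 ((Module.Finite.iff_fg.1 h).prod (Module.Finite.iff_fg.1 h'))

theorem FFred_idem {m : ℕ} {p : WA m (V →L[ℝ] V)} (hp : ∀ z v, fn p z (fn p z v) = fn p z v)
    (v : WA m V) : app p (app p v) = app p v :=
  WA.ext fun z => by rw [fn_app, fn_app, hp]

theorem FFred_Q1 (hT : T.OK) {u v : WA 3 V} (hu : Eqv T.S T.S (fn u)) (hv : Eqv T.S T.S (fn v)) :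
    T.Q1 δ u (T.Lop δ u v) = app (WA.incl (T.pW δ u)) (T.Lop δ u v) :=
  congrArg (app (WA.incl (T.pW δ u))) (symm_eq hT.inv2.2.1 (hT.eqv_Lop δ hu hv))

theorem FFred_Q2 (hT : T.OK) {u v : WA 3 V} (hu : Eqv T.S T.S (fn u))
    (hp : ∀ z v, fn (T.pW δ u) z (fn (T.pW δ u) z v) = fn (T.pW δ u) z v)
    (hv : Eqv T.S T.S (fn v)) : T.Q2 δ u (v - app (T.pW δ u) v) = v - app (T.pW δ u) v := by
  have h : symm T.S T.S (v - app (T.pW δ u) v) = v - app (T.pW δ u) v := by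
    rw [map_sub, ← (hT.pW_symm δ hu).1, symm_eq hT.inv2.1 hv]
  change symm T.S T.S (v - app (T.pW δ u) v) -
    app (T.pW δ u) (symm T.S T.S (v - app (T.pW δ u) v)) = _
  rw [h, map_sub, FFred_idem hp, sub_self, sub_zero]

theorem TD.OK.fred_ker (hF : FredStmt) (hT : T.OK) (hκ : ContinuousOn κ Sq) (hδ : 0 < δ)
    {x : T.B} (hx : x ∈ T.Om δ) (hW : MapsTo (fn x.1.1) Sq T.W) :
    ∃ E : Submodule ℝ T.B, FiniteDimensional ℝ E ∧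
      ∀ h, T.Q δ x (fderiv ℝ (T.F κ δ) x h) = 0 → h ∈ E := by
  have hp := fun z v => (hT.pj_alg hδ hx hW z v).1
  obtain ⟨E, hE, H⟩ := par_ker hF (T.pW δ x.1) (T.jW δ x.1) (T.aW δ x.1) hp
    fun z v => (hT.pj_alg hδ hx hW z v).2
  have hE' : FiniteDimensional ℝ (E.comap (eqvSub 3 T.S T.S).subtype) :=
    FiniteDimensional.of_injective ((eqvSub 3 T.S T.S).subtype.submoduleComap E)
      fun a b h => Subtype.ext (Subtype.ext (congrArg (fun e : E => e.1) h))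
  refine ⟨(E.comap (eqvSub 3 T.S T.S).subtype).prod ⊤, FFred_prod _ _, fun h h0 => ⟨?_, trivial⟩⟩
  rw [hT.fderiv_F hκ] at h0
  have h1 : T.Q1 δ x.1 (T.Lop δ x.1 h.1) = 0 := congrArg Prod.fst h0
  have h2 : T.Q2 δ x.1 (h.1.1 - app (T.pW δ x.1) h.1) = 0 := congrArg (fun y => y.2.1) h0
  rw [FFred_Q1 hT x.1.2 h.1.2] at h1
  rw [FFred_Q2 hT x.1.2 hp h.1.2, sub_eq_zero] at h2
  exact H _ h2.symm h1

theorem TD.OK.fred_cok (hF : FredStmt) (hT : T.OK) (hκ : ContinuousOn κ Sq) (hδ : 0 < δ)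
    {x : T.B} (hx : x ∈ T.Om δ) (hW : MapsTo (fn x.1.1) Sq T.W) :
    ∃ E : Submodule ℝ (TD.Y k V), FiniteDimensional ℝ E ∧ ∀ y, ∃ h, ∃ e ∈ E,
      T.Q δ x y = T.Q δ x (fderiv ℝ (T.F κ δ) x h) + T.Q δ x (T.Pe δ x e) := by
  have hp := fun z v => (hT.pj_alg hδ hx hW z v).1
  have hp' : ∀ z v, fn (WA.incl (T.pW δ x.1)) z (fn (WA.incl (T.pW δ x.1)) z v) =
      fn (WA.incl (T.pW δ x.1)) z v := by
    rw [fn_incl]
    exact hp
  obtain ⟨E, hE, H⟩ := par_cok hF (T.pW δ x.1) (T.jW δ x.1) (T.aW δ x.1) hp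
    fun z v => (hT.pj_alg hδ hx hW z v).2
  have hE' := FFred_prod (⊥ : Submodule ℝ (WA 3 V)) (⊤ : Submodule ℝ ((Fin (k + 2) → ℝ) × ℂ))
  refine ⟨E.prod ((⊥ : Submodule ℝ (WA 3 V)).prod ⊤), FFred_prod _ _, fun y => ?_⟩
  obtain ⟨η, μ, c⟩ := y
  obtain ⟨s₁, s₂⟩ := hT.pW_symm δ x.1.2
  have hμ := hT.eqv_Q2 δ x.1.2 μ
  obtain ⟨w, e, he, hw, h1⟩ := H
    (T.Q1 δ x.1 η - app (WA.incl (T.pW δ x.1)) (T.Lop δ x.1 (T.Q2 δ x.1 μ))) (by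
      rw [map_sub, FFred_idem hp']
      exact congrArg (· - _) (FFred_idem hp' _))
  have h2 := congrArg (symm (-T.S) T.S) h1
  rw [map_sub, map_add, symm_eq hT.inv2.2.1 (hT.eqv_Q1 δ x.1.2 η), ← s₂, ← s₂, ← s₂,
    symm_eq hT.inv2.2.1 (hT.eqv_Lop δ x.1.2 hμ)] at h2
  have h3 : symm (-T.S) T.S (Lgen (T.jW δ x.1) (T.aW δ x.1) w) = T.Lop δ x.1 (symm T.S T.S w) :=
    (hT.Lop_symm δ x.1.2 w).symm
  rw [h3] at h2
  have hv : T.Q2 δ x.1 μ + symm T.S T.S w ∈ eqvSub 3 T.S T.S :=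
    (eqvSub 3 T.S T.S).add_mem hμ (eqv_symm hT.inv2.1 w)
  refine ⟨(⟨_, hv⟩, 0), (e, 0, c - (fderiv ℝ (T.F κ δ) x (⟨_, hv⟩, 0)).2.2), ⟨he, rfl, trivial⟩,
    Prod.ext ?_ (Prod.ext ?_ (add_sub_cancel _ _).symm)⟩
  · change T.Q1 δ x.1 η = T.Q1 δ x.1 (fderiv ℝ (T.F κ δ) x (⟨_, hv⟩, 0)).1 +
      T.Q1 δ x.1 (T.Q1 δ x.1 e)
    have h4 : T.Q1 δ x.1 (T.Q1 δ x.1 e) = T.Q1 δ x.1 e :=
      congrArg Prod.fst (hT.Q_idem hδ hx hW (e, 0, 0))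
    rw [hT.fderiv_F hκ, h4, FFred_Q1 hT x.1.2 hv, map_add, map_add, add_assoc, ← sub_eq_iff_eq_add']
    exact h2
  · change T.Q2 δ x.1 μ = T.Q2 δ x.1 (fderiv ℝ (T.F κ δ) x (⟨_, hv⟩, 0)).2.1 + T.Q2 δ x.1 0
    have h4 : app (T.pW δ x.1) (T.Q2 δ x.1 μ) = 0 := by
      change app _ (symm T.S T.S μ - app (T.pW δ x.1) (symm T.S T.S μ)) = 0
      rw [map_sub, FFred_idem hp, sub_self]
    rw [hT.fderiv_F hκ, map_zero, add_zero, FFred_Q2 hT x.1.2 hp hv, map_add, h4, s₁, hw, zero_add,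
      add_sub_cancel_right]

end Pool.Agent.Lib.MP_ccffa6_gt
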