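import Pool.Agent.Lib.MP_ccffa6_gt.T.FEq

/-! Zeros are solutions. -/

open Set Filter Topology MeasureTheory
open scoped ContDiff ComplexConjugate Real

noncomputable section

namespace Pool.Agent.Lib.MP_ccffa6_gt

open WA

variable {V : Type} [NormedAddCommGroup V] [NormedSpace ℝ V] [FiniteDimensional ℝ V] {k : ℕ}
  {T : TD k V} {κ : ℂ → ℂ} {G δ r : ℝ}

theorem TD.OK.mapsTo_W (hT : T.OK) (hδ : 0 < δ) {x : T.B} (hx : x ∈ T.Om δ)
    (h : T.mu δ x.1 = 0) : MapsTo (fn x.1.1) Sq T.W := by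
  have hc := (contDiff x.1.1).continuous
  have hν : ∀ z ∈ Sq, T.ν (fn x.1.1 z) = 0 := fun z hz => by
    rw [← (hT.sq_fields hδ hz (hx.1 z)).2.2.1, ← hT.fn_mu, h, fn_zero]
  have := Subtype.preconnectedSpace convex_sq.isPreconnected
  have hc' : Continuous fun z : Sq => fn x.1.1 z := hc.comp continuous_subtype_val
  have hA : IsClopen {z : Sq | fn x.1.1 z ∈ T.W} := by
    refine ⟨hT.clW.preimage hc', isOpen_iff_mem_nhds.2 fun z hz => ?_⟩
    refine ((continuous_const.prodMk hc').continuousAt.eventually (hT.loc _ hz)).mono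
      fun w hw => hw hz ?_
    rw [hν w w.2, map_zero]
  have e := hA.eq_univ ⟨⟨z1, z1_mem.1⟩, interior_subset hx.2.1 (hν _ z1_mem.1)⟩
  exact fun z hz => eq_univ_iff_forall.1 e ⟨z, hz⟩

theorem TD.OK.hol_of_Vs (hT : T.OK) {u : ℂ → V} (hu : Differentiable ℝ u) (hp : Per u)
    (he : Eqv T.S T.S u) (hW : MapsTo u Sq T.W) (hh : JHol T.J u Sq) {z : ℂ} (hz : u z ∈ T.Vs) :
    JHol T.J u {z} := by
  rw [Base2_jhol]
  refine fold_ind (p := fun z => u z ∈ T.Vs →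
    py u z = T.J (u z) (px u z) ∧ px u z = -T.J (u z) (py u z))
    (fun z => ?_) (fun z h h1 => ?_) (fun z h h1 => ?_) (fun z hz _ => hh z hz) z hz
  · simp only [hp z, hp.px z, hp.py z, and_self]
  · obtain ⟨e1, e2⟩ := (eqv_deriv hu z).1 he.1
    have h2 := hT.SVs _ h1
    rw [he.1, hT.SS] at h2
    rw [he.1, e1, e2, map_neg, hT.SJ _ h2, hT.SJ _ h2, ← (h h2).1, neg_neg, neg_neg, ← map_neg,
      (h h2).2, neg_neg]
    exact ⟨rfl, rfl⟩
  · obtain ⟨e1, e2⟩ := (eqv_deriv hu z).2 he.2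
    have h2 := hT.SVs _ h1
    rw [he.2, hT.SS] at h2
    rw [he.2, e1, e2, map_neg, hT.SJ _ h2, hT.SJ _ h2, ← (h h2).1, neg_neg, ← map_neg, ← map_neg,
      ← (h h2).2]
    exact ⟨rfl, rfl⟩

theorem FZero_int {w : WA 2 ℝ} {f : ℂ → ℝ} (h : ∀ z, fn w z = f z)
    (h1 : ‖intSq (fun _ => 1) w - π‖ < 1) (h2 : ∃ m : ℤ, ∫ z in Sq, f z = m * π) :
    ∫ z in Sq, f z = π := by
  obtain ⟨m, hm⟩ := h2
  simp only [intSq_apply continuousOn_const, h, one_mul, integral_complex_ofReal, hm] at h1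
  rw [← Complex.ofReal_sub, Complex.norm_real, Real.norm_eq_abs, abs_lt] at h1
  have hp := Real.pi_gt_three
  have h3 : (0 : ℝ) < m := by nlinarith
  have h4 : (m : ℝ) < 2 := by nlinarith
  obtain rfl : m = 1 := by
    norm_cast at h3 h4
    omega
  rw [hm, Int.cast_one, one_mul]

theorem TD.OK.sol_of_zero (hR : ERegStmt) (hQ : QuantStmt k) (hJ : JacStmt) (hT : T.OK)
    (hκ : Kap κ) (hδ : 0 < δ) {x : T.B} (hx : x ∈ T.Z κ δ) : Sol T κ x.2 (fn x.1.1) := by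
  obtain ⟨ho, hF, -⟩ := hx
  obtain ⟨h1, h2, h3, h4⟩ : T.eta δ x.1 = 0 ∧ T.mu δ x.1 = 0 ∧
      (∀ j, (T.Cc (fn x.1.1 z1) j - xpt k (x.2 * T.D) j).im = 0) ∧ intSq κ (T.den x.1) = 0 :=
    ⟨congrArg (·.1) hF, congrArg (·.2.1) hF, congrFun (congrArg (·.2.2.1) hF),
      congrArg (·.2.2.2) hF⟩
  have hW := hT.mapsTo_W hδ ho h2
  have he : Eqv T.S T.S (fn x.1.1) := x.1.2
  have hp := WA.per x.1.1
  have h5 := contDiff x.1.1
  have hd := h5.differentiable (by simp)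
  have hh : JHol T.J (fn x.1.1) Sq := fun z hz => by
    have e := hT.fn_eta δ x.1 z
    rw [h1, fn_zero, (hT.sq_fields hδ hz (ho.1 z)).1, eq_comm, add_eq_zero_iff_eq_neg] at e
    refine ⟨?_, e⟩
    rw [e, map_neg, py, (hT.mapJ _ (hW hz) _ (tan_of_mapsTo hz (hd z) hW _)).2, neg_neg]
  have hV : ∀ z ∈ SqB, fn x.1.1 z ∈ T.Vs := fun z hz => ho.1 z (by
    rw [(cc_eq_zero hz.1).2 hz, abs_zero]
    exact hδ.le)
  have hb : MapsTo (fn x.1.1) SqB T.L := fun z hz => hT.fixL (hW hz.1) (hV z hz)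
    ((hp.sqB_fix hz).elim (he.1 z).symm.trans (he.2 z).symm.trans)
  have hN := isOpen_interior.union (hT.opVs.preimage h5.continuous) (s₁ := interior Sq)
  have h6 := hR V T.J _ _ hT.smJ hN h5.contDiffOn fun z hz => hz.elim
    (fun h => hh z (interior_subset h)) fun h => hT.hol_of_Vs hd hp he hW hh h z rfl
  have hs : ContDiff ℝ ∞ (fn x.1.1) := contDiff_iff_contDiffAt.2 <| fold_ind
    (fun z => ⟨SG_per (fun w => (hp w).1) z, SG_per (fun w => (hp w).2) z⟩)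
    (fun z => SG_cd contDiff_r1 r1_r1 he.1) (fun z => SG_cd contDiff_r2 r2_r2 he.2)
    fun z hz => h6.contDiffAt (hN.mem_nhds (by
      by_cases h : z ∈ SqB
      · exact Or.inr (hV z h)
      · exact Or.inl (interior_sq ▸ ⟨hz, h⟩)))
  obtain ⟨N, -, hN1, hN2⟩ := hκ.hol
  obtain ⟨m1, m2, -, -, m3⟩ := hT.memL (hb z1_mem)
  refine ⟨hs, hp, he.1, he.2, hW, hh, hb,
    FZero_int (hT.fn_den x.1) ho.2.2.2.1 (hQ V T _ hT hs hb), ?_, ?_,
    FZero_int (hT.fn_jacW x.1) ho.2.2.2.2 (hJ _ ((contDiff_piLp 2).1 (hT.smC.comp hs) 1)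
      fun z hz => (hT.memL (hb hz)).2.2.2.2.1.2 1 one_ne_zero)⟩
  · simpa only [intSq_apply (hN2.continuousOn.mono hN1), hT.fn_den] using h4
  · rw [← (hT.ΘC _ m1 m2).2]
    congr 1
    ext j
    have e := h3 j
    rw [Complex.sub_im, sub_eq_zero] at e
    refine Complex.ext ?_ e
    by_cases hj : j = 0
    · subst hj
      simp [xpt, m3.1.1]
    · have e1 := Complex.sq_norm_sub_sq_im (T.Cc (fn x.1.1 z1) j)
      rw [m3.1.2 j hj, e] at e1
      simp only [xpt, if_neg hj, Complex.one_im, Complex.one_re] at e1 ⊢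
      exact (sq_eq_sq₀ (ho.2.2.1 j hj).le zero_le_one).1 (by linarith)

end Pool.Agent.Lib.MP_ccffa6_gt
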