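import Pool.Agent.Lib.MP_ccffa6_gt.T.SS

/-! Uniqueness in the first box, non-existence in the second box.

`Sol.holSq`: on the open set `N ∩ u⁻¹ U` (`Sol.nbhd`) apply `TD.OK.model`.
`std_unique`: `dens = ∑ |h_j'|²` by `omP`, `jac h_1 = |h_1'|²`; area and class are both `π`, so
`h_j' = 0` for `j ≠ 1` (`eq_zero_of_integral_sq`), and `h_1 = κ` by `Kap.unique`.
`t_none`: `h_1` is a zero free inner function, so `jac h_1 = 0` on the square. -/

open Set Filter Topology MeasureTheory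
open scoped ContDiff ComplexConjugate Real

noncomputable section

namespace Pool.Agent.Lib.MP_ccffa6_gt

variable {V : Type} [NormedAddCommGroup V] [NormedSpace ℝ V] [FiniteDimensional ℝ V] {k : ℕ}
  {T : TD k V} {κ : ℂ → ℂ} {G δ r : ℝ}

theorem SU_proj {g : ℂ → Cm k} {X : Cm k} {z : ℂ} (h : HasDerivAt g X z) (j : Fin (k + 2)) :
    HasDerivAt (fun w => g w j) (X j) z :=
  (EuclideanSpace.proj j : Cm k →L[ℂ] ℂ).hasFDerivAt.comp_hasDerivAt z h

theorem Sol.holSq (hT : T.OK) {τ : ℝ} {u : ℂ → V} (hu : Sol T κ τ u) (hU : MapsTo u Sq T.U)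
    (j : Fin (k + 2)) : HolSq fun z => T.Cc (u z) j := by
  obtain ⟨N, hN, hs, hW, hJ⟩ := hu.nbhd hT
  refine ⟨N ∩ u ⁻¹' T.U, hN.inter (hT.opU.preimage hu.sm.continuous), fun z hz => ⟨hs hz, hU hz⟩,
    fun z hz => ?_⟩
  have hd := hu.sm.differentiable (by simp) z
  have h1 := (hT.model hd (hW hz.1) hz.2 (fun v => Tan.map (S := N) hd
    (eventually_nhdsWithin_of_forall hW) (by rw [Tan.of_mem_nhds (hN.mem_nhds hz.1)]; trivial))
    (Base2_jhol.2 (hJ z hz.1))).1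
  exact (SU_proj h1 j).differentiableAt.differentiableWithinAt

theorem jac_of_holSq {f : ℂ → ℂ} (hf : HolSq f) {z : ℂ} (hz : z ∈ Sq) :
    jac f z = ‖deriv f z‖ ^ 2 := by
  obtain ⟨h1, h2⟩ := cr_of_hasDerivAt (hf.analyticAt hz).differentiableAt.hasDerivAt
  rw [jac, h1, h2, smul_eq_mul, Complex.sq_norm, Complex.normSq_apply]
  simp

theorem SU_inner (hT : T.OK) {τ : ℝ} {u : ℂ → V} (hu : Sol T κ τ u) (hU : MapsTo u Sq T.U) :
    Inner (fun z => T.Cc (u z) 1) ∧ ∫ z in Sq, ‖deriv (fun z => T.Cc (u z) 1) z‖ ^ 2 = π := by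
  refine ⟨⟨hu.holSq hT hU 1, fun z hz => (hT.memL (hu.bd hz)).2.2.2.2.1.2 1 (by simp)⟩, ?_⟩
  rw [← hu.cls]
  exact setIntegral_congr_fun measurableSet_sq fun z hz =>
    (jac_of_holSq (hu.holSq hT hU 1) hz).symm

omit [FiniteDimensional ℝ V] in
theorem SU_box (hT : T.OK) {B : Set (Cm k)} (hB : B ⊆ T.O) {y : V} (hy : y ∈ T.Θ '' B) :
    y ∈ T.U ∧ T.Cc y ∈ B ∧ T.Θ (T.Cc y) = y := by
  obtain ⟨h, hh, rfl⟩ := hy
  obtain ⟨-, h1, h2⟩ := hT.CΘ h (hB hh)
  rw [h2]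
  exact ⟨h1, hh, rfl⟩

theorem SU_dens (hT : T.OK) {τ : ℝ} {u : ℂ → V} (hu : Sol T κ τ u)
    (hb : MapsTo u Sq (T.Θ '' BoxP k T.l)) {z : ℂ} (hz : z ∈ Sq) :
    dens T.lam u z = ∑ j, ‖deriv (fun z => T.Cc (u z) j) z‖ ^ 2 := by
  obtain ⟨b1, b2, b3⟩ := SU_box hT hT.boxP (hb hz)
  have hd := hu.sm.differentiable (by simp) z
  obtain ⟨h1, h2, h3⟩ := hT.model hd (hu.mapW hz) b1 (tan_of_mapsTo hz hd hu.mapW)
    (Base2_jhol.2 (hu.hol z hz))
  have h4 := hT.omP _ b2 (px (fun w => T.Cc (u w)) z) (Complex.I • px (fun w => T.Cc (u w)) z)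
  rw [← h2, ← h3, b3, inner_smul_right, inner_self_eq_norm_sq_to_K] at h4
  have h5 : ∀ j, deriv (fun z => T.Cc (u z) j) z = px (fun w => T.Cc (u w)) z j :=
    fun j => (SU_proj h1 j).deriv
  simp only [h5]
  rw [dens, h4, ← EuclideanSpace.norm_sq_eq]
  simp [← Complex.ofReal_pow]

theorem std_unique (hT : T.OK) (hκ : Kap κ) {u : ℂ → V} (hu : Sol T κ 0 u)
    (hb : MapsTo u Sq (T.Θ '' BoxP k T.l)) : ∀ z ∈ Sq, u z = T.Θ (h0 k κ z) := by
  have hU : MapsTo u Sq T.U := fun z hz => (SU_box hT hT.boxP (hb hz)).1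
  obtain ⟨hi, ha⟩ := SU_inner hT hu hU
  have hc : ∀ j, ContinuousOn (fun z => ‖deriv (fun z => T.Cc (u z) j) z‖ ^ 2) Sq := fun j =>
    (hu.holSq hT hU j).deriv.continuousOn.norm.pow 2
  have e1 : ∀ z ∈ Sq, dens T.lam u z = ‖deriv (fun z => T.Cc (u z) 1) z‖ ^ 2 +
      ∑ j ∈ Finset.univ.erase 1, ‖deriv (fun z => T.Cc (u z) j) z‖ ^ 2 := fun z hz => by
    rw [SU_dens hT hu hb hz, ← Finset.add_sum_erase _ _ (Finset.mem_univ 1)]
  have hc' : ContinuousOn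
      (fun z => ∑ j ∈ Finset.univ.erase 1, ‖deriv (fun z => T.Cc (u z) j) z‖ ^ 2) Sq :=
    continuousOn_finsetSum _ fun j _ => hc j
  have e2 : ∀ z ∈ Sq,
      ∑ j ∈ Finset.univ.erase 1, ‖deriv (fun z => T.Cc (u z) j) z‖ ^ 2 = 0 := by
    refine eq_zero_of_integral_sq hc' (fun z _ => Finset.sum_nonneg fun j _ => sq_nonneg _) ?_
    have h1 := hu.area
    rw [setIntegral_congr_fun measurableSet_sq e1,
      integral_add ((hc 1).integrableOn_compact isCompact_sq)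
        (hc'.integrableOn_compact isCompact_sq), ha] at h1
    linarith
  have e3 : T.Cc (u z1) = xpt k 0 := by
    have h1 := (hT.CΘ _ (hT.larc_sub (hT.xpt_mem le_rfl zero_le_one))).2.2
    rw [hu.pt, h1, zero_mul]
  have e4 : EqOn (fun z => T.Cc (u z) 1) κ Sq := by
    refine hκ.unique hi ha ?_ ?_
    · rw [← hu.gauge]
      refine setIntegral_congr_fun measurableSet_sq fun z hz => ?_
      dsimp only
      rw [e1 z hz, e2 z hz, add_zero]
    · rw [e3]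
      simp [xpt]
  intro z hz
  rw [← (SU_box hT hT.boxP (hb hz)).2.2]
  refine congrArg T.Θ (PiLp.ext fun j => ?_)
  by_cases hj : j = 1
  · rw [hj]
    exact (e4 hz).trans (by simp [h0])
  · have h1 := (hu.holSq hT hU j).const_of_deriv (fun w hw => by
      have h2 := (Finset.sum_eq_zero_iff_of_nonneg fun j _ => sq_nonneg _).1 (e2 w hw) j
        (Finset.mem_erase.2 ⟨hj, Finset.mem_univ j⟩)
      exact norm_eq_zero.1 (pow_eq_zero_iff two_ne_zero |>.1 h2)) z hz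
    refine h1.trans ?_
    rw [e3]
    simp [h0, hj]

theorem t_none (k : ℕ) : NoneStmt k := by
  intro V _ _ _ T κ u hT _ hu hb
  have hU : MapsTo u Sq T.U := fun z hz => (SU_box hT hT.boxM (hb hz)).1
  obtain ⟨hi, ha⟩ := SU_inner hT hu hU
  have h1 := hi.deriv_eq_zero fun z hz => (SU_box hT hT.boxM (hb hz)).2.1.2.1
  rw [setIntegral_congr_fun (g := fun _ => (0 : ℝ)) measurableSet_sq fun z hz => by
    simp only [h1 z hz, norm_zero, ne_eq, OfNat.ofNat_ne_zero, not_false_eq_true, zero_pow],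
    integral_zero] at ha
  exact Real.pi_pos.ne ha

end Pool.Agent.Lib.MP_ccffa6_gt
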