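import Pool.Agent.Lib.MP_ccffa6_gt.T.FBase
import Pool.Agent.Lib.MP_ccffa6_gt.T.FFred
import Pool.Agent.Lib.MP_ccffa6_gt.T.FCpt
import Pool.Agent.Lib.MP_ccffa6_gt.T.FZero
import Pool.Agent.Lib.MP_ccffa6_gt.T.SU

/-! Continuation from `τ = 0` to `τ = 1`. -/

open Set Filter Topology MeasureTheory
open scoped ContDiff ComplexConjugate Real

noncomputable section

namespace Pool.Agent.Lib.MP_ccffa6_gt

open WA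

theorem t_cont (hR : ERegStmt) (hE : EEstStmt) (hP : ParStmt) (hF : FredStmt) (hJ : JacStmt)
    {k : ℕ} (hQ : QuantStmt k) : ContStmt k := by
  intro V _ _ _ T κ G hT hκ _ hb hbox
  obtain ⟨G', δ, r, hc⟩ := exists_ctx hT hκ hb
  have hδ := hc.δ0
  have hκc : ContinuousOn κ Sq := hκ.inner.1.continuousOn
  have hs : ∀ x ∈ T.Z κ δ, Sol T κ x.2 (fn x.1.1) := fun x hx =>
    hT.sol_of_zero hR hQ hJ hκ hδ hx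
  obtain ⟨u₀, hu₀, hu₀'⟩ := t_exists_std hT hκ
  obtain ⟨w₀, hw₀⟩ := of_smooth (k := 3) hu₀.sm hu₀.per
  let x₀ : T.B := (⟨w₀, by
    change Eqv T.S T.S (fn w₀)
    rw [hw₀]
    exact ⟨hu₀.eq1, hu₀.eq2⟩⟩, 0)
  have hx₀s : Sol T κ 0 (fn x₀.1.1) := by
    change Sol T κ 0 (fn w₀)
    rwa [hw₀]
  have hx₀u : ∀ z ∈ Sq, fn x₀.1.1 =ᶠ[𝓝 z] fun w => T.Θ (h0 k κ w) := by
    change ∀ z ∈ Sq, fn w₀ =ᶠ[𝓝 z] fun w => T.Θ (h0 k κ w)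
    rwa [hw₀]
  have hx₀ : x₀ ∈ T.Z κ δ := hc.mem_Z ⟨le_rfl, zero_le_one⟩ hx₀s
  have h2 : (2 : WithTop ℕ∞) ≤ ∞ := WithTop.coe_le_coe.2 (le_top : (2 : ℕ∞) ≤ ⊤)
  obtain ⟨x, hx, hx1⟩ := hP T.B (TD.Y k V) (T.Om δ) (T.F κ δ) (T.Pe δ) (T.Q δ)
    (ContinuousLinearMap.snd ℝ _ ℝ) (T.Z κ δ) x₀ (hT.isOpen_Om δ)
    ((hT.contDiff_F κ δ).of_le h2).contDiffOn ((hT.contDiff_Pe δ).of_le h2).contDiffOn rfl
    (hc.isCompact_Z hE hs) (fun x hx => hT.Q_idem hδ hx.1 (hs x hx).mapW)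
    (fun x hx => hT.loc_F hδ (hT.isOpen_Om δ) hx.1 (hs x hx).mapW)
    (fun x hx => hT.fred_ker hF hκc hδ hx.1 (hs x hx).mapW)
    (fun x hx => hT.fred_cok hF hκc hδ hx.1 (hs x hx).mapW) hx₀ rfl
    (fun x hx h0' => by
      have h3 : x.2 = 0 := h0'
      have h4 : Sol T κ 0 (fn x.1.1) := h3 ▸ hs x hx
      refine Prod.ext (Subtype.ext (ext_sq x.1.2 x₀.1.2 fun z hz => ?_)) h3
      rw [std_unique hT hκ h4 (hbox _ h4) z hz, (hx₀u z hz).eq_of_nhds])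
    (base_inj hT hκ hδ hx₀.1 hx₀s hx₀u) (base_sur hT hκ hδ hx₀.1 hx₀s hx₀u)
  have h5 : x.2 = 1 := hx1
  exact ⟨_, h5 ▸ hs x hx⟩

end Pool.Agent.Lib.MP_ccffa6_gt
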