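import Pool.Agent.Lib.MP_ccffa6_gt.T.FEq

/-! The domain is open and contains the solutions. -/

open Set Filter Topology MeasureTheory
open scoped ContDiff ComplexConjugate Real

noncomputable section

namespace Pool.Agent.Lib.MP_ccffa6_gt

open WA

variable {V : Type} [NormedAddCommGroup V] [NormedSpace ℝ V] [FiniteDimensional ℝ V] {k : ℕ}
  {T : TD k V} {κ : ℂ → ℂ} {G δ r : ℝ}

theorem FOpen_open {U : Set V} (hU : IsOpen U) (δ : ℝ) :
    IsOpen {u : WA 3 V | ∀ z, |cc z| ≤ δ → fn u z ∈ U} := by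
  refine Metric.isOpen_iff.2 fun u hu => ?_
  obtain ⟨C, hC, hb⟩ := WA.bound (k := 3) (V := V)
  have hA : IsCompact (Rect (-π) π (-π) π ∩ {z | |cc z| ≤ δ}) :=
    (isCompact_rect ..).inter_right (isClosed_le contDiff_cc.continuous.abs continuous_const)
  obtain ⟨ε, hε, h1⟩ := (hA.image (contDiff u).continuous).exists_thickening_subset_open hU (by
    rintro _ ⟨z, hz, rfl⟩
    exact hu z hz.2)
  refine ⟨ε / C, div_pos hε hC, fun v hv z => Per.ind (p := fun z => |cc z| ≤ δ → fn v z ∈ U)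
    (fun w => ⟨by simp only [(cc_per w).1, (per v w).1], by simp only [(cc_per w).2, (per v w).2]⟩)
    (fun w a b c => h1 (Metric.mem_thickening_iff.2
      ⟨fn u w, ⟨w, ⟨⟨abs_le.1 a, abs_le.1 b⟩, c⟩, rfl⟩, ?_⟩)) z⟩
  rw [dist_eq_norm, ← fn_sub]
  exact (hb _ w).trans_lt ((lt_div_iff₀' hC).1 (mem_ball_iff_norm.1 hv))

theorem TD.OK.isOpen_Om (hT : T.OK) (δ : ℝ) : IsOpen (T.Om δ) := by
  have c0 : Continuous fun x : T.B => x.1.1 := continuous_subtype_val.comp continuous_fst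
  have c1 : Continuous fun x : T.B => fn x.1.1 z1 := (ev z1).continuous.comp c0
  have c2 : ∀ f : WA 3 V → WA 2 ℝ, Continuous f →
      IsOpen {x : T.B | ‖intSq (fun _ => 1) (f x.1) - π‖ < 1} := fun f hf =>
    isOpen_lt (((intSq _).continuous.comp (hf.comp c0)).sub continuous_const).norm continuous_const
  have c3 : IsOpen {x : T.B | ∀ j, j ≠ 0 → 0 < (T.Cc (fn x.1.1 z1) j).re} := by
    rw [ofPred_forall]
    refine isOpen_iInter_of_finite fun j => ?_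
    rw [ofPred_forall]
    refine isOpen_iInter_of_finite fun _ => isOpen_lt continuous_const ?_
    exact Complex.continuous_re.comp
      ((EuclideanSpace.proj j).continuous.comp (hT.smC.continuous.comp c1))
  exact ((FOpen_open hT.opVs δ).preimage c0).inter ((isOpen_interior.preimage c1).inter
    (c3.inter ((c2 _ hT.contDiff_den.continuous).inter (c2 _ hT.contDiff_jacW.continuous))))

theorem TD.OK.mem_interior (hT : T.OK) {y : V} (hy : y ∈ T.W) :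
    y ∈ interior {y | T.ν y = 0 → y ∈ T.W} := by
  have h1 : Tendsto (fun w : V => (y, w)) (𝓝 y) (𝓝 (y, y)) := (Continuous.prodMk_right y).tendsto y
  refine mem_interior_iff_mem_nhds.2 ((h1.eventually (hT.loc y hy)).mono fun w hw e => hw hy ?_)
  rw [e, map_zero]

theorem Ctx.collar (h : Ctx T κ G δ r) {τ : ℝ} (hτ : τ ∈ Icc (0 : ℝ) 1) {u : ℂ → V}
    (hu : Sol T κ τ u) {z : ℂ} (hz : z ∈ Sq) (hc : cc z ≤ δ) :
    u z ∈ Metric.cthickening r T.L0 := by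
  obtain ⟨w, hw, h1⟩ := exists_sqB_near hz
  obtain ⟨h2, h3⟩ := h.bound τ hτ u hu
  refine Metric.mem_cthickening_of_dist_le _ (u w) _ _
    (h.ok.mem_L0 (hu.bd hw) (h2 w hw).1 (h2 w hw).2) ?_
  rw [dist_eq_norm]
  refine (convex_univ.norm_image_sub_le_of_norm_fderiv_le
    (fun v _ => hu.sm.differentiable (by simp) v) (fun v _ => h3 v) trivial trivial).trans
    (le_trans (mul_le_mul_of_nonneg_left (h1.trans ?_) h.G0) h.small)
  exact mul_le_mul_of_nonneg_left (Real.sqrt_le_sqrt hc) Real.pi_pos.le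

theorem TD.OK.collar_Vs (hT : T.OK) {u : ℂ → V} (hp : Per u) (he : Eqv T.S T.S u)
    (h : ∀ z ∈ Sq, cc z ≤ δ → u z ∈ T.Vs) (z : ℂ) (hz : |cc z| ≤ δ) : u z ∈ T.Vs := by
  refine fold_ind (p := fun z => |cc z| ≤ δ → u z ∈ T.Vs)
    (fun w => ⟨by simp only [(cc_per w).1, (hp w).1], by simp only [(cc_per w).2, (hp w).2]⟩)
    (fun w hw c => ?_) (fun w hw c => ?_) (fun w hw c => h w hw (le_of_abs_le c)) z hz
  · rw [cc_r1, abs_neg] at c
    exact he.1 w ▸ hT.SVs _ (hw c)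
  · rw [cc_r2, abs_neg] at c
    exact he.2 w ▸ hT.SVs _ (hw c)

theorem Ctx.mem_Z (h : Ctx T κ G δ r) {x : T.B} (hτ : x.2 ∈ Icc (0 : ℝ) 1)
    (hu : Sol T κ x.2 (fn x.1.1)) : x ∈ T.Z κ δ := by
  have hT := h.ok
  have h1 := hT.collar_Vs (per x.1.1) x.1.2 fun z hz hc => h.thick (h.collar hτ hu hz hc)
  have h2 : T.Cc (fn x.1.1 z1) = xpt k (x.2 * T.D) := by
    rw [hu.pt, (hT.CΘ _ (hT.larc_sub (hT.xpt_mem hτ.1 hτ.2))).2.2]
  have h3 : ∀ w : WA 2 ℝ, ∫ z in Sq, fn w z = π → ‖intSq (fun _ => 1) w - π‖ < 1 := fun w hw => by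
    rw [intSq_apply continuousOn_const]
    simp only [one_mul]
    rw [integral_complex_ofReal, hw, sub_self, norm_zero]
    exact one_pos
  have h4 : ∀ (m : ℕ) (S₁ S₂ : V →L[ℝ] V), Eqv S₁ S₂ (fn (0 : WA m V)) := fun m S₁ S₂ =>
    ⟨fun z => by rw [fn_zero, fn_zero, map_zero], fun z => by rw [fn_zero, fn_zero, map_zero]⟩
  obtain ⟨U, -, hU, hκ⟩ := h.kap.hol
  refine ⟨⟨h1, hT.mem_interior (hu.mapW z1_mem.1), fun j hj => ?_, h3 _ ?_, h3 _ ?_⟩,
    Prod.ext (ext_sq (hT.eqv_eta δ x.1.2) (h4 _ _ _) fun z hz => ?_)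
      (Prod.ext (ext_sq (hT.eqv_mu δ x.1.2) (h4 _ _ _) fun z hz => ?_)
        (Prod.ext (funext fun j => ?_) ?_)), hτ⟩
  · simp [h2, xpt, hj]
  · simp only [hT.fn_den, hu.area]
  · simp only [hT.fn_jacW, hu.cls]
  · change fn (T.eta δ x.1.1) z = fn 0 z
    rw [hT.fn_eta, (hT.sq_fields h.δ0 hz (h1 z)).1, fn_zero, (hu.hol z hz).2, neg_add_cancel]
  · change fn (T.mu δ x.1.1) z = fn 0 z
    rw [hT.fn_mu, (hT.sq_fields h.δ0 hz (h1 z)).2.2.1, fn_zero, hT.ν0 _ (hu.mapW hz)]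
  · change (T.Cc (fn x.1.1 z1) j - xpt k (x.2 * T.D) j).im = 0
    rw [h2, sub_self, Complex.zero_im]
  · change intSq κ (T.den x.1.1) = 0
    rw [intSq_apply (hκ.continuousOn.mono hU)]
    simp only [hT.fn_den, hu.gauge]

theorem exists_ctx (hT : T.OK) (hκ : Kap κ)
    (hb : ∀ τ ∈ Icc (0 : ℝ) 1, ∀ u, Sol T κ τ u →
      (∀ z ∈ SqB, -T.l / 2 ≤ (T.Cc (u z) 0).im ∧ (T.Cc (u z) 0).im ≤ T.D + T.l / 2) ∧
      ∀ z, ‖fderiv ℝ u z‖ ≤ G) : ∃ G' δ r, Ctx T κ G' δ r := by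
  obtain ⟨r, hr, h1⟩ := hT.isCompact_L0.exists_cthickening_subset_open hT.opVs
    fun y hy => (hT.memL (hT.L0_sub hy)).2.2.1
  have h2 : 0 ≤ max G 0 := le_max_right _ _
  have h3 := Real.pi_pos
  refine ⟨max G 0, (r / ((max G 0 + 1) * π)) ^ 2, r, hT, hκ, by positivity, h2,
    fun τ hτ u hu => ⟨(hb τ hτ u hu).1, fun z => le_max_of_le_left ((hb τ hτ u hu).2 z)⟩, h1, ?_⟩
  have h4 : (max G 0 + 1) * (π * (r / ((max G 0 + 1) * π))) = r := by field_simp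
  rw [Real.sqrt_sq (by positivity)]
  exact (mul_le_mul_of_nonneg_right (le_add_of_nonneg_right zero_le_one)
    (by positivity)).trans_eq h4

end Pool.Agent.Lib.MP_ccffa6_gt
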