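import Pool.Agent.Lib.MP_ccffa6_gt.T.FApx

/-! The parametrix.

On `V × V` let `j₀ (a, b) = (-b, a)`, `I = (p, -j p) : V → V × V`, `Π (a, b) = (p a + j p b) / 2`
(elements of `WA 3` of operator spaces, built with `bil` and `lin`). Pointwise `I p = I`,
`p Π = Π`, `Π I v = p v`, `I (j p w) = j₀ (I w)`, `Π j₀ = j Π`.
Kernel: for `p v = v` we have `v_y - p v_y = p_y v`, hence
`db (I v) = I (p (L v)) + c v` with `c = I_x + j₀ I_y - I (j p_y + a)` in `WA 2`; `dbInv_db` gives
`v = Π dbInv (I p L v + c (WA.incl v)) + Π const (mean (I v))`.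
Cokernel: `R η = Π dbInv (I η)`, `p L R η = η + K η` for `p η = η`, with
`K η = - Π const (mean (I η)) + p (Π_x + j Π_y + a Π) incl (dbInv (I η))`; apply `FredStmt` to
`p K p` and project. The product rule is checked pointwise (`fn_dx`, `WA.contDiff`). -/

open Set Filter Topology MeasureTheory
open scoped ContDiff ComplexConjugate Real

noncomputable section

namespace Pool.Agent.Lib.MP_ccffa6_gt



open WA

variable {V : Type} [NormedAddCommGroup V] [NormedSpace ℝ V] [FiniteDimensional ℝ V]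

theorem FPar_db (p j : WA 3 (V →L[ℝ] V)) (a : WA 2 (V →L[ℝ] V)) (I : WA 3 (V →L[ℝ] V × V))
    (h1 : ∀ z v, fn I z (fn p z v) = fn I z v)
    (h4 : ∀ z v, fn I z (fn j z (fn p z v)) = j0 V (fn I z v)) (v : WA 3 V) (hv : app p v = v)
    (hL : app (WA.incl p) (Lgen j a v) = 0) :
    dx (app I v) + lin (j0 V) (dy (app I v)) =
      (app (dx I) + (lin (j0 V)).comp (app (dy I)) -
        (app (WA.incl I)).comp ((app (WA.incl j)).comp (app (dy p)) + app a)) (WA.incl v) := by
  have hy : dy v = app (dy p) (WA.incl v) + app (WA.incl p) (dy v) := by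
    rw [← dy_app, hv]
  rw [dx_app, dy_app]
  refine WA.ext fun z => ?_
  have e1 : fn (dy v) z = fn (dy p) z (fn v z) + fn p z (fn (dy v) z) := by
    have := congrArg (fun w => fn w z) hy
    simpa only [fn_add, fn_app, fn_incl] using this
  have e2 : fn p z (fn (dx v) z + fn j z (fn (dy v) z) + fn a z (fn v z)) = 0 := by
    have := congrArg (fun w => fn w z) hL
    simpa only [Lgen, ContinuousLinearMap.add_apply, ContinuousLinearMap.comp_apply, fn_add, fn_app,
      fn_incl, fn_zero] using this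
  have e3 : fn I z (fn (dx v) z + fn j z (fn (dy v) z) + fn a z (fn v z)) = 0 := by
    rw [← h1, e2, map_zero]
  have e4 : fn I z (fn j z (fn (dy v) z)) =
      fn I z (fn j z (fn (dy p) z (fn v z))) + j0 V (fn I z (fn (dy v) z)) := by
    rw [← h4, ← map_add, ← map_add, ← e1]
  simp only [ContinuousLinearMap.add_apply, ContinuousLinearMap.sub_apply,
    ContinuousLinearMap.comp_apply, fn_add, fn_sub, fn_app, fn_incl, fn_lin, map_add] at e3 ⊢
  rw [e4] at e3
  linear_combination (norm := module) e3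

theorem par_ker (hF : FredStmt) (p j : WA 3 (V →L[ℝ] V)) (a : WA 2 (V →L[ℝ] V))
    (hp : ∀ z v, fn p z (fn p z v) = fn p z v)
    (hj : ∀ z v, fn p z v = v → fn p z (fn j z v) = fn j z v ∧ fn j z (fn j z v) = -v) :
    ∃ E : Submodule ℝ (WA 3 V), FiniteDimensional ℝ E ∧
      ∀ v, app p v = v → app (WA.incl p) (Lgen j a v) = 0 → v ∈ E := by
  obtain ⟨I, Q, h1, -, h3, h4, -⟩ := exists_IPi p j hp hj
  set c : WA 2 V →L[ℝ] WA 2 (V × V) := app (dx I) + (lin (j0 V)).comp (app (dy I)) -
    (app (WA.incl I)).comp ((app (WA.incl j)).comp (app (dy p)) + app a) with hc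
  have hK : Approx (-((((app Q).comp (dbInv (j0 V))).comp c).comp (WA.incl : WA 3 V →L[ℝ] WA 2 V) +
      ((app Q).comp (const : V × V →L[ℝ] WA 3 (V × V))).comp (mean.comp (app I)))) :=
    ((approx_incl.post _).add' (Approx.of_fin _)).neg'
  obtain ⟨⟨E, hE, hker⟩, -⟩ := hF _ _ hK
  refine ⟨E, hE, fun v hv hL => hker v ?_⟩
  have e1 := dbInv_db (j := j0 V) j0_j0 (app I v)
  rw [FPar_db p j a I h1 h4 v hv hL, ← hc] at e1
  have e2 : app Q (app I v) = v := by
    refine WA.ext fun z => ?_
    rw [fn_app, fn_app, h3, ← fn_app, hv]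
  simp only [ContinuousLinearMap.neg_apply, ContinuousLinearMap.add_apply,
    ContinuousLinearMap.comp_apply]
  rw [e1, map_sub, e2]
  abel

end Pool.Agent.Lib.MP_ccffa6_gt
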