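import Pool.Agent.Lib.MP_ccffa6_gt.T.FDefs

/-! Pointwise formulas, smoothness and equivariance of the fields. -/

open Set Filter Topology MeasureTheory
open scoped ContDiff ComplexConjugate Real

noncomputable section

namespace Pool.Agent.Lib.MP_ccffa6_gt

open WA

variable {V : Type} [NormedAddCommGroup V] [NormedSpace ℝ V] [FiniteDimensional ℝ V] {k : ℕ}
  {T : TD k V} {κ : ℂ → ℂ} {G δ r : ℝ}

theorem FPt_st (x : ℝ) : Real.smoothTransition (1 - x) = 1 - Real.smoothTransition x := by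
  rw [eq_sub_iff_add_eq, Real.smoothTransition, Real.smoothTransition, sub_sub_cancel,
    add_comm (expNegInvGlue (1 - x)), ← add_div, add_comm,
    div_self (Real.smoothTransition.pos_denom x).ne']

theorem chi_r1 (δ : ℝ) (z : ℂ) : chi δ (r1 z) = 1 - chi δ z := by
  rw [chi, chi, cc_r1, ← FPt_st]
  congr 1
  ring

theorem chi_r2 (δ : ℝ) (z : ℂ) : chi δ (r2 z) = 1 - chi δ z := by
  rw [chi, chi, cc_r2, ← FPt_st]
  congr 1
  ring

theorem chi_eq_one (hδ : 0 < δ) {z : ℂ} (h : δ ≤ cc z) : chi δ z = 1 :=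
  Real.smoothTransition.one_of_one_le (by linarith [(one_le_div hδ).2 h])

theorem TD.OK.inv2 (hT : T.OK) : Inv2 T.S T.S ∧ Inv2 (-T.S) T.S ∧ Inv2 T.S (-T.S) :=
  ⟨⟨hT.SS, hT.SS, fun _ => rfl⟩, ⟨fun v => by simp [hT.SS], hT.SS, fun v => by simp⟩,
    hT.SS, fun v => by simp [hT.SS], fun v => by simp⟩

theorem TD.OK.smP (hT : T.OK) : ContDiff ℝ ∞ T.P :=
  contDiff_const.sub (hT.smν.fderiv_right (by simp))

theorem TD.OK.smJt (hT : T.OK) : ContDiff ℝ ∞ T.Jt :=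
  (contDiff_fst.smul (hT.smJ.comp contDiff_snd)).add
    ((contDiff_const.sub contDiff_fst).smul (hT.smJ'.comp contDiff_snd))

theorem TD.OK.smDJt (hT : T.OK) : ContDiff ℝ ∞ T.DJt :=
  (contDiff_fst.smul ((hT.smJ.fderiv_right (by simp)).comp contDiff_snd)).add
    ((contDiff_const.sub contDiff_fst).smul ((hT.smJ'.fderiv_right (by simp)).comp contDiff_snd))

theorem TD.OK.smνt (hT : T.OK) : ContDiff ℝ ∞ T.νt :=
  (contDiff_fst.smul (hT.smν.comp contDiff_snd)).add ((contDiff_const.sub contDiff_fst).smul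
    (T.S.contDiff.comp (hT.smν.comp (T.S.contDiff.comp contDiff_snd))))

theorem TD.OK.smPt (hT : T.OK) : ContDiff ℝ ∞ T.Pt :=
  (contDiff_fst.smul (hT.smP.comp contDiff_snd)).add ((contDiff_const.sub contDiff_fst).smul
    (contDiff_const.clm_comp
      ((hT.smP.comp (T.S.contDiff.comp contDiff_snd)).clm_comp contDiff_const)))

theorem TD.OK.P_mem (hT : T.OK) {y : V} (hy : y ∈ T.W) (v : V) : T.P y v ∈ Tan T.W y :=
  (hT.tan y hy _).2 (by simp [TD.P, hT.idem y hy])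

theorem TD.OK.P_eq (hT : T.OK) {y : V} (hy : y ∈ T.W) (v : V) :
    T.P y v = v ↔ v ∈ Tan T.W y := by
  simp [TD.P, hT.tan y hy]

theorem TD.OK.SP (hT : T.OK) {y : V} (hy : y ∈ T.Vs) (v : V) :
    T.P (T.S y) (T.S v) = T.S (T.P y v) := by
  have hd := hT.smν.differentiable (by simp)
  have e : T.ν ∘ T.S =ᶠ[𝓝 y] T.S ∘ T.ν := eventually_of_mem (hT.opVs.mem_nhds hy) hT.Sν
  have h := congrArg (· v) ((((hd _).hasFDerivAt.comp y T.S.hasFDerivAt).congr_of_eventuallyEq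
    e.symm).unique (T.S.hasFDerivAt.comp y (hd y).hasFDerivAt))
  simpa [TD.P] using h

theorem TD.OK.hasFDerivAt_Jt (hT : T.OK) (t : ℝ) (y : V) :
    HasFDerivAt (fun y => T.Jt (t, y)) (T.DJt (t, y)) y :=
  ((hT.smJ.differentiable (by simp) y).hasFDerivAt.const_smul t).add
    ((hT.smJ'.differentiable (by simp) y).hasFDerivAt.const_smul (1 - t))

theorem TD.OK.hasFDerivAt_νt (hT : T.OK) (t : ℝ) (y : V) :
    HasFDerivAt (fun y => T.νt (t, y)) (ContinuousLinearMap.id ℝ V - T.Pt (t, y)) y := by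
  have hd := hT.smν.differentiable (by simp)
  refine (((hd y).hasFDerivAt.const_smul t).add ((T.S.hasFDerivAt.comp y
    ((hd _).hasFDerivAt.comp y T.S.hasFDerivAt)).const_smul (1 - t))).congr_fderiv ?_
  ext v
  simp [TD.Pt, TD.P, hT.SS]
  module

/-- Equivariance of the interpolated fields. -/
theorem TD.OK.eqv_fields (hT : T.OK) (t : ℝ) (y v w : V) :
    T.Jt (1 - t, T.S y) (T.S v) = -T.S (T.Jt (t, y) v) ∧
    T.DJt (1 - t, T.S y) (T.S v) (T.S w) = -T.S (T.DJt (t, y) v w) ∧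
    T.νt (1 - t, T.S y) = T.S (T.νt (t, y)) ∧
    T.Pt (1 - t, T.S y) (T.S v) = T.S (T.Pt (t, y) v) := by
  have h1 : ∀ y v, T.Jt (1 - t, T.S y) (T.S v) = -T.S (T.Jt (t, y) v) := fun y v => by
    simp [TD.Jt, TD.J', hT.SS]
  refine ⟨h1 y v, ?_, by simp [TD.νt, hT.SS, add_comm], by simp [TD.Pt, hT.SS, add_comm]⟩
  have h2 := ((hT.hasFDerivAt_Jt (1 - t) _).comp y T.S.hasFDerivAt).clm_apply
    (hasFDerivAt_const (T.S w) y)
  have h3 := (T.S.hasFDerivAt.comp y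
    ((hT.hasFDerivAt_Jt t y).clm_apply (hasFDerivAt_const w y))).neg
  simpa using congrArg (· v) ((h2.congr_of_eventuallyEq
    (Eventually.of_forall fun y => (h1 y w).symm)).unique h3)

/-- On the square the interpolated fields are the original ones. -/
theorem TD.OK.sq_fields (hT : T.OK) (hδ : 0 < δ) {z : ℂ} (hz : z ∈ Sq) {y : V}
    (hy : |cc z| ≤ δ → y ∈ T.Vs) :
    T.Jt (chi δ z, y) = T.J y ∧ T.DJt (chi δ z, y) = fderiv ℝ T.J y ∧
    T.νt (chi δ z, y) = T.ν y ∧ T.Pt (chi δ z, y) = T.P y := by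
  rcases le_total δ (cc z) with h | h
  · refine ⟨?_, by ext v w; simp [TD.DJt, chi_eq_one hδ h], ?_⟩ <;>
      simp [TD.Jt, TD.νt, TD.Pt, chi_eq_one hδ h]
  · have hs := hy ((abs_of_nonneg (cc_nonneg hz)).trans_le h)
    have e : T.J' =ᶠ[𝓝 y] T.J := eventually_of_mem (hT.opVs.mem_nhds hs) fun _ => hT.J'_eq
    have e' : T.S.comp ((T.P (T.S y)).comp T.S) = T.P y := by
      ext v
      simp [hT.SP hs, hT.SS]
    refine ⟨?_, by ext v w; simp [TD.DJt, e.fderiv_eq, ← add_smul], ?_⟩ <;>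
      simp only [TD.Jt, TD.νt, TD.Pt, hT.J'_eq hs, hT.Sν y hs, hT.SS, e', ← add_smul,
        add_sub_cancel, one_smul, and_self]

theorem fn_lift (δ : ℝ) (u : WA 3 V) (z : ℂ) : fn (lift δ u) z = (chi δ z, fn u z) := by
  rw [lift, fn_add, fn_lin, fn_lin, fn_chiW]
  simp

theorem fn_Lgen (j : WA 3 (V →L[ℝ] V)) (a : WA 2 (V →L[ℝ] V)) (v : WA 3 V) (z : ℂ) :
    fn (Lgen j a v) z = px (fn v) z + fn j z (py (fn v) z) + fn a z (fn v z) := by
  change fn (dx v + app (WA.incl j) (dy v) + app a (WA.incl v)) z = _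
  rw [fn_add, fn_add, fn_app, fn_app, fn_dx, fn_dy, fn_incl, fn_incl]

theorem TD.OK.fn_jW (hT : T.OK) (δ : ℝ) (u : WA 3 V) (z : ℂ) :
    fn (T.jW δ u) z = T.Jt (chi δ z, fn u z) := by
  rw [TD.jW, fn_sup (by norm_num) hT.smJt, fn_lift]

theorem TD.OK.fn_pW (hT : T.OK) (δ : ℝ) (u : WA 3 V) (z : ℂ) :
    fn (T.pW δ u) z = T.Pt (chi δ z, fn u z) := by
  rw [TD.pW, fn_sup (by norm_num) hT.smPt, fn_lift]

theorem TD.OK.fn_aW (hT : T.OK) (δ : ℝ) (u : WA 3 V) (z : ℂ) (v : V) :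
    fn (T.aW δ u) z v = T.DJt (chi δ z, fn u z) v (py (fn u) z) := by
  rw [TD.aW, fn_bil, flipB_apply, fn_incl, fn_sup (by norm_num) hT.smDJt, fn_lift, fn_dy]

theorem TD.OK.fn_eta (hT : T.OK) (δ : ℝ) (u : WA 3 V) (z : ℂ) :
    fn (T.eta δ u) z = px (fn u) z + T.Jt (chi δ z, fn u z) (py (fn u) z) := by
  rw [TD.eta, fn_add, fn_app, fn_incl, hT.fn_jW, fn_dx, fn_dy]

theorem TD.OK.fn_mu (hT : T.OK) (δ : ℝ) (u : WA 3 V) (z : ℂ) :
    fn (T.mu δ u) z = T.νt (chi δ z, fn u z) := by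
  rw [TD.mu, fn_sup (by norm_num) hT.smνt, fn_lift]

theorem TD.OK.fn_den (hT : T.OK) (u : WA 3 V) (z : ℂ) :
    fn (T.den u) z = dens T.lam (fn u) z := by
  have h := hT.smlam.fderiv_right (m := ∞) (by simp)
  have h' : ContDiff ℝ ∞ (dF T.lam) :=
    contDiff_clm_apply_iff.2 fun a => contDiff_clm_apply_iff.2 fun b =>
      ((h.clm_apply contDiff_const).clm_apply contDiff_const).sub
        ((h.clm_apply contDiff_const).clm_apply contDiff_const)
  rw [TD.den, fn_app, fn_app, fn_incl, fn_sup (by norm_num) h', fn_dx, fn_dy, dens]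

theorem TD.OK.fn_jacW (hT : T.OK) (u : WA 3 V) (z : ℂ) :
    fn (T.jacW u) z = jac (fun w => T.Cc (fn u w) 1) z := by
  have h : ContDiff ℝ ∞ fun y => T.Cc y 1 := contDiff_piLp_apply 2 |>.comp hT.smC
  rw [TD.jacW, fn_bil, imB_apply, fn_dx, fn_dy, funext (fn_sup (by norm_num) h u), jac]

end Pool.Agent.Lib.MP_ccffa6_gt
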