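import Pool.Agent.Lib.MP_ccffa6_gt.T.Base0
import Pool.Agent.Lib.MP_ccffa6_gt.T.Base1

/-! Extension of a map of the square by reflections. -/

open Set Filter Topology MeasureTheory
open scoped ContDiff ComplexConjugate Real

noncomputable section

namespace Pool.Agent.Lib.MP_ccffa6_gt

variable {V : Type} [NormedAddCommGroup V] [NormedSpace ℝ V]

/-- Equivariance under the two reflections. -/
def Eqv (S₁ S₂ : V →L[ℝ] V) (u : ℂ → V) : Prop :=
  (∀ z, u (r1 z) = S₁ (u z)) ∧ ∀ z, u (r2 z) = S₂ (u z)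

/-- Two commuting involutions. -/
def Inv2 (S₁ S₂ : V →L[ℝ] V) : Prop :=
  (∀ v, S₁ (S₁ v) = v) ∧ (∀ v, S₂ (S₂ v) = v) ∧ ∀ v, S₁ (S₂ v) = S₂ (S₁ v)

/-- Equivariance near the four sides. -/
def LocEqv (S₁ S₂ : V →L[ℝ] V) (f : ℂ → V) : Prop :=
  ∀ z ∈ Sq, (z.re = π / 2 → ∀ᶠ v in 𝓝 z, f (r1 v) = S₁ (f v)) ∧
    (z.re = -(π / 2) → ∀ᶠ v in 𝓝 z, f (r1 v - 2 * (π : ℂ)) = S₁ (f v)) ∧
    (z.im = π / 2 → ∀ᶠ v in 𝓝 z, f (r2 v) = S₂ (f v)) ∧
    (z.im = -(π / 2) → ∀ᶠ v in 𝓝 z, f (r2 v - 2 * (π : ℂ) * Complex.I) = S₂ (f v))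

/-- The folding map. -/
def SG_q (x : ℝ) : ℝ := Real.arcsin (Real.sin x)

/-- The involution on the odd sheets. -/
def SG_A (S : V →L[ℝ] V) (x : ℝ) (v : V) : V := if Real.cos x < 0 then S v else v

theorem SG_abs (x : ℝ) : |SG_q x| ≤ π / 2 := abs_le.2 (Real.arcsin_mem_Icc _)

theorem SG_id {x : ℝ} (h : |x| ≤ π / 2) : SG_q x = x :=
  Real.arcsin_sin (abs_le.1 h).1 (abs_le.1 h).2

theorem SG_q_sub (x : ℝ) : SG_q (π - x) = SG_q x := by rw [SG_q, SG_q, Real.sin_pi_sub]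

theorem SG_grid {x : ℝ} (h : Real.cos x = 0) : SG_q x = π / 2 ∨ SG_q x = -(π / 2) :=
  (Real.cos_eq_zero_iff_sin_eq.1 h).imp (fun e => by rw [SG_q, e, Real.arcsin_one])
    fun e => by rw [SG_q, e, Real.arcsin_neg_one]

theorem SG_comm {S S' : V →L[ℝ] V} (h : ∀ v, S (S' v) = S' (S v)) {x : ℝ} {v : V} :
    SG_A S' x (S v) = S (SG_A S' x v) := by
  unfold SG_A
  split_ifs
  exacts [(h v).symm, rfl]

theorem SG_refl {S : V →L[ℝ] V} (hS : ∀ v, S (S v) = v) {x : ℝ} {v : V}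
    (h : Real.cos x = 0 → S v = v) : SG_A S (π - x) v = S (SG_A S x v) := by
  rw [SG_A, SG_A, Real.cos_pi_sub]
  rcases lt_trichotomy (Real.cos x) 0 with e | e | e
  · rw [if_neg (by linarith), if_pos e, hS]
  · rw [if_neg (by linarith), if_neg e.not_lt, h e]
  · rw [if_pos (by linarith), if_neg e.not_gt]

theorem SG_fix {S : V →L[ℝ] V} {g : ℂ → V} {c : ℂ → ℝ} {T : ℂ → ℝ → ℂ} (hT : ∀ v, T v (c v) = v)
    {z : ℂ} (h1 : c z = π / 2 → ∀ᶠ v in 𝓝 z, g (T v (π - c v)) = S (g v))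
    (h2 : c z = -(π / 2) → ∀ᶠ v in 𝓝 z, g (T v (-π - c v)) = S (g v))
    (h : c z = π / 2 ∨ c z = -(π / 2)) : S (g z) = g z := by
  rcases h with e | e
  · rw [← (h1 e).self_of_nhds, show π - c z = c z by rw [e]; ring, hT]
  · rw [← (h2 e).self_of_nhds, show -π - c z = c z by rw [e]; ring, hT]

theorem SG_loc {S : V →L[ℝ] V} (hS : ∀ v, S (S v) = v) {g : ℂ → V} {c : ℂ → ℝ} {T : ℂ → ℝ → ℂ}
    (hc : Continuous c) (hT : ∀ v, T v (c v) = v) {z : ℂ} (hz : |c z| ≤ π / 2)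
    (h1 : c z = π / 2 → ∀ᶠ v in 𝓝 z, g (T v (π - c v)) = S (g v))
    (h2 : c z = -(π / 2) → ∀ᶠ v in 𝓝 z, g (T v (-π - c v)) = S (g v)) :
    ∀ᶠ v in 𝓝 z, SG_A S (c v) (g (T v (SG_q (c v)))) = g v := by
  have h0 := Real.pi_pos
  obtain ⟨h3, h4⟩ := abs_le.1 hz
  have e1 : ∀ᶠ v in 𝓝 z, π / 2 < c v → g (T v (π - c v)) = S (g v) := h4.eq_or_lt.elim
    (fun e => (h1 e).mono fun _ h _ => h) fun e =>
      (hc.continuousAt.eventually (gt_mem_nhds e)).mono fun _ h h' => absurd h h'.not_gt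
  have e2 : ∀ᶠ v in 𝓝 z, c v < -(π / 2) → g (T v (-π - c v)) = S (g v) := h3.eq_or_lt.elim
    (fun e => (h2 e.symm).mono fun _ h _ => h) fun e =>
      (hc.continuousAt.eventually (lt_mem_nhds e)).mono fun _ h h' => absurd h h'.not_gt
  filter_upwards [e1, e2, hc.continuousAt.eventually (Ioo_mem_nhds (a := -π) (b := π)
    (by linarith) (by linarith))] with v h5 h6 ⟨h7, h8⟩
  rw [SG_A]
  rcases lt_or_ge (π / 2) (c v) with h9 | h9
  · rw [if_pos (Real.cos_neg_of_pi_div_two_lt_of_lt h9 (by linarith)), ← SG_q_sub,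
      SG_id (abs_le.2 ⟨by linarith, by linarith⟩), h5 h9, hS]
  rcases lt_or_ge (c v) (-(π / 2)) with h10 | h10
  · have e : SG_q (c v) = SG_q (-π - c v) := by
      rw [SG_q, SG_q, show -π - c v = π - c v - 2 * π by ring, Real.sin_sub_two_pi,
        Real.sin_pi_sub]
    rw [if_pos (Real.cos_neg (c v) ▸
      Real.cos_neg_of_pi_div_two_lt_of_lt (by linarith) (by linarith)), e,
      SG_id (abs_le.2 ⟨by linarith, by linarith⟩), h6 h10, hS]
  · rw [if_neg (Real.cos_nonneg_of_mem_Icc ⟨h10, h9⟩).not_gt, SG_id (abs_le.2 ⟨h10, h9⟩), hT]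

theorem SG_per {f : ℂ → V} {a : ℂ} (h : ∀ w, f (w + a) = f w) (z : ℂ) :
    ContDiffAt ℝ ∞ f (z + a) = ContDiffAt ℝ ∞ f z := by
  refine propext ⟨fun e => ?_, fun e => ?_⟩
  · exact funext h ▸ e.comp z (contDiffAt_id.add contDiffAt_const)
  · have h1 : (fun w => f (w - a)) = f := funext fun w => by rw [← h, sub_add_cancel]
    rw [← add_sub_cancel_right z a] at e
    exact h1 ▸ e.comp (z + a) (contDiffAt_id.sub contDiffAt_const)

theorem SG_cd {f : ℂ → V} {r : ℂ → ℂ} {S : V →L[ℝ] V} (hr : ContDiff ℝ ∞ r)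
    (h1 : ∀ z, r (r z) = z) (h2 : ∀ z, f (r z) = S (f z)) {z : ℂ} (h : ContDiffAt ℝ ∞ f z) :
    ContDiffAt ℝ ∞ f (r z) := by
  have e : (fun w => S (f (r w))) = f := funext fun w => by rw [← h2, h1]
  rw [← h1 z] at h
  exact e ▸ S.contDiff.contDiffAt.comp _ (h.comp (r z) hr.contDiffAt)

theorem exists_glue {S₁ S₂ : V →L[ℝ] V} (hS : Inv2 S₁ S₂) {f₀ : ℂ → V}
    (hf : ∀ z ∈ Sq, ContDiffAt ℝ ∞ f₀ z) (he : LocEqv S₁ S₂ f₀) :
    ∃ f : ℂ → V, ContDiff ℝ ∞ f ∧ Per f ∧ Eqv S₁ S₂ f ∧ ∀ z ∈ Sq, f =ᶠ[𝓝 z] f₀ := by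
  have e1 : ∀ v : ℂ, r1 v = (π - v.re : ℝ) + v.im * Complex.I := fun v =>
    Complex.ext (by simp [r1]) (by simp [r1])
  have e2 : ∀ v : ℂ, r1 v - 2 * (π : ℂ) = (-π - v.re : ℝ) + v.im * Complex.I := fun v =>
    Complex.ext (by simp [r1]; ring) (by simp [r1])
  have e3 : ∀ v : ℂ, r2 v = v.re + (π - v.im : ℝ) * Complex.I := fun v =>
    Complex.ext (by simp [r2]) (by simp [r2]; ring)
  have e4 : ∀ v : ℂ, r2 v - 2 * (π : ℂ) * Complex.I = v.re + (-π - v.im : ℝ) * Complex.I :=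
    fun v => Complex.ext (by simp [r2]) (by simp [r2]; ring)
  simp only [LocEqv, e2, e4] at he
  simp only [e1, e3] at he
  let f : ℂ → V := fun z => SG_A S₁ z.re (SG_A S₂ z.im (f₀ (SG_q z.re + SG_q z.im * Complex.I)))
  have hq : ∀ z : ℂ, (SG_q z.re + SG_q z.im * Complex.I : ℂ) ∈ Sq := fun z =>
    ⟨by simpa using SG_abs _, by simpa using SG_abs _⟩
  have hP : Per f := fun z => by simp [f, SG_A, SG_q]
  have hE : Eqv S₁ S₂ f := by
    refine ⟨fun z => ?_, fun z => ?_⟩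
    · simp only [f, r1_re, r1_im, SG_q_sub]
      refine SG_refl hS.1 fun h => ?_
      rw [← SG_comm hS.2.2, SG_fix (c := Complex.re) (T := fun v t => t + v.im * Complex.I)
        Complex.re_add_im (he _ (hq z)).1 (he _ (hq z)).2.1 (by simpa using SG_grid h)]
    · simp only [f, r2_re, r2_im, SG_q_sub]
      rw [← SG_comm fun v => (hS.2.2 v).symm]
      exact congrArg _ (SG_refl hS.2.1 fun h => SG_fix (c := Complex.im)
        (T := fun v t => v.re + t * Complex.I) Complex.re_add_im (he _ (hq z)).2.2.1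
        (he _ (hq z)).2.2.2 (by simpa using SG_grid h))
  have hL : ∀ z ∈ Sq, f =ᶠ[𝓝 z] f₀ := fun z hz => by
    have h1 := SG_loc (T := fun v t => t + v.im * Complex.I) hS.1 Complex.continuous_re
      Complex.re_add_im hz.1 (he z hz).1 (he z hz).2.1
    have h2 := SG_loc (T := fun v t => v.re + t * Complex.I) hS.2.1 Complex.continuous_im
      Complex.re_add_im hz.2 (he z hz).2.2.1 (he z hz).2.2.2
    have h3 : Tendsto (fun v : ℂ => (SG_q v.re + v.im * Complex.I : ℂ)) (𝓝 z) (𝓝 z) :=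
      Continuous.tendsto' (by unfold SG_q; fun_prop) _ _ (by rw [SG_id hz.1, Complex.re_add_im])
    filter_upwards [h1, h3.eventually h2] with v h4 h5
    rw [← h4, ← h5]
    simp [f]
  refine ⟨f, contDiff_iff_contDiffAt.2 (fold_ind (p := fun z => ContDiffAt ℝ ∞ f z)
    (fun z => ⟨SG_per (fun w => (hP w).1) z, SG_per (fun w => (hP w).2) z⟩)
    (fun z => SG_cd contDiff_r1 r1_r1 hE.1) (fun z => SG_cd contDiff_r2 r2_r2 hE.2)
    fun z hz => (hf z hz).congr_of_eventuallyEq (hL z hz)), hP, hE, hL⟩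

theorem LocEqv.of_zero {S₁ S₂ : V →L[ℝ] V} {f : ℂ → V} (h : ∀ z, 1 ≤ ‖z‖ → f z = 0) :
    LocEqv S₁ S₂ f := by
  have h0 : 1 < π / 2 := by linarith [Real.pi_gt_three]
  have key : ∀ (S : V →L[ℝ] V) (T : ℂ → ℂ) (z : ℂ), Continuous T → T z = z → 1 < ‖z‖ →
      ∀ᶠ v in 𝓝 z, f (T v) = S (f v) := fun S T z h1 h2 h3 => by
    have h4 : ∀ᶠ v in 𝓝 z, 1 < ‖v‖ := continuous_norm.continuousAt.eventually (lt_mem_nhds h3)
    filter_upwards [h4, (h1.tendsto' _ _ h2).eventually h4] with v h5 h6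
    rw [h _ h5.le, h _ h6.le, map_zero]
  have c1 := contDiff_r1.continuous
  have c2 := contDiff_r2.continuous
  intro z _
  have h1 := abs_le.1 (Complex.abs_re_le_norm z)
  have h2 := abs_le.1 (Complex.abs_im_le_norm z)
  exact ⟨fun e => key _ _ z c1 (Complex.ext (by rw [r1_re, e]; ring) (r1_im z)) (by linarith [h1.2]),
    fun e => key _ _ z (c1.sub continuous_const)
      (Complex.ext (by simp [r1_re, e]; ring) (by simp [r1_im])) (by linarith [h1.1]),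
    fun e => key _ _ z c2 (Complex.ext (r2_re z) (by rw [r2_im, e]; ring)) (by linarith [h2.2]),
    fun e => key _ _ z (c2.sub continuous_const)
      (Complex.ext (by simp [r2_re]) (by simp [r2_im, e]; ring)) (by linarith [h2.1])⟩

theorem Eqv.ext_sq {S₁ S₂ : V →L[ℝ] V} {f g : ℂ → V} (hf : Eqv S₁ S₂ f) (hg : Eqv S₁ S₂ g)
    (pf : Per f) (pg : Per g) (h : EqOn f g Sq) : f = g :=
  funext (fold_ind (p := fun z => f z = g z)
    (fun z => ⟨congrArg₂ Eq (pf z).1 (pg z).1, congrArg₂ Eq (pf z).2 (pg z).2⟩)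
    (fun z e => by rw [hf.1, hg.1, e]) (fun z e => by rw [hf.2, hg.2, e]) h)

/-- Periodic extension of a map supported in the unit disc. -/
theorem exists_perExt {f₀ : ℂ → V} (hf : ContDiff ℝ ∞ f₀) (h : ∀ z, 1 ≤ ‖z‖ → f₀ z = 0) :
    ∃ f : ℂ → V, ContDiff ℝ ∞ f ∧ Per f ∧ (∀ z ∈ Sq, f =ᶠ[𝓝 z] f₀) ∧
      ∀ z ∈ Sq, f (r1 z) = 0 ∧ f (r2 z) = 0 ∧ f (r1 (r2 z)) = 0 := by
  obtain ⟨F, h1, h2, -, h3⟩ := exists_glue (S₁ := 1) (S₂ := 1)
    ⟨fun _ => rfl, fun _ => rfl, fun _ => rfl⟩ (fun z _ => hf.contDiffAt) (LocEqv.of_zero h)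
  let χ : ℝ → ℝ := fun x => Real.smoothTransition (4 * Real.cos x)
  have c : ContDiff ℝ ∞ χ :=
    Real.smoothTransition.contDiff.comp (contDiff_const.mul Real.contDiff_cos)
  have c0 : ∀ x, |x| ≤ π / 2 → χ (π - x) = 0 := fun x hx =>
    Real.smoothTransition.zero_of_nonpos (by
      rw [Real.cos_pi_sub]
      linarith [Real.cos_nonneg_of_mem_Icc (abs_le.1 hx)])
  have c1 : ∀ x, |x| < 6 / 5 → χ x = 1 := fun x hx =>
    Real.smoothTransition.one_of_one_le (by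
      nlinarith [Real.one_sub_sq_div_two_le_cos (x := x), abs_lt.1 hx])
  refine ⟨fun z => (χ z.re * χ z.im) • F z, ((c.comp Complex.reCLM.contDiff).mul
    (c.comp Complex.imCLM.contDiff)).smul h1, fun z => by simp [χ, h2 z], fun z hz => ?_,
    fun z hz => by simp only [r1_re, r1_im, r2_re, r2_im, c0 _ hz.1, c0 _ hz.2, mul_zero, zero_mul,
      zero_smul, and_self]⟩
  rcases lt_or_ge 1 ‖z‖ with h4 | h4
  · filter_upwards [h3 z hz, continuous_norm.continuousAt.eventually (lt_mem_nhds h4)] with v h5 h6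
    rw [h5, h v h6.le, smul_zero]
  · filter_upwards [h3 z hz, continuous_norm.continuousAt.eventually
      (gt_mem_nhds (h4.trans_lt (by norm_num : (1 : ℝ) < 6 / 5)))] with v h5 h6
    rw [c1 _ ((Complex.abs_re_le_norm v).trans_lt h6),
      c1 _ ((Complex.abs_im_le_norm v).trans_lt h6), one_mul, one_smul, h5]

end Pool.Agent.Lib.MP_ccffa6_gt
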