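import Pool.Agent.Lib.MP_ccffa6_gt.T.WA
import Pool.Agent.Lib.MP_ccffa6_gt.T.SG

/-! Symmetrisation in the spaces `WA`. -/

open Set Filter Topology MeasureTheory
open scoped ContDiff ComplexConjugate Real

noncomputable section

namespace Pool.Agent.Lib.MP_ccffa6_gt

variable {m : ℕ} {V : Type} [NormedAddCommGroup V] [NormedSpace ℝ V] [FiniteDimensional ℝ V]
  {V' : Type} [NormedAddCommGroup V'] [NormedSpace ℝ V'] [FiniteDimensional ℝ V']

namespace WA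

theorem fn_neg (u : WA m V) (z : ℂ) : fn (-u) z = -fn u z := map_neg _ _

/-- Pointwise application of a field of linear maps. -/
def app (A : WA m (V →L[ℝ] V')) : WA m V →L[ℝ] WA m V' :=
  bil (ContinuousLinearMap.id ℝ (V →L[ℝ] V')) A

theorem fn_app (A : WA m (V →L[ℝ] V')) (v : WA m V) (z : ℂ) :
    fn (app A v) z = fn A z (fn v z) := fn_bil _ _ _ _

/-- Averaging over the group generated by the two reflections. -/
def symm (S₁ S₂ : V →L[ℝ] V) : WA m V →L[ℝ] WA m V :=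
  (4 : ℝ)⁻¹ • (ContinuousLinearMap.id ℝ _ + (lin S₁).comp refl1 + (lin S₂).comp refl2 +
    (lin (S₁.comp S₂)).comp (refl1.comp refl2))

theorem FSym_symm (S₁ S₂ : V →L[ℝ] V) (u : WA m V) :
    symm S₁ S₂ u = (4 : ℝ)⁻¹ • (u + lin S₁ (refl1 u) + lin S₂ (refl2 u) +
      lin (S₁.comp S₂) (refl1 (refl2 u))) := rfl

theorem fn_symm (S₁ S₂ : V →L[ℝ] V) (u : WA m V) (z : ℂ) :
    fn (symm S₁ S₂ u) z = (4 : ℝ)⁻¹ • (fn u z + S₁ (fn u (r1 z)) + S₂ (fn u (r2 z)) +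
      S₁ (S₂ (fn u (r1 (r2 z))))) := by
  rw [FSym_symm, fn_smul, fn_add, fn_add, fn_add, fn_lin, fn_lin, fn_lin, fn_refl1, fn_refl2,
    fn_refl1, fn_refl2, r1_r2]
  rfl

theorem eqv_symm {S₁ S₂ : V →L[ℝ] V} (hS : Inv2 S₁ S₂) (u : WA m V) :
    Eqv S₁ S₂ (fn (symm S₁ S₂ u)) := by
  obtain ⟨h1, h2, h3⟩ := hS
  refine ⟨fun z => ?_, fun z => ?_⟩
  · rw [fn_symm, fn_symm, ← r1_r2, r1_r1, r1_r1]
    simp only [map_smul, map_add, h1]
    congr 1
    abel
  · rw [fn_symm, fn_symm, r2_r2]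
    simp only [map_smul, map_add, ← h3, h2]
    congr 1
    abel

theorem symm_eq {S₁ S₂ : V →L[ℝ] V} (hS : Inv2 S₁ S₂) {u : WA m V} (h : Eqv S₁ S₂ (fn u)) :
    symm S₁ S₂ u = u := by
  obtain ⟨h1, h2, h3⟩ := hS
  refine ext fun z => ?_
  rw [fn_symm]
  simp only [h.1, h.2, ← h3, h1, h2]
  module

theorem ext_sq {S₁ S₂ : V →L[ℝ] V} {u v : WA m V} (hu : Eqv S₁ S₂ (fn u)) (hv : Eqv S₁ S₂ (fn v))
    (h : ∀ z ∈ Sq, fn u z = fn v z) : u = v :=
  ext (congrFun (hu.ext_sq hv (per u) (per v) h))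

/-- An intertwining field of linear maps commutes with the averaging. -/
theorem app_symm {S₁ S₂ : V →L[ℝ] V} {S₁' S₂' : V' →L[ℝ] V'} (hS : Inv2 S₁ S₂)
    (hS' : Inv2 S₁' S₂') {A : WA m (V →L[ℝ] V')}
    (h1 : ∀ z v, fn A (r1 z) (S₁ v) = S₁' (fn A z v))
    (h2 : ∀ z v, fn A (r2 z) (S₂ v) = S₂' (fn A z v)) (u : WA m V) :
    app A (symm S₁ S₂ u) = symm S₁' S₂' (app A u) := by
  have k1 : ∀ z v, fn A z (S₁ v) = S₁' (fn A (r1 z) v) := fun z v => by
    rw [← h1, r1_r1]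
  have k2 : ∀ z v, fn A z (S₂ v) = S₂' (fn A (r2 z) v) := fun z v => by
    rw [← h2, r2_r2]
  refine ext fun z => ?_
  rw [fn_app, fn_symm, fn_symm]
  simp only [fn_app, map_smul, map_add, k1, k2, r1_r2]

theorem eqv_app {S₁ S₂ : V →L[ℝ] V} {S₁' S₂' : V' →L[ℝ] V'} {A : WA m (V →L[ℝ] V')}
    (h1 : ∀ z v, fn A (r1 z) (S₁ v) = S₁' (fn A z v))
    (h2 : ∀ z v, fn A (r2 z) (S₂ v) = S₂' (fn A z v)) {u : WA m V} (hu : Eqv S₁ S₂ (fn u)) :
    Eqv S₁' S₂' (fn (app A u)) :=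
  ⟨fun z => by rw [fn_app, fn_app, hu.1, h1], fun z => by rw [fn_app, fn_app, hu.2, h2]⟩

theorem incl_symm (S₁ S₂ : V →L[ℝ] V) (u : WA (m + 1) V) :
    incl (symm S₁ S₂ u) = symm S₁ S₂ (incl u) :=
  ext fun z => by rw [fn_incl, fn_symm, fn_symm, fn_incl]

theorem FSym_diff (u : WA (m + 1) V) (z : ℂ) : DifferentiableAt ℝ (fn u) z :=
  (contDiff u).differentiable (by simp) z

theorem FSym_dx_lin (S : V →L[ℝ] V') (u : WA (m + 1) V) : dx (lin S u) = lin S (dx u) :=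
  ext fun z => by rw [fn_dx, fn_lin, fn_dx, funext (fn_lin S u), px_clm S (FSym_diff u z)]

theorem FSym_dy_lin (S : V →L[ℝ] V') (u : WA (m + 1) V) : dy (lin S u) = lin S (dy u) :=
  ext fun z => by rw [fn_dy, fn_lin, fn_dy, funext (fn_lin S u), py_clm S (FSym_diff u z)]

theorem FSym_dx_r1 (u : WA (m + 1) V) : dx (refl1 u) = -refl1 (dx u) :=
  ext fun z => by rw [fn_dx, fn_neg, fn_refl1, fn_dx, funext (fn_refl1 u), px_r1]

theorem FSym_dx_r2 (u : WA (m + 1) V) : dx (refl2 u) = refl2 (dx u) :=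
  ext fun z => by rw [fn_dx, fn_refl2, fn_dx, funext (fn_refl2 u), px_r2]

theorem FSym_dy_r1 (u : WA (m + 1) V) : dy (refl1 u) = refl1 (dy u) :=
  ext fun z => by rw [fn_dy, fn_refl1, fn_dy, funext (fn_refl1 u), py_r1]

theorem FSym_dy_r2 (u : WA (m + 1) V) : dy (refl2 u) = -refl2 (dy u) :=
  ext fun z => by rw [fn_dy, fn_neg, fn_refl2, fn_dy, funext (fn_refl2 u), py_r2]

theorem dx_symm (S₁ S₂ : V →L[ℝ] V) (u : WA (m + 1) V) :
    dx (symm S₁ S₂ u) = symm (-S₁) S₂ (dx u) := by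
  rw [FSym_symm]
  simp only [map_smul, map_add, FSym_dx_lin, FSym_dx_r1, FSym_dx_r2]
  refine ext fun z => ?_
  rw [fn_symm]
  simp [fn_smul, fn_add, fn_lin, fn_neg, fn_refl1, fn_refl2, r1_r2]

theorem dy_symm (S₁ S₂ : V →L[ℝ] V) (u : WA (m + 1) V) :
    dy (symm S₁ S₂ u) = symm S₁ (-S₂) (dy u) := by
  rw [FSym_symm]
  simp only [map_smul, map_add, FSym_dy_lin, FSym_dy_r1, FSym_dy_r2]
  refine ext fun z => ?_
  rw [fn_symm]
  simp [fn_smul, fn_add, fn_lin, fn_neg, fn_refl1, fn_refl2, r1_r2]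

omit [FiniteDimensional ℝ V] in
theorem FSym_zero {v : V} (h : v = -v) : v = 0 := by
  have h2 : (2 : ℝ) • v = 0 := by
    rw [two_smul]
    exact add_eq_zero_iff_eq_neg.2 h
  exact (smul_eq_zero.1 h2).resolve_left two_ne_zero

/-- The mean of a map which is odd under the rotation vanishes. -/
theorem mean_eq_zero {u : WA m V} (h : ∀ z, fn u (r1 (r2 z)) = -fn u z) : mean u = 0 := by
  have e : refl1 (refl2 u) = -u := ext fun z => by rw [fn_refl1, fn_refl2, ← r1_r2, h, fn_neg]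
  refine FSym_zero ?_
  rw [← map_neg, ← e, mean_refl1, mean_refl2]

/-- The closed subspace of equivariant maps. -/
def eqvSub (m : ℕ) (S₁ S₂ : V →L[ℝ] V) : Submodule ℝ (WA m V) where
  carrier := {u | Eqv S₁ S₂ (fn u)}
  add_mem' := fun {u v} hu hv =>
    ⟨fun z => by rw [fn_add, fn_add, hu.1, hv.1, map_add],
      fun z => by rw [fn_add, fn_add, hu.2, hv.2, map_add]⟩
  zero_mem' := ⟨fun z => by rw [fn_zero, fn_zero, map_zero],
    fun z => by rw [fn_zero, fn_zero, map_zero]⟩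
  smul_mem' := fun c u hu =>
    ⟨fun z => by rw [fn_smul, fn_smul, hu.1, map_smul],
      fun z => by rw [fn_smul, fn_smul, hu.2, map_smul]⟩

theorem isClosed_eqvSub (m : ℕ) (S₁ S₂ : V →L[ℝ] V) :
    IsClosed (eqvSub m S₁ S₂ : Set (WA m V)) := by
  have e : (eqvSub m S₁ S₂ : Set (WA m V)) = (⋂ z, {u | ev (r1 z) u = S₁ (ev z u)}) ∩
      ⋂ z, {u | ev (r2 z) u = S₂ (ev z u)} := by
    ext u
    simp only [mem_inter_iff, mem_iInter]
    exact Iff.rfl
  rw [e]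
  exact (isClosed_iInter fun z => isClosed_eq (ev _).continuous
    (S₁.continuous.comp (ev z).continuous)).inter (isClosed_iInter fun z =>
      isClosed_eq (ev _).continuous (S₂.continuous.comp (ev z).continuous))

instance (m : ℕ) (S₁ S₂ : V →L[ℝ] V) : CompleteSpace (eqvSub m S₁ S₂) :=
  (isClosed_eqvSub m S₁ S₂).completeSpace_coe

/-- Solving `∂x G + j ∂y G = f` with symmetry, where `c` is a conjugation. -/
theorem exists_db {j c : V →L[ℝ] V} (hj : ∀ v, j (j v) = -v) (hc : ∀ v, c (c v) = v)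
    (hcj : ∀ v, c (j v) = -j (c v)) {f : WA m V} (hf : Eqv (-c) c (fn f)) :
    ∃ G : WA (m + 1) V, Eqv c c (fn G) ∧ ∀ z, px (fn G) z + j (py (fn G) z) = fn f z := by
  have hm : mean f = 0 := mean_eq_zero fun z => by simp [hf.1, hf.2, hc]
  have h0 := db_dbInv hj f
  rw [hm, map_zero, sub_zero] at h0
  have hjc : ∀ v, j (c v) = -c (j v) := fun v => by rw [hcj, neg_neg]
  have hl : ∀ w : WA m V, lin j (symm c (-c) w) = symm (-c) c (lin j w) := fun w =>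
    ext fun z => by
      rw [fn_lin, fn_symm, fn_symm]
      simp [fn_lin, hjc]
  have hI : Inv2 (-c) c := ⟨fun v => by simp [hc], hc, fun v => by simp⟩
  have key : dx (symm c c (dbInv j f)) + lin j (dy (symm c c (dbInv j f))) = f := by
    rw [dx_symm, dy_symm, hl, ← map_add, h0, symm_eq hI hf]
  refine ⟨symm c c (dbInv j f), eqv_symm ⟨hc, hc, fun _ => rfl⟩ _, fun z => ?_⟩
  rw [← fn_dx, ← fn_dy, ← fn_lin, ← fn_add, key]

/-- Solving `Δ G = f` for odd `f`. -/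
theorem exists_lap {f : WA m V} (hf : Eqv (-ContinuousLinearMap.id ℝ V)
    (-ContinuousLinearMap.id ℝ V) (fn f)) :
    ∃ G : WA (m + 2) V, Eqv (-ContinuousLinearMap.id ℝ V) (-ContinuousLinearMap.id ℝ V) (fn G) ∧
      ∀ z, px (px (fn G)) z + py (py (fn G)) z = fn f z := by
  have hm : mean f = 0 := by
    have e : refl1 f = -f := ext fun z => by simp [fn_refl1, fn_neg, hf.1]
    refine FSym_zero ?_
    rw [← map_neg, ← e, mean_refl1]
  have h0 := lap_lapInv f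
  rw [hm, map_zero, sub_zero] at h0
  have hI : Inv2 (-ContinuousLinearMap.id ℝ V) (-ContinuousLinearMap.id ℝ V) :=
    ⟨fun v => by simp, fun v => by simp, fun _ => rfl⟩
  generalize -ContinuousLinearMap.id ℝ V = S at hf hI
  have key : dx (dx (symm S S (lapInv f))) + dy (dy (symm S S (lapInv f))) = f := by
    rw [dx_symm, dx_symm, dy_symm, dy_symm, neg_neg, ← map_add, h0, symm_eq hI hf]
  refine ⟨symm S S (lapInv f), eqv_symm hI _, fun z => ?_⟩
  rw [← fn_dx, ← fn_dy, ← fn_dx, ← fn_dy, ← fn_add, key]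

end WA

end Pool.Agent.Lib.MP_ccffa6_gt
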