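import Pool.Agent.Lib.MP_ccffa6_gt.T.CTame
import Pool.Agent.Lib.MP_ccffa6_gt.K.Ext

/-! The negative end: algebra and uniform constants. -/

open Set Filter Topology MeasureTheory
open scoped ContDiff ComplexConjugate Real

noncomputable section

namespace Pool.Agent.Lib.MP_ccffa6_gt

variable {V : Type} [NormedAddCommGroup V] [NormedSpace ℝ V] [FiniteDimensional ℝ V] {k : ℕ}
  {T : TD k V} {κ : ℂ → ℂ} {τ : ℝ} {u : ℂ → V}

omit [FiniteDimensional ℝ V] in
theorem t_hcyl_line (y e : V) : HasDerivAt (fun t : ℝ => y + t • e) e 0 := by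
  simpa using ((hasDerivAt_id (0 : ℝ)).smul_const e).const_add y

omit [FiniteDimensional ℝ V] in
/-- A null vector of a nonnegative quadratic form lies in its kernel. -/
theorem t_hcyl_quad {S : Submodule ℝ V} {w : Bil V} {J : V →L[ℝ] V}
    (hq : ∀ v ∈ S, 0 ≤ w v (J v)) {a : V} (ha : a ∈ S) (h0 : w a (J a) = 0) {v : V} (hv : v ∈ S)
    (t : ℝ) : w (v + t • a) (J (v + t • a)) = w v (J v) := by
  have h1 : ∀ t : ℝ, w (v + t • a) (J (v + t • a)) =
      w v (J v) + t * (w v (J a) + w a (J v)) := fun t => by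
    simp only [map_add, map_smul, add_apply, smul_apply, smul_eq_mul, h0]
    ring
  have h2 : w v (J a) + w a (J v) = 0 := by
    by_contra hn
    have h3 := hq _ (S.add_mem hv (S.smul_mem (-(w v (J v) + 1) / (w v (J a) + w a (J v))) ha))
    rw [h1, div_mul_cancel₀ _ hn] at h3
    linarith
  rw [h1, h2, mul_zero, add_zero]

theorem TD.OK.ae (hT : T.OK) : ∀ y ∈ T.C, T.α y T.e = 0 := hT.cyl.ae

/-- Translation by `t • e` (`Tan.map`). -/
theorem TD.OK.tan_inv (hT : T.OK) (y : V) (t : ℝ) : Tan T.C (y + t • T.e) = Tan T.C y := by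
  have key : ∀ (y : V) (t : ℝ), Tan T.C y ≤ Tan T.C (y + t • T.e) := fun y t v hv => by
    have h1 : HasFDerivAt (fun x : V => x + t • T.e) (ContinuousLinearMap.id ℝ V) y :=
      (hasFDerivAt_id y).add_const _
    have h2 := Tan.map (S' := T.C) h1.differentiableAt
      (eventually_mem_nhdsWithin.mono fun x hx => (hT.cyl.inv x t).2 hx) hv
    rwa [h1.fderiv] at h2
  refine le_antisymm ?_ (key y t)
  have h3 := key (y + t • T.e) (-t)
  rwa [neg_smul, add_neg_cancel_right] at h3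

theorem TD.OK.dα_inv (hT : T.OK) (y : V) (t : ℝ) : dF T.α (y + t • T.e) = dF T.α y := by
  have h1 : fderiv ℝ T.α (y + t • T.e) = fderiv ℝ T.α y := by
    rw [← fderiv_comp_add_right]
    simp only [hT.cyl.invα]
  simp only [dF, h1]

/-- `Tan.congr`. -/
theorem TD.OK.tan_bot (hT : T.OK) {y : V} (hs : T.s y < 0) : Tan T.W y = Tan T.C y := by
  refine Tan.congr ?_
  have h1 : ∀ᶠ x in 𝓝 y, T.s x < 0 := T.s.continuous.continuousAt.eventually (gt_mem_nhds hs)
  exact h1.mono fun x hx => propext (hT.bot x hx)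

theorem TD.OK.e_tan (hT : T.OK) {y : V} (hy : y ∈ T.C) : T.e ∈ Tan T.C y := by
  have h1 := Tan.curve (S := T.C) (t_hcyl_line y T.e)
    (Eventually.of_forall fun t => (hT.cyl.inv y t).2 hy)
  simpa using h1

/-- `α (J e) = 1`, `s (J e) = 0`, and `e`, `J e` lie in the kernel of the symmetric part of
`(v, w) ↦ dα (v, J w)` on the tangent space: `dα (e, w) = 0` for tangent `w` (invariance,
`ae`, `Tan.fderiv_congr`); a nonnegative quadratic form `q` with `q e = 0` has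
`q (v + t e) = q v`. -/
theorem TD.OK.reeb (hT : T.OK) {y : V} (hy : y ∈ T.C) :
    T.α y (T.J0 y T.e) = 1 ∧ T.s (T.J0 y T.e) = 0 ∧ ∀ v ∈ Tan T.C y, ∀ t t' : ℝ,
      dF T.α y (v + t • T.e + t' • T.J0 y T.e) (T.J0 y (v + t • T.e + t' • T.J0 y T.e)) =
        dF T.α y v (T.J0 y v) := by
  have he := hT.e_tan hy
  obtain ⟨hJe, hJJ⟩ := hT.cyl.mapJ y hy _ he
  have hd : DifferentiableAt ℝ T.α y := hT.cyl.smα.differentiable (by simp) y
  have h1 : fderiv ℝ T.α y T.e = 0 := by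
    have h2 : HasFDerivAt T.α (fderiv ℝ T.α y) (y + (0 : ℝ) • T.e) := by
      simpa using hd.hasFDerivAt
    have h3 := h2.comp_hasDerivAt (0 : ℝ) (t_hcyl_line y T.e)
    have h4 : (T.α ∘ fun t : ℝ => y + t • T.e) = fun _ => T.α y := funext fun t => hT.cyl.invα y t
    rw [h4] at h3
    exact h3.unique (hasDerivAt_const _ _)
  have h5 : fderiv ℝ T.α y (T.J0 y T.e) T.e = 0 := by
    have h6 := Tan.fderiv_congr (g := fun _ => (0 : ℝ)) hy
      (hd.clm_apply (differentiableAt_const T.e)) (differentiableAt_const _)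
      (eventually_mem_nhdsWithin.mono fun x hx => hT.cyl.ae x hx) hJe
    rw [fderiv_clm_apply hd (differentiableAt_const _)] at h6
    simpa using h6
  have hq : ∀ v ∈ Tan T.C y, 0 ≤ dF T.α y v (T.J0 y v) := fun v hv => (hT.cyl.pos y hy v hv).1
  refine ⟨?_, ?_, fun v hv t t' => ?_⟩
  · have h7 := hT.cyl.sJ y hy _ hJe
    rw [hJJ, map_neg, hT.cyl.se] at h7
    exact (neg_injective h7).symm
  · rw [hT.cyl.sJ y hy _ he, hT.cyl.ae y hy, neg_zero]
  · rw [t_hcyl_quad hq hJe (by simp [dF, hJJ, h1, h5]) (add_mem hv (Submodule.smul_mem _ _ he)),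
      t_hcyl_quad hq he (by simp [dF, h1, h5]) hv]

/-- `t_coerc` on the compact level `s = -1` of `C` (a translate of `cpt`, contained in `W`) with
`A = fderiv ν` and `q y v = dα (v, J v) + (s v) ^ 2 + (α v) ^ 2`; invariance for the other levels.
The second bound is the first one for `v - s v • e - α v • J e` (`reeb`). -/
theorem TD.OK.cyl_bound (hT : T.OK) : ∃ C : ℝ, 0 < C ∧ ∀ y ∈ T.C, ∀ v ∈ Tan T.C y,
    ‖v‖ ^ 2 ≤ C * (dF T.α y v (T.J0 y v) + T.s v ^ 2 + T.α y v ^ 2) ∧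
    ‖v - T.s v • T.e - T.α y v • T.J0 y T.e‖ ^ 2 ≤ C * dF T.α y v (T.J0 y v) := by
  have hK : IsCompact (T.C ∩ {y | T.s y = -1}) := by
    have h1 : T.C ∩ {y | T.s y = -1} =
        (fun x => x + (-1 : ℝ) • T.e) '' (T.C ∩ {y | T.s y = 0}) := by
      ext y
      constructor
      · rintro ⟨h1, h2⟩
        refine ⟨y + (1 : ℝ) • T.e, ⟨(hT.cyl.inv y 1).2 h1, ?_⟩, by simp⟩
        have h3 : T.s y = -1 := h2
        simp [h3, hT.cyl.se]
      · rintro ⟨x, ⟨h1, h2⟩, rfl⟩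
        have h3 : T.s x = 0 := h2
        exact ⟨(hT.cyl.inv x _).2 h1, by simp [h3, hT.cyl.se]⟩
    rw [h1]
    exact hT.cyl.cpt.image (by fun_prop)
  have hneg : ∀ y ∈ T.C ∩ {y | T.s y = -1}, T.s y < 0 := fun y hy => by
    have h3 : T.s y = -1 := hy.2
    linarith
  have htan : ∀ y ∈ T.C ∩ {y | T.s y = -1}, ∀ v, v ∈ Tan T.C y ↔ fderiv ℝ T.ν y v = 0 :=
    fun y hy v => by
      rw [← hT.tan_bot (hneg y hy)]
      exact hT.tan y ((hT.bot y (hneg y hy)).2 hy.1) v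
  have hα : Continuous T.α := hT.cyl.smα.continuous
  have hD : Continuous (fderiv ℝ T.α) := hT.cyl.smα.continuous_fderiv (by simp)
  have hJ : Continuous fun p : V × V => T.J0 p.1 p.2 :=
    (hT.cyl.smJ.continuous.comp continuous_fst).clm_apply continuous_snd
  obtain ⟨C, hC, hb⟩ := t_coerc hK (hT.smν.continuous_fderiv (by simp))
    (q := fun y v => dF T.α y v (T.J0 y v) + T.s v ^ 2 + T.α y v ^ 2)
    ((((((hD.comp continuous_fst).clm_apply continuous_snd).clm_apply hJ).sub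
      (((hD.comp continuous_fst).clm_apply hJ).clm_apply continuous_snd)).add
      ((T.s.continuous.comp continuous_snd).pow 2)).add
      (((hα.comp continuous_fst).clm_apply continuous_snd).pow 2))
    (fun y v c => by
      simp only [map_smul, smul_apply, smul_eq_mul]
      ring)
    (fun y hy v hv hv0 => by
      obtain ⟨h1, h2⟩ := hT.cyl.pos y hy.1 v ((htan y hy v).2 hv)
      by_contra hn
      have h3 := sq_nonneg (T.s v)
      have h4 := sq_nonneg (T.α y v)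
      have h5 : T.s v = 0 := pow_eq_zero_iff two_ne_zero |>.1 (by linarith [not_lt.1 hn])
      have h6 : T.α y v = 0 := pow_eq_zero_iff two_ne_zero |>.1 (by linarith [not_lt.1 hn])
      have h7 := h2 (by linarith [not_lt.1 hn])
      rw [h5, h6, zero_smul, zero_smul, add_zero] at h7
      exact hv0 h7)
  have first : ∀ y ∈ T.C, ∀ v ∈ Tan T.C y,
      ‖v‖ ^ 2 ≤ C * (dF T.α y v (T.J0 y v) + T.s v ^ 2 + T.α y v ^ 2) := fun y hy v hv => by
    have h1 : y + (-1 - T.s y) • T.e ∈ T.C ∩ {y | T.s y = -1} :=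
      ⟨(hT.cyl.inv y _).2 hy, by simp [hT.cyl.se]⟩
    have h2 := hb _ h1 v ((htan _ h1 v).1 (by rwa [hT.tan_inv]))
    rwa [hT.dα_inv, hT.cyl.invJ, hT.cyl.invα] at h2
  refine ⟨C, hC, fun y hy v hv => ⟨first y hy v hv, ?_⟩⟩
  obtain ⟨r1, r2, r3⟩ := hT.reeb hy
  have he := hT.e_tan hy
  have h1 := first y hy (v + (-T.s v) • T.e + (-T.α y v) • T.J0 y T.e)
    (add_mem (add_mem hv (Submodule.smul_mem _ _ he))
      (Submodule.smul_mem _ _ (hT.cyl.mapJ y hy _ he).1))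
  have h2 : T.s (v + (-T.s v) • T.e + (-T.α y v) • T.J0 y T.e) = 0 := by
    simp [hT.cyl.se, r2]
  have h3 : T.α y (v + (-T.s v) • T.e + (-T.α y v) • T.J0 y T.e) = 0 := by
    simp [hT.cyl.ae y hy, r1]
  rw [r3 v hv, h2, h3] at h1
  simpa [sub_eq_add_neg] using h1

/-- The Reeb field, cut off (`exists_cutoff`); reparametrise `γ t = c (T t / (2 π))` in `hyp`. -/
theorem TD.OK.field (hT : T.OK) : ∃ Y : V → V, ContDiff ℝ ∞ Y ∧ HasCompactSupport Y ∧
    (∀ y ∈ T.C ∩ {y | T.s y = 0}, Y y = T.J0 y T.e) ∧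
    ∀ (c : ℝ → V) (t₀ : ℝ), 0 < t₀ → (∀ t, c (t + t₀) = c t) → (∀ t, c t ∈ T.C ∩ {y | T.s y = 0}) →
      (∀ t, HasDerivAt c (Y (c t)) t) → ∃ θ : Form1 V, ContDiff ℝ ∞ θ ∧ ClosedOn T.C θ ∧
        ∫ t in (0 : ℝ)..t₀, θ (c t) (Y (c t)) ≠ 0 := by
  obtain ⟨χ, hχ, -, h1, -, hc⟩ := exists_cutoff hT.cyl.cpt.isClosed isOpen_univ (subset_univ _)
  have hY : ∀ y ∈ T.C ∩ {y | T.s y = 0}, χ y • T.J0 y T.e = T.J0 y T.e := fun y hy => by
    rw [h1.self_of_nhdsSet y hy, one_smul]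
  refine ⟨fun y => χ y • T.J0 y T.e, hχ.smul (hT.cyl.smJ.clm_apply contDiff_const),
    (hc hT.cyl.cpt).smul_right, hY, fun c t₀ h0 hp hm hd => ?_⟩
  have hπ : (0 : ℝ) < 2 * π := Real.two_pi_pos
  have ha : t₀ / (2 * π) * (2 * π) = t₀ := div_mul_cancel₀ _ hπ.ne'
  obtain ⟨θ, hθ, -, hcl, hne⟩ := hT.cyl.hyp (fun t => c (t₀ / (2 * π) * t)) (t₀ / (2 * π))
    (div_pos h0 hπ) (fun t => by simp only [mul_add, ha, hp]) (fun t => (hm _).1) fun t => by
      have h2 := (hd (t₀ / (2 * π) * t)).scomp t ((hasDerivAt_id t).const_mul (t₀ / (2 * π)))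
      simp only [hY _ (hm _), mul_one] at h2
      exact h2
  refine ⟨θ, hθ, hcl, ?_⟩
  simp only [map_smul, smul_eq_mul] at hne
  rw [intervalIntegral.integral_const_mul, intervalIntegral.mul_integral_comp_mul_left
    (f := fun t => θ (c t) (T.J0 (c t) T.e)), ha, mul_zero] at hne
  simpa only [hY _ (hm _)] using hne

end Pool.Agent.Lib.MP_ccffa6_gt
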