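import Pool.Agent.Lib.MP_ccffa6_gt.T.HCyl

/-! The height function of a solution. -/

open Set Filter Topology MeasureTheory
open scoped ContDiff ComplexConjugate Real

noncomputable section

namespace Pool.Agent.Lib.MP_ccffa6_gt

variable {V : Type} [NormedAddCommGroup V] [NormedSpace ℝ V] [FiniteDimensional ℝ V] {k : ℕ}
  {T : TD k V} {κ : ℂ → ℂ} {τ : ℝ} {u : ℂ → V}

theorem t_hchi : ContDiff ℝ ∞ hchi ∧ (∀ s ≤ -1, hchi s = s) ∧ (∀ s, -1 / 2 ≤ s → hchi s = 0) ∧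
    (∀ s, hchi s < -1 → s < -1) ∧ ∀ s, s ≤ 0 → s ≤ hchi s := by
  refine ⟨contDiff_id.mul (contDiff_const.sub (Real.smoothTransition.contDiff.comp
    ((contDiff_const.mul contDiff_id).add contDiff_const))), fun s h => ?_, fun s h => ?_,
    fun s h => ?_, fun s h => ?_⟩
  · rw [hchi, Real.smoothTransition.zero_of_nonpos (by linarith)]; ring
  · rw [hchi, Real.smoothTransition.one_of_one_le (by linarith)]; ring
  · by_contra h'
    have h0 := Real.smoothTransition.nonneg (2 * s + 2)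
    have h1 := Real.smoothTransition.le_one (2 * s + 2)
    have := mul_nonneg (show 0 ≤ s + 1 by linarith) (sub_nonneg.2 h1)
    unfold hchi at h
    nlinarith
  · have h0 := Real.smoothTransition.nonneg (2 * s + 2)
    have := mul_nonneg (show 0 ≤ -s by linarith) h0
    unfold hchi
    nlinarith

/-- First order identities at the points of the square in the negative end
(`tan_of_mapsTo`, `tan_bot`, `botJ`, `sJ`). -/
theorem Sol.bot1 (hT : T.OK) (hu : Sol T κ τ u) {z : ℂ} (hz : z ∈ Sq) (hs : T.s (u z) < 0) :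
    u z ∈ T.C ∧ px u z ∈ Tan T.C (u z) ∧ py u z ∈ Tan T.C (u z) ∧ JHol T.J0 u {z} ∧
    px (fun w => T.s (u w)) z = T.α (u z) (py u z) ∧
    py (fun w => T.s (u w)) z = -T.α (u z) (px u z) ∧
    T.s (px u z) = T.α (u z) (py u z) ∧ T.s (py u z) = -T.α (u z) (px u z) ∧
    T.lam (u z) (px u z) = Real.exp (T.s (u z)) * T.α (u z) (px u z) ∧
    T.lam (u z) (py u z) = Real.exp (T.s (u z)) * T.α (u z) (py u z) := by
  have hd : DifferentiableAt ℝ u z := hu.sm.differentiable (by simp) z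
  have hW := hu.mapW hz
  have hC := (hT.bot _ hs).1 hW
  have t1 : px u z ∈ Tan T.W (u z) := tan_of_mapsTo hz hd hu.mapW 1
  have t2 : py u z ∈ Tan T.W (u z) := tan_of_mapsTo hz hd hu.mapW Complex.I
  have c1 := hT.tan_bot hs ▸ t1
  have c2 := hT.tan_bot hs ▸ t2
  obtain ⟨j1, j2⟩ := hu.hol z hz
  rw [(hT.botJ _ hW hs _ t1).1] at j1
  rw [(hT.botJ _ hW hs _ t2).1] at j2
  have s1 : T.s (px u z) = T.α (u z) (py u z) := by
    rw [j2, map_neg, hT.cyl.sJ _ hC _ c2, neg_neg]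
  have s2 : T.s (py u z) = -T.α (u z) (px u z) := by
    rw [j1, hT.cyl.sJ _ hC _ c1]
  exact ⟨hC, c1, c2, Base2_jhol.2 ⟨j1, j2⟩, (px_clm T.s hd).trans s1, (py_clm T.s hd).trans s2,
    s1, s2, (hT.botJ _ hW hs _ t1).2, (hT.botJ _ hW hs _ t2).2⟩

theorem t_HGeo_lap {g P Q : ℂ → ℝ} {z : ℂ} (hQ : Q =ᶠ[𝓝 z] px g)
    (hP : (fun w => -P w) =ᶠ[𝓝 z] py g) : lap g z = px Q z - py P z := by
  have h : py (fun w => -P w) z = -py P z := by
    unfold py
    rw [fderiv_fun_neg]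
    rfl
  rw [lap, ← (t_px_congr hQ).eq_of_nhds, ← (t_py_congr hP).eq_of_nhds, h, sub_eq_add_neg]



/-- Second order identities: `z` is an interior point (`s_pos`), `bot1` holds near `z`;
`dens_eq` for `α` and for `lam`. -/
theorem Sol.bot2 (hT : T.OK) (hu : Sol T κ τ u) {z : ℂ} (hz : z ∈ Sq) (hs : T.s (u z) < 0) :
    z ∈ interior Sq ∧ lap (fun w => T.s (u w)) z = dens T.α u z ∧
    dens T.α u z = dF T.α (u z) (px u z) (T.J0 (u z) (px u z)) ∧
    dens T.α u z = dF T.α (u z) (py u z) (T.J0 (u z) (py u z)) ∧ 0 ≤ dens T.α u z ∧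
    dens T.lam u z = Real.exp (T.s (u z)) *
      (gr2 (fun w => T.s (u w)) z + lap (fun w => T.s (u w)) z) := by
  have hi : z ∈ interior Sq := by
    rw [interior_sq]
    exact ⟨hz, fun h => lt_asymm hs (hu.s_pos hT z h)⟩
  have hf : ContDiff ℝ ∞ fun w => T.s (u w) := T.s.contDiff.comp hu.sm
  have ev : ∀ᶠ w in 𝓝 z, w ∈ Sq ∧ T.s (u w) < 0 :=
    (show ∀ᶠ w in 𝓝 z, w ∈ Sq from mem_interior_iff_mem_nhds.1 hi).and
      ((isOpen_lt hf.continuous continuous_const).eventually_mem hs)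
  have h2 : ContDiffAt ℝ 2 u z := hu.sm.contDiffAt.of_le (by norm_cast)
  obtain ⟨hC, c1, c2, hJ, -⟩ := hu.bot1 hT hz hs
  obtain ⟨j1, j2⟩ := Base2_jhol.1 hJ
  have e1 : dens T.α u z = dF T.α (u z) (px u z) (T.J0 (u z) (px u z)) := by rw [dens, ← j1]
  refine ⟨hi, ?_, e1, ?_, e1 ▸ (hT.cyl.pos _ hC _ c1).1, ?_⟩
  · rw [← dens_eq (hT.cyl.smα.differentiable (by simp) _) h2]
    exact t_HGeo_lap (ev.mono fun w hw => (hu.bot1 hT hw.1 hw.2).2.2.2.2.1.symm)
      (ev.mono fun w hw => (hu.bot1 hT hw.1 hw.2).2.2.2.2.2.1.symm)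
  · rw [dens, neg_eq_iff_eq_neg.1 j2.symm, map_neg]
    simp [dF]
  · have hd := hf.differentiable (by simp)
    rw [← dens_eq (hT.smlam.differentiable (by simp) _) h2,
      ← t_HGeo_lap (g := fun w => Real.exp (T.s (u w))), t_lap_comp Real.contDiff_exp hf,
      Real.deriv_exp, Real.deriv_exp]
    · ring
    · refine ev.mono fun w hw => ?_
      obtain ⟨-, -, -, -, a1, a2, -, -, a3, a4⟩ := hu.bot1 hT hw.1 hw.2
      beta_reduce
      rw [t_px_comp Real.differentiable_exp.differentiableAt (hd w), Real.deriv_exp, a1, a4]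
    · refine ev.mono fun w hw => ?_
      obtain ⟨-, -, -, -, a1, a2, -, -, a3, a4⟩ := hu.bot1 hT hw.1 hw.2
      beta_reduce
      rw [t_py_comp Real.differentiable_exp.differentiableAt (hd w), Real.deriv_exp, a2, a3,
        mul_neg]

/-- The three kinds of points. -/
theorem Sol.hfun_loc (hT : T.OK) (hu : Sol T κ τ u) (z : ℂ) :
    (z ∈ interior Sq → hfun T u =ᶠ[𝓝 z] fun w => hchi (T.s (u w))) ∧
    (z ∉ interior Sq → hfun T u =ᶠ[𝓝 z] fun _ => 0) := by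
  refine ⟨fun hi => ?_, fun hi => ?_⟩
  · filter_upwards [mem_interior_iff_mem_nhds.1 hi] with w hw
    exact indicator_of_mem hw _
  · by_cases hz : z ∈ Sq
    · have hb : z ∈ SqB := by
        by_contra h
        exact hi (interior_sq ▸ ⟨hz, h⟩)
      filter_upwards [(isOpen_lt continuous_const
        (T.s.continuous.comp hu.sm.continuous)).eventually_mem (hu.s_pos hT z hb)] with w hw
      have h0 : 0 < T.s (u w) := hw
      exact indicator_apply_eq_zero.2 fun _ => t_hchi.2.2.1 _ (by linarith)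
    · filter_upwards [isCompact_sq.isClosed.isOpen_compl.mem_nhds hz] with w hw
      exact indicator_of_notMem hw _

theorem Sol.hfun_sm (hT : T.OK) (hu : Sol T κ τ u) : ContDiff ℝ ∞ (hfun T u) := by
  refine contDiff_iff_contDiffAt.2 fun z => ?_
  by_cases hi : z ∈ interior Sq
  · exact (t_hchi.1.comp (T.s.contDiff.comp hu.sm)).contDiffAt.congr_of_eventuallyEq
      ((hu.hfun_loc hT z).1 hi)
  · exact contDiffAt_const.congr_of_eventuallyEq ((hu.hfun_loc hT z).2 hi)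

theorem Sol.hfun_lt (hT : T.OK) (hu : Sol T κ τ u) {z : ℂ} (h : hfun T u z < -1) :
    z ∈ Sq ∧ T.s (u z) < -1 ∧ hfun T u =ᶠ[𝓝 z] fun w => T.s (u w) := by
  have hz : z ∈ Sq := by
    by_contra hz
    rw [hfun, indicator_of_notMem hz] at h
    linarith
  rw [hfun, indicator_of_mem hz] at h
  have hs := t_hchi.2.2.2.1 _ h
  refine ⟨hz, hs, ?_⟩
  filter_upwards [(hu.hfun_loc hT z).1 (hu.bot2 hT hz (by linarith)).1,
    (isOpen_lt (T.s.continuous.comp hu.sm.continuous) continuous_const).eventually_mem hs]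
    with w h1 h2
  exact h1.trans (t_hchi.2.1 _ (le_of_lt h2))

theorem Sol.hfun_sub (hT : T.OK) (hu : Sol T κ τ u) (z : ℂ) (h : hfun T u z < -1) :
    0 ≤ lap (hfun T u) z := by
  obtain ⟨hz, hs, he⟩ := hu.hfun_lt hT h
  obtain ⟨-, a, -, -, b, -⟩ := hu.bot2 hT hz (by linarith)
  rw [t_lap_congr he, a]
  exact b

/-- The corners lie in `Sq`, so the rectangle does; `t_mp` with `f = s ∘ u`, `t' = 0`,
`p = lam (u) (u_x)`, `q = lam (u) (u_y)`. -/
theorem Sol.hfun_mp (hT : T.OK) (hu : Sol T κ τ u) : ∀ t < -1, ∀ x₁ x₂ y₁ y₂,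
    (∀ z ∈ Bd x₁ x₂ y₁ y₂, hfun T u z ≤ t) → ∀ z ∈ Rect x₁ x₂ y₁ y₂, hfun T u z ≤ t := by
  intro t ht x₁ x₂ y₁ y₂ hb z hz
  have hx : x₁ ≤ x₂ := hz.1.1.trans hz.1.2
  have hy : y₁ ≤ y₂ := hz.2.1.trans hz.2.2
  have c1 : (x₁ + y₁ * Complex.I : ℂ) ∈ Sq := (hu.hfun_lt hT ((hb _ ⟨t_mem_rect.2
    ⟨left_mem_Icc.2 hx, left_mem_Icc.2 hy⟩, Or.inl (by simp)⟩).trans_lt ht)).1
  have c2 : (x₂ + y₂ * Complex.I : ℂ) ∈ Sq := (hu.hfun_lt hT ((hb _ ⟨t_mem_rect.2
    ⟨right_mem_Icc.2 hx, right_mem_Icc.2 hy⟩, Or.inr (Or.inl (by simp))⟩).trans_lt ht)).1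
  rw [sq_eq_rect, t_mem_rect] at c1 c2
  have hS : Rect x₁ x₂ y₁ y₂ ⊆ Sq :=
    sq_eq_rect ▸ t_rect_sub c1.1.1 c2.1.2 c1.2.1 c2.2.2
  have hl := hT.smlam.comp hu.sm
  have key := t_mp (f := fun w => T.s (u w)) (p := fun w => T.lam (u w) (px u w))
    (q := fun w => T.lam (u w) (py u w)) (T.s.contDiff.comp hu.sm)
    (hl.clm_apply (t_cd_px hu.sm)) (hl.clm_apply (t_cd_py hu.sm))
    (a := x₁) (b := x₂) (c := y₁) (d := y₂) (show t < 0 by linarith) (fun w hw => ?_)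
    (fun w hw _ h0 => ?_) (fun w hw => ?_) z hz
  · rw [hfun, indicator_of_mem (hS hz), t_hchi.2.1 _ (by linarith)]
    exact key
  · rw [dens_eq (hT.smlam.differentiable (by simp) _) (hu.sm.contDiffAt.of_le (by norm_cast))]
    exact (hu.dens_nonneg hT (hS hw)).1
  · obtain ⟨-, -, -, -, a1, a2, -, -, a3, a4⟩ := hu.bot1 hT (hS hw) h0
    have e := Real.exp_pos (T.s (u w))
    have n1 := mul_nonneg e.le (sq_nonneg (T.α (u w) (px u w)))
    have n2 := mul_nonneg e.le (sq_nonneg (T.α (u w) (py u w)))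
    rw [a1, a2, a3, a4]
    refine ⟨by nlinarith, fun h => ?_⟩
    have : Real.exp (T.s (u w)) * T.α (u w) (py u w) ^ 2 = 0 := by nlinarith
    exact pow_eq_zero_iff two_ne_zero |>.1 ((mul_eq_zero.1 this).resolve_left e.ne')
  · exact (hu.hfun_lt hT ((hb w hw).trans_lt ht)).2.2.eq_of_nhds.symm.trans_le (hb w hw)

end Pool.Agent.Lib.MP_ccffa6_gt
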