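import Pool.Agent.Lib.MP_ccffa6_gt.T.CDefs

/-! Paths which nearly follow a vector field. -/

open Set Filter Topology MeasureTheory
open scoped ContDiff ComplexConjugate Real

noncomputable section

namespace Pool.Agent.Lib.MP_ccffa6_gt

variable {V : Type} [NormedAddCommGroup V] [NormedSpace ℝ V]

theorem t_hgron_der {g : ℝ → ℝ} (hg : Continuous g) (a t : ℝ) :
    HasDerivAt (fun t => ∫ s in a..t, g s) (g t) t := (hg.integral_hasStrictDerivAt a t).hasDerivAt

theorem t_hgron_mono {g : ℝ → ℝ} (hg : Continuous g) (h0 : ∀ s, 0 ≤ g s) {a b t : ℝ}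
    (ht : t ∈ Icc a b) : 0 ≤ ∫ s in a..t, g s ∧ ∫ s in a..t, g s ≤ ∫ s in a..b, g s :=
  ⟨intervalIntegral.integral_nonneg ht.1 fun s _ => h0 s,
    intervalIntegral.integral_mono_interval le_rfl ht.1 ht.2 (ae_of_all _ h0)
      (hg.intervalIntegrable _ _)⟩

/-- Gronwall estimate against an orbit of the field. -/
theorem Seg.gron {Y : V → V} {N : Set V} {C ε : ℝ} {γ γ' : ℝ → V} {b : ℝ → ℝ} {t₀ t₁ : ℝ}
    (h : Seg Y N C ε γ γ' b t₀ t₁) {L : NNReal} (hL : LipschitzWith L Y) {c : ℝ → V}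
    (hc : ∀ t, HasDerivAt c (Y (c t)) t) {B₀ d : ℝ} (hd : ‖γ t₀ - c B₀‖ ≤ d) :
    ∀ t ∈ Icc t₀ t₁, ‖γ t - c (B₀ + ∫ s in t₀..t, b s)‖ ≤ (d + ε) * Real.exp (L * C) := by
  intro t ht
  have cγ : Continuous γ := continuous_iff_continuousAt.2 fun t => (h.der t).continuousAt
  have ce : Continuous fun t => ‖γ' t - b t • Y (γ t)‖ :=
    (h.c'.sub (h.cb.smul (hL.continuous.comp cγ))).norm
  have hf : ∀ t, HasDerivAt (fun t => γ t - c (B₀ + ∫ s in t₀..t, b s))
      (γ' t - b t • Y (c (B₀ + ∫ s in t₀..t, b s))) t := fun t =>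
    (h.der t).sub ((hc _).scomp t ((t_hgron_der h.cb t₀ t).const_add B₀))
  have hb := fun t (ht : t ∈ Icc t₀ t₁) => t_hgron_mono h.cb.abs (fun s => abs_nonneg _) ht
  have he := t_hgron_mono ce (fun s => norm_nonneg _) ht
  have key : ∀ η > 0, ‖γ t - c (B₀ + ∫ s in t₀..t, b s)‖ ≤
      (d + ε + η * (t - t₀)) * Real.exp (L * C) := fun η hη => by
    refine (image_norm_le_of_norm_deriv_right_lt_deriv_boundary
      (fun t _ => (hf t).continuousAt.continuousWithinAt) (fun t _ => (hf t).hasDerivWithinAt)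
      (by simpa using hd) (fun t => (((t_hgron_der ce t₀ t).const_add d).add
        (((hasDerivAt_id' t).sub_const t₀).const_mul η)).mul
        ((t_hgron_der h.cb.abs t₀ t).const_mul (L : ℝ)).exp) (fun x hx e => ?_) ht).trans ?_
    · have h1 := Real.one_le_exp (mul_nonneg L.coe_nonneg (hb x (Ico_subset_Icc_self hx)).1)
      have h2 := hL.norm_sub_le (γ x) (c (B₀ + ∫ s in t₀..x, b s))
      have h3 := norm_add_le (γ' x - b x • Y (γ x))
        (b x • (Y (γ x) - Y (c (B₀ + ∫ s in t₀..x, b s))))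
      rw [smul_sub, sub_add_sub_cancel, ← smul_sub, norm_smul, Real.norm_eq_abs] at h3
      simp only [Pi.mul_apply, Pi.add_apply] at e ⊢
      rw [← mul_assoc, ← e]
      linarith [mul_le_mul_of_nonneg_left h2 (abs_nonneg (b x)),
        mul_le_mul_of_nonneg_left h1 hη.le,
        mul_le_mul_of_nonneg_left h1 (norm_nonneg (γ' x - b x • Y (γ x)))]
    · have h0 := (norm_nonneg _).trans hd
      have h1 := mul_nonneg hη.le (sub_nonneg.2 ht.1)
      exact mul_le_mul (add_le_add (add_le_add le_rfl (he.2.trans h.err)) le_rfl)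
        (Real.exp_le_exp.2 (mul_le_mul_of_nonneg_left ((hb t ht).2.trans h.spd) L.2))
        (Real.exp_pos _).le (by linarith [he.1, he.2, h.err])
  have h1 : Tendsto (fun η : ℝ => (d + ε + η * (t - t₀)) * Real.exp (L * C)) (𝓝[>] 0)
      (𝓝 ((d + ε) * Real.exp (L * C))) :=
    (Continuous.tendsto' (by fun_prop) _ _ (by simp)).mono_left nhdsWithin_le_nhds
  exact ge_of_tendsto h1 (eventually_nhdsWithin_of_forall key)

theorem Seg.abs_le {Y : V → V} {N : Set V} {C ε : ℝ} {γ γ' : ℝ → V} {b : ℝ → ℝ} {t₀ t₁ : ℝ}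
    (h : Seg Y N C ε γ γ' b t₀ t₁) : |∫ s in t₀..t₁, b s| ≤ C ∧ 0 ≤ C ∧ 0 ≤ ε := by
  have h1 := (intervalIntegral.abs_integral_le_integral_abs h.le).trans h.spd
  exact ⟨h1, (abs_nonneg _).trans h1,
    (intervalIntegral.integral_nonneg h.le fun _ _ => norm_nonneg _).trans h.err⟩

/-- Intermediate values of `t ↦ B₀ + ∫ s in t₀..t, b s`. -/
theorem Seg.near {Y : V → V} {N : Set V} {C ε : ℝ} {γ γ' : ℝ → V} {b : ℝ → ℝ} {t₀ t₁ : ℝ}
    (h : Seg Y N C ε γ γ' b t₀ t₁) {c : ℝ → V} {B₀ δ : ℝ}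
    (hn : ∀ t ∈ Icc t₀ t₁, ‖γ t - c (B₀ + ∫ s in t₀..t, b s)‖ ≤ δ) :
    ∀ σ ∈ uIcc B₀ (B₀ + ∫ s in t₀..t₁, b s), ∃ n ∈ N, ‖n - c σ‖ ≤ δ := by
  intro σ hσ
  have h1 := intermediate_value_uIcc (a := t₀) (b := t₁) (f := fun t => B₀ + ∫ s in t₀..t, b s)
    fun t _ => ((t_hgron_der h.cb t₀ t).const_add B₀).continuousAt.continuousWithinAt
  obtain ⟨t, ht, rfl⟩ := h1 (by simpa using hσ)
  rw [uIcc_of_le h.le] at ht
  exact ⟨_, h.mem t ht, hn t ht⟩

/-- The period along the path is close to the period along the orbit. -/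
theorem Seg.period {Y : V → V} {N : Set V} {C ε : ℝ} {γ γ' : ℝ → V} {b : ℝ → ℝ} {t₀ t₁ : ℝ}
    (h : Seg Y N C ε γ γ' b t₀ t₁) (hY : Continuous Y) {c : ℝ → V} (hc : Continuous c) {B₀ δ : ℝ}
    (hn : ∀ t ∈ Icc t₀ t₁, ‖γ t - c (B₀ + ∫ s in t₀..t, b s)‖ ≤ δ) {θ : Form1 V}
    (hθ : Continuous θ) {M : NNReal} (hM : LipschitzWith M fun y => θ y (Y y))
    (hb : ∀ y ∈ N, ‖θ y‖ ≤ M) :
    |(∫ t in t₀..t₁, θ (γ t) (γ' t)) -
      ∫ σ in B₀..(B₀ + ∫ s in t₀..t₁, b s), θ (c σ) (Y (c σ))| ≤ M * (δ * C + ε) := by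
  have cγ : Continuous γ := continuous_iff_continuousAt.2 fun t => (h.der t).continuousAt
  have hB := fun t => (t_hgron_der h.cb t₀ t).const_add B₀
  have cB : Continuous fun t => B₀ + ∫ s in t₀..t, b s :=
    continuous_iff_continuousAt.2 fun t => (hB t).continuousAt
  have cg : Continuous fun σ => θ (c σ) (Y (c σ)) := hM.continuous.comp hc
  have ce : Continuous fun t => ‖γ' t - b t • Y (γ t)‖ :=
    (h.c'.sub (h.cb.smul (hY.comp cγ))).norm
  have h1 := intervalIntegral.integral_comp_mul_deriv (a := t₀) (b := t₁) (fun t _ => hB t)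
    h.cb.continuousOn cg
  have h0 : 0 ≤ δ := (norm_nonneg _).trans (hn t₀ ⟨le_rfl, h.le⟩)
  have i1 := (h.cb.abs.const_mul (M * δ)).intervalIntegrable (μ := volume) t₀ t₁
  have i2 := (ce.const_mul M).intervalIntegrable (μ := volume) t₀ t₁
  rw [intervalIntegral.integral_same, add_zero] at h1
  have c1 : Continuous fun t => θ (γ t) (γ' t) := (hθ.comp cγ).clm_apply h.c'
  rw [← h1, ← intervalIntegral.integral_sub (c1.intervalIntegrable _ _)
    (((cg.comp cB).fun_mul h.cb).intervalIntegrable _ _), ← Real.norm_eq_abs]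
  refine (intervalIntegral.norm_integral_le_of_norm_le h.le (ae_of_all _ fun t ht => ?_)
    (i1.add i2)).trans ?_
  · have ht' := Ioc_subset_Icc_self ht
    have h2 := (hM.norm_sub_le (γ t) _).trans (mul_le_mul_of_nonneg_left (hn t ht') M.2)
    have h3 := (θ (γ t)).le_of_opNorm_le (hb _ (h.mem t ht')) (γ' t - b t • Y (γ t))
    have h4 := norm_add_le ((θ (γ t) (Y (γ t)) - θ (c (B₀ + ∫ s in t₀..t, b s))
      (Y (c (B₀ + ∫ s in t₀..t, b s)))) * b t) (θ (γ t) (γ' t - b t • Y (γ t)))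
    rw [norm_mul, Real.norm_eq_abs (b t)] at h4
    refine le_trans (le_of_eq (congrArg norm ?_)) (h4.trans (add_le_add
      (mul_le_mul_of_nonneg_right h2 (abs_nonneg _)) h3))
    simp only [Function.comp_apply, map_sub, map_smul, smul_eq_mul]
    ring
  · rw [intervalIntegral.integral_add i1 i2, intervalIntegral.integral_const_mul,
      intervalIntegral.integral_const_mul, mul_add, ← mul_assoc]
    exact add_le_add (mul_le_mul_of_nonneg_left h.spd (mul_nonneg M.2 h0))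
      (mul_le_mul_of_nonneg_left h.err M.2)

end Pool.Agent.Lib.MP_ccffa6_gt
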