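import Pool.Agent.Lib.MP_ccffa6_gt.T.COsc
import Pool.Agent.Lib.MP_ccffa6_gt.T.CMp

/-! The growth lemma. -/

open Set Filter Topology MeasureTheory
open scoped ContDiff ComplexConjugate Real

noncomputable section

namespace Pool.Agent.Lib.MP_ccffa6_gt

/-- `w = hw E`, `T` a truncation for `[t, t + w]` with `δ = w`, `g = T'(a) gr2 a` has integral at
most `3 w E` on every rectangle (`HS.slab`).  `t_annulus` at radius `2 r` gives a rectangle around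
`sqr z (2 r)` with `Sides g .. (12 w E)`; `t_sel_v` on `[x - r, x + r] × [y - 4 r, y + 4 r]` gives
a fifth line, which joins `sqr z r` (where the clamp is `t`) to the lower side.  With
`ε = √(12 w E)`, `4 ε < w`, so `a ≤ t + w` on the boundary; then `mp`. -/
theorem HS.grow {a : ℂ → ℝ} {E h Cr : ℝ} (ha : HS a E h Cr) {z : ℂ} {r t : ℝ} (hr : 0 < r)
    (h0 : ∀ w ∈ sqr z r, a w ≤ t) (ht : t + hw E < -1) :
    ∀ w ∈ sqr z (2 * r), a w ≤ t + hw E := by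
  have hE := ha.nonneg
  obtain ⟨w, hw'⟩ : ∃ w, w = hw E := ⟨_, rfl⟩
  rw [← hw'] at ht ⊢
  have hw1 : w = 1152 * E + 1 := hw'
  have hw0 : 0 < w := by linarith
  obtain ⟨T, hT⟩ := t_trunc (t₁ := t) (t₂ := t + w) (by linarith) hw0
  have hg := hT.cont ha.sm
  have hs : ∀ x₁ x₂ y₁ y₂, RI (fun z => deriv T (a z) * gr2 a z) x₁ x₂ y₁ y₂ ≤ 3 * w * E :=
    fun x₁ x₂ y₁ y₂ => (ha.slab hT x₁ x₂ y₁ y₂).trans_eq (by ring)
  obtain ⟨x₁, x₂, y₁, y₂, hsub, -, k1, k2, k3, k4, k5, -, hS⟩ := t_annulus hg (hT.nonneg a) z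
    (r := 2 * r) (A := 3 * w * E) (by linarith) (by
      have h1 := hs (z.re - 2 * (2 * r)) (z.re + 2 * (2 * r)) (z.im - 2 * (2 * r))
        (z.im + 2 * (2 * r))
      have h2 := t_RI_nonneg (g := fun z => deriv T (a z) * gr2 a z) (a := z.re - 2 * r)
        (b := z.re + 2 * r) (c := z.im - 2 * r) (d := z.im + 2 * r) fun z _ => hT.nonneg a z
      exact (sub_le_self _ h2).trans h1)
  obtain ⟨x₀, hx₀, hV⟩ := t_sel_v hg (a := z.re - r) (b := z.re + r) (c := z.im - 4 * r)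
    (d := z.im + 4 * r) (by linarith) (by linarith)
  have hA : 0 ≤ 4 * (3 * w * E) := by positivity
  have hε := Real.sqrt_nonneg (4 * (3 * w * E))
  have hε2 := Real.sq_sqrt hA
  generalize √(4 * (3 * w * E)) = ε at hε hε2
  have h4 : 4 * ε < w := by
    refine lt_of_pow_lt_pow_left₀ 2 hw0.le ?_
    rw [mul_pow, hε2]
    nlinarith
  have o1 := hT.osc_v ha.sm (x := x₀) (c := z.im - 4 * r) (d := z.im + 4 * r) hε
    (by
      have h1 := hV.trans (hs _ _ _ _)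
      rw [hε2]
      generalize VI (fun z => deriv T (a z) * gr2 a z) x₀ (z.im - 4 * r) (z.im + 4 * r) = v at h1
      linarith)
    (y := z.im) (y' := y₁) ⟨by linarith, by linarith⟩ ⟨by linarith, by linarith⟩
  have m1 : a (x₀ + z.im * Complex.I) ≤ t :=
    h0 _ (t_mem_rect.2 ⟨hx₀, by linarith, by linarith⟩)
  have m2 : (x₀ + y₁ * Complex.I : ℂ) ∈ Bd x₁ x₂ y₁ y₂ :=
    ⟨t_mem_rect.2 ⟨⟨by linarith [hx₀.1], by linarith [hx₀.2]⟩, le_rfl, hS.hy⟩,
      Or.inr (Or.inr (Or.inl (by simp)))⟩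
  have c1 : clamp t (t + w) (a (x₀ + z.im * Complex.I)) = t :=
    max_eq_left ((min_le_left _ _).trans m1)
  rw [c1] at o1
  refine fun p hp => ha.mp _ ht x₁ x₂ y₁ y₂ (fun q hq => le_of_not_gt fun hlt => ?_) p (hsub hp)
  have o2 := hT.osc_bd ha.sm hε (hε2 ▸ hS) hq m2
  have c2 : clamp t (t + w) (a q) = t + w := by
    rw [clamp, min_eq_right hlt.le, max_eq_right (by linarith)]
  rw [c2] at o2
  linarith [(abs_le.1 o1).1, (abs_le.1 o2).2]

theorem HS.grow_pow {a : ℂ → ℝ} {E h Cr : ℝ} (ha : HS a E h Cr) {z : ℂ} {r t : ℝ} (hr : 0 < r)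
    (h0 : ∀ w ∈ sqr z r, a w ≤ t) (j : ℕ) (ht : t + j * hw E < -1) :
    ∀ w ∈ sqr z (2 ^ j * r), a w ≤ t + j * hw E := by
  have hw0 : 0 ≤ hw E := by
    have := ha.nonneg
    unfold hw
    linarith
  induction j with
  | zero => simpa using h0
  | succ j ih =>
    have e : t + ((j + 1 : ℕ) : ℝ) * hw E = t + j * hw E + hw E := by
      push_cast
      ring
    rw [e] at ht ⊢
    rw [pow_succ', mul_assoc]
    exact ha.grow (by positivity) (ih (by linarith)) ht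

/-- The distance whose balls are the squares. -/
def t_hgrow_m (z w : ℂ) : ℝ := max |w.re - z.re| |w.im - z.im|

theorem t_hgrow_mem {z w : ℂ} {r : ℝ} : w ∈ sqr z r ↔ t_hgrow_m z w ≤ r := by
  rw [t_hgrow_m, max_le_iff, abs_le, abs_le]
  exact ⟨fun h => ⟨⟨by linarith [h.1.1], by linarith [h.1.2]⟩, by linarith [h.2.1],
    by linarith [h.2.2]⟩, fun h => ⟨⟨by linarith [h.1.1], by linarith [h.1.2]⟩,
      by linarith [h.2.1], by linarith [h.2.2]⟩⟩

theorem t_hgrow_smul (z w : ℂ) {s : ℝ} (hs : 0 ≤ s) :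
    t_hgrow_m z (z + s • (w - z)) = s * t_hgrow_m z w := by
  simp [t_hgrow_m, abs_mul, abs_of_nonneg hs, mul_max_of_nonneg _ _ hs]

theorem t_hgrow_out : (π : ℂ) ∉ Sq := fun h => by
  have h1 := h.1
  rw [Complex.ofReal_re, abs_of_pos Real.pi_pos] at h1
  linarith [Real.pi_pos]

/-- The first square on which `a` reaches `a z₀ + η`: minimise
`max |re w - re z₀| |im w - im z₀|` over the closed set where `a z₀ + η ≤ a w`, intersected with a
large square (`a = 0` outside `Sq`). -/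
theorem HS.first {a : ℂ → ℝ} {E h Cr : ℝ} (ha : HS a E h Cr) {z₀ : ℂ} {η : ℝ} (hη : 0 < η)
    (h0 : a z₀ + η ≤ 0) : ∃ r₀ : ℝ, 0 < r₀ ∧ (∀ w ∈ sqr z₀ r₀, a w ≤ a z₀ + η) ∧
      ∃ w ∈ sqr z₀ r₀, a z₀ + η ≤ a w := by
  have hc := ha.sm.continuous
  have hK : IsCompact (sqr z₀ (t_hgrow_m z₀ π) ∩ {w | a z₀ + η ≤ a w}) :=
    (isCompact_rect _ _ _ _).inter_right (isClosed_le continuous_const hc)
  have hm : Continuous (t_hgrow_m z₀) := by
    unfold t_hgrow_m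
    fun_prop
  obtain ⟨w₀, hw₀, hmin⟩ := hK.exists_isMinOn
    ⟨π, t_hgrow_mem.2 le_rfl, h0.trans_eq (ha.supp _ t_hgrow_out).symm⟩ hm.continuousOn
  have hr : 0 < t_hgrow_m z₀ w₀ := by
    refine lt_of_not_ge fun h => ?_
    rw [t_hgrow_m, max_le_iff, abs_nonpos_iff, abs_nonpos_iff, sub_eq_zero, sub_eq_zero] at h
    have h1 : a z₀ + η ≤ a w₀ := hw₀.2
    rw [Complex.ext h.1 h.2] at h1
    linarith
  refine ⟨_, hr, fun w hw => ?_, w₀, t_hgrow_mem.2 le_rfl, hw₀.2⟩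
  have h1 : Continuous fun s : ℝ => a (z₀ + s • (w - z₀)) := by fun_prop
  have h2 := (h1.tendsto 1).mono_left (nhdsWithin_le_nhds (s := Iio 1))
  rw [one_smul, add_sub_cancel] at h2
  refine le_of_tendsto h2 ?_
  filter_upwards [Ioo_mem_nhdsLT (zero_lt_one' ℝ)] with s hs
  refine le_of_not_ge fun h3 => ?_
  have h4 : t_hgrow_m z₀ (z₀ + s • (w - z₀)) < t_hgrow_m z₀ w₀ := by
    rw [t_hgrow_smul _ _ hs.1.le]
    exact (mul_le_mul_of_nonneg_left (t_hgrow_mem.1 hw) hs.1.le).trans_lt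
      (mul_lt_of_lt_one_left hr hs.2)
  exact h4.not_ge (hmin ⟨t_hgrow_mem.2 (h4.le.trans (t_hgrow_mem.1 hw₀.1)), h3⟩)

theorem HS.exists_min {a : ℂ → ℝ} {E h Cr : ℝ} (ha : HS a E h Cr) : ∃ z₀, ∀ z, a z₀ ≤ a z := by
  obtain ⟨z₁, -, hmin⟩ := isCompact_sq.exists_isMinOn ⟨_, z1_mem.1⟩ ha.sm.continuous.continuousOn
  have key : ∀ z₀, a z₀ ≤ a z₁ → a z₀ ≤ 0 → ∀ z, a z₀ ≤ a z := fun z₀ h1 h2 z => by
    by_cases hz : z ∈ Sq
    · exact h1.trans (hmin hz)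
    · exact h2.trans_eq (ha.supp z hz).symm
  have h0 := ha.supp _ t_hgrow_out
  rcases le_total (a z₁) 0 with h | h
  · exact ⟨z₁, key z₁ le_rfl h⟩
  · exact ⟨π, key _ (h0.trans_le h) h0.le⟩

end Pool.Agent.Lib.MP_ccffa6_gt
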