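import Pool.Agent.Lib.MP_ccffa6_gt.T.HGron

/-! A good rectangle compared with an orbit. -/

open Set Filter Topology MeasureTheory
open scoped ContDiff ComplexConjugate Real

noncomputable section

namespace Pool.Agent.Lib.MP_ccffa6_gt

variable {V : Type} [NormedAddCommGroup V] [NormedSpace ℝ V]

/-- What a good rectangle leaves: a point `x` and two times. -/
structure Trk (Y : V → V) (N : Set V) (P : Form1 V → Prop) (L C ε ε₀ : ℝ) (x : V) (B₁ B₂ : ℝ) :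
    Prop where
  mem : x ∈ N
  b1 : |B₁| ≤ 2 * C
  b2 : |B₂| ≤ 2 * C
  gap : ε₀ ≤ B₁ - B₂
  cmp : ∀ c : ℝ → V, (∀ t, HasDerivAt c (Y (c t)) t) → ∀ δ : ℝ,
    ((‖x - c 0‖ + ε) * Real.exp (L * C) + ε) * Real.exp (L * C) ≤ δ →
    ‖c B₁ - c B₂‖ ≤ 2 * δ ∧ (∀ σ ∈ uIcc B₂ B₁, ∃ n ∈ N, ‖n - c σ‖ ≤ δ) ∧
    ∀ (θ : Form1 V) (M : NNReal), ContDiff ℝ ∞ θ → P θ → (LipschitzWith M fun y => θ y (Y y)) →
      (∀ y ∈ N, ‖θ y‖ ≤ M) → |∫ σ in B₂..B₁, θ (c σ) (Y (c σ))| ≤ 4 * (M * (δ * C + ε))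

/-- Two consecutive paths compared with an orbit. -/
theorem t_horb1_two {Y : V → V} {N : Set V} {C ε : ℝ} {γ γ' μ μ' : ℝ → V} {b e : ℝ → ℝ}
    {s₀ s₁ t₀ t₁ : ℝ} (h : Seg Y N C ε γ γ' b s₀ s₁) (k : Seg Y N C ε μ μ' e t₀ t₁)
    (hj : μ t₀ = γ s₁) {L : NNReal} (hL : LipschitzWith L Y) {c : ℝ → V}
    (hc : ∀ t, HasDerivAt c (Y (c t)) t) {δ : ℝ}
    (hδ : ((‖γ s₀ - c 0‖ + ε) * Real.exp (L * C) + ε) * Real.exp (L * C) ≤ δ) :
    ‖μ t₁ - c ((∫ s in s₀..s₁, b s) + ∫ s in t₀..t₁, e s)‖ ≤ δ ∧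
    (∀ σ ∈ uIcc 0 ((∫ s in s₀..s₁, b s) + ∫ s in t₀..t₁, e s), ∃ n ∈ N, ‖n - c σ‖ ≤ δ) ∧
    ∀ (θ : Form1 V) (M : NNReal), Continuous θ → (LipschitzWith M fun y => θ y (Y y)) →
      (∀ y ∈ N, ‖θ y‖ ≤ M) →
      |((∫ t in s₀..s₁, θ (γ t) (γ' t)) + ∫ t in t₀..t₁, θ (μ t) (μ' t)) -
        ∫ σ in (0 : ℝ)..((∫ s in s₀..s₁, b s) + ∫ s in t₀..t₁, e s), θ (c σ) (Y (c σ))| ≤
        2 * (M * (δ * C + ε)) := by
  obtain ⟨-, hC, hε⟩ := h.abs_le
  have hcc : Continuous c := continuous_iff_continuousAt.2 fun t => (hc t).continuousAt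
  have hE : 1 ≤ Real.exp (L * C) := Real.one_le_exp (by positivity)
  have h1 := h.gron hL hc (B₀ := 0) le_rfl
  have h0 : 0 ≤ (‖γ s₀ - c 0‖ + ε) * Real.exp (L * C) := by positivity
  have h1' : ∀ t ∈ Icc s₀ s₁, ‖γ t - c (0 + ∫ s in s₀..t, b s)‖ ≤ δ := fun t ht =>
    (h1 t ht).trans (by nlinarith)
  have h2 : ∀ t ∈ Icc t₀ t₁, ‖μ t - c ((∫ s in s₀..s₁, b s) + ∫ s in t₀..t, e s)‖ ≤ δ := by
    intro t ht
    refine (k.gron hL hc (d := (‖γ s₀ - c 0‖ + ε) * Real.exp (L * C)) ?_ t ht).trans hδ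
    have := h1 s₁ ⟨h.le, le_rfl⟩
    rwa [zero_add, ← hj] at this
  refine ⟨h2 t₁ ⟨k.le, le_rfl⟩, fun σ hσ => ?_, fun θ M hθ hM hb => ?_⟩
  · rcases uIcc_subset_uIcc_union_uIcc (b := ∫ s in s₀..s₁, b s) hσ with h3 | h3
    · exact h.near h1' σ (by rwa [zero_add])
    · exact k.near h2 σ h3
  · have h3 := h.period hL.continuous hcc h1' hθ hM hb
    have h4 := k.period hL.continuous hcc h2 hθ hM hb
    have hg : Continuous fun σ => θ (c σ) (Y (c σ)) := hM.continuous.comp hcc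
    rw [zero_add] at h3
    rw [← intervalIntegral.integral_add_adjacent_intervals (b := ∫ s in s₀..s₁, b s)
      (hg.intervalIntegrable _ _) (hg.intervalIntegrable _ _)]
    rw [abs_le] at h3 h4 ⊢
    constructor <;> linarith [h3.1, h3.2, h4.1, h4.2]

/-- `x = v (a + c i)`, `B₁ = HI p a b c + VI q b c d` (bottom, then right),
`B₂ = VI q a c d + HI p a b d` (left, then top); `Seg.gron` twice on each path;
`uIcc B₂ B₁` is covered by the four intervals of `Seg.near`. -/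
theorem Lp.trk {Y : V → V} {N : Set V} {P : Form1 V → Prop} {C ε ε₀ : ℝ} {v : ℂ → V}
    {p q : ℂ → ℝ} {a b c d : ℝ} (h : Lp Y N P C ε ε₀ v p q a b c d) {L : NNReal}
    (hL : LipschitzWith L Y) : ∃ x B₁ B₂, Trk Y N P L C ε ε₀ x B₁ B₂ := by
  refine ⟨v (a + c * Complex.I), HI p a b c + VI q b c d, VI q a c d + HI p a b d,
    h.bo.mem a ⟨le_rfl, h.bo.le⟩, ?_, ?_, by linarith [h.act], fun o ho δ hδ => ?_⟩
  · exact (abs_add_le _ _).trans (by linarith [h.bo.abs_le.1, h.ri.abs_le.1])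
  · exact (abs_add_le _ _).trans (by linarith [h.tp.abs_le.1, h.le.abs_le.1])
  obtain ⟨h1, h2, h3⟩ := t_horb1_two h.bo h.ri rfl hL ho hδ
  obtain ⟨k1, k2, k3⟩ := t_horb1_two h.le h.tp rfl hL ho hδ
  change ‖v (b + d * Complex.I) - o (HI p a b c + VI q b c d)‖ ≤ δ at h1
  change ‖v (b + d * Complex.I) - o (VI q a c d + HI p a b d)‖ ≤ δ at k1
  refine ⟨?_, fun σ hσ => ?_, fun θ M hθ hP hM hb => ?_⟩
  · have := norm_sub_le_norm_sub_add_norm_sub (o (HI p a b c + VI q b c d)) (v (b + d * Complex.I))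
      (o (VI q a c d + HI p a b d))
    rw [norm_sub_rev (o _) (v _)] at this
    linarith
  · rcases uIcc_subset_uIcc_union_uIcc (b := (0 : ℝ)) hσ with h4 | h4
    · exact k2 σ (by rwa [uIcc_comm] at h4)
    · exact h2 σ h4
  · have h4 := h3 θ M hθ.continuous hM hb
    have k4 := k3 θ M hθ.continuous hM hb
    have h5 := h.cl θ hθ hP
    have hoc : Continuous o := continuous_iff_continuousAt.2 fun t => (ho t).continuousAt
    have hg : Continuous fun σ => θ (o σ) (Y (o σ)) := hM.continuous.comp hoc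
    rw [← intervalIntegral.integral_interval_sub_left (a := 0) (hg.intervalIntegrable _ _)
      (hg.intervalIntegrable _ _)]
    change |(HI (fun z => θ (v z) (px v z)) a b c + VI (fun z => θ (v z) (py v z)) b c d) -
      ∫ σ in (0 : ℝ)..(HI p a b c + VI q b c d), θ (o σ) (Y (o σ))| ≤ _ at h4
    change |(VI (fun z => θ (v z) (py v z)) a c d + HI (fun z => θ (v z) (px v z)) a b d) -
      ∫ σ in (0 : ℝ)..(VI q a c d + HI p a b d), θ (o σ) (Y (o σ))| ≤ _ at k4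
    rw [abs_le] at h4 k4 ⊢
    constructor <;> linarith [h4.1, h4.2, k4.1, k4.2]

end Pool.Agent.Lib.MP_ccffa6_gt
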