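import Pool.Agent.Lib.MP_ccffa6_gt.T.Base0

/-! Block T, part M: layers of a proper function along a connected set. -/

open Set Filter Topology MeasureTheory
open scoped ContDiff ComplexConjugate Real

noncomputable section

namespace Pool.Agent.Lib.MP_ccffa6_gt

/-- Near each of its points the set is star shaped. -/
def MStar (S : Set ℂ) : Prop := ∀ z ∈ S, ∀ᶠ w in 𝓝[S] z, segment ℝ z w ⊆ S

theorem t_m_star_sq : MStar Sq := fun _ hz =>
  eventually_nhdsWithin_of_forall fun _ hw => convex_sq.segment_subset hz hw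

theorem t_m_star_union {S S' : Set ℂ} (h : MStar S) (h' : MStar S') (c : IsClosed S)
    (c' : IsClosed S') : MStar (S ∪ S') := by
  have key : ∀ {P P' : Set ℂ}, MStar P → IsClosed P → ∀ z, ∀ᶠ w in 𝓝[P] z, z ∈ P ∪ P' →
      segment ℝ z w ⊆ P ∪ P' := by
    intro P P' hP cP z
    by_cases hz : z ∈ P
    · filter_upwards [hP z hz] with w hw _ using hw.trans subset_union_left
    · have : 𝓝[P] z = ⊥ := by
        rw [← notMem_closure_iff_nhdsWithin_eq_bot, cP.closure_eq]; exact hz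
      rw [this]; exact eventually_bot
  intro z hz
  rw [nhdsWithin_union, eventually_sup]
  refine ⟨(key h c z).mono fun w hw => hw hz, (key (P' := S) h' c' z).mono fun w hw => ?_⟩
  rw [union_comm]; exact hw (by rw [union_comm]; exact hz)

theorem t_m_star_convex {S : Set ℂ} (h : Convex ℝ S) : MStar S := fun _ hz =>
  eventually_nhdsWithin_of_forall fun _ hw => h.segment_subset hz hw

theorem t_m_sqB_eq : SqB =
    (Rect (π / 2) (π / 2) (-(π / 2)) (π / 2) ∪ Rect (-(π / 2)) (π / 2) (π / 2) (π / 2)) ∪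
    (Rect (-(π / 2)) (-(π / 2)) (-(π / 2)) (π / 2) ∪
      Rect (-(π / 2)) (π / 2) (-(π / 2)) (-(π / 2))) := by
  have hp : 0 ≤ π / 2 := by positivity
  ext z
  simp only [SqB, Sq, Rect, mem_ofPred_eq, mem_union, mem_Icc, abs_le, abs_eq hp]
  constructor
  · rintro ⟨⟨⟨h1, h2⟩, h3, h4⟩, (h | h) | (h | h)⟩
    · exact Or.inl (Or.inl ⟨⟨h.ge, h.le⟩, h3, h4⟩)
    · exact Or.inr (Or.inl ⟨⟨h.ge, h.le⟩, h3, h4⟩)
    · exact Or.inl (Or.inr ⟨⟨h1, h2⟩, h.ge, h.le⟩)
    · exact Or.inr (Or.inr ⟨⟨h1, h2⟩, h.ge, h.le⟩)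
  · rintro ((⟨⟨h1, h2⟩, h3, h4⟩ | ⟨⟨h1, h2⟩, h3, h4⟩) | (⟨⟨h1, h2⟩, h3, h4⟩ | ⟨⟨h1, h2⟩, h3, h4⟩))
    · exact ⟨⟨⟨by linarith, h2⟩, h3, h4⟩, Or.inl (Or.inl (le_antisymm h2 h1))⟩
    · exact ⟨⟨⟨h1, h2⟩, by linarith, h4⟩, Or.inr (Or.inl (le_antisymm h4 h3))⟩
    · exact ⟨⟨⟨h1, by linarith⟩, h3, h4⟩, Or.inl (Or.inr (le_antisymm h2 h1))⟩
    · exact ⟨⟨⟨h1, h2⟩, h3, by linarith⟩, Or.inr (Or.inr (le_antisymm h4 h3))⟩

theorem t_m_star_sqB : MStar SqB := by
  rw [t_m_sqB_eq]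
  have c := fun a b c d => (isCompact_rect a b c d).isClosed
  have s := fun a b c d => t_m_star_convex (convex_rect a b c d)
  exact t_m_star_union (t_m_star_union (s _ _ _ _) (s _ _ _ _) (c _ _ _ _) (c _ _ _ _))
    (t_m_star_union (s _ _ _ _) (s _ _ _ _) (c _ _ _ _) (c _ _ _ _)) ((c _ _ _ _).union (c _ _ _ _)) ((c _ _ _ _).union (c _ _ _ _))

theorem t_m_conn_sqB : IsPreconnected SqB := by
  rw [t_m_sqB_eq]
  have s := fun a b c d => (convex_rect a b c d).isPreconnected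
  have hp : -(π / 2) ≤ π / 2 := by linarith [Real.pi_pos]
  refine IsPreconnected.union (⟨-(π / 2), π / 2⟩ : ℂ) (Or.inr ?_) (Or.inl ?_)
    (IsPreconnected.union (⟨π / 2, π / 2⟩ : ℂ) ?_ ?_ (s _ _ _ _) (s _ _ _ _))
    (IsPreconnected.union (⟨-(π / 2), -(π / 2)⟩ : ℂ) ?_ ?_ (s _ _ _ _) (s _ _ _ _))
  all_goals simp [Rect, hp]

/-- If the derivative vanishes on a layer, the layer is not crossed. -/
theorem t_m_cross {F : Type} [NormedAddCommGroup F] [NormedSpace ℂ F] {S A : Set ℂ} {h : ℂ → F}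
    {d : F → ℝ} {c : ℝ} (hS : IsPreconnected S) (hst : MStar S) (hA : IsOpen A)
    (hh : DifferentiableOn ℂ h A) (hf : ContinuousOn (fun z => d (h z)) A)
    (hcl : IsClosed {z | z ∈ S ∧ z ∈ A ∧ d (h z) ≤ c})
    {x : ℂ} (hx : x ∈ S) (hxA : x ∈ A) (hxd : d (h x) ≤ c)
    (h0 : ∀ z ∈ S, z ∈ A → |d (h z) - c| < 1 / 10 → deriv h z = 0) :
    ∀ z ∈ S, z ∈ A ∧ d (h z) ≤ c := by
  set K := {z | z ∈ S ∧ z ∈ A ∧ d (h z) ≤ c} with hK
  have hop : ∀ z ∈ K, ∀ᶠ w in 𝓝[S] z, w ∈ K := by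
    rintro z ⟨hzS, hzA, hzd⟩
    have hc : ContinuousAt (fun z => d (h z)) z := hf.continuousAt (hA.mem_nhds hzA)
    rcases hzd.lt_or_eq with hlt | heq
    · filter_upwards [self_mem_nhdsWithin, nhdsWithin_le_nhds (hA.mem_nhds hzA),
        nhdsWithin_le_nhds (hc.eventually (gt_mem_nhds hlt))] with w h1 h2 h3
      exact ⟨h1, h2, h3.le⟩
    · have h1 : ∀ᶠ w in 𝓝 z, w ∈ A ∧ |d (h w) - c| < 1 / 10 := by
        have : ContinuousAt (fun w => |d (h w) - c|) z := (hc.sub continuousAt_const).abs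
        filter_upwards [hA.mem_nhds hzA, this.eventually (gt_mem_nhds
          (show |d (h z) - c| < 1 / 10 by rw [heq]; norm_num))] with w a b using ⟨a, b⟩
      obtain ⟨ε, hε, hb⟩ := Metric.eventually_nhds_iff_ball.1 h1
      filter_upwards [self_mem_nhdsWithin, hst z hzS,
        nhdsWithin_le_nhds (Metric.ball_mem_nhds z hε)] with w hwS hseg hwb
      have hsb : segment ℝ z w ⊆ Metric.ball z ε :=
        (convex_ball z ε).segment_subset (Metric.mem_ball_self hε) hwb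
      have hD : ∀ y ∈ segment ℝ z w, HasFDerivWithinAt h (0 : ℂ →L[ℝ] F) (segment ℝ z w) y := by
        intro y hy
        have hy' := hb y (hsb hy)
        have h2 : HasDerivAt h 0 y := by
          have := (hh.differentiableAt (hA.mem_nhds hy'.1)).hasDerivAt
          rwa [h0 y (hseg hy) hy'.1 hy'.2] at this
        have h3 := (h2.hasFDerivAt.restrictScalars ℝ).hasFDerivWithinAt (s := segment ℝ z w)
        have e : (ContinuousLinearMap.toSpanSingleton ℂ (0 : F)).restrictScalars ℝ = 0 := by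
          refine ContinuousLinearMap.ext fun v => ?_
          simp
        rwa [e] at h3
      have h4 := (convex_segment z w).norm_image_sub_le_of_norm_hasFDerivWithin_le (C := 0) hD
        (fun _ _ => by simp) (left_mem_segment ℝ z w) (right_mem_segment ℝ z w)
      have h5 : h w = h z := by
        rw [zero_mul] at h4
        exact sub_eq_zero.1 (norm_le_zero_iff.1 h4)
      exact ⟨hwS, (hb w hwb).1, by rw [h5]; exact hzd⟩
  have hsub : S ⊆ K := by
    have hpc : PreconnectedSpace S := isPreconnected_iff_preconnectedSpace.1 hS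
    have hclo : IsClopen ((↑) ⁻¹' K : Set S) := by
      refine ⟨hcl.preimage continuous_subtype_val, isOpen_iff_mem_nhds.2 fun z hz => ?_⟩
      rw [nhds_subtype_eq_comap_nhdsWithin]
      exact preimage_mem_comap (hop z hz)
    have := hclo.eq_univ ⟨⟨x, hx⟩, hx, hxA, hxd⟩
    intro z hz
    exact (this.symm ▸ mem_univ (⟨z, hz⟩ : S) : (⟨z, hz⟩ : S) ∈ ((↑) ⁻¹' K : Set S))
  exact fun z hz => (hsub hz).2

/-- Many layers, each of which costs a fixed amount of area, are not all crossed. -/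
theorem t_m_layer {F : Type} [NormedAddCommGroup F] [NormedSpace ℂ F] {S A : Set ℂ} {h : ℂ → F}
    {d : F → ℝ} {ρ : ℂ → ℝ} {a c : ℝ} {M : ℕ} (hS : IsPreconnected S) (hst : MStar S)
    (hA : IsOpen A) (hh : DifferentiableOn ℂ h A) (hf : ContinuousOn (fun z => d (h z)) A)
    (hρ : ContinuousOn ρ Sq) (hρ0 : ∀ z ∈ Sq, 0 ≤ ρ z) (hM : ∫ z in Sq, ρ z < M * c)
    (hcl : ∀ m < M, IsClosed {z | z ∈ S ∧ z ∈ A ∧ d (h z) ≤ a + m})
    {x : ℂ} (hx : x ∈ S) (hxA : x ∈ A) (hxd : d (h x) ≤ a)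
    (hball : ∀ m < M, ∀ z ∈ S, z ∈ A → |d (h z) - (a + m)| < 1 / 10 → deriv h z ≠ 0 →
      ∀ E : Set ℂ, MeasurableSet E → (∀ w ∈ A, |d (h w) - d (h z)| < 2 / 5 → w ∈ E) →
        c ≤ ∫ w in Sq ∩ E, ρ w) :
    ∀ z ∈ S, z ∈ A ∧ d (h z) ≤ a + M := by
  by_contra hne
  let E : ℕ → Set ℂ := fun m => A ∩ (fun w => d (h w)) ⁻¹' Metric.ball (a + m) (1 / 2)
  have hE : ∀ m, MeasurableSet (E m) := fun m =>
    (hf.isOpen_inter_preimage hA Metric.isOpen_ball).measurableSet
  have h1 : ∀ m ∈ Finset.range M, c ≤ ∫ w in Sq ∩ E m, ρ w := by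
    intro m hm
    rw [Finset.mem_range] at hm
    by_contra hlt
    refine hne fun z hz => ?_
    have hm0 : (0 : ℝ) ≤ m := Nat.cast_nonneg m
    have hmM : (m : ℝ) ≤ M := by exact_mod_cast hm.le
    have := t_m_cross hS hst hA hh hf (hcl m hm) hx hxA (by linarith) (fun z hz hzA hzd => by
      by_contra hd
      refine hlt (hball m hm z hz hzA hzd hd (E m) (hE m) fun w hw hwd => ⟨hw, ?_⟩)
      rw [mem_preimage, Metric.mem_ball, Real.dist_eq]
      rw [abs_lt] at hzd hwd ⊢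
      constructor <;> linarith [hzd.1, hzd.2, hwd.1, hwd.2]) z hz
    exact ⟨this.1, by linarith [this.2]⟩
  have hI : IntegrableOn ρ Sq := hρ.integrableOn_compact isCompact_sq
  have h2 : ∑ m ∈ Finset.range M, ∫ w in Sq ∩ E m, ρ w ≤ ∫ w in Sq, ρ w := by
    rw [← integral_biUnion_finset _ (fun m _ => measurableSet_sq.inter (hE m))]
    · refine setIntegral_mono_set hI ?_ (LE.le.eventuallyLE ?_)
      · exact (ae_restrict_iff' measurableSet_sq).2 (Eventually.of_forall hρ0)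
      · exact iUnion₂_subset fun m _ => inter_subset_left
    · intro m _ n _ hmn
      refine Set.disjoint_left.2 fun w hw hw' => hmn ?_
      have e1 := hw.2.2
      have e2 := hw'.2.2
      rw [mem_preimage, Metric.mem_ball, Real.dist_eq, abs_lt] at e1 e2
      have f1 : (m : ℝ) < n + 1 := by linarith [e1.1, e1.2, e2.1, e2.2]
      have f2 : (n : ℝ) < m + 1 := by linarith [e1.1, e1.2, e2.1, e2.2]
      have g1 : m < n + 1 := by exact_mod_cast f1
      have g2 : n < m + 1 := by exact_mod_cast f2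
      omega
    · exact fun m _ => hI.mono_set inter_subset_left
  have h3 := Finset.card_nsmul_le_sum _ _ c h1
  rw [Finset.card_range, nsmul_eq_mul] at h3
  linarith

end Pool.Agent.Lib.MP_ccffa6_gt
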