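import Pool.Agent.Lib.MP_ccffa6_gt.T.MDiv

/-! Block T, part M: monotonicity for holomorphic maps of the square with boundary values in a
totally real subspace. -/

open Set Filter Topology MeasureTheory
open scoped ContDiff ComplexConjugate Real

noncomputable section

namespace Pool.Agent.Lib.MP_ccffa6_gt

variable {ι : Type} [Fintype ι]

theorem t_m_tang {g : ℂ → EuclideanSpace ℂ ι} {g1 : EuclideanSpace ℂ ι} {w v : ℂ} {x : ℝ}
    (hx : x ∈ Icc (-(π / 2)) (π / 2)) (hg : HasDerivAt g g1 (w + x * v))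
    (h0 : ∀ᶠ t : ℝ in 𝓝[Icc (-(π / 2)) (π / 2)] x, ∀ j, (g (w + t * v) j).re = 0) (j : ι) :
    (v * g1 j).re = 0 := by
  have h1 : HasDerivAt (fun t : ℝ => w + (t : ℂ) * v) v x := by
    simpa using ((Complex.ofRealCLM.hasDerivAt (x := x)).mul_const v).const_add w
  have h2 := (hg.hasFDerivAt.restrictScalars ℝ).comp_hasDerivAt x h1
  let A : EuclideanSpace ℂ ι →L[ℝ] ℝ :=
    Complex.reCLM.comp ((EuclideanSpace.proj (𝕜 := ℂ) j).restrictScalars ℝ)
  have h3 := (A.hasFDerivAt.comp_hasDerivAt x h2).hasDerivWithinAt (s := Icc (-(π / 2)) (π / 2))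
  have h4 : HasDerivWithinAt (A ∘ g ∘ fun t : ℝ => w + (t : ℂ) * v) 0
      (Icc (-(π / 2)) (π / 2)) x := by
    refine (hasDerivWithinAt_const x _ (0 : ℝ)).congr_of_eventuallyEq ?_ ?_
    · filter_upwards [h0] with t ht using ht j
    · exact h0.self_of_nhdsWithin hx j
  have h5 := (uniqueDiffOn_Icc (by linarith [Real.pi_pos]) x hx).eq_deriv _ h3 h4
  simpa [A] using h5

theorem t_m_bd {g : ℂ → EuclideanSpace ℂ ι} {z : ℂ} (hz : z ∈ Sq) (hg : DifferentiableAt ℂ g z)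
    (h0 : ∀ᶠ w in 𝓝[SqB] z, ∀ j, (g w j).re = 0) :
    (|z.re| = π / 2 → (mq g z).re = 0) ∧ (|z.im| = π / 2 → (mq g z).im = 0) := by
  have hq : mq g z = ∑ j, deriv g z j * conj (g z j) := by
    simp [mq, PiLp.inner_apply]
  constructor
  · intro h
    have hz0 := h0.self_of_nhdsWithin ⟨hz, Or.inl h⟩
    have e : (z.re : ℂ) + z.im * Complex.I = z := Complex.re_add_im z
    have hT : Tendsto (fun t : ℝ => (z.re : ℂ) + t * Complex.I)
        (𝓝[Icc (-(π / 2)) (π / 2)] z.im) (𝓝[SqB] z) := by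
      refine tendsto_nhdsWithin_iff.2 ⟨?_, eventually_nhdsWithin_of_forall fun t ht => ?_⟩
      · have : Continuous fun t : ℝ => (z.re : ℂ) + t * Complex.I := by fun_prop
        have := this.tendsto z.im
        rw [e] at this
        exact this.mono_left nhdsWithin_le_nhds
      · refine ⟨⟨by simpa using hz.1, by simpa using abs_le.2 ht⟩, Or.inl (by simpa using h)⟩
    have h1 := t_m_tang (w := z.re) (v := Complex.I) (abs_le.1 hz.2)
      (by rw [e]; exact hg.hasDerivAt) (hT.eventually h0)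
    rw [hq, Complex.re_sum]
    refine Finset.sum_eq_zero fun j _ => ?_
    have := h1 j
    simp only [Complex.mul_re, Complex.I_re, Complex.I_im, zero_mul, one_mul, zero_sub,
      neg_eq_zero] at this
    simp [hz0 j, this]
  · intro h
    have hz0 := h0.self_of_nhdsWithin ⟨hz, Or.inr h⟩
    have e : (z.im : ℂ) * Complex.I + z.re * 1 = z := by
      rw [mul_one, add_comm]; exact Complex.re_add_im z
    have hT : Tendsto (fun t : ℝ => (z.im : ℂ) * Complex.I + t * 1)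
        (𝓝[Icc (-(π / 2)) (π / 2)] z.re) (𝓝[SqB] z) := by
      refine tendsto_nhdsWithin_iff.2 ⟨?_, eventually_nhdsWithin_of_forall fun t ht => ?_⟩
      · have : Continuous fun t : ℝ => (z.im : ℂ) * Complex.I + t * 1 := by fun_prop
        have := this.tendsto z.re
        rw [e] at this
        exact this.mono_left nhdsWithin_le_nhds
      · refine ⟨⟨by simpa using abs_le.2 ht, by simpa using hz.2⟩, Or.inr (by simpa using h)⟩
    have h1 := t_m_tang (w := z.im * Complex.I) (v := 1) (abs_le.1 hz.1)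
      (by rw [e]; exact hg.hasDerivAt) (hT.eventually h0)
    rw [hq, Complex.im_sum]
    refine Finset.sum_eq_zero fun j _ => ?_
    have := h1 j
    rw [one_mul] at this
    simp [hz0 j, this]

/-- A small square with a corner at a given point. -/
theorem t_m_small {z : ℂ} (hz : z ∈ Sq) {p : ℂ → Prop} (hp : ∀ᶠ w in 𝓝 z, p w) :
    ∃ δ a c : ℝ, 0 < δ ∧ Rect a (a + δ) c (c + δ) ⊆ Sq ∧
      ∀ w ∈ Rect a (a + δ) c (c + δ), p w ∧ ‖w - z‖ ≤ 2 * δ := by
  obtain ⟨ε, hε, hb⟩ := Metric.eventually_nhds_iff_ball.1 hp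
  have key : ∀ x δ : ℝ, |x| ≤ π / 2 → δ ≤ π / 2 → ∃ a, ∀ y ∈ Icc a (a + δ),
      |y| ≤ π / 2 ∧ |y - x| ≤ δ := by
    intro x δ hx hδ
    rw [abs_le] at hx
    rcases le_total x 0 with h | h
    · refine ⟨x, fun y hy => ?_⟩
      simp only [abs_le]
      refine ⟨⟨?_, ?_⟩, ?_, ?_⟩ <;> linarith [hy.1, hy.2, hx.1, hx.2]
    · refine ⟨x - δ, fun y hy => ?_⟩
      simp only [abs_le]
      refine ⟨⟨?_, ?_⟩, ?_, ?_⟩ <;> linarith [hy.1, hy.2, hx.1, hx.2]
  have hδ : 0 < min (ε / 3) (π / 2) := lt_min (by positivity) (by positivity)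
  obtain ⟨a, ha⟩ := key z.re _ hz.1 (min_le_right (ε / 3) (π / 2))
  obtain ⟨c, hc⟩ := key z.im _ hz.2 (min_le_right (ε / 3) (π / 2))
  refine ⟨_, a, c, hδ, fun w hw => ⟨(ha _ hw.1).1, (hc _ hw.2).1⟩, fun w hw => ?_⟩
  have h1 : ‖w - z‖ ≤ 2 * min (ε / 3) (π / 2) := by
    have := Complex.norm_le_abs_re_add_abs_im (w - z)
    rw [Complex.sub_re, Complex.sub_im] at this
    linarith [(ha _ hw.1).2, (hc _ hw.2).2]
  refine ⟨hb w ?_, h1⟩
  rw [Metric.mem_ball, dist_eq_norm]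
  linarith [min_le_left (ε / 3) (π / 2)]

theorem t_m_green0 {P Q : ℂ → ℝ} (hP : ∀ z ∈ Sq, ContDiffAt ℝ 1 P z)
    (hQ : ∀ z ∈ Sq, ContDiffAt ℝ 1 Q z) (hP0 : ∀ z ∈ Sq, |z.im| = π / 2 → P z = 0)
    (hQ0 : ∀ z ∈ Sq, |z.re| = π / 2 → Q z = 0) :
    IntegrableOn (fun z => px Q z - py P z) Sq ∧ ∫ z in Sq, (px Q z - py P z) = 0 := by
  have hp : -(π / 2) ≤ π / 2 := by linarith [Real.pi_pos]
  have hp' : |π / 2| = π / 2 := abs_of_nonneg (by positivity)
  have hp'' : |-(π / 2)| = π / 2 := by rw [abs_neg, hp']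
  constructor
  · refine ContinuousOn.integrableOn_compact isCompact_sq fun z hz => ?_
    have h1 := ((hQ z hz).continuousAt_fderiv one_ne_zero).clm_apply
      (continuousAt_const (y := (1 : ℂ)))
    have h2 := ((hP z hz).continuousAt_fderiv one_ne_zero).clm_apply
      (continuousAt_const (y := Complex.I))
    exact (h1.sub h2).continuousWithinAt
  · have e1 : ∀ c : ℝ, |c| = π / 2 → ∫ x in (-(π / 2))..(π / 2), P (x + c * Complex.I) = 0 := by
      intro c hc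
      rw [intervalIntegral.integral_congr (g := fun _ => 0) fun x hx => ?_]
      · simp
      · rw [uIcc_of_le hp] at hx
        exact hP0 _ ⟨by simpa using abs_le.2 hx, by simpa using hc.le⟩ (by simpa using hc)
    have e2 : ∀ c : ℝ, |c| = π / 2 → ∫ y in (-(π / 2))..(π / 2), Q (c + y * Complex.I) = 0 := by
      intro c hc
      rw [intervalIntegral.integral_congr (g := fun _ => 0) fun x hx => ?_]
      · simp
      · rw [uIcc_of_le hp] at hx
        exact hQ0 _ ⟨by simpa using hc.le, by simpa using abs_le.2 hx⟩ (by simpa using hc)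
    rw [sq_eq_rect] at hP hQ ⊢
    rw [green hp hp hP hQ, e1 _ hp', e1 _ hp'', e2 _ hp', e2 _ hp'']
    simp

/-- Monotonicity. -/
theorem t_m_mono {r : ℝ} (hr : 0 < r) : ∃ c : ℝ, 0 < c ∧
    ∀ (g : ℂ → EuclideanSpace ℂ ι) (Ω E : Set ℂ) (ρ : ℂ → ℝ) (z₀ : ℂ), IsOpen Ω →
      DifferentiableOn ℂ g Ω → (∀ z ∈ Sq, z ∉ Ω → ∀ᶠ w in 𝓝 z, w ∈ Ω → r ≤ ‖g w‖) →
      (∀ z ∈ SqB, z ∈ Ω → ‖g z‖ < r → ∀ j, (g z j).re = 0) →
      z₀ ∈ Sq → z₀ ∈ Ω → g z₀ = 0 → deriv g z₀ ≠ 0 → MeasurableSet E → ContinuousOn ρ Sq →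
      (∀ z ∈ Sq, 0 ≤ ρ z) →
      (∀ z ∈ Sq, z ∈ Ω → ‖g z‖ < r → z ∈ E ∧ ‖deriv g z‖ ^ 2 ≤ ρ z) →
      c ≤ ∫ z in Sq ∩ E, ρ z := by
  classical
  obtain ⟨β, L, hL, hβ, hβ0, hβ1, hβ2, hβL⟩ := t_m_beta (R := r ^ 2) (by positivity)
  refine ⟨1 / (1156 * L), by positivity, ?_⟩
  intro g Ω E ρ z₀ hΩ hg hp hb hz₀ hz₀Ω hg0 hd0 hE hρ hρ0 hρg
  have han : ∀ z ∈ Ω, AnalyticAt ℂ g z := fun z hz => hg.analyticAt (hΩ.mem_nhds hz)
  set a := ‖deriv g z₀‖ with ha
  have ha0 : 0 < a := norm_pos_iff.2 hd0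
  have hev : ∀ᶠ w in 𝓝 z₀, w ∈ Ω ∧ ‖g w‖ ≤ 2 * a * ‖w - z₀‖ ∧ a / 2 ≤ ‖deriv g w‖ ∧
      ‖g w‖ ^ 2 ≤ r ^ 2 / 2 := by
    have h1 := (hasDerivAt_iff_isLittleO.1 (han _ hz₀Ω).differentiableAt.hasDerivAt).def ha0
    have h2 := (han _ hz₀Ω).deriv.continuousAt.norm.eventually
      (lt_mem_nhds (show a / 2 < ‖deriv g z₀‖ by linarith))
    have h3 := ((han _ hz₀Ω).continuousAt.norm.pow 2).eventually
      (gt_mem_nhds (show ‖g z₀‖ ^ 2 < r ^ 2 / 2 by rw [hg0, norm_zero]; norm_num; positivity))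
    filter_upwards [hΩ.mem_nhds hz₀Ω, h1, h2, h3] with w e0 e1 e2 e3
    refine ⟨e0, ?_, e2.le, e3.le⟩
    rw [hg0, sub_zero] at e1
    have := norm_add_le (g w - (w - z₀) • deriv g z₀) ((w - z₀) • deriv g z₀)
    rw [sub_add_cancel, norm_smul] at this
    linarith
  obtain ⟨δ, x, y, hδ, hRS, hR⟩ := t_m_small hz₀ hev
  set s := a ^ 2 * δ ^ 2 with hs
  have hs0 : 0 < s := by positivity
  set P₀ : ℂ → ℝ := fun w => β (‖g w‖ ^ 2) / (‖g w‖ ^ 2 + s) * (mq g w).im
  set Q₀ : ℂ → ℝ := fun w => β (‖g w‖ ^ 2) / (‖g w‖ ^ 2 + s) * (mq g w).re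
  have hr2 : ∀ w, r ≤ ‖g w‖ → r ^ 2 ≤ ‖g w‖ ^ 2 := fun w h => pow_le_pow_left₀ hr.le h 2
  have hin : ∀ (f : ℂ → ℝ), ∀ z ∈ Ω, Ω.indicator f =ᶠ[𝓝 z] f := fun f z hz => by
    filter_upwards [hΩ.mem_nhds hz] with w hw using indicator_of_mem hw f
  have hout : ∀ z ∈ Sq, z ∉ Ω → Ω.indicator P₀ =ᶠ[𝓝 z] (fun _ => 0) ∧
      Ω.indicator Q₀ =ᶠ[𝓝 z] fun _ => 0 := fun z hz hzΩ => by
    constructor <;> filter_upwards [hp z hz hzΩ] with w hw <;> by_cases h : w ∈ Ω <;>
      simp [h, P₀, Q₀, fun h => (hβ2 _ (hr2 w (hw h))).1]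
  have hbd : ∀ z ∈ SqB, (|z.re| = π / 2 → Ω.indicator Q₀ z = 0) ∧
      (|z.im| = π / 2 → Ω.indicator P₀ z = 0) := by
    intro z hz
    by_cases h : z ∈ Ω
    · rcases lt_or_ge ‖g z‖ r with h1 | h1
      · have := t_m_bd hz.1 (han z h).differentiableAt (by
          filter_upwards [self_mem_nhdsWithin, nhdsWithin_le_nhds (hΩ.mem_nhds h),
            nhdsWithin_le_nhds ((han z h).continuousAt.norm.eventually (gt_mem_nhds h1))]
            with w e1 e2 e3 using hb w e1 e2 e3)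
        exact ⟨fun e => by simp [h, Q₀, this.1 e], fun e => by simp [h, P₀, this.2 e]⟩
      · simp [h, P₀, Q₀, (hβ2 _ (hr2 z h1)).1]
    · simp [h]
  obtain ⟨hI, h0⟩ := t_m_green0 (P := Ω.indicator P₀) (Q := Ω.indicator Q₀)
    (fun z hz => by
      by_cases h : z ∈ Ω
      · exact (t_m_low (han z h) hβ hβ0 hs0).1.2.congr_of_eventuallyEq (hin _ z h)
      · exact contDiffAt_const.congr_of_eventuallyEq (hout z hz h).1)
    (fun z hz => by
      by_cases h : z ∈ Ω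
      · exact (t_m_low (han z h) hβ hβ0 hs0).1.1.congr_of_eventuallyEq (hin _ z h)
      · exact contDiffAt_const.congr_of_eventuallyEq (hout z hz h).2)
    (fun z hz h => (hbd z ⟨hz, Or.inr h⟩).2 h) (fun z hz h => (hbd z ⟨hz, Or.inl h⟩).1 h)
  set R₀ := Rect x (x + δ) y (y + δ)
  have hpt : ∀ z ∈ Sq, R₀.indicator (fun _ => 1 / (578 * δ ^ 2)) z - 2 * L * E.indicator ρ z ≤
      px (Ω.indicator Q₀) z - py (Ω.indicator P₀) z := by
    intro z hz
    have hEρ : 0 ≤ E.indicator ρ z := indicator_apply_nonneg fun _ => hρ0 z hz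
    by_cases h : z ∈ Ω
    · unfold px py
      rw [(hin Q₀ z h).fderiv_eq, (hin P₀ z h).fderiv_eq]
      refine le_trans ?_ (t_m_low (han z h) hβ hβ0 hs0).2
      have e1 : |deriv β (‖g z‖ ^ 2)| * ‖deriv g z‖ ^ 2 ≤ L * E.indicator ρ z := by
        rcases lt_or_ge ‖g z‖ r with h1 | h1
        · rw [indicator_of_mem (hρg z hz h h1).1]
          exact mul_le_mul (hβL _ (by positivity) (pow_le_pow_left₀ (norm_nonneg _) h1.le 2))
            (hρg z hz h h1).2 (by positivity) hL.le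
        · rw [(hβ2 _ (hr2 z h1)).2, abs_zero, zero_mul]; positivity
      have e2 : R₀.indicator (fun _ => 1 / (578 * δ ^ 2)) z ≤
          2 * β (‖g z‖ ^ 2) * s * ‖deriv g z‖ ^ 2 / (‖g z‖ ^ 2 + s) ^ 2 := by
        by_cases hzR : z ∈ R₀
        · obtain ⟨⟨-, f1, f2, f3⟩, f4⟩ := hR z hzR
          rw [indicator_of_mem hzR, hβ1 _ f3, div_le_div_iff₀ (by positivity) (by positivity)]
          have f5 : ‖g z‖ ≤ 4 * (a * δ) := by nlinarith
          have f6 : ‖g z‖ ^ 2 + s ≤ 17 * s := by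
            have := pow_le_pow_left₀ (norm_nonneg _) f5 2
            nlinarith
          have f7 := pow_le_pow_left₀ (by positivity) f6 2
          have f8 := pow_le_pow_left₀ (by positivity) f2 2
          have f9 : s * δ ^ 2 * (a / 2) ^ 2 ≤ s * δ ^ 2 * ‖deriv g z‖ ^ 2 :=
            mul_le_mul_of_nonneg_left f8 (by positivity)
          have f10 : s * δ ^ 2 * (a / 2) ^ 2 = s ^ 2 / 4 := by rw [hs]; ring
          nlinarith
        · rw [indicator_of_notMem hzR]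
          have := hβ0 (‖g z‖ ^ 2)
          positivity
      linarith
    · unfold px py
      rw [(hout z hz h).1.fderiv_eq, (hout z hz h).2.fderiv_eq,
        indicator_of_notMem fun hzR => h (hR z hzR).1.1]
      simp only [fderiv_fun_const, Pi.zero_apply, zero_apply, sub_self]
      nlinarith
  have hρI : IntegrableOn ρ Sq := hρ.integrableOn_compact isCompact_sq
  have hRm : MeasurableSet R₀ := measurableSet_rect _ _ _ _
  have i1 : IntegrableOn (R₀.indicator fun _ => 1 / (578 * δ ^ 2)) Sq :=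
    (continuousOn_const.integrableOn_compact isCompact_sq).indicator hRm
  have i2 : IntegrableOn (fun z => 2 * L * E.indicator ρ z) Sq := (hρI.indicator hE).const_mul _
  have h1 := setIntegral_mono_on (i1.sub i2) hI measurableSet_sq hpt
  rw [h0] at h1
  simp only [Pi.sub_apply] at h1
  rw [integral_sub i1 i2, integral_const_mul, setIntegral_indicator hRm, setIntegral_indicator hE,
    inter_eq_right.2 hRS, setIntegral_const, Measure.real,
    volume_rect (by linarith) (by linarith), smul_eq_mul] at h1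
  have e : (x + δ - x) * (y + δ - y) * (1 / (578 * δ ^ 2)) = 1 / 578 := by field_simp; ring
  rw [e] at h1
  rw [div_le_iff₀ (by positivity)]
  linarith

end Pool.Agent.Lib.MP_ccffa6_gt
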