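import Pool.Agent.Lib.MP_ccffa6_gt.T.Base2
import Pool.Agent.Lib.MP_ccffa6_gt.T.MMono
import Pool.Agent.Lib.MP_ccffa6_gt.T.MLayer

/-! Block T, part M: the area of a solution in a ball of the chart. -/

open Set Filter Topology MeasureTheory
open scoped ContDiff ComplexConjugate Real

noncomputable section

namespace Pool.Agent.Lib.MP_ccffa6_gt

variable {V : Type} [NormedAddCommGroup V] [NormedSpace ℝ V] [FiniteDimensional ℝ V] {k : ℕ}
  {T : TD k V} {κ : ℂ → ℂ} {τ : ℝ} {u : ℂ → V} {A : Set ℂ}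

/-- The metric in the chart. -/
def TD.mOm (T : TD k V) (h X : Cm k) : ℝ :=
  dF T.lam (T.Θ h) (fderiv ℝ T.Θ h X) (fderiv ℝ T.Θ h (Complex.I • X))

/-- An open set on which the map lies in the chart. -/
structure MDom (T : TD k V) (u : ℂ → V) (A : Set ℂ) : Prop where
  op : IsOpen A
  mem : ∀ z ∈ Sq, u z ∈ T.U → z ∈ A
  hol : DifferentiableOn ℂ (fun w => T.Cc (u w)) A
  chart : ∀ z ∈ A, T.Θ (T.Cc (u z)) = u z
  den : ∀ z ∈ A, dens T.lam u z = T.mOm (T.Cc (u z)) (deriv (fun w => T.Cc (u w)) z)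

theorem t_m_dom (hT : T.OK) (hu : Sol T κ τ u) : ∃ A, MDom T u A := by
  obtain ⟨N, hN, hS, hW, hJ⟩ := hu.nbhd hT
  have hd : ∀ z, DifferentiableAt ℝ u z := fun z => hu.sm.differentiable (by simp) z
  have hm := fun z (hz : z ∈ N ∩ u ⁻¹' T.U) => hT.model (hd z) (hW hz.1) hz.2
    (fun v => Tan.map (S := N) (hd z) (eventually_nhdsWithin_of_forall fun y hy => hW hy)
      (by rw [Tan.of_mem_nhds (hN.mem_nhds hz.1)]; trivial))
    (fun w hw => by rw [mem_singleton_iff.1 hw]; exact hJ z hz.1)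
  refine ⟨N ∩ u ⁻¹' T.U, hN.inter (hT.opU.preimage hu.sm.continuous), fun z hz h => ⟨hS hz, h⟩,
    fun z hz => (hm z hz).1.differentiableAt.differentiableWithinAt,
    fun z hz => (hT.ΘC _ (hW hz.1) hz.2).2, fun z hz => ?_⟩
  obtain ⟨h1, h2, h3⟩ := hm z hz
  rw [h1.deriv, dens, TD.mOm, ← h2, ← h3, (hT.ΘC _ (hW hz.1) hz.2).2]

omit [FiniteDimensional ℝ V] in
theorem MDom.iff (hA : MDom T u A) (hT : T.OK) {K : Set (Cm k)} (hK : K ⊆ T.O) {z : ℂ}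
    (hz : z ∈ Sq) : (z ∈ A ∧ T.Cc (u z) ∈ K) ↔ u z ∈ T.Θ '' K := by
  refine ⟨fun h => ⟨_, h.2, hA.chart z h.1⟩, ?_⟩
  rintro ⟨p, hp, e⟩
  obtain ⟨-, h1, h2⟩ := hT.CΘ p (hK hp)
  rw [e] at h1 h2
  exact ⟨hA.mem z hz h1, h2 ▸ hp⟩

omit [FiniteDimensional ℝ V] in
theorem Sol.m_cont_dens (hT : T.OK) (hu : Sol T κ τ u) : ContinuousOn (dens T.lam u) Sq :=
  fun _ _ => (continuousAt_dens (hT.smlam.contDiffAt.of_le (by simp))
    (hu.sm.contDiffAt.of_le (by simp))).continuousWithinAt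

omit [FiniteDimensional ℝ V] in
theorem Sol.m_cont_model (hT : T.OK) (hu : Sol T κ τ u) : Continuous fun w => T.Cc (u w) :=
  hT.smC.continuous.comp hu.sm.continuous

/-- A diagonal change of coordinates. -/
def mψ (φ : Fin (k + 2) → ℂ → ℂ) (h : Cm k) : Cm k := WithLp.toLp 2 fun j => φ j (h j)

/-- The constant `c` is a lower bound for the area in all balls of radius `1 / 4`. -/
def MBall (k : ℕ) (c : ℝ) : Prop :=
  ∀ (V : Type) [NormedAddCommGroup V] [NormedSpace ℝ V] [FiniteDimensional ℝ V] (T : TD k V)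
    (κ : ℂ → ℂ) (τ : ℝ) (u : ℂ → V) (A : Set ℂ), T.OK → Sol T κ τ u → MDom T u A →
    ∀ (B K : Set (Cm k)) (φ φ' : Fin (k + 2) → ℂ → ℂ) (z₀ : ℂ) (E : Set ℂ), IsOpen B → B ⊆ T.O →
      IsCompact K → K ⊆ B → (∀ h ∈ B, ∀ j, HasDerivAt (φ j) (φ' j (h j)) (h j)) →
      z₀ ∈ Sq → z₀ ∈ A → T.Cc (u z₀) ∈ B →
      (∀ j, φ j (T.Cc (u z₀) j) = 0 ∧ φ' j (T.Cc (u z₀) j) ≠ 0) →
      deriv (fun w => T.Cc (u w)) z₀ ≠ 0 → MeasurableSet E →
      (∀ p ∈ B, ‖mψ φ p‖ < 1 / 4 → p ∈ K ∧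
        ∀ X : Cm k, ∑ j, ‖φ' j (p j)‖ ^ 2 * ‖X j‖ ^ 2 ≤ 28 * T.mOm p X) →
      (∀ z ∈ SqB, T.Cc (u z) ∈ B → ‖mψ φ (T.Cc (u z))‖ < 1 / 4 →
        ∀ j, (φ j (T.Cc (u z) j)).re = 0) →
      (∀ w ∈ A, T.Cc (u w) ∈ B → ‖mψ φ (T.Cc (u w))‖ < 1 / 4 → w ∈ E) →
      c ≤ ∫ z in Sq ∩ E, dens T.lam u z

theorem t_m_ball (k : ℕ) : ∃ c : ℝ, 0 < c ∧ MBall k c := by
  obtain ⟨c, hc, hm⟩ := t_m_mono (ι := Fin (k + 2)) (r := 1 / 4) (by norm_num)
  refine ⟨c / 28, by positivity, ?_⟩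
  intro V _ _ _ T κ τ u A hT hu hA B K φ φ' z₀ E hB hBO hK hKB hφ hz₀ hz₀A hz₀B h0 hd hE hp hb hw
  set h : ℂ → Cm k := fun w => T.Cc (u w) with hh
  have hder : ∀ w ∈ A ∩ h ⁻¹' B, HasDerivAt (fun w => mψ φ (h w))
      (WithLp.toLp 2 fun j => φ' j (h w j) * deriv h w j) w := by
    intro w hw
    have h1 := (hA.hol.differentiableAt (hA.op.mem_nhds hw.1)).hasDerivAt
    have h2 : HasDerivAt (fun w j => φ j (h w j)) (fun j => φ' j (h w j) * deriv h w j) w := by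
      refine hasDerivAt_pi.2 fun j => ?_
      exact (hφ _ hw.2 j).comp w
        ((EuclideanSpace.proj (𝕜 := ℂ) j).hasFDerivAt.comp_hasDerivAt w h1)
    exact ((PiLp.continuousLinearEquiv 2 ℂ
      (fun _ : Fin (k + 2) => ℂ)).symm.hasFDerivAt.comp_hasDerivAt w h2 :)
  have key := hm (fun w => mψ φ (h w)) (A ∩ h ⁻¹' B) E (fun z => 28 * dens T.lam u z) z₀
    (hA.op.inter (hB.preimage (hu.m_cont_model hT)))
    (fun w hw => (hder w hw).differentiableAt.differentiableWithinAt) ?_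
    (fun z hz hzA => hb z hz hzA.2) hz₀ ⟨hz₀A, hz₀B⟩ ?_ ?_ hE
    (continuousOn_const.mul (hu.m_cont_dens hT))
    (fun z hz => mul_nonneg (by norm_num) (hu.dens_nonneg hT hz).1) ?_
  · rw [integral_const_mul] at key
    linarith
  · intro z hz hzΩ
    have h1 : u z ∉ T.Θ '' K := fun e => by
      have := (hA.iff hT (hKB.trans hBO) hz).2 e
      exact hzΩ ⟨this.1, hKB this.2⟩
    have h2 := hu.sm.continuous.continuousAt.eventually
      ((hK.image hT.smΘ.continuous).isClosed.isOpen_compl.mem_nhds h1)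
    filter_upwards [h2] with w e hw'
    by_contra hlt
    exact e ⟨_, (hp _ hw'.2 (not_le.1 hlt)).1, hA.chart w hw'.1⟩
  · ext j
    exact (h0 j).1
  · rw [(hder z₀ ⟨hz₀A, hz₀B⟩).deriv]
    intro e
    refine hd ?_
    ext j
    have : φ' j (h z₀ j) * deriv h z₀ j = 0 := congrArg (fun x : Cm k => x j) e
    exact (mul_eq_zero.1 this).resolve_left (h0 j).2
  · intro z _ hzΩ hlt
    refine ⟨hw z hzΩ.1 hzΩ.2 hlt, ?_⟩
    rw [(hder z hzΩ).deriv, hA.den z hzΩ.1, EuclideanSpace.norm_sq_eq]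
    refine le_trans (le_of_eq (Finset.sum_congr rfl fun j _ => ?_))
      ((hp _ hzΩ.2 hlt).2 (deriv h z))
    rw [← mul_pow, ← norm_mul]

/-- Interior layers. -/
theorem t_m_int {c a : ℝ} {M : ℕ} (hc : MBall k c) (hM : π < M * c) (hT : T.OK)
    (hu : Sol T κ τ u) {B : Set (Cm k)} {d : Cm k → ℝ} (hB : IsOpen B) (hBO : B ⊆ T.O)
    (hd : ContinuousOn d B) (hK : ∀ b ≤ a + M + 1, IsCompact {h | h ∈ B ∧ d h ≤ b})
    (hbd : ∀ z ∈ SqB, T.Cc (u z) ∈ B ∧ d (T.Cc (u z)) ≤ a - 1)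
    (hμ : ∀ p ∈ B, ∃ μ : Fin (k + 2) → ℝ, (∀ j, μ j ≠ 0) ∧ ∀ h ∈ B,
      ‖mψ (fun j w => μ j * (w - p j)) h‖ < 1 / 4 → |d h - d p| < 2 / 5 ∧
        ∀ X : Cm k, ∑ j, μ j ^ 2 * ‖X j‖ ^ 2 ≤ 28 * T.mOm h X) :
    MapsTo u Sq (T.Θ '' B) := by
  obtain ⟨A, hA⟩ := t_m_dom hT hu
  have hcm := hu.m_cont_model hT
  have key := t_m_layer (S := Sq) (A := A ∩ (fun w => T.Cc (u w)) ⁻¹' B)
    (h := fun w => T.Cc (u w)) (d := d) (ρ := dens T.lam u) (a := a) (c := c) (M := M)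
    convex_sq.isPreconnected t_m_star_sq (hA.op.inter (hB.preimage hcm))
    (hA.hol.mono inter_subset_left) (hd.comp hcm.continuousOn fun _ hw => hw.2)
    (hu.m_cont_dens hT) (fun z hz => (hu.dens_nonneg hT hz).1) (by rw [hu.area]; exact hM) ?_
    z1_mem.1 ⟨hA.mem _ z1_mem.1 (hT.memL (hu.bd z1_mem)).2.1, (hbd _ z1_mem).1⟩
    (by linarith [(hbd _ z1_mem).2]) ?_
  · exact fun z hz => (hA.iff hT hBO hz).1 (key z hz).1
  · intro m hm
    have hmM : (m : ℝ) ≤ M := by exact_mod_cast hm.le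
    have h1 := isCompact_sq.isClosed.inter
      ((((hK (a + m) (by linarith)).image hT.smΘ.continuous).isClosed).preimage hu.sm.continuous)
    convert h1 using 1
    ext z
    refine and_congr_right fun hz => ?_
    rw [mem_preimage, ← hA.iff hT (fun _ hp => hBO hp.1) hz]
    exact and_assoc
  · intro m hm z hz hzA hzd hz' E hE hEw
    have hmM : (m : ℝ) + 1 ≤ M := by exact_mod_cast hm
    have hm0 : (0 : ℝ) ≤ m := Nat.cast_nonneg m
    obtain ⟨μ, hμ0, hμ1⟩ := hμ _ hzA.2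
    rw [abs_lt] at hzd
    refine hc V T κ τ u A hT hu hA B _ (fun j w => μ j * (w - T.Cc (u z) j)) (fun j _ => μ j) z E
      hB hBO (hK _ le_rfl) (fun _ hp => hp.1) (fun h _ j => ?_) hz hzA.1 hzA.2 (fun j => ?_) hz' hE
      (fun p hp hlt => ⟨⟨hp, ?_⟩, fun X => ?_⟩) (fun w hw hwB hlt => ?_)
      (fun w hw hwB hlt => hEw w ⟨hw, hwB⟩ (hμ1 _ hwB hlt).1)
    · simpa using ((hasDerivAt_id (h j)).sub_const (T.Cc (u z) j)).const_mul (μ j : ℂ)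
    · exact ⟨by simp, by exact_mod_cast hμ0 j⟩
    · have := abs_lt.1 (hμ1 _ hp hlt).1
      linarith [this.2, hzd.2]
    · simpa using (hμ1 _ hp hlt).2 X
    · have := abs_lt.1 (hμ1 _ hwB hlt).1
      linarith [this.1, hzd.1, (hbd w hw).2]

end Pool.Agent.Lib.MP_ccffa6_gt
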