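import Pool.Agent.Lib.MP_ccffa6_gt.T.Base0

/-! Block T, part M: the divergence identity behind the monotonicity lemma. -/

open Set Filter Topology MeasureTheory
open scoped ContDiff ComplexConjugate Real

noncomputable section

namespace Pool.Agent.Lib.MP_ccffa6_gt

theorem t_m_beta {R : ℝ} (hR : 0 < R) : ∃ (β : ℝ → ℝ) (L : ℝ), 0 < L ∧ ContDiff ℝ 1 β ∧
    (∀ t, 0 ≤ β t) ∧ (∀ t, t ≤ R / 2 → β t = 1) ∧ (∀ t, R ≤ t → β t = 0 ∧ deriv β t = 0) ∧
    ∀ t, 0 ≤ t → t ≤ R → |deriv β t| ≤ L := by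
  let β : ℝ → ℝ := fun t => Real.smoothTransition (2 - 2 * t / R)
  have hs : ContDiff ℝ 1 β := Real.smoothTransition.contDiff.comp (by fun_prop)
  have h0 : ∀ t, 0 ≤ β t := fun t => Real.smoothTransition.nonneg _
  obtain ⟨L, hL⟩ := (isCompact_Icc (a := (0 : ℝ)) (b := R)).exists_bound_of_continuousOn
    (hs.continuous_deriv le_rfl).continuousOn
  refine ⟨β, |L| + 1, by positivity, hs, h0, fun t ht => ?_, fun t ht => ?_, fun t h1 h2 => ?_⟩
  · refine Real.smoothTransition.one_of_one_le ?_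
    have : 2 * t / R ≤ 1 := by rw [div_le_one hR]; linarith
    linarith
  · have e : β t = 0 := by
      refine Real.smoothTransition.zero_of_nonpos ?_
      have : 2 ≤ 2 * t / R := by rw [le_div_iff₀ hR]; linarith
      linarith
    refine ⟨e, IsLocalMin.deriv_eq_zero (Eventually.of_forall fun x => ?_)⟩
    rw [e]; exact h0 x
  · have := hL t ⟨h1, h2⟩
    rw [Real.norm_eq_abs] at this
    linarith [le_abs_self L]

variable {F : Type} [NormedAddCommGroup F] [InnerProductSpace ℂ F]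

theorem t_m_line {G : Type} [NormedAddCommGroup G] [NormedSpace ℂ G] {g : ℂ → G} {z : ℂ} {g1 : G}
    (h : HasDerivAt g g1 z) (v : ℂ) : HasDerivAt (fun t : ℝ => g (z + t * v)) (v • g1) 0 := by
  have h1 : HasDerivAt (fun t : ℝ => z + (t : ℂ) * v) v 0 := by
    simpa using ((Complex.ofRealCLM.hasDerivAt (x := 0)).mul_const v).const_add z
  have h2 : HasFDerivAt g ((ContinuousLinearMap.toSpanSingleton ℂ g1).restrictScalars ℝ)
      (z + ((0 : ℝ) : ℂ) * v) := by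
    simpa using h.hasFDerivAt.restrictScalars ℝ
  exact (h2.comp_hasDerivAt (0 : ℝ) h1).congr_deriv (by simp)

theorem t_m_fd {f : ℂ → ℝ} {z v : ℂ} {c : ℝ} (hf : DifferentiableAt ℝ f z)
    (h : HasDerivAt (fun t : ℝ => f (z + t * v)) c 0) : fderiv ℝ f z v = c := by
  have h1 : HasDerivAt (fun t : ℝ => z + (t : ℂ) * v) v 0 := by
    simpa using ((Complex.ofRealCLM.hasDerivAt (x := 0)).mul_const v).const_add z
  have h2 : HasFDerivAt f (fderiv ℝ f z) (z + ((0 : ℝ) : ℂ) * v) := by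
    simpa using hf.hasFDerivAt
  exact (h2.comp_hasDerivAt (0 : ℝ) h1).unique h

/-- The pairing `⟨g, g'⟩`. -/
def mq (g : ℂ → F) (w : ℂ) : ℂ := inner ℂ (g w) (deriv g w)

theorem t_m_sm [CompleteSpace F] {g : ℂ → F} {z : ℂ} {η : ℝ → ℝ} (hg : AnalyticAt ℂ g z)
    (hη : ContDiffAt ℝ 1 η (‖g z‖ ^ 2)) :
    ContDiffAt ℝ 1 (fun w => η (‖g w‖ ^ 2) * (mq g w).re) z ∧
    ContDiffAt ℝ 1 (fun w => η (‖g w‖ ^ 2) * (mq g w).im) z := by
  have h1 : ContDiffAt ℝ 1 g z := (hg.contDiffAt (n := 1)).restrict_scalars ℝ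
  have h2 : ContDiffAt ℝ 1 (deriv g) z := (hg.deriv.contDiffAt (n := 1)).restrict_scalars ℝ
  have h3 : ContDiffAt ℝ 1 (mq g) z := h1.inner ℂ h2
  have h4 : ContDiffAt ℝ 1 (fun w => η (‖g w‖ ^ 2)) z :=
    ContDiffAt.comp (g := η) z hη (h1.norm_sq ℂ)
  exact ⟨h4.mul (Complex.reCLM.contDiff.contDiffAt.comp z h3),
    h4.mul (Complex.imCLM.contDiff.contDiffAt.comp z h3)⟩

theorem t_m_div [CompleteSpace F] {g : ℂ → F} {z : ℂ} {η : ℝ → ℝ} {η' : ℝ} (hg : AnalyticAt ℂ g z)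
    (hη : ContDiffAt ℝ 1 η (‖g z‖ ^ 2)) (hη' : HasDerivAt η η' (‖g z‖ ^ 2)) :
    px (fun w => η (‖g w‖ ^ 2) * (mq g w).re) z - py (fun w => η (‖g w‖ ^ 2) * (mq g w).im) z =
      2 * η' * ‖mq g z‖ ^ 2 + 2 * η (‖g z‖ ^ 2) * ‖deriv g z‖ ^ 2 := by
  obtain ⟨s1, s2⟩ := t_m_sm hg hη
  have d1 := hg.differentiableAt.hasDerivAt
  have d2 := hg.deriv.differentiableAt.hasDerivAt
  have key : ∀ v : ℂ,
      HasDerivAt (fun t : ℝ => η (‖g (z + t * v)‖ ^ 2)) (η' * (2 * (v * mq g z).re)) 0 ∧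
      HasDerivAt (fun t : ℝ => mq g (z + t * v))
        (v * inner ℂ (g z) (deriv (deriv g) z) + conj v * ((‖deriv g z‖ ^ 2 : ℝ) : ℂ)) 0 := by
    intro v
    have a1 := t_m_line d1 v
    have a2 := t_m_line d2 v
    constructor
    · have b1 := Complex.reCLM.hasFDerivAt.comp_hasDerivAt (0 : ℝ) (a1.inner ℂ a1)
      have b2 : HasDerivAt (fun t : ℝ => ‖g (z + t * v)‖ ^ 2) (2 * (v * mq g z).re) 0 := by
        refine (b1.congr_deriv ?_).congr_of_eventuallyEq (Eventually.of_forall fun t => ?_)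
        · simp only [Complex.ofReal_zero, zero_mul, add_zero, inner_smul_left, inner_smul_right,
            Complex.reCLM_apply, Complex.add_re, mq]
          rw [← inner_conj_symm (deriv g z) (g z), ← map_mul, Complex.conj_re]
          ring
        · simp [inner_self_eq_norm_sq_to_K, ← Complex.ofReal_pow]
      have b3 : HasDerivAt η η' (‖g (z + ((0 : ℝ) : ℂ) * v)‖ ^ 2) := by simpa using hη'
      exact b3.comp (0 : ℝ) b2
    · refine (a1.inner ℂ a2).congr_deriv ?_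
      simp [inner_smul_left, inner_smul_right, inner_self_eq_norm_sq_to_K]
  have e1 := t_m_fd (v := 1) (s1.differentiableAt one_ne_zero)
    ((key 1).1.mul (Complex.reCLM.hasFDerivAt.comp_hasDerivAt (0 : ℝ) (key 1).2))
  have e2 := t_m_fd (v := Complex.I) (s2.differentiableAt one_ne_zero)
    ((key Complex.I).1.mul (Complex.imCLM.hasFDerivAt.comp_hasDerivAt (0 : ℝ) (key Complex.I).2))
  unfold px py
  rw [e1, e2, Complex.sq_norm (mq g z), Complex.normSq_apply]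
  simp [-Complex.ofReal_pow]
  ring

theorem t_m_low [CompleteSpace F] {g : ℂ → F} {z : ℂ} {β : ℝ → ℝ} {s : ℝ} (hg : AnalyticAt ℂ g z)
    (hβ : ContDiff ℝ 1 β) (hβ0 : ∀ t, 0 ≤ β t) (hs : 0 < s) :
    (ContDiffAt ℝ 1 (fun w => β (‖g w‖ ^ 2) / (‖g w‖ ^ 2 + s) * (mq g w).re) z ∧
    ContDiffAt ℝ 1 (fun w => β (‖g w‖ ^ 2) / (‖g w‖ ^ 2 + s) * (mq g w).im) z) ∧
    -2 * |deriv β (‖g z‖ ^ 2)| * ‖deriv g z‖ ^ 2 +
        2 * β (‖g z‖ ^ 2) * s * ‖deriv g z‖ ^ 2 / (‖g z‖ ^ 2 + s) ^ 2 ≤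
      px (fun w => β (‖g w‖ ^ 2) / (‖g w‖ ^ 2 + s) * (mq g w).re) z -
        py (fun w => β (‖g w‖ ^ 2) / (‖g w‖ ^ 2 + s) * (mq g w).im) z := by
  have hp : 0 < ‖g z‖ ^ 2 + s := by positivity
  have hη : ContDiffAt ℝ 1 (fun t => β t / (t + s)) (‖g z‖ ^ 2) :=
    hβ.contDiffAt.div (by fun_prop) hp.ne'
  have hη' : HasDerivAt (fun t => β t / (t + s)) _ (‖g z‖ ^ 2) :=
    (hβ.differentiable one_ne_zero _).hasDerivAt.div ((hasDerivAt_id _).add_const s) hp.ne'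
  refine ⟨t_m_sm (η := fun t => β t / (t + s)) hg hη, ?_⟩
  rw [t_m_div (η := fun t => β t / (t + s)) hg hη hη']
  have hq : ‖mq g z‖ ^ 2 ≤ ‖g z‖ ^ 2 * ‖deriv g z‖ ^ 2 := by
    rw [← mul_pow]
    exact pow_le_pow_left₀ (norm_nonneg _) (norm_inner_le_norm _ _) 2
  have hq0 : 0 ≤ ‖mq g z‖ ^ 2 := by positivity
  generalize ‖mq g z‖ ^ 2 = q, hn : ‖deriv g z‖ ^ 2 = n at hq hq0 ⊢
  have hn0 : 0 ≤ n := by rw [← hn]; positivity
  have ht0 : 0 ≤ ‖g z‖ ^ 2 := by positivity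
  have hb := hβ0 (‖g z‖ ^ 2)
  have hb' := neg_abs_le (deriv β (‖g z‖ ^ 2))
  have hb0 := abs_nonneg (deriv β (‖g z‖ ^ 2))
  generalize deriv β (‖g z‖ ^ 2) = b' at hb' hb0 ⊢
  generalize β (‖g z‖ ^ 2) = b at hb ⊢
  generalize ‖g z‖ ^ 2 = t at hp hq ht0 ⊢
  have e : 2 * ((b' * (t + s) - b * 1) / (t + s) ^ 2) * q + 2 * (b / (t + s)) * n =
      2 * b' * (q / (t + s)) + 2 * b * (n * (t + s) - q) / (t + s) ^ 2 := by
    field_simp; ring
  rw [e]
  have h1 : q / (t + s) ≤ n := by rw [div_le_iff₀ hp]; nlinarith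
  have h2 : 0 ≤ q / (t + s) := by positivity
  have h3 : 2 * b * s * n / (t + s) ^ 2 ≤ 2 * b * (n * (t + s) - q) / (t + s) ^ 2 :=
    div_le_div_of_nonneg_right (by nlinarith) (by positivity)
  nlinarith

end Pool.Agent.Lib.MP_ccffa6_gt
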