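import Pool.Agent.Lib.MP_ccffa6_gt.T.MSide
import Pool.Agent.Lib.MP_ccffa6_gt.T.Iface

/-! Block T, part M: the three confinements. -/

open Set Filter Topology MeasureTheory
open scoped ContDiff ComplexConjugate Real

noncomputable section

namespace Pool.Agent.Lib.MP_ccffa6_gt

variable {V : Type} [NormedAddCommGroup V] [NormedSpace ℝ V] [FiniteDimensional ℝ V] {k : ℕ}
  {T : TD k V} {κ : ℂ → ℂ} {τ : ℝ} {u : ℂ → V}

/-- The point `(i y, 0, …, 0)`. -/
def mc (k : ℕ) (y : ℝ) : Cm k := WithLp.toLp 2 fun j => if j = 0 then y * Complex.I else 0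

theorem t_m_lag {h : Cm k} (hh : h ∈ Lag k) {y b : ℝ} (hb : |(h 0).im - y| ≤ b) :
    ‖h - mc k y‖ ≤ b + (k + 1) := by
  have hb0 := (abs_nonneg _).trans hb
  have hk : (0 : ℝ) ≤ k := Nat.cast_nonneg k
  refine abs_le_of_sq_le_sq' ?_ (by positivity) |>.2
  rw [EuclideanSpace.norm_sq_eq, Fin.sum_univ_succ]
  have e1 : ‖(h - mc k y) 0‖ ^ 2 ≤ b ^ 2 := by
    refine pow_le_pow_left₀ (norm_nonneg _) ?_ 2
    refine (Complex.norm_le_abs_re_add_abs_im _).trans ?_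
    simpa [mc, hh.1] using hb
  have e2 : ∑ j : Fin (k + 1), ‖(h - mc k y) j.succ‖ ^ 2 = k + 1 := by
    rw [Finset.sum_congr rfl fun j _ => (show ‖(h - mc k y) j.succ‖ ^ 2 = 1 by
      simp [mc, hh.2 _ (Fin.succ_ne_zero j)])]
    simp
  rw [e2]
  nlinarith

theorem t_m_norm_le {x y : Cm k} (h : ∀ j, ‖x j‖ ≤ ‖y j‖) : ‖x‖ ≤ ‖y‖ := by
  refine abs_le_of_sq_le_sq' ?_ (norm_nonneg _) |>.2
  rw [EuclideanSpace.norm_sq_eq, EuclideanSpace.norm_sq_eq]
  exact Finset.sum_le_sum fun j _ => pow_le_pow_left₀ (norm_nonneg _) (h j) 2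

omit [FiniteDimensional ℝ V] in
theorem t_m_omP (hT : T.OK) {h : Cm k} (hh : h ∈ BoxP k T.l) (X : Cm k) : T.mOm h X = ‖X‖ ^ 2 := by
  rw [TD.mOm, hT.omP h hh, inner_smul_right, inner_self_eq_norm_sq_to_K]
  simp [← Complex.ofReal_pow]

theorem t_m_P {c b : ℝ} {M : ℕ} (hc : MBall k c) (hM : π < M * c) (hT : T.OK)
    (hu : Sol T κ τ u) (hb : ∀ z ∈ SqB, |(T.Cc (u z) 0).im - 0| ≤ b)
    (hl : b + k + M + 3 < T.l) : MapsTo u Sq (T.Θ '' BoxP k T.l) := by
  have hsub : Metric.ball (0 : Cm k) T.l ⊆ BoxP k T.l := fun h hh j =>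
    (PiLp.norm_apply_le h j).trans_lt (mem_ball_zero_iff.1 hh)
  have hM0 : (0 : ℝ) ≤ M := Nat.cast_nonneg M
  refine (t_m_int (a := b + k + 2) (d := fun h => ‖h‖) hc hM hT hu Metric.isOpen_ball
    (hsub.trans hT.boxP) continuous_norm.continuousOn (fun r hr => ?_) (fun z hz => ?_)
    fun p _ => ⟨fun _ => 1, fun _ => one_ne_zero, fun h hh hlt => ⟨?_, fun X => ?_⟩⟩).mono_right
    (image_mono hsub)
  · refine (congrArg IsCompact (Set.ext fun h => ?_)).mp (isCompact_closedBall (0 : Cm k) r)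
    simp only [mem_ofPred_eq, mem_ball_zero_iff, mem_closedBall_zero_iff]
    exact ⟨fun h => ⟨by linarith, h⟩, fun h => h.2⟩
  · have := t_m_lag (hT.memL (hu.bd hz)).2.2.2.2.1 (hb z hz)
    have e : mc k 0 = 0 := by ext j; simp [mc]
    rw [e, sub_zero] at this
    exact ⟨mem_ball_zero_iff.2 (by linarith), by linarith⟩
  · have e : ‖h - p‖ ≤ ‖mψ (fun j w => ((1 : ℝ) : ℂ) * (w - p j)) h‖ :=
      t_m_norm_le fun j => by simp [mψ]
    linarith [abs_norm_sub_norm_le h p]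
  · rw [t_m_omP hT (hsub hh), EuclideanSpace.norm_sq_eq]
    simp only [one_pow, one_mul]
    have : 0 ≤ ∑ j, ‖X j‖ ^ 2 := by positivity
    linarith

theorem t_m_log {x y : ℝ} (hx : 0 < x) (hy : 0 < y) (h : |x - y| < y / 4) :
    |-Real.log x - -Real.log y| < 2 / 5 ∧ (1 + 1 / y) ^ 2 ≤ 2 + 4 / x ^ 2 := by
  rw [abs_lt] at h
  have h1 := Real.log_le_sub_one_of_pos (div_pos hx hy)
  have h2 := Real.log_le_sub_one_of_pos (div_pos hy hx)
  rw [Real.log_div hx.ne' hy.ne'] at h1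
  rw [Real.log_div hy.ne' hx.ne'] at h2
  have h3 : x / y < 5 / 4 := by rw [div_lt_iff₀ hy]; linarith [h.2]
  have h4 : y / x < 4 / 3 := by rw [div_lt_iff₀ hx]; linarith [h.1]
  refine ⟨abs_lt.2 ⟨by linarith, by linarith⟩, ?_⟩
  have h5 : (1 / y) ^ 2 ≤ 2 / x ^ 2 := by
    rw [div_pow, div_le_div_iff₀ (by positivity) (by positivity)]
    nlinarith [h.2]
  have h6 : 4 / x ^ 2 = 2 * (2 / x ^ 2) := by ring
  nlinarith [sq_nonneg (1 - 1 / y)]

theorem t_m_M {c b : ℝ} {M : ℕ} (hc : MBall k c) (hM : π < M * c) (hT : T.OK)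
    (hu : Sol T κ τ u) (hb : ∀ z ∈ SqB, |(T.Cc (u z) 0).im - T.D| ≤ b)
    (hl : b + k + M + 3 < T.l) : MapsTo u Sq (T.Θ '' BoxM k T.l T.D) := by
  let B : Set (Cm k) := {h | ‖h - mc k T.D‖ < T.l ∧ Real.exp (-T.l) < ‖h 1‖}
  have h10 : (1 : Fin (k + 2)) ≠ 0 := by simp
  have hpos : ∀ h ∈ B, 0 < ‖h 1‖ := fun h hh => (Real.exp_pos _).trans hh.2
  have hsub : B ⊆ BoxM k T.l T.D := fun h hh => by
    have e := fun j => (PiLp.norm_apply_le (h - mc k T.D) j).trans_lt hh.1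
    have e' : ∀ j, j ≠ 0 → ‖h j‖ < T.l := fun j hj => by simpa [mc, hj] using e j
    refine ⟨by simpa [mc] using e 0, norm_pos_iff.1 (hpos h hh), abs_lt.2 ⟨?_, ?_⟩,
      fun j hj _ => e' j hj⟩
    · exact (Real.lt_log_iff_exp_lt (hpos h hh)).2 hh.2
    · linarith [Real.log_le_sub_one_of_pos (hpos h hh), e' 1 h10]
  have hM0 : (0 : ℝ) ≤ M := Nat.cast_nonneg M
  have hk : (0 : ℝ) ≤ k := Nat.cast_nonneg k
  have hb0 : 0 ≤ b := (abs_nonneg _).trans (hb _ z1_mem)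
  refine (t_m_int (a := b + k + 2) (B := B)
    (d := fun h => max ‖h - mc k T.D‖ (-Real.log ‖h 1‖)) hc hM hT hu
    (IsOpen.and (isOpen_lt (by fun_prop) continuous_const)
      (isOpen_lt continuous_const (by fun_prop)))
    (hsub.trans hT.boxM) ?_ (fun r hr => ?_) (fun z hz => ?_)
    fun p hp => ⟨fun j => if j = 1 then 1 + 1 / ‖p 1‖ else 1, fun j => ?_,
      fun h hh hlt => ?_⟩).mono_right (image_mono hsub)
  · refine ContinuousOn.sup (f := fun h : Cm k => ‖h - mc k T.D‖)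
      (g := fun h : Cm k => -Real.log ‖h 1‖) (by fun_prop) ?_
    exact (ContinuousOn.log (by fun_prop) fun h hh => (hpos h hh).ne').neg
  · have hcl : IsClosed {h : Cm k | Real.exp (-r) ≤ ‖h 1‖} :=
      isClosed_le continuous_const (by fun_prop)
    refine (congrArg IsCompact (Set.ext fun h => ?_)).mpr
      ((isCompact_closedBall (mc k T.D) r).inter_right hcl)
    simp only [mem_ofPred_eq, mem_inter_iff, Metric.mem_closedBall, dist_eq_norm, max_le_iff]
    constructor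
    · exact fun hh => ⟨hh.2.1, (Real.le_log_iff_exp_le (hpos h hh.1)).1 (by linarith [hh.2.2])⟩
    · intro hh
      have e := (Real.le_log_iff_exp_le ((Real.exp_pos _).trans_le hh.2)).2 hh.2
      exact ⟨⟨by linarith [hh.1], (Real.exp_lt_exp.2 (by linarith)).trans_le hh.2⟩, hh.1,
        by linarith⟩
  · have hL := (hT.memL (hu.bd hz)).2.2.2.2.1
    have := t_m_lag hL (hb z hz)
    refine ⟨⟨by linarith, ?_⟩, max_le (by linarith) ?_⟩
    · rw [hL.2 1 h10]
      exact Real.exp_lt_one_iff.2 (by linarith)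
    · rw [hL.2 1 h10, Real.log_one]
      linarith
  · have := hpos p hp
    beta_reduce
    split_ifs
    · positivity
    · exact one_ne_zero
  · have hp1 := hpos p hp
    have hi : 0 < 1 / ‖p 1‖ := by positivity
    have e1 : ‖h - p‖ < 1 / 4 := by
      refine lt_of_le_of_lt (t_m_norm_le fun j => ?_) hlt
      simp only [mψ, PiLp.sub_apply, norm_mul, Complex.norm_real, Real.norm_eq_abs]
      refine le_mul_of_one_le_left (norm_nonneg _) ?_
      split_ifs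
      · rw [abs_of_pos (by positivity)]; linarith
      · simp
    have e2 : |‖h 1‖ - ‖p 1‖| < ‖p 1‖ / 4 := by
      have f := (PiLp.norm_apply_le _ 1).trans_lt hlt
      simp only [mψ, if_true, norm_mul, Complex.norm_real, Real.norm_eq_abs] at f
      rw [abs_of_pos (by positivity)] at f
      have f1 : 1 / ‖p 1‖ * ‖h 1 - p 1‖ < 1 / 4 := by nlinarith [norm_nonneg (h 1 - p 1)]
      rw [one_div_mul_eq_div, div_lt_iff₀ hp1] at f1
      linarith [abs_norm_sub_norm_le (h 1) (p 1)]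
    obtain ⟨e3, e4⟩ := t_m_log (hpos h hh) hp1 e2
    refine ⟨(abs_max_sub_max_le_max _ _ _ _).trans_lt (max_lt ?_ e3), fun X => ?_⟩
    · have := abs_norm_sub_norm_le (h - mc k T.D) (p - mc k T.D)
      rw [sub_sub_sub_cancel_right] at this
      linarith
    · have f1 : ∑ j, (if j = 1 then 1 + 1 / ‖p 1‖ else 1) ^ 2 * ‖X j‖ ^ 2 ≤
          ∑ j, (2 * ‖X j‖ ^ 2 + if j = 1 then 4 * (‖X 1‖ ^ 2 / ‖h 1‖ ^ 2) else 0) := by
        refine Finset.sum_le_sum fun j _ => ?_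
        split_ifs with hj
        · rw [hj]
          refine (mul_le_mul_of_nonneg_right e4 (by positivity)).trans (le_of_eq ?_)
          ring
        · nlinarith [sq_nonneg ‖X j‖]
      rw [Finset.sum_add_distrib, ← Finset.mul_sum, ← EuclideanSpace.norm_sq_eq,
        Finset.sum_ite_eq'] at f1
      simp only [Finset.mem_univ, if_true] at f1
      have f2 := hT.omM h (hsub hh) X
      have f3 : 0 ≤ ‖X 1‖ ^ 2 / ‖h 1‖ ^ 2 := by positivity
      rw [TD.mOm]
      nlinarith [sq_nonneg ‖X‖]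

theorem t_conf (k : ℕ) : ConfStmt k := by
  obtain ⟨c, hc0, hc⟩ := t_m_ball k
  obtain ⟨M, hM⟩ := exists_nat_gt (π / c)
  rw [div_lt_iff₀ hc0] at hM
  have hM0 : (0 : ℝ) ≤ M := Nat.cast_nonneg M
  have hk : (0 : ℝ) ≤ k := Nat.cast_nonneg k
  refine ⟨2 * M + k + 5, by linarith, ?_⟩
  intro V _ _ _ T κ hT hl τ hτ u hu
  have hD := hT.D0
  have sP : ∀ σ : ℝ, |σ| = 1 → σ * (τ * T.D - 0) ≤ 0 →
      ∀ z ∈ SqB, σ * ((T.Cc (u z) 0).im - 0) ≤ M := fun σ hσ h =>
    t_m_side hc hM hT hu hσ (by linarith) (fun h h0 h1 => by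
      have hh : h ∈ BoxP k T.l := fun j => by
        by_cases hj : j = 0
        · simpa [hj] using h0
        · linarith [(h1 j hj).2]
      refine ⟨hT.boxP hh, fun X => ?_⟩
      rw [t_m_omP hT hh]
      nlinarith [sq_nonneg ‖X‖]) h hτ.1 hτ.2
  have sM : ∀ σ : ℝ, |σ| = 1 → σ * (τ * T.D - T.D) ≤ 0 →
      ∀ z ∈ SqB, σ * ((T.Cc (u z) 0).im - T.D) ≤ M := fun σ hσ h =>
    t_m_side hc hM hT hu hσ (by linarith) (fun h h0 h1 => by
      obtain ⟨e1, e2⟩ := h1 1 (by simp)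
      have e0 : 0 < ‖h 1‖ := by linarith
      have hh : h ∈ BoxM k T.l T.D := by
        refine ⟨h0, norm_pos_iff.1 e0, abs_lt.2 ⟨?_, ?_⟩, fun j hj _ => ?_⟩
        · have f := Real.one_sub_inv_le_log_of_pos e0
          have : ‖h 1‖⁻¹ < 4 := by rw [inv_lt_comm₀ e0 (by norm_num)]; linarith
          linarith
        · linarith [Real.log_le_sub_one_of_pos e0]
        · linarith [(h1 j hj).2]
      refine ⟨hT.boxM hh, fun X => le_trans ?_ (hT.omM h hh X)⟩
      have : 0 ≤ ‖X 1‖ ^ 2 / ‖h 1‖ ^ 2 := by positivity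
      linarith) h hτ.1 hτ.2
  have h1 := sP (-1) (by simp) (by nlinarith [mul_nonneg hτ.1 hD])
  have h2 := sM 1 (by simp) (by nlinarith [mul_nonneg (sub_nonneg.2 hτ.2) hD])
  refine ⟨fun z hz => ⟨by linarith [h1 z hz], by linarith [h2 z hz]⟩, fun h => ?_, fun h => ?_⟩
  · have h3 := sP 1 (by simp) (by simp [h])
    exact t_m_P (b := M) hc hM hT hu
      (fun z hz => abs_le.2 ⟨by linarith [h1 z hz], by linarith [h3 z hz]⟩) (by linarith)
  · have h3 := sM (-1) (by simp) (by simp [h])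
    exact t_m_M (b := M) hc hM hT hu
      (fun z hz => abs_le.2 ⟨by linarith [h3 z hz], by linarith [h2 z hz]⟩) (by linarith)

end Pool.Agent.Lib.MP_ccffa6_gt
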