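import Pool.Agent.Lib.MP_ccffa6_gt.T.MBall

/-! Block T, part M: confinement of the boundary. -/

open Set Filter Topology MeasureTheory
open scoped ContDiff ComplexConjugate Real

noncomputable section

namespace Pool.Agent.Lib.MP_ccffa6_gt

variable {V : Type} [NormedAddCommGroup V] [NormedSpace ℝ V] [FiniteDimensional ℝ V] {k : ℕ}
  {T : TD k V} {κ : ℂ → ℂ} {τ : ℝ} {u : ℂ → V}

theorem t_m_cpt {K : Fin (k + 2) → Set ℂ} (hK : ∀ j, IsCompact (K j)) :
    IsCompact {h : Cm k | ∀ j, h j ∈ K j} := by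
  have := (isCompact_univ_pi hK).image (PiLp.continuous_toLp 2 fun _ : Fin (k + 2) => ℂ)
  convert this using 1
  ext h
  constructor
  · exact fun hh => ⟨h.ofLp, fun j _ => hh j, rfl⟩
  · rintro ⟨x, hx, rfl⟩ j
    exact hx j (mem_univ j)

theorem t_m_jou {p w : ℂ} (hp : ‖p‖ = 1) (hw : w ≠ 0) (h : ‖(w / p - p / w) / 2‖ < 1 / 4) :
    (1 / 2 ≤ ‖w‖ ∧ ‖w‖ ≤ 2) ∧ ‖(1 / p + p / w ^ 2) / 2‖ ^ 2 ≤ 7 := by
  have h0 : 0 < ‖w‖ := norm_pos_iff.2 hw
  have h1 := abs_norm_sub_norm_le (w / p) (p / w)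
  rw [norm_div, Complex.norm_two] at h
  rw [norm_div, norm_div, hp, div_one, abs_le] at h1
  have h2 : ‖w‖ * (1 / ‖w‖) = 1 := by field_simp
  have h3 : 0 < 1 / ‖w‖ := by positivity
  have h4 : 1 / 2 ≤ ‖w‖ := by
    by_contra e
    nlinarith [h1.1, not_le.1 e]
  have h5 : ‖w‖ ≤ 2 := by
    by_contra e
    nlinarith [h1.2, not_le.1 e]
  refine ⟨⟨h4, h5⟩, ?_⟩
  have h6 := norm_add_le (1 / p) (p / w ^ 2)
  rw [norm_div 1, norm_div p, norm_one, hp, norm_pow] at h6
  have h7 : 1 / ‖w‖ ^ 2 ≤ 4 := by rw [div_le_iff₀ (by positivity)]; nlinarith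
  rw [norm_div, Complex.norm_two]
  nlinarith [norm_nonneg (1 / p + p / w ^ 2)]

theorem t_m_jou_re {p w : ℂ} (hp : ‖p‖ = 1) (hw : ‖w‖ = 1) : ((w / p - p / w) / 2).re = 0 := by
  have h1 : ‖w / p‖ = 1 := by rw [norm_div, hp, hw, div_one]
  rw [← inv_div w p, Complex.inv_eq_conj h1]
  generalize w / p = x
  simp

theorem t_m_side {c y σ : ℝ} {M : ℕ} (hc : MBall k c) (hM : π < M * c) (hT : T.OK)
    (hu : Sol T κ τ u) (hσ : |σ| = 1) (hl : (M : ℝ) + 1 ≤ T.l)
    (hR : ∀ h : Cm k, ‖h 0 - y * Complex.I‖ < T.l → (∀ j, j ≠ 0 → 1 / 4 < ‖h j‖ ∧ ‖h j‖ < 4) →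
      h ∈ T.O ∧ ∀ X, ‖X‖ ^ 2 / 4 ≤ T.mOm h X)
    (h1 : σ * (τ * T.D - y) ≤ 0) (h0 : 0 ≤ τ) (h0' : τ ≤ 1) :
    ∀ z ∈ SqB, σ * ((T.Cc (u z) 0).im - y) ≤ M := by
  obtain ⟨A, hA⟩ := t_m_dom hT hu
  have hcm := hu.m_cont_model hT
  have hmem : ∀ z ∈ SqB, z ∈ A := fun z hz => hA.mem _ hz.1 (hT.memL (hu.bd hz)).2.1
  have hlag : ∀ z ∈ SqB, T.Cc (u z) ∈ Lag k := fun z hz => (hT.memL (hu.bd hz)).2.2.2.2.1
  have hd : Continuous fun p : Cm k => σ * ((p 0).im - y) := by fun_prop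
  have key := t_m_layer (S := SqB) (A := A) (h := fun w => T.Cc (u w))
    (d := fun p : Cm k => σ * ((p 0).im - y)) (ρ := dens T.lam u) (a := 0) (c := c) (M := M)
    t_m_conn_sqB t_m_star_sqB hA.op hA.hol (hd.comp hcm).continuousOn
    (hu.m_cont_dens hT) (fun z hz => (hu.dens_nonneg hT hz).1) (by rw [hu.area]; exact hM) ?_
    z1_mem (hmem _ z1_mem) ?_ ?_
  · exact fun z hz => by simpa using (key z hz).2
  · intro m _
    have := isCompact_sqB.isClosed.inter
      (isClosed_le (hd.comp hcm) (continuous_const (y := (0 : ℝ) + m)))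
    convert this using 1
    ext z
    exact and_congr_right fun hz => ⟨fun h => h.2, fun h => ⟨hmem z hz, h⟩⟩
  · rw [hu.pt, (hT.CΘ _ (hT.larc_sub (hT.xpt_mem h0 h0'))).2.2]
    simpa [xpt] using h1
  intro m hm z hz hzA hzd hz' E hE hEw
  have hmM : (m : ℝ) + 1 ≤ M := by exact_mod_cast hm
  have hm0 : (0 : ℝ) ≤ m := Nat.cast_nonneg m
  set p := T.Cc (u z) with hp
  obtain ⟨hp0, hp1⟩ := hlag z hz
  rw [← hp] at hp0 hp1
  have hpy : ‖p 0 - y * Complex.I‖ < m + 1 / 10 := by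
    have e1 := Complex.norm_le_abs_re_add_abs_im (p 0 - y * Complex.I)
    have e2 : |σ * ((p 0).im - y)| = |(p 0).im - y| := by rw [abs_mul, hσ, one_mul]
    have e3 := abs_add_le (σ * ((p 0).im - y) - (0 + m)) (0 + m)
    rw [sub_add_cancel, e2, abs_of_nonneg (show (0 : ℝ) ≤ 0 + m by linarith)] at e3
    simp only [Complex.sub_re, Complex.sub_im, Complex.mul_re, Complex.mul_im, Complex.ofReal_re,
      Complex.ofReal_im, Complex.I_re, Complex.I_im, hp0, mul_zero, mul_one, sub_self, abs_zero,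
      add_zero] at e1
    linarith
  let B : Set (Cm k) := {h | ‖h 0 - y * Complex.I‖ < T.l ∧ ∀ j, j ≠ 0 → 1 / 4 < ‖h j‖ ∧ ‖h j‖ < 4}
  let K : Fin (k + 2) → Set ℂ := fun j => if j = 0 then Metric.closedBall (p 0) (1 / 4) else
    Metric.closedBall 0 2 \ Metric.ball 0 (1 / 2)
  let φ : Fin (k + 2) → ℂ → ℂ := fun j w => if j = 0 then w - p 0 else (w / p j - p j / w) / 2
  let φ' : Fin (k + 2) → ℂ → ℂ := fun j w => if j = 0 then 1 else (1 / p j + p j / w ^ 2) / 2
  have hB : IsOpen B := by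
    refine IsOpen.and (isOpen_lt (by fun_prop) continuous_const) ?_
    simp only [ofPred_forall]
    exact isOpen_iInter_of_finite fun j => isOpen_iInter_of_finite fun _ =>
      IsOpen.and (isOpen_lt continuous_const (by fun_prop))
        (isOpen_lt (by fun_prop) continuous_const)
  have hne : ∀ h ∈ B, ∀ j, j ≠ 0 → h j ≠ 0 := fun h hh j hj e => by
    have := (hh.2 j hj).1
    rw [e, norm_zero] at this
    linarith
  have hco : ∀ h : Cm k, ‖mψ φ h‖ < 1 / 4 → ∀ j, ‖φ j (h j)‖ < 1 / 4 := fun h hh j =>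
    (PiLp.norm_apply_le (mψ φ h) j).trans_lt hh
  refine hc V T κ τ u A hT hu hA B {h | ∀ j, h j ∈ K j} φ φ' z E hB
    (fun h hh => (hR h hh.1 hh.2).1) (t_m_cpt fun j => ?_) (fun h hh => ⟨?_, fun j hj => ?_⟩)
    (fun h hh j => ?_) hz.1 hzA ⟨by linarith, fun j hj => by rw [hp1 j hj]; norm_num⟩
    (fun j => ?_) hz' hE (fun h hh hlt => ⟨fun j => ?_, fun X => ?_⟩) (fun w hw _ _ j => ?_)
    (fun w hw _ hlt => hEw w hw ?_)
  · simp only [K]
    split_ifs
    · exact isCompact_closedBall _ _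
    · exact (isCompact_closedBall _ _).diff Metric.isOpen_ball
  · have := hh 0
    simp only [K, if_true, Metric.mem_closedBall, dist_eq_norm] at this
    have e := norm_add_le (h 0 - p 0) (p 0 - y * Complex.I)
    rw [sub_add_sub_cancel] at e
    linarith
  · have := hh j
    simp only [K, if_neg hj, Set.mem_sdiff, mem_closedBall_zero_iff, mem_ball_zero_iff,
      not_lt] at this
    constructor <;> linarith [this.1, this.2]
  · simp only [φ, φ']
    split_ifs with hj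
    · exact (hasDerivAt_id _).sub_const _
    · refine ((((hasDerivAt_id (h j)).div_const (p j)).sub
        ((hasDerivAt_const (h j) (p j)).div (hasDerivAt_id _) (hne h hh j hj))).div_const
          2).congr_deriv ?_
      simp only [id]
      ring
  · simp only [φ, φ', ← hp]
    split_ifs with hj
    · simp [hj]
    · have e : p j ≠ 0 := norm_ne_zero_iff.1 (by rw [hp1 j hj]; norm_num)
      refine ⟨by simp, ?_⟩
      have : (1 / p j + p j / p j ^ 2) / 2 = 1 / p j := by field_simp; ring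
      rw [this]
      exact one_div_ne_zero e
  · have := hco h hlt j
    simp only [K, φ] at this ⊢
    split_ifs at this ⊢ with hj
    · rw [Metric.mem_closedBall, dist_eq_norm, ← hj]
      rw [← hj] at this
      exact this.le
    · have e := (t_m_jou (hp1 j hj) (hne h hh j hj) this).1
      simp only [Set.mem_sdiff, mem_closedBall_zero_iff, mem_ball_zero_iff, not_lt]
      exact ⟨e.2, e.1⟩
  · have e1 : ∑ j, ‖φ' j (h j)‖ ^ 2 * ‖X j‖ ^ 2 ≤ ∑ j, 7 * ‖X j‖ ^ 2 := by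
      refine Finset.sum_le_sum fun j _ => mul_le_mul_of_nonneg_right ?_ (by positivity)
      have := hco h hlt j
      simp only [φ, φ'] at this ⊢
      split_ifs at this ⊢ with hj
      · norm_num
      · exact (t_m_jou (hp1 j hj) (hne h hh j hj) this).2
    rw [← Finset.mul_sum, ← EuclideanSpace.norm_sq_eq] at e1
    linarith [(hR h hh.1 hh.2).2 X]
  · simp only [φ]
    split_ifs with hj
    · rw [hj, Complex.sub_re, (hlag w hw).1, hp0, sub_self]
    · exact t_m_jou_re (hp1 j hj) ((hlag w hw).2 j hj)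
  · have := hco _ hlt 0
    simp only [φ, if_true] at this
    have e := Complex.abs_im_le_norm (T.Cc (u w) 0 - p 0)
    rw [← mul_sub, abs_mul, hσ, one_mul, sub_sub_sub_cancel_right, ← Complex.sub_im]
    linarith

end Pool.Agent.Lib.MP_ccffa6_gt
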