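import Mathlib

open Set Topology Filter

namespace Pool.Agent.Lib.MP_ccffa6_gt.Par

variable {B Y K E : Type*} [NormedAddCommGroup B] [NormedSpace ℝ B]
  [NormedAddCommGroup Y] [NormedSpace ℝ Y] [NormedAddCommGroup K] [NormedSpace ℝ K]
  [NormedAddCommGroup E] [NormedSpace ℝ E]

/-- The pair `(A, r)` is a bijection onto the product. -/
def Bij (A : B →L[ℝ] Y) (r : B →L[ℝ] K) : Prop :=
  (∀ h, A h = 0 → r h = 0 → h = 0) ∧ ∀ y k, ∃ h, A h = y ∧ r h = k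

theorem Bij.ker {A : B →L[ℝ] Y} {r : B →L[ℝ] K} (h : Bij A r) : (A.prod r).ker = ⊥ :=
  LinearMap.ker_eq_bot'.2 fun x hx => h.1 x (congrArg Prod.fst hx) (congrArg Prod.snd hx)

theorem Bij.range {A : B →L[ℝ] Y} {r : B →L[ℝ] K} (h : Bij A r) : (A.prod r).range = ⊤ :=
  LinearMap.range_eq_top.2 fun y => by
    obtain ⟨x, h1, h2⟩ := h.2 y.1 y.2
    exact ⟨x, Prod.ext h1 h2⟩

theorem bij_of_equiv {A : B →L[ℝ] Y} {r : B →L[ℝ] K} (e : B ≃L[ℝ] Y × K)
    (he : (e : B →L[ℝ] Y × K) = A.prod r) : Bij A r := by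
  have h1 : ∀ x, e x = (A x, r x) := fun x => congrArg (fun f : B →L[ℝ] Y × K => f x) he
  refine ⟨fun x hA hr => e.injective ?_, fun y k => ?_⟩
  · rw [h1, hA, hr, map_zero]; rfl
  · have h2 := h1 (e.symm (y, k))
    rw [e.apply_symm_apply] at h2
    exact ⟨e.symm (y, k), (congrArg Prod.fst h2).symm, (congrArg Prod.snd h2).symm⟩

theorem Bij.eventually [CompleteSpace B] [CompleteSpace Y] [CompleteSpace K] {T : Type*}
    [TopologicalSpace T] {A : T → B →L[ℝ] Y} {r : B →L[ℝ] K} {p : T} (hA : ContinuousAt A p)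
    (h : Bij (A p) r) : ∀ᶠ q in 𝓝 p, Bij (A q) r := by
  have h1 : ContinuousAt (fun q => (A q).prod r) p :=
    ((ContinuousLinearMap.prodₗᵢ ℝ : ((B →L[ℝ] Y) × (B →L[ℝ] K)) ≃ₗᵢ[ℝ] _).continuous.continuousAt.comp
      (hA.prodMk continuousAt_const))
  have h2 := h1.eventually (ContinuousLinearEquiv.isOpen.mem_nhds
    ⟨ContinuousLinearEquiv.ofBijective _ h.ker h.range,
      ContinuousLinearEquiv.coe_ofBijective _ _ _⟩)
  filter_upwards [h2] with q hq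
  obtain ⟨e, he⟩ := hq
  exact bij_of_equiv e he

theorem Bij.finrank_eq {A : B →L[ℝ] Y} {r : B →L[ℝ] K} (h : Bij A r) :
    Module.finrank ℝ A.ker = Module.finrank ℝ K := by
  refine (LinearEquiv.ofBijective ((r : B →ₗ[ℝ] K).domRestrict A.ker) ⟨?_, fun k => ?_⟩).finrank_eq
  · rw [← LinearMap.ker_eq_bot, LinearMap.ker_eq_bot']
    exact fun x hx => Subtype.ext (h.1 x.1 x.2 hx)
  · obtain ⟨x, h1, h2⟩ := h.2 0 k
    exact ⟨⟨x, h1⟩, h2⟩

theorem Bij.comp_equiv {K' : Type*} [NormedAddCommGroup K'] [NormedSpace ℝ K']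
    {A : B →L[ℝ] Y} {r : B →L[ℝ] K} (h : Bij A r) (e : K ≃L[ℝ] K') :
    Bij A ((e : K →L[ℝ] K').comp r) := by
  refine ⟨fun x h1 h2 => h.1 x h1 (e.injective (by simpa using h2)), fun y k => ?_⟩
  obtain ⟨x, h1, h2⟩ := h.2 y (e.symm k)
  exact ⟨x, h1, by simp [h2]⟩

theorem exists_bij [FiniteDimensional ℝ K] (A : B →L[ℝ] Y) (hA : Function.Surjective A)
    [FiniteDimensional ℝ A.ker] (hd : Module.finrank ℝ A.ker = Module.finrank ℝ K) :
    ∃ r : B →L[ℝ] K, Bij A r := by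
  obtain ⟨π, hπ⟩ := Submodule.ClosedComplemented.of_finiteDimensional (𝕜 := ℝ) A.ker
  have h0 : Bij A π := by
    refine ⟨fun x h1 h2 => ?_, fun y k => ?_⟩
    · have h3 := hπ ⟨x, h1⟩
      exact congrArg Subtype.val (h3.symm.trans h2)
    · obtain ⟨x, hx⟩ := hA y
      refine ⟨x + ((k - π x : A.ker) : B), ?_, ?_⟩
      · have h3 : A ((k - π x : A.ker) : B) = 0 := (k - π x).2
        rw [map_add, h3, add_zero, hx]
      · rw [map_add, hπ, add_sub_cancel]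
  exact ⟨_, h0.comp_equiv (ContinuousLinearEquiv.ofFinrankEq hd)⟩

/-- A chart of the set `M`. -/
structure MCh (M : Set B) (r : B →L[ℝ] K) (W : Set B) (V : Set K) (φ : K → B) : Prop where
  hW : IsOpen W
  hV : IsOpen V
  smooth : ContDiffOn ℝ 2 φ V
  im : φ '' V = M ∩ W
  inv : ∀ x ∈ V, r (φ x) = x

theorem exists_chart [CompleteSpace B] [CompleteSpace Y] [CompleteSpace K] {G : B → Y}
    {r : B →L[ℝ] K} {p : B} (hG : ContDiffAt ℝ 2 G p) (h : Bij (fderiv ℝ G p) r) {U : Set B}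
    (hU : U ∈ 𝓝 p) : ∃ W V φ, MCh {q | G q = 0} r W V φ ∧ p ∈ W ∧ W ⊆ U := by
  have h2 : (2 : WithTop ℕ∞) ≠ 0 := two_ne_zero
  have hΦ : ContDiffAt ℝ 2 (fun x => (G x, r x)) p := hG.prodMk r.contDiff.contDiffAt
  have hD : HasFDerivAt (fun x => (G x, r x))
      ((ContinuousLinearEquiv.ofBijective _ h.ker h.range : B ≃L[ℝ] Y × K) : B →L[ℝ] Y × K) p := by
    rw [ContinuousLinearEquiv.coe_ofBijective]
    exact (hG.differentiableAt h2).hasFDerivAt.prodMk r.hasFDerivAt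
  let e := hΦ.toOpenPartialHomeomorph _ hD h2
  have he : ∀ x, e x = (G x, r x) := fun x => rfl
  have hp : p ∈ e.source := hΦ.mem_toOpenPartialHomeomorph_source hD h2
  have hinv : ContDiffAt ℝ 2 e.symm (e p) := hΦ.to_localInverse hD h2
  obtain ⟨T, hT1, hT, hpT⟩ := mem_nhds_iff.1 (hinv.eventually (by decide))
  obtain ⟨S, hS1, hS, hpS⟩ := mem_nhds_iff.1 hU
  have c0 : Continuous fun x : K => ((0 : Y), x) := by fun_prop
  refine ⟨e.source ∩ e ⁻¹' T ∩ S, (fun x : K => ((0 : Y), x)) ⁻¹' (e.target ∩ e.symm ⁻¹' S ∩ T),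
    fun x => e.symm (0, x), ⟨?_, ?_, ?_, ?_, ?_⟩, ⟨⟨hp, hpT⟩, hpS⟩, fun q hq => hS1 hq.2⟩
  · exact (e.isOpen_inter_preimage hT).inter hS
  · exact ((e.symm.isOpen_inter_preimage hS).inter hT).preimage c0
  · intro x hx
    have h3 : ContDiffAt ℝ 2 e.symm (0, x) := hT1 hx.2
    exact (h3.comp x (contDiffAt_const.prodMk contDiffAt_id)).contDiffWithinAt
  · apply Subset.antisymm
    · rintro _ ⟨x, hx, rfl⟩
      have h3 : e (e.symm (0, x)) = (0, x) := e.right_inv hx.1.1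
      refine ⟨congrArg Prod.fst h3, ⟨e.map_target hx.1.1, ?_⟩, hx.1.2⟩
      rw [mem_preimage, h3]
      exact hx.2
    · rintro q ⟨hq, hq1, hq2⟩
      have h3 : e q = (0, r q) := by rw [he, hq]
      have h4 : e.symm (0, r q) = q := by rw [← h3]; exact e.left_inv hq1.1
      refine ⟨r q, ⟨⟨?_, ?_⟩, ?_⟩, h4⟩
      · show ((0 : Y), r q) ∈ e.target
        rw [← h3]; exact e.map_source hq1.1
      · show e.symm (0, r q) ∈ S
        rw [h4]; exact hq2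
      · show ((0 : Y), r q) ∈ T
        rw [← h3]; exact hq1.2
  · intro x hx
    exact congrArg Prod.snd (e.right_inv hx.1.1)

variable {M : Set B} {r : B →L[ℝ] K} {W : Set B} {V : Set K} {φ : K → B}

theorem MCh.mem (h : MCh M r W V φ) {x : K} (hx : x ∈ V) : φ x ∈ M ∧ φ x ∈ W := by
  have h1 : φ x ∈ M ∩ W := h.im ▸ mem_image_of_mem φ hx
  exact h1

theorem MCh.back (h : MCh M r W V φ) {q : B} (hq : q ∈ M) (hW : q ∈ W) :
    r q ∈ V ∧ φ (r q) = q := by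
  obtain ⟨x, hx, rfl⟩ : q ∈ φ '' V := h.im ▸ ⟨hq, hW⟩
  rw [h.inv x hx]
  exact ⟨hx, rfl⟩

theorem MCh.diffAt (h : MCh M r W V φ) {x : K} (hx : x ∈ V) : DifferentiableAt ℝ φ x :=
  (h.smooth.contDiffAt (h.hV.mem_nhds hx)).differentiableAt two_ne_zero

theorem MCh.congr (h : MCh M r W V φ) {M' : Set B} (e : ∀ q ∈ W, q ∈ M ↔ q ∈ M') :
    MCh M' r W V φ :=
  ⟨h.hW, h.hV, h.smooth, h.im.trans (Set.ext fun q =>
    ⟨fun hq => ⟨(e q hq.2).1 hq.1, hq.2⟩, fun hq => ⟨(e q hq.2).2 hq.1, hq.2⟩⟩), h.inv⟩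

theorem MCh.comp_equiv (h : MCh M r W V φ) (e : K ≃L[ℝ] E) :
    MCh M ((e : K →L[ℝ] E).comp r) W (e.symm ⁻¹' V) (φ ∘ e.symm) := by
  refine ⟨h.hW, h.hV.preimage e.symm.continuous,
    h.smooth.comp e.symm.contDiff.contDiffOn fun x hx => hx, ?_, fun x hx => ?_⟩
  · rw [image_comp, image_preimage_eq _ e.symm.surjective, h.im]
  · simp [h.inv _ hx]

theorem MCh.finrank_le [FiniteDimensional ℝ E] (h : MCh M r W V φ) {r' : B →L[ℝ] E} {W' : Set B}
    {V' : Set E} {φ' : E → B} (h' : MCh M r' W' V' φ') {q : B} (hq : q ∈ M) (hW : q ∈ W)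
    (hW' : q ∈ W') : Module.finrank ℝ K ≤ Module.finrank ℝ E := by
  obtain ⟨h1, h2⟩ := h.back hq hW
  obtain ⟨h3, _⟩ := h'.back hq hW'
  have h5 : (fun x => r (φ' (r' (φ x)))) =ᶠ[𝓝 (r q)] id := by
    have h6 : ∀ᶠ x in 𝓝 (r q), φ x ∈ W' :=
      (h.diffAt h1).continuousAt.eventually (h'.hW.mem_nhds (h2.symm ▸ hW'))
    filter_upwards [h.hV.mem_nhds h1, h6] with x hx hx'
    rw [(h'.back (h.mem hx).1 hx').2]
    exact h.inv x hx
  have h7 : HasFDerivAt φ' (fderiv ℝ φ' (r' q)) (r' (φ (r q))) := by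
    rw [h2]; exact (h'.diffAt h3).hasFDerivAt
  have h8 := r.hasFDerivAt.comp (r q)
    (h7.comp (r q) (r'.hasFDerivAt.comp (r q) (h.diffAt h1).hasFDerivAt))
  have h9 := h8.unique ((hasFDerivAt_id (r q)).congr_of_eventuallyEq h5)
  refine LinearMap.finrank_le_finrank_of_injective
    (f := ((r'.comp (fderiv ℝ φ (r q)) : K →L[ℝ] E) : K →ₗ[ℝ] E)) fun x y hxy => ?_
  have e1 := congrArg (fun f : K →L[ℝ] K => f x) h9
  have e2 := congrArg (fun f : K →L[ℝ] K => f y) h9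
  have e3 : r' (fderiv ℝ φ (r q) x) = r' (fderiv ℝ φ (r q) y) := hxy
  simp only [ContinuousLinearMap.comp_apply, ContinuousLinearMap.id_apply] at e1 e2
  rw [← e1, e3, e2]

omit [NormedSpace ℝ Y] in
/-- The zero set of a function on `M`, read in a chart. -/
theorem MCh.sub (h : MCh M r W V φ) {ψ : B → Y} {s : K →L[ℝ] E} {W' : Set K} {V' : Set E}
    {φ' : E → K} (h' : MCh {x | ψ (φ x) = 0} s W' V' φ') (hW : W' ⊆ V) :
    MCh (M ∩ {q | ψ q = 0}) (s.comp r) (W ∩ r ⁻¹' W') V' (φ ∘ φ') := by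
  have m : ∀ x ∈ V', φ' x ∈ V := fun x hx => hW (h'.mem hx).2
  refine ⟨h.hW.inter (h'.hW.preimage r.continuous), h'.hV, h.smooth.comp h'.smooth m, ?_,
    fun x hx => ?_⟩
  · apply Subset.antisymm
    · rintro _ ⟨x, hx, rfl⟩
      refine ⟨⟨(h.mem (m x hx)).1, (h'.mem hx).1⟩, (h.mem (m x hx)).2, ?_⟩
      show r (φ (φ' x)) ∈ W'
      rw [h.inv _ (m x hx)]
      exact (h'.mem hx).2
    · rintro q ⟨⟨h1, h2⟩, h3, h4⟩
      obtain ⟨h5, h6⟩ := h.back h1 h3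
      obtain ⟨h7, h8⟩ := h'.back (q := r q) (show ψ (φ (r q)) = 0 by rw [h6]; exact h2) h4
      exact ⟨s (r q), h7, by rw [Function.comp_apply, h8, h6]⟩
  · rw [ContinuousLinearMap.comp_apply, Function.comp_apply, h.inv _ (m x hx), h'.inv x hx]

/-- Shrinking a chart. -/
theorem MCh.shrink (h : MCh M r W V φ) {V' : Set K} (hV' : IsOpen V') (hs : V' ⊆ V) :
    MCh M r (W ∩ r ⁻¹' V') V' φ := by
  refine ⟨h.hW.inter (hV'.preimage r.continuous), hV', h.smooth.mono hs, ?_,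
    fun x hx => h.inv x (hs hx)⟩
  apply Subset.antisymm
  · rintro _ ⟨x, hx, rfl⟩
    refine ⟨(h.mem (hs hx)).1, (h.mem (hs hx)).2, ?_⟩
    show r (φ x) ∈ V'
    rw [h.inv x (hs hx)]
    exact hx
  · rintro q ⟨h1, h2, h3⟩
    exact ⟨r q, h3, (h.back h1 h2).2⟩

/-- A `C¹` image of an open subset of a finite-dimensional space has small dimension. -/
theorem dimH_image_le_finrank [FiniteDimensional ℝ K] {f : K → E} {V : Set K} (hV : IsOpen V)
    (hf : ContDiffOn ℝ 1 f V) : dimH (f '' V) ≤ Module.finrank ℝ K := by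
  refine (dimH_image_le_of_locally_lipschitzOn fun x hx => ?_).trans
    ((dimH_mono (subset_univ V)).trans (Real.dimH_univ_eq_finrank K).le)
  obtain ⟨C, t, ht, h⟩ := (hf.contDiffAt (hV.mem_nhds hx)).exists_lipschitzOnWith
  exact ⟨C, t, mem_nhdsWithin_of_mem_nhds ht, h⟩

end Pool.Agent.Lib.MP_ccffa6_gt.Par
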