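import Pool.Agent.Lib.MP_ccffa6_gt.T.Iface

open Set Topology Filter

namespace Pool.Agent.Lib.MP_ccffa6_gt

variable {A B C : Type} [NormedAddCommGroup A] [NormedSpace ℝ A] [NormedAddCommGroup B]
  [NormedSpace ℝ B] [NormedAddCommGroup C] [NormedSpace ℝ C]

theorem Approx.of_finite {K : A →L[ℝ] B}
    (h : FiniteDimensional ℝ (LinearMap.range (K : A →ₗ[ℝ] B))) : Approx K :=
  fun ε hε => ⟨K, h, by rwa [sub_self, norm_zero]⟩

theorem Approx.of_cod [FiniteDimensional ℝ B] (K : A →L[ℝ] B) : Approx K :=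
  Approx.of_finite inferInstance

theorem Approx.of_dom [FiniteDimensional ℝ A] (K : A →L[ℝ] B) : Approx K :=
  Approx.of_finite inferInstance

theorem Approx.zero : Approx (0 : A →L[ℝ] B) :=
  Approx.of_finite (by
    rw [ContinuousLinearMap.toLinearMap_zero, LinearMap.range_zero]; infer_instance)

theorem Approx.add {K K' : A →L[ℝ] B} (h : Approx K) (h' : Approx K') : Approx (K + K') := by
  intro ε hε
  obtain ⟨F, h1, h2⟩ := h _ (half_pos hε)
  obtain ⟨F', h3, h4⟩ := h' _ (half_pos hε)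
  refine ⟨F + F', Submodule.finiteDimensional_of_le
    (S₂ := LinearMap.range (F : A →ₗ[ℝ] B) ⊔ LinearMap.range (F' : A →ₗ[ℝ] B)) ?_, ?_⟩
  · rintro _ ⟨x, rfl⟩
    exact Submodule.add_mem_sup ⟨x, rfl⟩ ⟨x, rfl⟩
  · rw [add_sub_add_comm]
    linarith [norm_add_le (K - F) (K' - F')]

theorem Approx.comp_left {K : A →L[ℝ] B} (h : Approx K) (L : B →L[ℝ] C) : Approx (L.comp K) := by
  intro ε hε
  have h0 : 0 < ‖L‖ + 1 := by positivity
  obtain ⟨F, h1, h2⟩ := h _ (div_pos hε h0)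
  refine ⟨L.comp F, Submodule.finiteDimensional_of_le
    (S₂ := (LinearMap.range (F : A →ₗ[ℝ] B)).map (L : B →ₗ[ℝ] C)) ?_, ?_⟩
  · rintro _ ⟨x, rfl⟩
    exact ⟨F x, ⟨x, rfl⟩, rfl⟩
  · rw [← ContinuousLinearMap.comp_sub]
    rw [lt_div_iff₀ h0] at h2
    nlinarith [L.opNorm_comp_le (K - F), norm_nonneg (K - F)]

theorem Approx.comp_right {K : B →L[ℝ] C} (h : Approx K) (L : A →L[ℝ] B) : Approx (K.comp L) := by
  intro ε hε
  have h0 : 0 < ‖L‖ + 1 := by positivity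
  obtain ⟨F, h1, h2⟩ := h _ (div_pos hε h0)
  refine ⟨F.comp L, Submodule.finiteDimensional_of_le
    (S₂ := LinearMap.range (F : B →ₗ[ℝ] C)) ?_, ?_⟩
  · rintro _ ⟨x, rfl⟩
    exact ⟨L x, rfl⟩
  · rw [← ContinuousLinearMap.sub_comp]
    rw [lt_div_iff₀ h0] at h2
    nlinarith [(K - F).opNorm_comp_le L, norm_nonneg (K - F)]

theorem Approx.congr {K K' : A →L[ℝ] B} (h : Approx K) (e : ∀ x, K' x = K x) : Approx K' := by
  rwa [show K' = K from ContinuousLinearMap.ext e]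

theorem Approx.smul {K : A →L[ℝ] B} (h : Approx K) (c : ℝ) : Approx (c • K) :=
  (h.comp_left (c • ContinuousLinearMap.id ℝ B)).congr fun _ => rfl

theorem Approx.neg {K : A →L[ℝ] B} (h : Approx K) : Approx (-K) :=
  (h.smul (-1)).congr fun x => by simp

theorem Approx.sub {K K' : A →L[ℝ] B} (h : Approx K) (h' : Approx K') : Approx (K - K') := by
  rw [sub_eq_add_neg]
  exact h.add h'.neg

theorem Approx.sum {ι : Type*} {s : Finset ι} {K : ι → A →L[ℝ] B} (h : ∀ i ∈ s, Approx (K i)) :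
    Approx (∑ i ∈ s, K i) :=
  Finset.sum_induction K Approx (fun _ _ => Approx.add) Approx.zero h

theorem Approx.prod {K : A →L[ℝ] B} {K' : A →L[ℝ] C} (h : Approx K) (h' : Approx K') :
    Approx (K.prod K') :=
  ((h.comp_left (ContinuousLinearMap.inl ℝ B C)).add
    (h'.comp_left (ContinuousLinearMap.inr ℝ B C))).congr fun x => by simp

theorem Approx.coprod {K : A →L[ℝ] C} {K' : B →L[ℝ] C} (h : Approx K) (h' : Approx K') :
    Approx (K.coprod K') :=
  ((h.comp_right (ContinuousLinearMap.fst ℝ A B)).add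
    (h'.comp_right (ContinuousLinearMap.snd ℝ A B))).congr fun x => by simp

theorem t_fred : FredStmt := by
  intro A _ _ _ K hK
  obtain ⟨F, h1, h2⟩ := hK 1 one_pos
  let T : A ≃L[ℝ] A :=
    ContinuousLinearEquiv.unitsEquiv ℝ A (Units.oneSub (-(K - F)) (by rwa [norm_neg]))
  have hT : ∀ v, T v = v + K v - F v := fun v => by
    show ((1 - -(K - F) : A →L[ℝ] A)) v = _
    simp only [sub_neg_eq_add, add_apply, one_apply_eq_self,
      sub_apply]
    abel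
  refine ⟨⟨(LinearMap.range (F : A →ₗ[ℝ] A)).map (T.symm : A →ₗ[ℝ] A), inferInstance,
    fun v hv => ⟨F (-v), ⟨-v, rfl⟩, ?_⟩⟩, ⟨_, h1, fun y => ⟨T.symm y, F (-T.symm y), ⟨_, rfl⟩, ?_⟩⟩⟩
  · show T.symm (F (-v)) = v
    rw [T.symm_apply_eq, hT, hv, map_neg, zero_sub]
  · rw [map_neg, ← sub_eq_add_neg, ← hT, T.apply_symm_apply]

/-- A left parametrix bounds the kernel. -/
theorem t_fred_ker [CompleteSpace A] {D : A →L[ℝ] B} {L : B →L[ℝ] A} {K : A →L[ℝ] A}
    (hK : Approx K) (h : ∀ v, L (D v) = v + K v) :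
    ∃ E : Submodule ℝ A, FiniteDimensional ℝ E ∧ ∀ v, D v = 0 → v ∈ E := by
  obtain ⟨E, h1, h2⟩ := (t_fred A K hK).1
  exact ⟨E, h1, fun v hv => h2 v (by rw [← h, hv, map_zero])⟩

/-- A right parametrix bounds the cokernel. -/
theorem t_fred_coker [CompleteSpace B] {D : A →L[ℝ] B} {L : B →L[ℝ] A} {K : B →L[ℝ] B}
    (hK : Approx K) (h : ∀ y, D (L y) = y + K y) :
    ∃ E : Submodule ℝ B, FiniteDimensional ℝ E ∧ ∀ y, ∃ v, ∃ e ∈ E, y = D v + e := by
  obtain ⟨E, h1, h2⟩ := (t_fred B K hK).2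
  refine ⟨E, h1, fun y => ?_⟩
  obtain ⟨v, e, he, h3⟩ := h2 y
  exact ⟨L v, e, he, by rw [h, ← h3]⟩

end Pool.Agent.Lib.MP_ccffa6_gt
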