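import Mathlib

open Set Topology Filter

namespace Pool.Agent.Lib.MP_ccffa6_gt.Par

variable {X : Type*} [TopologicalSpace X]

/-- A one-dimensional chart with parameter set `I`. -/
structure IsCh (I : Set ℝ) (W : Set X) (c : ℝ → X) (r : X → ℝ) : Prop where
  hW : IsOpen W
  hc : ContinuousOn c I
  hr : ContinuousOn r W
  im : c '' I = W
  inv : ∀ t ∈ I, r (c t) = t

/-- An embedded arc starting at `p0`. -/
structure IsArc (p0 : X) (γ : ℝ → X) (L : ℝ) : Prop where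
  pos : 0 < L
  cont : ContinuousOn γ (Icc 0 L)
  inj : InjOn γ (Icc 0 L)
  start : γ 0 = p0

variable {I : Set ℝ} {W : Set X} {c : ℝ → X} {r : X → ℝ} {p0 : X} {γ : ℝ → X} {L a b : ℝ}

theorem IsCh.back (h : IsCh I W c r) {q : X} (hq : q ∈ W) : r q ∈ I ∧ c (r q) = q := by
  rw [← h.im] at hq
  obtain ⟨t, ht, rfl⟩ := hq
  rw [h.inv t ht]
  exact ⟨ht, rfl⟩

theorem IsCh.injOn (h : IsCh I W c r) : InjOn r W := fun p hp q hq e => by
  rw [← (h.back hp).2, e, (h.back hq).2]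

theorem IsCh.mem (h : IsCh I W c r) {t : ℝ} (ht : t ∈ I) : c t ∈ W :=
  h.im ▸ mem_image_of_mem c ht

theorem IsCh.flip (h : IsCh (Ioo a b) W c r) :
    IsCh (Ioo (-b) (-a)) W (fun t => c (-t)) (fun x => -r x) := by
  have hm : ∀ t ∈ Ioo (-b) (-a), -t ∈ Ioo a b := fun t ht =>
    ⟨by linarith [ht.2], by linarith [ht.1]⟩
  refine ⟨h.hW, h.hc.comp continuous_neg.continuousOn hm, h.hr.neg, ?_, ?_⟩
  · apply Subset.antisymm
    · rintro _ ⟨t, ht, rfl⟩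
      exact h.mem (hm t ht)
    · intro q hq
      obtain ⟨h1, h2⟩ := h.back hq
      refine ⟨-r q, ⟨by linarith [h1.2], by linarith [h1.1]⟩, ?_⟩
      simp only [neg_neg]
      exact h2
  · intro t ht
    simp only [h.inv _ (hm t ht), neg_neg]

theorem IsArc.near (h : IsArc p0 γ L) (hW : IsOpen W) {t : ℝ} (ht : t ∈ Icc 0 L)
    (hm : γ t ∈ W) : ∃ ε > 0, ∀ s ∈ Icc 0 L, |s - t| ≤ ε → γ s ∈ W := by
  have h1 : γ ⁻¹' W ∈ 𝓝[Icc 0 L] t := h.cont t ht (hW.mem_nhds hm)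
  obtain ⟨ε, hε, h2⟩ := Metric.mem_nhdsWithin_iff.1 h1
  refine ⟨ε / 2, half_pos hε, fun s hs hst => h2 ⟨?_, hs⟩⟩
  rw [Metric.mem_ball, Real.dist_eq]
  linarith

theorem IsArc.end_not_mem (h : IsArc p0 γ L) : γ L ∉ γ '' Ico 0 L := by
  rintro ⟨s, hs, e⟩
  exact hs.2.ne (h.inj (Ico_subset_Icc_self hs) ⟨h.pos.le, le_rfl⟩ e)

theorem IsArc.start_mem (h : IsArc p0 γ L) : p0 ∈ γ '' Ico 0 L :=
  ⟨0, ⟨le_rfl, h.pos⟩, h.start⟩

theorem IsArc.end_ne (h : IsArc p0 γ L) : γ L ≠ p0 := fun e =>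
  h.end_not_mem (e ▸ h.start_mem)

theorem IsArc.mono (h : IsArc p0 γ L) {s : ℝ} (hs : 0 < s) (hL : s ≤ L) : IsArc p0 γ s :=
  ⟨hs, h.cont.mono (Icc_subset_Icc_right hL), h.inj.mono (Icc_subset_Icc_right hL), h.start⟩

/-- The hypotheses of the handshake lemma. -/
structure Hyp (p0 : X) : Prop where
  inner : ∀ p, p ≠ p0 → ∃ (a b : ℝ) (W : Set X) (c : ℝ → X) (r : X → ℝ),
    IsCh (Ioo a b) W c r ∧ p ∈ W
  bd : ∃ (b : ℝ) (W : Set X) (c : ℝ → X) (r : X → ℝ), 0 < b ∧ IsCh (Ico 0 b) W c r ∧ c 0 = p0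

theorem IsArc.isOpen (H : Hyp p0) (h : IsArc p0 γ L) : IsOpen (γ '' Ico 0 L) := by
  rw [isOpen_iff_mem_nhds]
  rintro _ ⟨t, ht, rfl⟩
  rcases ht.1.eq_or_lt with rfl | ht0
  · obtain ⟨b, W, c, r, hb, hch, hc0⟩ := H.bd
    have hp : γ 0 ∈ W := by rw [h.start, ← hc0]; exact hch.mem ⟨le_rfl, hb⟩
    obtain ⟨ε, hε, h1⟩ := h.near hch.hW ⟨le_rfl, h.pos.le⟩ hp
    have he0 : 0 < min ε L := lt_min hε h.pos
    have heL : min ε L ≤ L := min_le_right _ _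
    have heε : min ε L ≤ ε := min_le_left _ _
    generalize min ε L = e at he0 heL heε
    have h2 : ∀ s ∈ Icc 0 e, γ s ∈ W := fun s hs =>
      h1 s ⟨hs.1, hs.2.trans heL⟩ (by rw [sub_zero, abs_of_nonneg hs.1]; exact hs.2.trans heε)
    have h3 : ContinuousOn (fun s => r (γ s)) (Icc 0 e) :=
      hch.hr.comp (h.cont.mono (Icc_subset_Icc_right heL)) h2
    have h4 : r (γ 0) = 0 := by rw [h.start, ← hc0]; exact hch.inv 0 ⟨le_rfl, hb⟩
    have h5 : 0 < r (γ e) := by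
      refine lt_of_le_of_ne (hch.back (h2 e ⟨he0.le, le_rfl⟩)).1.1 fun e0 => ?_
      have h6 := hch.injOn hp (h2 e ⟨he0.le, le_rfl⟩) (h4.trans e0)
      exact he0.ne (h.inj ⟨le_rfl, h.pos.le⟩ ⟨he0.le, heL⟩ h6)
    have h7 : IsOpen (W ∩ r ⁻¹' Iio (r (γ e))) :=
      hch.hr.isOpen_inter_preimage hch.hW isOpen_Iio
    refine mem_of_superset (h7.mem_nhds ⟨hp, by simpa [h4] using h5⟩) ?_
    rintro q ⟨hq, hq'⟩
    obtain ⟨s, hs, hs'⟩ := intermediate_value_Ico he0.le h3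
      (show r q ∈ Ico (r (γ 0)) (r (γ e)) from ⟨h4.trans_le (hch.back hq).1.1, hq'⟩)
    exact ⟨s, ⟨hs.1, hs.2.trans_le heL⟩, hch.injOn (h2 s (Ico_subset_Icc_self hs)) hq hs'⟩
  · have hne : γ t ≠ p0 := fun e =>
      ht0.ne' (h.inj (Ico_subset_Icc_self ht) ⟨le_rfl, h.pos.le⟩ (e.trans h.start.symm))
    obtain ⟨a, b, W, c, r, hch, hp⟩ := H.inner _ hne
    obtain ⟨ε, hε, h1⟩ := h.near hch.hW (Ico_subset_Icc_self ht) hp
    have he0 : 0 < min ε (min t (L - t)) := lt_min hε (lt_min ht0 (sub_pos.2 ht.2))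
    have heε : min ε (min t (L - t)) ≤ ε := min_le_left _ _
    have het : min ε (min t (L - t)) ≤ t := (min_le_right _ _).trans (min_le_left _ _)
    have heL : min ε (min t (L - t)) ≤ L - t := (min_le_right _ _).trans (min_le_right _ _)
    generalize min ε (min t (L - t)) = e at he0 heε het heL
    have hs : Icc (t - e) (t + e) ⊆ Icc 0 L := Icc_subset_Icc (by linarith) (by linarith)
    have h2 : ∀ s ∈ Icc (t - e) (t + e), γ s ∈ W := fun s hs' =>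
      h1 s (hs hs') (abs_le.2 ⟨by linarith [hs'.1], by linarith [hs'.2]⟩)
    have h3 : ContinuousOn (fun s => r (γ s)) (Icc (t - e) (t + e)) :=
      hch.hr.comp (h.cont.mono hs) h2
    have h4 : InjOn (fun s => r (γ s)) (Icc (t - e) (t + e)) := fun x hx y hy e =>
      h.inj (hs hx) (hs hy) (hch.injOn (h2 x hx) (h2 y hy) e)
    have hle : t - e ≤ t + e := by linarith
    have m1 : t - e ∈ Icc (t - e) (t + e) := ⟨le_rfl, hle⟩
    have m2 : t ∈ Icc (t - e) (t + e) := ⟨by linarith, by linarith⟩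
    have m3 : t + e ∈ Icc (t - e) (t + e) := ⟨hle, le_rfl⟩
    have key : ∀ u v : ℝ, r (γ t) ∈ Ioo u v →
        Ioo u v ⊆ (fun s => r (γ s)) '' Ioo (t - e) (t + e) → γ '' Ico 0 L ∈ 𝓝 (γ t) := by
      intro u v h5 h6
      have h7 : IsOpen (W ∩ r ⁻¹' Ioo u v) := hch.hr.isOpen_inter_preimage hch.hW isOpen_Ioo
      refine mem_of_superset (h7.mem_nhds ⟨hp, h5⟩) ?_
      rintro q ⟨hq, hq'⟩
      obtain ⟨s, hs1, hs'⟩ := h6 hq'
      exact ⟨s, ⟨by linarith [hs1.1], by linarith [hs1.2]⟩,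
        hch.injOn (h2 s (Ioo_subset_Icc_self hs1)) hq hs'⟩
    rcases h3.strictMonoOn_of_injOn_Icc' hle h4 with h5 | h5
    · exact key _ _ ⟨h5 m1 m2 (by linarith), h5 m2 m3 (by linarith)⟩
        (intermediate_value_Ioo hle h3)
    · exact key _ _ ⟨h5 m2 m3 (by linarith), h5 m1 m2 (by linarith)⟩
        (intermediate_value_Ioo' hle h3)

variable [T2Space X]

theorem IsArc.dich (H : Hyp p0) (h : IsArc p0 γ L) {T : Set X} (hT : IsPreconnected T)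
    (hy : γ L ∉ T) : T ⊆ γ '' Ico 0 L ∨ T ⊆ (γ '' Icc 0 L)ᶜ := by
  refine hT.subset_or_subset (h.isOpen H)
    (isCompact_Icc.image_of_continuousOn h.cont).isClosed.isOpen_compl ?_ ?_
  · exact disjoint_compl_right_iff_subset.2 (image_mono Ico_subset_Icc_self)
  · intro x hx
    by_cases h1 : x ∈ γ '' Icc 0 L
    · obtain ⟨s, hs, rfl⟩ := h1
      exact Or.inl ⟨s, ⟨hs.1, lt_of_le_of_ne hs.2 fun e => hy (e ▸ hx)⟩, rfl⟩
    · exact Or.inr h1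

theorem IsArc.sub (H : Hyp p0) (h : IsArc p0 γ L) {T : Set X} (hT : IsPreconnected T)
    (hy : γ L ∉ T) {x : X} (hx : x ∈ T) (hx' : x ∈ γ '' Ico 0 L) : T ⊆ γ '' Ico 0 L :=
  (h.dich H hT hy).resolve_right fun h1 => h1 hx (image_mono Ico_subset_Icc_self hx')

theorem IsArc.chain (H : Hyp p0) (h : IsArc p0 γ L) {γ' : ℝ → X} {L' : ℝ} (h' : IsArc p0 γ' L') :
    γ '' Ico 0 L ⊆ γ' '' Ico 0 L' ∨ γ' '' Ico 0 L' ⊆ γ '' Ico 0 L := by
  by_cases h1 : γ' L' ∈ γ '' Ico 0 L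
  · obtain ⟨s, hs, e⟩ := h1
    have hs0 : 0 < s := lt_of_le_of_ne hs.1 fun e0 => h'.end_ne (by rw [← e, ← e0, h.start])
    have h2 := h.mono hs0 hs.2.le
    refine Or.inr ((h2.sub H (isPreconnected_Ico.image _ (h'.cont.mono Ico_subset_Icc_self))
      (e ▸ h'.end_not_mem) h'.start_mem h2.start_mem).trans ?_)
    exact image_mono (Ico_subset_Ico_right hs.2.le)
  · exact Or.inl (h'.sub H (isPreconnected_Ico.image _ (h.cont.mono Ico_subset_Icc_self)) h1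
      h.start_mem h'.start_mem)

theorem IsArc.ext_mono (H : Hyp p0) (h : IsArc p0 γ L) (hch : IsCh (Ioo a b) W c r)
    (hy : γ L ∈ W) {e : ℝ} (he0 : 0 < e) (heL : e ≤ L)
    (hlt : ∀ s ∈ Ico (L - e) L, γ s ∈ W ∧ r (γ s) < r (γ L)) {q : X} (hq : q ∈ W) :
    ∃ γ' L', IsArc p0 γ' L' ∧ q ∈ γ' '' Ico 0 L' := by
  obtain ⟨hρ, hcρ⟩ := hch.back hy
  obtain ⟨hq1, hq2⟩ := hch.back hq
  generalize hρd : r (γ L) = ρ at hρ hcρ hlt
  rcases lt_or_ge (r q) ρ with hqρ | hqρ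
  · have s1 : Ioo a ρ ⊆ Ioo a b := Ioo_subset_Ioo_right hρ.2.le
    have h1 : γ L ∉ c '' Ioo a ρ := by
      rintro ⟨t, ht, e1⟩
      rw [← e1, hch.inv t (s1 ht)] at hρd
      exact ht.2.ne hρd
    have m : L - e ∈ Ico (L - e) L := ⟨le_rfl, by linarith⟩
    obtain ⟨h2, h3⟩ := hlt _ m
    have h4 := h.sub H (isPreconnected_Ioo.image _ (hch.hc.mono s1)) h1
      (x := γ (L - e)) ⟨r (γ (L - e)), ⟨(hch.back h2).1.1, h3⟩, (hch.back h2).2⟩
      ⟨L - e, ⟨by linarith, by linarith⟩, rfl⟩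
    exact ⟨γ, L, h, h4 ⟨r q, ⟨hq1.1, hqρ⟩, hq2⟩⟩
  · have s1 : Ioo ρ b ⊆ Ioo a b := Ioo_subset_Ioo_left hρ.1.le
    have h1 : γ L ∉ c '' Ioo ρ b := by
      rintro ⟨t, ht, e1⟩
      rw [← e1, hch.inv t (s1 ht)] at hρd
      exact ht.1.ne' hρd
    have h2 : c '' Ioo ρ b ⊆ (γ '' Icc 0 L)ᶜ := by
      refine (h.dich H (isPreconnected_Ioo.image _ (hch.hc.mono s1)) h1).resolve_left fun h3 => ?_
      have s2 : Icc 0 (L - e) ⊆ Icc 0 L := Icc_subset_Icc_right (by linarith)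
      have h4 : IsClosed (γ '' Icc 0 (L - e)) :=
        (isCompact_Icc.image_of_continuousOn (h.cont.mono s2)).isClosed
      have h5 : c '' Ioo ρ b ⊆ γ '' Icc 0 (L - e) := by
        rintro _ ⟨t, ht, rfl⟩
        obtain ⟨s, hs, e1⟩ := h3 ⟨t, ht, rfl⟩
        refine ⟨s, ⟨hs.1, ?_⟩, e1⟩
        by_contra h6
        have h7 := (hlt s ⟨(not_le.1 h6).le, hs.2⟩).2
        rw [e1, hch.inv t (s1 ht)] at h7
        exact lt_asymm h7 ht.1
      have h6 : c ρ ∈ closure (c '' Ioo ρ b) := by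
        refine ((hch.hc ρ hρ).mono s1).mem_closure_image ?_
        rw [closure_Ioo hρ.2.ne]
        exact ⟨le_rfl, hρ.2.le⟩
      obtain ⟨s, hs, e1⟩ := h4.closure_subset_iff.2 h5 h6
      have h7 := h.inj (s2 hs) ⟨h.pos.le, le_rfl⟩ (e1.trans hcρ)
      linarith [hs.2]
    have hb := hq1.2
    let γ' : ℝ → X := fun t => if t ≤ L then γ t else c (ρ + (t - L))
    have e1 : ∀ t, t ≤ L → γ' t = γ t := fun t ht => if_pos ht
    have e2 : ∀ t, L ≤ t → γ' t = c (ρ + (t - L)) := fun t ht => by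
      rcases ht.eq_or_lt with rfl | ht
      · rw [e1 _ le_rfl, sub_self, add_zero, hcρ]
      · exact if_neg (not_le.2 ht)
    have hm : ∀ t ∈ Icc L (L + ((r q + b) / 2 - ρ)), ρ + (t - L) ∈ Ioo a b := fun t ht =>
      ⟨by linarith [ht.1, hρ.1], by linarith [ht.2]⟩
    have hL := h.pos
    refine ⟨γ', L + ((r q + b) / 2 - ρ), ⟨by linarith, ?_, ?_, ?_⟩, L + (r q - ρ),
      ⟨by linarith, by linarith⟩, ?_⟩
    · rw [← Icc_union_Icc_eq_Icc hL.le (by linarith : L ≤ L + ((r q + b) / 2 - ρ))]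
      refine ContinuousOn.union_of_isClosed ?_ ?_ isClosed_Icc isClosed_Icc
      · exact h.cont.congr fun t ht => e1 t ht.2
      · exact (hch.hc.comp (by fun_prop) hm).congr fun t ht => e2 t ht.1
    · have mix : ∀ s ∈ Icc 0 (L + ((r q + b) / 2 - ρ)), ∀ t ∈ Icc 0 (L + ((r q + b) / 2 - ρ)),
          s ≤ L → L < t → γ' s ≠ γ' t := by
        intro s hs t ht hsL hLt e3
        rw [e1 s hsL, e2 t hLt.le] at e3
        exact h2 ⟨ρ + (t - L), ⟨by linarith, (hm t ⟨hLt.le, ht.2⟩).2⟩, rfl⟩ ⟨s, ⟨hs.1, hsL⟩, e3⟩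
      intro s hs t ht e3
      rcases le_or_gt s L with hsL | hsL <;> rcases le_or_gt t L with htL | htL
      · rw [e1 s hsL, e1 t htL] at e3
        exact h.inj ⟨hs.1, hsL⟩ ⟨ht.1, htL⟩ e3
      · exact absurd e3 (mix s hs t ht hsL htL)
      · exact absurd e3.symm (mix t ht s hs htL hsL)
      · rw [e2 s hsL.le, e2 t htL.le] at e3
        have e4 := congrArg r e3
        rw [hch.inv _ (hm s ⟨hsL.le, hs.2⟩), hch.inv _ (hm t ⟨htL.le, ht.2⟩)] at e4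
        linarith
    · rw [e1 0 hL.le, h.start]
    · rw [e2 _ (by linarith), show ρ + (L + (r q - ρ) - L) = r q by ring, hq2]

theorem IsArc.extend (H : Hyp p0) (h : IsArc p0 γ L) (hch : IsCh (Ioo a b) W c r)
    (hy : γ L ∈ W) {q : X} (hq : q ∈ W) :
    ∃ γ' L', IsArc p0 γ' L' ∧ q ∈ γ' '' Ico 0 L' := by
  obtain ⟨ε, hε, h1⟩ := h.near hch.hW ⟨h.pos.le, le_rfl⟩ hy
  have he0 : 0 < min ε L := lt_min hε h.pos
  have heL : min ε L ≤ L := min_le_right _ _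
  have heε : min ε L ≤ ε := min_le_left _ _
  generalize min ε L = e at he0 heL heε
  have hs : Icc (L - e) L ⊆ Icc 0 L := Icc_subset_Icc_left (by linarith)
  have h2 : ∀ s ∈ Icc (L - e) L, γ s ∈ W := fun s hs' =>
    h1 s (hs hs') (abs_le.2 ⟨by linarith [hs'.1], by linarith [hs'.2]⟩)
  have h3 : ContinuousOn (fun s => r (γ s)) (Icc (L - e) L) := hch.hr.comp (h.cont.mono hs) h2
  have h4 : InjOn (fun s => r (γ s)) (Icc (L - e) L) := fun x hx y hy e =>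
    h.inj (hs hx) (hs hy) (hch.injOn (h2 x hx) (h2 y hy) e)
  have hle : L - e ≤ L := by linarith
  rcases h3.strictMonoOn_of_injOn_Icc' hle h4 with h5 | h5
  · exact h.ext_mono H hch hy he0 heL (fun s hs' => ⟨h2 s (Ico_subset_Icc_self hs'),
      h5 (Ico_subset_Icc_self hs') ⟨hle, le_rfl⟩ hs'.2⟩) hq
  · exact h.ext_mono H hch.flip hy he0 heL (fun s hs' => ⟨h2 s (Ico_subset_Icc_self hs'),
      neg_lt_neg (h5 (Ico_subset_Icc_self hs') ⟨hle, le_rfl⟩ hs'.2)⟩) hq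

/-- A compact one-manifold does not have exactly one boundary point. -/
theorem Hyp.false [CompactSpace X] (H : Hyp p0) : False := by
  let ι := {x : (ℝ → X) × ℝ // IsArc p0 x.1 x.2}
  let O : ι → Set X := fun x => x.1.1 '' Ico 0 x.1.2
  have hO : ∀ x, IsOpen (O x) := fun x => x.2.isOpen H
  have hne : Nonempty ι := by
    obtain ⟨b, W, c, r, hb, hch, hc0⟩ := H.bd
    have s1 : Icc 0 (b / 2) ⊆ Ico 0 b := Icc_subset_Ico_right (by linarith)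
    refine ⟨⟨(c, b / 2), half_pos hb, hch.hc.mono s1, fun s hs t ht e => ?_, hc0⟩⟩
    have e1 := congrArg r e
    rwa [hch.inv s (s1 hs), hch.inv t (s1 ht)] at e1
  have hcl : IsClosed (⋃ x, O x) := by
    rw [← closure_subset_iff_isClosed]
    intro q hq
    by_cases h1 : q = p0
    · obtain ⟨x⟩ := hne
      exact mem_iUnion.2 ⟨x, h1 ▸ x.2.start_mem⟩
    · obtain ⟨a, b, W, c, r, hch, hp⟩ := H.inner q h1
      obtain ⟨z, hzW, hz⟩ := mem_closure_iff.1 hq W hch.hW hp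
      obtain ⟨x, hx⟩ := mem_iUnion.1 hz
      by_cases h2 : x.1.1 x.1.2 ∈ W
      · obtain ⟨γ', L', h3, h4⟩ := x.2.extend H hch h2 hp
        exact mem_iUnion.2 ⟨⟨(γ', L'), h3⟩, h4⟩
      · exact mem_iUnion.2 ⟨x, x.2.sub H (hch.im ▸ isPreconnected_Ioo.image _ hch.hc) h2 hzW hx hp⟩
  have hdir : Directed (· ⊆ ·) O := fun x y =>
    (x.2.chain H y.2).elim (fun h => ⟨y, h, Subset.rfl⟩) fun h => ⟨x, Subset.rfl, h⟩
  obtain ⟨x, hx⟩ := hcl.isCompact.elim_directed_cover O hO Subset.rfl hdir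
  obtain ⟨a, b, W, c, r, hch, hp⟩ := H.inner _ x.2.end_ne
  obtain ⟨γ', L', h3, h4⟩ := x.2.extend H hch hp hp
  exact x.2.end_not_mem (hx (mem_iUnion.2 ⟨⟨(γ', L'), h3⟩, h4⟩))

/-- A chart of a subset `Γ` of an ambient space. -/
structure IsChS (Γ : Set X) (I : Set ℝ) (W : Set X) (c : ℝ → X) (r : X → ℝ) : Prop where
  hW : IsOpen W
  hc : ContinuousOn c I
  hr : Continuous r
  im : c '' I = Γ ∩ W
  inv : ∀ t ∈ I, r (c t) = t

omit [T2Space X] in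
theorem IsChS.lift {Γ : Set X} (h : IsChS Γ I W c r) (p : Γ) :
    ∃ c' : ℝ → Γ, IsCh I (Subtype.val ⁻¹' W) c' (fun x => r x.1) ∧ ∀ t ∈ I, (c' t).1 = c t := by
  classical
  have hm : ∀ t ∈ I, c t ∈ Γ ∩ W := fun t ht => h.im ▸ mem_image_of_mem c ht
  let c' : ℝ → Γ := fun t => if ht : c t ∈ Γ then ⟨c t, ht⟩ else p
  have e1 : ∀ t ∈ I, (c' t).1 = c t := fun t ht => by simp only [c', dif_pos (hm t ht).1]
  refine ⟨c', ⟨h.hW.preimage continuous_subtype_val, ?_,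
    (h.hr.comp continuous_subtype_val).continuousOn, ?_, fun t ht => ?_⟩, e1⟩
  · exact IsInducing.subtypeVal.continuousOn_iff.2 (h.hc.congr e1)
  · apply Subset.antisymm
    · rintro _ ⟨t, ht, rfl⟩
      show (c' t).1 ∈ W
      rw [e1 t ht]
      exact (hm t ht).2
    · intro q hq
      obtain ⟨t, ht, e⟩ : q.1 ∈ c '' I := h.im ▸ ⟨q.2, hq⟩
      exact ⟨t, ht, Subtype.ext ((e1 t ht).trans e)⟩
  · rw [e1 t ht, h.inv t ht]

theorem handshake {Γ : Set X} (hΓ : IsCompact Γ) (h0 : p0 ∈ Γ)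
    (inner : ∀ p ∈ Γ, p ≠ p0 → ∃ (a b : ℝ) (W : Set X) (c : ℝ → X) (r : X → ℝ),
      IsChS Γ (Ioo a b) W c r ∧ p ∈ W)
    (bd : ∃ (b : ℝ) (W : Set X) (c : ℝ → X) (r : X → ℝ),
      0 < b ∧ IsChS Γ (Ico 0 b) W c r ∧ c 0 = p0) : False := by
  have : CompactSpace Γ := isCompact_iff_compactSpace.1 hΓ
  refine Hyp.false (p0 := (⟨p0, h0⟩ : Γ)) ⟨fun p hp => ?_, ?_⟩
  · obtain ⟨a, b, W, c, r, h, hW⟩ := inner p.1 p.2 fun e => hp (Subtype.ext e)
    obtain ⟨c', h1, _⟩ := h.lift p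
    exact ⟨a, b, _, c', _, h1, hW⟩
  · obtain ⟨b, W, c, r, hb, h, hc⟩ := bd
    obtain ⟨c', h1, h2⟩ := h.lift ⟨p0, h0⟩
    exact ⟨b, _, c', _, hb, h1, Subtype.ext ((h2 0 ⟨le_rfl, hb⟩).trans hc)⟩

end Pool.Agent.Lib.MP_ccffa6_gt.Par
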