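import Pool.Agent.Lib.MP_ccffa6_gt.T.ParS
import Pool.Agent.Lib.MP_ccffa6_gt.T.ParH

open Set Topology Filter

namespace Pool.Agent.Lib.MP_ccffa6_gt.Par

variable {B E : Type*} [NormedAddCommGroup B] [NormedSpace ℝ B]
  [NormedAddCommGroup E] [InnerProductSpace ℝ E] [FiniteDimensional ℝ E]

theorem MCh.interval {M : Set B} {s : B →L[ℝ] ℝ} {W : Set B} {V : Set ℝ} {φ : ℝ → B}
    (h : MCh M s W V φ) {q : B} (hq : q ∈ M) (hW : q ∈ W) {O : Set B} (hO : IsOpen O)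
    (hqO : q ∈ O) :
    ∃ e > 0, ∃ W', MCh M s W' (Ioo (s q - e) (s q + e)) φ ∧ q ∈ W' ∧ W' ⊆ O := by
  obtain ⟨h1, h2⟩ := h.back hq hW
  have h3 : ∀ᶠ x in 𝓝 (s q), φ x ∈ O :=
    (h.diffAt h1).continuousAt.eventually (hO.mem_nhds (h2.symm ▸ hqO))
  obtain ⟨e, he, h4⟩ := Metric.mem_nhds_iff.1 (inter_mem (h.hV.mem_nhds h1) h3)
  rw [Real.ball_eq_Ioo] at h4
  have h5 := h.shrink isOpen_Ioo (h4.trans inter_subset_left)
  refine ⟨e, he, W ∩ s ⁻¹' Ioo (s q - e) (s q + e) ∩ O,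
    ⟨h5.hW.inter hO, h5.hV, h5.smooth, ?_, h5.inv⟩,
    ⟨⟨hW, by constructor <;> linarith⟩, hqO⟩, inter_subset_right⟩
  rw [← inter_assoc, ← h5.im]
  refine (inter_eq_left.2 ?_).symm
  rintro _ ⟨x, hx, rfl⟩
  exact (h4 hx).2

theorem good_compact {K : Type*} [NormedAddCommGroup K] [NormedSpace ℝ K] [FiniteDimensional ℝ K]
    {M Z : Set B} (hZ : IsCompact Z) (hM : Z ⊆ M)
    (hch : ∀ q ∈ Z, ∃ (n : ℕ) (r : B →L[ℝ] (Fin n → ℝ)) (W : Set B) (V : Set (Fin n → ℝ))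
      (φ : (Fin n → ℝ) → B), MCh M r W V φ ∧ q ∈ W) :
    IsCompact {q | q ∈ Z ∧ ∃ (r : B →L[ℝ] K) (W : Set B) (V : Set K) (φ : K → B),
      MCh M r W V φ ∧ q ∈ W} := by
  refine hZ.of_isClosed_subset ?_ fun q hq => hq.1
  rw [← closure_subset_iff_isClosed]
  intro q hq
  have h1 : q ∈ Z := hZ.isClosed.closure_subset_iff.2 (fun q hq => hq.1) hq
  obtain ⟨n, r, W, V, φ, h2, h3⟩ := hch q h1
  obtain ⟨p, hpW, hp, r', W', V', φ', h4, h5⟩ := mem_closure_iff.1 hq W h2.hW h3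
  have h6 := le_antisymm (h2.finrank_le h4 (hM hp) hpW h5) (h4.finrank_le h2 (hM hp) h5 hpW)
  exact ⟨h1, _, W, _, _, h2.comp_equiv (ContinuousLinearEquiv.ofFinrankEq h6), h3⟩

theorem exists_pert_aux {J K P : Type*} [Fintype J] [NormedAddCommGroup K] [NormedSpace ℝ K]
    [FiniteDimensional ℝ K] [NormedAddCommGroup P] [NormedSpace ℝ P] [FiniteDimensional ℝ P]
    (hd : Module.finrank ℝ K = Module.finrank ℝ E + 1) {M : Set B} (ε : B →L[ℝ] E) {χ : B → ℝ}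
    (hχ : ContDiff ℝ 2 χ) {r : J → B →L[ℝ] K} {W : J → Set B} {V : J → Set K}
    {φ : J → K → B} (h : ∀ k, MCh M (r k) (W k) (V k) (φ k)) {D : Set B} (hD : IsCompact D)
    (hD0 : ∀ q ∈ D, ε q ≠ 0) {L : B → P →L[ℝ] E} (hL : ContDiff ℝ 2 L)
    (i : J → (K →L[ℝ] E) →L[ℝ] P) (π : J → P →L[ℝ] (K →L[ℝ] E)) (hπ : ∀ k A, π k (i k A) = A)
    (hL' : ∀ q k A, L q (i k A) = A (r k q)) :
    ∃ g : B → E, ContDiff ℝ 2 g ∧ (∀ q ∈ D, ε q - χ q • g q ≠ 0) ∧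
      ∀ k, ∀ x ∈ V k, χ (φ k x) ≠ 0 → ε (φ k x) - χ (φ k x) • g (φ k x) = 0 →
        Function.Surjective (fderiv ℝ (fun y => ε (φ k y) - χ (φ k y) • g (φ k y)) x) := by
  have hS := fun k => sard_sigma (i k) (π k) (hπ k) (h k).hV (g := fun y => ε (φ k y))
    (σ := fun y => χ (φ k y)) (L := fun y => L (φ k y))
    (ε.contDiff.comp_contDiffOn (h k).smooth)
    (hχ.comp_contDiffOn (h k).smooth) (hL.comp_contDiffOn (h k).smooth)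
    (fun x hx A => by rw [hL', (h k).inv x hx])
  choose S hS1 hS2 using hS
  have h1 : Dense (⋃ k, S k)ᶜ := by
    refine dense_compl_of_dimH_lt_finrank (E := E × P × (K →L[ℝ] ℝ) × ℝ) ?_
    rw [dimH_iUnion]
    exact (iSup_le hS1).trans_lt (Nat.cast_lt.2 (finrank_lt hd))
  have c1 : Continuous fun z : (E × P × (K →L[ℝ] ℝ) × ℝ) × B =>
      ε z.2 - χ z.2 • (z.1.1 + L z.2 z.1.2.1) := by
    have := hχ.continuous
    have := hL.continuous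
    fun_prop
  have h2 : ∀ᶠ z : E × P × (K →L[ℝ] ℝ) × ℝ in 𝓝 (0, 0, 0, 1),
      ∀ q ∈ D, ε q - χ q • (z.1 + L q z.2.1) ≠ 0 := by
    refine hD.eventually_forall_of_forall_eventually fun q hq => ?_
    refine c1.continuousAt.eventually_ne ?_
    simpa using hD0 q hq
  have h3 : ∀ᶠ z : E × P × (K →L[ℝ] ℝ) × ℝ in 𝓝 (0, 0, 0, 1), 0 < z.2.2.2 :=
    (show ContinuousAt (fun z : E × P × (K →L[ℝ] ℝ) × ℝ => z.2.2.2) (0, 0, 0, 1) by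
      fun_prop).eventually (lt_mem_nhds one_pos)
  obtain ⟨⟨η, A, w, s⟩, h4, h5, h6⟩ := h1.inter_nhds_nonempty (h2.and h3)
  refine ⟨fun q => η + L q A, contDiff_const.add (hL.clm_apply contDiff_const), h5,
    fun k x hx => hS2 k η A w s h6 (fun hk => h4 (mem_iUnion.2 ⟨k, hk⟩)) x hx⟩

/-- The generic perturbation. -/
theorem exists_pert {J K : Type*} [Fintype J] [NormedAddCommGroup K] [NormedSpace ℝ K]
    [FiniteDimensional ℝ K]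
    (hd : Module.finrank ℝ K = Module.finrank ℝ E + 1) {M : Set B} (ε : B →L[ℝ] E) {χ : B → ℝ}
    (hχ : ContDiff ℝ 2 χ) {r : J → B →L[ℝ] K} {W : J → Set B} {V : J → Set K}
    {φ : J → K → B} (h : ∀ k, MCh M (r k) (W k) (V k) (φ k)) {D : Set B} (hD : IsCompact D)
    (hD0 : ∀ q ∈ D, ε q ≠ 0) :
    ∃ g : B → E, ContDiff ℝ 2 g ∧ (∀ q ∈ D, ε q - χ q • g q ≠ 0) ∧
      ∀ k, ∀ x ∈ V k, χ (φ k x) ≠ 0 → ε (φ k x) - χ (φ k x) • g (φ k x) = 0 →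
        Function.Surjective (fderiv ℝ (fun y => ε (φ k y) - χ (φ k y) • g (φ k y)) x) := by
  classical
  refine exists_pert_aux (P := J → (K →L[ℝ] E)) hd ε hχ h hD hD0
    (L := fun q => ∑ k, (ContinuousLinearMap.apply ℝ E (r k q)).comp
      (ContinuousLinearMap.proj (R := ℝ) (φ := fun _ : J => K →L[ℝ] E) k)) ?_
    (fun k => ContinuousLinearMap.single ℝ (fun _ : J => K →L[ℝ] E) k)
    (fun k => ContinuousLinearMap.proj (R := ℝ) (φ := fun _ : J => K →L[ℝ] E) k)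
    (fun k A => by simp) fun q k A => ?_
  · exact ContDiff.sum fun k _ =>
      ((ContinuousLinearMap.apply ℝ E).contDiff.comp (r k).contDiff).clm_comp contDiff_const
  · simp only [sum_apply, ContinuousLinearMap.comp_apply,
      ContinuousLinearMap.proj_apply, ContinuousLinearMap.apply_apply,
      ContinuousLinearMap.single_apply]
    rw [Finset.sum_eq_single k (fun j _ hj => by rw [Pi.single_eq_of_ne hj]; rfl)
      (fun hk => absurd (Finset.mem_univ k) hk), Pi.single_eq_same]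

theorem MCh.curve {M : Set B} {r : B →L[ℝ] ℝ × E} {W : Set B} {V : Set (ℝ × E)} {φ : ℝ × E → B}
    (h : MCh M r W V φ) {ψ : B → E} (hψ : ContDiff ℝ 2 ψ) {q : B} (hq : q ∈ M) (hW : q ∈ W)
    {s : ℝ × E →L[ℝ] ℝ} (hs : Bij (fderiv ℝ (fun y => ψ (φ y)) (r q)) s) :
    ∃ W' V' c, MCh (M ∩ {q | ψ q = 0}) (s.comp r) W' V' c ∧ q ∈ W' := by
  have h1 := (h.back hq hW).1
  obtain ⟨W', V', c, h2, h3, h4⟩ := exists_chart (G := fun y => ψ (φ y))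
    ((hψ.comp_contDiffOn h.smooth).contDiffAt (h.hV.mem_nhds h1)) hs (h.hV.mem_nhds h1)
  exact ⟨_, _, _, h.sub h2 h4, hW, h3⟩

omit [FiniteDimensional ℝ E] in
theorem bij_flat {M : Set B} (ε : B →L[ℝ] E) (τ : B →L[ℝ] ℝ) {W : Set B} {V : Set (ℝ × E)}
    {φ : ℝ × E → B} (h : MCh M (τ.prod ε) W V φ) {χ : B → ℝ} (hχ : ContDiff ℝ 2 χ)
    (hχ0 : ∀ q, 0 ≤ χ q) {g : B → E} (hg : ContDiff ℝ 2 g) {x : ℝ × E} (hx : x ∈ V)
    (h0 : χ (φ x) = 0) :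
    Bij (fderiv ℝ (fun y => ε (φ y) - χ (φ y) • g (φ y)) x) (ContinuousLinearMap.fst ℝ ℝ E) := by
  have d1 : HasFDerivAt (fun y => ε (φ y)) (ContinuousLinearMap.snd ℝ ℝ E) x := by
    refine (ContinuousLinearMap.snd ℝ ℝ E).hasFDerivAt.congr_of_eventuallyEq ?_
    filter_upwards [h.hV.mem_nhds hx] with y hy using congrArg Prod.snd (h.inv y hy)
  have d2 : DifferentiableAt ℝ (fun y => χ (φ y)) x :=
    (hχ.differentiable two_ne_zero _).comp x (h.diffAt hx)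
  have d3 : fderiv ℝ (fun y => χ (φ y)) x = 0 :=
    IsLocalMin.fderiv_eq_zero (Eventually.of_forall fun y => h0.le.trans (hχ0 _))
  have d4 : DifferentiableAt ℝ (fun y => g (φ y)) x :=
    (hg.differentiable two_ne_zero _).comp x (h.diffAt hx)
  have d5 := d1.sub (d2.hasFDerivAt.smul d4.hasFDerivAt)
  rw [d3, h0, zero_smul, ContinuousLinearMap.zero_smulRight, add_zero, sub_zero] at d5
  rw [show fderiv ℝ (fun y => ε (φ y) - χ (φ y) • g (φ y)) x = _ from d5.fderiv]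
  exact ⟨fun v h1 h2 => Prod.ext h2 h1, fun y t => ⟨(t, y), rfl, rfl⟩⟩

theorem core {M Z : Set B} (ε : B →L[ℝ] E) (τ : B →L[ℝ] ℝ)
    (hZd : ∀ q, q ∈ Z ↔ q ∈ M ∧ ε q = 0 ∧ τ q ∈ Icc (0 : ℝ) 1) (hZ : IsCompact Z)
    (hch : ∀ q ∈ Z, ∃ (n : ℕ) (r : B →L[ℝ] (Fin n → ℝ)) (W : Set B) (V : Set (Fin n → ℝ))
      (φ : (Fin n → ℝ) → B), MCh M r W V φ ∧ q ∈ W)
    {p0 : B} (hp0 : p0 ∈ Z) (hτ0 : τ p0 = 0) (huniq : ∀ q ∈ Z, τ q = 0 → q = p0)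
    {W0 : Set B} {V0 : Set (ℝ × E)} {φ0 : ℝ × E → B} (h0 : MCh M (τ.prod ε) W0 V0 φ0)
    (hW0 : p0 ∈ W0) : ∃ q ∈ Z, τ q = 1 := by
  by_contra hno
  have hM : Z ⊆ M := fun q hq => ((hZd q).1 hq).1
  have hd : Module.finrank ℝ (ℝ × E) = Module.finrank ℝ E + 1 := by
    rw [Module.finrank_prod, Module.finrank_self, add_comm]
  have hZ0 := good_compact (K := ℝ × E) hZ hM hch
  generalize hZ0d : {q | q ∈ Z ∧ ∃ (r : B →L[ℝ] ℝ × E) (W : Set B) (V : Set (ℝ × E))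
    (φ : ℝ × E → B), MCh M r W V φ ∧ q ∈ W} = Z0 at hZ0
  have m0 : ∀ q, q ∈ Z0 ↔ q ∈ Z ∧ ∃ (r : B →L[ℝ] ℝ × E) (W : Set B) (V : Set (ℝ × E))
    (φ : ℝ × E → B), MCh M r W V φ ∧ q ∈ W := fun q => by rw [← hZ0d]; rfl
  have h1 : ∀ q : Z0, ∃ (r : B →L[ℝ] ℝ × E) (W : Set B) (V : Set (ℝ × E)) (φ : ℝ × E → B) (ρ : ℝ),
      MCh M r W V φ ∧ q.1 ∈ W ∧ 0 < ρ ∧ Metric.closedBall (r q.1) ρ ⊆ V := by
    intro q
    obtain ⟨h2, r, W, V, φ, h3, h4⟩ := (m0 q.1).1 q.2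
    obtain ⟨ρ, h5, h6⟩ := Metric.nhds_basis_closedBall.mem_iff.1
      (h3.hV.mem_nhds (h3.back (hM h2) h4).1)
    exact ⟨r, W, V, φ, ρ, h3, h4, h5, h6⟩
  choose r W V φ ρ hc hW hρ hb using h1
  let O1 : Z0 → Set B := fun k => W k ∩ r k ⁻¹' Metric.ball (r k k.1) (ρ k)
  have hO1 : ∀ k, IsOpen (O1 k) := fun k =>
    (hc k).hW.inter (Metric.isOpen_ball.preimage (r k).continuous)
  obtain ⟨t, ht⟩ := hZ0.elim_finite_subcover O1 hO1 fun q hq =>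
    mem_iUnion.2 ⟨⟨q, hq⟩, hW _, Metric.mem_ball_self (hρ _)⟩
  have hO : IsOpen (⋃ k ∈ t, O1 k) := isOpen_biUnion fun k _ => hO1 k
  have hC : IsCompact (⋃ k ∈ t, φ k '' Metric.closedBall (r k k.1) (ρ k)) :=
    t.isCompact_biUnion fun k _ => (isCompact_closedBall _ _).image_of_continuousOn
      ((hc k).smooth.continuousOn.mono (hb k))
  have hOC : ∀ q ∈ M, q ∈ ⋃ k ∈ t, O1 k → q ∈ ⋃ k ∈ t, φ k '' Metric.closedBall (r k k.1) (ρ k) := by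
    intro q hq h2
    obtain ⟨k, hk, h3⟩ := mem_iUnion₂.1 h2
    exact mem_iUnion₂.2 ⟨k, hk, r k q, Metric.ball_subset_closedBall h3.2,
      ((hc k).back hq h3.1).2⟩
  have hCW : ∀ q ∈ ⋃ k ∈ t, φ k '' Metric.closedBall (r k k.1) (ρ k),
      q ∈ M ∧ ∃ k ∈ t, q ∈ W k := by
    intro q h2
    obtain ⟨k, hk, x, hx, rfl⟩ := mem_iUnion₂.1 h2
    exact ⟨((hc k).mem (hb k hx)).1, k, hk, ((hc k).mem (hb k hx)).2⟩
  generalize (⋃ k ∈ t, φ k '' Metric.closedBall (r k k.1) (ρ k)) = C at hC hOC hCW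
  generalize (⋃ k ∈ t, O1 k) = O at hO hOC ht
  obtain ⟨δ, hδ, hδ'⟩ := (hZ.diff h0.hW).exists_forall_le' τ.continuous.continuousOn (a := 0)
    fun q hq => lt_of_le_of_ne ((hZd q).1 hq.1).2.2.1 fun e =>
      hq.2 (huniq q hq.1 e.symm ▸ hW0)
  let χ : B → ℝ := fun q => expNegInvGlue (τ q - δ / 2)
  have hχ : ContDiff ℝ 2 χ := expNegInvGlue.contDiff.comp (τ.contDiff.sub contDiff_const)
  have hχ0 : ∀ q, 0 ≤ χ q := fun q => expNegInvGlue.nonneg _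
  have hχ1 : ∀ q, χ q = 0 ↔ τ q - δ / 2 ≤ 0 := fun q => expNegInvGlue.zero_iff_nonpos
  have hI : IsClosed (τ ⁻¹' Icc (0 : ℝ) 1) := isClosed_Icc.preimage τ.continuous
  have hD : IsCompact (C ∩ (τ ⁻¹' Icc (0 : ℝ) 1 ∩ (Oᶜ ∪ τ ⁻¹' {1}))) :=
    hC.inter_right (hI.inter (hO.isClosed_compl.union (isClosed_singleton.preimage τ.continuous)))
  obtain ⟨g, hg, hg1, hg2⟩ := exists_pert (J := t) hd ε hχ (fun k => hc k.1) hD (by
    rintro q ⟨h2, h3, h4⟩ h5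
    obtain ⟨h6, k, _, h7⟩ := hCW q h2
    have h8 : q ∈ Z := (hZd q).2 ⟨h6, h5, h3⟩
    rcases h4 with h4 | h4
    · exact h4 (ht ((m0 q).2 ⟨h8, _, _, _, _, hc k, h7⟩))
    · exact hno ⟨q, h8, h4⟩)
  let ψ : B → E := fun q => ε q - χ q • g q
  have hψ : ContDiff ℝ 2 ψ := ε.contDiff.sub (hχ.smul hg)
  have hΓ : IsCompact (C ∩ (τ ⁻¹' Icc (0 : ℝ) 1 ∩ {q | ψ q = 0})) :=
    hC.inter_right (hI.inter (isClosed_eq hψ.continuous continuous_const))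
  have hp : p0 ∈ O := ht ((m0 p0).2 ⟨hp0, _, _, _, _, h0, hW0⟩)
  have z1 : ∀ q, χ q = 0 → (ψ q = 0 ↔ ε q = 0) := fun q hq => by
    simp only [ψ, hq, zero_smul, sub_zero]
  have z2 : χ p0 = 0 := (hχ1 p0).2 (by rw [hτ0]; linarith)
  have z3 : ψ p0 = 0 := (z1 p0 z2).2 ((hZd p0).1 hp0).2.1
  have flat : ∀ q ∈ M, q ∈ W0 → χ q = 0 → ∃ W' V' c, MCh (M ∩ {q | ψ q = 0})
      ((ContinuousLinearMap.fst ℝ ℝ E).comp (τ.prod ε)) W' V' c ∧ q ∈ W' := by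
    intro q hq hq0 h2
    obtain ⟨h3, h4⟩ := h0.back hq hq0
    exact h0.curve hψ hq hq0 (bij_flat ε τ h0 hχ hχ0 hg h3 (by rw [h4]; exact h2))
  refine handshake (p0 := p0) hΓ ⟨hOC p0 (hM hp0) hp, ((hZd p0).1 hp0).2.2, z3⟩ ?_ ?_
  · rintro q ⟨h2, h3, h4⟩ hne
    obtain ⟨h5, k, hk, h6⟩ := hCW q h2
    have h7 : ¬ (q ∈ Oᶜ ∪ τ ⁻¹' {1}) := fun h => hg1 q ⟨h2, h3, h⟩ h4
    have h8 : q ∈ O := by_contra fun h => h7 (Or.inl h)
    have h9 : τ q < 1 := lt_of_le_of_ne h3.2 fun h => h7 (Or.inr h)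
    have h10 : 0 < τ q := lt_of_le_of_ne h3.1 fun e => hne (huniq q ((hZd q).2
      ⟨h5, (z1 q ((hχ1 q).2 (by rw [← e]; linarith))).1 h4, h3⟩) e.symm)
    have h11 : ∃ (s : B →L[ℝ] ℝ) (W' : Set B) (V' : Set ℝ) (c : ℝ → B),
        MCh (M ∩ {q | ψ q = 0}) s W' V' c ∧ q ∈ W' := by
      by_cases h12 : χ q = 0
      · have h13 : q ∈ Z := (hZd q).2 ⟨h5, (z1 q h12).1 h4, h3⟩
        have h14 : q ∈ W0 := by_contra fun h => by
          have := hδ' q ⟨h13, h⟩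
          have := (hχ1 q).1 h12
          linarith
        exact ⟨_, flat q h5 h14 h12⟩
      · obtain ⟨h13, h14⟩ := (hc k).back h5 h6
        obtain ⟨s, hs⟩ := exists_bij_one hd
          (hg2 ⟨k, hk⟩ (r k q) h13 (by rw [h14]; exact h12) (by rw [h14]; exact h4))
        exact ⟨_, (hc k).curve hψ h5 h6 hs⟩
    obtain ⟨s, W', V', c, h12, h13⟩ := h11
    obtain ⟨e, _, W'', h14, h15, h16⟩ := h12.interval ⟨h5, h4⟩ h13
      (hO.inter (isOpen_Ioo.preimage τ.continuous : IsOpen (τ ⁻¹' Ioo 0 1))) ⟨h8, h10, h9⟩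
    have h17 := h14.congr (M' := C ∩ (τ ⁻¹' Icc (0 : ℝ) 1 ∩ {q | ψ q = 0})) fun p hp =>
      ⟨fun h => ⟨hOC p h.1 (h16 hp).1, Ioo_subset_Icc_self (h16 hp).2, h.2⟩,
        fun h => ⟨(hCW p h.1).1, h.2.2⟩⟩
    exact ⟨_, _, W'', c, s, ⟨h17.hW, h17.smooth.continuousOn, s.continuous, h17.im, h17.inv⟩, h15⟩
  · obtain ⟨W', V', c, h12, h13⟩ := flat p0 (hM hp0) hW0 z2
    obtain ⟨e, he, W'', h14, h15, h16⟩ := h12.interval ⟨hM hp0, z3⟩ h13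
      (hO.inter (isOpen_Iio.preimage τ.continuous : IsOpen (τ ⁻¹' Iio 1)))
      ⟨hp, show τ p0 < 1 by rw [hτ0]; exact one_pos⟩
    have e1 : ∀ q, ((ContinuousLinearMap.fst ℝ ℝ E).comp (τ.prod ε)) q = τ q := fun q => rfl
    rw [e1, hτ0, zero_add, zero_sub] at h14
    have s1 : Ico 0 e ⊆ Ioo (-e) e := fun x hx => ⟨by linarith [hx.1], hx.2⟩
    refine ⟨e, W'', c, τ, he, ⟨h14.hW, h14.smooth.continuousOn.mono s1, τ.continuous, ?_,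
      fun x hx => h14.inv x (s1 hx)⟩, ?_⟩
    · apply Subset.antisymm
      · rintro _ ⟨x, hx, rfl⟩
        obtain ⟨h2, h3⟩ := h14.mem (s1 hx)
        have h4 : τ (c x) = x := h14.inv x (s1 hx)
        exact ⟨⟨hOC _ h2.1 (h16 h3).1, ⟨h4.symm ▸ hx.1, le_of_lt (h16 h3).2⟩, h2.2⟩, h3⟩
      · rintro q ⟨⟨h2, h3, h4⟩, h5⟩
        obtain ⟨h6, h7⟩ := h14.back ⟨(hCW q h2).1, h4⟩ h5
        exact ⟨τ q, ⟨h3.1, h6.2⟩, h7⟩
    · have h2 := (h14.back ⟨hM hp0, z3⟩ h15).2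
      rwa [e1, hτ0] at h2

end Pool.Agent.Lib.MP_ccffa6_gt.Par
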