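import Pool.Agent.Lib.MP_ccffa6_gt.T.ParM
import Pool.Agent.Lib.MP_ccffa6_gt.T.Iface

open Set Topology Filter

namespace Pool.Agent.Lib.MP_ccffa6_gt

namespace Par

variable {B Y R E : Type*} [NormedAddCommGroup B] [NormedSpace ℝ B]
  [NormedAddCommGroup Y] [NormedSpace ℝ Y] [NormedAddCommGroup R] [NormedSpace ℝ R]
  [NormedAddCommGroup E] [NormedSpace ℝ E]

/-- The thickened operator. -/
noncomputable def thick (Q : Y →L[ℝ] R) (ι : E →L[ℝ] Y) (D : B →L[ℝ] Y) (P : Y →L[ℝ] Y) :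
    B × E →L[ℝ] R :=
  Q.comp (D.comp (ContinuousLinearMap.fst ℝ B E) - (P.comp ι).comp (ContinuousLinearMap.snd ℝ B E))

theorem thick_apply (Q : Y →L[ℝ] R) (ι : E →L[ℝ] Y) (D : B →L[ℝ] Y) (P : Y →L[ℝ] Y) (h : B)
    (e : E) : thick Q ι D P (h, e) = Q (D h) - Q (P (ι e)) := by
  simp [thick]

theorem thick_bij [FiniteDimensional ℝ E] (Q : Y →L[ℝ] R) (ι : E →L[ℝ] Y) {D : B →L[ℝ] Y}
    {P : Y →L[ℝ] Y}
    (hk : ∃ E1 : Submodule ℝ B, FiniteDimensional ℝ E1 ∧ ∀ h, Q (D h) = 0 → h ∈ E1)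
    (hc : ∀ y, ∃ h e, y = Q (D h) + Q (P (ι e))) :
    ∃ (n : ℕ) (r : B × E →L[ℝ] (Fin n → ℝ)), Bij (thick Q ι D P) r := by
  obtain ⟨E1, h1, h2⟩ := hk
  have h3 : FiniteDimensional ℝ (thick Q ι D P).ker := by
    rw [← Submodule.fg_iff_finiteDimensional]
    refine Submodule.fg_of_fg_map_of_fg_inf_ker (LinearMap.snd ℝ B E) ?_ ?_
    · rw [Submodule.fg_iff_finiteDimensional]
      infer_instance
    · rw [Submodule.fg_iff_finiteDimensional]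
      refine Submodule.finiteDimensional_of_le (S₂ := E1.map (LinearMap.inl ℝ B E)) ?_
      rintro ⟨h, e⟩ ⟨h4, h5⟩
      have h6 : e = 0 := h5
      have h7 : thick Q ι D P (h, e) = 0 := h4
      rw [thick_apply, h6, map_zero, map_zero, map_zero, sub_zero] at h7
      exact ⟨h, h2 h h7, by rw [h6]; rfl⟩
  refine ⟨Module.finrank ℝ (thick Q ι D P).ker, exists_bij _ (fun y => ?_) (by simp)⟩
  obtain ⟨h, e, h4⟩ := hc y
  exact ⟨(h, -e), by rw [thick_apply, h4, map_neg, map_neg, map_neg, sub_neg_eq_add]⟩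

variable [CompleteSpace B] [CompleteSpace R]

theorem spread (Q : Y →L[ℝ] R) {D : B → B →L[ℝ] Y} {P : B → Y →L[ℝ] Y} {u : B}
    (hD : ContinuousAt D u) (hP : ContinuousAt P u) {E0 : Submodule ℝ Y} [FiniteDimensional ℝ E0]
    (hk : ∃ E1 : Submodule ℝ B, FiniteDimensional ℝ E1 ∧ ∀ h, Q (D u h) = 0 → h ∈ E1)
    (hc : ∀ y, ∃ h, ∃ e ∈ E0, y = Q (D u h) + Q (P u e)) :
    ∀ᶠ u' in 𝓝 u,
      (∃ E1 : Submodule ℝ B, FiniteDimensional ℝ E1 ∧ ∀ h, Q (D u' h) = 0 → h ∈ E1) ∧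
      ∀ y, ∃ h, ∃ e ∈ E0, y = Q (D u' h) + Q (P u' e) := by
  have := FiniteDimensional.complete ℝ E0
  obtain ⟨n, r, h1⟩ := thick_bij Q E0.subtypeL hk fun y => by
    obtain ⟨h, e, he, h2⟩ := hc y
    exact ⟨h, ⟨e, he⟩, h2⟩
  have h2 : ContinuousAt (fun u' => thick Q E0.subtypeL (D u') (P u')) u :=
    continuousAt_const.clm_comp ((hD.clm_comp continuousAt_const).sub
      ((hP.clm_comp continuousAt_const).clm_comp continuousAt_const))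
  filter_upwards [Bij.eventually h2 h1] with u' h3
  refine ⟨⟨(Q.comp (D u')).ker, ?_, fun h hh => hh⟩, fun y => ?_⟩
  · refine FiniteDimensional.of_injective
      (((r : B × E0 →ₗ[ℝ] (Fin n → ℝ)).comp (LinearMap.inl ℝ B E0)).domRestrict _) ?_
    rw [← LinearMap.ker_eq_bot, LinearMap.ker_eq_bot']
    intro x hx
    have h4 : Q (D u' x.1) = 0 := x.2
    have h5 := h3.1 (x.1, 0) (by rw [thick_apply, h4]; simp) hx
    exact Subtype.ext (congrArg Prod.fst h5)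
  · obtain ⟨⟨h, e⟩, h4, _⟩ := h3.2 y 0
    rw [thick_apply] at h4
    exact ⟨h, -e.1, E0.neg_mem e.2, by rw [← h4, map_neg, map_neg, sub_eq_add_neg]; rfl⟩

theorem chart_at [CompleteSpace E] {K : Type*} [NormedAddCommGroup K] [NormedSpace ℝ K]
    [CompleteSpace K] (Q : Y →L[ℝ] R) (ι : E →L[ℝ] Y) {U : Set B} (hU : IsOpen U) {F : B → Y}
    {P : B → Y →L[ℝ] Y} (hF : ContDiffOn ℝ 2 F U) (hP : ContDiffOn ℝ 2 P U) {u : B} (hu : u ∈ U)
    (hl : ∀ᶠ u' in 𝓝 u, ∀ e, Q (F u' - P u' e) = 0 → F u' - P u' e = 0) {r : B × E →L[ℝ] K}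
    (hb : Bij (thick Q ι (fderiv ℝ F u) (P u)) r) :
    ∃ W V φ, MCh {q : B × E | q.1 ∈ U ∧ F q.1 - P q.1 (ι q.2) = 0} r W V φ ∧ (u, 0) ∈ W := by
  have h1 := hF.contDiffAt (hU.mem_nhds hu)
  have h2 := hP.contDiffAt (hU.mem_nhds hu)
  have h3 : ContDiffAt ℝ 2 (fun q : B × E => Q (F q.1 - P q.1 (ι q.2))) (u, 0) :=
    Q.contDiff.contDiffAt.comp _ ((h1.comp (u, (0 : E)) contDiffAt_fst).sub
      ((h2.comp (u, (0 : E)) contDiffAt_fst).clm_apply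
        (ι.contDiff.contDiffAt.comp _ contDiffAt_snd)))
  have h4 : HasFDerivAt (fun q : B × E => Q (F q.1 - P q.1 (ι q.2)))
      (thick Q ι (fderiv ℝ F u) (P u)) (u, 0) := by
    have d1 := (h1.differentiableAt two_ne_zero).hasFDerivAt.comp (u, (0 : E))
      (hasFDerivAt_fst (𝕜 := ℝ))
    have d2 := (h2.differentiableAt two_ne_zero).hasFDerivAt.comp (u, (0 : E))
      (hasFDerivAt_fst (𝕜 := ℝ))
    have d3 := ι.hasFDerivAt.comp (u, (0 : E)) (hasFDerivAt_snd (𝕜 := ℝ))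
    refine (Q.hasFDerivAt.comp (u, (0 : E)) (d1.sub (d2.clm_apply d3))).congr_fderiv ?_
    refine ContinuousLinearMap.ext fun x => ?_
    simp [thick]
  have h5 : {q : B × E | q.1 ∈ U ∧ ∀ e, Q (F q.1 - P q.1 e) = 0 → F q.1 - P q.1 e = 0} ∈
      𝓝 (u, (0 : E)) :=
    (continuousAt_fst (p := (u, (0 : E)))).eventually ((hU.eventually_mem hu).and hl)
  obtain ⟨W, V, φ, h6, h7, h8⟩ := exists_chart h3 (h4.fderiv ▸ hb) h5
  refine ⟨W, V, φ, h6.congr fun q hq => ⟨fun h => ⟨(h8 hq).1, (h8 hq).2 _ h⟩, fun h => ?_⟩, h7⟩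
  show Q (F q.1 - P q.1 (ι q.2)) = 0
  rw [h.2, map_zero]

/-- The image of an idempotent. -/
abbrev Img (Q : Y →L[ℝ] Y) : Submodule ℝ Y := (ContinuousLinearMap.id ℝ Y - Q).ker

/-- An idempotent as a map onto its image. -/
noncomputable def onto (Q : Y →L[ℝ] Y) (h : ∀ y, Q (Q y) = Q y) : Y →L[ℝ] Img Q :=
  Q.codRestrict (Img Q) fun y => by
    show Q y - Q (Q y) = 0
    rw [h, sub_self]

theorem onto_self (Q : Y →L[ℝ] Y) (y : Img Q) : Q y.1 = y.1 :=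
  (sub_eq_zero.1 (show y.1 - Q y.1 = 0 from y.2)).symm

end Par

open Par in
theorem t_par : ParStmt := by
  intro B Y _ _ _ _ _ _ U F Pe Q τ Z u0 hU hF hP hZd hZ hQ hl hk hc hu0 hτ0 huniq hinj hsurj
  have hZ' : ∀ u, u ∈ Z ↔ u ∈ U ∧ F u = 0 ∧ τ u ∈ Icc (0 : ℝ) 1 := fun u => by rw [hZd]; rfl
  have h1 : ∀ u : Z, ∃ (E0 : Submodule ℝ Y) (N : Set B), FiniteDimensional ℝ E0 ∧ IsOpen N ∧
      u.1 ∈ N ∧ ∀ u' ∈ N,
        (∀ e, onto _ (hQ u.1 u.2) (F u' - Pe u' e) = 0 → F u' - Pe u' e = 0) ∧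
        (∃ E1 : Submodule ℝ B, FiniteDimensional ℝ E1 ∧
          ∀ h, onto _ (hQ u.1 u.2) (fderiv ℝ F u' h) = 0 → h ∈ E1) ∧
        ∀ y, ∃ h, ∃ e ∈ E0, y = onto _ (hQ u.1 u.2) (fderiv ℝ F u' h) +
          onto _ (hQ u.1 u.2) (Pe u' e) := by
    rintro ⟨u, hu⟩
    have hn := hU.mem_nhds ((hZ' u).1 hu).1
    obtain ⟨E0, h2, h3⟩ := hc u hu
    obtain ⟨E1, h4, h5⟩ := hk u hu
    have h6 := spread (onto _ (hQ u hu)) ((hF.contDiffAt hn).continuousAt_fderiv two_ne_zero)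
      (hP.contDiffAt hn).continuousAt (E0 := E0)
      ⟨E1, h4, fun h hh => h5 h (congrArg Subtype.val hh)⟩ fun y => by
        obtain ⟨h, e, he, h7⟩ := h3 y.1
        exact ⟨h, e, he, Subtype.ext ((onto_self _ y).symm.trans h7)⟩
    obtain ⟨N, h7, h8, h9⟩ := mem_nhds_iff.1 ((hl u hu).and h6)
    exact ⟨E0, N, h2, h8, h9, fun u' hu' =>
      ⟨fun e he => (h7 hu').1 e (congrArg Subtype.val he), (h7 hu').2⟩⟩
  choose E0 N hE0 hN hmem hprop using h1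
  obtain ⟨t, ht⟩ := hZ.elim_finite_subcover N hN fun u hu => mem_iUnion.2 ⟨⟨u, hu⟩, hmem _⟩
  have hE : FiniteDimensional ℝ (t.sup E0 : Submodule ℝ Y) := inferInstance
  have hle : ∀ k ∈ t, E0 k ≤ t.sup E0 := fun k hk => Finset.le_sup hk
  generalize t.sup E0 = E1 at hE hle
  let j : EuclideanSpace ℝ (Fin (Module.finrank ℝ E1)) ≃L[ℝ] E1 :=
    ContinuousLinearEquiv.ofFinrankEq (by simp)
  obtain ⟨ι, hι⟩ : ∃ ι : EuclideanSpace ℝ (Fin (Module.finrank ℝ E1)) →L[ℝ] Y,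
      ∀ e ∈ E1, ∃ x, ι x = e :=
    ⟨E1.subtypeL.comp (j : _ →L[ℝ] E1), fun e he => ⟨j.symm ⟨e, he⟩, by simp⟩⟩
  clear j
  generalize Module.finrank ℝ E1 = d at ι hι
  have m0 := (hZ' u0).1 hu0
  obtain ⟨W0, V0, φ0, h2, h3⟩ := chart_at (onto _ (hQ u0 hu0)) ι hU hF hP m0.1
    ((hl u0 hu0).mono fun u' h e he => h e (congrArg Subtype.val he))
    (r := (τ.comp (ContinuousLinearMap.fst ℝ B _)).prod (ContinuousLinearMap.snd ℝ B _)) (by
      refine ⟨?_, ?_⟩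
      · rintro ⟨h, e⟩ h4 h5
        have h6 : e = 0 := congrArg Prod.snd h5
        rw [thick_apply, h6, map_zero, map_zero, map_zero, sub_zero] at h4
        rw [h6, hinj h (congrArg Subtype.val h4) (congrArg Prod.fst h5)]
        rfl
      · rintro y ⟨s, e⟩
        obtain ⟨h, h4, h5⟩ := hsurj (y.1 + Pe u0 (ι e)) s
        refine ⟨(h, e), ?_, Prod.ext h5 rfl⟩
        rw [thick_apply]
        refine Subtype.ext ?_
        show Q u0 (fderiv ℝ F u0 h) - Q u0 (Pe u0 (ι e)) = y.1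
        rw [h4, map_add, onto_self, add_sub_cancel_right])
  obtain ⟨q, ⟨u, hu, rfl⟩, h4⟩ := core (Z := (fun u => (u, (0 : EuclideanSpace ℝ (Fin d)))) '' Z)
    (ContinuousLinearMap.snd ℝ B _) (τ.comp (ContinuousLinearMap.fst ℝ B _)) (by
      rintro ⟨u, e⟩
      constructor
      · rintro ⟨u', hu', h4⟩
        obtain ⟨rfl, rfl⟩ := Prod.mk.inj h4
        obtain ⟨h5, h6, h7⟩ := (hZ' u').1 hu'
        exact ⟨⟨h5, by simpa using h6⟩, rfl, h7⟩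
      · rintro ⟨⟨h4, h5⟩, h6, h7⟩
        obtain rfl : e = 0 := h6
        exact ⟨u, (hZ' u).2 ⟨h4, by simpa using h5, h7⟩, rfl⟩)
    (hZ.image (by fun_prop)) (by
      rintro _ ⟨u, hu, rfl⟩
      obtain ⟨k, hk, h4⟩ := mem_iUnion₂.1 (ht hu)
      obtain ⟨n, r, h5⟩ := thick_bij (onto _ (hQ k.1 k.2)) ι (hprop k u h4).2.1 fun y => by
        obtain ⟨h, e, he, h5⟩ := (hprop k u h4).2.2 y
        obtain ⟨x, rfl⟩ := hι e (hle k hk he)
        exact ⟨h, x, h5⟩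
      exact ⟨n, r, chart_at _ ι hU hF hP ((hZ' u).1 hu).1
        (((hN k).eventually_mem h4).mono fun u' h => (hprop k u' h).1) h5⟩)
    ⟨u0, hu0, rfl⟩ hτ0 (by
      rintro _ ⟨u, hu, rfl⟩ h4
      rw [huniq u hu h4]) h2 h3
  exact ⟨u, hu, h4⟩

end Pool.Agent.Lib.MP_ccffa6_gt
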