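import Pool.Agent.Lib.MP_ccffa6_gt.T.ParC

open Set Topology Filter

namespace Pool.Agent.Lib.MP_ccffa6_gt.Par

variable {K E P : Type*} [NormedAddCommGroup K] [NormedSpace ℝ K] [FiniteDimensional ℝ K]
  [NormedAddCommGroup E] [InnerProductSpace ℝ E] [FiniteDimensional ℝ E]
  [NormedAddCommGroup P] [NormedSpace ℝ P] [FiniteDimensional ℝ P]

omit [FiniteDimensional ℝ K] in
theorem exists_orth {D : K →L[ℝ] E} (h : ¬ Function.Surjective D) {s : ℝ} (hs : 0 < s) :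
    ∃ v : E, ‖v‖ ^ 2 = s ∧ ∀ x, inner ℝ v (D x) = 0 := by
  have h1 : D.range ≠ ⊤ := fun e => h (LinearMap.range_eq_top.1 e)
  have h2 : D.rangeᗮ ≠ ⊥ := fun e => h1 (Submodule.orthogonal_eq_bot_iff.1 e)
  obtain ⟨v, hv, hv0⟩ := Submodule.exists_mem_ne_zero_of_ne_bot h2
  have h3 : 0 < ‖v‖ := norm_pos_iff.2 hv0
  refine ⟨(Real.sqrt s / ‖v‖) • v, ?_, fun x => ?_⟩
  · rw [norm_smul, Real.norm_eq_abs, abs_of_nonneg (by positivity), div_mul_cancel₀ _ h3.ne',
      Real.sq_sqrt hs.le]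
  · rw [inner_smul_left, Submodule.inner_left_of_mem_orthogonal
      (show D x ∈ D.range from LinearMap.mem_range_self _ x) hv, mul_zero]

theorem sard_chart (i : (K →L[ℝ] E) →L[ℝ] P) (π : P →L[ℝ] (K →L[ℝ] E)) (hπ : ∀ M, π (i M) = M)
    {V : Set K} (hV : IsOpen V) {f : K → E} {L : K → P →L[ℝ] E} (hf : ContDiffOn ℝ 2 f V)
    (hL : ContDiffOn ℝ 2 L V) (hi : ∀ x ∈ V, ∀ M, L x (i M) = M x) :
    ∃ S : Set (E × P × (K →L[ℝ] ℝ) × ℝ), dimH S ≤ Module.finrank ℝ (K × E × P) ∧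
      ∀ η A w s, 0 < s → (η, A, w, s) ∉ S → ∀ x ∈ V, f x - L x A = η →
        Function.Surjective (fderiv ℝ (fun y => f y - L y A) x) := by
  let D : K × E × P → K →L[ℝ] E := fun z => fderiv ℝ f z.1 - (fderiv ℝ L z.1).flip z.2.2
  let ro : E → (K →L[ℝ] ℝ) → K →L[ℝ] E := fun v w => (‖v‖ ^ 2)⁻¹ • w.smulRight v
  let A' : K × E × P → P := fun z => z.2.2 + i (ro z.2.1 ((innerSL ℝ z.2.1).comp (D z)))
  let Ξ : K × E × P → E × P × (K →L[ℝ] ℝ) × ℝ := fun z =>
    (f z.1 - L z.1 (A' z), A' z, (innerSL ℝ z.2.1).comp (π z.2.2), ‖z.2.1‖ ^ 2)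
  let Ω : Set (K × E × P) := {z | z.1 ∈ V ∧ z.2.1 ≠ 0}
  have hΩ : IsOpen Ω := (hV.preimage continuous_fst).inter
    (isOpen_ne_fun (continuous_fst.comp continuous_snd) continuous_const)
  have m1 : MapsTo Prod.fst Ω V := fun z hz => hz.1
  have c1 : ContDiffOn ℝ 1 (fun z : K × E × P => z.2.1) Ω := by fun_prop
  have c2 : ContDiffOn ℝ 1 (fun z : K × E × P => z.2.2) Ω := by fun_prop
  have c3 : ContDiffOn ℝ 1 (fun z : K × E × P => ‖z.2.1‖ ^ 2) Ω := c1.norm_sq ℝ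
  have c4 : ContDiffOn ℝ 1 (fun z : K × E × P => innerSL ℝ z.2.1) Ω :=
    (innerSL ℝ (E := E)).contDiff.comp_contDiffOn c1
  have c5 : ContDiffOn ℝ 1 D Ω := by
    refine ((hf.fderiv_of_isOpen hV (m := 1) (by norm_num)).comp contDiffOn_fst m1).sub ?_
    refine contDiffOn_clm_apply.2 fun y => ?_
    exact (((hL.fderiv_of_isOpen hV (m := 1) (by norm_num)).comp contDiffOn_fst m1).clm_apply
      contDiffOn_const).clm_apply c2
  have c6 : ContDiffOn ℝ 1 A' Ω := by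
    refine c2.add (i.contDiff.comp_contDiffOn ?_)
    refine (c3.inv fun z hz => pow_ne_zero 2 (norm_ne_zero_iff.2 hz.2)).smul ?_
    exact ((ContinuousLinearMap.smulRightL ℝ K E).contDiff.comp_contDiffOn
      (c4.clm_comp c5)).clm_apply c1
  have c7 : ContDiffOn ℝ 1 Ξ Ω := by
    refine ContDiffOn.prodMk ?_ (c6.prodMk (ContDiffOn.prodMk ?_ c3))
    · exact ((hf.of_le (by norm_num)).comp contDiffOn_fst m1).sub
        (((hL.of_le (by norm_num)).comp contDiffOn_fst m1).clm_apply c6)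
    · exact c4.clm_comp (π.contDiff.comp_contDiffOn c2)
  refine ⟨Ξ '' Ω, dimH_image_le_finrank hΩ c7, fun η A w s hs hS x hx hη => ?_⟩
  by_contra hns
  have d1 : HasFDerivAt f (fderiv ℝ f x) x :=
    ((hf.contDiffAt (hV.mem_nhds hx)).differentiableAt two_ne_zero).hasFDerivAt
  have d2 : HasFDerivAt L (fderiv ℝ L x) x :=
    ((hL.contDiffAt (hV.mem_nhds hx)).differentiableAt two_ne_zero).hasFDerivAt
  have d3 : ∀ A : P, HasFDerivAt (fun y => L y A) ((fderiv ℝ L x).flip A) x := fun A => by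
    simpa using d2.clm_apply (hasFDerivAt_const A x)
  have d4 : ∀ M, (fderiv ℝ L x).flip (i M) = M := fun M => by
    refine (d3 (i M)).unique (M.hasFDerivAt.congr_of_eventuallyEq ?_)
    filter_upwards [hV.mem_nhds hx] with y hy using hi y hy M
  rw [show fderiv ℝ (fun y => f y - L y A) x = fderiv ℝ f x - (fderiv ℝ L x).flip A from
    (d1.sub (d3 A)).fderiv] at hns
  obtain ⟨v, hv, hv'⟩ := exists_orth hns hs
  have hv0 : v ≠ 0 := fun e => by rw [e, norm_zero] at hv; simp at hv; exact hs.ne hv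
  have r1 : ∀ w, (innerSL ℝ v).comp (ro v w) = w := fun w => by
    ext y
    simp only [ro, ContinuousLinearMap.comp_apply, smul_apply,
      ContinuousLinearMap.smulRight_apply, innerSL_apply_apply, inner_smul_right,
      real_inner_self_eq_norm_sq, hv]
    field_simp
  have r2 : ∀ w, ro v (-w) = -ro v w := fun w => by
    ext y
    simp [ro]
  let w' : K →L[ℝ] ℝ := w - (innerSL ℝ v).comp (π A)
  have r3 : (innerSL ℝ v).comp (D (x, v, A + i (ro v w'))) = -w' := by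
    have e1 : D (x, v, A + i (ro v w')) =
        (fderiv ℝ f x - (fderiv ℝ L x).flip A) - ro v w' := by
      simp only [D, map_add, d4]
      abel
    have e2 : (innerSL ℝ v).comp (fderiv ℝ f x - (fderiv ℝ L x).flip A) = 0 := by
      ext y
      exact hv' y
    rw [e1, ContinuousLinearMap.comp_sub, e2, r1, zero_sub]
  have r4 : A' (x, v, A + i (ro v w')) = A := by
    simp only [A', r3, r2, map_neg]
    abel
  refine hS ⟨(x, v, A + i (ro v w')), ⟨hx, hv0⟩, ?_⟩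
  simp only [Ξ, r4, hη, hv, map_add, hπ, ContinuousLinearMap.comp_add, r1, w']
  rw [add_sub_cancel]

theorem sard_sigma (i : (K →L[ℝ] E) →L[ℝ] P) (π : P →L[ℝ] (K →L[ℝ] E)) (hπ : ∀ M, π (i M) = M)
    {V : Set K} (hV : IsOpen V) {g : K → E} {σ : K → ℝ} {L : K → P →L[ℝ] E}
    (hg : ContDiffOn ℝ 2 g V) (hσ : ContDiffOn ℝ 2 σ V)
    (hL : ContDiffOn ℝ 2 L V) (hi : ∀ x ∈ V, ∀ M, L x (i M) = M x) :
    ∃ S : Set (E × P × (K →L[ℝ] ℝ) × ℝ), dimH S ≤ Module.finrank ℝ (K × E × P) ∧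
      ∀ η A w s, 0 < s → (η, A, w, s) ∉ S → ∀ x ∈ V, σ x ≠ 0 → g x - σ x • (η + L x A) = 0 →
        Function.Surjective (fderiv ℝ (fun y => g y - σ y • (η + L y A)) x) := by
  have hV' : IsOpen (V ∩ σ ⁻¹' {0}ᶜ) :=
    hσ.continuousOn.isOpen_inter_preimage hV isOpen_compl_singleton
  have s1 : V ∩ σ ⁻¹' {0}ᶜ ⊆ V := inter_subset_left
  have hf : ContDiffOn ℝ 2 (fun y => (σ y)⁻¹ • g y) (V ∩ σ ⁻¹' {0}ᶜ) :=
    ((hσ.mono s1).inv fun y hy => hy.2).smul (hg.mono s1)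
  obtain ⟨S, hS, h⟩ := sard_chart i π hπ hV' hf (hL.mono s1) fun x hx => hi x hx.1
  refine ⟨S, hS, fun η A w s hs hn x hx hσx h0 => ?_⟩
  have hx' : x ∈ V ∩ σ ⁻¹' {0}ᶜ := ⟨hx, hσx⟩
  have e1 : (σ x)⁻¹ • g x - L x A = η := by
    rw [sub_eq_zero.1 h0, inv_smul_smul₀ hσx, add_sub_cancel_right]
  have h1 := h η A w s hs hn x hx' e1
  have d1 : DifferentiableAt ℝ (fun y => (σ y)⁻¹ • g y - L y A) x :=
    ((hf.contDiffAt (hV'.mem_nhds hx')).differentiableAt two_ne_zero).sub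
      (((hL.contDiffAt (hV.mem_nhds hx)).differentiableAt two_ne_zero).clm_apply
        (differentiableAt_const A))
  have d2 : DifferentiableAt ℝ σ x :=
    (hσ.contDiffAt (hV.mem_nhds hx)).differentiableAt two_ne_zero
  have d3 := d2.hasFDerivAt.smul (d1.hasFDerivAt.sub_const η)
  have d4 : HasFDerivAt (fun y => g y - σ y • (η + L y A))
      (σ x • fderiv ℝ (fun y => (σ y)⁻¹ • g y - L y A) x) x := by
    rw [e1, sub_self, ContinuousLinearMap.smulRight_zero, add_zero] at d3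
    refine d3.congr_of_eventuallyEq ?_
    filter_upwards [hV'.mem_nhds hx'] with y hy
    have h2 : σ y ≠ 0 := hy.2
    simp only [Pi.smul_apply', smul_sub, smul_add, smul_inv_smul₀ h2]
    abel
  rw [d4.fderiv]
  intro z
  obtain ⟨y, hy⟩ := h1 ((σ x)⁻¹ • z)
  exact ⟨y, by rw [smul_apply, hy, smul_inv_smul₀ hσx]⟩

omit [FiniteDimensional ℝ P] [FiniteDimensional ℝ E] in
theorem exists_bij_one (hd : Module.finrank ℝ K = Module.finrank ℝ E + 1) {A : K →L[ℝ] E}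
    (hA : Function.Surjective A) : ∃ s : K →L[ℝ] ℝ, Bij A s := by
  refine exists_bij A hA ?_
  have h1 := (A : K →ₗ[ℝ] E).finrank_range_add_finrank_ker
  rw [LinearMap.range_eq_top.2 hA, finrank_top, hd] at h1
  rw [Module.finrank_self]
  omega

theorem finrank_lt (hd : Module.finrank ℝ K = Module.finrank ℝ E + 1) :
    Module.finrank ℝ (K × E × P) < Module.finrank ℝ (E × P × (K →L[ℝ] ℝ) × ℝ) := by
  have h1 : Module.finrank ℝ (K →L[ℝ] ℝ) = Module.finrank ℝ K := by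
    rw [← (LinearMap.toContinuousLinearMap (𝕜 := ℝ) (E := K) (F' := ℝ)).finrank_eq,
      Module.finrank_linearMap, Module.finrank_self, mul_one]
  simp only [Module.finrank_prod, h1, Module.finrank_self, hd]
  omega

end Pool.Agent.Lib.MP_ccffa6_gt.Par
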