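import Pool.Agent.Lib.MP_ccffa6_gt.T.Base0

/-! Contour integrals over the boundary of the square. -/

open Set Filter Topology MeasureTheory
open scoped ContDiff ComplexConjugate Real

noncomputable section

namespace Pool.Agent.Lib.MP_ccffa6_gt

/-- Holomorphic near the square. -/
def HolSq (f : ℂ → ℂ) : Prop := ∃ U : Set ℂ, IsOpen U ∧ Sq ⊆ U ∧ DifferentiableOn ℂ f U

/-- `∮ f dz` over the boundary of the square. -/
def cint (f : ℂ → ℂ) : ℂ :=
  (∫ x : ℝ in -(π / 2)..π / 2, f (x + (-(π / 2) : ℝ) * Complex.I)) -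
    (∫ x : ℝ in -(π / 2)..π / 2, f (x + (π / 2 : ℝ) * Complex.I)) +
    Complex.I * (∫ y : ℝ in -(π / 2)..π / 2, f ((π / 2 : ℝ) + y * Complex.I)) -
    Complex.I * ∫ y : ℝ in -(π / 2)..π / 2, f ((-(π / 2) : ℝ) + y * Complex.I)

theorem HolSq.analyticAt {f : ℂ → ℂ} (h : HolSq f) {z : ℂ} (hz : z ∈ Sq) : AnalyticAt ℂ f z :=
  let ⟨_, hU, hs, hd⟩ := h
  hd.analyticAt (hU.mem_nhds (hs hz))

theorem holSq_of_analyticAt {f : ℂ → ℂ} (h : ∀ z ∈ Sq, AnalyticAt ℂ f z) : HolSq f :=
  ⟨{z | AnalyticAt ℂ f z}, isOpen_analyticAt ℂ f, h,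
    fun _ hz => hz.differentiableAt.differentiableWithinAt⟩

theorem HolSq.continuousOn {f : ℂ → ℂ} (h : HolSq f) : ContinuousOn f Sq :=
  fun _ hz => (h.analyticAt hz).continuousAt.continuousWithinAt

theorem HolSq.deriv {f : ℂ → ℂ} (h : HolSq f) : HolSq (deriv f) :=
  holSq_of_analyticAt fun _ hz => (h.analyticAt hz).deriv

theorem HolSq.const (c : ℂ) : HolSq fun _ => c := holSq_of_analyticAt fun _ _ => analyticAt_const

theorem HolSq.id : HolSq fun z => z := holSq_of_analyticAt fun _ _ => analyticAt_id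

theorem HolSq.add {f g : ℂ → ℂ} (hf : HolSq f) (hg : HolSq g) : HolSq fun z => f z + g z :=
  holSq_of_analyticAt fun _ hz => (hf.analyticAt hz).add (hg.analyticAt hz)

theorem HolSq.sub {f g : ℂ → ℂ} (hf : HolSq f) (hg : HolSq g) : HolSq fun z => f z - g z :=
  holSq_of_analyticAt fun _ hz => (hf.analyticAt hz).sub (hg.analyticAt hz)

theorem HolSq.mul {f g : ℂ → ℂ} (hf : HolSq f) (hg : HolSq g) : HolSq fun z => f z * g z :=
  holSq_of_analyticAt fun _ hz => (hf.analyticAt hz).mul (hg.analyticAt hz)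

theorem HolSq.div {f g : ℂ → ℂ} (hf : HolSq f) (hg : HolSq g) (h : ∀ z ∈ Sq, g z ≠ 0) :
    HolSq fun z => f z / g z :=
  holSq_of_analyticAt fun z hz => (hf.analyticAt hz).div (hg.analyticAt hz) (h z hz)

theorem HolSq.dslope {f : ℂ → ℂ} (hf : HolSq f) {y : ℂ} (hy : y ∈ Sq) : HolSq (dslope f y) :=
  let ⟨U, hU, hs, hd⟩ := hf
  ⟨U, hU, hs, (Complex.differentiableOn_dslope (hU.mem_nhds (hs hy))).2 hd⟩

/-- Vanishing derivative on the (convex) square. -/
theorem HolSq.const_of_deriv {f : ℂ → ℂ} (hf : HolSq f) (h : ∀ z ∈ Sq, _root_.deriv f z = 0) :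
    ∀ z ∈ Sq, f z = f z1 := by
  intro z hz
  have h1 := convex_sq.norm_image_sub_le_of_norm_deriv_le (𝕜 := ℂ) (C := 0)
    (fun w hw => (hf.analyticAt hw).differentiableAt) (fun w hw => by rw [h w hw, norm_zero])
    z1_mem.1 hz
  rwa [zero_mul, norm_le_zero_iff, sub_eq_zero] at h1

/-- A continuous nonnegative function with integral zero vanishes on the square. -/
theorem eq_zero_of_integral_sq {e : ℂ → ℝ} (he : ContinuousOn e Sq) (h0 : ∀ z ∈ Sq, 0 ≤ e z)
    (h : ∫ z in Sq, e z = 0) : ∀ z ∈ Sq, e z = 0 := by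
  have h1 := (setIntegral_eq_zero_iff_of_nonneg_ae
    ((ae_restrict_iff' measurableSet_sq).2 (Eventually.of_forall h0))
    (he.integrableOn_compact isCompact_sq)).1 h
  exact Measure.eqOn_of_ae_eq h1 he continuousOn_const closure_interior_sq.ge

theorem SA_pos : |π / 2| = π / 2 := abs_of_pos Real.pi_div_two_pos

theorem SA_neg : |-(π / 2)| = π / 2 := (abs_neg _).trans SA_pos

theorem SA_le : -(π / 2) ≤ π / 2 := by linarith [Real.pi_pos]

theorem SA_hor {c x : ℝ} (hc : |c| = π / 2) (hx : x ∈ uIcc (-(π / 2)) (π / 2)) :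
    (x + c * Complex.I : ℂ) ∈ SqB := by
  rw [uIcc_of_le SA_le] at hx
  exact ⟨⟨by simpa using abs_le.2 hx, by simpa using hc.le⟩, .inr (by simpa using hc)⟩

theorem SA_ver {c y : ℝ} (hc : |c| = π / 2) (hy : y ∈ uIcc (-(π / 2)) (π / 2)) :
    (c + y * Complex.I : ℂ) ∈ SqB := by
  rw [uIcc_of_le SA_le] at hy
  exact ⟨⟨by simpa using hc.le, by simpa using abs_le.2 hy⟩, .inl (by simpa using hc)⟩

theorem SA_green {f : ℂ → ℂ} (h : ∀ z ∈ Sq, ContDiffAt ℝ 1 f z) :
    cint f = ∫ z in Sq, (Complex.I * px f z - py f z) := by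
  have h1 := green (P := f) (Q := fun z => Complex.I * f z) SA_le SA_le (sq_eq_rect ▸ h)
    (sq_eq_rect ▸ fun z hz => contDiffAt_const.mul (h z hz))
  rw [← sq_eq_rect] at h1
  simp only [intervalIntegral.integral_const_mul] at h1
  rw [cint, ← h1]
  refine setIntegral_congr_fun measurableSet_sq fun z hz => ?_
  simp only [px]
  rw [fderiv_const_mul ((h z hz).differentiableAt one_ne_zero)]
  rfl

theorem cint_congr {f g : ℂ → ℂ} (h : EqOn f g SqB) : cint f = cint g := by
  have a := fun (c : ℝ) (hc : |c| = π / 2) => intervalIntegral.integral_congr (μ := volume)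
    (f := fun x : ℝ => f (x + c * Complex.I)) (g := fun x : ℝ => g (x + c * Complex.I))
    fun x hx => h (SA_hor hc hx)
  have b := fun (c : ℝ) (hc : |c| = π / 2) => intervalIntegral.integral_congr (μ := volume)
    (f := fun y : ℝ => f (c + y * Complex.I)) (g := fun y : ℝ => g (c + y * Complex.I))
    fun x hx => h (SA_ver hc hx)
  rw [cint, cint, a _ SA_neg, a _ SA_pos, b _ SA_neg, b _ SA_pos]

theorem cint_add {f g : ℂ → ℂ} (hf : ContinuousOn f SqB) (hg : ContinuousOn g SqB) :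
    cint (fun z => f z + g z) = cint f + cint g := by
  have a : ∀ {h : ℂ → ℂ}, ContinuousOn h SqB → ∀ c : ℝ, |c| = π / 2 →
      IntervalIntegrable (fun x : ℝ => h (x + c * Complex.I)) volume (-(π / 2)) (π / 2) :=
    fun hh c hc => (hh.comp (by fun_prop) fun _ hx => SA_hor hc hx).intervalIntegrable
  have b : ∀ {h : ℂ → ℂ}, ContinuousOn h SqB → ∀ c : ℝ, |c| = π / 2 →
      IntervalIntegrable (fun y : ℝ => h (c + y * Complex.I)) volume (-(π / 2)) (π / 2) :=
    fun hh c hc => (hh.comp (by fun_prop) fun _ hx => SA_ver hc hx).intervalIntegrable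
  simp only [cint]
  rw [intervalIntegral.integral_add (a hf _ SA_neg) (a hg _ SA_neg),
    intervalIntegral.integral_add (a hf _ SA_pos) (a hg _ SA_pos),
    intervalIntegral.integral_add (b hf _ SA_neg) (b hg _ SA_neg),
    intervalIntegral.integral_add (b hf _ SA_pos) (b hg _ SA_pos)]
  ring

theorem cint_const_mul (c : ℂ) (f : ℂ → ℂ) : cint (fun z => c * f z) = c * cint f := by
  simp only [cint, intervalIntegral.integral_const_mul]
  ring

theorem HolSq.cint_eq_zero {f : ℂ → ℂ} (h : HolSq f) : cint f = 0 := by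
  rw [SA_green fun z hz => ((h.analyticAt hz).contDiffAt (n := 1)).restrict_scalars ℝ]
  refine setIntegral_eq_zero_of_forall_eq_zero fun z hz => ?_
  obtain ⟨h1, h2⟩ := cr_of_hasDerivAt (h.analyticAt hz).differentiableAt.hasDerivAt
  rw [h1, h2, smul_eq_mul, sub_self]

/-- Green's formula in complex form (`green` with `P = f`, `Q = i f`). -/
theorem cint_green {f : ℂ → ℂ} (h : ∀ z ∈ Sq, ContDiffAt ℝ 1 f z) :
    cint f = ∫ z in Sq, (Complex.I * px f z - py f z) := SA_green h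

end Pool.Agent.Lib.MP_ccffa6_gt
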