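import Pool.Agent.Lib.MP_ccffa6_gt.T.SA

/-! Cauchy's formula and the argument principle for the square. -/

open Set Filter Topology MeasureTheory
open scoped ContDiff ComplexConjugate Real

noncomputable section

namespace Pool.Agent.Lib.MP_ccffa6_gt

theorem SB_seg (c q : ℂ) (a b : ℝ) (γ : ℝ → ℂ) (hγ : ∀ t, HasDerivAt γ q t)
    (h : ∀ t, c * γ t ∈ Complex.slitPlane) :
    q * ∫ t in a..b, (γ t)⁻¹ = Complex.log (c * γ b) - Complex.log (c * γ a) := by
  have h0 : ∀ t, c * γ t ≠ 0 := fun t => Complex.slitPlane_ne_zero (h t)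
  have hc : Continuous γ := continuous_iff_continuousAt.2 fun t => (hγ t).continuousAt
  rw [← intervalIntegral.integral_const_mul]
  refine intervalIntegral.integral_eq_sub_of_hasDerivAt (f := fun t => Complex.log (c * γ t))
    (fun t _ => ?_) ?_
  · refine (((hγ t).const_mul c).clog_real (h t)).congr_deriv ?_
    rw [mul_div_mul_left _ _ (left_ne_zero_of_mul (h0 t)), div_eq_mul_inv]
  · exact (continuous_const.mul
      (hc.inv₀ fun t => right_ne_zero_of_mul (h0 t))).intervalIntegrable _ _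

theorem SB_log {x : ℂ} (h : 0 < x.im) : Complex.log (-x) = Complex.log x - π * Complex.I := by
  rw [Complex.log, Complex.log, Complex.arg_neg_eq_arg_sub_pi_of_im_pos h, norm_neg]
  push_cast
  ring

theorem SB_ne {y z : ℂ} (hy : y ∈ interior Sq) (hz : z ∈ SqB) : z - y ≠ 0 := by
  rw [interior_sq] at hy
  exact sub_ne_zero.2 fun e => hy.2 (e ▸ hz)

theorem cint_inv {y : ℂ} (hy : y ∈ interior Sq) :
    cint (fun z => (z - y)⁻¹) = 2 * π * Complex.I := by
  rw [sq_eq_rect, Base0_int, Complex.mem_reProdIm] at hy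
  obtain ⟨⟨h1, h2⟩, h3, h4⟩ := hy
  have hI : ∀ t : ℝ, HasDerivAt (fun x : ℝ => x * Complex.I) Complex.I t := fun t => by
    simpa using (Complex.ofRealCLM.hasDerivAt (x := t)).mul_const Complex.I
  have e1 := SB_seg 1 1 (-(π / 2)) (π / 2) (fun x => x + (-(π / 2) : ℝ) * Complex.I - y)
    (fun t => (Complex.ofRealCLM.hasDerivAt.add_const _).sub_const _)
    fun t => .inr (by simp; linarith)
  have e2 := SB_seg 1 1 (-(π / 2)) (π / 2) (fun x => x + (π / 2 : ℝ) * Complex.I - y)
    (fun t => (Complex.ofRealCLM.hasDerivAt.add_const _).sub_const _)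
    fun t => .inr (by simp; linarith)
  have e3 := SB_seg 1 Complex.I (-(π / 2)) (π / 2) (fun x => (π / 2 : ℝ) + x * Complex.I - y)
    (fun t => ((hI t).const_add _).sub_const y)
    fun t => .inl (by simp; linarith)
  have e4 := SB_seg (-1) Complex.I (-(π / 2)) (π / 2)
    (fun x => (-(π / 2) : ℝ) + x * Complex.I - y)
    (fun t => ((hI t).const_add _).sub_const y)
    fun t => .inl (by simp; linarith)
  simp only [one_mul, neg_one_mul] at e1 e2 e3 e4
  have e5 := SB_log (x := -((-(π / 2) : ℝ) + (-(π / 2) : ℝ) * Complex.I - y)) (by simp; linarith)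
  have e6 := SB_log (x := (-(π / 2) : ℝ) + (π / 2 : ℝ) * Complex.I - y) (by simp; linarith)
  rw [neg_neg] at e5
  rw [cint, e1, e2, e3, e4]
  linear_combination -e5 - e6

theorem HolSq.cauchy {g : ℂ → ℂ} (hg : HolSq g) {y : ℂ} (hy : y ∈ interior Sq) :
    cint (fun z => g z / (z - y)) = 2 * π * Complex.I * g y := by
  have hd := hg.dslope (interior_subset hy)
  have e : EqOn (fun z => g z / (z - y)) (fun z => _root_.dslope g y z + g y * (z - y)⁻¹) SqB :=
    fun z hz => by
      have h0 := SB_ne hy hz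
      have h1 := sub_smul_dslope g y z
      rw [smul_eq_mul] at h1
      change g z / (z - y) = _root_.dslope g y z + g y * (z - y)⁻¹
      field_simp
      linear_combination -h1
  have hc : ContinuousOn (fun z => g y * (z - y)⁻¹) SqB := continuousOn_const.mul
    ((continuousOn_id.sub continuousOn_const).inv₀ fun z hz => SB_ne hy hz)
  rw [cint_congr e, cint_add (hd.continuousOn.mono fun _ h => h.1) hc, hd.cint_eq_zero,
    cint_const_mul, cint_inv hy]
  ring

theorem SB_one {f : ℂ → ℂ} (hf : HolSq f) {y : ℂ} (hy : y ∈ Sq) (h : ¬∀ᶠ w in 𝓝 y, f w = 0) :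
    ∃ (n : ℕ) (g : ℂ → ℂ), HolSq g ∧ g y ≠ 0 ∧ ∀ w, f w = (w - y) ^ n * g w := by
  classical
  obtain ⟨n, g, h1, h2, h3⟩ := (hf.analyticAt hy).exists_eventuallyEq_pow_smul_nonzero_iff.2 h
  refine ⟨n, fun w => if w = y then g y else f w / (w - y) ^ n,
    holSq_of_analyticAt fun z hz => ?_, by simpa using h2, fun w => ?_⟩
  · by_cases e : z = y
    · subst e
      refine h1.congr (h3.mono fun w hw => ?_)
      by_cases e : w = z
      · simp [e]
      · simp only [e, if_false]
        rw [hw, smul_eq_mul, mul_div_cancel_left₀ _ (pow_ne_zero _ (sub_ne_zero.2 e))]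
    · refine ((hf.analyticAt hz).div ((analyticAt_id.sub analyticAt_const).pow n)
        (pow_ne_zero _ (sub_ne_zero.2 e))).congr ?_
      filter_upwards [isOpen_compl_singleton.mem_nhds e] with w hw
      exact (if_neg hw).symm
  · by_cases e : w = y
    · subst e
      simpa using h3.self_of_nhds
    · simp only [e, if_false]
      rw [mul_div_cancel₀ _ (pow_ne_zero _ (sub_ne_zero.2 e))]

theorem SB_fin (T : Finset ℂ) : ∀ {f : ℂ → ℂ}, HolSq f → (∀ z ∈ SqB, f z ≠ 0) →
    (∀ z ∈ Sq, f z = 0 → z ∈ T) → ∃ (s : List ℂ) (f₁ : ℂ → ℂ), (∀ y ∈ s, y ∈ interior Sq) ∧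
      HolSq f₁ ∧ (∀ z ∈ Sq, f₁ z ≠ 0) ∧ ∀ w, f w = (s.map fun y => w - y).prod * f₁ w := by
  classical
  induction T using Finset.induction_on with
  | empty => exact fun {f} hf _ hT => ⟨[], f, by simp, hf, by simpa using hT, by simp⟩
  | insert y T _ ih =>
    intro f hf h hT
    by_cases hy : y ∈ interior Sq
    · obtain ⟨n, g, h1, h2, h3⟩ := SB_one hf (interior_subset hy) fun h0 =>
        infinite_of_mem_nhds y (h0.and (mem_interior_iff_mem_nhds.1 hy))
          ((insert y T).finite_toSet.subset fun w hw => hT w hw.2 hw.1)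
      obtain ⟨s, f₁, h4, h5, h6, h7⟩ := ih h1
        (fun z hz e => h z hz (by rw [h3, e, mul_zero])) fun z hz e =>
        (Finset.mem_insert.1 (hT z hz (by rw [h3, e, mul_zero]))).resolve_left
          fun e' => h2 (e' ▸ e)
      refine ⟨List.replicate n y ++ s, f₁, fun x hx => ?_, h5, h6, fun w => ?_⟩
      · rcases List.mem_append.1 hx with hx | hx
        · exact List.eq_of_mem_replicate hx ▸ hy
        · exact h4 x hx
      · rw [h3, h7, List.map_append, List.prod_append, List.map_replicate, List.prod_replicate,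
          mul_assoc]
    · refine ih hf h fun z hz e => (Finset.mem_insert.1 (hT z hz e)).resolve_left fun e' => hy ?_
      rw [interior_sq, ← e']
      exact ⟨hz, fun hb => h z hb e⟩

theorem HolSq.exists_factor {f : ℂ → ℂ} (hf : HolSq f) (h : ∀ z ∈ SqB, f z ≠ 0) :
    ∃ (s : List ℂ) (f₁ : ℂ → ℂ), (∀ y ∈ s, y ∈ interior Sq) ∧ HolSq f₁ ∧ (∀ z ∈ Sq, f₁ z ≠ 0) ∧
      ∀ z ∈ Sq, ∀ᶠ w in 𝓝 z, f w = (s.map fun y => w - y).prod * f₁ w := by
  have ha : AnalyticOnNhd ℂ f Sq := fun z hz => hf.analyticAt hz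
  rcases ha.eqOn_zero_or_eventually_ne_zero_of_preconnected convex_sq.isPreconnected with h1 | h1
  · exact absurd (h1 z1_mem.1) (h _ z1_mem)
  · have h2 := isCompact_sq.finite_sdiff_of_mem_codiscreteWithin h1
    obtain ⟨s, f₁, h3, h4, h5, h6⟩ := SB_fin h2.toFinset hf h fun z hz e =>
      h2.mem_toFinset.2 ⟨hz, fun h' => h' e⟩
    exact ⟨s, f₁, h3, h4, h5, fun z _ => Eventually.of_forall h6⟩

theorem SB_arg {f₁ g : ℂ → ℂ} (h₁ : HolSq f₁) (h0 : ∀ z ∈ Sq, f₁ z ≠ 0) (hg : HolSq g)
    (s : List ℂ) (hs : ∀ y ∈ s, y ∈ interior Sq) :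
    HolSq (fun w => (s.map fun y => w - y).prod * f₁ w) ∧
      (∀ z ∈ SqB, (s.map fun y => z - y).prod * f₁ z ≠ 0) ∧
      cint (fun z => g z * deriv (fun w => (s.map fun y => w - y).prod * f₁ w) z /
        ((s.map fun y => z - y).prod * f₁ z)) = 2 * π * Complex.I * (s.map g).sum := by
  induction s with
  | nil =>
    simp only [List.map_nil, List.prod_nil, one_mul, List.sum_nil, mul_zero]
    exact ⟨h₁, fun z hz => h0 z hz.1, ((hg.mul h₁.deriv).div h₁ h0).cint_eq_zero⟩
  | cons y s ih =>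
    obtain ⟨h1, h2, h3⟩ := ih fun x hx => hs x (List.mem_cons_of_mem _ hx)
    have hy := hs y List.mem_cons_self
    simp only [List.map_cons, List.prod_cons, mul_assoc _ _ (f₁ _), List.sum_cons]
    generalize hF : (fun w => (s.map fun y => w - y).prod * f₁ w) = F at h1 h3
    have hF' : ∀ w, (s.map fun y => w - y).prod * f₁ w = F w := fun w => congrFun hF w
    simp only [hF'] at h2 h3 ⊢
    refine ⟨(HolSq.id.sub (HolSq.const y)).mul h1, fun z hz => mul_ne_zero (SB_ne hy hz) (h2 z hz),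
      ?_⟩
    have e : EqOn (fun z => g z * deriv (fun w => (w - y) * F w) z / ((z - y) * F z))
        (fun z => g z / (z - y) + g z * deriv F z / F z) SqB := fun z hz => by
      have h4 := ((hasDerivAt_id z).sub_const y).mul
        (h1.analyticAt hz.1).differentiableAt.hasDerivAt
      have h5 : deriv (fun w => (w - y) * F w) z = 1 * F z + (z - y) * deriv F z := h4.deriv
      have h6 := SB_ne hy hz
      have h7 := h2 z hz
      change g z * deriv (fun w => (w - y) * F w) z / ((z - y) * F z) =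
        g z / (z - y) + g z * deriv F z / F z
      rw [h5]
      field_simp
    have hb : SqB ⊆ Sq := fun _ h => h.1
    have c1 : ContinuousOn (fun z => g z / (z - y)) SqB := (hg.continuousOn.mono hb).div
      (continuousOn_id.sub continuousOn_const) fun z hz => SB_ne hy hz
    have c2 : ContinuousOn (fun z => g z * deriv F z / F z) SqB :=
      ((hg.mul h1.deriv).continuousOn.mono hb).div (h1.continuousOn.mono hb) h2
    rw [cint_congr e, cint_add c1 c2, hg.cauchy hy, h3]
    ring

/-- The argument principle. -/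
theorem cint_logDeriv {f f₁ g : ℂ → ℂ} {s : List ℂ} (hs : ∀ y ∈ s, y ∈ interior Sq)
    (h₁ : HolSq f₁) (h0 : ∀ z ∈ Sq, f₁ z ≠ 0)
    (hf : ∀ z ∈ Sq, ∀ᶠ w in 𝓝 z, f w = (s.map fun y => w - y).prod * f₁ w) (hg : HolSq g) :
    cint (fun z => g z * deriv f z / f z) = 2 * π * Complex.I * (s.map g).sum := by
  rw [← (SB_arg h₁ h0 hg s hs).2.2]
  refine cint_congr fun z hz => ?_
  have h := hf z hz.1
  change g z * deriv f z / f z = _
  rw [Filter.EventuallyEq.deriv_eq h, h.self_of_nhds]

end Pool.Agent.Lib.MP_ccffa6_gt
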