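import Pool.Agent.Lib.MP_ccffa6_gt.T.SB
import Pool.Agent.Lib.MP_ccffa6_gt.T.Base1

/-! Inner functions of the square.

`Inner.area`: `cint_green` for `F = g w' conj w` gives `i F_x - F_y = 2 i g |w'|²`, and
`conj w = 1 / w` on the boundary. `const_of_re`: the same with `F = f' conj f`, `conj f = -f` on
the boundary, `cint (f' f) = 0`, so `f' = 0`.
`Kap.unique`: the list of zeros of `w` has length one, `κ y = 0` so it is `[0]`; the same for `κ`;
`w / κ = w₁ / κ₁` is a zero free inner function.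
`Inner.refl`: `w ↦ f (r w) * conj (f w)` is antiholomorphic near the side and equals `1` on it. -/

open Set Filter Topology MeasureTheory
open scoped ContDiff ComplexConjugate Real

noncomputable section

namespace Pool.Agent.Lib.MP_ccffa6_gt

/-- Inner functions. -/
def Inner (w : ℂ → ℂ) : Prop := HolSq w ∧ ∀ z ∈ SqB, ‖w z‖ = 1

theorem Kap.inner {κ : ℂ → ℂ} (h : Kap κ) : Inner κ := ⟨h.hol, h.bd⟩

theorem Inner.norm_le {w : ℂ → ℂ} (h : Inner w) {z : ℂ} (hz : z ∈ Sq) : ‖w z‖ ≤ 1 := by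
  refine Complex.norm_le_of_forall_mem_frontier_norm_le isCompact_sq.isBounded
    (DifferentiableOn.diffContOnCl ?_) (fun y hy => (h.2 y (frontier_sq ▸ hy)).le)
    (subset_closure hz)
  rw [isCompact_sq.isClosed.closure_eq]
  exact fun y hy => (h.1.analyticAt hy).differentiableAt.differentiableWithinAt

theorem SC_green {a w : ℂ → ℂ} (ha : HolSq a) (hw : HolSq w) :
    cint (fun z => a z * conj (w z)) = 2 * Complex.I * ∫ z in Sq, a z * conj (deriv w z) := by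
  have c : ∀ {f : ℂ → ℂ}, HolSq f → ∀ z ∈ Sq, ContDiffAt ℝ 1 f z := fun hf z hz =>
    (hf.analyticAt hz).contDiffAt.restrict_scalars ℝ
  rw [cint_green (f := fun z => a z * conj (w z)) fun z hz => (c ha z hz).mul
    (Complex.conjCLE.contDiff.contDiffAt.comp z (c hw z hz)), ← integral_const_mul]
  refine setIntegral_congr_fun measurableSet_sq fun z hz => ?_
  obtain ⟨a1, a2⟩ := cr_of_hasDerivAt (ha.analyticAt hz).differentiableAt.hasDerivAt
  obtain ⟨w1, w2⟩ := cr_of_hasDerivAt (hw.analyticAt hz).differentiableAt.hasDerivAt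
  have hF := (((c ha z hz).differentiableAt one_ne_zero).hasFDerivAt.mul
    (Complex.conjCLE.hasFDerivAt.comp z
      ((c hw z hz).differentiableAt one_ne_zero).hasFDerivAt)).fderiv
  have key : ∀ v, fderiv ℝ (fun z => a z * conj (w z)) z v =
      a z * conj (fderiv ℝ w z v) + conj (w z) * fderiv ℝ a z v := fun v =>
    congrArg (· v) hF
  simp only [px, py] at a1 a2 w1 w2
  show Complex.I * fderiv ℝ (fun z => a z * conj (w z)) z 1 -
    fderiv ℝ (fun z => a z * conj (w z)) z Complex.I = _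
  rw [key, key, a1, a2, w1, w2]
  simp only [smul_eq_mul, map_mul, Complex.conj_I]
  ring

theorem SC_sq (g a : ℂ) : g * a * conj a = g * ((‖a‖ ^ 2 : ℝ) : ℂ) := by
  rw [mul_assoc, Complex.mul_conj, Complex.normSq_eq_norm_sq]

theorem SC_zero {f : ℂ → ℂ} (hf : HolSq f)
    (h : ∫ z in Sq, (1 : ℂ) * ((‖deriv f z‖ ^ 2 : ℝ) : ℂ) = 0) : ∀ z ∈ Sq, deriv f z = 0 := by
  simp only [one_mul] at h
  rw [integral_complex_ofReal, Complex.ofReal_eq_zero] at h
  intro z hz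
  have h1 := eq_zero_of_integral_sq (hf.deriv.continuousOn.norm.pow 2)
    (fun _ _ => sq_nonneg _) h z hz
  exact norm_eq_zero.1 (pow_eq_zero_iff two_ne_zero |>.1 h1)

theorem Inner.area {w w₁ g : ℂ → ℂ} {s : List ℂ} (h : Inner w) (hs : ∀ y ∈ s, y ∈ interior Sq)
    (h₁ : HolSq w₁) (h0 : ∀ z ∈ Sq, w₁ z ≠ 0)
    (hf : ∀ z ∈ Sq, ∀ᶠ v in 𝓝 z, w v = (s.map fun y => v - y).prod * w₁ v) (hg : HolSq g) :
    ∫ z in Sq, g z * ((‖deriv w z‖ ^ 2 : ℝ) : ℂ) = π * (s.map g).sum := by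
  have e1 := SC_green (hg.mul h.1.deriv) h.1
  have e2 : cint (fun z => g z * deriv w z * conj (w z)) =
      cint (fun z => g z * deriv w z / w z) := cint_congr fun z hz => by
    simp only [div_eq_mul_inv, Complex.inv_eq_conj (h.2 z hz)]
  rw [e2, cint_logDeriv hs h₁ h0 hf hg] at e1
  simp only [SC_sq] at e1
  apply mul_left_cancel₀ (mul_ne_zero two_ne_zero Complex.I_ne_zero)
  rw [← e1]
  ring

theorem Inner.deriv_eq_zero {w : ℂ → ℂ} (h : Inner w) (h0 : ∀ z ∈ Sq, w z ≠ 0) :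
    ∀ z ∈ Sq, deriv w z = 0 := by
  refine SC_zero h.1 ?_
  have e := h.area (s := []) (by simp) h.1 h0 (by simp) (HolSq.const 1)
  simpa only [List.map_nil, List.sum_nil, mul_zero] using e

theorem HolSq.const_of_re {f : ℂ → ℂ} (hf : HolSq f) (h : ∀ z ∈ SqB, (f z).re = 0) :
    ∀ z ∈ Sq, _root_.deriv f z = 0 := by
  refine SC_zero hf ?_
  have e1 := SC_green ((HolSq.const 1).mul hf.deriv) hf
  have e2 : cint (fun z => 1 * _root_.deriv f z * conj (f z)) =
      cint (fun z => -1 * (_root_.deriv f z * f z)) := cint_congr fun z hz => by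
    have e : conj (f z) = -f z := Complex.ext (by simp [h z hz]) (by simp)
    simp only [e]
    ring
  rw [e2, cint_const_mul, (hf.deriv.mul hf).cint_eq_zero, mul_zero] at e1
  simp only [SC_sq] at e1
  exact (mul_eq_zero.1 e1.symm).resolve_left (mul_ne_zero two_ne_zero Complex.I_ne_zero)

theorem SC_zero_mem : (0 : ℂ) ∈ Sq := interior_subset zero_mem_interior_sq

/-- `κ = z κ₁` with `κ₁` zero free. -/
theorem Kap.factor {κ : ℂ → ℂ} (h : Kap κ) :
    HolSq (dslope κ 0) ∧ (∀ z ∈ Sq, dslope κ 0 z ≠ 0) ∧ ∀ z, κ z = z * dslope κ 0 z := by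
  have e : ∀ z, κ z = z * dslope κ 0 z := fun z => by
    have h1 := sub_smul_dslope κ 0 z
    rw [sub_zero, (h.zero 0 SC_zero_mem).2 rfl, sub_zero, smul_eq_mul] at h1
    exact h1.symm
  refine ⟨h.inner.1.dslope SC_zero_mem, fun z hz h1 => ?_, e⟩
  have h2 : z = 0 := (h.zero z hz).1 (by rw [e, h1, mul_zero])
  rw [h2, dslope_same] at h1
  exact h.simple h1

theorem Kap.integral {κ g : ℂ → ℂ} (h : Kap κ) (hg : HolSq g) :
    ∫ z in Sq, g z * ((‖deriv κ z‖ ^ 2 : ℝ) : ℂ) = π * g 0 := by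
  obtain ⟨h1, h2, h3⟩ := h.factor
  have e := h.inner.area (s := [0]) (by simpa using zero_mem_interior_sq) h1 h2
    (fun _ _ => Eventually.of_forall fun v => by simpa using h3 v) hg
  simpa only [List.map_cons, List.map_nil, List.sum_cons, List.sum_nil, add_zero] using e

theorem Kap.area {κ : ℂ → ℂ} (h : Kap κ) : ∫ z in Sq, ‖deriv κ z‖ ^ 2 = π := by
  have e := h.integral (HolSq.const 1)
  simp only [one_mul, mul_one] at e
  rwa [integral_complex_ofReal, Complex.ofReal_inj] at e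

theorem Kap.moment_pos {κ : ℂ → ℂ} (h : Kap κ) :
    0 < ∫ z in Sq, ‖κ z‖ ^ 2 * ‖deriv κ z‖ ^ 2 := by
  refine lt_of_le_of_ne (integral_nonneg fun z => by positivity) fun e => ?_
  have h1 := eq_zero_of_integral_sq ((h.inner.1.continuousOn.norm.pow 2).mul
    (h.inner.1.deriv.continuousOn.norm.pow 2))
    (fun _ _ => mul_nonneg (sq_nonneg _) (sq_nonneg _)) e.symm
  have h2 : ∀ᶠ z in 𝓝 (0 : ℂ), deriv κ z ≠ 0 :=
    (h.inner.1.deriv.analyticAt SC_zero_mem).continuousAt.eventually_ne h.simple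
  have h3 : ∀ᶠ z in 𝓝 (0 : ℂ), z ∈ Sq := mem_interior_iff_mem_nhds.1 zero_mem_interior_sq
  obtain ⟨z, ⟨h4, h5⟩, h6⟩ := (((h2.and h3).filter_mono nhdsWithin_le_nhds).and
    (self_mem_nhdsWithin (s := {0}ᶜ))).exists
  exact mul_ne_zero (pow_ne_zero 2 (norm_ne_zero_iff.2 fun e => h6 ((h.zero z h5).1 e)))
    (pow_ne_zero 2 (norm_ne_zero_iff.2 h4)) (h1 z h5)

theorem Kap.unique {κ w : ℂ → ℂ} (h : Kap κ) (hw : Inner w)
    (ha : ∫ z in Sq, ‖deriv w z‖ ^ 2 = π)
    (hg : ∫ z in Sq, κ z * ((‖deriv w z‖ ^ 2 : ℝ) : ℂ) = 0) (h1 : w z1 = 1) : EqOn w κ Sq := by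
  obtain ⟨s, w₁, hs, a1, a2, a3⟩ := hw.1.exists_factor fun z hz e => by
    have h2 := hw.2 z hz
    rw [e, norm_zero] at h2
    exact zero_ne_one h2
  obtain ⟨b1, b2, b3⟩ := h.factor
  have hp : (π : ℂ) ≠ 0 := Complex.ofReal_ne_zero.2 Real.pi_ne_zero
  have e1 := hw.area hs a1 a2 a3 (HolSq.const 1)
  simp only [one_mul] at e1
  rw [integral_complex_ofReal, ha, List.map_const', List.sum_replicate, nsmul_eq_mul, mul_one] at e1
  have e2 : s.length = 1 := by
    have e3 : (s.length : ℂ) = 1 := mul_left_cancel₀ hp (by rw [← e1, mul_one])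
    exact_mod_cast e3
  obtain ⟨y, rfl⟩ := List.length_eq_one_iff.1 e2
  have e3 := hw.area hs a1 a2 a3 h.inner.1
  rw [hg] at e3
  have e4 : y = 0 := (h.zero y (interior_subset (hs y (by simp)))).1 (by
    simpa [hp] using e3)
  subst e4
  have a4 : ∀ z ∈ Sq, w z = z * w₁ z := fun z hz => by simpa using (a3 z hz).self_of_nhds
  have hq : Inner fun z => w₁ z / dslope κ 0 z := by
    refine ⟨a1.div b1 b2, fun z hz => ?_⟩
    have c1 := hw.2 z hz
    have c2 := h.bd z hz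
    rw [a4 z hz.1, norm_mul] at c1
    rw [b3 z, norm_mul] at c2
    rw [norm_div, div_eq_one_iff_eq (norm_ne_zero_iff.2 (b2 z hz.1))]
    exact mul_left_cancel₀ (left_ne_zero_of_mul_eq_one c1) (c1.trans c2.symm)
  have c3 := hq.1.const_of_deriv (hq.deriv_eq_zero fun z hz => div_ne_zero (a2 z hz) (b2 z hz))
  have c4 : w₁ z1 / dslope κ 0 z1 = 1 := by
    have c1 := h.one
    rw [a4 z1 z1_mem.1] at h1
    rw [b3 z1] at c1
    rw [div_eq_one_iff_eq (b2 z1 z1_mem.1)]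
    exact mul_left_cancel₀ (left_ne_zero_of_mul_eq_one c1) (h1.trans c1.symm)
  intro z hz
  rw [a4 z hz, b3 z, (div_eq_one_iff_eq (b2 z hz)).1 ((c3 z hz).trans c4)]

theorem SC_refl {w r : ℂ → ℂ} {S : Set ℂ} {z a c : ℂ} (h : Inner w) (hS : Convex ℝ S)
    (hn : S.Nontrivial) (hB : S ⊆ SqB) (hz : z ∈ S) (hr : ∀ v, r v = c * conj v + a)
    (hf : ∀ v ∈ S, r v = v) : ∀ᶠ v in 𝓝 z, w (r v) = (conj (w v))⁻¹ := by
  have hw := h.1.analyticAt (hB hz).1
  have h1 : AnalyticAt ℂ (fun v => w (c * v + a)) (conj z) := by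
    refine AnalyticAt.comp (f := fun v => c * v + a) ?_ (by fun_prop)
    rwa [← hr, hf z hz]
  have h2 : AnalyticAt ℂ (fun v => conj (w (r v))) z := by
    rw [Complex.analyticAt_iff_eventually_differentiableAt] at h1 ⊢
    filter_upwards [Complex.continuous_conj.continuousAt.eventually h1] with v hv
    have h3 := hv.conj_conj
    rw [Complex.conj_conj] at h3
    simp only [hr]
    exact h3
  have h3 : ∃ᶠ v in 𝓝[≠] z, w v * conj (w (r v)) = 1 :=
    (accPt_iff_frequently_nhdsNE.1 (hS.isPreconnected.preperfect_of_nontrivial hn z hz)).mono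
      fun v hv => by
        rw [hf v hv, Complex.mul_conj, Complex.normSq_eq_norm_sq, h.2 v (hB hv)]
        simp
  filter_upwards [((hw.mul h2).frequently_eq_iff_eventually_eq analyticAt_const).1 h3] with v hv
  have h4 := congrArg conj hv
  simp only [Pi.mul_apply, map_mul, Complex.conj_conj, map_one] at h4
  exact eq_inv_of_mul_eq_one_right h4

theorem SC_re {t : ℝ} (ht : |t| = π / 2) : Convex ℝ (Sq ∩ {v | v.re = t}) ∧
    (Sq ∩ {v | v.re = t}).Nontrivial ∧ Sq ∩ {v | v.re = t} ⊆ SqB := by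
  have hp := Real.pi_div_two_pos
  refine ⟨convex_sq.inter ((convex_singleton t).linear_preimage Complex.reLm),
    ⟨⟨t, 0⟩, ⟨⟨ht.le, abs_zero.trans_le hp.le⟩, rfl⟩, ⟨t, π / 2⟩,
      ⟨⟨ht.le, (abs_of_pos hp).le⟩, rfl⟩, fun e => hp.ne (congrArg Complex.im e)⟩,
    fun v hv => ⟨hv.1, .inl ((congrArg _ hv.2).trans ht)⟩⟩

theorem SC_im {t : ℝ} (ht : |t| = π / 2) : Convex ℝ (Sq ∩ {v | v.im = t}) ∧
    (Sq ∩ {v | v.im = t}).Nontrivial ∧ Sq ∩ {v | v.im = t} ⊆ SqB := by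
  have hp := Real.pi_div_two_pos
  refine ⟨convex_sq.inter ((convex_singleton t).linear_preimage Complex.imLm),
    ⟨⟨0, t⟩, ⟨⟨abs_zero.trans_le hp.le, ht.le⟩, rfl⟩, ⟨π / 2, t⟩,
      ⟨⟨(abs_of_pos hp).le, ht.le⟩, rfl⟩, fun e => hp.ne (congrArg Complex.re e)⟩,
    fun v hv => ⟨hv.1, .inr ((congrArg _ hv.2).trans ht)⟩⟩

/-- Schwarz reflection near the four sides. -/
theorem Inner.refl {w : ℂ → ℂ} (h : Inner w) {z : ℂ} (hz : z ∈ Sq) :
    (z.re = π / 2 → ∀ᶠ v in 𝓝 z, w (r1 v) = (conj (w v))⁻¹) ∧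
    (z.re = -(π / 2) → ∀ᶠ v in 𝓝 z, w (r1 v - 2 * (π : ℂ)) = (conj (w v))⁻¹) ∧
    (z.im = π / 2 → ∀ᶠ v in 𝓝 z, w (r2 v) = (conj (w v))⁻¹) ∧
    (z.im = -(π / 2) → ∀ᶠ v in 𝓝 z, w (r2 v - 2 * (π : ℂ) * Complex.I) = (conj (w v))⁻¹) := by
  have h1 : |π / 2| = π / 2 := abs_of_pos Real.pi_div_two_pos
  have h2 : |-(π / 2)| = π / 2 := (abs_neg _).trans h1
  refine ⟨fun e => ?_, fun e => ?_, fun e => ?_, fun e => ?_⟩
  · refine SC_refl (c := -1) (a := π) h (SC_re h1).1 (SC_re h1).2.1 (SC_re h1).2.2 ⟨hz, e⟩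
      (fun v => by rw [r1]; ring) fun v hv => Complex.ext ?_ (r1_im v)
    rw [r1_re, show v.re = π / 2 from hv.2]
    ring
  · refine SC_refl (r := fun v => r1 v - 2 * (π : ℂ)) (c := -1) (a := -π) h (SC_re h2).1
      (SC_re h2).2.1 (SC_re h2).2.2 ⟨hz, e⟩ (fun v => by rw [r1]; ring)
      fun v hv => Complex.ext ?_ (by simp [r1])
    have e1 : v.re = -(π / 2) := hv.2
    simp [r1, e1]
    ring
  · refine SC_refl (c := 1) (a := π * Complex.I) h (SC_im h1).1 (SC_im h1).2.1 (SC_im h1).2.2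
      ⟨hz, e⟩ (fun v => by rw [r2]; ring) fun v hv => Complex.ext (r2_re v) ?_
    rw [r2_im, show v.im = π / 2 from hv.2]
    ring
  · refine SC_refl (r := fun v => r2 v - 2 * (π : ℂ) * Complex.I) (c := 1)
      (a := -(π * Complex.I)) h (SC_im h2).1 (SC_im h2).2.1 (SC_im h2).2.2 ⟨hz, e⟩
      (fun v => by rw [r2]; ring) fun v hv => Complex.ext (by simp [r2]) ?_
    have e1 : v.im = -(π / 2) := hv.2
    simp [r2, e1]
    ring

end Pool.Agent.Lib.MP_ccffa6_gt
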