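import Pool.Agent.Lib.MP_ccffa6_gt.T.SC

/-! Holomorphic vector fields tangent to the boundary.

With `c = v 0 / i`, the function `g = (v - v 0) / (i κ) - conj c * κ` is holomorphic near the square
(`Kap.factor`, `dslope`) and real on the boundary, hence constant (`const_of_re` for `i g`). -/

open Set Filter Topology MeasureTheory
open scoped ContDiff ComplexConjugate Real

noncomputable section

namespace Pool.Agent.Lib.MP_ccffa6_gt

/-- The fields `i (c + b κ + conj c κ²)`. -/
def kerF (κ : ℂ → ℂ) (b : ℝ) (c : ℂ) (z : ℂ) : ℂ :=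
  Complex.I * (c + b * κ z + conj c * κ z ^ 2)

theorem Kap.holSq_kerF {κ : ℂ → ℂ} (h : Kap κ) (b : ℝ) (c : ℂ) : HolSq (kerF κ b c) := by
  have hk : HolSq κ := h.hol
  have := (HolSq.const Complex.I).mul (((HolSq.const c).add ((HolSq.const (b : ℂ)).mul hk)).add
    ((HolSq.const (conj c)).mul (hk.mul hk)))
  have e : kerF κ b c = fun z => Complex.I * (c + b * κ z + conj c * (κ z * κ z)) := by
    funext z; rw [kerF, sq]
  rw [e]; exact this

theorem Kap.exists_kerF {κ v : ℂ → ℂ} (h : Kap κ) (hv : HolSq v)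
    (hb : ∀ z ∈ SqB, (conj (κ z) * v z).re = 0) : ∃ (b : ℝ) (c : ℂ), EqOn v (kerF κ b c) Sq := by
  have hk : HolSq κ := h.hol
  have h0 : (0 : ℂ) ∈ Sq := interior_subset zero_mem_interior_sq
  obtain ⟨f1, f2, f3⟩ := h.factor
  set c : ℂ := -Complex.I * v 0 with hc
  set f : ℂ → ℂ := fun z => dslope v 0 z / dslope κ 0 z - Complex.I * conj c * κ z with hf
  have hF : HolSq f := ((hv.dslope h0).div f1 f2).sub ((HolSq.const _).mul hk)
  have hv0 : ∀ z, v z = v 0 + z * dslope v 0 z := fun z => by
    have := sub_smul_dslope v 0 z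
    rw [sub_zero, smul_eq_mul] at this
    rw [this]; ring
  have hvf : ∀ z ∈ Sq, v z = v 0 + κ z * (f z + Complex.I * conj c * κ z) := fun z hz => by
    have := f2 z hz
    rw [hv0 z, hf]
    simp only [sub_add_cancel]
    rw [f3 z]
    field_simp
  have hre : ∀ z ∈ SqB, (f z).re = 0 := fun z hz => by
    have h1 : conj (κ z) * κ z = 1 := by
      rw [Complex.conj_mul', h.bd z hz]; simp
    have h2 : f z = conj (κ z) * v z - conj (κ z) * v 0 - Complex.I * conj c * κ z := by
      rw [hvf z hz.1]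
      linear_combination (-(f z + Complex.I * conj c * κ z)) * h1
    rw [h2, Complex.sub_re, Complex.sub_re, hb z hz, hc]
    simp
    ring
  have hcst := hF.const_of_deriv (hF.const_of_re hre)
  refine ⟨(f z1).im, c, fun z hz => ?_⟩
  have e : f z1 = (f z1).im * Complex.I := by
    apply Complex.ext <;> simp [hre z1 z1_mem]
  rw [hvf z hz, hcst z hz, kerF]
  have e0 : v 0 = Complex.I * c := by
    rw [hc]; linear_combination (v 0) * Complex.I_mul_I
  rw [e0]
  linear_combination (κ z) * e

theorem Kap.kerF_z1 {κ : ℂ → ℂ} (h : Kap κ) (b : ℝ) (c : ℂ) :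
    (kerF κ b c z1).im = b + 2 * c.re := by
  simp [kerF, h.one]
  ring

/-- The derivative of the gauge: expand `2 Re (conj κ' v') = conj κ' v' + κ' conj v'` with
`v' = i (b + 2 conj c κ) κ'` and use `Kap.integral` for `g = κ²`. -/
theorem Kap.gauge_kerF {κ : ℂ → ℂ} (h : Kap κ) (b : ℝ) (c : ℂ) :
    ∫ z in Sq, κ z * ((2 * (conj (deriv κ z) * deriv (kerF κ b c) z).re : ℝ) : ℂ) =
      -2 * Complex.I * c * ((∫ z in Sq, ‖κ z‖ ^ 2 * ‖deriv κ z‖ ^ 2 : ℝ) : ℂ) := by
  have hk : HolSq κ := h.hol
  have h0 : (0 : ℂ) ∈ Sq := interior_subset zero_mem_interior_sq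
  have hI := h.integral (hk.mul hk)
  rw [(h.zero 0 h0).2 rfl, mul_zero, mul_zero] at hI
  have hc1 := hk.continuousOn
  have hc2 := hk.deriv.continuousOn
  have e : EqOn (fun z => κ z * ((2 * (conj (deriv κ z) * deriv (kerF κ b c) z).re : ℝ) : ℂ))
      (fun z => (2 * Complex.I * conj c) * (κ z * κ z * ((‖deriv κ z‖ ^ 2 : ℝ) : ℂ)) +
        (-2 * Complex.I * c) * ((‖κ z‖ ^ 2 * ‖deriv κ z‖ ^ 2 : ℝ) : ℂ)) Sq := fun z hz => by
    have hd := (hk.analyticAt hz).differentiableAt.hasDerivAt
    have hd2 : HasDerivAt (kerF κ b c)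
        (Complex.I * (b * deriv κ z + conj c * (2 * κ z * deriv κ z))) z := by
      have := (((hd.const_mul (b : ℂ)).const_add c).add
        ((hd.pow 2).const_mul (conj c))).const_mul Complex.I
      simp only [Nat.cast_ofNat, Nat.add_one_sub_one, pow_one] at this
      exact this
    simp only
    rw [hd2.deriv, ← Complex.add_conj]
    push_cast
    rw [← Complex.conj_mul', ← Complex.conj_mul']
    simp only [map_mul, map_add, Complex.conj_conj, Complex.conj_I, Complex.conj_ofReal,
      map_ofNat]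
    ring
  rw [setIntegral_congr_fun measurableSet_sq e, integral_add, integral_const_mul,
    integral_const_mul, hI, mul_zero, zero_add, integral_complex_ofReal]
  · refine Integrable.const_mul (ContinuousOn.integrableOn_compact isCompact_sq ?_).integrable _
    exact (hc1.mul hc1).mul (Complex.continuous_ofReal.comp_continuousOn (hc2.norm.pow 2))
  · refine Integrable.const_mul (ContinuousOn.integrableOn_compact isCompact_sq ?_).integrable _
    exact Complex.continuous_ofReal.comp_continuousOn ((hc1.norm.pow 2).mul (hc2.norm.pow 2))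

end Pool.Agent.Lib.MP_ccffa6_gt
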