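import Pool.Agent.Lib.MP_ccffa6_gt.T.FSym
import Pool.Agent.Lib.MP_ccffa6_gt.T.Iface

/-! The conformal map of the square through Green's function.

Let `χ` be a smooth cut-off, `1` near `0`, `0` for `|z| ≥ 1 / 2`, `Λ = (χ - 1) log |z|` (smooth on the
plane, zero near `0`), `f₀ = Λ_xx + Λ_yy`, which vanishes for `|z| > 1 / 2` (`log |z|` is harmonic).
Glue `f₀` with `S₁ = S₂ = -1` (`exists_glue`, `LocEqv.of_zero`), solve `Δ G = f` with `G` odd
(`WA.of_smooth` at level 2, `WA.exists_lap`); `G = 0` on `SqB` (`Per.sqB_fix`). `H = Λ - G` is `C²`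
and harmonic on an open convex set `U ⊇ Sq` (`f = f₀` near each point of the compact convex square:
take a thickening). `φ = H_x - i H_y` is holomorphic on `U`, has a primitive `Φ`
(`Convex.exists_forall_hasDerivWithinAt`), `Re Φ - H` is constant. `κ = c z exp Φ`. -/

open Set Filter Topology MeasureTheory
open scoped ContDiff ComplexConjugate Real

noncomputable section

namespace Pool.Agent.Lib.MP_ccffa6_gt

theorem SK_lap {f : ℂ → ℝ} {z : ℂ} (hf : ContDiffAt ℝ 2 f z) :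
    px (px f) z + py (py f) z = Laplacian.laplacian f z := by
  have h1 : DifferentiableAt ℝ (fderiv ℝ f) z :=
    (hf.fderiv_right (m := 1) (by norm_num)).differentiableAt one_ne_zero
  have h2 : ∀ v : ℂ, fderiv ℝ (fun w => fderiv ℝ f w v) z v = fderiv ℝ (fderiv ℝ f) z v v :=
    fun v => by
      rw [fderiv_clm_apply h1 (differentiableAt_const v)]
      simp
  rw [InnerProductSpace.laplacian_eq_iteratedFDeriv_complexPlane]
  simp only [iteratedFDeriv_two_apply, Matrix.cons_val_zero, Matrix.cons_val_one]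
  rw [← h2, ← h2]
  rfl

theorem SK_smooth_dir {f : ℂ → ℝ} (hf : ContDiff ℝ ∞ f) (v : ℂ) :
    ContDiff ℝ ∞ fun z => fderiv ℝ f z v :=
  (hf.fderiv_right (m := ∞) (by simp)).clm_apply contDiff_const

theorem SK_cut : ∃ Λ : ℂ → ℝ, ContDiff ℝ ∞ Λ ∧
    ∀ z : ℂ, 1 / 2 < ‖z‖ → Λ =ᶠ[𝓝 z] fun w => -Real.log ‖w‖ := by
  let χ : ContDiffBump (0 : ℂ) := ⟨1 / 4, 1 / 2, by norm_num, by norm_num⟩
  refine ⟨fun z => (χ z - 1) * Real.log ‖z‖, contDiff_iff_contDiffAt.2 fun z => ?_, fun z hz => ?_⟩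
  · by_cases h : z = 0
    · refine (contDiffAt_const (c := (0 : ℝ))).congr_of_eventuallyEq ?_
      rw [h]
      filter_upwards [χ.eventuallyEq_one] with w hw
      rw [hw, Pi.one_apply, sub_self, zero_mul]
    · exact (χ.contDiff.contDiffAt.sub contDiffAt_const).mul
        ((contDiffAt_norm ℝ h).log (norm_ne_zero_iff.2 h))
  · filter_upwards [continuous_norm.continuousAt.eventually (lt_mem_nhds hz)] with w hw
    rw [χ.zero_of_le_dist (by rw [dist_zero_right]; exact hw.le)]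
    ring

theorem SK_norm {z : ℂ} (hz : z ∈ SqB) : 1 / 2 < ‖z‖ := by
  have h1 := Real.pi_gt_three
  have h2 := Complex.abs_re_le_norm z
  have h3 := Complex.abs_im_le_norm z
  rcases hz.2 with h | h <;> linarith

/-- A harmonic function on an open convex set is the real part of a holomorphic function. -/
theorem exists_re_eq {U : Set ℂ} (hU : IsOpen U) (hc : Convex ℝ U) {H : ℂ → ℝ}
    (hH : ContDiffOn ℝ 2 H U) (h : ∀ z ∈ U, px (px H) z + py (py H) z = 0) :
    ∃ Φ : ℂ → ℂ, DifferentiableOn ℂ Φ U ∧ ∀ z ∈ U, (Φ z).re = H z := by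
  rcases U.eq_empty_or_nonempty with rfl | ⟨z0, hz0⟩
  · exact ⟨0, differentiableOn_empty, fun z hz => absurd hz (notMem_empty z)⟩
  have h1 : ∀ z ∈ U, InnerProductSpace.HarmonicAt H z := fun z hz =>
    ⟨hH.contDiffAt (hU.mem_nhds hz), by
      filter_upwards [hU.mem_nhds hz] with w hw
      rw [← SK_lap (hH.contDiffAt (hU.mem_nhds hw)), h w hw, Pi.zero_apply]⟩
  obtain ⟨F, hF⟩ := hc.exists_forall_hasDerivWithinAt
    (f := fun z => ((fderiv ℝ H z 1 : ℝ) : ℂ) - Complex.I * (fderiv ℝ H z Complex.I : ℝ))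
    fun z hz => (HarmonicAt.differentiableAt_complex_partial (h1 z hz)).differentiableWithinAt
  have h2 : ∀ z ∈ U, HasDerivAt F
      (((fderiv ℝ H z 1 : ℝ) : ℂ) - Complex.I * (fderiv ℝ H z Complex.I : ℝ)) z :=
    fun z hz => (hF z hz).hasDerivAt (hU.mem_nhds hz)
  have h3 : ∀ z ∈ U, HasFDerivAt (fun w => (F w).re - H w) (0 : ℂ →L[ℝ] ℝ) z := by
    intro z hz
    have d1 := Complex.reCLM.hasFDerivAt.comp z ((h2 z hz).hasFDerivAt.restrictScalars ℝ)
    have d2 := ((h1 z hz).1.differentiableAt two_ne_zero).hasFDerivAt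
    refine (d1.sub d2).congr_fderiv (ContinuousLinearMap.ext fun v => ?_)
    have e1 := fderiv_eq_px_py H z v
    simp only [px, py, smul_eq_mul] at e1
    simp [e1]
  refine ⟨fun z => F z - ((F z0).re - H z0 : ℝ), fun z hz =>
    ((h2 z hz).differentiableAt.sub_const _).differentiableWithinAt, fun z hz => ?_⟩
  have h4 : (F z).re - H z = (F z0).re - H z0 :=
    hU.is_const_of_fderiv_eq_zero (𝕜 := ℝ) hc.isPreconnected
      (fun w hw => (h3 w hw).differentiableAt.differentiableWithinAt)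
      (fun w hw => (h3 w hw).fderiv) hz hz0
  rw [Complex.sub_re, Complex.ofReal_re, ← h4]
  ring

/-- The regular part of Green's function. -/
theorem exists_green : ∃ (U : Set ℂ) (H : ℂ → ℝ), IsOpen U ∧ Convex ℝ U ∧ Sq ⊆ U ∧
    ContDiffOn ℝ 2 H U ∧ (∀ z ∈ U, px (px H) z + py (py H) z = 0) ∧
    ∀ z ∈ SqB, H z = -Real.log ‖z‖ := by
  obtain ⟨Λ, hΛ, hΛ'⟩ := SK_cut
  have s2 : ContDiff ℝ 2 Λ := contDiff_infty.1 hΛ 2
  have h0 : ContDiff ℝ ∞ fun z => px (px Λ) z + py (py Λ) z :=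
    (SK_smooth_dir (SK_smooth_dir hΛ 1) 1).add
      (SK_smooth_dir (SK_smooth_dir hΛ Complex.I) Complex.I)
  have h1 : ∀ z : ℂ, 1 ≤ ‖z‖ → px (px Λ) z + py (py Λ) z = 0 := by
    intro z hz
    have h2 : z ≠ 0 := norm_pos_iff.1 (by linarith)
    have h3 : InnerProductSpace.HarmonicAt (fun w : ℂ => Real.log ‖w‖) z :=
      AnalyticAt.harmonicAt_log_norm (f := fun w => w) analyticAt_id h2
    have h4 : InnerProductSpace.HarmonicAt Λ z :=
      (InnerProductSpace.harmonicAt_congr_nhds (hΛ' z (by linarith))).2 h3.neg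
    rw [SK_lap s2.contDiffAt, h4.2.eq_of_nhds, Pi.zero_apply]
  obtain ⟨f, hf, hp, he, hf0⟩ := exists_glue (S₁ := -ContinuousLinearMap.id ℝ ℝ)
    (S₂ := -ContinuousLinearMap.id ℝ ℝ) ⟨by simp, by simp, by simp⟩
    (fun z _ => h0.contDiffAt) (LocEqv.of_zero h1)
  obtain ⟨u, hu⟩ := WA.of_smooth (k := 2) hf hp
  obtain ⟨G, hG, hG'⟩ := WA.exists_lap (f := u) (hu ▸ he)
  have g2 : ContDiff ℝ 2 (WA.fn G) := (WA.contDiff G).of_le (by norm_num)
  have h2 : IsOpen {z : ℂ | f =ᶠ[𝓝 z] fun z => px (px Λ) z + py (py Λ) z} :=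
    isOpen_setOfPred_eventually_nhds
  obtain ⟨δ, hδ, h3⟩ := isCompact_sq.exists_thickening_subset_open h2 hf0
  refine ⟨Metric.thickening δ Sq, Λ - WA.fn G, Metric.isOpen_thickening, convex_sq.thickening δ,
    Metric.self_subset_thickening hδ _, (s2.sub g2).contDiffOn, fun z hz => ?_, fun z hz => ?_⟩
  · rw [SK_lap (f := Λ - WA.fn G) (s2.sub g2).contDiffAt, s2.contDiffAt.laplacian_sub g2.contDiffAt,
      ← SK_lap s2.contDiffAt, ← SK_lap g2.contDiffAt, hG', hu, (h3 hz).eq_of_nhds, sub_self]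
  · have h4 : WA.fn G z = 0 := by
      rcases (WA.per G).sqB_fix hz with h | h
      · rw [hG.1] at h
        have h5 : -WA.fn G z = WA.fn G z := h
        linarith
      · rw [hG.2] at h
        have h5 : -WA.fn G z = WA.fn G z := h
        linarith
    rw [Pi.sub_apply, h4, sub_zero, (hΛ' z (SK_norm hz)).eq_of_nhds]

theorem t_kap : KapStmt := by
  obtain ⟨U, H, hU, hc, hs, hH, h0, h1⟩ := exists_green
  obtain ⟨Φ, hΦ, h2⟩ := exists_re_eq hU hc hH h0
  have h3 : ∀ z ∈ SqB, ‖z * Complex.exp (Φ z)‖ = 1 := fun z hz => by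
    have h4 : 0 < ‖z‖ := by linarith [SK_norm hz]
    rw [norm_mul, Complex.norm_exp, h2 z (hs hz.1), h1 z hz, Real.exp_neg, Real.exp_log h4,
      mul_inv_cancel₀ h4.ne']
  have h4 : z1 * Complex.exp (Φ z1) ≠ 0 := norm_ne_zero_iff.1 (by rw [h3 z1 z1_mem]; norm_num)
  have h5 : (0 : ℂ) ∈ U := hs (interior_subset zero_mem_interior_sq)
  refine ⟨fun z => (z1 * Complex.exp (Φ z1))⁻¹ * (z * Complex.exp (Φ z)),
    ⟨U, hU, hs, (differentiableOn_id.mul hΦ.cexp).const_mul _⟩, fun z hz => ?_, fun z _ => ?_, ?_,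
    inv_mul_cancel₀ h4⟩
  · rw [norm_mul, norm_inv, h3 z1 z1_mem, h3 z hz, inv_one, one_mul]
  · simp only [mul_eq_zero, inv_eq_zero, h4, Complex.exp_ne_zero, or_false, false_or]
  · have d1 := (((hasDerivAt_id (0 : ℂ)).mul
      (hΦ.differentiableAt (hU.mem_nhds h5)).hasDerivAt.cexp).const_mul
        (z1 * Complex.exp (Φ z1))⁻¹).deriv
    simp only [id, zero_mul, add_zero, one_mul] at d1
    rw [show deriv (fun z => (z1 * Complex.exp (Φ z1))⁻¹ * (z * Complex.exp (Φ z))) 0 = _ from d1]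
    exact mul_ne_zero (inv_ne_zero h4) (Complex.exp_ne_zero _)

end Pool.Agent.Lib.MP_ccffa6_gt
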