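import Pool.Agent.Lib.MP_ccffa6_gt.T.SS
import Pool.Agent.Lib.MP_ccffa6_gt.T.FPt

/-! Transfer of the linearised operators to the model. -/

open Set Filter Topology MeasureTheory
open scoped ContDiff ComplexConjugate Real

noncomputable section

namespace Pool.Agent.Lib.MP_ccffa6_gt

variable {V : Type} [NormedAddCommGroup V] [NormedSpace ℝ V] [FiniteDimensional ℝ V] {k : ℕ}
  {T : TD k V} {κ : ℂ → ℂ} {G δ r : ℝ}

/-- The derivative of the involution. -/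
def dsig (h X : Cm k) : Cm k :=
  WithLp.toLp 2 fun j => if j = 0 then -conj (X 0) else -conj (X j) / conj (h j) ^ 2

section aux

variable {A B : Type} [NormedAddCommGroup A] [NormedSpace ℝ A] [NormedAddCommGroup B]
  [NormedSpace ℝ B]

theorem SL0_d1 {f : A → B} (hf : ContDiff ℝ ∞ f) (x : A) : HasFDerivAt f (fderiv ℝ f x) x :=
  (hf.differentiable (by simp) x).hasFDerivAt

theorem SL0_d2 {f : A → B} (hf : ContDiff ℝ ∞ f) (x : A) :
    HasFDerivAt (fderiv ℝ f) (fderiv ℝ (fderiv ℝ f) x) x :=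
  SL0_d1 (hf.fderiv_right (by simp)) x

theorem SL0_d3 {f : A → B} (hf : ContDiff ℝ ∞ f) (x v : A) :
    HasFDerivAt (fun y => fderiv ℝ f y v) ((fderiv ℝ (fderiv ℝ f) x).flip v) x := by
  simpa using (SL0_d2 hf x).clm_apply (hasFDerivAt_const v x)

theorem SL0_symm {f : A → B} (hf : ContDiff ℝ ∞ f) (x v w : A) :
    fderiv ℝ (fderiv ℝ f) x v w = fderiv ℝ (fderiv ℝ f) x w v :=
  hf.contDiffAt.isSymmSndFDerivAt
    (by simpa using WithTop.coe_le_coe.2 (le_top (a := (2 : ℕ∞)))) v w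

theorem SL0_dF [FiniteDimensional ℝ A] {lam : Form1 A} (h : ContDiff ℝ ∞ lam) :
    ContDiff ℝ ∞ (dF lam) :=
  have h1 : ContDiff ℝ ∞ (fderiv ℝ lam) := h.fderiv_right (by simp)
  contDiff_clm_apply_iff.2 fun u => contDiff_clm_apply_iff.2 fun v =>
    ((h1.clm_apply (contDiff_const (c := u))).clm_apply (contDiff_const (c := v))).sub
      ((h1.clm_apply (contDiff_const (c := v))).clm_apply (contDiff_const (c := u)))

theorem SL0_app {C : Type} [NormedAddCommGroup C] [NormedSpace ℝ C] {c : A → B →L[ℝ] C} {u : A → B}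
    {x : A} {c' : A →L[ℝ] B →L[ℝ] C} {u' : A →L[ℝ] B} (hc : HasFDerivAt c c' x)
    (hu : HasFDerivAt u u' x) : ∃ L : A →L[ℝ] C, HasFDerivAt (fun y => c y (u y)) L x ∧
      ∀ v, L v = c' v (u x) + c x (u' v) :=
  ⟨_, hc.clm_apply hu, fun _ => add_comm _ _⟩

end aux

theorem SL0_sig {h : Cm k} (hh : ∀ j, j ≠ 0 → h j ≠ 0) (X : Cm k) :
    HasDerivAt (fun t : ℝ => sig (h + t • X)) (dsig h X) 0 := by
  refine (PiLp.continuousLinearEquiv 2 ℝ fun _ : Fin (k + 2) => ℂ).symm.hasFDerivAt.comp_hasDerivAt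
    (0 : ℝ) (hasDerivAt_pi.2 fun j => ?_)
  have h1 : HasDerivAt (fun t : ℝ => conj ((h + t • X) j)) (conj (X j)) 0 := by
    simpa using ((Complex.ofRealCLM.hasDerivAt (x := 0)).mul_const (conj (X j))).const_add
      (conj (h j))
  by_cases hj : j = 0
  · subst hj
    exact h1.neg
  · have h2 := h1.fun_inv (by simpa using hh j hj)
    rw [zero_smul, add_zero] at h2
    simpa only [sig, dsig, if_neg hj] using h2

theorem TD.OK.hol_deriv (hT : T.OK) {h : Cm k} (hh : h ∈ T.O) (X Y : Cm k) :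
    fderiv ℝ T.J (T.Θ h) (fderiv ℝ T.Θ h X) (fderiv ℝ T.Θ h Y) +
      T.J (T.Θ h) (fderiv ℝ (fderiv ℝ T.Θ) h X Y) =
      fderiv ℝ (fderiv ℝ T.Θ) h X (Complex.I • Y) := by
  have h1 := ((SL0_d1 hT.smJ _).comp h (SL0_d1 hT.smΘ h)).clm_apply (SL0_d3 hT.smΘ h Y)
  have h2 := (h1.congr_of_eventuallyEq ((hT.opO.eventually_mem hh).mono fun y hy =>
    (hT.hol y hy Y).symm)).unique (SL0_d3 hT.smΘ h _)
  simpa [add_comm] using congrArg (· X) h2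

theorem TD.OK.omP_deriv (hT : T.OK) {h : Cm k} (hh : h ∈ BoxP k T.l) (X A B : Cm k) :
    fderiv ℝ (dF T.lam) (T.Θ h) (fderiv ℝ T.Θ h X) (fderiv ℝ T.Θ h A) (fderiv ℝ T.Θ h B) +
      dF T.lam (T.Θ h) (fderiv ℝ (fderiv ℝ T.Θ) h X A) (fderiv ℝ T.Θ h B) +
      dF T.lam (T.Θ h) (fderiv ℝ T.Θ h A) (fderiv ℝ (fderiv ℝ T.Θ) h X B) = 0 := by
  obtain ⟨L, h1, e1⟩ := SL0_app ((SL0_d1 (SL0_dF hT.smlam) _).comp h (SL0_d1 hT.smΘ h))
    (SL0_d3 hT.smΘ h A)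
  obtain ⟨M, h2, e2⟩ := SL0_app h1 (SL0_d3 hT.smΘ h B)
  have h0 : ∀ᶠ y in 𝓝 h, y ∈ BoxP k T.l := eventually_all.2 fun j =>
    (EuclideanSpace.proj j : Cm k →L[ℂ] ℂ).continuous.norm.continuousAt.eventually_lt_const (hh j)
  have h3 : M = 0 := (h2.congr_of_eventuallyEq (f₁ := fun _ => (inner ℂ A B : ℂ).im)
    (h0.mono fun y hy => (hT.omP y hy A B).symm)).unique (hasFDerivAt_const _ h)
  have h4 := e2 X
  rw [h3, e1, add_apply] at h4
  exact h4.symm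

theorem TD.OK.dΘ_sig (hT : T.OK) {h : Cm k} (hh : h ∈ T.O) (hs : T.Θ h ∈ T.Vs) (X : Cm k) :
    fderiv ℝ T.Θ (sig h) (dsig h X) = T.S (fderiv ℝ T.Θ h X) := by
  have h1 : HasDerivAt (fun t : ℝ => h + t • X) X 0 := by
    simpa using ((hasDerivAt_id (0 : ℝ)).smul_const X).const_add h
  have e : h + (0 : ℝ) • X = h := by simp
  have h2 := (SL0_d1 hT.smΘ _).comp_hasDerivAt (0 : ℝ) (SL0_sig (hT.SΘ h hh hs).1 X)
  have h3 := T.S.hasFDerivAt.comp_hasDerivAt (0 : ℝ) ((SL0_d1 hT.smΘ _).comp_hasDerivAt (0 : ℝ) h1)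
  have h4 : ∀ᶠ y in 𝓝 (h + (0 : ℝ) • X), T.S (T.Θ y) = T.Θ (sig y) := by
    rw [e]
    filter_upwards [hT.opO.mem_nhds hh,
      hT.smΘ.continuous.continuousAt.eventually_mem (hT.opVs.mem_nhds hs)] with y a b
    exact (hT.SΘ y a b).2.2.symm
  simpa only [e] using (h2.congr_of_eventuallyEq (h1.continuousAt.eventually h4)).unique h3

theorem TD.OK.dC_sig (hT : T.OK) {h : Cm k} (hh : h ∈ T.O) (hs : T.Θ h ∈ T.Vs) (v : V) :
    fderiv ℝ T.Cc (T.Θ (sig h)) (T.P (T.Θ (sig h)) (T.S v)) =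
      dsig h (fderiv ℝ T.Cc (T.Θ h) (T.P (T.Θ h) v)) := by
  obtain ⟨a1, a2, a3⟩ := hT.CΘ h hh
  obtain ⟨-, b2, b3⟩ := hT.SΘ h hh hs
  have h1 := hT.dΘC a1 a2 (hT.P_mem a1 v)
  rw [a3] at h1
  rw [← hT.dCΘ b2 (dsig h _), hT.dΘ_sig hh hs, h1, ← hT.SP hs, b3]

variable {u₀ v : ℂ → V} {X : ℂ → Cm k} {z : ℂ}

theorem SL0_der (hT : T.OK) (hκ : Kap κ) (hz : z ∈ Sq)
    (hu : u₀ =ᶠ[𝓝 z] fun w => T.Θ (h0 k κ w)) (hv : DifferentiableAt ℝ v z)
    (hX : DifferentiableAt ℝ X z)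
    (h : ∀ᶠ w in 𝓝[Sq] z, v w = fderiv ℝ T.Θ (h0 k κ w) (X w)) :
    u₀ z = T.Θ (h0 k κ z) ∧ v z = fderiv ℝ T.Θ (h0 k κ z) (X z) ∧
      (∀ w, fderiv ℝ u₀ z w = fderiv ℝ T.Θ (h0 k κ z) (w • deriv κ z • e1 k)) ∧
      ∀ w, fderiv ℝ v z w = fderiv ℝ (fderiv ℝ T.Θ) (h0 k κ z) (X z) (w • deriv κ z • e1 k) +
        fderiv ℝ T.Θ (h0 k κ z) (fderiv ℝ X z w) := by
  have h1 := (hκ.hasDerivAt_h0 (k := k) hz).self_of_nhds.hasFDerivAt.restrictScalars ℝ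
  obtain ⟨L, h2, e⟩ := SL0_app ((SL0_d2 hT.smΘ _).comp z h1) hX.hasFDerivAt
  refine ⟨hu.self_of_nhds, h.self_of_nhdsWithin hz, fun w => ?_, fun w => ?_⟩
  · rw [hu.fderiv_eq]
    exact congrArg (· w) ((SL0_d1 hT.smΘ _).comp z h1).fderiv
  · rw [Tan.fderiv_congr hz hv h2.differentiableAt h (by rw [tan_sq hz]; trivial), h2.fderiv, e,
      SL0_symm hT.smΘ _ (X z)]
    rfl

theorem Lpt_model (hT : T.OK) (hκ : Kap κ) (hz : z ∈ Sq)
    (hu : u₀ =ᶠ[𝓝 z] fun w => T.Θ (h0 k κ w)) (hv : DifferentiableAt ℝ v z)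
    (hX : DifferentiableAt ℝ X z)
    (h : ∀ᶠ w in 𝓝[Sq] z, v w = fderiv ℝ T.Θ (h0 k κ w) (X w)) :
    T.Lpt u₀ v z = fderiv ℝ T.Θ (h0 k κ z) (px X z + Complex.I • py X z) := by
  obtain ⟨a1, a2, a3, a4⟩ := SL0_der hT hκ hz hu hv hX h
  have hO := hT.boxP (hκ.h0_box hT.l1 hz)
  have h1 := hT.hol_deriv hO (X z) (Complex.I • deriv κ z • e1 k)
  rw [smul_smul Complex.I Complex.I, Complex.I_mul_I, neg_one_smul, map_neg] at h1
  simp only [TD.Lpt, px, py, a1, a2, a3, a4, one_smul, map_add, hT.hol _ hO]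
  linear_combination (norm := abel1) h1

theorem Dden_model (hT : T.OK) (hκ : Kap κ) (hz : z ∈ Sq)
    (hu : u₀ =ᶠ[𝓝 z] fun w => T.Θ (h0 k κ w)) (hv : DifferentiableAt ℝ v z)
    (hX : DifferentiableAt ℝ X z)
    (h : ∀ᶠ w in 𝓝[Sq] z, v w = fderiv ℝ T.Θ (h0 k κ w) (X w))
    (hc : py X z = Complex.I • px X z) :
    T.Dden u₀ v z = 2 * (conj (deriv κ z) * px X z 1).re := by
  obtain ⟨a1, a2, a3, a4⟩ := SL0_der hT hκ hz hu hv hX h
  have hB := hκ.h0_box (k := k) hT.l1 hz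
  have h1 := hT.omP_deriv hB (X z) (deriv κ z • e1 k) (Complex.I • deriv κ z • e1 k)
  have h2 : (inner ℂ (deriv κ z • e1 k) (px X z) : ℂ) = conj (deriv κ z) * px X z 1 := by
    simp [e1, PiLp.inner_apply, mul_comm]
  have h3 : (inner ℂ (px X z) (deriv κ z • e1 k) : ℂ) = conj (conj (deriv κ z) * px X z 1) := by
    rw [← h2, inner_conj_symm]
  have h4 := a4 Complex.I
  have h5 := a4 1
  rw [← py, ← py, hc] at h4
  rw [← px, ← px, one_smul] at h5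
  rw [TD.Dden, h4, h5, px, py, a1, a2, a3, a3, one_smul, map_add, map_add, add_apply, hT.omP _ hB,
    hT.omP _ hB, inner_smul_right, h3, inner_smul_right, h2, Complex.I_mul_im, Complex.I_mul_im,
    Complex.conj_re]
  linarith

end Pool.Agent.Lib.MP_ccffa6_gt
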