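import Pool.Agent.Lib.MP_ccffa6_gt.T.SL0
import Pool.Agent.Lib.MP_ccffa6_gt.T.SD

/-! Frames along the standard disc, and the kernel of the linearised operator. -/

open Set Filter Topology MeasureTheory
open scoped ContDiff ComplexConjugate Real

noncomputable section

namespace Pool.Agent.Lib.MP_ccffa6_gt

open WA

variable {V : Type} [NormedAddCommGroup V] [NormedSpace ℝ V] [FiniteDimensional ℝ V] {k : ℕ}
  {T : TD k V} {κ : ℂ → ℂ} {G δ r : ℝ}

/-- Minus the complex conjugation. -/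
def cj (k : ℕ) : Cm k →L[ℝ] Cm k :=
  LinearMap.toContinuousLinearMap
    { toFun := fun X => WithLp.toLp 2 fun j => -conj (X j)
      map_add' := fun X Y => by ext j; simp [add_comm]
      map_smul' := fun c X => by ext j; simp }

theorem cj_apply (X : Cm k) (j : Fin (k + 2)) : cj k X j = -conj (X j) := rfl

/-- Multiplication by `i`. -/
def jI (k : ℕ) : Cm k →L[ℝ] Cm k :=
  (Complex.I • ContinuousLinearMap.id ℂ (Cm k)).restrictScalars ℝ

theorem jI_apply (X : Cm k) : jI k X = Complex.I • X := rfl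

theorem cj_alg : (∀ X, jI k (jI k X) = -X) ∧ (∀ X, cj k (cj k X) = X) ∧
    ∀ X, cj k (jI k X) = -jI k (cj k X) := by
  refine ⟨fun X => ?_, fun X => ?_, fun X => ?_⟩
  · rw [jI_apply, jI_apply, smul_smul, Complex.I_mul_I, neg_one_smul]
  · ext j
    simp [cj_apply]
  · ext j
    simp [cj_apply, jI_apply]

/-- Multiplication of the coordinate `w` by `c`. -/
def dg (c : ℂ) (X : Cm k) : Cm k := WithLp.toLp 2 fun j => if j = 1 then c * X j else X j

/-- The holomorphic fields tangent to the boundary condition. -/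
def kerX (κ : ℂ → ℂ) (b : Fin (k + 2) → ℝ) (c : ℂ) (z : ℂ) : Cm k :=
  WithLp.toLp 2 fun j => if j = 1 then kerF κ (b 1) c z else Complex.I * b j

/-- Diagonal maps. -/
def SL1_mul (k : ℕ) : (Fin (k + 2) → ℂ) →L[ℝ] Cm k →L[ℝ] Cm k :=
  LinearMap.toContinuousLinearMap
    { toFun := fun c => LinearMap.toContinuousLinearMap
        { toFun := fun X => WithLp.toLp 2 fun j => c j * X j
          map_add' := fun X Y => by ext j; simp [mul_add]
          map_smul' := fun t X => by ext j; simp [mul_left_comm] }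
      map_add' := fun c d => by ext X j; simp [add_mul]
      map_smul' := fun t c => by ext X j; simp [mul_assoc] }

theorem SL1_mul_apply (c : Fin (k + 2) → ℂ) (X : Cm k) (j : Fin (k + 2)) :
    SL1_mul k c X j = c j * X j := rfl

theorem SL1_co (j : Fin (k + 2)) : ContDiff ℝ ∞ fun h : Cm k => h j :=
  ((EuclideanSpace.proj j : Cm k →L[ℂ] ℂ).restrictScalars ℝ).contDiff

theorem SL1_h0 (z : ℂ) : h0 k κ z 1 = κ z ∧ ∀ j, j ≠ 0 → j ≠ 1 → h0 k κ z j = 1 :=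
  ⟨by simp [h0], fun j h1 h2 => by simp [h0, xpt, h1, h2]⟩

theorem SL1_glue (hT : T.OK) (hκ : Kap κ) (n : ℕ) {X : Type} [NormedAddCommGroup X]
    [NormedSpace ℝ X] [FiniteDimensional ℝ X] {A : X →L[ℝ] X} (hA : ∀ x, A (A x) = x)
    {f : Cm k → X} (hs : ∀ z ∈ Sq, ContDiffAt ℝ ∞ f (h0 k κ z))
    (hf : ∀ h ∈ T.O, T.Θ h ∈ T.Vs → 2⁻¹ < ‖h 1‖ → ‖h 1‖ < 2 → f (sig h) = A (f h)) :
    ∃ u : WA n X, Eqv A A (fn u) ∧ ∀ z ∈ Sq, fn u z = f (h0 k κ z) := by
  obtain ⟨F, h1, h2, h3, h4⟩ := exists_glue ⟨hA, hA, fun _ => rfl⟩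
    (fun z hz => (hs z hz).comp z (hκ.contDiffAt_h0 hz)) (hκ.locEqv hT hf)
  obtain ⟨u, rfl⟩ := of_smooth (k := n) h1 h2
  exact ⟨u, h3, fun z hz => (h4 z hz).self_of_nhds⟩

theorem SL1_cut (hκ : Kap κ) : ∃ ρ : ℂ → ℝ, ContDiff ℝ ∞ ρ ∧ (∀ᶠ w in 𝓝 0, ρ w = 0) ∧
    (∀ w, 2⁻¹ < ‖w‖ → ρ w = 1) ∧ ∀ z ∈ Sq, 4⁻¹ ≤ ‖z‖ → ρ (κ z) = 1 ∧ κ z ≠ 0 := by
  have h0 : ∀ z ∈ Sq ∩ {z | 4⁻¹ ≤ ‖z‖}, 0 < ‖κ z‖ := fun z hz => norm_pos_iff.2 fun e => by
    have h1 := hz.2
    rw [(hκ.zero z hz.1).1 e, mem_ofPred_eq, norm_zero] at h1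
    norm_num at h1
  obtain ⟨ε, hε, h1⟩ := (isCompact_sq.inter_right (isClosed_le continuous_const
    continuous_norm)).exists_forall_le' ((HolSq.continuousOn hκ.hol).mono inter_subset_left).norm h0
  have h2 : 0 < min ε 2⁻¹ := lt_min hε (by norm_num)
  let β : ContDiffBump (0 : ℂ) := ⟨min ε 2⁻¹ / 2, min ε 2⁻¹, half_pos h2, half_lt_self h2⟩
  have h3 : ∀ w : ℂ, min ε 2⁻¹ ≤ ‖w‖ → 1 - β w = 1 := fun w hw => by
    rw [β.zero_of_le_dist (by rwa [dist_zero_right]), sub_zero]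
  exact ⟨fun w => 1 - β w, contDiff_const.sub β.contDiff,
    β.eventuallyEq_one.mono fun w hw => sub_eq_zero.2 hw.symm,
    fun w hw => h3 w ((min_le_right _ _).trans hw.le),
    fun z hz h4 => ⟨h3 _ ((min_le_left _ _).trans (h1 z ⟨hz, h4⟩)), norm_pos_iff.1 (h0 z ⟨hz, h4⟩)⟩⟩

theorem exists_Phi (hT : T.OK) (hκ : Kap κ) : ∃ Φ : WA 3 (Cm k →L[ℝ] V),
    (∀ z X, fn Φ (r1 z) (cj k X) = T.S (fn Φ z X)) ∧
    (∀ z X, fn Φ (r2 z) (cj k X) = T.S (fn Φ z X)) ∧
    ∀ z ∈ Sq, ∀ X, fn Φ z X = fderiv ℝ T.Θ (h0 k κ z) (dg (κ z) X) := by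
  obtain ⟨Φ, h1, h2⟩ := SL1_glue hT hκ 3
    (A := (ContinuousLinearMap.compL ℝ (Cm k) V V T.S).comp
      ((ContinuousLinearMap.compL ℝ (Cm k) (Cm k) V).flip (cj k)))
    (fun L => by ext X; simp [hT.SS, cj_alg.2.1])
    (f := fun h => (fderiv ℝ T.Θ h).comp (SL1_mul k fun j => if j = 0 then 1 else h j))
    (fun z _ => ((hT.smΘ.fderiv_right (m := ∞) (by simp)).clm_comp ((SL1_mul k).contDiff.comp
      (contDiff_pi.2 fun j => by
        split_ifs
        exacts [contDiff_const, SL1_co j]))).contDiffAt)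
    fun h hh hs _ _ => ContinuousLinearMap.ext fun X => by
      refine Eq.trans (congrArg (fderiv ℝ T.Θ (sig h)) ?_) (hT.dΘ_sig hh hs _)
      ext j
      by_cases hj : j = 0
      · simp [SL1_mul_apply, dsig, cj_apply, hj]
      · have h3 : conj (h j) ≠ 0 := (map_ne_zero _).2 ((hT.SΘ h hh hs).1 j hj)
        simp only [ContinuousLinearMap.coe_coe, SL1_mul_apply, dsig, sig, cj_apply, if_neg hj,
          map_mul, map_neg, Complex.conj_conj]
        field_simp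
  refine ⟨Φ, fun z X => ?_, fun z X => ?_, fun z hz X => ?_⟩
  · simp [h1.1, cj_alg.2.1]
  · simp [h1.2, cj_alg.2.1]
  · rw [h2 z hz]
    refine congrArg (fderiv ℝ T.Θ (h0 k κ z)) ?_
    ext j
    by_cases h3 : j = 1
    · simp [SL1_mul_apply, dg, h3, (SL1_h0 z).1]
    by_cases h4 : j = 0
    · simp [SL1_mul_apply, dg, h4]
    · simp [SL1_mul_apply, dg, h3, h4, (SL1_h0 z).2 j h4 h3]

theorem exists_Psi (hT : T.OK) (hκ : Kap κ) : ∃ Ψ : WA 2 (V →L[ℝ] Cm k),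
    (∀ z v, fn Ψ (r1 z) (T.S v) = cj k (fn Ψ z v)) ∧
    (∀ z v, fn Ψ (r2 z) (T.S v) = cj k (fn Ψ z v)) ∧
    ∀ z ∈ Sq, 4⁻¹ ≤ ‖z‖ → ∀ v ∈ Tan T.W (T.Θ (h0 k κ z)),
      fderiv ℝ T.Θ (h0 k κ z) (dg (κ z) (fn Ψ z v)) = v := by
  obtain ⟨ρ, r1, r2, r3, r4⟩ := SL1_cut hκ
  have r5 : ContDiff ℝ ∞ fun w => (ρ w : ℂ) := Complex.ofRealCLM.contDiff.comp r1
  have r6 : ContDiff ℝ ∞ fun w => (ρ w : ℂ) * w⁻¹ := contDiff_iff_contDiffAt.2 fun w => by
    by_cases hw : w = 0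
    · refine (contDiffAt_const (c := 0)).congr_of_eventuallyEq ?_
      filter_upwards [hw ▸ r2] with x hx
      simp [hx]
    · exact r5.contDiffAt.mul (contDiffAt_id.inv hw)
  obtain ⟨Ψ, h1, h2⟩ := SL1_glue hT hκ 2
    (A := (ContinuousLinearMap.compL ℝ V (Cm k) (Cm k) (cj k)).comp
      ((ContinuousLinearMap.compL ℝ V V (Cm k)).flip T.S))
    (fun L => by ext X; simp [hT.SS, cj_alg.2.1])
    (f := fun h => (SL1_mul k fun j => ρ (h 1) * if j = 0 then 1 else (h j)⁻¹).comp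
      ((fderiv ℝ T.Cc (T.Θ h)).comp (T.P (T.Θ h))))
    (fun z _ => ((SL1_mul k).contDiff.contDiffAt.comp _ (contDiffAt_pi.2 fun j => by
      split_ifs with h3
      · exact ((r5.comp (SL1_co 1)).mul contDiff_const).contDiffAt
      by_cases h4 : j = 1
      · subst h4
        exact (r6.comp (SL1_co 1)).contDiffAt
      · exact (r5.comp (SL1_co 1)).contDiffAt.mul ((SL1_co j).contDiffAt.inv
          (by rw [(SL1_h0 z).2 j h3 h4]; exact one_ne_zero)))).clm_comp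
      (((hT.smC.fderiv_right (m := ∞) (by simp)).comp hT.smΘ).clm_comp
        (hT.smP.comp hT.smΘ)).contDiffAt)
    fun h hh hs h3 h4 => ContinuousLinearMap.ext fun v => by
      have h5 := hT.dC_sig hh hs (T.S v)
      have h6 : ρ (sig h 1) = 1 := r3 _ (by
        rw [show sig h 1 = (conj (h 1))⁻¹ by simp [sig], norm_inv, Complex.norm_conj]
        exact inv_strictAnti₀ (lt_trans (by norm_num) h3) h4)
      rw [hT.SS] at h5
      ext j
      simp only [ContinuousLinearMap.comp_apply, ContinuousLinearMap.compL_apply,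
        ContinuousLinearMap.flip_apply, h5, h6, r3 _ h3, SL1_mul_apply, cj_apply]
      by_cases hj : j = 0
      · simp [dsig, hj]
      · have h7 : conj (h j) ≠ 0 := (map_ne_zero _).2 ((hT.SΘ h hh hs).1 j hj)
        simp only [dsig, sig, if_neg hj, map_mul, map_inv₀, Complex.ofReal_one, one_mul]
        field_simp
  refine ⟨Ψ, fun z v => ?_, fun z v => ?_, fun z hz h3 v hv => ?_⟩
  · simp [h1.1, hT.SS]
  · simp [h1.2, hT.SS]
  · obtain ⟨h4, h5, h6⟩ := hT.CΘ _ (hT.boxP (hκ.h0_box hT.l1 hz))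
    have h7 := hT.dΘC h4 h5 hv
    rw [h6] at h7
    refine Eq.trans (congrArg (fderiv ℝ T.Θ (h0 k κ z)) ?_) h7
    obtain ⟨h8, h9⟩ := r4 z hz h3
    ext j
    simp only [h2 z hz, ContinuousLinearMap.comp_apply, (hT.P_eq h4 v).2 hv, (SL1_h0 z).1, h8, dg,
      SL1_mul_apply]
    by_cases h3 : j = 1
    · simp [h3, (SL1_h0 z).1, h9]
    by_cases h4 : j = 0
    · simp [h4]
    · simp [h3, h4, (SL1_h0 z).2 j h4 h3]

theorem exists_kerV (hT : T.OK) (hκ : Kap κ) (b : Fin (k + 2) → ℝ) (c : ℂ) :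
    ∃ v : WA 3 V, Eqv T.S T.S (fn v) ∧
      ∀ z ∈ Sq, fn v z = fderiv ℝ T.Θ (h0 k κ z) (kerX κ b c z) := by
  obtain ⟨u, h1, h2⟩ := SL1_glue hT hκ 3 hT.SS
    (f := fun h => fderiv ℝ T.Θ h (WithLp.toLp 2 fun j => Complex.I * if j = 0 then (b 0 : ℂ) else
      if j = 1 then c + b 1 * h 1 + conj c * h 1 ^ 2 else b j * h j))
    (fun z _ => ((hT.smΘ.fderiv_right (m := ∞) (by simp)).clm_apply
      ((contDiff_piLp 2).2 fun j => contDiff_const.mul (by
        split_ifs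
        exacts [contDiff_const, (contDiff_const.add (contDiff_const.mul (SL1_co 1))).add
          (contDiff_const.mul ((SL1_co 1).pow 2)), contDiff_const.mul (SL1_co j)]))).contDiffAt)
    fun h hh hs _ _ => by
      refine Eq.trans (congrArg (fderiv ℝ T.Θ (sig h)) ?_) (hT.dΘ_sig hh hs _)
      ext j
      by_cases hj : j = 0
      · simp [dsig, hj]
      have h3 : conj (h j) ≠ 0 := (map_ne_zero _).2 ((hT.SΘ h hh hs).1 j hj)
      by_cases h4 : j = 1
      · subst h4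
        simp only [dsig, sig, if_neg hj, if_true, map_mul, map_add, map_pow, Complex.conj_conj,
          Complex.conj_I, Complex.conj_ofReal]
        field_simp
        ring
      · simp only [dsig, sig, if_neg hj, if_neg h4, map_mul, Complex.conj_I, Complex.conj_ofReal]
        field_simp
  refine ⟨u, h1, fun z hz => (h2 z hz).trans (congrArg (fderiv ℝ T.Θ (h0 k κ z)) ?_)⟩
  ext j
  by_cases h3 : j = 1
  · simp [kerX, kerF, h3, (SL1_h0 z).1]
  by_cases h4 : j = 0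
  · simp [kerX, h4]
  · simp [kerX, h3, h4, (SL1_h0 z).2 j h4 h3]

end Pool.Agent.Lib.MP_ccffa6_gt
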