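import Pool.Agent.Lib.MP_ccffa6_gt.T.SL1

/-! Solving the linearised equation. -/

open Set Filter Topology MeasureTheory
open scoped ContDiff ComplexConjugate Real

noncomputable section

namespace Pool.Agent.Lib.MP_ccffa6_gt

open WA

variable {V : Type} [NormedAddCommGroup V] [NormedSpace ℝ V] [FiniteDimensional ℝ V] {k : ℕ}
  {T : TD k V} {κ : ℂ → ℂ} {G δ r : ℝ}

variable {u₀ : ℂ → V}

theorem SL2_sq {z : ℂ} (h : ‖z‖ ≤ 1) : z ∈ Sq := by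
  have := Real.pi_gt_three
  exact ⟨by linarith [Complex.abs_re_le_norm z], by linarith [Complex.abs_im_le_norm z]⟩

theorem SL2_dg (c : ℂ) (X : Cm k) : dg c X = X + ((c - 1) * X 1) • e1 k := by
  ext j
  by_cases h : j = 1
  · subst h; simp [dg, e1]; ring
  · simp [dg, e1, h]

theorem SL2_db {g : ℂ → Cm k} {z c : ℂ} (hκ : HasDerivAt κ c z) (hg : DifferentiableAt ℝ g z) :
    DifferentiableAt ℝ (fun w => dg (κ w) (g w)) z ∧
      px (fun w => dg (κ w) (g w)) z + Complex.I • py (fun w => dg (κ w) (g w)) z =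
        dg (κ z) (px g z + Complex.I • py g z) := by
  let p : Cm k →L[ℝ] ℂ := (EuclideanSpace.proj (1 : Fin (k + 2)) : Cm k →L[ℂ] ℂ).restrictScalars ℝ
  have h1 := (hκ.hasFDerivAt.restrictScalars ℝ).sub_const 1
  have h2 : HasFDerivAt (fun w => g w 1) (p.comp (fderiv ℝ g z)) z :=
    p.hasFDerivAt.comp z hg.hasFDerivAt
  have h3 := hg.hasFDerivAt.add ((h1.mul h2).smul_const (e1 k))
  have e : (fun w => dg (κ w) (g w)) = g + fun w => ((fun x => κ x - 1) * fun w => g w 1) w • e1 k :=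
    funext fun w => SL2_dg _ _
  rw [e]
  refine ⟨h3.differentiableAt, ?_⟩
  rw [px, py, h3.fderiv, SL2_dg]
  ext j
  simp [px, py, p]
  linear_combination (g z 1 * c * e1 k j) * Complex.I_mul_I

theorem solve_near (hT : T.OK) (hκ : Kap κ) (hs : ContDiff ℝ ∞ u₀) (hp : Per u₀)
    (hu : ∀ z ∈ Sq, u₀ =ᶠ[𝓝 z] fun w => T.Θ (h0 k κ w)) (η : WA 2 V)
    (ht : ∀ z ∈ Sq, fn η z ∈ Tan T.W (u₀ z)) :
    ∃ v : WA 3 V, Eqv T.S T.S (fn v) ∧ (∀ z ∈ Sq, fn v z ∈ Tan T.W (u₀ z)) ∧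
      (∀ z ∈ Sq, T.Lpt u₀ (fn v) z ∈ Tan T.W (u₀ z)) ∧
      ∀ z ∈ Sq, ‖z‖ ≤ 4⁻¹ → T.Lpt u₀ (fn v) z = fn η z := by
  have hO : ∀ z ∈ Sq, h0 k κ z ∈ T.O := fun z hz => hT.boxP (hκ.h0_box hT.l1 hz)
  obtain ⟨A, hA⟩ := of_smooth (k := 2) (f := fun z => fderiv ℝ T.Cc (u₀ z))
    ((hT.smC.fderiv_right (m := ∞) (by simp)).comp hs)
    fun z => by simp only [(hp z).1, (hp z).2, and_self]
  set X₁ : WA 3 (Cm k) := dbInv (jI k) (app A η) with hX₁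
  set m : Cm k := mean (app A η) with hm
  have db : ∀ z, px (fn X₁) z + Complex.I • py (fn X₁) z = fderiv ℝ T.Cc (u₀ z) (fn η z) - m := by
    intro z
    have h := congrArg (fun u => fn u z) (db_dbInv (cj_alg (k := k)).1 (app A η))
    simp only [fn_add, fn_sub, fn_lin, fn_dx, fn_dy, fn_const, fn_app, hA, jI_apply] at h
    exact h
  let χ : ContDiffBump (0 : ℂ) := ⟨3⁻¹, 2⁻¹, by norm_num, by norm_num⟩
  have χ0 : ∀ z : ℂ, 2⁻¹ ≤ ‖z‖ → χ z = 0 := fun z hz => χ.zero_of_le_dist (by simpa using hz)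
  let f₀ : ℂ → Cm k →L[ℝ] V := fun z => χ z • fderiv ℝ T.Θ (h0 k κ z)
  have s₀ : ContDiff ℝ ∞ f₀ := contDiff_iff_contDiffAt.2 fun z => by
    rcases le_or_gt ‖z‖ 1 with h | h
    · exact χ.contDiff.contDiffAt.smul ((hT.smΘ.fderiv_right (m := ∞) (by simp)).contDiffAt.comp z
        (hκ.contDiffAt_h0 (SL2_sq h)))
    · refine (contDiffAt_const (c := 0)).congr_of_eventuallyEq ?_
      filter_upwards [(isOpen_lt continuous_const continuous_norm).mem_nhds h] with w hw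
      simp only [f₀, χ0 w (le_trans (by norm_num) (le_of_lt hw)), zero_smul]
  have z₀ : ∀ z, 1 ≤ ‖z‖ → f₀ z = 0 := fun z hz => by
    simp only [f₀, χ0 z (le_trans (by norm_num) hz), zero_smul]
  have sre : ContDiff ℝ ∞ fun z : ℂ => z.re • m := Complex.reCLM.contDiff.smul contDiff_const
  obtain ⟨g₀, a₀, b₀, c₀, d₀⟩ := exists_perExt s₀ z₀
  obtain ⟨g₁, a₁, b₁, c₁, d₁⟩ := exists_perExt (f₀ := fun z => f₀ z (z.re • m)) (s₀.clm_apply sre)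
    fun z hz => by simp [z₀ z hz]
  obtain ⟨Φ₀, rfl⟩ := of_smooth (k := 3) a₀ b₀
  obtain ⟨Φ₁, rfl⟩ := of_smooth (k := 3) a₁ b₁
  let X : ℂ → Cm k := fun w => χ w • (fn X₁ w + w.re • m)
  have dY : ∀ z, DifferentiableAt ℝ (fun w : ℂ => w.re • m) z := sre.differentiable (by simp)
  have dX : ∀ z, DifferentiableAt ℝ X z := fun z =>
    ((χ.contDiff (n := 1)).differentiable (by simp) z).smul ((FSym_diff X₁ z).add (dY z))
  have ev : ∀ z ∈ Sq, fn (symm T.S T.S ((4 : ℝ) • (app Φ₀ X₁ + Φ₁))) z =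
      fderiv ℝ T.Θ (h0 k κ z) (X z) := fun z hz => by
    simp only [fn_symm, fn_smul, fn_add, fn_app, d₀ z hz, d₁ z hz, (c₀ z hz).eq_of_nhds,
      (c₁ z hz).eq_of_nhds, zero_apply, add_zero, map_zero, f₀, X, smul_apply, map_smul, map_add]
    module
  have L : ∀ z ∈ Sq, T.Lpt u₀ (fn (symm T.S T.S ((4 : ℝ) • (app Φ₀ X₁ + Φ₁)))) z =
      fderiv ℝ T.Θ (h0 k κ z) (px X z + Complex.I • py X z) := fun z hz =>
    Lpt_model hT hκ hz (hu z hz) (FSym_diff _ z) (dX z) (eventually_nhdsWithin_of_forall ev)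
  refine ⟨symm T.S T.S ((4 : ℝ) • (app Φ₀ X₁ + Φ₁)), eqv_symm hT.inv2.1 _, fun z hz => ?_,
    fun z hz => ?_, fun z hz h4 => ?_⟩
  · rw [ev z hz, (hu z hz).eq_of_nhds]
    exact hT.tanΘ (hO z hz) _
  · rw [L z hz, (hu z hz).eq_of_nhds]
    exact hT.tanΘ (hO z hz) _
  · have e : X =ᶠ[𝓝 z] fun w => fn X₁ w + w.re • m := by
      filter_upwards [χ.eventuallyEq_one_of_mem_ball (x := z)
        (by simpa using lt_of_le_of_lt h4 (by norm_num))] with w hw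
      simp only [X, hw, Pi.one_apply, one_smul]
    have d : HasFDerivAt (fun w : ℂ => fn X₁ w + w.re • m)
        (fderiv ℝ (fn X₁) z + Complex.reCLM.smulRight m) z :=
      (FSym_diff X₁ z).hasFDerivAt.add (Complex.reCLM.smulRight m).hasFDerivAt
    have e' : px X z + Complex.I • py X z = fderiv ℝ T.Cc (u₀ z) (fn η z) := by
      have h := db z
      rw [px, py] at h ⊢
      rw [e.fderiv_eq, d.fderiv, ← sub_add_cancel (fderiv ℝ T.Cc (u₀ z) (fn η z)) m, ← h]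
      simp
      abel
    have y := hT.CΘ _ (hO z hz)
    have t := ht z hz
    rw [L z hz, e']
    rw [(hu z hz).eq_of_nhds] at t ⊢
    have := hT.dΘC y.1 y.2.1 t
    rwa [y.2.2] at this

theorem solve_far (hT : T.OK) (hκ : Kap κ)
    (hu : ∀ z ∈ Sq, u₀ =ᶠ[𝓝 z] fun w => T.Θ (h0 k κ w)) (η : WA 2 V)
    (he : Eqv (-T.S) T.S (fn η)) (ht : ∀ z ∈ Sq, fn η z ∈ Tan T.W (u₀ z))
    (h0' : ∀ z ∈ Sq, ‖z‖ ≤ 4⁻¹ → fn η z = 0) :
    ∃ v : WA 3 V, Eqv T.S T.S (fn v) ∧ (∀ z ∈ Sq, fn v z ∈ Tan T.W (u₀ z)) ∧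
      ∀ z ∈ Sq, T.Lpt u₀ (fn v) z = fn η z := by
  have hO : ∀ z ∈ Sq, h0 k κ z ∈ T.O := fun z hz => hT.boxP (hκ.h0_box hT.l1 hz)
  obtain ⟨Φ, Φ₁, Φ₂, Φ₃⟩ := exists_Phi hT hκ
  obtain ⟨Ψ, Ψ₁, Ψ₂, Ψ₃⟩ := exists_Psi hT hκ
  have hG' : Eqv (-cj k) (cj k) (fn (app Ψ η)) :=
    eqv_app (fun z v => by simp [Ψ₁]) Ψ₂ he
  obtain ⟨g, hg, db⟩ := exists_db cj_alg.1 cj_alg.2.1 cj_alg.2.2 hG'
  have ev : ∀ z ∈ Sq, fn (app Φ g) z = fderiv ℝ T.Θ (h0 k κ z) (dg (κ z) (fn g z)) :=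
    fun z hz => by rw [fn_app, Φ₃ z hz]
  refine ⟨app Φ g, eqv_app Φ₁ Φ₂ hg, fun z hz => ?_, fun z hz => ?_⟩
  · rw [ev z hz, (hu z hz).eq_of_nhds]
    exact hT.tanΘ (hO z hz) _
  · obtain ⟨U, hU, sU, dU⟩ := hκ.hol
    obtain ⟨d, e⟩ := SL2_db (dU.differentiableAt (hU.mem_nhds (sU hz))).hasDerivAt (FSym_diff g z)
    rw [Lpt_model hT hκ hz (hu z hz) (FSym_diff _ z) d (eventually_nhdsWithin_of_forall ev), e,
      ← jI_apply, db, fn_app]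
    rcases le_total ‖z‖ 4⁻¹ with h | h
    · rw [h0' z hz h, map_zero, SL2_dg]
      simp
    · exact Ψ₃ z hz h _ ((hu z hz).eq_of_nhds ▸ ht z hz)

end Pool.Agent.Lib.MP_ccffa6_gt
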