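import Pool.Agent.Lib.MP_ccffa6_gt.T.FDefs
import Pool.Agent.Lib.MP_ccffa6_gt.T.SC

/-! The standard solution `Θ ∘ h0`.

`h0_refl` is `Inner.refl` in each coordinate. `t_exists_std`: `exists_glue` with `S₁ = S₂ = S`; the local
equivariance comes from `SΘ` since `Θ (h0 v) ∈ Vs` and `h0 v ∈ O` near the boundary; the density is
`|κ'|²` by `omP`. -/

open Set Filter Topology MeasureTheory
open scoped ContDiff ComplexConjugate Real

noncomputable section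

namespace Pool.Agent.Lib.MP_ccffa6_gt

variable {V : Type} [NormedAddCommGroup V] [NormedSpace ℝ V] [FiniteDimensional ℝ V] {k : ℕ}
  {T : TD k V} {κ : ℂ → ℂ} {G δ r : ℝ}

/-- The unit vector of the coordinate `w`. -/
def e1 (k : ℕ) : Cm k := WithLp.toLp 2 fun j => if j = 1 then 1 else 0

theorem SS_eq (k : ℕ) (κ : ℂ → ℂ) : h0 k κ = fun z => κ z • e1 k + h0 k 0 0 := by
  funext z
  ext j
  by_cases h : j = 1 <;> simp [h0, e1, h]

theorem SS_zero (κ : ℂ → ℂ) (z : ℂ) : h0 k κ z 0 = 0 := by simp [h0, xpt]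

theorem SS_one (κ : ℂ → ℂ) (z : ℂ) : h0 k κ z 1 = κ z := by simp [h0]

theorem SS_rest (κ : ℂ → ℂ) (z : ℂ) {j : Fin (k + 2)} (h : j ≠ 0) (h' : j ≠ 1) :
    h0 k κ z j = 1 := by simp [h0, xpt, h, h']

theorem SS_norm (k : ℕ) : ‖e1 k‖ = 1 := by
  have e : e1 k = EuclideanSpace.single 1 1 := by
    ext j
    simp [e1]
  rw [e, EuclideanSpace.single, PiLp.norm_single, norm_one]

theorem Kap.hasDerivAt_h0 (hκ : Kap κ) {z : ℂ} (hz : z ∈ Sq) :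
    ∀ᶠ v in 𝓝 z, HasDerivAt (h0 k κ) (deriv κ v • e1 k) v := by
  rw [SS_eq]
  exact (hκ.inner.1.analyticAt hz).eventually_analyticAt.mono fun v hv =>
    (hv.differentiableAt.hasDerivAt.smul_const _).add_const _

theorem Kap.contDiffAt_h0 (hκ : Kap κ) {z : ℂ} (hz : z ∈ Sq) : ContDiffAt ℝ ∞ (h0 k κ) z := by
  rw [SS_eq]
  exact (((hκ.inner.1.analyticAt hz).contDiffAt.smul contDiffAt_const).add
    contDiffAt_const).restrict_scalars ℝ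

theorem Kap.h0_box (hκ : Kap κ) {l : ℝ} (hl : 1 < l) {z : ℂ} (hz : z ∈ Sq) :
    h0 k κ z ∈ BoxP k l := fun j => by
  by_cases h : j = 0
  · rw [h, SS_zero, norm_zero]
    exact one_pos.trans hl
  by_cases h' : j = 1
  · rw [h', SS_one]
    exact (hκ.inner.norm_le hz).trans_lt hl
  · rwa [SS_rest κ z h h', norm_one]

theorem Kap.h0_lag (hκ : Kap κ) (hT : T.OK) {z : ℂ} (hz : z ∈ SqB) :
    h0 k κ z ∈ Larc k (-T.l) (T.D + T.l) := by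
  refine ⟨⟨by rw [SS_zero, Complex.zero_re], fun j h => ?_⟩, ?_, ?_⟩
  · by_cases h' : j = 1
    · rw [h', SS_one, hκ.bd z hz]
    · rw [SS_rest κ z h h', norm_one]
  all_goals
    rw [SS_zero, Complex.zero_im]
    linarith [hT.D0, hT.l1]

theorem Kap.h0_z1 (hκ : Kap κ) : h0 k κ z1 = xpt k 0 := by
  ext j
  by_cases h : j = 1 <;> simp [h0, xpt, h, hκ.one]

theorem SS_sig {a b : ℂ} (h : κ a = (conj (κ b))⁻¹) : h0 k κ a = sig (h0 k κ b) := by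
  ext j
  by_cases h1 : j = 0
  · simp [sig, h1, SS_zero]
  by_cases h2 : j = 1
  · simp [sig, h2, SS_one, h]
  · simp [sig, h1, SS_rest κ _ h1 h2]

theorem Kap.h0_refl (hκ : Kap κ) {z : ℂ} (hz : z ∈ Sq) :
    (z.re = π / 2 → ∀ᶠ v in 𝓝 z, h0 k κ (r1 v) = sig (h0 k κ v)) ∧
    (z.re = -(π / 2) → ∀ᶠ v in 𝓝 z, h0 k κ (r1 v - 2 * (π : ℂ)) = sig (h0 k κ v)) ∧
    (z.im = π / 2 → ∀ᶠ v in 𝓝 z, h0 k κ (r2 v) = sig (h0 k κ v)) ∧
    (z.im = -(π / 2) → ∀ᶠ v in 𝓝 z,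
      h0 k κ (r2 v - 2 * (π : ℂ) * Complex.I) = sig (h0 k κ v)) :=
  have h := hκ.inner.refl hz
  ⟨fun e => (h.1 e).mono fun _ => SS_sig, fun e => (h.2.1 e).mono fun _ => SS_sig,
    fun e => (h.2.2.1 e).mono fun _ => SS_sig, fun e => (h.2.2.2 e).mono fun _ => SS_sig⟩

theorem Kap.h0_near (hκ : Kap κ) (hT : T.OK) {z : ℂ} (hz : z ∈ SqB) :
    ∀ᶠ v in 𝓝 z, h0 k κ v ∈ T.O ∧ T.Θ (h0 k κ v) ∈ T.Vs :=
  have c := (hκ.contDiffAt_h0 (k := k) hz.1).continuousAt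
  (c.eventually (hT.opO.mem_nhds (hT.larc_sub (hκ.h0_lag hT hz)))).and
    ((hT.smΘ.continuous.continuousAt.comp c).eventually
      (hT.opVs.mem_nhds (hT.LVs _ (hκ.h0_lag hT hz))))

/-- A criterion for local equivariance of `z ↦ f (h0 z)`. -/
theorem Kap.locEqv (hκ : Kap κ) (hT : T.OK) {X : Type} [NormedAddCommGroup X] [NormedSpace ℝ X]
    {A : X →L[ℝ] X} {f : Cm k → X}
    (hf : ∀ h ∈ T.O, T.Θ h ∈ T.Vs → 2⁻¹ < ‖h 1‖ → ‖h 1‖ < 2 → f (sig h) = A (f h)) :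
    LocEqv A A fun z => f (h0 k κ z) := by
  have key : ∀ z ∈ SqB, ∀ {ρ : ℂ → ℂ}, (∀ᶠ v in 𝓝 z, h0 k κ (ρ v) = sig (h0 k κ v)) →
      ∀ᶠ v in 𝓝 z, f (h0 k κ (ρ v)) = A (f (h0 k κ v)) := fun z hz ρ h => by
    have c := (hκ.inner.1.analyticAt hz.1).continuousAt.norm.eventually
      (Ioo_mem_nhds (a := 2⁻¹) (b := 2) (two_inv_lt_one.trans_eq (hκ.bd z hz).symm)
        ((hκ.bd z hz).trans_lt one_lt_two))
    filter_upwards [h, c, hκ.h0_near hT hz] with v h1 h2 h3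
    rw [h1, hf _ h3.1 h3.2 (by rw [SS_one]; exact h2.1) (by rw [SS_one]; exact h2.2)]
  have h1 : |π / 2| = π / 2 := abs_of_pos Real.pi_div_two_pos
  have h2 : |-(π / 2)| = π / 2 := (abs_neg _).trans h1
  intro z hz
  have h := hκ.h0_refl (k := k) hz
  exact ⟨fun e => key z ⟨hz, .inl (e ▸ h1)⟩ (h.1 e), fun e => key z ⟨hz, .inl (e ▸ h2)⟩ (h.2.1 e),
    fun e => key z ⟨hz, .inr (e ▸ h1)⟩ (h.2.2.1 e), fun e => key z ⟨hz, .inr (e ▸ h2)⟩ (h.2.2.2 e)⟩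

theorem t_exists_std (hT : T.OK) (hκ : Kap κ) :
    ∃ u₀, Sol T κ 0 u₀ ∧ ∀ z ∈ Sq, u₀ =ᶠ[𝓝 z] fun v => T.Θ (h0 k κ v) := by
  obtain ⟨u, h1, h2, h3, h4⟩ := exists_glue ⟨hT.SS, hT.SS, fun _ => rfl⟩
    (fun z hz => hT.smΘ.contDiffAt.comp z (hκ.contDiffAt_h0 hz))
    (hκ.locEqv hT fun h hO hV _ _ => (hT.SΘ h hO hV).2.2)
  have hB : ∀ z ∈ Sq, h0 k κ z ∈ BoxP k T.l := fun z hz => hκ.h0_box hT.l1 hz
  have e0 : ∀ z ∈ Sq, u z = T.Θ (h0 k κ z) := fun z hz => (h4 z hz).self_of_nhds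
  have e1 : ∀ z ∈ Sq, px u z = fderiv ℝ T.Θ (h0 k κ z) (deriv κ z • e1 k) ∧
      py u z = fderiv ℝ T.Θ (h0 k κ z) (Complex.I • deriv κ z • e1 k) := fun z hz => by
    obtain ⟨c1, c2⟩ := cr_of_hasDerivAt (hκ.hasDerivAt_h0 (k := k) hz).self_of_nhds
    rw [← c2, ← c1, px, py, (h4 z hz).fderiv_eq, fderiv_comp z (hT.smΘ.differentiable (by simp) _)
      ((hκ.contDiffAt_h0 hz).differentiableAt (by simp))]
    exact ⟨rfl, rfl⟩
  have e2 : ∀ z ∈ Sq, dens T.lam u z = ‖deriv κ z‖ ^ 2 := fun z hz => by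
    rw [dens, e0 z hz, (e1 z hz).1, (e1 z hz).2, hT.omP _ (hB z hz), inner_smul_right,
      inner_self_eq_norm_sq_to_K, norm_smul, SS_norm, mul_one]
    simp [← Complex.ofReal_pow]
  refine ⟨u, ⟨h1, h2, h3.1, h3.2, fun z hz => ?_, fun z hz => ?_, fun z hz => ?_, ?_, ?_, ?_, ?_⟩,
    h4⟩
  · exact e0 z hz ▸ (hT.CΘ _ (hT.boxP (hB z hz))).1
  · rw [e0 z hz, (e1 z hz).1, (e1 z hz).2, hT.hol _ (hT.boxP (hB z hz)),
      hT.hol _ (hT.boxP (hB z hz)), smul_smul Complex.I Complex.I, Complex.I_mul_I, neg_one_smul,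
      map_neg, neg_neg]
    exact ⟨rfl, rfl⟩
  · exact ⟨_, hκ.h0_lag hT hz, (e0 z hz.1).symm⟩
  · rw [setIntegral_congr_fun measurableSet_sq e2, hκ.area]
  · rw [setIntegral_congr_fun measurableSet_sq fun z hz => by rw [e2 z hz],
      hκ.integral hκ.inner.1, (hκ.zero 0 (interior_subset zero_mem_interior_sq)).2 rfl, mul_zero]
  · rw [e0 z1 z1_mem.1, hκ.h0_z1, zero_mul]
  · rw [← hκ.area]
    refine setIntegral_congr_fun measurableSet_sq fun z hz => ?_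
    have e3 : (fun w => T.Cc (u w) 1) =ᶠ[𝓝 z] κ := by
      filter_upwards [h4 z hz, (hκ.contDiffAt_h0 hz).continuousAt.eventually
        (hT.opO.mem_nhds (hT.boxP (hB z hz)))] with v h5 h6
      rw [h5, Function.comp_apply, (hT.CΘ _ h6).2.2, SS_one]
    obtain ⟨c1, c2⟩ := cr_of_hasDerivAt ((hκ.inner.1.analyticAt hz).differentiableAt.hasDerivAt
      |>.congr_of_eventuallyEq e3)
    rw [jac, c1, c2, smul_eq_mul, mul_left_comm, Complex.conj_mul']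
    simp [← Complex.ofReal_pow]

end Pool.Agent.Lib.MP_ccffa6_gt
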