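import Pool.Agent.Lib.MP_ccffa6_gt.T.WDef

/-!
Mean value over the period square.
-/

open Set Filter Topology
open scoped ContDiff Real

noncomputable section

namespace Pool.Agent.Lib.MP_ccffa6_gt.Wi

variable {V : Type} [NormedAddCommGroup V] [NormedSpace ℝ V] [CompleteSpace V]
  {W : Type} [NormedAddCommGroup W] [NormedSpace ℝ W] [CompleteSpace W] {f g : ℂ → V}

omit [NormedSpace ℝ V] [CompleteSpace V] in
theorem WAvg_i1 (hf : Continuous f) (x : ℝ) :
    IntervalIntegrable (fun y : ℝ => f (x + y * Complex.I)) MeasureTheory.volume (-π) π :=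
  Continuous.intervalIntegrable (by fun_prop) _ _

omit [CompleteSpace V] in
theorem WAvg_i2 (hf : Continuous f) : IntervalIntegrable
    (fun x : ℝ => ∫ y in (-π)..π, f (x + y * Complex.I)) MeasureTheory.volume (-π) π :=
  (intervalIntegral.continuous_parametric_intervalIntegral_of_continuous'
    (f := fun x y : ℝ => f (x + y * Complex.I)) (by fun_prop) _ _).intervalIntegrable _ _

theorem avg_add (hf : Continuous f) (hg : Continuous g) :
    avg (fun z => f z + g z) = avg f + avg g := by
  rw [avg, avg, avg, ← smul_add, ← intervalIntegral.integral_add (WAvg_i2 hf) (WAvg_i2 hg)]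
  simp only [fun x => intervalIntegral.integral_add (WAvg_i1 hf x) (WAvg_i1 hg x)]

theorem avg_smul (c : ℝ) (f : ℂ → V) : avg (fun z => c • f z) = c • avg f := by
  simp only [avg, intervalIntegral.integral_smul]
  exact smul_comm _ _ _

theorem avg_neg (f : ℂ → V) : avg (fun z => -f z) = -avg f := by
  simp only [avg, intervalIntegral.integral_neg, smul_neg]

theorem avg_sub (hf : Continuous f) (hg : Continuous g) :
    avg (fun z => f z - g z) = avg f - avg g := by
  simp only [sub_eq_add_neg]
  rw [avg_add (g := fun z => -g z) hf hg.neg, avg_neg]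

theorem avg_const (v : V) : avg (fun _ => v) = v := by
  have h : (4 * π ^ 2)⁻¹ * ((π - -π) * (π - -π)) = 1 := by
    have := Real.pi_pos
    field_simp
    ring
  simp only [avg, intervalIntegral.integral_const, smul_smul, h, one_smul]

theorem avg_clm (L : V →L[ℝ] W) (hf : Continuous f) : avg (fun z => L (f z)) = L (avg f) := by
  simp only [avg, fun x => L.intervalIntegral_comp_comm (WAvg_i1 hf x),
    L.intervalIntegral_comp_comm (WAvg_i2 hf), map_smul]

theorem avg_smul_const {φ : ℂ → ℝ} (hφ : Continuous φ) (v : V) :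
    avg (fun z => φ z • v) = avg φ • v := by
  exact avg_clm ((ContinuousLinearMap.id ℝ ℝ).smulRight v) hφ

theorem avg_sum {ι : Type} (s : Finset ι) {f : ι → ℂ → V} (hf : ∀ i ∈ s, Continuous (f i)) :
    avg (fun z => ∑ i ∈ s, f i z) = ∑ i ∈ s, avg (f i) := by
  classical
  induction s using Finset.induction_on with
  | empty => simpa using avg_const (0 : V)
  | insert i s hi ih =>
    have h := fun j hj => hf j (Finset.mem_insert_of_mem hj)
    simp only [Finset.sum_insert hi]
    rw [avg_add (hf i (Finset.mem_insert_self _ _)) (continuous_finsetSum _ h), ih h]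

theorem norm_avg_le {M : ℝ} (h : ∀ z, ‖f z‖ ≤ M) : ‖avg f‖ ≤ M := by
  have h0 := Real.pi_pos
  have h1 := intervalIntegral.norm_integral_le_of_norm_le_const (a := -π) (b := π) fun x _ =>
    intervalIntegral.norm_integral_le_of_norm_le_const (a := -π) (b := π)
      fun (y : ℝ) _ => h ((x : ℝ) + y * Complex.I)
  rw [abs_of_pos (by linarith)] at h1
  rw [avg, norm_smul, Real.norm_of_nonneg (by positivity), inv_mul_le_iff₀ (by positivity)]
  exact h1.trans_eq (by ring)

theorem avg_nonneg {φ : ℂ → ℝ} (h : ∀ z, 0 ≤ φ z) : 0 ≤ avg φ := by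
  have h0 : -π ≤ π := by linarith [Real.pi_pos]
  exact mul_nonneg (by positivity) (intervalIntegral.integral_nonneg h0 fun _ _ =>
    intervalIntegral.integral_nonneg h0 fun _ _ => h _)

theorem avg_mono {φ ψ : ℂ → ℝ} (hφ : Continuous φ) (hψ : Continuous ψ) (h : ∀ z, φ z ≤ ψ z) :
    avg φ ≤ avg ψ := by
  rw [← sub_nonneg, ← avg_sub hψ hφ]
  exact avg_nonneg fun z => sub_nonneg.2 (h z)

theorem norm_avg_le_avg (hf : Continuous f) : ‖avg f‖ ≤ avg fun z => ‖f z‖ := by
  obtain ⟨L, h1, h2⟩ := exists_dual_vector'' ℝ (avg f)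
  refine (h2.symm.trans (avg_clm L hf).symm).trans_le
    (avg_mono (L.continuous.comp hf) hf.norm fun z => (le_abs_self _).trans ?_)
  simpa using L.le_of_opNorm_le h1 (f z)

theorem l2_nonneg (f : ℂ → V) : 0 ≤ l2 f := by
  exact avg_nonneg fun _ => sq_nonneg _

theorem l2_le_of_bound (hf : Continuous f) {M : ℝ} (h : ∀ z, ‖f z‖ ≤ M) : l2 f ≤ M ^ 2 := by
  exact (avg_mono (hf.norm.pow 2) continuous_const
    fun z => pow_le_pow_left₀ (norm_nonneg _) (h z) 2).trans_eq (avg_const _)

theorem hasSum_avg {ι : Type} {g : ι → ℂ → V} (hc : ∀ j, Continuous (g j)) {M : ι → ℝ}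
    (hM : Summable M) (hb : ∀ j z, ‖g j z‖ ≤ M j) :
    HasSum (fun j => avg (g j)) (avg fun z => ∑' j, g j z) := by
  refine Metric.tendsto_nhds.2 fun ε hε => (Metric.tendstoUniformly_iff.1
    (tendstoUniformly_tsum hM hb) _ (half_pos hε)).mono fun s hs => ?_
  rw [dist_comm, dist_eq_norm, ← avg_sum s fun j _ => hc j,
    ← avg_sub (continuous_tsum hc hM hb) (continuous_finsetSum _ fun j _ => hc j)]
  exact (norm_avg_le fun z => ((dist_eq_norm _ _).symm.trans_lt (hs z)).le).trans_lt (half_lt_self hε)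

end Pool.Agent.Lib.MP_ccffa6_gt.Wi
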