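import Pool.Agent.Lib.MP_ccffa6_gt.T.WAvg

/-!
Mean value: exchange of the variables, derivatives, symmetries.
Sketch: `avg_swap` is Fubini for a continuous function on a rectangle. `avg_py`: fundamental theorem of
calculus in the inner integral, `avg_px` after `avg_swap`. `avg_shift`:
`Function.Periodic.intervalIntegral_add_eq` in each variable. `avg_conj`, `avg_negArg`:
`intervalIntegral.integral_comp_neg`.
-/

open Set Filter Topology
open scoped ContDiff Real

noncomputable section

namespace Pool.Agent.Lib.MP_ccffa6_gt.Wi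

variable {V : Type} [NormedAddCommGroup V] [NormedSpace ℝ V] [CompleteSpace V]
  {W : Type} [NormedAddCommGroup W] [NormedSpace ℝ W] [CompleteSpace W] {f g : ℂ → V}

theorem avg_swap (hf : Continuous f) :
    avg f = (4 * π ^ 2)⁻¹ • ∫ y in (-π)..π, ∫ x in (-π)..π, f (x + y * Complex.I) := by
  unfold avg
  rw [MeasureTheory.intervalIntegral_intervalIntegral_swap]
  exact ((show Continuous fun p : ℝ × ℝ => f (p.1 + p.2 * Complex.I) by
    fun_prop).continuousOn.integrableOn_compact (isCompact_uIcc.prod isCompact_uIcc)).mono_set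
      (prod_mono uIoc_subset_uIcc uIoc_subset_uIcc)

theorem WAvg2_ftc (hf : ContDiff ℝ 1 f) (a d : ℂ) (h : ∀ z, f (z + 2 * (π : ℂ) * d) = f z) :
    ∫ t in (-π)..π, fderiv ℝ f (a + t * d) d = 0 := by
  have h1 : ∀ t : ℝ, HasDerivAt (fun t : ℝ => f (a + t * d)) (fderiv ℝ f (a + t * d) d) t := by
    intro t
    have := (hf.differentiable one_ne_zero _).hasFDerivAt.comp_hasDerivAt t
      (((Complex.ofRealCLM.hasDerivAt (x := t)).mul_const d).const_add a)
    simpa [Function.comp_def] using this
  have h2 := hf.continuous_fderiv one_ne_zero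
  rw [intervalIntegral.integral_eq_sub_of_hasDerivAt (fun t _ => h1 t)
    (Continuous.intervalIntegrable (by fun_prop) _ _), sub_eq_zero, ← h (a + (-π : ℝ) * d)]
  congr 1
  push_cast
  ring

omit [CompleteSpace V] in
theorem WAvg2_per {g : ℝ → V} (h : Function.Periodic g (2 * π)) (c : ℝ) :
    ∫ t in (-π)..π, g (t + c) = ∫ t in (-π)..π, g t := by
  have := h.intervalIntegral_add_eq (-π + c) (-π)
  rw [intervalIntegral.integral_comp_add_right, show π + c = -π + c + 2 * π by ring, this,
    show -π + 2 * π = π by ring]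

theorem avg_px (hf : ContDiff ℝ 1 f) (hp : Per f) : avg (px f) = 0 := by
  have h2 := hf.continuous_fderiv one_ne_zero
  have h3 : ∀ y : ℝ, ∫ x in (-π)..π, px f (x + y * Complex.I) = 0 := fun y => by
    simpa [px, add_comm] using
      WAvg2_ftc hf (y * Complex.I) 1 fun z => by simpa using (hp z).1
  rw [avg_swap (by unfold px; fun_prop)]
  simp [h3]

theorem avg_py (hf : ContDiff ℝ 1 f) (hp : Per f) : avg (py f) = 0 := by
  have h3 : ∀ x : ℝ, ∫ y in (-π)..π, py f (x + y * Complex.I) = 0 := fun x =>
    WAvg2_ftc hf x Complex.I fun z => (hp z).2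
  simp [avg, h3]

theorem avg_shift (hf : Continuous f) (hp : Per f) (c : ℂ) :
    avg (fun z => f (z + c)) = avg f := by
  have h1 : ∀ x : ℝ, ∫ y in (-π)..π, f (x + y * Complex.I + c) =
      ∫ y in (-π)..π, f ((x + c.re : ℝ) + y * Complex.I) := fun x => by
    rw [← WAvg2_per (g := fun y : ℝ => f ((x + c.re : ℝ) + y * Complex.I)) (fun y => ?_) c.im]
    · refine intervalIntegral.integral_congr fun y _ => congrArg f ?_
      apply Complex.ext <;> simp
    · refine (congrArg f ?_).trans (hp _).2
      push_cast
      ring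
  unfold avg
  simp_rw [h1]
  rw [WAvg2_per (g := fun x : ℝ => ∫ y in (-π)..π, f (x + y * Complex.I)) fun x => ?_]
  refine intervalIntegral.integral_congr fun y _ => ?_
  refine (congrArg f ?_).trans (hp _).1
  push_cast
  ring

theorem avg_conj (f : ℂ → V) : avg (fun z => f ((starRingEnd ℂ) z)) = avg f := by
  unfold avg
  congr 1
  refine intervalIntegral.integral_congr fun x _ => ?_
  have := intervalIntegral.integral_comp_neg (a := -π) (b := π) fun y : ℝ => f (x + y * Complex.I)
  simpa using this

theorem avg_negArg (f : ℂ → V) : avg (fun z => f (-z)) = avg f := by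
  have h1 : ∀ x : ℝ, ∫ y in (-π)..π, f (-(x + y * Complex.I)) =
      ∫ y in (-π)..π, f ((-x : ℝ) + y * Complex.I) := fun x => by
    have := intervalIntegral.integral_comp_neg (a := -π) (b := π)
      fun y : ℝ => f ((-x : ℝ) + y * Complex.I)
    simpa [add_comm] using this
  have := intervalIntegral.integral_comp_neg (a := -π) (b := π)
    fun x : ℝ => ∫ y in (-π)..π, f (x + y * Complex.I)
  unfold avg
  simp_rw [h1]
  rw [this, neg_neg]

end Pool.Agent.Lib.MP_ccffa6_gt.Wi
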