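import Pool.Agent.Lib.MP_ccffa6_gt.T.WDef

/-!
Calculus of `px`, `py`, `lap`.
Sketch: `v = v.re • 1 + v.im • I`; `px_py` from `ContDiffAt.isSymmSndFDerivAt`; `per_bound`: reduce to the
compact square by `toIocMod` or floor in each variable.
-/

open Set Filter Topology
open scoped ContDiff Real

noncomputable section

namespace Pool.Agent.Lib.MP_ccffa6_gt.Wi

variable {V : Type} [NormedAddCommGroup V] [NormedSpace ℝ V] [CompleteSpace V]
  {W : Type} [NormedAddCommGroup W] [NormedSpace ℝ W] [CompleteSpace W]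
  {X : Type} [NormedAddCommGroup X] [NormedSpace ℝ X] [CompleteSpace X] {f g : ℂ → V} {k : ℕ}

omit [CompleteSpace V] in
theorem WCal_shift {a : ℂ} (h : ∀ w, f (w + a) = f w) (z : ℂ) :
    fderiv ℝ f (z + a) = fderiv ℝ f z := by
  rw [← fderiv_comp_add_right]
  simp only [h]

omit [CompleteSpace V] in
theorem WCal_d2 {z : ℂ} (hf : ContDiffAt ℝ 2 f z) (u v : ℂ) :
    fderiv ℝ (fun w => fderiv ℝ f w u) z v = fderiv ℝ (fderiv ℝ f) z v u := by
  have h1 : DifferentiableAt ℝ (fderiv ℝ f) z :=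
    (hf.fderiv_right (m := 1) (by norm_num)).differentiableAt (by simp)
  rw [fderiv_clm_apply h1 (differentiableAt_const u)]
  simp

omit [CompleteSpace V] in
theorem WCal_add {z : ℂ} (hf : DifferentiableAt ℝ f z) (hg : DifferentiableAt ℝ g z) (v : ℂ) :
    fderiv ℝ (fun w => f w + g w) z v = fderiv ℝ f z v + fderiv ℝ g z v := by
  rw [fderiv_fun_add hf hg]
  rfl

theorem fderiv_eq (f : ℂ → V) (z v : ℂ) : fderiv ℝ f z v = v.re • px f z + v.im • py f z := by
  have hv : v = v.re • (1 : ℂ) + v.im • Complex.I := by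
    apply Complex.ext <;> simp
  conv_lhs => rw [hv]
  simp only [map_add, map_smul, px, py]

theorem norm_fderiv_le (f : ℂ → V) (z : ℂ) : ‖fderiv ℝ f z‖ ≤ ‖px f z‖ + ‖py f z‖ := by
  refine ContinuousLinearMap.opNorm_le_bound _ (by positivity) fun v => ?_
  rw [fderiv_eq]
  refine (norm_add_le _ _).trans ?_
  rw [norm_smul, norm_smul, Real.norm_eq_abs, Real.norm_eq_abs]
  have h1 := Complex.abs_re_le_norm v
  have h2 := Complex.abs_im_le_norm v
  have h3 := norm_nonneg (px f z)
  have h4 := norm_nonneg (py f z)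
  nlinarith

theorem per_px (hp : Per f) : Per (px f) := by
  intro z
  simp only [px, WCal_shift (fun w => (hp w).1), WCal_shift (fun w => (hp w).2), and_self]

theorem per_py (hp : Per f) : Per (py f) := by
  intro z
  simp only [py, WCal_shift (fun w => (hp w).1), WCal_shift (fun w => (hp w).2), and_self]

theorem per_lap (hp : Per f) : Per (lap f) := by
  intro z
  have h1 := per_px (per_px hp) z
  have h2 := per_py (per_py hp) z
  simp only [lap, h1.1, h1.2, h2.1, h2.2, and_self]

theorem contDiff_px {n m : WithTop ℕ∞} (hf : ContDiff ℝ n f) (h : m + 1 ≤ n) :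
    ContDiff ℝ m (px f) := by
  exact (hf.fderiv_right h).clm_apply contDiff_const

theorem contDiff_py {n m : WithTop ℕ∞} (hf : ContDiff ℝ n f) (h : m + 1 ≤ n) :
    ContDiff ℝ m (py f) := by
  exact (hf.fderiv_right h).clm_apply contDiff_const

theorem contDiff_lap {n m : WithTop ℕ∞} (hf : ContDiff ℝ n f) (h : m + 2 ≤ n) :
    ContDiff ℝ m (lap f) := by
  have h' : m + 1 + 1 ≤ n := by
    rw [add_assoc, one_add_one_eq_two]
    exact h
  exact (contDiff_px (contDiff_px hf h') le_rfl).add (contDiff_py (contDiff_py hf h') le_rfl)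

theorem px_py {z : ℂ} (hf : ContDiffAt ℝ 2 f z) : px (py f) z = py (px f) z := by
  have h1 := WCal_d2 hf Complex.I 1
  have h2 := WCal_d2 hf 1 Complex.I
  have h3 := (hf.isSymmSndFDerivAt (by simp)).eq 1 Complex.I
  exact h1.trans (h3.trans h2.symm)

theorem contDiff_succ_of {n : ℕ} (hf : Differentiable ℝ f) (hx : ContDiff ℝ n (px f))
    (hy : ContDiff ℝ n (py f)) : ContDiff ℝ (n + 1 : ℕ) f := by
  have e : ((n + 1 : ℕ) : WithTop ℕ∞) = (n : WithTop ℕ∞) + 1 := by norm_cast
  rw [e, contDiff_succ_iff_fderiv]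
  refine ⟨hf, fun h => absurd h (by simp), contDiff_clm_apply_iff.2 fun v => ?_⟩
  simp only [fderiv_eq]
  exact (hx.const_smul v.re).add (hy.const_smul v.im)

theorem lap_px (hf : ContDiff ℝ 3 f) : lap (px f) = px (lap f) := by
  have h2 : ContDiff ℝ 2 f := hf.of_le (by norm_num)
  have hx : ContDiff ℝ 2 (px f) := contDiff_px hf (by norm_num)
  have hy : ContDiff ℝ 2 (py f) := contDiff_py hf (by norm_num)
  have hxx : ContDiff ℝ 1 (px (px f)) := contDiff_px hx (by norm_num)
  have hyy : ContDiff ℝ 1 (py (py f)) := contDiff_py hy (by norm_num)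
  have e : py (px f) = px (py f) := funext fun z => (px_py h2.contDiffAt).symm
  funext z
  have h3 : px (lap f) z = px (px (px f)) z + px (py (py f)) z :=
    WCal_add (hxx.differentiable (by simp) z) (hyy.differentiable (by simp) z) 1
  rw [h3, lap, e, px_py hy.contDiffAt]

theorem lap_py (hf : ContDiff ℝ 3 f) : lap (py f) = py (lap f) := by
  have h2 : ContDiff ℝ 2 f := hf.of_le (by norm_num)
  have hx : ContDiff ℝ 2 (px f) := contDiff_px hf (by norm_num)
  have hy : ContDiff ℝ 2 (py f) := contDiff_py hf (by norm_num)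
  have hxx : ContDiff ℝ 1 (px (px f)) := contDiff_px hx (by norm_num)
  have hyy : ContDiff ℝ 1 (py (py f)) := contDiff_py hy (by norm_num)
  have e : px (py f) = py (px f) := funext fun z => px_py h2.contDiffAt
  funext z
  have h3 : py (lap f) z = py (px (px f)) z + py (py (py f)) z :=
    WCal_add (hxx.differentiable (by simp) z) (hyy.differentiable (by simp) z) Complex.I
  rw [h3, lap, e, px_py hx.contDiffAt]

theorem per_bound (hf : Continuous f) (hp : Per f) : ∃ C : ℝ, ∀ z, ‖f z‖ ≤ C := by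
  obtain ⟨C, hC⟩ := (isCompact_closedBall (0 : ℂ) (4 * π)).exists_bound_of_continuousOn
    hf.continuousOn
  refine ⟨C, fun z => ?_⟩
  have p1 : Function.Periodic f (2 * (π : ℂ)) := fun w => (hp w).1
  have p2 : Function.Periodic f (2 * (π : ℂ) * Complex.I) := fun w => (hp w).2
  have hπ : (0 : ℝ) < 2 * π := Real.two_pi_pos
  have a1 := toIcoMod_mem_Ico hπ 0 z.re
  have a2 := toIcoMod_mem_Ico hπ 0 z.im
  rw [toIcoMod] at a1 a2
  set m := toIcoDiv hπ 0 z.re
  set n := toIcoDiv hπ 0 z.im
  have e : f (z - m • (2 * (π : ℂ)) - n • (2 * (π : ℂ) * Complex.I)) = f z := by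
    rw [p2.sub_zsmul_eq, p1.sub_zsmul_eq]
  rw [← e]
  refine hC _ ?_
  rw [Metric.mem_closedBall, dist_zero_right]
  refine (Complex.norm_le_abs_re_add_abs_im _).trans ?_
  have r1 : (z - m • (2 * (π : ℂ)) - n • (2 * (π : ℂ) * Complex.I)).re = z.re - m • (2 * π) := by
    simp
  have r2 : (z - m • (2 * (π : ℂ)) - n • (2 * (π : ℂ) * Complex.I)).im = z.im - n • (2 * π) := by
    simp
  rw [r1, r2, abs_of_nonneg a1.1, abs_of_nonneg a2.1]
  have b1 := a1.2
  have b2 := a2.2
  linarith

end Pool.Agent.Lib.MP_ccffa6_gt.Wi
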