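import Pool.Agent.Lib.MP_ccffa6_gt.T.WCal

/-! Chain and product rules for `px`, `py`, `lap`. -/

open Set Filter Topology
open scoped ContDiff Real

noncomputable section

namespace Pool.Agent.Lib.MP_ccffa6_gt.Wi

variable {V : Type} [NormedAddCommGroup V] [NormedSpace ℝ V]
  {W : Type} [NormedAddCommGroup W] [NormedSpace ℝ W]
  {X : Type} [NormedAddCommGroup X] [NormedSpace ℝ X] {f : ℂ → V} {g : ℂ → W} {z : ℂ}

/-- the derivative in the direction `v` -/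
def WCal2_d (v : ℂ) (f : ℂ → V) (z : ℂ) : V := fderiv ℝ f z v

theorem WCal2_app (v : ℂ) {A : ℂ → V →L[ℝ] W} (hA : DifferentiableAt ℝ A z)
    (hf : DifferentiableAt ℝ f z) :
    WCal2_d v (fun z => A z (f z)) z = WCal2_d v A z (f z) + A z (WCal2_d v f z) := by
  simp only [WCal2_d, fderiv_clm_apply hA hf]
  simp [add_comm]

theorem WCal2_comp (v : ℂ) {F : V → W} (hF : DifferentiableAt ℝ F (f z))
    (hf : DifferentiableAt ℝ f z) :
    WCal2_d v (fun z => F (f z)) z = fderiv ℝ F (f z) (WCal2_d v f z) :=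
  congrArg (fun L : ℂ →L[ℝ] W => L v) (fderiv_comp z hF hf)

theorem WCal2_clm (v : ℂ) (L : V →L[ℝ] W) (hf : DifferentiableAt ℝ f z) :
    WCal2_d v (fun z => L (f z)) z = L (WCal2_d v f z) := by
  rw [WCal2_comp v L.differentiableAt hf, L.fderiv]

theorem WCal2_bil (v : ℂ) (B : V →L[ℝ] W →L[ℝ] X) (hf : DifferentiableAt ℝ f z)
    (hg : DifferentiableAt ℝ g z) : WCal2_d v (fun z => B (f z) (g z)) z =
      B (WCal2_d v f z) (g z) + B (f z) (WCal2_d v g z) := by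
  rw [WCal2_app v (A := fun z => B (f z)) (B.differentiableAt.comp z hf) hg, WCal2_clm v B hf]

theorem WCal2_smul (v : ℂ) {φ : ℂ → ℝ} (hφ : DifferentiableAt ℝ φ z) (hf : DifferentiableAt ℝ f z) :
    WCal2_d v (fun z => φ z • f z) z = WCal2_d v φ z • f z + φ z • WCal2_d v f z :=
  WCal2_bil v (ContinuousLinearMap.lsmul ℝ ℝ) hφ hf

theorem WCal2_diff (v : ℂ) (hf : ContDiff ℝ 2 f) : Differentiable ℝ (WCal2_d v f) :=
  ((hf.fderiv_right (m := 1) (by norm_num)).clm_apply contDiff_const).differentiable (by simp)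

theorem WCal2_clm2 (v : ℂ) (L : V →L[ℝ] W) (hf : ContDiff ℝ 2 f) (z : ℂ) :
    WCal2_d v (WCal2_d v fun z => L (f z)) z = L (WCal2_d v (WCal2_d v f) z) := by
  rw [show (WCal2_d v fun z => L (f z)) = _ from
    funext fun z => WCal2_clm v L (hf.differentiable (by simp) z)]
  exact WCal2_clm v L (WCal2_diff v hf z)

theorem WCal2_smul2 (v : ℂ) {φ : ℂ → ℝ} (hφ : ContDiff ℝ 2 φ) (hf : ContDiff ℝ 2 f) (z : ℂ) :
    WCal2_d v (WCal2_d v fun z => φ z • f z) z = WCal2_d v (WCal2_d v φ) z • f z +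
      (2 : ℝ) • WCal2_d v φ z • WCal2_d v f z + φ z • WCal2_d v (WCal2_d v f) z := by
  have h1 := hφ.differentiable (by simp)
  have h2 := hf.differentiable (by simp)
  have h3 := WCal2_diff v hφ z
  have h4 := WCal2_diff v hf z
  rw [show (WCal2_d v fun z => φ z • f z) = _ from funext fun z => WCal2_smul v (h1 z) (h2 z)]
  refine (WCal_add (h3.smul (h2 z)) ((h1 z).smul h4) v).trans ?_
  refine (congrArg₂ (· + ·) (WCal2_smul v h3 (h2 z)) (WCal2_smul v (h1 z) h4)).trans ?_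
  rw [two_smul]
  abel

theorem WCal2_comp2 (v : ℂ) {F : V → W} (hF : ContDiff ℝ 2 F) (hf : ContDiff ℝ 2 f) (z : ℂ) :
    WCal2_d v (WCal2_d v fun z => F (f z)) z =
      fderiv ℝ (fderiv ℝ F) (f z) (WCal2_d v f z) (WCal2_d v f z) +
        fderiv ℝ F (f z) (WCal2_d v (WCal2_d v f) z) := by
  have h1 := hf.differentiable (by simp)
  have h2 : Differentiable ℝ (fderiv ℝ F) :=
    (hF.fderiv_right (m := 1) (by norm_num)).differentiable (by simp)
  rw [show (WCal2_d v fun z => F (f z)) = _ from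
      funext fun z => WCal2_comp v (hF.differentiable (by simp) _) (h1 z),
    WCal2_app v (A := fun z => fderiv ℝ F (f z)) ((h2 _).comp z (h1 z)) (WCal2_diff v hf z),
    WCal2_comp v (h2 _) (h1 z)]

theorem WCal2_congr (v : ℂ) {g : ℂ → V} (h : f =ᶠ[𝓝 z] g) : WCal2_d v f =ᶠ[𝓝 z] WCal2_d v g :=
  (h.fderiv (𝕜 := ℝ)).mono fun _ e => congrArg (fun L : ℂ →L[ℝ] V => L v) e

theorem WCal2_norm {v : ℂ} (hv : ‖v‖ = 1) (hf : ContDiff ℝ ∞ f) (j : ℕ) (z : ℂ) :
    ‖iteratedFDeriv ℝ j (WCal2_d v f) z‖ ≤ ‖iteratedFDeriv ℝ (j + 1) f z‖ := by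
  have h := norm_iteratedFDeriv_clm_apply_const (c := v) (x := z) (n := j)
    (hf.fderiv_right (m := ∞) (by simp)).contDiffAt (by exact_mod_cast le_top)
  rwa [hv, one_mul, norm_iteratedFDeriv_fderiv] at h

theorem px_add {g : ℂ → V} (hf : DifferentiableAt ℝ f z) (hg : DifferentiableAt ℝ g z) :
    px (fun z => f z + g z) z = px f z + px g z :=
  WCal_add hf hg 1

theorem py_add {g : ℂ → V} (hf : DifferentiableAt ℝ f z) (hg : DifferentiableAt ℝ g z) :
    py (fun z => f z + g z) z = py f z + py g z :=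
  WCal_add hf hg Complex.I

theorem px_clm (L : V →L[ℝ] W) (hf : DifferentiableAt ℝ f z) :
    px (fun z => L (f z)) z = L (px f z) :=
  WCal2_clm 1 L hf

theorem py_clm (L : V →L[ℝ] W) (hf : DifferentiableAt ℝ f z) :
    py (fun z => L (f z)) z = L (py f z) :=
  WCal2_clm Complex.I L hf

theorem px_bil (B : V →L[ℝ] W →L[ℝ] X) (hf : DifferentiableAt ℝ f z) (hg : DifferentiableAt ℝ g z) :
    px (fun z => B (f z) (g z)) z = B (px f z) (g z) + B (f z) (px g z) :=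
  WCal2_bil 1 B hf hg

theorem py_bil (B : V →L[ℝ] W →L[ℝ] X) (hf : DifferentiableAt ℝ f z) (hg : DifferentiableAt ℝ g z) :
    py (fun z => B (f z) (g z)) z = B (py f z) (g z) + B (f z) (py g z) :=
  WCal2_bil Complex.I B hf hg

theorem px_app {A : ℂ → V →L[ℝ] W} (hA : DifferentiableAt ℝ A z) (hf : DifferentiableAt ℝ f z) :
    px (fun z => A z (f z)) z = px A z (f z) + A z (px f z) :=
  WCal2_app 1 hA hf

theorem py_app {A : ℂ → V →L[ℝ] W} (hA : DifferentiableAt ℝ A z) (hf : DifferentiableAt ℝ f z) :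
    py (fun z => A z (f z)) z = py A z (f z) + A z (py f z) :=
  WCal2_app Complex.I hA hf

theorem px_fsmul {φ : ℂ → ℝ} (hφ : DifferentiableAt ℝ φ z) (hf : DifferentiableAt ℝ f z) :
    px (fun z => φ z • f z) z = px φ z • f z + φ z • px f z :=
  WCal2_smul 1 hφ hf

theorem py_fsmul {φ : ℂ → ℝ} (hφ : DifferentiableAt ℝ φ z) (hf : DifferentiableAt ℝ f z) :
    py (fun z => φ z • f z) z = py φ z • f z + φ z • py f z :=
  WCal2_smul Complex.I hφ hf

theorem px_comp {F : V → W} (hF : DifferentiableAt ℝ F (f z)) (hf : DifferentiableAt ℝ f z) :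
    px (fun z => F (f z)) z = fderiv ℝ F (f z) (px f z) :=
  WCal2_comp 1 hF hf

theorem py_comp {F : V → W} (hF : DifferentiableAt ℝ F (f z)) (hf : DifferentiableAt ℝ f z) :
    py (fun z => F (f z)) z = fderiv ℝ F (f z) (py f z) :=
  WCal2_comp Complex.I hF hf

theorem px_congr {g : ℂ → V} (h : f =ᶠ[𝓝 z] g) : px f =ᶠ[𝓝 z] px g :=
  WCal2_congr 1 h

theorem py_congr {g : ℂ → V} (h : f =ᶠ[𝓝 z] g) : py f =ᶠ[𝓝 z] py g :=
  WCal2_congr Complex.I h

theorem lap_congr {g : ℂ → V} (h : f =ᶠ[𝓝 z] g) : lap f =ᶠ[𝓝 z] lap g :=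
  (px_congr (px_congr h)).add (py_congr (py_congr h))

theorem lap_clm (L : V →L[ℝ] W) (hf : ContDiff ℝ 2 f) (z : ℂ) :
    lap (fun z => L (f z)) z = L (lap f z) :=
  (congrArg₂ (· + ·) (WCal2_clm2 1 L hf z) (WCal2_clm2 Complex.I L hf z)).trans
    (L.map_add _ _).symm

theorem pxpx_fsmul {φ : ℂ → ℝ} (hφ : ContDiff ℝ 2 φ) (hf : ContDiff ℝ 2 f) (z : ℂ) :
    px (px fun z => φ z • f z) z =
      px (px φ) z • f z + (2 : ℝ) • px φ z • px f z + φ z • px (px f) z :=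
  WCal2_smul2 1 hφ hf z

theorem pypy_fsmul {φ : ℂ → ℝ} (hφ : ContDiff ℝ 2 φ) (hf : ContDiff ℝ 2 f) (z : ℂ) :
    py (py fun z => φ z • f z) z =
      py (py φ) z • f z + (2 : ℝ) • py φ z • py f z + φ z • py (py f) z :=
  WCal2_smul2 Complex.I hφ hf z

theorem lap_fsmul {φ : ℂ → ℝ} (hφ : ContDiff ℝ 2 φ) (hf : ContDiff ℝ 2 f) (z : ℂ) :
    lap (fun z => φ z • f z) z =
      lap φ z • f z + (2 : ℝ) • (px φ z • px f z + py φ z • py f z) + φ z • lap f z := by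
  simp only [lap, pxpx_fsmul hφ hf, pypy_fsmul hφ hf, add_smul, smul_add]
  abel

theorem lap_comp {F : V → W} (hF : ContDiff ℝ 2 F) (hf : ContDiff ℝ 2 f) (z : ℂ) :
    lap (fun z => F (f z)) z =
      (fderiv ℝ (fderiv ℝ F) (f z) (px f z) (px f z) + fderiv ℝ F (f z) (px (px f) z)) +
      (fderiv ℝ (fderiv ℝ F) (f z) (py f z) (py f z) + fderiv ℝ F (f z) (py (py f) z)) :=
  congrArg₂ (· + ·) (WCal2_comp2 1 hF hf z) (WCal2_comp2 Complex.I hF hf z)

theorem norm_iteratedFDeriv_px (hf : ContDiff ℝ ∞ f) (j : ℕ) (z : ℂ) :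
    ‖iteratedFDeriv ℝ j (px f) z‖ ≤ ‖iteratedFDeriv ℝ (j + 1) f z‖ :=
  WCal2_norm norm_one hf j z

theorem norm_iteratedFDeriv_py (hf : ContDiff ℝ ∞ f) (j : ℕ) (z : ℂ) :
    ‖iteratedFDeriv ℝ j (py f) z‖ ≤ ‖iteratedFDeriv ℝ (j + 1) f z‖ :=
  WCal2_norm Complex.norm_I hf j z

end Pool.Agent.Lib.MP_ccffa6_gt.Wi
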