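import Pool.Agent.Lib.MP_ccffa6_gt.T.Defs

/-!
Wiener scale on the torus `ℂ / (2π ℤ + 2π i ℤ)`, function level definitions.
Real trigonometric system `tr (n, true) = cos (n·z)`, `tr (n, false) = sin (n·z)`, `n ∈ ℤ²`
(each frequency occurs twice, so `f = ∑ i, tr i • co f i` with `co f i` the mean of `tr i • f`).
-/

open Set Filter Topology
open scoped ContDiff Real

noncomputable section

namespace Pool.Agent.Lib.MP_ccffa6_gt.Wi

/-- Index set of the trigonometric system. -/
abbrev Ix : Type := (ℤ × ℤ) × Bool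

/-- Phase. -/
def ph (n : ℤ × ℤ) (z : ℂ) : ℝ := n.1 * z.re + n.2 * z.im

/-- Trigonometric system. -/
def tr (i : Ix) (z : ℂ) : ℝ := cond i.2 (Real.cos (ph i.1 z)) (Real.sin (ph i.1 z))

/-- Weight. -/
def wt (i : Ix) : ℝ := 1 + |(i.1.1 : ℝ)| + |(i.1.2 : ℝ)|

/-- Eigenvalue of minus the Laplacian. -/
def eig (i : Ix) : ℝ := (i.1.1 : ℝ) ^ 2 + (i.1.2 : ℝ) ^ 2

section

variable {V : Type} [NormedAddCommGroup V] [NormedSpace ℝ V]

/-- Mean value over the square `[-π, π]²`. -/
def avg (f : ℂ → V) : V :=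
  (4 * π ^ 2)⁻¹ • ∫ x in (-π)..π, ∫ y in (-π)..π, f (x + y * Complex.I)

/-- Fourier coefficient. -/
def co (f : ℂ → V) (i : Ix) : V := avg fun z => tr i z • f z

/-- Laplacian. -/
def lap (f : ℂ → V) (z : ℂ) : V := px (px f) z + py (py f) z

/-- Mean of the square of the norm. -/
def l2 (f : ℂ → V) : ℝ := avg fun z => ‖f z‖ ^ 2

/-- Wiener norm of order `k`. -/
def nA (k : ℕ) (f : ℂ → V) : ℝ := ∑' i, wt i ^ k * ‖co f i‖

end

/-- Membership in the Wiener class of order `k`. -/
structure MemA {V : Type} [NormedAddCommGroup V] [NormedSpace ℝ V] (k : ℕ) (f : ℂ → V) : Prop where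
  cont : Continuous f
  per : Per f
  summ : Summable fun i => wt i ^ k * ‖co f i‖

section fam

variable {ι V : Type} [NormedAddCommGroup V] [NormedSpace ℝ V]

/-- A family bounded in the Wiener class of order `k`. -/
def BA (k : ℕ) (w : ι → ℂ → V) : Prop := ∃ C : ℝ, ∀ i, MemA k (w i) ∧ nA k (w i) ≤ C

/-- A uniformly bounded family of continuous maps. -/
def B0 (w : ι → ℂ → V) : Prop := (∀ i, Continuous (w i)) ∧ ∃ C : ℝ, ∀ i z, ‖w i z‖ ≤ C

/-- A family of continuous maps bounded in mean square. -/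
def BL (w : ι → ℂ → V) : Prop := (∀ i, Continuous (w i)) ∧ ∃ C : ℝ, ∀ i, l2 (w i) ≤ C

/-- Bounded, with first derivatives bounded in mean square. -/
structure BH (w : ι → ℂ → V) : Prop where
  c1 : ∀ i, ContDiff ℝ 1 (w i)
  b0 : B0 w
  bx : BL fun i => px (w i)
  by' : BL fun i => py (w i)

/-- Periodic, twice differentiable, bounded with first derivatives, pure second derivatives bounded
in mean square. -/
structure B2 (w : ι → ℂ → V) : Prop where
  c2 : ∀ i, ContDiff ℝ 2 (w i)
  per : ∀ i, Per (w i)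
  b0 : B0 w
  bx : B0 fun i => px (w i)
  by' : B0 fun i => py (w i)
  bxx : BL fun i => px (px (w i))
  byy : BL fun i => py (py (w i))

end fam

end Pool.Agent.Lib.MP_ccffa6_gt.Wi
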