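import Pool.Agent.Lib.MP_ccffa6_gt.T.WTr2

/-! Uniqueness theorem. -/

open Set Filter Topology
open scoped ContDiff Real

noncomputable section

namespace Pool.Agent.Lib.MP_ccffa6_gt.Wi

theorem uniq1 {φ : ℝ → ℝ} (hc : Continuous φ) (hp : Function.Periodic φ (2 * π))
    (h1 : ∀ n : ℤ, ∫ x in (-π)..π, Real.cos (n * x) * φ x = 0)
    (h2 : ∀ n : ℤ, ∫ x in (-π)..π, Real.sin (n * x) * φ x = 0) (x : ℝ) : φ x = 0 := by
  have : Fact (0 < 2 * π) := ⟨Real.two_pi_pos⟩
  let F : C(AddCircle (2 * π), ℂ) := ⟨fun t => ((hp.lift t : ℝ) : ℂ),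
    Complex.continuous_ofReal.comp ((QuotientAddGroup.isQuotientMap_mk _).continuous_iff.2 hc)⟩
  have hF : ∀ t : ℝ, F (t : AddCircle (2 * π)) = φ t := fun _ => rfl
  have h0 : fourierCoeff F = fun _ => 0 := by
    funext n
    have e : ∀ t : ℝ, fourier (-n) (t : AddCircle (2 * π)) • F (t : AddCircle (2 * π)) =
        ((Real.cos (n * t) * φ t : ℝ) : ℂ) - Complex.I * ((Real.sin (n * t) * φ t : ℝ) : ℂ) := by
      intro t
      have hπ : (π : ℂ) ≠ 0 := by exact_mod_cast Real.pi_ne_zero
      have e1 : 2 * (π : ℂ) * Complex.I * ((-n : ℤ) : ℂ) * t / ((2 * π : ℝ) : ℂ) =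
          (-(n * t) : ℂ) * Complex.I := by
        push_cast
        field_simp
      rw [fourier_coe_apply, hF, e1, Complex.exp_mul_I]
      push_cast
      rw [Complex.cos_neg, Complex.sin_neg, smul_eq_mul]
      ring
    rw [fourierCoeff_eq_intervalIntegral F n (-π), show -π + 2 * π = π by ring]
    simp only [e]
    rw [intervalIntegral.integral_sub (Continuous.intervalIntegrable (by fun_prop) _ _)
      (Continuous.intervalIntegrable (by fun_prop) _ _), intervalIntegral.integral_const_mul,
      intervalIntegral.integral_ofReal, intervalIntegral.integral_ofReal, h1, h2]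
    simp
  have h3 := has_pointwise_sum_fourier_series_of_summable (f := F) (h0 ▸ summable_zero)
    (x : AddCircle (2 * π))
  simp only [h0, zero_smul] at h3
  exact_mod_cast (hF x).symm.trans (h3.unique hasSum_zero)

theorem WUniq_iter {g : ℂ → ℝ} {u v : ℝ → ℝ} (hg : Continuous g) {i j : Ix} {s t : ℝ}
    (hi : co g i = 0) (hj : co g j = 0) (e : ∀ z : ℂ, u z.re * v z.im = s * tr i z + t * tr j z) :
    ∫ x in (-π)..π, u x * ∫ y in (-π)..π, v y * g (x + y * Complex.I) = 0 := by
  have hc := continuous_tr
  have h1 : avg (fun z => u z.re * v z.im * g z) = 0 := by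
    have h2 : (fun z : ℂ => u z.re * v z.im * g z) =
        fun z => s • (tr i z • g z) + t • (tr j z • g z) := by
      funext z
      simp only [e, smul_eq_mul]
      ring
    rw [h2, avg_add (by have := hc i; fun_prop) (by have := hc j; fun_prop), avg_smul,
      avg_smul]
    change s • co g i + t • co g j = 0
    rw [hi, hj, smul_zero, smul_zero, add_zero]
  have h3 := (smul_eq_zero.1 h1).resolve_left (by positivity)
  rw [← h3]
  refine intervalIntegral.integral_congr fun x _ => ?_
  rw [← intervalIntegral.integral_const_mul]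
  refine intervalIntegral.integral_congr fun y _ => ?_
  simp [mul_assoc]

theorem WUniq_real {g : ℂ → ℝ} (hg : Continuous g) (hp : Per g) (h : ∀ i, co g i = 0) (z : ℂ) :
    g z = 0 := by
  have hc : ∀ v : ℝ → ℝ, Continuous v →
      Continuous fun x : ℝ => ∫ y in (-π)..π, v y * g (x + y * Complex.I) := fun v hv =>
    intervalIntegral.continuous_parametric_intervalIntegral_of_continuous' (by fun_prop) _ _
  have hq : ∀ v : ℝ → ℝ, Function.Periodic
      (fun x : ℝ => ∫ y in (-π)..π, v y * g (x + y * Complex.I)) (2 * π) := fun v x => by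
    refine intervalIntegral.integral_congr fun y _ => ?_
    rw [← (hp (x + y * Complex.I)).1]
    congr 2
    push_cast
    ring
  rw [← Complex.re_add_im z]
  refine uniq1 (φ := fun y : ℝ => g (z.re + y * Complex.I)) (by fun_prop) (fun y => ?_)
    (fun m => ?_) (fun m => ?_) z.im
  · beta_reduce
    rw [← (hp (z.re + y * Complex.I)).2]
    congr 1
    push_cast
    ring
  · refine uniq1 (hc (fun y => Real.cos (m * y)) (by fun_prop)) (hq _) (fun n => ?_)
      (fun n => ?_) z.re
    · refine WUniq_iter (u := fun x => Real.cos (n * x)) (s := 1 / 2) (t := 1 / 2) hg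
        (h ((n, m), true)) (h ((n, -m), true)) fun w => ?_
      simp only [tr, ph, cond_true, Int.cast_neg, neg_mul, Real.cos_add, Real.cos_neg,
        Real.sin_neg]
      ring
    · refine WUniq_iter (u := fun x => Real.sin (n * x)) (s := 1 / 2) (t := 1 / 2) hg
        (h ((n, m), false)) (h ((n, -m), false)) fun w => ?_
      simp only [tr, ph, cond_false, Int.cast_neg, neg_mul, Real.sin_add, Real.cos_neg,
        Real.sin_neg]
      ring
  · refine uniq1 (hc (fun y => Real.sin (m * y)) (by fun_prop)) (hq _) (fun n => ?_)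
      (fun n => ?_) z.re
    · refine WUniq_iter (u := fun x => Real.cos (n * x)) (s := 1 / 2) (t := -1 / 2) hg
        (h ((n, m), false)) (h ((n, -m), false)) fun w => ?_
      simp only [tr, ph, cond_false, Int.cast_neg, neg_mul, Real.sin_add, Real.cos_neg,
        Real.sin_neg]
      ring
    · refine WUniq_iter (u := fun x => Real.sin (n * x)) (s := -1 / 2) (t := 1 / 2) hg
        (h ((n, m), true)) (h ((n, -m), true)) fun w => ?_
      simp only [tr, ph, cond_true, Int.cast_neg, neg_mul, Real.cos_add, Real.cos_neg,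
        Real.sin_neg]
      ring

theorem eq_zero_of_co {V : Type} [NormedAddCommGroup V] [NormedSpace ℝ V] [CompleteSpace V]
    {f : ℂ → V} (hf : Continuous f) (hp : Per f) (h : ∀ i, co f i = 0) (z : ℂ) : f z = 0 := by
  refine SeparatingDual.eq_zero_of_forall_dual_eq_zero (R := ℝ) fun L => ?_
  refine WUniq_real (g := fun w => L (f w)) (L.continuous.comp hf)
    (fun w => ⟨congrArg L (hp w).1, congrArg L (hp w).2⟩) (fun i => ?_) z
  have h1 : co (fun w => L (f w)) i = avg fun w => L (tr i w • f w) := by
    simp only [co, map_smul]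
  rw [h1, avg_clm L (f := fun w => tr i w • f w) ((continuous_tr i).smul hf)]
  exact (congrArg L (h i)).trans L.map_zero

end Pool.Agent.Lib.MP_ccffa6_gt.Wi
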