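import Pool.Agent.Lib.MP_ccffa6_gt.T.WSyn
import Pool.Agent.Lib.MP_ccffa6_gt.T.WUniq

/-!
Fourier inversion and closure properties.
-/

open Set Filter Topology
open scoped ContDiff Real

noncomputable section

namespace Pool.Agent.Lib.MP_ccffa6_gt.Wi

variable {V : Type} [NormedAddCommGroup V] [NormedSpace ℝ V] [CompleteSpace V]
  {W : Type} [NormedAddCommGroup W] [NormedSpace ℝ W] [CompleteSpace W]
  {X : Type} [NormedAddCommGroup X] [NormedSpace ℝ X] [CompleteSpace X] {f g : ℂ → V} {k : ℕ}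

omit [CompleteSpace V] in
theorem WSyn2_nn (k : ℕ) (f : ℂ → V) (i : Ix) : 0 ≤ wt i ^ k * ‖co f i‖ :=
  mul_nonneg (pow_pos (wt_pos i) k).le (norm_nonneg _)

omit [CompleteSpace V] in
theorem WSyn2_dom (hc : Continuous f) (hp : Per f) {b : Ix → ℝ} (hb : Summable b)
    (h : ∀ i, wt i ^ k * ‖co f i‖ ≤ b i) : MemA k f ∧ nA k f ≤ ∑' i, b i :=
  have hs := hb.of_nonneg_of_le (WSyn2_nn k f) h
  ⟨⟨hc, hp, hs⟩, hs.tsum_le_tsum h hb⟩

omit [CompleteSpace V] in
theorem WSyn2_term (f : ℂ → V) (z : ℂ) (i : Ix) : ‖tr i z • co f i‖ ≤ ‖co f i‖ :=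
  (norm_smul_le _ _).trans (mul_le_of_le_one_left (norm_nonneg _) (abs_tr_le i z))

theorem nA_nonneg (k : ℕ) (f : ℂ → V) : 0 ≤ nA k f :=
  tsum_nonneg (WSyn2_nn k f)

theorem MemA.mono {j : ℕ} (hf : MemA k f) (h : j ≤ k) : MemA j f :=
  (WSyn2_dom hf.cont hf.per hf.summ fun i => mul_le_mul_of_nonneg_right
    (pow_le_pow_right₀ (one_le_wt i) h) (norm_nonneg _)).1

theorem MemA.nA_mono {j : ℕ} (hf : MemA k f) (h : j ≤ k) : nA j f ≤ nA k f :=
  (WSyn2_dom hf.cont hf.per hf.summ fun i => mul_le_mul_of_nonneg_right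
    (pow_le_pow_right₀ (one_le_wt i) h) (norm_nonneg _)).2

theorem MemA.summ0 (hf : MemA k f) : Summable fun i => ‖co f i‖ := by
  simpa using (hf.mono k.zero_le).summ

theorem MemA.co_le (hf : MemA k f) (i : Ix) : wt i ^ k * ‖co f i‖ ≤ nA k f :=
  hf.summ.le_tsum i fun j _ => WSyn2_nn k f j

/-- Fourier inversion. -/
theorem MemA.hasSum (hf : MemA k f) (z : ℂ) : HasSum (fun i => tr i z • co f i) (f z) := by
  have h1 := (synth (k := k) id (fun _ => le_rfl) hf.summ).1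
  have h2 := eq_zero_of_co (f := fun z => f z - ∑' j, tr j z • co f j) (hf.cont.sub h1.cont)
    (fun z => ⟨congrArg₂ (· - ·) (hf.per z).1 (h1.per z).1,
      congrArg₂ (· - ·) (hf.per z).2 (h1.per z).2⟩)
    (fun i => (co_sub hf.cont h1.cont i).trans
      (sub_eq_zero.2 (co_synth hf.summ0 (co_ng f) i).symm)) z
  rw [sub_eq_zero.1 h2]
  exact (Summable.of_norm_bounded hf.summ0 (WSyn2_term f z)).hasSum

theorem MemA.norm_le (hf : MemA k f) (z : ℂ) : ‖f z‖ ≤ nA k f := by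
  refine ((hf.hasSum z).norm_le_of_bounded hf.summ0.hasSum (WSyn2_term f z)).trans ?_
  simpa [nA] using hf.nA_mono k.zero_le

theorem MemA.norm_avg_le (hf : MemA k f) : ‖avg f‖ ≤ nA k f :=
  Wi.norm_avg_le hf.norm_le

theorem memA_const (k : ℕ) (v : V) : MemA k (fun _ => v) ∧ nA k (fun _ : ℂ => v) = ‖v‖ := by
  have h : HasSum (fun i => wt i ^ k * ‖co (fun _ : ℂ => v) i‖) ‖v‖ := by
    have := hasSum_single (f := fun i => wt i ^ k * ‖co (fun _ : ℂ => v) i‖) i0
      fun i hi => by simp [co_const, hi]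
    simpa [co_const] using this
  exact ⟨⟨continuous_const, fun _ => ⟨rfl, rfl⟩, h.summable⟩, h.tsum_eq⟩

theorem memA_atom (k : ℕ) (i : Ix) (v : V) :
    MemA k (fun z => tr i z • v) ∧ nA k (fun z => tr i z • v) ≤ wt i ^ k * ‖v‖ := by
  simpa using synth (k := k) (fun _ : Unit => i) (c := fun _ => v) (fun _ => le_rfl)
    (summable_of_hasFiniteSupport (Set.toFinite _))

theorem MemA.add (hf : MemA k f) (hg : MemA k g) :
    MemA k (fun z => f z + g z) ∧ nA k (fun z => f z + g z) ≤ nA k f + nA k g :=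
  (WSyn2_dom (f := fun z => f z + g z) (hf.cont.add hg.cont)
    (fun z => ⟨congrArg₂ (· + ·) (hf.per z).1 (hg.per z).1,
      congrArg₂ (· + ·) (hf.per z).2 (hg.per z).2⟩) (hf.summ.add hg.summ) fun i => by
      rw [co_add hf.cont hg.cont, ← mul_add]
      exact mul_le_mul_of_nonneg_left (norm_add_le _ _) (pow_pos (wt_pos i) k).le).imp_right
    (·.trans_eq (hf.summ.tsum_add hg.summ))

theorem MemA.smul (hf : MemA k f) (c : ℝ) :
    MemA k (fun z => c • f z) ∧ nA k (fun z => c • f z) = |c| * nA k f := by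
  have h : ∀ i, wt i ^ k * ‖co (fun z => c • f z) i‖ = |c| * (wt i ^ k * ‖co f i‖) := fun i => by
    rw [co_smul, norm_smul, Real.norm_eq_abs, mul_left_comm]
  exact ⟨⟨hf.cont.const_smul c, fun z => ⟨congrArg (c • ·) (hf.per z).1,
    congrArg (c • ·) (hf.per z).2⟩, (hf.summ.mul_left _).congr fun i => (h i).symm⟩,
    (tsum_congr h).trans tsum_mul_left⟩

theorem MemA.sub (hf : MemA k f) (hg : MemA k g) :
    MemA k (fun z => f z - g z) ∧ nA k (fun z => f z - g z) ≤ nA k f + nA k g := by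
  simpa [sub_eq_add_neg, (hg.smul (-1)).2] using (hf.add (hg.smul (-1)).1).imp_right
    (·.trans_eq (congrArg _ (hg.smul (-1)).2))

theorem MemA.clm (hf : MemA k f) (L : V →L[ℝ] W) :
    MemA k (fun z => L (f z)) ∧ nA k (fun z => L (f z)) ≤ ‖L‖ * nA k f :=
  (WSyn2_dom (L.continuous.comp hf.cont) (fun z => ⟨congrArg L (hf.per z).1,
    congrArg L (hf.per z).2⟩) (hf.summ.mul_left ‖L‖) fun i => by
      rw [mul_left_comm]
      exact mul_le_mul_of_nonneg_left ((congrArg norm (co_clm L hf.cont i)).trans_le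
        (L.le_opNorm _)) (pow_pos (wt_pos i) k).le).imp_right (·.trans_eq tsum_mul_left)

theorem MemA.prod {g : ℂ → W} (hf : MemA k f) (hg : MemA k g) :
    MemA k (fun z => (f z, g z)) ∧ nA k (fun z => (f z, g z)) ≤ nA k f + nA k g := by
  have h1 := hf.clm (ContinuousLinearMap.inl ℝ V W)
  have h2 := hg.clm (ContinuousLinearMap.inr ℝ V W)
  simpa using (h1.1.add h2.1).imp_right (·.trans (add_le_add
    (h1.2.trans (mul_le_of_le_one_left (nA_nonneg k f) (ContinuousLinearMap.norm_inl_le_one ..)))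
    (h2.2.trans (mul_le_of_le_one_left (nA_nonneg k g) (ContinuousLinearMap.norm_inr_le_one ..)))))

/-- Fatou: a pointwise limit of a bounded sequence. -/
theorem memA_of_tendsto {u : ℕ → ℂ → V} {M : ℝ} (hu : ∀ n, MemA k (u n)) (hM : ∀ n, nA k (u n) ≤ M)
    (hf : Continuous f) (hl : TendstoUniformly u f atTop) : MemA k f ∧ nA k f ≤ M := by
  have h1 : ∀ i, Tendsto (fun n => co (u n) i) atTop (𝓝 (co f i)) := fun i =>
    Metric.tendsto_nhds.2 fun ε hε => by
      filter_upwards [Metric.tendstoUniformly_iff.1 hl (ε / 2) (half_pos hε)] with n hn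
      rw [dist_eq_norm, ← co_sub (hu n).cont hf]
      exact (norm_co_le (fun z => by rw [← dist_eq_norm']; exact (hn z).le) i).trans_lt
        (half_lt_self hε)
  have h2 : ∀ s : Finset Ix, ∑ i ∈ s, wt i ^ k * ‖co f i‖ ≤ M := fun s =>
    le_of_tendsto' (tendsto_finsetSum s fun i _ => (h1 i).norm.const_mul _) fun n =>
      ((hu n).summ.sum_le_tsum s fun i _ => WSyn2_nn k _ i).trans (hM n)
  have h3 : ∀ z c, (∀ n, u n (z + c) = u n z) → f (z + c) = f z := fun z c h =>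
    tendsto_nhds_unique (hl.tendsto_at (z + c)) ((hl.tendsto_at z).congr fun n => (h n).symm)
  exact ⟨⟨hf, fun z => ⟨h3 _ _ fun n => ((hu n).per z).1, h3 _ _ fun n => ((hu n).per z).2⟩,
    summable_of_sum_le (WSyn2_nn k f) h2⟩, Real.tsum_le_of_sum_le (WSyn2_nn k f) h2⟩

end Pool.Agent.Lib.MP_ccffa6_gt.Wi
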