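import Pool.Agent.Lib.MP_ccffa6_gt.T.WCal
import Pool.Agent.Lib.MP_ccffa6_gt.T.WSyn2

/-!
Derivatives and coefficients.
-/

open Set Filter Topology
open scoped ContDiff Real

noncomputable section

namespace Pool.Agent.Lib.MP_ccffa6_gt.Wi

variable {V : Type} [NormedAddCommGroup V] [NormedSpace ℝ V] [CompleteSpace V]
  {W : Type} [NormedAddCommGroup W] [NormedSpace ℝ W] [CompleteSpace W]
  {X : Type} [NormedAddCommGroup X] [NormedSpace ℝ X] [CompleteSpace X] {f g : ℂ → V} {k : ℕ}

theorem WDer1_dir (hf : ContDiff ℝ 1 f) (hp : Per f) (i : Ix) {v : ℂ}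
    (h : ∀ g : ℂ → V, ContDiff ℝ 1 g → Per g → avg (fun z => fderiv ℝ g z v) = 0) :
    co (fun z => fderiv ℝ f z v) i = (sg i * ph i.1 v) • co f (fl i) := by
  have h1 := (contDiff_tr i).of_le (show 1 ≤ _ by simp)
  have h2 := h _ (h1.smul hf) fun z => by
    simp only [Pi.smul_apply', (per_tr i z).1, (per_tr i z).2, (hp z).1, (hp z).2, and_self]
  have h3 : ∀ z, fderiv ℝ (tr i • f) z v =
      tr i z • fderiv ℝ f z v - (sg i * ph i.1 v) • tr (fl i) z • f z := fun z => by
    rw [fderiv_smul (h1.differentiable one_ne_zero z) (hf.differentiable one_ne_zero z)]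
    simp [fderiv_tr, smul_smul, sub_eq_add_neg]
  simp only [h3] at h2
  rw [avg_sub (h1.continuous.fun_smul
    ((hf.continuous_fderiv one_ne_zero).clm_apply continuous_const))
    (((continuous_tr _).fun_smul hf.continuous).fun_const_smul _), avg_smul] at h2
  exact sub_eq_zero.1 h2

theorem co_px (hf : ContDiff ℝ 1 f) (hp : Per f) (i : Ix) :
    co (px f) i = (sg i * i.1.1) • co f (fl i) :=
  (WDer1_dir hf hp i fun _ => avg_px).trans (by simp [ph])

theorem co_py (hf : ContDiff ℝ 1 f) (hp : Per f) (i : Ix) :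
    co (py f) i = (sg i * i.1.2) • co f (fl i) :=
  (WDer1_dir hf hp i fun _ => avg_py).trans (by simp [ph])

theorem co_lap (hf : ContDiff ℝ 2 f) (hp : Per f) (i : Ix) : co (lap f) i = -eig i • co f i := by
  have h1 := hf.of_le (show 1 ≤ _ by norm_num)
  have hx := contDiff_px (m := 1) hf (by norm_num)
  have hy := contDiff_py (m := 1) hf (by norm_num)
  refine (co_add (contDiff_px (m := 0) hx (by norm_num)).continuous
    (contDiff_py (m := 0) hy (by norm_num)).continuous i).trans ?_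
  rw [co_px hx (per_px hp), co_py hy (per_py hp), co_px h1 hp, co_py h1 hp, fl_fl, sg_fl, smul_smul,
    smul_smul, ← add_smul, eig]
  congr 1
  simp only [fl]
  linear_combination (-(i.1.1 : ℝ) ^ 2 - (i.1.2 : ℝ) ^ 2) * sg_mul_sg i

theorem MemA.contDiff_one (hf : MemA (k + 1) f) : ContDiff ℝ 1 f := by
  rw [show f = fun z => ∑' i, tr i z • co f i from funext fun z => (hf.hasSum z).tsum_eq.symm]
  refine contDiff_tsum (N := 1) (fun i => ((contDiff_tr i).of_le (by simp)).smul contDiff_const)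
    (fun _ _ => (hf.mono (j := 1) (by omega)).summ) fun m i z hm => ?_
  rw [pow_one]
  obtain rfl | rfl := Nat.le_one_iff_eq_zero_or_eq_one.1 (show m ≤ 1 by exact_mod_cast hm)
  · rw [norm_iteratedFDeriv_zero, norm_smul]
    exact mul_le_mul_of_nonneg_right ((abs_tr_le i z).trans (one_le_wt i)) (norm_nonneg _)
  · rw [norm_iteratedFDeriv_one, fderiv_smul_const ((contDiff_tr i).differentiable (by simp) z),
      ContinuousLinearMap.norm_smulRight_apply]
    exact mul_le_mul_of_nonneg_right (norm_fderiv_tr_le i z) (norm_nonneg _)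

omit [CompleteSpace V] in
theorem WDer1_mem (hf : MemA (k + 1) f) (hg : Continuous g) (hp : Per g) {a : Ix → ℝ}
    (ha : ∀ i, |a i| ≤ wt i) (h : ∀ i, co g i = (sg i * a i) • co f (fl i)) :
    MemA k g ∧ nA k g ≤ nA (k + 1) f := by
  have h1 : ∀ i, wt i ^ k * ‖co g i‖ ≤ wt (flE i) ^ (k + 1) * ‖co f (flE i)‖ := fun i => by
    rw [h, norm_smul, Real.norm_eq_abs, abs_mul, abs_sg, one_mul, ← mul_assoc, pow_succ]
    exact mul_le_mul_of_nonneg_right (mul_le_mul_of_nonneg_left (ha i) (pow_pos (wt_pos i) k).le)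
      (norm_nonneg _)
  have h2 := flE.summable_iff.2 hf.summ
  have h3 := h2.of_nonneg_of_le (fun i => mul_nonneg (pow_pos (wt_pos i) k).le (norm_nonneg _)) h1
  exact ⟨⟨hg, hp, h3⟩, (h3.tsum_le_tsum h1 h2).trans_eq
    (flE.tsum_eq fun i => wt i ^ (k + 1) * ‖co f i‖)⟩

theorem MemA.dx (hf : MemA (k + 1) f) : MemA k (px f) ∧ nA k (px f) ≤ nA (k + 1) f :=
  WDer1_mem hf (contDiff_px (m := 0) hf.contDiff_one (by norm_num)).continuous (per_px hf.per)
    (fun i => (le_add_of_nonneg_left zero_le_one).trans (le_add_of_nonneg_right (abs_nonneg _)))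
    (co_px hf.contDiff_one hf.per)

theorem MemA.dy (hf : MemA (k + 1) f) : MemA k (py f) ∧ nA k (py f) ≤ nA (k + 1) f :=
  WDer1_mem hf (contDiff_py (m := 0) hf.contDiff_one (by norm_num)).continuous (per_py hf.per)
    (fun i => le_add_of_nonneg_left (by positivity)) (co_py hf.contDiff_one hf.per)

theorem MemA.contDiff (hf : MemA k f) : ContDiff ℝ k f := by
  induction k generalizing f with
  | zero => exact contDiff_zero.2 hf.cont
  | succ k ih =>
    exact contDiff_succ_of (hf.contDiff_one.differentiable one_ne_zero) (ih hf.dx.1) (ih hf.dy.1)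

theorem contDiff_of_memA (hf : ∀ k, MemA k f) : ContDiff ℝ ∞ f :=
  contDiff_infty.2 fun k => (hf k).contDiff

end Pool.Agent.Lib.MP_ccffa6_gt.Wi
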