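import Pool.Agent.Lib.MP_ccffa6_gt.T.WDer1

/-! Converse estimates. -/

open Set Filter Topology
open scoped ContDiff Real

noncomputable section

namespace Pool.Agent.Lib.MP_ccffa6_gt.Wi

variable {V : Type} [NormedAddCommGroup V] [NormedSpace ℝ V] [CompleteSpace V]
  {W : Type} [NormedAddCommGroup W] [NormedSpace ℝ W] [CompleteSpace W]
  {X : Type} [NormedAddCommGroup X] [NormedSpace ℝ X] [CompleteSpace X] {f g : ℂ → V} {k : ℕ}

theorem MemA.norm_iteratedFDeriv_le (hf : MemA k f) {j : ℕ} (hj : j ≤ k) (z : ℂ) :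
    ‖iteratedFDeriv ℝ j f z‖ ≤ 2 ^ j * nA k f := by
  induction j generalizing V k f with
  | zero => simpa using hf.norm_le z
  | succ j ih =>
    obtain ⟨k, rfl⟩ := Nat.exists_eq_add_one_of_ne_zero (show k ≠ 0 by omega)
    have n : ∀ c : ℂ →L[ℝ] ℝ, ‖c‖ = 1 → ∀ {g : ℂ → V}, MemA k g → nA k g ≤ nA (k + 1) f →
        nA k (fun z => ContinuousLinearMap.smulRightL ℝ ℂ V c (g z)) ≤ nA (k + 1) f :=
      fun c hc g hg e => (hg.clm _).2.trans ((mul_le_of_le_one_left (nA_nonneg k g)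
        (ContinuousLinearMap.opNorm_le_bound _ zero_le_one fun v => by simp [hc])).trans e)
    have h := (hf.dx.1.clm (ContinuousLinearMap.smulRightL ℝ ℂ V Complex.reCLM)).1.add
      (hf.dy.1.clm (ContinuousLinearMap.smulRightL ℝ ℂ V Complex.imCLM)).1
    have h1 := h.2.trans (add_le_add (n _ Complex.reCLM_norm hf.dx.1 hf.dx.2)
      (n _ Complex.imCLM_norm hf.dy.1 hf.dy.2))
    have e : fderiv ℝ f = fun w => ContinuousLinearMap.smulRightL ℝ ℂ V Complex.reCLM (px f w) +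
        ContinuousLinearMap.smulRightL ℝ ℂ V Complex.imCLM (py f w) :=
      funext fun w => ContinuousLinearMap.ext (fderiv_eq f w)
    rw [← norm_iteratedFDeriv_fderiv, e, pow_succ, mul_assoc, two_mul]
    exact (ih h.1 (by omega)).trans (by gcongr)

theorem WDer2_gen (hf : Continuous f) (hp : Per f) {b : Ix → ℝ} {B : ℝ} (hb : HasSum b B)
    (h0 : ∀ i, 0 ≤ b i) (h : ∀ i : Ix, i.1 ≠ (0, 0) → wt i ^ k * ‖co f i‖ ≤ b i) :
    MemA k f ∧ nA k f ≤ ‖avg f‖ + B := by
  have hs := (hasSum_ite_eq i0 ‖avg f‖).add hb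
  have h1 : ∀ i, wt i ^ k * ‖co f i‖ ≤ (if i = i0 then ‖avg f‖ else 0) + b i := fun i => by
    by_cases e : i = i0
    · simp [e, co_i0, h0]
    rw [if_neg e, zero_add]
    by_cases e' : i.1 = (0, 0)
    · obtain ⟨n, _ | _⟩ := i
      · rw [show n = (0, 0) from e', co_zero_false, norm_zero, mul_zero]
        exact h0 _
      · exact (e (Prod.ext e' rfl)).elim
    exact h i e'
  have h2 := Summable.of_nonneg_of_le
    (fun i => mul_nonneg (pow_pos (wt_pos i) k).le (norm_nonneg _)) h1 hs.summable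
  exact ⟨⟨hf, hp, h2⟩, hasSum_le h1 h2.hasSum hs⟩

theorem memA_succ (hf : ContDiff ℝ 1 f) (hp : Per f) (hx : MemA k (px f)) (hy : MemA k (py f)) :
    MemA (k + 1) f ∧ nA (k + 1) f ≤ ‖avg f‖ + 2 * (nA k (px f) + nA k (py f)) := by
  refine WDer2_gen hf.continuous hp (flE.hasSum_iff.2 ((hx.summ.hasSum.add hy.summ.hasSum).mul_left
    2)) (fun i => ?_) fun i hi => ?_
  · have := wt_pos (flE i)
    dsimp only [Function.comp_apply]
    positivity
  · have h1 := mul_le_mul_of_nonneg_left (wt_le_two hi)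
      (mul_nonneg (pow_pos (wt_pos i) k).le (norm_nonneg (co f i)))
    change _ ≤ 2 * (wt (fl i) ^ k * ‖co (px f) (fl i)‖ + wt (fl i) ^ k * ‖co (py f) (fl i)‖)
    simp only [co_px hf hp, co_py hf hp, fl_fl, wt_fl, norm_smul, Real.norm_eq_abs, abs_mul, abs_sg,
      show (fl i).1 = i.1 from rfl]
    linear_combination h1

theorem memA_lap (hf : ContDiff ℝ 2 f) (hp : Per f) (h : MemA k (lap f)) :
    MemA (k + 2) f ∧ nA (k + 2) f ≤ ‖avg f‖ + 6 * nA k (lap f) := by
  refine WDer2_gen hf.continuous hp (h.summ.hasSum.mul_left 6) (fun i => ?_) fun i hi => ?_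
  · have := wt_pos i
    positivity
  · have h1 := mul_le_mul_of_nonneg_left
      (show wt i ^ 2 ≤ 6 * eig i by linarith [wt_sq_le i, one_le_eig hi])
      (mul_nonneg (pow_pos (wt_pos i) k).le (norm_nonneg (co f i)))
    rw [co_lap hf hp, norm_smul, norm_neg, Real.norm_of_nonneg (eig_nonneg i)]
    linear_combination h1

end Pool.Agent.Lib.MP_ccffa6_gt.Wi
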