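import Pool.Agent.Lib.MP_ccffa6_gt.T.WCal2
import Pool.Agent.Lib.MP_ccffa6_gt.T.WAvg

/-!
Closure properties of the families `B0`, `BL`, `BH`.
Sketch: pointwise inequalities and `avg_mono`, `avg_add`, `avg_smul`; `‖a + b‖² ≤ 2‖a‖² + 2‖b‖²`.
`B0.comp`: a continuous map is bounded on a closed ball of a finite dimensional space.
`BH`: the rules of WCal2 (after `funext`) and the closure of `BL`.
-/

open Set Filter Topology
open scoped ContDiff Real

noncomputable section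

namespace Pool.Agent.Lib.MP_ccffa6_gt.Wi

variable {ι : Type} {V : Type} [NormedAddCommGroup V] [NormedSpace ℝ V] [CompleteSpace V]
  {W : Type} [NormedAddCommGroup W] [NormedSpace ℝ W] [CompleteSpace W]
  {X : Type} [NormedAddCommGroup X] [NormedSpace ℝ X] [CompleteSpace X]
  {u v : ι → ℂ → V} {w : ι → ℂ → W} {k : ℕ}

omit [CompleteSpace V] [CompleteSpace W] in
theorem WFam_le (hu : BL u) (hc : ∀ i, Continuous (w i)) (M : ℝ)
    (h : ∀ i z, ‖w i z‖ ≤ M * ‖u i z‖) : BL w := by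
  obtain ⟨cu, C, hC⟩ := hu
  refine ⟨hc, M ^ 2 * C, fun i => ?_⟩
  have h1 := avg_mono (φ := fun z => ‖w i z‖ ^ 2) (ψ := fun z => M ^ 2 • ‖u i z‖ ^ 2)
    ((hc i).norm.pow 2) (((cu i).norm.pow 2).const_smul (M ^ 2)) fun z => by
      rw [smul_eq_mul, ← mul_pow]
      exact pow_le_pow_left₀ (norm_nonneg _) (h i z) 2
  rw [avg_smul, smul_eq_mul] at h1
  exact h1.trans (mul_le_mul_of_nonneg_left (hC i) (sq_nonneg M))

omit [CompleteSpace V] in
theorem WFam_congr (hu : BL u) (h : ∀ i z, v i z = u i z) : BL v := by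
  obtain rfl : v = u := funext fun i => funext (h i)
  exact hu

omit [CompleteSpace V] in
theorem WFam_d (hu : BH u) (i : ι) (z : ℂ) : DifferentiableAt ℝ (u i) z :=
  (hu.c1 i).differentiable one_ne_zero z

theorem B0.add (hu : B0 u) (hv : B0 v) : B0 fun i z => u i z + v i z := by
  obtain ⟨cu, C, hC⟩ := hu
  obtain ⟨cv, D, hD⟩ := hv
  exact ⟨fun i => (cu i).add (cv i), C + D, fun i z => norm_add_le_of_le (hC i z) (hD i z)⟩

theorem B0.clm (L : V →L[ℝ] W) (hu : B0 u) : B0 fun i z => L (u i z) := by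
  obtain ⟨cu, C, hC⟩ := hu
  exact ⟨fun i => L.continuous.comp (cu i), ‖L‖ * C, fun i z => L.le_opNorm_of_le (hC i z)⟩

theorem B0.bil (B : V →L[ℝ] W →L[ℝ] X) (hu : B0 u) (hw : B0 w) :
    B0 fun i z => B (u i z) (w i z) := by
  obtain ⟨cu, C, hC⟩ := hu
  obtain ⟨cw, D, hD⟩ := hw
  exact ⟨fun i => (B.continuous.comp (cu i)).clm_apply (cw i), ‖B‖ * C * D, fun i z =>
    (B (u i z)).le_of_opNorm_le_of_le (B.le_opNorm_of_le (hC i z)) (hD i z)⟩

theorem B0.app {A : ι → ℂ → V →L[ℝ] W} (hA : B0 A) (hu : B0 u) : B0 fun i z => A i z (u i z) :=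
  B0.bil (ContinuousLinearMap.id ℝ (V →L[ℝ] W)) hA hu

theorem B0.fsmul {φ : ι → ℂ → ℝ} (hφ : B0 φ) (hu : B0 u) : B0 fun i z => φ i z • u i z :=
  B0.bil (ContinuousLinearMap.lsmul ℝ ℝ) hφ hu

theorem B0.smul (c : ℝ) (hu : B0 u) : B0 fun i z => c • u i z :=
  B0.clm (c • ContinuousLinearMap.id ℝ V) hu

theorem B0.comp [FiniteDimensional ℝ V] {F : V → W} (hF : Continuous F) (hu : B0 u) :
    B0 fun i z => F (u i z) := by
  obtain ⟨cu, C, hC⟩ := hu
  obtain ⟨D, hD⟩ := (isCompact_closedBall (0 : V) C).exists_bound_of_continuousOn hF.continuousOn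
  exact ⟨fun i => hF.comp (cu i), D, fun i z => hD _ (mem_closedBall_zero_iff.2 (hC i z))⟩

theorem B0.fixed {f : ℂ → V} (hf : Continuous f) (hp : Per f) : B0 fun _ : ι => f := by
  obtain ⟨C, hC⟩ := per_bound hf hp
  exact ⟨fun _ => hf, C, fun _ => hC⟩

theorem B0.bl (hu : B0 u) : BL u := by
  obtain ⟨cu, C, hC⟩ := hu
  exact ⟨cu, C ^ 2, fun i => l2_le_of_bound (cu i) (hC i)⟩

theorem B0.avg (hu : B0 u) : ∃ C : ℝ, ∀ i, ‖avg (u i)‖ ≤ C := by
  obtain ⟨-, C, hC⟩ := hu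
  exact ⟨C, fun i => norm_avg_le (hC i)⟩

theorem BL.add (hu : BL u) (hv : BL v) : BL fun i z => u i z + v i z := by
  obtain ⟨cu, C, hC⟩ := hu
  obtain ⟨cv, D, hD⟩ := hv
  refine ⟨fun i => (cu i).add (cv i), 2 * (C + D), fun i => ?_⟩
  have h1 : Continuous fun z => ‖u i z‖ ^ 2 := (cu i).norm.pow 2
  have h2 : Continuous fun z => ‖v i z‖ ^ 2 := (cv i).norm.pow 2
  have h3 := avg_mono (φ := fun z => ‖u i z + v i z‖ ^ 2)
    (ψ := fun z => (2 : ℝ) • (‖u i z‖ ^ 2 + ‖v i z‖ ^ 2)) (((cu i).add (cv i)).norm.pow 2)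
    ((h1.add h2).const_smul (2 : ℝ)) fun z => by
      have h4 := pow_le_pow_left₀ (norm_nonneg _) (norm_add_le (u i z) (v i z)) 2
      have h5 := sq_nonneg (‖u i z‖ - ‖v i z‖)
      rw [smul_eq_mul]
      nlinarith
  rw [avg_smul, avg_add h1 h2, smul_eq_mul] at h3
  exact h3.trans (mul_le_mul_of_nonneg_left (add_le_add (hC i) (hD i)) zero_le_two)

theorem BL.clm (L : V →L[ℝ] W) (hu : BL u) : BL fun i z => L (u i z) :=
  WFam_le hu (fun i => L.continuous.comp (hu.1 i)) ‖L‖ fun _ _ => L.le_opNorm _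

theorem BL.smul (c : ℝ) (hu : BL u) : BL fun i z => c • u i z :=
  BL.clm (c • ContinuousLinearMap.id ℝ V) hu

theorem BL.bil_right (B : V →L[ℝ] W →L[ℝ] X) (hu : B0 u) (hw : BL w) :
    BL fun i z => B (u i z) (w i z) := by
  obtain ⟨cu, C, hC⟩ := hu
  exact WFam_le hw (fun i => (B.continuous.comp (cu i)).clm_apply (hw.1 i)) (‖B‖ * C) fun i z =>
    (B (u i z)).le_of_opNorm_le (B.le_opNorm_of_le (hC i z)) _

theorem BL.bil_left (B : V →L[ℝ] W →L[ℝ] X) (hu : BL u) (hw : B0 w) :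
    BL fun i z => B (u i z) (w i z) :=
  BL.bil_right B.flip hw hu

theorem BL.app_right {A : ι → ℂ → V →L[ℝ] W} (hA : B0 A) (hu : BL u) :
    BL fun i z => A i z (u i z) :=
  BL.bil_right (ContinuousLinearMap.id ℝ (V →L[ℝ] W)) hA hu

theorem BL.app_left {A : ι → ℂ → V →L[ℝ] W} (hA : BL A) (hu : B0 u) :
    BL fun i z => A i z (u i z) :=
  BL.bil_left (ContinuousLinearMap.id ℝ (V →L[ℝ] W)) hA hu

theorem BL.fsmul {φ : ι → ℂ → ℝ} (hφ : B0 φ) (hu : BL u) : BL fun i z => φ i z • u i z :=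
  BL.bil_right (ContinuousLinearMap.lsmul ℝ ℝ) hφ hu

theorem BH.add (hu : BH u) (hv : BH v) : BH fun i z => u i z + v i z :=
  ⟨fun i => (hu.c1 i).add (hv.c1 i), hu.b0.add hv.b0,
    WFam_congr (hu.bx.add hv.bx) fun i z => px_add (WFam_d hu i z) (WFam_d hv i z),
    WFam_congr (hu.by'.add hv.by') fun i z => py_add (WFam_d hu i z) (WFam_d hv i z)⟩

theorem BH.bil (B : V →L[ℝ] W →L[ℝ] X) (hu : BH u) (hw : BH w) :
    BH fun i z => B (u i z) (w i z) :=
  ⟨fun i => (B.contDiff.comp (hu.c1 i)).clm_apply (hw.c1 i), hu.b0.bil B hw.b0,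
    WFam_congr ((BL.bil_left B hu.bx hw.b0).add (BL.bil_right B hu.b0 hw.bx))
      fun i z => px_bil B (WFam_d hu i z) (WFam_d hw i z),
    WFam_congr ((BL.bil_left B hu.by' hw.b0).add (BL.bil_right B hu.b0 hw.by'))
      fun i z => py_bil B (WFam_d hu i z) (WFam_d hw i z)⟩

theorem BH.app {A : ι → ℂ → V →L[ℝ] W} (hA : BH A) (hu : BH u) : BH fun i z => A i z (u i z) :=
  BH.bil (ContinuousLinearMap.id ℝ (V →L[ℝ] W)) hA hu

theorem BH.fsmul {φ : ι → ℂ → ℝ} (hφ : BH φ) (hu : BH u) : BH fun i z => φ i z • u i z :=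
  BH.bil (ContinuousLinearMap.lsmul ℝ ℝ) hφ hu

theorem BH.smul (c : ℝ) (hu : BH u) : BH fun i z => c • u i z :=
  ⟨fun i => (hu.c1 i).const_smul c, hu.b0.smul c,
    WFam_congr (hu.bx.smul c) fun i z => px_clm (c • ContinuousLinearMap.id ℝ V) (WFam_d hu i z),
    WFam_congr (hu.by'.smul c) fun i z => py_clm (c • ContinuousLinearMap.id ℝ V) (WFam_d hu i z)⟩

theorem BH.comp [FiniteDimensional ℝ V] {F : V → W} (hF : ContDiff ℝ 1 F) (hu : BH u) :
    BH fun i z => F (u i z) := by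
  have h1 := hu.b0.comp (hF.continuous_fderiv one_ne_zero)
  have h2 := hF.differentiable one_ne_zero
  exact ⟨fun i => hF.comp (hu.c1 i), hu.b0.comp hF.continuous,
    WFam_congr (BL.app_right h1 hu.bx) fun i z => px_comp (h2 _) (WFam_d hu i z),
    WFam_congr (BL.app_right h1 hu.by') fun i z => py_comp (h2 _) (WFam_d hu i z)⟩

theorem BH.fixed {f : ℂ → V} (hf : ContDiff ℝ 1 f) (hp : Per f) : BH fun _ : ι => f :=
  ⟨fun _ => hf, B0.fixed hf.continuous hp,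
    (B0.fixed (contDiff_px (m := 0) hf (by simp)).continuous (per_px hp)).bl,
    (B0.fixed (contDiff_py (m := 0) hf (by simp)).continuous (per_py hp)).bl⟩

end Pool.Agent.Lib.MP_ccffa6_gt.Wi
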