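import Pool.Agent.Lib.MP_ccffa6_gt.T.WSyn2

/-! Products at function level. -/

open Set Filter Topology
open scoped ContDiff Real

noncomputable section

namespace Pool.Agent.Lib.MP_ccffa6_gt.Wi

variable {V : Type} [NormedAddCommGroup V] [NormedSpace ℝ V] [CompleteSpace V]
  {W : Type} [NormedAddCommGroup W] [NormedSpace ℝ W] [CompleteSpace W]
  {X : Type} [NormedAddCommGroup X] [NormedSpace ℝ X] [CompleteSpace X] {f g : ℂ → V} {k : ℕ}

/-- One half of the product series. -/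
theorem WMul_half {g : ℂ → W} (B : V →L[ℝ] W →L[ℝ] X) (hf : MemA k f) (hg : MemA k g)
    (p : Ix × Ix → Ix) (s : Ix × Ix → ℝ) (hs : ∀ x, |s x| ≤ 1 / 2)
    (hp : ∀ x, wt (p x) ≤ wt x.1 * wt x.2) :
    (∀ z, Summable fun x : Ix × Ix => tr (p x) z • s x • B (co f x.1) (co g x.2)) ∧
    MemA k (fun z => ∑' x : Ix × Ix, tr (p x) z • s x • B (co f x.1) (co g x.2)) ∧
      nA k (fun z => ∑' x : Ix × Ix, tr (p x) z • s x • B (co f x.1) (co g x.2)) ≤
        ‖B‖ * nA k f * nA k g / 2 := by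
  have ha : ∀ i, 0 ≤ wt i ^ k * ‖co f i‖ := fun i =>
    mul_nonneg (pow_nonneg (wt_pos i).le k) (norm_nonneg _)
  have hb : ∀ i, 0 ≤ wt i ^ k * ‖co g i‖ := fun i =>
    mul_nonneg (pow_nonneg (wt_pos i).le k) (norm_nonneg _)
  have hab : Summable fun x : Ix × Ix => (wt x.1 ^ k * ‖co f x.1‖) * (wt x.2 ^ k * ‖co g x.2‖) :=
    hf.summ.mul_of_nonneg hg.summ ha hb
  have hw0 : ∀ x : Ix × Ix, 1 ≤ wt x.1 ^ k * wt x.2 ^ k := fun x =>
    one_le_mul_of_one_le_of_one_le (one_le_pow₀ (one_le_wt _)) (one_le_pow₀ (one_le_wt _))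
  have hle : ∀ x : Ix × Ix, wt x.1 ^ k * wt x.2 ^ k * ‖s x • B (co f x.1) (co g x.2)‖ ≤
      ‖B‖ / 2 * ((wt x.1 ^ k * ‖co f x.1‖) * (wt x.2 ^ k * ‖co g x.2‖)) := fun x => by
    have h1 : ‖s x • B (co f x.1) (co g x.2)‖ ≤ 1 / 2 * (‖B‖ * ‖co f x.1‖ * ‖co g x.2‖) := by
      rw [norm_smul, Real.norm_eq_abs]
      exact mul_le_mul (hs x) (B.le_opNorm₂ _ _) (norm_nonneg _) (by norm_num)
    refine (mul_le_mul_of_nonneg_left h1 (zero_le_one.trans (hw0 x))).trans_eq ?_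
    ring
  have hsum : Summable fun x : Ix × Ix =>
      wt x.1 ^ k * wt x.2 ^ k * ‖s x • B (co f x.1) (co g x.2)‖ :=
    Summable.of_nonneg_of_le (fun x => mul_nonneg (zero_le_one.trans (hw0 x)) (norm_nonneg _))
      hle (hab.mul_left _)
  have hw : ∀ x : Ix × Ix, wt (p x) ^ k ≤ wt x.1 ^ k * wt x.2 ^ k := fun x => by
    rw [← mul_pow]
    exact pow_le_pow_left₀ (wt_pos _).le (hp x) k
  obtain ⟨h1, h2⟩ := synth (k := k) p hw hsum
  refine ⟨fun z => Summable.of_norm_bounded hsum fun x => ?_, h1, h2.trans ?_⟩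
  · rw [norm_smul, Real.norm_eq_abs]
    exact mul_le_mul_of_nonneg_right ((abs_tr_le _ _).trans (hw0 x)) (norm_nonneg _)
  · refine (hsum.tsum_le_tsum hle (hab.mul_left _)).trans_eq ?_
    rw [tsum_mul_left, ← hf.summ.tsum_mul_tsum hg.summ hab]
    unfold nA
    ring

theorem MemA.bil {g : ℂ → W} (B : V →L[ℝ] W →L[ℝ] X) (hf : MemA k f) (hg : MemA k g) :
    MemA k (fun z => B (f z) (g z)) ∧ nA k (fun z => B (f z) (g z)) ≤ ‖B‖ * nA k f * nA k g := by
  choose p q s t hs ht hp hq hm using tr_mul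
  obtain ⟨a0, a1, a2⟩ := WMul_half B hf hg (fun x => p x.1 x.2) (fun x => s x.1 x.2)
    (fun x => hs x.1 x.2) (fun x => hp x.1 x.2)
  obtain ⟨b0, b1, b2⟩ := WMul_half B hf hg (fun x => q x.1 x.2) (fun x => t x.1 x.2)
    (fun x => ht x.1 x.2) (fun x => hq x.1 x.2)
  obtain ⟨c1, c2⟩ := a1.add b1
  have he : (fun z => B (f z) (g z)) = fun z =>
      (∑' x : Ix × Ix, tr (p x.1 x.2) z • s x.1 x.2 • B (co f x.1) (co g x.2)) +
        ∑' x : Ix × Ix, tr (q x.1 x.2) z • t x.1 x.2 • B (co f x.1) (co g x.2) := by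
    funext z
    have h1 := (a0 z).hasSum.add (b0 z).hasSum
    have h2 : ∀ i, HasSum (fun j =>
        tr (p i j) z • s i j • B (co f i) (co g j) + tr (q i j) z • t i j • B (co f i) (co g j))
        (B.flip (g z) (tr i z • co f i)) := fun i => by
      have h3 := (B (tr i z • co f i)).hasSum (hg.hasSum z)
      refine h3.congr_fun ?_
      intro j
      rw [map_smul, map_smul, smul_apply, smul_smul, smul_smul, smul_smul,
        ← add_smul, mul_comm (tr j z), hm i j z, mul_comm (s i j), mul_comm (t i j)]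
    exact ((B.flip (g z)).hasSum (hf.hasSum z)).unique (h1.prod_fiberwise h2)
  rw [he]
  exact ⟨c1, c2.trans (by linarith)⟩

/-- Application of an operator field to a vector field. -/
theorem MemA.app {A : ℂ → V →L[ℝ] W} (hA : MemA k A) (hf : MemA k f) :
    MemA k (fun z => A z (f z)) ∧ nA k (fun z => A z (f z)) ≤ nA k A * nA k f := by
  obtain ⟨h1, h2⟩ := MemA.bil (ContinuousLinearMap.id ℝ (V →L[ℝ] W)) hA hf
  refine ⟨h1, h2.trans ?_⟩
  exact mul_le_mul_of_nonneg_right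
    (mul_le_of_le_one_left (nA_nonneg k A) ContinuousLinearMap.norm_id_le) (nA_nonneg k f)

theorem MemA.fsmul {φ : ℂ → ℝ} (hφ : MemA k φ) (hf : MemA k f) :
    MemA k (fun z => φ z • f z) ∧ nA k (fun z => φ z • f z) ≤ nA k φ * nA k f := by
  obtain ⟨h1, h2⟩ := MemA.bil (ContinuousLinearMap.lsmul ℝ ℝ : ℝ →L[ℝ] V →L[ℝ] V) hφ hf
  refine ⟨h1, h2.trans ?_⟩
  exact mul_le_mul_of_nonneg_right
    (mul_le_of_le_one_left (nA_nonneg k φ) ContinuousLinearMap.opNorm_lsmul_le) (nA_nonneg k f)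

end Pool.Agent.Lib.MP_ccffa6_gt.Wi
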