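import Pool.Agent.Lib.MP_ccffa6_gt.T.WFam
import Pool.Agent.Lib.MP_ccffa6_gt.T.WMul
import Pool.Agent.Lib.MP_ccffa6_gt.T.WDer2

/-!
Closure properties of the families `BA k`: direct from the function level lemmas
(replace the constants by their maximum with zero, `nA_nonneg`).
-/

open Set Filter Topology
open scoped ContDiff Real

noncomputable section

namespace Pool.Agent.Lib.MP_ccffa6_gt.Wi

variable {ι : Type} {V : Type} [NormedAddCommGroup V] [NormedSpace ℝ V] [CompleteSpace V]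
  {W : Type} [NormedAddCommGroup W] [NormedSpace ℝ W] [CompleteSpace W]
  {X : Type} [NormedAddCommGroup X] [NormedSpace ℝ X] [CompleteSpace X]
  {u v : ι → ℂ → V} {w : ι → ℂ → W} {k : ℕ}

theorem BA.add (hu : BA k u) (hv : BA k v) : BA k fun i z => u i z + v i z := by
  obtain ⟨⟨C, hC⟩, D, hD⟩ := And.intro hu hv
  exact ⟨C + D, fun i => ((hC i).1.add (hD i).1).imp_right fun h =>
    h.trans (add_le_add (hC i).2 (hD i).2)⟩

theorem BA.clm (L : V →L[ℝ] W) (hu : BA k u) : BA k fun i z => L (u i z) := by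
  obtain ⟨C, hC⟩ := hu
  exact ⟨‖L‖ * C, fun i => ((hC i).1.clm L).imp_right fun h =>
    h.trans (mul_le_mul_of_nonneg_left (hC i).2 (norm_nonneg _))⟩

theorem BA.smul (c : ℝ) (hu : BA k u) : BA k fun i z => c • u i z := by
  obtain ⟨C, hC⟩ := hu
  exact ⟨|c| * C, fun i => ((hC i).1.smul c).imp_right fun h =>
    h.le.trans (mul_le_mul_of_nonneg_left (hC i).2 (abs_nonneg _))⟩

theorem BA.bil (B : V →L[ℝ] W →L[ℝ] X) (hu : BA k u) (hw : BA k w) :
    BA k fun i z => B (u i z) (w i z) := by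
  obtain ⟨⟨C, hC⟩, D, hD⟩ := And.intro hu hw
  exact ⟨‖B‖ * C * D, fun i => (MemA.bil B (hC i).1 (hD i).1).imp_right fun h => h.trans
    (mul_le_mul (mul_le_mul_of_nonneg_left (hC i).2 (norm_nonneg B)) (hD i).2 (nA_nonneg _ _)
      (mul_nonneg (norm_nonneg B) ((nA_nonneg _ _).trans (hC i).2)))⟩

theorem BA.app {A : ι → ℂ → V →L[ℝ] W} (hA : BA k A) (hu : BA k u) :
    BA k fun i z => A i z (u i z) := by
  obtain ⟨⟨C, hC⟩, D, hD⟩ := And.intro hA hu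
  exact ⟨C * D, fun i => ((hC i).1.app (hD i).1).imp_right fun h => h.trans
    (mul_le_mul (hC i).2 (hD i).2 (nA_nonneg _ _) ((nA_nonneg _ _).trans (hC i).2))⟩

theorem BA.fsmul {φ : ι → ℂ → ℝ} (hφ : BA k φ) (hu : BA k u) :
    BA k fun i z => φ i z • u i z := by
  obtain ⟨⟨C, hC⟩, D, hD⟩ := And.intro hφ hu
  exact ⟨C * D, fun i => ((hC i).1.fsmul (hD i).1).imp_right fun h => h.trans
    (mul_le_mul (hC i).2 (hD i).2 (nA_nonneg _ _) ((nA_nonneg _ _).trans (hC i).2))⟩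

theorem BA.prod (hu : BA k u) (hw : BA k w) : BA k fun i z => (u i z, w i z) := by
  obtain ⟨⟨C, hC⟩, D, hD⟩ := And.intro hu hw
  exact ⟨C + D, fun i => ((hC i).1.prod (hD i).1).imp_right fun h =>
    h.trans (add_le_add (hC i).2 (hD i).2)⟩

theorem BA.mono {j : ℕ} (hu : BA k u) (h : j ≤ k) : BA j u := by
  obtain ⟨C, hC⟩ := hu
  exact ⟨C, fun i => ⟨(hC i).1.mono h, ((hC i).1.nA_mono h).trans (hC i).2⟩⟩

theorem BA.fixed {f : ℂ → V} (hf : MemA k f) : BA k fun _ : ι => f := by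
  exact ⟨_, fun _ => ⟨hf, le_rfl⟩⟩

theorem BA.dx (hu : BA (k + 1) u) : BA k fun i => px (u i) := by
  obtain ⟨C, hC⟩ := hu
  exact ⟨C, fun i => (hC i).1.dx.imp_right fun h => h.trans (hC i).2⟩

theorem BA.dy (hu : BA (k + 1) u) : BA k fun i => py (u i) := by
  obtain ⟨C, hC⟩ := hu
  exact ⟨C, fun i => (hC i).1.dy.imp_right fun h => h.trans (hC i).2⟩

theorem BA.b0 (hu : BA k u) : B0 u := by
  obtain ⟨C, hC⟩ := hu
  exact ⟨fun i => (hC i).1.cont, C, fun i z => ((hC i).1.norm_le z).trans (hC i).2⟩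

theorem BA.b2 (hu : BA k u) (hk : 2 ≤ k) : B2 u := by
  have h : BA (0 + 1 + 1) u := hu.mono hk
  obtain ⟨C, hC⟩ := id h
  exact ⟨fun i => (hC i).1.contDiff, fun i => (hC i).1.per, h.b0, h.dx.b0, h.dy.b0,
    h.dx.dx.b0.bl, h.dy.dy.b0.bl⟩

theorem BA.succ (h1 : ∀ i, ContDiff ℝ 1 (u i)) (hp : ∀ i, Per (u i)) (h0 : B0 u)
    (hx : BA k fun i => px (u i)) (hy : BA k fun i => py (u i)) : BA (k + 1) u := by
  obtain ⟨⟨A, hA⟩, ⟨C, hC⟩, D, hD⟩ := And.intro h0.avg (And.intro hx hy)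
  exact ⟨A + 2 * (C + D), fun i => (memA_succ (h1 i) (hp i) (hC i).1 (hD i).1).imp_right fun h =>
    by linarith [hA i, (hC i).2, (hD i).2]⟩

theorem BA.of_lap (h2 : ∀ i, ContDiff ℝ 2 (u i)) (hp : ∀ i, Per (u i)) (h0 : B0 u)
    (hl : BA k fun i => lap (u i)) : BA (k + 2) u := by
  obtain ⟨⟨A, hA⟩, C, hC⟩ := And.intro h0.avg hl
  exact ⟨A + 6 * C, fun i => (memA_lap (h2 i) (hp i) (hC i).1).imp_right fun h =>
    by linarith [hA i, (hC i).2]⟩

theorem BA.iter (hu : BA k u) {j : ℕ} (hj : j ≤ k) :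
    ∃ C : ℝ, ∀ i z, ‖iteratedFDeriv ℝ j (u i) z‖ ≤ C := by
  obtain ⟨C, hC⟩ := hu
  exact ⟨2 ^ j * C, fun i z => ((hC i).1.norm_iteratedFDeriv_le hj z).trans
    (mul_le_mul_of_nonneg_left (hC i).2 (by positivity))⟩

end Pool.Agent.Lib.MP_ccffa6_gt.Wi
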