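import Pool.Agent.Lib.MP_ccffa6_gt.T.WFam2

/-!
Bessel inequality and the embedding of the mean square class of order two into the Wiener class.
-/

open Set Filter Topology
open scoped ContDiff Real

noncomputable section

namespace Pool.Agent.Lib.MP_ccffa6_gt.Wi

theorem WH2_inner {E : Type} [NormedAddCommGroup E] [InnerProductSpace ℝ E] [CompleteSpace E]
    {g : ℂ → E} (hg : Continuous g) (s : Finset Ix) (c : Ix → E) :
    avg (fun z => inner ℝ (∑ i ∈ s, tr i z • c i) (g z)) = ∑ i ∈ s, inner ℝ (c i) (co g i) := by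
  have h : ∀ i, Continuous fun z => tr i z • g z := fun i => (continuous_tr i).smul hg
  simp only [sum_inner, real_inner_smul_left, ← real_inner_smul_right]
  rw [avg_sum s fun i _ => continuous_const.inner (h i)]
  exact Finset.sum_congr rfl fun i _ => avg_clm (innerSL ℝ (c i)) (h i)

theorem bessel {E : Type} [NormedAddCommGroup E] [InnerProductSpace ℝ E] [CompleteSpace E]
    {f : ℂ → E} (hf : Continuous f) (s : Finset Ix) : ∑ i ∈ s, ‖co f i‖ ^ 2 ≤ l2 f := by
  classical
  have hS : Continuous fun z => ∑ i ∈ s, tr i z • co f i :=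
    continuous_finsetSum _ fun i _ => (continuous_tr i).smul continuous_const
  have h1 := WH2_inner hf s (co f)
  have h2 := WH2_inner hS s (co f)
  have h3 : ∀ i ∈ s, inner ℝ (co f i) (co (fun z => ∑ j ∈ s, tr j z • co f j) i) ≤
      ‖co f i‖ ^ 2 := fun i hi => by
    have e : co (fun z => ∑ j ∈ s, tr j z • co f j) i =
        ∑ j ∈ s, avg (fun z => tr i z * tr j z) • co f j := by
      have h := fun j => (continuous_tr i).fun_mul (continuous_tr j)
      rw [co]
      simp only [Finset.smul_sum, smul_smul]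
      rw [avg_sum s fun j _ => (h j).fun_smul continuous_const]
      exact Finset.sum_congr rfl fun j _ => avg_smul_const (h j) _
    simp only [e, avg_tr_mul, add_smul, ite_smul, zero_smul, Finset.sum_add_distrib,
      Finset.sum_ite_eq', if_pos hi, co_ng, smul_smul, inner_add_right, real_inner_smul_right,
      real_inner_self_eq_norm_sq]
    split_ifs
    · rw [real_inner_smul_right, real_inner_self_eq_norm_sq, div_mul_eq_mul_div (sg i),
        sg_mul_sg]
      linarith
    · rw [inner_zero_right]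
      nlinarith [sq_nonneg ‖co f i‖]
  have h4 := avg_nonneg fun z => sq_nonneg ‖∑ i ∈ s, tr i z • co f i - f z‖
  simp only [norm_sub_sq_real, ← real_inner_self_eq_norm_sq (∑ i ∈ s, tr i _ • co f i),
    ← smul_eq_mul (2 : ℝ)] at h4
  rw [avg_add ((hS.inner hS).fun_sub ((hS.inner hf).fun_const_smul _)) (hf.norm.fun_pow 2),
    avg_sub (hS.inner hS) ((hS.inner hf).fun_const_smul _), avg_smul, h1, h2, smul_eq_mul] at h4
  simp only [real_inner_self_eq_norm_sq] at h4
  have h5 := Finset.sum_le_sum h3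
  rw [l2]
  linarith

theorem h2_inner {E : Type} [NormedAddCommGroup E] [InnerProductSpace ℝ E] [CompleteSpace E]
    {f : ℂ → E} (hf : ContDiff ℝ 2 f) (hp : Per f) :
    MemA 0 f ∧ nA 0 f ≤ (∑' i : Ix, ((1 + eig i) ^ 2)⁻¹) + l2 f + l2 (lap f) := by
  have h1 : ∀ s : Finset Ix, ∑ i ∈ s, wt i ^ 0 * ‖co f i‖ ≤
      (∑' i : Ix, ((1 + eig i) ^ 2)⁻¹) + l2 f + l2 (lap f) := fun s => by
    refine le_trans ?_ (add_le_add (add_le_add (summable_eig.sum_le_tsum s fun i _ => by positivity)
      (bessel hf.continuous s)) (bessel (contDiff_lap (m := 0) hf (by simp)).continuous s))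
    rw [← Finset.sum_add_distrib, ← Finset.sum_add_distrib]
    refine Finset.sum_le_sum fun i _ => ?_
    have h0 := eig_nonneg i
    have h2 : (1 + eig i)⁻¹ * (1 + eig i) = 1 := inv_mul_cancel₀ (by positivity)
    rw [co_lap hf hp, norm_smul, norm_neg, Real.norm_of_nonneg h0, ← inv_pow]
    nlinarith [sq_nonneg ((1 + eig i)⁻¹ - (1 + eig i) * ‖co f i‖), sq_nonneg (1 + eig i)⁻¹,
      sq_nonneg (‖co f i‖ - eig i * ‖co f i‖), congrArg (· * ‖co f i‖) h2]
  have h2 := summable_of_sum_le (WSyn2_nn 0 f) h1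
  exact ⟨⟨hf.continuous, hp, h2⟩, h2.tsum_le_of_sum_le h1⟩

theorem BA.of_h2 {ι V : Type} [NormedAddCommGroup V] [NormedSpace ℝ V] [CompleteSpace V]
    [FiniteDimensional ℝ V] {u : ι → ℂ → V} (h2 : ∀ i, ContDiff ℝ 2 (u i)) (hp : ∀ i, Per (u i))
    (h0 : BL u) (hl : BL fun i => lap (u i)) : BA 0 u := by
  let L := toEuclidean (E := V)
  obtain ⟨-, C, hC⟩ := h0.clm L.toContinuousLinearMap
  obtain ⟨-, D, hD⟩ := hl.clm L.toContinuousLinearMap
  have h : BA 0 fun i z => L.toContinuousLinearMap (u i z) :=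
    ⟨(∑' i : Ix, ((1 + eig i) ^ 2)⁻¹) + C + D, fun i => by
      obtain ⟨h3, h4⟩ := h2_inner (L.toContinuousLinearMap.contDiff.comp (h2 i)) fun z =>
        ⟨congrArg L (hp i z).1, congrArg L (hp i z).2⟩
      refine ⟨h3, h4.trans (add_le_add (add_le_add le_rfl (hC i)) (le_trans (le_of_eq ?_) (hD i)))⟩
      exact congrArg l2 (funext (lap_clm L.toContinuousLinearMap (h2 i)))⟩
  simpa using h.clm L.symm.toContinuousLinearMap

end Pool.Agent.Lib.MP_ccffa6_gt.Wi
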