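import Pool.Agent.Lib.MP_ccffa6_gt.T.WOps

/-!
Multipliers as operators; inverses of the Laplacian and of the Cauchy-Riemann operator.
-/

open Set Filter Topology MeasureTheory
open scoped ContDiff ComplexConjugate Real

noncomputable section

namespace Pool.Agent.Lib.MP_ccffa6_gt

open Wi

attribute [local instance] Wi.cpl

namespace WA

variable {k : ℕ} {V : Type} [NormedAddCommGroup V] [NormedSpace ℝ V] [FiniteDimensional ℝ V]
  {V' : Type} [NormedAddCommGroup V'] [NormedSpace ℝ V'] [FiniteDimensional ℝ V']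

/-- A multiplier with even symbol. -/
def multL {j : ℕ} (m : Ix → ℝ) (C : ℝ) (hm : ∀ i, m (ng i) = m i)
    (hC : ∀ i, wt i ^ j * |m i| ≤ C * wt i ^ k) : WA k V →L[ℝ] WA j V :=
  mkL (mult m) C (fun _ hf => ⟨(hf.mult hm hC).1, (hf.mult hm hC).2.1⟩)
    (fun f g hf hg => by
      have h1 := hf.mult hm hC
      have h2 := hg.mult hm hC
      have h3 := (hf.add hg).1.mult hm hC
      have h4 := (h1.1.add h2.1).1
      refine ext_co h3.1.cont h3.1.per h4.cont h4.per fun i => ?_
      rw [h3.2.2, co_add hf.cont hg.cont, co_add h1.1.cont h2.1.cont, h1.2.2, h2.2.2, smul_add])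
    fun c f hf => by
      have h1 := hf.mult hm hC
      have h3 := (hf.smul c).1.mult hm hC
      have h4 := (h1.1.smul c).1
      refine ext_co h3.1.cont h3.1.per h4.cont h4.per fun i => ?_
      rw [h3.2.2, co_smul, co_smul, h1.2.2, smul_comm]

theorem co_multL {j : ℕ} (m : Ix → ℝ) (C : ℝ) (hm : ∀ i, m (ng i) = m i)
    (hC : ∀ i, wt i ^ j * |m i| ≤ C * wt i ^ k) (u : WA k V) (i : Ix) :
    co (fn (multL m C hm hC u)) i = m i • co (fn u) i := (u.memA.mult hm hC).2.2 i

theorem norm_multL {j : ℕ} (m : Ix → ℝ) (C : ℝ) (hm : ∀ i, m (ng i) = m i)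
    (hC : ∀ i, wt i ^ j * |m i| ≤ C * wt i ^ k) (u : WA k V) :
    ‖multL m C hm hC u‖ ≤ C * ‖u‖ := (u.memA.mult hm hC).2.1

theorem ext_co' {u v : WA k V} (h : ∀ i, co (fn u) i = co (fn v) i) : u = v :=
  val_ext (ext_co u.memA.cont u.per v.memA.cont v.per h)

theorem WInv_eig {i : Ix} (h : i.1 = (0, 0)) : eig i = 0 := by
  simp [eig, h]

theorem WInv_add (u v : WA k V) (i : Ix) : co (fn (u + v)) i = co (fn u) i + co (fn v) i :=
  co_add u.memA.cont v.memA.cont i

theorem WInv_dx (u : WA (k + 1) V) (i : Ix) :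
    co (fn (dx u)) i = (sg i * i.1.1) • co (fn u) (fl i) := co_px u.memA.contDiff_one u.per i

theorem WInv_dy (u : WA (k + 1) V) (i : Ix) :
    co (fn (dy u)) i = (sg i * i.1.2) • co (fn u) (fl i) := co_py u.memA.contDiff_one u.per i

theorem WInv_lin (A : V →L[ℝ] V') (u : WA k V) (i : Ix) :
    co (fn (lin A u)) i = A (co (fn u) i) := co_clm A u.memA.cont i

theorem WInv_lap (u : WA (k + 2) V) (i : Ix) :
    co (fn (dx (dx u) + dy (dy u))) i = -eig i • co (fn u) i :=
  co_lap (u.memA.mono (Nat.le_add_left 2 k)).contDiff u.per i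

theorem WInv_mean (u : WA k V) (i : Ix) :
    co (fn (u - const (mean u))) i = (eig i * (eig i)⁻¹) • co (fn u) i := by
  refine (co_sub u.memA.cont continuous_const i).trans ?_
  change co (fn u) i - co (fun _ => mean u) i = _
  rw [co_const]
  by_cases h : i.1 = (0, 0)
  · rw [WInv_eig h, zero_mul, zero_smul]
    obtain ⟨n, b⟩ := i
    obtain rfl : n = (0, 0) := h
    cases b
    · rw [co_zero_false, if_neg (by simp [i0]), sub_zero]
    · exact sub_eq_zero.2 ((co_i0 _).trans (if_pos rfl).symm)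
  · rw [if_neg (fun h' : i = i0 => h (by rw [h']; rfl)), sub_zero,
      mul_inv_cancel₀ (one_pos.trans_le (one_le_eig h)).ne', one_smul]

theorem WInv_jj {j : V →L[ℝ] V} (hj : ∀ v, j (j v) = -v) (u : WA k V) : lin j (lin j u) = -u :=
  ext fun _ => hj _

theorem lapInv_bound (k : ℕ) (i : Ix) : wt i ^ (k + 2) * |-(eig i)⁻¹| ≤ 6 * wt i ^ k := by
  have h0 := pow_nonneg (wt_pos i).le k
  by_cases h : i.1 = (0, 0)
  · rw [WInv_eig h, inv_zero, neg_zero, abs_zero, mul_zero]
    positivity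
  · have h1 := one_le_eig h
    have h2 := wt_sq_le i
    rw [abs_neg, abs_of_nonneg (inv_nonneg.2 (eig_nonneg i)), pow_add, mul_assoc, mul_comm 6]
    refine mul_le_mul_of_nonneg_left ?_ h0
    rw [mul_inv_le_iff₀ (by linarith)]
    linarith

/-- Inverse of the Laplacian. -/
def lapInv : WA k V →L[ℝ] WA (k + 2) V :=
  multL (fun i => -(eig i)⁻¹) 6 (fun i => by rw [eig_ng]) (lapInv_bound k)

theorem co_lapInv (u : WA k V) (i : Ix) :
    co (fn (lapInv u)) i = -(eig i)⁻¹ • co (fn u) i := co_multL _ _ _ _ u i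

theorem lap_lapInv (f : WA k V) :
    dx (dx (lapInv f)) + dy (dy (lapInv f)) = f - const (mean f) := by
  refine ext_co' fun i => ?_
  rw [WInv_lap, co_lapInv, WInv_mean, smul_smul, neg_mul_neg]

theorem lapInv_lap (u : WA (k + 2) V) :
    lapInv (dx (dx u) + dy (dy u)) = u - const (mean u) := by
  refine ext_co' fun i => ?_
  rw [co_lapInv, WInv_lap, WInv_mean, smul_smul, neg_mul_neg, mul_comm]

theorem mean_lapInv (f : WA k V) : mean (lapInv f) = 0 := by
  rw [mean_eq, ← co_i0, co_lapInv, WInv_eig rfl, inv_zero, neg_zero, zero_smul]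

theorem dx_dy (u : WA (k + 2) V) : dx (dy u) = dy (dx u) := by
  refine ext_co' fun i => ?_
  rw [WInv_dx, WInv_dy, WInv_dy, WInv_dx, smul_smul, smul_smul]
  congr 1
  simp only [fl]
  ring

theorem dx_lin (A : V →L[ℝ] V') (u : WA (k + 1) V) : dx (lin A u) = lin A (dx u) := by
  refine ext_co' fun i => ?_
  rw [WInv_dx, WInv_lin, WInv_lin, WInv_dx, map_smul]

theorem dy_lin (A : V →L[ℝ] V') (u : WA (k + 1) V) : dy (lin A u) = lin A (dy u) := by
  refine ext_co' fun i => ?_
  rw [WInv_dy, WInv_lin, WInv_lin, WInv_dy, map_smul]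

/-- Inverse of `∂x + j ∂y` for a constant complex structure `j`. -/
def dbInv (j : V →L[ℝ] V) : WA k V →L[ℝ] WA (k + 1) V :=
  (dx - (lin j).comp dy).comp lapInv

theorem dbInv_apply (j : V →L[ℝ] V) (f : WA k V) :
    dbInv j f = dx (lapInv f) - lin j (dy (lapInv f)) := rfl

theorem db_dbInv {j : V →L[ℝ] V} (hj : ∀ v, j (j v) = -v) (f : WA k V) :
    dx (dbInv j f) + lin j (dy (dbInv j f)) = f - const (mean f) := by
  rw [dbInv_apply, map_sub, map_sub, map_sub, dx_lin, dy_lin, WInv_jj hj, dx_dy, ← lap_lapInv]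
  abel

theorem dbInv_db {j : V →L[ℝ] V} (hj : ∀ v, j (j v) = -v) (u : WA (k + 1) V) :
    dbInv j (dx u + lin j (dy u)) = u - const (mean u) := by
  have e : lapInv (dx u + lin j (dy u)) =
      dx (k := k + 2) (lapInv u) + lin j (dy (k := k + 2) (lapInv u)) := by
    refine ext_co' fun i => ?_
    simp only [co_lapInv, WInv_add, WInv_dx, WInv_dy, WInv_lin, map_smul, smul_add]
    exact congrArg₂ (· + ·) (smul_comm _ _ _) (smul_comm _ _ _)
  rw [dbInv_apply, e, map_add, map_add, map_add, dx_lin, dy_lin, WInv_jj hj, dx_dy,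
    ← lap_lapInv]
  abel

end WA

end Pool.Agent.Lib.MP_ccffa6_gt
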