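import Pool.Agent.Lib.MP_ccffa6_gt.T.WSyn2

/-!
Multipliers and symmetries.
Sketch: `MemA.mult`: `synth` and `co_synth`. Symmetries: compute `co` by `avg_shift`, `avg_conj`,
`avg_negArg` and `tr_add`, `tr_conj`, `tr_neg`; reindex the sums (`Equiv.tsum_eq`, `flE`).
-/

open Set Filter Topology
open scoped ContDiff Real

noncomputable section

namespace Pool.Agent.Lib.MP_ccffa6_gt.Wi

variable {V : Type} [NormedAddCommGroup V] [NormedSpace ℝ V] [CompleteSpace V]
  {W : Type} [NormedAddCommGroup W] [NormedSpace ℝ W] [CompleteSpace W]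
  {X : Type} [NormedAddCommGroup X] [NormedSpace ℝ X] [CompleteSpace X] {f g : ℂ → V} {k : ℕ}

theorem WMul2_sub {Y : Type} {u : ℂ → Y} (h : Per u) (z : ℂ) :
    u (z - 2 * (π : ℂ)) = u z ∧ u (z - 2 * (π : ℂ) * Complex.I) = u z := by
  have h1 := (h (z - 2 * (π : ℂ))).1
  have h2 := (h (z - 2 * (π : ℂ) * Complex.I)).2
  rw [sub_add_cancel] at h1 h2
  exact ⟨h1.symm, h2.symm⟩

theorem WMul2_shift {Y : Type} {u : ℂ → Y} (h : Per u) (c : ℂ) : Per fun z => u (z + c) :=
  fun _ => ⟨(congrArg u (add_right_comm _ _ _)).trans (h _).1,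
    (congrArg u (add_right_comm _ _ _)).trans (h _).2⟩

theorem WMul2_co_shift (hf : Continuous f) (hp : Per f) (c : ℂ) (i : Ix) :
    ‖co (fun z => f (z + c)) i‖ ≤ ‖co f i‖ + ‖co f (fl i)‖ := by
  have hc : Continuous fun z => tr i (z + -c) • f z :=
    ((continuous_tr i).comp (continuous_id.add continuous_const)).smul hf
  have hq : Per fun z => tr i (z + -c) • f z := fun z =>
    ⟨congrArg₂ (· • ·) (WMul2_shift (per_tr i) (-c) z).1 (hp z).1,
      congrArg₂ (· • ·) (WMul2_shift (per_tr i) (-c) z).2 (hp z).2⟩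
  have h1 := avg_shift hc hq c
  simp only [add_neg_cancel_right] at h1
  have h2 : co (fun z => f (z + c)) i = Real.cos (ph i.1 (-c)) • co f i -
      (sg i * Real.sin (ph i.1 (-c))) • co f (fl i) := by
    have c1 := continuous_tr i
    have c2 := continuous_tr (fl i)
    rw [co, h1, co, co, ← avg_smul, ← avg_smul, ← avg_sub (by fun_prop) (by fun_prop)]
    refine congrArg avg (funext fun z => ?_)
    rw [tr_add, sub_smul, mul_smul, mul_smul]
  rw [h2]
  refine (norm_sub_le _ _).trans (add_le_add ?_ ?_)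
  · rw [norm_smul]
    exact mul_le_of_le_one_left (norm_nonneg _) (Real.abs_cos_le_one _)
  · rw [norm_smul, Real.norm_eq_abs, abs_mul, abs_sg, one_mul]
    exact mul_le_of_le_one_left (norm_nonneg _) (Real.abs_sin_le_one _)

/-- Reflection of the second frequency. -/
def WMul2_cj : Ix ≃ Ix where
  toFun i := ((i.1.1, -i.1.2), i.2)
  invFun i := ((i.1.1, -i.1.2), i.2)
  left_inv i := by simp
  right_inv i := by simp

theorem WMul2_wt (i : Ix) : wt (WMul2_cj i) = wt i := by
  simp [wt, WMul2_cj]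

theorem WMul2_co_conj (f : ℂ → V) (i : Ix) :
    co (fun z => f ((starRingEnd ℂ) z)) i = co f (WMul2_cj i) := by
  have h1 := avg_conj fun z => tr i ((starRingEnd ℂ) z) • f z
  simp only [Complex.conj_conj] at h1
  rw [co, h1, co]
  exact congrArg avg (funext fun z => by rw [tr_conj]; rfl)

theorem WMul2_co_neg (f : ℂ → V) (i : Ix) : ‖co (fun z => f (-z)) i‖ = ‖co f i‖ := by
  have h1 := avg_negArg fun z => tr i (-z) • f z
  simp only [neg_neg] at h1
  have h2 : co (fun z => f (-z)) i = sg i • co f i := by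
    rw [co, h1, co, ← avg_smul]
    exact congrArg avg (funext fun z => by rw [tr_neg, mul_smul])
  rw [h2, norm_smul, Real.norm_eq_abs, abs_sg, one_mul]

/-- Fourier multiplier. -/
def mult (m : Ix → ℝ) (f : ℂ → V) (z : ℂ) : V := ∑' i, tr i z • m i • co f i

theorem MemA.mult {j : ℕ} {m : Ix → ℝ} {C : ℝ} (hf : MemA k f) (hm : ∀ i, m (ng i) = m i)
    (hC : ∀ i, wt i ^ j * |m i| ≤ C * wt i ^ k) :
    MemA j (mult m f) ∧ nA j (mult m f) ≤ C * nA k f ∧ ∀ i, co (mult m f) i = m i • co f i := by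
  have h1 : ∀ i, wt i ^ j * ‖m i • co f i‖ ≤ C * (wt i ^ k * ‖co f i‖) := fun i => by
    rw [norm_smul, Real.norm_eq_abs, ← mul_assoc, ← mul_assoc]
    exact mul_le_mul_of_nonneg_right (hC i) (norm_nonneg _)
  have h2 : Summable fun i => wt i ^ j * ‖m i • co f i‖ :=
    Summable.of_nonneg_of_le (fun i => mul_nonneg (pow_nonneg (wt_pos i).le j) (norm_nonneg _)) h1
      (hf.summ.mul_left C)
  have h3 : Summable fun i => ‖m i • co f i‖ :=
    Summable.of_nonneg_of_le (fun i => norm_nonneg _)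
      (fun i => le_mul_of_one_le_left (norm_nonneg _) (one_le_pow₀ (one_le_wt i))) h2
  obtain ⟨h4, h5⟩ := synth (k := j) (fun i : Ix => i) (fun _ => le_rfl) h2
  refine ⟨h4, h5.trans ?_, co_synth h3 fun i => by rw [hm, co_ng, smul_comm]⟩
  rw [nA, ← tsum_mul_left]
  exact h2.tsum_le_tsum h1 (hf.summ.mul_left C)

/-- Two functions of the class with the same coefficients agree. -/
theorem ext_co (hf : Continuous f) (hp : Per f) (hg : Continuous g) (hq : Per g)
    (h : ∀ i, co f i = co g i) : f = g := by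
  refine funext fun z => sub_eq_zero.1 (eq_zero_of_co (f := fun z => f z - g z) (hf.sub hg)
    (fun z => ⟨congrArg₂ (· - ·) (hp z).1 (hq z).1, congrArg₂ (· - ·) (hp z).2 (hq z).2⟩)
    (fun i => ?_) z)
  rw [co_sub hf hg, h, sub_self]

theorem MemA.shift (hf : MemA k f) (c : ℂ) :
    MemA k (fun z => f (z + c)) ∧ nA k (fun z => f (z + c)) ≤ 2 * nA k f := by
  have h1 : ∀ i, wt i ^ k * ‖co (fun z => f (z + c)) i‖ ≤
      wt i ^ k * ‖co f i‖ + wt (flE i) ^ k * ‖co f (flE i)‖ := fun i => by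
    have e : wt (flE i) = wt i := wt_fl i
    rw [e, ← mul_add]
    exact mul_le_mul_of_nonneg_left (WMul2_co_shift hf.cont hf.per c i)
      (pow_nonneg (wt_pos i).le k)
  have h2 : Summable fun i => wt (flE i) ^ k * ‖co f (flE i)‖ :=
    (flE.summable_iff (f := fun i => wt i ^ k * ‖co f i‖)).2 hf.summ
  have h3 : Summable fun i => wt i ^ k * ‖co (fun z => f (z + c)) i‖ :=
    Summable.of_nonneg_of_le (fun i => mul_nonneg (pow_nonneg (wt_pos i).le k) (norm_nonneg _)) h1
      (hf.summ.add h2)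
  refine ⟨⟨hf.cont.comp (continuous_id.add continuous_const), WMul2_shift hf.per c, h3⟩, ?_⟩
  refine (h3.tsum_le_tsum h1 (hf.summ.add h2)).trans_eq ?_
  rw [hf.summ.tsum_add h2, flE.tsum_eq fun i => wt i ^ k * ‖co f i‖, two_mul, nA]

theorem MemA.conj (hf : MemA k f) : MemA k (fun z => f ((starRingEnd ℂ) z)) ∧
    nA k (fun z => f ((starRingEnd ℂ) z)) = nA k f := by
  have h1 : (fun i => wt i ^ k * ‖co (fun z => f ((starRingEnd ℂ) z)) i‖) =
      fun i => wt (WMul2_cj i) ^ k * ‖co f (WMul2_cj i)‖ := funext fun i => by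
    rw [WMul2_wt, WMul2_co_conj]
  refine ⟨⟨hf.cont.comp Complex.continuous_conj, fun z => ⟨?_, ?_⟩, ?_⟩, ?_⟩
  · exact (congrArg f (by simp [map_ofNat])).trans (hf.per _).1
  · exact (congrArg f (by simp [sub_eq_add_neg, map_ofNat])).trans (WMul2_sub hf.per _).2
  · rw [h1]
    exact (WMul2_cj.summable_iff (f := fun i => wt i ^ k * ‖co f i‖)).2 hf.summ
  · rw [nA, h1, WMul2_cj.tsum_eq fun i => wt i ^ k * ‖co f i‖, nA]

theorem MemA.negArg (hf : MemA k f) :
    MemA k (fun z => f (-z)) ∧ nA k (fun z => f (-z)) = nA k f := by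
  have h1 : (fun i => wt i ^ k * ‖co (fun z => f (-z)) i‖) = fun i => wt i ^ k * ‖co f i‖ :=
    funext fun i => by rw [WMul2_co_neg]
  refine ⟨⟨hf.cont.comp continuous_neg, fun z => ⟨?_, ?_⟩, ?_⟩, ?_⟩
  · exact (congrArg f (neg_add' _ _)).trans (WMul2_sub hf.per _).1
  · exact (congrArg f (neg_add' _ _)).trans (WMul2_sub hf.per _).2
  · rw [h1]
    exact hf.summ
  · rw [nA, h1, nA]

end Pool.Agent.Lib.MP_ccffa6_gt.Wi
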