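import Pool.Agent.Lib.MP_ccffa6_gt.T.WSp
import Pool.Agent.Lib.MP_ccffa6_gt.T.WMul
import Pool.Agent.Lib.MP_ccffa6_gt.T.WMul2
import Pool.Agent.Lib.MP_ccffa6_gt.T.WDer2

/-!
Bounded operators on the spaces `WA k V`.
-/

open Set Filter Topology
open scoped ContDiff ComplexConjugate Real

noncomputable section

namespace Pool.Agent.Lib.MP_ccffa6_gt

open Wi

attribute [local instance] Wi.cpl

namespace WA

variable {k j : ℕ} {V : Type} [NormedAddCommGroup V] [NormedSpace ℝ V] [FiniteDimensional ℝ V]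
  {V' : Type} [NormedAddCommGroup V'] [NormedSpace ℝ V'] [FiniteDimensional ℝ V']
  {V'' : Type} [NormedAddCommGroup V''] [NormedSpace ℝ V''] [FiniteDimensional ℝ V'']

theorem contDiff (u : WA k V) : ContDiff ℝ k (fn u) := u.memA.contDiff

def incl : WA (k + 1) V →L[ℝ] WA k V :=
  mkL id 1 (fun _ hf => ⟨hf.mono (Nat.le_succ k), by simpa using hf.nA_mono (Nat.le_succ k)⟩)
    (fun _ _ _ _ => rfl) fun _ _ _ => rfl

theorem fn_incl (u : WA (k + 1) V) : fn (incl u) = fn u := rfl

theorem diffAt {f : ℂ → V} (hf : MemA (k + 1) f) (z : ℂ) : DifferentiableAt ℝ f z :=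
  hf.contDiff_one.differentiable one_ne_zero z

def dx : WA (k + 1) V →L[ℝ] WA k V :=
  mkL px 1 (fun _ hf => ⟨hf.dx.1, by simpa using hf.dx.2⟩)
    (fun f g hf hg => funext fun z => by
      simp only [px]
      rw [fderiv_fun_add (diffAt hf z) (diffAt hg z)]
      rfl)
    fun c f hf => funext fun z => by
      simp only [px]
      rw [fderiv_fun_const_smul (diffAt hf z)]
      rfl

theorem fn_dx (u : WA (k + 1) V) : fn (dx u) = px (fn u) := rfl

def dy : WA (k + 1) V →L[ℝ] WA k V :=
  mkL py 1 (fun _ hf => ⟨hf.dy.1, by simpa using hf.dy.2⟩)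
    (fun f g hf hg => funext fun z => by
      simp only [py]
      rw [fderiv_fun_add (diffAt hf z) (diffAt hg z)]
      rfl)
    fun c f hf => funext fun z => by
      simp only [py]
      rw [fderiv_fun_const_smul (diffAt hf z)]
      rfl

theorem fn_dy (u : WA (k + 1) V) : fn (dy u) = py (fn u) := rfl

def lin (A : V →L[ℝ] V') : WA k V →L[ℝ] WA k V' :=
  mkL (fun f z => A (f z)) ‖A‖ (fun _ hf => hf.clm A)
    (fun _ _ _ _ => funext fun _ => map_add A _ _) fun c _ _ => funext fun _ => map_smul A c _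

theorem fn_lin (A : V →L[ℝ] V') (u : WA k V) (z : ℂ) : fn (lin A u) z = A (fn u z) := rfl

def bil (B : V →L[ℝ] V' →L[ℝ] V'') : WA k V →L[ℝ] WA k V' →L[ℝ] WA k V'' :=
  LinearMap.mkContinuous₂
    (LinearMap.mk₂ ℝ (fun u v => mk (fun z => B (u.val z) (v.val z)) (u.memA.bil B v.memA).1)
      (fun u u' v => val_ext (funext fun z => by simp [val_mk, val_add]))
      (fun c u v => val_ext (funext fun z => by simp [val_mk, val_smul]))
      (fun u v v' => val_ext (funext fun z => by simp [val_mk, val_add]))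
      (fun c u v => val_ext (funext fun z => by simp [val_mk, val_smul])))
    ‖B‖ fun u v => (u.memA.bil B v.memA).2

theorem fn_bil (B : V →L[ℝ] V' →L[ℝ] V'') (u : WA k V) (v : WA k V') (z : ℂ) :
    fn (bil B u v) z = B (fn u z) (fn v z) := rfl

theorem memA_r1 {f : ℂ → V} (hf : MemA k f) :
    MemA k (fun z => f (r1 z)) ∧ nA k (fun z => f (r1 z)) ≤ 2 * nA k f := by
  have h1 := hf.shift π
  have h2 := h1.1.negArg
  have h3 := h2.1.conj
  have e : (fun z => f (r1 z)) = fun z => f (-conj z + π) := by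
    funext z
    rw [r1, sub_eq_neg_add]
  rw [e]
  exact ⟨h3.1, (h3.2.trans h2.2).le.trans h1.2⟩

theorem memA_r2 {f : ℂ → V} (hf : MemA k f) :
    MemA k (fun z => f (r2 z)) ∧ nA k (fun z => f (r2 z)) ≤ 2 * nA k f := by
  have h1 := hf.shift (π * Complex.I)
  have h3 := h1.1.conj
  exact ⟨h3.1, h3.2.le.trans h1.2⟩

def refl1 : WA k V →L[ℝ] WA k V :=
  mkL (fun f z => f (r1 z)) 2 (fun _ hf => memA_r1 hf) (fun _ _ _ _ => rfl) fun _ _ _ => rfl

theorem fn_refl1 (u : WA k V) (z : ℂ) : fn (refl1 u) z = fn u (r1 z) := rfl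

def refl2 : WA k V →L[ℝ] WA k V :=
  mkL (fun f z => f (r2 z)) 2 (fun _ hf => memA_r2 hf) (fun _ _ _ _ => rfl) fun _ _ _ => rfl

theorem fn_refl2 (u : WA k V) (z : ℂ) : fn (refl2 u) z = fn u (r2 z) := rfl

def const : V →L[ℝ] WA k V :=
  LinearMap.mkContinuous
    { toFun := fun v => mk (fun _ => v) (memA_const k v).1
      map_add' := fun _ _ => rfl
      map_smul' := fun _ _ => rfl } 1
    fun v => (memA_const k v).2.le.trans (one_mul _).ge

theorem fn_const (v : V) (z : ℂ) : fn (const v : WA k V) z = v := rfl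

/-- The mean value over a period square. -/
def mean : WA k V →L[ℝ] V :=
  LinearMap.mkContinuous
    { toFun := fun u => avg u.val
      map_add' := fun u v => avg_add u.memA.cont v.memA.cont
      map_smul' := fun c u => avg_smul c u.val } 1
    fun u => u.memA.norm_avg_le.trans (one_mul _).ge

theorem mean_eq (u : WA k V) : mean u = avg (fn u) := rfl

theorem mean_refl1 (u : WA k V) : mean (refl1 u) = mean u := by
  have e : fn (refl1 u) = fun z => (fun z => (fun z => fn u (z + π)) (-z)) (conj z) := by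
    funext z
    rw [fn_refl1, r1, sub_eq_neg_add]
  rw [mean_eq, e, avg_conj (fun z => (fun z => fn u (z + π)) (-z)),
    avg_negArg (fun z => fn u (z + π)), avg_shift u.memA_fn.cont u.per, mean_eq]

theorem mean_refl2 (u : WA k V) : mean (refl2 u) = mean u := by
  have e : fn (refl2 u) = fun z => (fun z => fn u (z + π * Complex.I)) (conj z) := rfl
  rw [mean_eq, e, avg_conj (fun z => fn u (z + π * Complex.I)),
    avg_shift u.memA_fn.cont u.per, mean_eq]

theorem mean_const (v : V) : mean (const v : WA k V) = v := avg_const v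

theorem mean_incl (u : WA (k + 1) V) : mean (incl u) = mean u := rfl

theorem mean_dx (u : WA (k + 1) V) : mean (dx u) = 0 := avg_px u.memA.contDiff_one u.per

theorem mean_dy (u : WA (k + 1) V) : mean (dy u) = 0 := avg_py u.memA.contDiff_one u.per

theorem mean_lin (A : V →L[ℝ] V') (u : WA k V) : mean (lin A u) = A (mean u) :=
  avg_clm A u.memA.cont

end WA

end Pool.Agent.Lib.MP_ccffa6_gt
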