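import Pool.Agent.Lib.MP_ccffa6_gt.T.WOps
import Pool.Agent.Lib.MP_ccffa6_gt.T.WSup
import Pool.Agent.Lib.MP_42bfd7_mp.ParInt

/-!
Smoothness of superposition operators.
-/

open Set Filter Topology MeasureTheory
open scoped ContDiff ComplexConjugate Real

noncomputable section

namespace Pool.Agent.Lib.MP_ccffa6_gt

open Wi

attribute [local instance] Wi.cpl

namespace WA

variable {k : ℕ} {V : Type} [NormedAddCommGroup V] [NormedSpace ℝ V] [FiniteDimensional ℝ V]
  {V' : Type} [NormedAddCommGroup V'] [NormedSpace ℝ V'] [FiniteDimensional ℝ V']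

theorem of_smooth {f : ℂ → V} (hf : ContDiff ℝ ∞ f) (hp : Per f) : ∃ u : WA k V, fn u = f :=
  ⟨mk f (memA_of_smooth hf hp k), rfl⟩

open Classical in
/-- Superposition. -/
def sup (f : V → V') (u : WA k V) : WA k V' :=
  if h : MemA k (fun z => f (fn u z)) then mk _ h else 0

theorem fn_sup (hk : 2 ≤ k) {f : V → V'} (hf : ContDiff ℝ ∞ f) (u : WA k V) (z : ℂ) :
    fn (sup f u) z = f (fn u z) := by
  rw [sup, dif_pos (u.memA_fn.comp hf hk)]
  rfl

theorem WSm_par {F : Type} [NormedAddCommGroup F] [NormedSpace ℝ F] [CompleteSpace F] {g : V → F}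
    (hg : ContDiff ℝ ∞ g) :
    ContDiff ℝ ∞ fun p : V × V => ∫ t in (0 : ℝ)..1, (1 - t) • g (p.1 + t • p.2) :=
  contDiffOn_univ.1 (MP_42bfd7_mp.contDiffOn_parInt (g := fun q : (V × V) × ℝ =>
    (1 - q.2) • g (q.1.1 + q.2 • q.1.2)) isOpen_univ isOpen_univ (subset_univ _)
    (ContDiff.contDiffOn ((contDiff_const.sub contDiff_snd).smul (hg.comp (by fun_prop)))))

theorem hadamard2 {f : V → V'} (hf : ContDiff ℝ ∞ f) :
    ∃ R : V × V → V →L[ℝ] V →L[ℝ] V', ContDiff ℝ ∞ R ∧
      ∀ y h, f (y + h) = f y + fderiv ℝ f y h + R (y, h) h h := by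
  have h1 : ContDiff ℝ ∞ (fderiv ℝ f) := (contDiff_infty_iff_fderiv.1 hf).2
  have h2 : ContDiff ℝ ∞ (fderiv ℝ (fderiv ℝ f)) := (contDiff_infty_iff_fderiv.1 h1).2
  refine ⟨fun p => ∫ t in (0 : ℝ)..1, (1 - t) • fderiv ℝ (fderiv ℝ f) (p.1 + t • p.2), ?_,
    fun y h => ?_⟩
  · exact WSm_par (F := V →L[ℝ] V →L[ℝ] V') h2
  · have hl : ∀ t : ℝ, HasDerivAt (fun t : ℝ => y + t • h) h t := fun t => by
      simpa using ((hasDerivAt_id t).smul_const h).const_add y
    have hφ : ∀ t : ℝ, HasDerivAt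
        (fun t : ℝ => (1 - t) • fderiv ℝ f (y + t • h) h + f (y + t • h))
        ((1 - t) • fderiv ℝ (fderiv ℝ f) (y + t • h) h h) t := fun t => by
      have e1 := ((hf.differentiable (by simp)) (y + t • h)).hasFDerivAt.comp_hasDerivAt t (hl t)
      have e2 := ((h1.differentiable (by simp)) (y + t • h)).hasFDerivAt.comp_hasDerivAt t (hl t)
      have e3 := (ContinuousLinearMap.apply ℝ V' h).hasFDerivAt.comp_hasDerivAt t e2
      refine ((((hasDerivAt_id t).const_sub 1).smul e3).add e1).congr_deriv ?_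
      simp only [id, Function.comp_apply, ContinuousLinearMap.apply_apply]
      module
    have hc := h2.continuous
    have hi : Continuous fun t : ℝ => (1 - t) • fderiv ℝ (fderiv ℝ f) (y + t • h) := by fun_prop
    have hi1 : Continuous fun t : ℝ => ((1 - t) • fderiv ℝ (fderiv ℝ f) (y + t • h)) h :=
      hi.clm_apply continuous_const
    have e := intervalIntegral.integral_eq_sub_of_hasDerivAt (a := 0) (b := 1)
      (fun t _ => hφ t) ((hi1.clm_apply continuous_const).intervalIntegrable _ _)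
    rw [ContinuousLinearMap.intervalIntegral_apply (hi.intervalIntegrable _ _),
      ContinuousLinearMap.intervalIntegral_apply (hi1.intervalIntegrable _ _)]
    simp only [smul_apply]
    rw [e]
    simp only [sub_self, zero_smul, zero_add, sub_zero, one_smul, add_zero]
    abel

theorem hasFDerivAt_sup (hk : 2 ≤ k) {f : V → V'} (hf : ContDiff ℝ ∞ f) (u : WA k V) :
    HasFDerivAt (sup f : WA k V → WA k V')
      (bil (ContinuousLinearMap.id ℝ (V →L[ℝ] V')) (sup (fderiv ℝ f) u)) u := by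
  have h1 : ContDiff ℝ ∞ (fderiv ℝ f) := (contDiff_infty_iff_fderiv.1 hf).2
  obtain ⟨R, hR, hT⟩ := hadamard2 hf
  have hb : BA k fun (h : Metric.closedBall (0 : WA k V) 1) z => (fn u z, fn h.1 z) :=
    BA.prod (BA.fixed u.memA_fn)
      ⟨1, fun h => ⟨h.1.memA_fn, mem_closedBall_zero_iff.1 h.2⟩⟩
  obtain ⟨C, hC⟩ := BA.comp hR (hb.b2 hk) hb
  rw [hasFDerivAt_iff_isLittleO_nhds_zero]
  refine Asymptotics.IsBigO.trans_isLittleO (g := fun h : WA k V => ‖h‖ ^ 2)
    (Asymptotics.IsBigO.of_bound C ?_) (Asymptotics.isLittleO_norm_pow_id one_lt_two)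
  filter_upwards [Metric.closedBall_mem_nhds (0 : WA k V) one_pos] with h hh
  obtain ⟨m1, m2⟩ := hC ⟨h, hh⟩
  obtain ⟨a1, a2⟩ := m1.app h.memA_fn
  obtain ⟨-, b2⟩ := a1.app h.memA_fn
  have e : (sup f (u + h) - sup f u -
      bil (ContinuousLinearMap.id ℝ (V →L[ℝ] V')) (sup (fderiv ℝ f) u) h).val =
      fun z => R (fn u z, fn h z) (fn h z) (fn h z) := by
    funext z
    change fn (sup f (u + h)) z - fn (sup f u) z -
      fn (bil (ContinuousLinearMap.id ℝ (V →L[ℝ] V')) (sup (fderiv ℝ f) u) h) z = _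
    rw [fn_bil, fn_sup hk hf, fn_sup hk hf, fn_sup hk h1]
    change f (fn u z + fn h z) - _ - _ = _
    rw [hT, ContinuousLinearMap.id_apply]
    abel
  have hn : nA k (fn h) = ‖h‖ := rfl
  rw [norm_def, e, norm_pow, norm_norm, sq, ← mul_assoc]
  rw [hn] at a2 b2
  exact b2.trans (mul_le_mul_of_nonneg_right
    (a2.trans (mul_le_mul_of_nonneg_right m2 (norm_nonneg _))) (norm_nonneg _))

theorem contDiff_sup (hk : 2 ≤ k) {f : V → V'} (hf : ContDiff ℝ ∞ f) :
    ContDiff ℝ ∞ (sup f : WA k V → WA k V') := by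
  refine contDiff_infty.2 fun n => ?_
  induction n generalizing V' with
  | zero =>
    exact contDiff_zero.2 (continuous_iff_continuousAt.2 fun u =>
      (hasFDerivAt_sup hk hf u).continuousAt)
  | succ n ih =>
    refine contDiff_succ_iff_hasFDerivAt.2 ⟨_, ?_, hasFDerivAt_sup hk hf⟩
    exact (bil (ContinuousLinearMap.id ℝ (V →L[ℝ] V'))).contDiff.comp
      (ih (contDiff_infty_iff_fderiv.1 hf).2)

end WA

end Pool.Agent.Lib.MP_ccffa6_gt
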