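import Pool.Agent.Lib.MP_ccffa6_gt.T.WSyn2

/-!
The Banach spaces `WA k V`.
-/

open Set Filter Topology
open scoped ContDiff Real

noncomputable section

namespace Pool.Agent.Lib.MP_ccffa6_gt

open Wi

theorem Wi.cpl (V : Type) [NormedAddCommGroup V] [NormedSpace ℝ V] [FiniteDimensional ℝ V] :
    CompleteSpace V := FiniteDimensional.complete ℝ V

attribute [local instance] Wi.cpl

/-- The Wiener class as a submodule. -/
def Wi.subA (k : ℕ) (V : Type) [NormedAddCommGroup V] [NormedSpace ℝ V] [FiniteDimensional ℝ V] :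
    Submodule ℝ (ℂ → V) where
  carrier := {f | MemA k f}
  add_mem' hf hg := (MemA.add hf hg).1
  zero_mem' := (memA_const k (0 : V)).1
  smul_mem' c _ hf := (MemA.smul hf c).1

/-- Doubly periodic maps `ℂ → V` of regularity `k`. -/
def WA (k : ℕ) (V : Type) [NormedAddCommGroup V] [NormedSpace ℝ V] [FiniteDimensional ℝ V] :
    Type := subA k V

namespace WA

variable {k j : ℕ} {V : Type} [NormedAddCommGroup V] [NormedSpace ℝ V] [FiniteDimensional ℝ V]
  {V' : Type} [NormedAddCommGroup V'] [NormedSpace ℝ V'] [FiniteDimensional ℝ V']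

instance instACG : AddCommGroup (WA k V) := inferInstanceAs (AddCommGroup (subA k V))

instance instMod : Module ℝ (WA k V) := inferInstanceAs (Module ℝ (subA k V))

/-- The underlying function. -/
def val (u : WA k V) : ℂ → V := Subtype.val (p := fun f => f ∈ subA k V) u

theorem memA (u : WA k V) : MemA k u.val := Subtype.property (p := fun f => f ∈ subA k V) u

/-- Constructor. -/
def mk (f : ℂ → V) (hf : MemA k f) : WA k V := (⟨f, hf⟩ : subA k V)

theorem val_mk (f : ℂ → V) (hf : MemA k f) : (mk f hf).val = f := rfl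

theorem val_ext {u v : WA k V} (h : u.val = v.val) : u = v := Subtype.ext h

theorem val_add (u v : WA k V) : (u + v).val = fun z => u.val z + v.val z := rfl

theorem val_sub (u v : WA k V) : (u - v).val = fun z => u.val z - v.val z := rfl

theorem val_smul (c : ℝ) (u : WA k V) : (c • u).val = fun z => c • u.val z := rfl

theorem val_zero : (0 : WA k V).val = fun _ => 0 := rfl

/-- The norm. -/
def grpNorm (k : ℕ) (V : Type) [NormedAddCommGroup V] [NormedSpace ℝ V] [FiniteDimensional ℝ V] :
    AddGroupNorm (WA k V) where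
  toFun u := nA k u.val
  map_zero' := (memA_const k (0 : V)).2.trans norm_zero
  add_le' u v := (u.memA.add v.memA).2
  neg' u := by
    have h := (u.memA.smul (-1)).2
    have e : (-u).val = fun z => (-1 : ℝ) • u.val z := by
      funext z
      rw [neg_one_smul]
      rfl
    rw [e, h]
    simp
  eq_zero_of_map_eq_zero' u h := by
    refine val_ext (funext fun z => norm_le_zero_iff.1 ?_)
    exact (u.memA.norm_le z).trans h.le

instance : NormedAddCommGroup (WA k V) := (grpNorm k V).toNormedAddCommGroup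

theorem norm_def (u : WA k V) : ‖u‖ = nA k u.val := rfl

instance : NormedSpace ℝ (WA k V) := ⟨fun c u => (u.memA.smul c).2.le⟩

theorem norm_val_le (u : WA k V) (z : ℂ) : ‖u.val z‖ ≤ ‖u‖ := u.memA.norm_le z

instance : CompleteSpace (WA k V) := by
  refine Metric.complete_of_cauchySeq_tendsto fun u hu => ?_
  have hd : ∀ m n z, dist ((u m).val z) ((u n).val z) ≤ dist (u m) (u n) := fun m n z => by
    rw [dist_eq_norm, dist_eq_norm]
    exact norm_val_le (u m - u n) z
  have hU : UniformCauchySeqOn (fun n => (u n).val) atTop univ := by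
    rw [Metric.uniformCauchySeqOn_iff]
    intro ε hε
    obtain ⟨N, hN⟩ := Metric.cauchySeq_iff.1 hu ε hε
    exact ⟨N, fun m hm n hn z _ => (hd m n z).trans_lt (hN m hm n hn)⟩
  have hP : ∀ z, ∃ y, Tendsto (fun n => (u n).val z) atTop (𝓝 y) := fun z =>
    cauchySeq_tendsto_of_complete (hU.cauchySeq (mem_univ z))
  choose f hf using hP
  have hT : TendstoUniformly (fun n => (u n).val) f atTop :=
    tendstoUniformlyOn_univ.1 (hU.tendstoUniformlyOn_of_tendsto fun z _ => hf z)
  have hc : Continuous f :=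
    hT.continuous (Eventually.of_forall fun n => (u n).memA.cont).frequently
  have key : ∀ ε > 0, ∃ N, ∀ n ≥ N, MemA k (fun z => (u n).val z - f z) ∧
      nA k (fun z => (u n).val z - f z) ≤ ε := fun ε hε => by
    obtain ⟨N, hN⟩ := Metric.cauchySeq_iff.1 hu ε hε
    refine ⟨N, fun n hn => memA_of_tendsto (u := fun m => (u n - u (m + N)).val)
      (fun m => memA _) (fun m => ?_) ((u n).memA.cont.sub hc) ?_⟩
    · have := hN n hn (m + N) (by omega)
      rw [dist_eq_norm] at this
      exact this.le
    · rw [Metric.tendstoUniformly_iff] at hT ⊢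
      intro δ hδ
      filter_upwards [(tendsto_add_atTop_nat N).eventually (hT δ hδ)] with m hm z
      rw [val_sub, dist_sub_left]
      exact hm z
  obtain ⟨N, hN⟩ := key 1 one_pos
  have hm : MemA k f := by
    have := ((u N).memA.sub (hN N le_rfl).1).1
    simpa using this
  refine ⟨mk f hm, Metric.tendsto_atTop.2 fun ε hε => ?_⟩
  obtain ⟨N, hN⟩ := key (ε / 2) (by linarith)
  refine ⟨N, fun n hn => ?_⟩
  rw [dist_eq_norm]
  exact lt_of_le_of_lt (hN n hn).2 (by linarith)

/-- Evaluation. -/
def ev (z : ℂ) : WA k V →L[ℝ] V :=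
  LinearMap.mkContinuous
    { toFun := fun u => u.val z, map_add' := fun _ _ => rfl, map_smul' := fun _ _ => rfl } 1
    fun u => by simpa using norm_val_le u z

/-- The underlying map. -/
def fn (u : WA k V) (z : ℂ) : V := ev z u

theorem fn_eq (u : WA k V) : fn u = u.val := rfl

theorem memA_fn (u : WA k V) : MemA k (fn u) := u.memA

theorem fn_mk (f : ℂ → V) (hf : MemA k f) : fn (mk f hf) = f := rfl

theorem norm_fn (u : WA k V) : ‖u‖ = nA k (fn u) := rfl

theorem ext {u v : WA k V} (h : ∀ z, fn u z = fn v z) : u = v := val_ext (funext h)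

theorem per (u : WA k V) : Per (fn u) := u.memA.per

theorem norm_fn_le (u : WA k V) (z : ℂ) : ‖fn u z‖ ≤ ‖u‖ := norm_val_le u z

theorem bound : ∃ C : ℝ, 0 < C ∧ ∀ (u : WA k V) (z : ℂ), ‖fn u z‖ ≤ C * ‖u‖ :=
  ⟨1, one_pos, fun u z => by simpa using norm_fn_le u z⟩

theorem fn_add (u v : WA k V) (z : ℂ) : fn (u + v) z = fn u z + fn v z := rfl

theorem fn_sub (u v : WA k V) (z : ℂ) : fn (u - v) z = fn u z - fn v z := rfl

theorem fn_smul (c : ℝ) (u : WA k V) (z : ℂ) : fn (c • u) z = c • fn u z := rfl

theorem fn_zero (z : ℂ) : fn (0 : WA k V) z = 0 := rfl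

/-- A bounded operator from an operator on functions. -/
def mkL (T : (ℂ → V) → ℂ → V') (C : ℝ)
    (hm : ∀ f, MemA k f → MemA j (T f) ∧ nA j (T f) ≤ C * nA k f)
    (ha : ∀ f g, MemA k f → MemA k g → T (fun z => f z + g z) = fun z => T f z + T g z)
    (hs : ∀ (c : ℝ) f, MemA k f → T (fun z => c • f z) = fun z => c • T f z) :
    WA k V →L[ℝ] WA j V' :=
  LinearMap.mkContinuous
    { toFun := fun u => mk (T u.val) (hm _ u.memA).1
      map_add' := fun u v => val_ext (ha _ _ u.memA v.memA)
      map_smul' := fun c u => val_ext (hs c _ u.memA) } C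
    fun u => (hm _ u.memA).2

theorem fn_mkL (T : (ℂ → V) → ℂ → V') (C : ℝ) (hm ha hs) (u : WA k V) :
    fn ((mkL T C hm ha hs : WA k V →L[ℝ] WA j V') u) = T (fn u) := rfl

end WA

end Pool.Agent.Lib.MP_ccffa6_gt
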