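import Pool.Agent.Lib.MP_ccffa6_gt.T.WTr2

/-!
Coefficients, synthesis, Fourier inversion, elementary closure properties.
Sketch: `hasSum_co_synth` is `hasSum_avg` applied to `tr i • tr (p j) • c j`. `synth`: by `avg_tr_mul`
the double family `wt i ^ k * |avg (tr i * tr (p j))| * ‖c j‖` has, for fixed `j`, sum over `i` at most
`wt (p j) ^ k * ‖c j‖` (two terms of size one half); exchange the sums (`summable_prod_of_nonneg`, or
bound finite sums with `summable_of_sum_le`, `Real.tsum_le_of_sum_le`).
`MemA.hasSum`: the difference of `f` and its series has zero coefficients (`co_ng`), use `eq_zero_of_co`.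
-/

open Set Filter Topology
open scoped ContDiff Real

noncomputable section

namespace Pool.Agent.Lib.MP_ccffa6_gt.Wi

variable {V : Type} [NormedAddCommGroup V] [NormedSpace ℝ V] [CompleteSpace V]
  {W : Type} [NormedAddCommGroup W] [NormedSpace ℝ W] [CompleteSpace W]
  {X : Type} [NormedAddCommGroup X] [NormedSpace ℝ X] [CompleteSpace X] {f g : ℂ → V} {k : ℕ}

omit [CompleteSpace V] in
theorem WSyn_norm_smul (i : Ix) (z : ℂ) (v : V) : ‖tr i z • v‖ ≤ ‖v‖ := by
  rw [norm_smul]
  exact mul_le_of_le_one_left (norm_nonneg _) (abs_tr_le i z)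

theorem WSyn_sum (k : ℕ) (s : Finset Ix) (j : Ix) :
    ∑ i ∈ s, wt i ^ k * |avg fun z => tr i z * tr j z| ≤ wt j ^ k := by
  have h0 := pow_pos (wt_pos j) k
  have h : ∀ i, wt i ^ k * |avg fun z => tr i z * tr j z| ≤
      (if j = i then wt j ^ k / 2 else 0) + if ng j = i then wt j ^ k / 2 else 0 := fun i => by
    rw [avg_tr_mul]
    refine (mul_le_mul_of_nonneg_left (abs_add_le _ _) (pow_pos (wt_pos i) k).le).trans ?_
    rw [mul_add]
    refine add_le_add ?_ ?_
    · split_ifs with h
      · rw [h, abs_of_pos one_half_pos, mul_one_div]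
      · simp
    · by_cases h : j = ng i
      · rw [if_pos h, h, ng_ng, if_pos rfl, wt_ng, abs_div, abs_sg, abs_two, mul_one_div]
      · rw [if_neg h, if_neg fun e => h (by rw [← e, ng_ng])]
        simp
  refine (Finset.sum_le_sum fun i _ => h i).trans ?_
  rw [Finset.sum_add_distrib, Finset.sum_ite_eq, Finset.sum_ite_eq]
  split_ifs <;> linarith

theorem co_add (hf : Continuous f) (hg : Continuous g) (i : Ix) :
    co (fun z => f z + g z) i = co f i + co g i := by
  simp only [co, smul_add]
  exact avg_add ((continuous_tr i).smul hf) ((continuous_tr i).smul hg)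

theorem co_sub (hf : Continuous f) (hg : Continuous g) (i : Ix) :
    co (fun z => f z - g z) i = co f i - co g i := by
  simp only [co, smul_sub]
  exact avg_sub ((continuous_tr i).smul hf) ((continuous_tr i).smul hg)

theorem co_smul (c : ℝ) (f : ℂ → V) (i : Ix) : co (fun z => c • f z) i = c • co f i := by
  simp only [co, smul_comm _ c]
  exact avg_smul c _

theorem co_clm (L : V →L[ℝ] W) (hf : Continuous f) (i : Ix) :
    co (fun z => L (f z)) i = L (co f i) := by
  simp only [co, ← L.map_smul]
  exact avg_clm L ((continuous_tr i).smul hf)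

theorem co_ng (f : ℂ → V) (i : Ix) : co f (ng i) = sg i • co f i := by
  simp only [co, tr_ng, mul_smul]
  exact avg_smul _ _

theorem co_i0 (f : ℂ → V) : co f i0 = avg f := by
  simp only [co, tr_i0, one_smul]

theorem co_zero_false (f : ℂ → V) : co f ((0, 0), false) = 0 := by
  simp only [co, tr_zero_false, zero_smul]
  exact avg_const 0

theorem co_const (v : V) (i : Ix) : co (fun _ => v) i = if i = i0 then v else 0 := by
  rw [co, avg_smul_const (continuous_tr i), avg_tr]
  split_ifs <;> simp

theorem norm_co_le {M : ℝ} (h : ∀ z, ‖f z‖ ≤ M) (i : Ix) : ‖co f i‖ ≤ M := by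
  exact norm_avg_le fun z => (WSyn_norm_smul i z _).trans (h z)

theorem hasSum_co_synth {ι : Type} (p : ι → Ix) {c : ι → V} (hs : Summable fun j => ‖c j‖)
    (i : Ix) : HasSum (fun j => avg (fun z => tr i z * tr (p j) z) • c j)
      (co (fun z => ∑' j, tr (p j) z • c j) i) := by
  have h := hasSum_avg (g := fun j z => tr i z • tr (p j) z • c j)
    (fun j => (continuous_tr i).smul ((continuous_tr _).smul continuous_const)) hs
    fun j z => (WSyn_norm_smul i z _).trans (WSyn_norm_smul _ z _)
  simp only [tsum_const_smul''] at h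
  refine h.congr_fun fun j => ?_
  simp only [smul_smul]
  exact (avg_smul_const ((continuous_tr i).mul (continuous_tr _)) _).symm

/-- Synthesis over an arbitrary index type. -/
theorem synth {ι : Type} (p : ι → Ix) {c : ι → V} {w : ι → ℝ} (hw : ∀ j, wt (p j) ^ k ≤ w j)
    (hs : Summable fun j => w j * ‖c j‖) :
    MemA k (fun z => ∑' j, tr (p j) z • c j) ∧
      nA k (fun z => ∑' j, tr (p j) z • c j) ≤ ∑' j, w j * ‖c j‖ := by
  have h0 : Summable fun j => ‖c j‖ := hs.of_nonneg_of_le (fun _ => norm_nonneg _) fun j =>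
    le_mul_of_one_le_left (norm_nonneg _) ((one_le_pow₀ (one_le_wt _)).trans (hw j))
  have h1 : ∀ i, Summable fun j => |avg fun z => tr i z * tr (p j) z| * ‖c j‖ := fun i =>
    h0.of_nonneg_of_le (fun _ => by positivity) fun j =>
      mul_le_of_le_one_left (norm_nonneg _) (norm_avg_le (V := ℝ) fun z =>
        (WSyn_norm_smul i z (tr (p j) z)).trans (abs_tr_le _ z))
  have h2 : ∀ s : Finset Ix, ∑ i ∈ s, wt i ^ k * ‖co (fun z => ∑' j, tr (p j) z • c j) i‖ ≤
      ∑' j, w j * ‖c j‖ := fun s => by
    refine (Finset.sum_le_sum fun i _ => mul_le_mul_of_nonneg_left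
      ((hasSum_co_synth p h0 i).norm_le_of_bounded (h1 i).hasSum fun j =>
        (norm_smul _ _).le) (pow_pos (wt_pos i) k).le).trans ?_
    refine hasSum_le (fun j => ?_) (hasSum_sum fun i _ => (h1 i).hasSum.mul_left _) hs.hasSum
    simp only [← mul_assoc, ← Finset.sum_mul]
    exact mul_le_mul_of_nonneg_right ((WSyn_sum k s _).trans (hw j)) (norm_nonneg _)
  have h3 : ∀ i, 0 ≤ wt i ^ k * ‖co (fun z => ∑' j, tr (p j) z • c j) i‖ := fun i =>
    mul_nonneg (pow_pos (wt_pos i) k).le (norm_nonneg _)
  exact ⟨⟨continuous_tsum (fun j => (continuous_tr _).smul continuous_const) h0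
    fun j z => WSyn_norm_smul _ z _, fun z => ⟨by simp only [(per_tr _ z).1],
      by simp only [(per_tr _ z).2]⟩, summable_of_sum_le h3 h2⟩, Real.tsum_le_of_sum_le h3 h2⟩

/-- Coefficients of a series with the right parity. -/
theorem co_synth {c : Ix → V} (hs : Summable fun i => ‖c i‖) (hc : ∀ i, c (ng i) = sg i • c i)
    (i : Ix) : co (fun z => ∑' j, tr j z • c j) i = c i := by
  have h := hasSum_co_synth id hs i
  simp only [id, avg_tr_mul, add_smul] at h
  rw [h.unique ((hasSum_single i fun j hj => by simp [hj]).add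
    (hasSum_single (ng i) fun j hj => by simp [hj])), if_pos rfl, if_pos rfl, hc, smul_smul,
    div_mul_eq_mul_div, sg_mul_sg, ← add_smul, add_halves, one_smul]

end Pool.Agent.Lib.MP_ccffa6_gt.Wi
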