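import Pool.Agent.Lib.MP_ccffa6_gt.T.WDef

/-!
The trigonometric system: symmetries, products, derivatives, orthogonality, counting.
Sketch: `avg_tr`: if `n ≠ 0` then `tr i` is `px` or `py` of a multiple of `tr (fl i)`, use `avg_px`, `avg_py`.
`avg_tr_mul`: product formulas `tr i * tr j = (± tr (n+m, ·) ± tr (n-m, ·)) / 2` and `avg_tr`.
`summable_eig`: `(1 + a² + b²)² ≥ (1 + a²)(1 + b²)`, product of two summable series over `ℤ`.
-/

open Set Filter Topology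
open scoped ContDiff Real

noncomputable section

namespace Pool.Agent.Lib.MP_ccffa6_gt.Wi

/-- Opposite frequency. -/
def ng (i : Ix) : Ix := (-i.1, i.2)

/-- Parity of `tr i`. -/
def sg (i : Ix) : ℝ := cond i.2 1 (-1)

/-- Exchange of sine and cosine. -/
def fl (i : Ix) : Ix := (i.1, !i.2)

/-- The index of the constant function. -/
def i0 : Ix := ((0, 0), true)

@[simp] theorem ng_ng (i : Ix) : ng (ng i) = i := by
  simp [ng]

@[simp] theorem fl_fl (i : Ix) : fl (fl i) = i := by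
  simp [fl]

@[simp] theorem wt_ng (i : Ix) : wt (ng i) = wt i := by
  simp [wt, ng]

@[simp] theorem wt_fl (i : Ix) : wt (fl i) = wt i := by
  rfl

@[simp] theorem eig_ng (i : Ix) : eig (ng i) = eig i := by
  simp [eig, ng]

@[simp] theorem sg_ng (i : Ix) : sg (ng i) = sg i := by
  rfl

@[simp] theorem sg_fl (i : Ix) : sg (fl i) = -sg i := by
  obtain ⟨n, _ | _⟩ := i <;> simp [sg, fl]

@[simp] theorem sg_mul_sg (i : Ix) : sg i * sg i = 1 := by
  obtain ⟨n, _ | _⟩ := i <;> simp [sg]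

@[simp] theorem abs_sg (i : Ix) : |sg i| = 1 := by
  obtain ⟨n, _ | _⟩ := i <;> simp [sg]

@[simp] theorem wt_i0 : wt i0 = 1 := by
  simp [wt, i0]

@[simp] theorem tr_i0 (z : ℂ) : tr i0 z = 1 := by
  simp [tr, i0, ph]

/-- `ng` as a permutation. -/
def ngE : Ix ≃ Ix := ⟨ng, ng, ng_ng, ng_ng⟩

/-- `fl` as a permutation. -/
def flE : Ix ≃ Ix := ⟨fl, fl, fl_fl, fl_fl⟩

theorem one_le_wt (i : Ix) : 1 ≤ wt i := by
  have h1 := abs_nonneg (i.1.1 : ℝ)
  have h2 := abs_nonneg (i.1.2 : ℝ)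
  rw [wt]
  linarith

theorem wt_pos (i : Ix) : 0 < wt i := by
  exact one_pos.trans_le (one_le_wt i)

theorem eig_nonneg (i : Ix) : 0 ≤ eig i := by
  rw [eig]
  positivity

theorem wt_sq_le (i : Ix) : wt i ^ 2 ≤ 3 * (1 + eig i) := by
  rw [wt, eig, ← sq_abs (i.1.1 : ℝ), ← sq_abs (i.1.2 : ℝ)]
  generalize |(i.1.1 : ℝ)| = a
  generalize |(i.1.2 : ℝ)| = b
  nlinarith [sq_nonneg (a - b), sq_nonneg (a - 1), sq_nonneg (b - 1)]

theorem WTr_one_le {i : Ix} (h : i.1 ≠ (0, 0)) : 1 ≤ |(i.1.1 : ℝ)| ∨ 1 ≤ |(i.1.2 : ℝ)| := by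
  by_cases h1 : i.1.1 = 0
  · exact Or.inr (by exact_mod_cast Int.one_le_abs fun h2 => h (Prod.ext h1 h2))
  · exact Or.inl (by exact_mod_cast Int.one_le_abs h1)

theorem one_le_eig {i : Ix} (h : i.1 ≠ (0, 0)) : 1 ≤ eig i := by
  rw [eig]
  rcases WTr_one_le h with h1 | h1
  · nlinarith [sq_nonneg (i.1.2 : ℝ), (one_le_sq_iff_one_le_abs _).2 h1]
  · nlinarith [sq_nonneg (i.1.1 : ℝ), (one_le_sq_iff_one_le_abs _).2 h1]

theorem wt_le_two {i : Ix} (h : i.1 ≠ (0, 0)) : wt i ≤ 2 * (|(i.1.1 : ℝ)| + |(i.1.2 : ℝ)|) := by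
  have h1 := abs_nonneg (i.1.1 : ℝ)
  have h2 := abs_nonneg (i.1.2 : ℝ)
  rw [wt]
  rcases WTr_one_le h with h3 | h3 <;> linarith

theorem tr_zero_false (z : ℂ) : tr ((0, 0), false) z = 0 := by
  simp [tr, ph]

theorem tr_ng (i : Ix) (z : ℂ) : tr (ng i) z = sg i * tr i z := by
  have h : ph (-i.1) z = -ph i.1 z := by
    simp only [ph, Prod.fst_neg, Prod.snd_neg, Int.cast_neg]
    ring
  obtain ⟨n, _ | _⟩ := i <;> simp [tr, ng, sg, h]

theorem abs_tr_le (i : Ix) (z : ℂ) : |tr i z| ≤ 1 := by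
  obtain ⟨n, _ | _⟩ := i
  exacts [Real.abs_sin_le_one _, Real.abs_cos_le_one _]

/-- The phase as a linear map. -/
def WTr_L (n : ℤ × ℤ) : ℂ →L[ℝ] ℝ := (n.1 : ℝ) • Complex.reCLM + (n.2 : ℝ) • Complex.imCLM

theorem WTr_ph (n : ℤ × ℤ) : ph n = WTr_L n := rfl

theorem contDiff_tr (i : Ix) : ContDiff ℝ ∞ (tr i) := by
  obtain ⟨n, _ | _⟩ := i
  exacts [(WTr_L n).contDiff.sin, (WTr_L n).contDiff.cos]

theorem continuous_tr (i : Ix) : Continuous (tr i) := (contDiff_tr i).continuous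

theorem per_tr (i : Ix) : Per (tr i) := by
  intro z
  have h1 : ph i.1 (z + 2 * (π : ℂ)) = ph i.1 z + i.1.1 * (2 * π) := by
    simp [ph]
    ring
  have h2 : ph i.1 (z + 2 * (π : ℂ) * Complex.I) = ph i.1 z + i.1.2 * (2 * π) := by
    simp [ph]
    ring
  simp only [tr, h1, h2, Real.cos_add_int_mul_two_pi, Real.sin_add_int_mul_two_pi, and_self]

theorem fderiv_tr (i : Ix) (z v : ℂ) : fderiv ℝ (tr i) z v = -sg i * ph i.1 v * tr (fl i) z := by
  obtain ⟨n, _ | _⟩ := i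
  · have h : HasFDerivAt (tr (n, false)) _ z := (WTr_L n).hasFDerivAt.sin
    rw [h.fderiv]
    simp [sg, tr, fl, WTr_ph, mul_comm]
  · have h : HasFDerivAt (tr (n, true)) _ z := (WTr_L n).hasFDerivAt.cos
    rw [h.fderiv]
    simp [sg, tr, fl, WTr_ph, mul_comm]

theorem px_tr (i : Ix) (z : ℂ) : px (tr i) z = -sg i * i.1.1 * tr (fl i) z := by
  simp [px, fderiv_tr, ph]

theorem py_tr (i : Ix) (z : ℂ) : py (tr i) z = -sg i * i.1.2 * tr (fl i) z := by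
  simp [py, fderiv_tr, ph]

theorem norm_fderiv_tr_le (i : Ix) (z : ℂ) : ‖fderiv ℝ (tr i) z‖ ≤ wt i := by
  refine ContinuousLinearMap.opNorm_le_bound _ (wt_pos i).le fun v => ?_
  have h1 := mul_le_mul_of_nonneg_left (Complex.abs_re_le_norm v) (abs_nonneg (i.1.1 : ℝ))
  have h2 := mul_le_mul_of_nonneg_left (Complex.abs_im_le_norm v) (abs_nonneg (i.1.2 : ℝ))
  have h3 : |ph i.1 v| ≤ wt i * ‖v‖ := by
    refine (abs_add_le _ _).trans ?_
    rw [abs_mul, abs_mul, wt]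
    nlinarith [norm_nonneg v]
  rw [fderiv_tr, Real.norm_eq_abs, abs_mul, abs_mul, abs_neg, abs_sg, one_mul]
  exact (mul_le_of_le_one_right (abs_nonneg _) (abs_tr_le _ _)).trans h3

end Pool.Agent.Lib.MP_ccffa6_gt.Wi
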