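import Pool.Agent.Lib.MP_ccffa6_gt.T.WTr
import Pool.Agent.Lib.MP_ccffa6_gt.T.WAvg2

/-!
Products, orthogonality, counting.
Sketch: `avg_tr`: if `n ≠ 0` then `tr i` is `px` or `py` of a multiple of `tr (fl i)`, use `avg_px`, `avg_py`.
`avg_tr_mul`: product formulas `tr i * tr j = (± tr (n+m, ·) ± tr (n-m, ·)) / 2` and `avg_tr`.
`summable_eig`: `(1 + a² + b²)² ≥ (1 + a²)(1 + b²)`, product of two summable series over `ℤ`.
-/

open Set Filter Topology
open scoped ContDiff Real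

noncomputable section

namespace Pool.Agent.Lib.MP_ccffa6_gt.Wi

theorem WTr2_ph_add (n m : ℤ × ℤ) (z : ℂ) : ph (n + m) z = ph n z + ph m z := by
  simp only [ph, Prod.fst_add, Prod.snd_add]
  push_cast
  ring

theorem WTr2_ph_sub (n m : ℤ × ℤ) (z : ℂ) : ph (n - m) z = ph n z - ph m z := by
  simp only [ph, Prod.fst_sub, Prod.snd_sub]
  push_cast
  ring

theorem WTr2_mul (i j : Ix) (z : ℂ) : tr i z * tr j z =
    (cond (i.2 || j.2) (1 / 2) (-1 / 2) : ℝ) * tr (i.1 + j.1, i.2 == j.2) z +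
      (cond (i.2 && !j.2) (-1 / 2) (1 / 2) : ℝ) * tr (i.1 - j.1, i.2 == j.2) z := by
  obtain ⟨n, a⟩ := i
  obtain ⟨m, b⟩ := j
  cases a <;> cases b <;>
    simp [tr, WTr2_ph_add, WTr2_ph_sub, Real.cos_add, Real.cos_sub, Real.sin_add, Real.sin_sub] <;>
    ring

theorem WTr2_wt {a b c d x y : ℝ} (hx : |x| ≤ |a| + |c|) (hy : |y| ≤ |b| + |d|) :
    1 + |x| + |y| ≤ (1 + |a| + |b|) * (1 + |c| + |d|) := by
  have h1 := abs_nonneg a
  have h2 := abs_nonneg b
  have h3 := abs_nonneg c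
  have h4 := abs_nonneg d
  nlinarith [mul_nonneg (add_nonneg h1 h2) (add_nonneg h3 h4)]

theorem WTr2_summable : Summable fun a : ℤ => (1 + (a : ℝ) ^ 2)⁻¹ := by
  refine Summable.of_norm_bounded_eventually (Real.summable_one_div_int_pow.2 one_lt_two) ?_
  filter_upwards [(Set.finite_singleton (0 : ℤ)).compl_mem_cofinite] with a ha
  have h : (a : ℝ) ≠ 0 := Int.cast_ne_zero.2 ha
  rw [Real.norm_of_nonneg (by positivity), one_div]
  exact inv_anti₀ (by positivity) (by linarith)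

theorem tr_mul (i j : Ix) : ∃ (p q : Ix) (s t : ℝ), |s| ≤ 1 / 2 ∧ |t| ≤ 1 / 2 ∧
    wt p ≤ wt i * wt j ∧ wt q ≤ wt i * wt j ∧ ∀ z, tr i z * tr j z = s * tr p z + t * tr q z := by
  refine ⟨_, _, _, _, ?_, ?_, ?_, ?_, WTr2_mul i j⟩
  · cases (i.2 || j.2) <;> norm_num [abs_le]
  · cases (i.2 && !j.2) <;> norm_num [abs_le]
  · refine WTr2_wt ?_ ?_
    · simp only [Prod.fst_add, Int.cast_add]
      exact abs_add_le _ _
    · simp only [Prod.snd_add, Int.cast_add]
      exact abs_add_le _ _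
  · refine WTr2_wt ?_ ?_
    · simp only [Prod.fst_sub, Int.cast_sub]
      exact abs_sub _ _
    · simp only [Prod.snd_sub, Int.cast_sub]
      exact abs_sub _ _

theorem tr_add (i : Ix) (z c : ℂ) :
    tr i (z + c) = Real.cos (ph i.1 c) * tr i z - sg i * Real.sin (ph i.1 c) * tr (fl i) z := by
  have h : ph i.1 (z + c) = ph i.1 z + ph i.1 c := by
    simp only [ph, Complex.add_re, Complex.add_im]
    ring
  obtain ⟨n, a⟩ := i
  cases a <;> simp [tr, sg, fl, h, Real.cos_add, Real.sin_add] <;> ring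

theorem tr_neg (i : Ix) (z : ℂ) : tr i (-z) = sg i * tr i z := by
  have h : ph i.1 (-z) = -ph i.1 z := by
    simp only [ph, Complex.neg_re, Complex.neg_im]
    ring
  obtain ⟨n, a⟩ := i
  cases a <;> simp [tr, sg, h]

theorem tr_conj (i : Ix) (z : ℂ) : tr i ((starRingEnd ℂ) z) = tr ((i.1.1, -i.1.2), i.2) z := by
  have h : ph i.1 ((starRingEnd ℂ) z) = ph (i.1.1, -i.1.2) z := by
    simp [ph]
  simp only [tr, h]

theorem avg_tr (i : Ix) : avg (tr i) = if i = i0 then 1 else 0 := by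
  by_cases h0 : i.1 = (0, 0)
  · obtain ⟨n, a⟩ := i
    obtain rfl : n = (0, 0) := h0
    cases a
    · rw [if_neg (by simp [i0]), show tr ((0, 0), false) = fun _ => 0 from funext tr_zero_false,
        avg_const]
    · rw [if_pos (by simp [i0]), show tr ((0, 0), true) = fun _ => 1 from funext tr_i0, avg_const]
  · rw [if_neg fun h => h0 (by rw [h]; rfl)]
    have hs : sg i ≠ 0 := fun h => by simpa [h] using sg_mul_sg i
    have hd : ContDiff ℝ 1 (tr (fl i)) := (contDiff_tr _).of_le (by simp)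
    by_cases h1 : i.1.1 = 0
    · have h2 : i.1.2 ≠ 0 := fun h => h0 (Prod.ext h1 h)
      have h3 := avg_py hd (per_tr (fl i))
      rw [show py (tr (fl i)) = fun z => (sg i * i.1.2) • tr i z from funext fun z => by
        rw [py_tr, sg_fl, fl_fl, neg_neg]; rfl, avg_smul] at h3
      exact (smul_eq_zero.1 h3).resolve_left (mul_ne_zero hs (Int.cast_ne_zero.2 h2))
    · have h3 := avg_px hd (per_tr (fl i))
      rw [show px (tr (fl i)) = fun z => (sg i * i.1.1) • tr i z from funext fun z => by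
        rw [px_tr, sg_fl, fl_fl, neg_neg]; rfl, avg_smul] at h3
      exact (smul_eq_zero.1 h3).resolve_left (mul_ne_zero hs (Int.cast_ne_zero.2 h1))

theorem avg_tr_mul (i j : Ix) : avg (fun z => tr i z * tr j z) =
    (if j = i then 1 / 2 else 0) + (if j = ng i then sg i / 2 else 0) := by
  have h : avg (fun z => tr i z * tr j z) =
      (cond (i.2 || j.2) (1 / 2) (-1 / 2) : ℝ) • avg (tr (i.1 + j.1, i.2 == j.2)) +
        (cond (i.2 && !j.2) (-1 / 2) (1 / 2) : ℝ) • avg (tr (i.1 - j.1, i.2 == j.2)) := by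
    rw [← avg_smul, ← avg_smul]
    exact (congrArg avg (funext (WTr2_mul i j))).trans
      (avg_add (continuous_const.mul (continuous_tr _)) (continuous_const.mul (continuous_tr _)))
  rw [h, avg_tr, avg_tr]
  obtain ⟨n, a⟩ := i
  obtain ⟨m, b⟩ := j
  have h1 : n + m = (0, 0) ↔ m = -n := by
    rw [eq_neg_iff_add_eq_zero, add_comm]
    rfl
  have h2 : n - m = (0, 0) ↔ m = n := by
    rw [eq_comm (a := m), ← sub_eq_zero (a := n)]
    rfl
  cases a <;> cases b <;> simp [i0, ng, sg, h1, h2] <;> split_ifs <;> norm_num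

theorem summable_eig : Summable fun i : Ix => ((1 + eig i) ^ 2)⁻¹ := by
  have h0 : (0 : ℤ → ℝ) ≤ fun a : ℤ => (1 + (a : ℝ) ^ 2)⁻¹ := fun a => by positivity
  have h1 := WTr2_summable.mul_of_nonneg WTr2_summable h0 h0
  have h2 := h1.mul_of_nonneg (Summable.of_finite (f := fun _ : Bool => (1 : ℝ)))
    (fun a => by positivity) (fun _ => zero_le_one)
  refine Summable.of_nonneg_of_le (fun i => by positivity) (fun i => ?_) h2
  rw [mul_one, ← mul_inv, eig]
  refine inv_anti₀ (by positivity) ?_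
  nlinarith [sq_nonneg (i.1.1 : ℝ), sq_nonneg (i.1.2 : ℝ), sq_nonneg ((i.1.1 : ℝ) ^ 2),
    sq_nonneg ((i.1.2 : ℝ) ^ 2), mul_nonneg (sq_nonneg (i.1.1 : ℝ)) (sq_nonneg (i.1.2 : ℝ))]

theorem finite_wt_le (R : ℝ) : {i : Ix | wt i ≤ R}.Finite := by
  have key : ∀ a : ℤ, |(a : ℝ)| ≤ R → a ∈ Icc (-⌈R⌉) ⌈R⌉ := fun a ha => by
    have h : |a| ≤ ⌈R⌉ := by
      have h' := ha.trans (Int.le_ceil R)
      exact_mod_cast h'
    exact abs_le.1 h
  refine (((finite_Icc (-⌈R⌉) ⌈R⌉).prod (finite_Icc (-⌈R⌉) ⌈R⌉)).prod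
    (finite_univ (α := Bool))).subset fun i hi => ?_
  have h : 1 + |(i.1.1 : ℝ)| + |(i.1.2 : ℝ)| ≤ R := hi
  have h1 := abs_nonneg (i.1.1 : ℝ)
  have h2 := abs_nonneg (i.1.2 : ℝ)
  exact ⟨⟨key _ (by linarith), key _ (by linarith)⟩, trivial⟩

end Pool.Agent.Lib.MP_ccffa6_gt.Wi
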